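import Pool.Agent.RSV.Core

/-!
# Statements of the modules
-/

namespace Pool.Agent.RSV

open Polynomial

universe u v w

/-! ### Module A: from `VTC⁰` to the abstract interface -/

/-- A: an integer part which is a nonstandard model of `VTC⁰` gives a `BIP`. -/
def Stmt_A : Prop :=
  ∀ (M : TwoSorted.{u}) (R : Type v) [Field R] [LinearOrder R] [IsStrictOrderedRing R],
    IsVTC0 M → IsNonstandard M → IsIntegerPartOf M R →
    ∃ (U : Type u) (_ : CommSemiring U) (_ : LinearOrder U) (_ : IsStrictOrderedRing U)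
      (_ : CanonicallyOrderedAdd U), Nonempty (BIP U R)

/-! ### Internal families -/

/-- MUL: products of internal families -/
def Stmt_Mul : Prop :=
  ∀ (U : Type u) (R : Type v) [CommSemiring U] [LinearOrder U] [IsStrictOrderedRing U]
    [CanonicallyOrderedAdd U] [Field R] [LinearOrder R] [IsStrictOrderedRing R] (B : BIP U R)
    (K L : U) (S T : U → R), B.NF K S → B.NF L T → ∀ I : U,
    ∃ P, B.NF (K + L) P ∧ ∀ i, i < I → P i = S i * T i

/-- FIP: inner products of standard length of internal families -/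
def Stmt_FIP : Prop :=
  ∀ (U : Type u) (R : Type v) [CommSemiring U] [LinearOrder U] [IsStrictOrderedRing U]
    [CanonicallyOrderedAdd U] [Field R] [LinearOrder R] [IsStrictOrderedRing R] (B : BIP U R)
    (K L : U) (S T : U → R) (m : U → U), B.NF K S → B.NF L T → B.F1 m → ∀ I : U,
    ∃ (K' : U) (P : U → R), B.NF K' P ∧ ∀ i, i < I → ∀ n : ℕ, m i = n →
      P i = ∑ k ∈ Finset.range n, S (pr2 i k) * T (pr2 i k)

/-- FD: reciprocals of internal families -/
def Stmt_FD : Prop :=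
  ∀ (U : Type u) (R : Type v) [CommSemiring U] [LinearOrder U] [IsStrictOrderedRing U]
    [CanonicallyOrderedAdd U] [Field R] [LinearOrder R] [IsStrictOrderedRing R] (B : BIP U R)
    (K : U) (Y : U → R), B.NF K Y → (∀ i, 1 ≤ Y i) → ∀ N : U,
    ∃ J : U, Inf J ∧ ∃ (K' : U) (W : U → R), B.NF K' W ∧
      ∀ i, i < J → |1 / Y i - W i / B.e N| ≤ 1 / B.e N

/-- IF: internal extensions of computable functions -/
def Stmt_IF : Prop :=
  ∀ (U : Type u) (R : Type v) [CommSemiring U] [LinearOrder U] [IsStrictOrderedRing U]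
    [CanonicallyOrderedAdd U] [Field R] [LinearOrder R] [IsStrictOrderedRing R] (B : BIP U R)
    (f : ℕ → ℕ), Computable f → ∃ g : U → U, B.F1 g ∧ ∀ n : ℕ, g n = (f n : U)

/-- IF2: internal extensions of computable functions of two variables -/
def Stmt_IF2 : Prop :=
  ∀ (U : Type u) (R : Type v) [CommSemiring U] [LinearOrder U] [IsStrictOrderedRing U]
    [CanonicallyOrderedAdd U] [Field R] [LinearOrder R] [IsStrictOrderedRing R] (B : BIP U R)
    (f : ℕ → ℕ → ℕ), Computable₂ f → ∃ g : U → U → U, B.F (fun v => g (v 0) (v 1)) ∧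
      ∀ n m : ℕ, g n m = (f n m : U)

/-- The weak König lemma for computable systems of clauses (choosing with the help of the set `A`
between two computable systems): `K i` is a list of pairs (position, bit), not all of which may
agree with the sequence `τ`. -/
def WKLC (Cod : Set ℕ → Prop) : Prop :=
  ∀ (K₀ K₁ : ℕ → List (ℕ × Bool)) (A : Set ℕ), Computable K₀ → Computable K₁ → Cod A →
    (∀ k : ℕ, ∃ τ : ℕ → Bool, ∀ i < k, (i ∉ A → ∃ p ∈ K₀ i, τ p.1 ≠ p.2) ∧
      (i ∈ A → ∃ p ∈ K₁ i, τ p.1 ≠ p.2)) →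
    ∃ τ : ℕ → Bool, Cod {n | τ n = true} ∧ ∀ i, (i ∉ A → ∃ p ∈ K₀ i, τ p.1 ≠ p.2) ∧
      (i ∈ A → ∃ p ∈ K₁ i, τ p.1 ≠ p.2)

/-- The closure properties of the coded sets. -/
structure ScottLike (Cod : Set ℕ → Prop) : Prop where
  computable : ∀ A : Set ℕ, ComputablePred (fun n => n ∈ A) → Cod A
  preimage : ∀ (A : Set ℕ) (f : ℕ → ℕ), Cod A → Computable f → Cod (f ⁻¹' A)
  wkl : WKLC Cod

/-- SCOTT: the coded sets form a Scott set -/
def Stmt_Scott : Prop :=
  ∀ (U : Type u) (R : Type v) [CommSemiring U] [LinearOrder U] [IsStrictOrderedRing U]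
    [CanonicallyOrderedAdd U] [Field R] [LinearOrder R] [IsStrictOrderedRing R] (B : BIP U R),
    ScottLike B.Coded

/-! ### Bernoulli's method -/

/-- BERN: approximation of the dominant root of `x ^ d - ∑ β_k x ^ (d - k)`,
`β_k = γ_k - w γ_{k-1}`, by the remainders of the powers of `λ = 2 ^ K` modulo
`Q = λ ^ d - ∑ b_k λ ^ (d - k)`, where `b_k` is close to `β_k μ ^ k`, `μ = 2 ^ N'`. -/
def Stmt_Bern : Prop :=
  ∀ (U : Type u) (R : Type v) [CommSemiring U] [LinearOrder U] [IsStrictOrderedRing U]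
    [CanonicallyOrderedAdd U] [Field R] [LinearOrder R] [IsStrictOrderedRing R] (B : BIP U R)
    (N : U), ∃ N' M K : U,
    ∀ (d n : ℕ) (w : R) (γ b : ℕ → R) (Q : R) (ρ : U → R), 1 ≤ d → γ 0 = -1 → γ d = 0 →
      (∀ k ≤ d, |γ k| ≤ 2 ^ d) → 2 ^ (d + 5) ≤ w → w ≤ n → (∀ k, b k ∈ B.Z) →
      (∀ k, 1 ≤ k → k ≤ d → |b k - (γ k - w * γ (k - 1)) * B.e (k * N')| ≤ 2) →
      Q = B.e (d * K) - ∑ k ∈ Finset.Icc 1 d, b k * B.e ((d - k : ℕ) * K) →
      (∀ i, ρ i = B.e (K * i) - Q * B.fl (B.e (K * i) / Q)) →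
      1 ≤ Q ∧ Q ≤ 2 * B.e (d * K) ∧ 1 ≤ ρ M ∧ (∀ k : ℕ, 0 ≤ ρ (M + k) ∧ ρ (M + k) ≤ Q / 2) ∧
        ∀ k : ℕ, |ρ (M + k) / (ρ M * B.e (k * N')) - w ^ k| ≤ 1 / B.e N

/-- BERNFAM: families of dominant roots. For the indices `i ∈ A` the polynomial
`x ^ d - ∑ β_k x ^ (d - k)` of standard degree `d = m i` has the dominant root `w i`;
if the coefficients `β_k = x (pr2 i k)` form a `Cd` family, so do the powers `w i ^ k`. -/
def Stmt_BernFam : Prop :=
  ∀ (U : Type u) (R : Type v) [CommSemiring U] [LinearOrder U] [IsStrictOrderedRing U]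
    [CanonicallyOrderedAdd U] [Field R] [LinearOrder R] [IsStrictOrderedRing R] (B : BIP U R)
    (A A' : Set U) (x : U → R) (m : U → U) (w : U → R) (d : U → ℕ) (γ : U → ℕ → R),
    B.Cd A' x → B.F1 m →
    (∀ i ∈ A, m i = d i ∧ 1 ≤ d i ∧ γ i 0 = -1 ∧ γ i (d i) = 0 ∧
      (∀ k ≤ d i, |γ i k| ≤ 2 ^ d i) ∧ 2 ^ (d i + 5) ≤ w i ∧ (∃ n : ℕ, w i ≤ n) ∧
      ∀ k, 1 ≤ k → k ≤ d i → pr2 i k ∈ A' ∧ x (pr2 i k) = γ i k - w i * γ i (k - 1)) →
    ∃ z : U → R, B.Cd {j | ∃ i ∈ A, ∃ k : ℕ, j = pr2 i k} z ∧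
      ∀ i ∈ A, ∀ k : ℕ, z (pr2 i k) = w i ^ k

/-! ### Algebra -/

/-- IVT: the intermediate value theorem for polynomials over a real closed field -/
def Stmt_IVT : Prop :=
  ∀ (R : Type v) [Field R] [LinearOrder R] [IsStrictOrderedRing R] [IsRealClosed R]
    (P : R[X]) (a b : R), a < b → P.eval a < 0 → 0 < P.eval b →
    ∃ c, a < c ∧ c < b ∧ P.eval c = 0

/-- ROLLE -/
def Stmt_Rolle : Prop :=
  ∀ (R : Type v) [Field R] [LinearOrder R] [IsStrictOrderedRing R] [IsRealClosed R]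
    (P : R[X]) (a b : R), a < b → P.eval a = 0 → P.eval b = 0 →
    ∃ c, a < c ∧ c < b ∧ P.derivative.eval c = 0

/-- CX: the complexification: an algebraically closed field `C` with an embedding of `R`,
an element `i` with `i ^ 2 = -1`, real and imaginary parts. -/
def Stmt_Cx : Prop :=
  ∀ (R : Type v) [Field R] [LinearOrder R] [IsStrictOrderedRing R] [IsRealClosed R],
    ∃ (C : Type v) (_ : Field C) (_ : IsAlgClosed C) (_ : Algebra R C) (i : C), i ^ 2 = -1 ∧
      ∀ z : C, ∃! p : R × R, z = algebraMap R C p.1 + algebraMap R C p.2 * i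

/-- CT: the structure theorem. Let `K ≤ L` be subfields of the real closed field `R`, such that the
values of the nonzero elements algebraic over `K` are values of elements of `L`. Then each element
algebraic over `K` is in `L(w)` for a Pisot-like `w`. -/
def Stmt_CT : Prop :=
  ∀ (R : Type v) [Field R] [LinearOrder R] [IsStrictOrderedRing R] [IsRealClosed R]
    (K L : Subfield R), K ≤ L →
    (∀ x : R, x ≠ 0 → IsAlgebraic K x → ∃ s ∈ L, ∃ n : ℕ, |x| ≤ n * |s| ∧ |s| ≤ n * |x|) →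
    ∀ f : R, IsAlgebraic K f →
      ∃ (d n : ℕ) (w : R) (γ a : ℕ → R), 1 ≤ d ∧ γ 0 = -1 ∧ γ d = 0 ∧
        (∀ k ≤ d, |γ k| ≤ 2 ^ d) ∧ 2 ^ (d + 5) ≤ w ∧ w ≤ n ∧
        (∀ k, 1 ≤ k → k ≤ d → γ k - w * γ (k - 1) ∈ L) ∧
        (∀ k, a k ∈ L) ∧ f = ∑ k ∈ Finset.range d, a k * w ^ k

/-- BOUND: a uniform bound for the elements algebraic over a finitely generated field -/
def Stmt_Bound : Prop :=
  ∀ (U : Type u) (R : Type v) [CommSemiring U] [LinearOrder U] [IsStrictOrderedRing U]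
    [CanonicallyOrderedAdd U] [Field R] [LinearOrder R] [IsStrictOrderedRing R]
    [IsRealClosed R] (B : BIP U R) (s : Set R), s.Finite →
    ∃ b : U, ∀ x : R, x ≠ 0 → IsAlgebraic (Subfield.closure s) x →
      1 / B.e b ≤ |x| ∧ |x| ≤ B.e b

/-- SCALE: the magnitudes of the elements algebraic over a finitely generated field -/
def Stmt_Scale : Prop :=
  ∀ (U : Type u) (R : Type v) [CommSemiring U] [LinearOrder U] [IsStrictOrderedRing U]
    [CanonicallyOrderedAdd U] [Field R] [LinearOrder R] [IsStrictOrderedRing R]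
    [IsRealClosed R] (B : BIP U R) (s : Set R), s.Finite →
    ∃ (l : ℕ) (y : Fin l → U), ∀ x : R, x ≠ 0 → IsAlgebraic (Subfield.closure s) x →
      ∃ (p p' : Fin l → ℕ) (q C : ℕ) (t t' : U), 1 ≤ q ∧
        q * t ≤ ∑ j, p j * y j ∧ ∑ j, p j * y j < q * (t + 1) ∧
        q * t' ≤ ∑ j, p' j * y j ∧ ∑ j, p' j * y j < q * (t' + 1) ∧
        |x| * B.e t' ≤ C * B.e t ∧ B.e t ≤ C * (|x| * B.e t')

/-- COV: coverage -/
def Stmt_Cov : Prop :=
  ∀ (U : Type u) (R : Type v) [CommSemiring U] [LinearOrder U] [IsStrictOrderedRing U]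
    [CanonicallyOrderedAdd U] [Field R] [LinearOrder R] [IsStrictOrderedRing R]
    [IsRealClosed R] (B : BIP U R) (s : Set R), s.Finite →
    ∃ (A : Set U) (x : U → R), B.Cd A x ∧
      ∀ c : R, IsAlgebraic (Subfield.closure s) c → ∃ n : ℕ, (n : U) ∈ A ∧ x n = c

/-! ### The final numerical statements -/

/-- The types of finite tuples (restricted to polynomial inequalities) are coded. -/
def CodeProp (R : Type v) [Field R] [LinearOrder R] [IsStrictOrderedRing R]
    (Cod : Set ℕ → Prop) : Prop :=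
  ∀ (r : ℕ) (v : ℕ → R), Cod {δ | 0 < pval r δ v}

/-- Coded quantifier-free types over finitely many parameters which are finitely satisfiable are
realised. -/
def RealProp (R : Type v) [Field R] [LinearOrder R] [IsStrictOrderedRing R]
    (Cod : Set ℕ → Prop) : Prop :=
  ∀ (r : ℕ) (v : ℕ → R) (Pos Neg : Set ℕ), Cod Pos → Cod Neg →
    (∀ k : ℕ, ∃ b : R, ∀ δ < k, (δ ∈ Pos → 0 < pval (r + 1) δ (cns b v)) ∧
      (δ ∈ Neg → pval (r + 1) δ (cns b v) < 0) ∧
      (δ ∉ Pos → δ ∉ Neg → pval (r + 1) δ (cns b v) = 0)) →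
    ∃ b : R, ∀ δ : ℕ, (δ ∈ Pos → 0 < pval (r + 1) δ (cns b v)) ∧
      (δ ∈ Neg → pval (r + 1) δ (cns b v) < 0) ∧
      (δ ∉ Pos → δ ∉ Neg → pval (r + 1) δ (cns b v) = 0)

def Stmt_Code : Prop :=
  ∀ (U : Type u) (R : Type v) [CommSemiring U] [LinearOrder U] [IsStrictOrderedRing U]
    [CanonicallyOrderedAdd U] [Field R] [LinearOrder R] [IsStrictOrderedRing R]
    [IsRealClosed R] (B : BIP U R), CodeProp R B.Coded

def Stmt_Real : Prop :=
  ∀ (U : Type u) (R : Type v) [CommSemiring U] [LinearOrder U] [IsStrictOrderedRing U]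
    [CanonicallyOrderedAdd U] [Field R] [LinearOrder R] [IsStrictOrderedRing R]
    [IsRealClosed R] (B : BIP U R), RealProp R B.Coded

/-! ### Logic -/

/-- QE: the truth value of a formula in a real closed field depends only on the signs of finitely
many polynomials. -/
def Stmt_QE : Prop :=
  ∀ φ : Fm, ∃ S : Finset (MvPolynomial ℕ ℤ),
    ∀ (R₁ : Type u) (R₂ : Type v) [Field R₁] [LinearOrder R₁] [IsStrictOrderedRing R₁]
      [IsRealClosed R₁] [Field R₂] [LinearOrder R₂] [IsStrictOrderedRing R₂] [IsRealClosed R₂]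
      (v₁ : ℕ → R₁) (v₂ : ℕ → R₂),
      (∀ q ∈ S, SignType.sign (MvPolynomial.aeval v₁ q) = SignType.sign (MvPolynomial.aeval v₂ q)) →
      (φ.holds v₁ ↔ φ.holds v₂)

/-- POLY: every integer polynomial in `x₀, …, x_{n-1}` has a code -/
def Stmt_Poly : Prop :=
  ∀ (n : ℕ) (q : MvPolynomial ℕ ℤ), ∃ δ : ℕ, ∀ (R : Type v) [Field R] [LinearOrder R]
    [IsStrictOrderedRing R] (v : ℕ → R), (∀ i, n ≤ i → v i = 0) →
    MvPolynomial.aeval v q = pval n δ v

/-- HENKIN: a coded real closed field realising `p` over a copy of the parameters -/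
def Stmt_Henkin : Prop :=
  ∀ (R : Type v) [Field R] [LinearOrder R] [IsStrictOrderedRing R] [IsRealClosed R]
    (Cod : Set ℕ → Prop), ScottLike Cod →
    ∀ (k r : ℕ) (a : ℕ → R) (p : Set Fm), (∀ i, r ≤ i → a i = 0) → IsRecursive p →
    Cod {δ | 0 < pval r δ a} →
    (∀ s : Finset Fm, (↑s : Set Fm) ⊆ p →
      ∃ b : ℕ → R, (∀ i, b (k + i) = a i) ∧ ∀ φ ∈ s, φ.holds b) →
    ∃ (N : Type) (_ : Field N) (_ : LinearOrder N) (_ : IsStrictOrderedRing N)
      (_ : IsRealClosed N) (w : ℕ → N),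
      (∀ φ ∈ p, φ.holds w) ∧ (∀ i, k + r ≤ i → w i = 0) ∧
      (∀ δ, 0 < pval r δ (fun i => w (k + i)) ↔ 0 < pval r δ a) ∧
      ∀ n ν : ℕ, Cod {δ | 0 < pval n δ (fun i => w (dec ν i))} ∧
        Cod {δ | pval n δ (fun i => w (dec ν i)) < 0}

/-- LOGIC: recursive saturation from the coding and the realisation of polynomial types. -/
def Stmt_Logic : Prop :=
  ∀ (R : Type v) [Field R] [LinearOrder R] [IsStrictOrderedRing R] [IsRealClosed R]
    (Cod : Set ℕ → Prop), ScottLike Cod → CodeProp R Cod → RealProp R Cod →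
    RecursivelySaturated R

/-- The main theorem from the modules. -/
theorem main_of (hA : Stmt_A.{u, v}) (hS : Stmt_Scott.{u, v}) (hC : Stmt_Code.{u, v})
    (hR : Stmt_Real.{u, v}) (hL : Stmt_Logic.{v}) : Stmt_Main.{u, v} := by
  intro M R _ _ _ _ h1 h2 h3
  obtain ⟨U, i1, i2, i3, i4, ⟨B⟩⟩ := hA M R h1 h2 h3
  exact hL R B.Coded (hS U R B) (hC U R B) (hR U R B)

end Pool.Agent.RSV
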