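import Pool.Agent.RSV.NumSort
import Pool.Agent.RSV.Specs

/-!
# Module A2: integer parts which are models of `V⁰` (with the ring structure) satisfy `BIP`
-/

namespace Pool.Agent.RSV

universe u v

namespace NumSort

variable {M : TwoSorted.{u}} (h : IsV0 M)

/-- functions of sequences in `NS h` given by terms -/
def TU (t : (ℕ → NS h) → NS h) : Prop := TmN M t

/-- definable predicates -/
def DU (P : (ℕ → NS h) → Prop) : Prop := Dn M P

variable {h}

theorem TU.const (c : NS h) : TU h (fun _ => c) := TmN.const c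
theorem TU.var (n : ℕ) : TU h (fun v => v n) := TmN.var n
theorem TU.add {s t : (ℕ → NS h) → NS h} (hs : TU h s) (ht : TU h t) :
    TU h (fun v => s v + t v) := TmN.add hs ht
theorem TU.mul {s t : (ℕ → NS h) → NS h} (hs : TU h s) (ht : TU h t) :
    TU h (fun v => s v * t v) := TmN.mul hs ht

theorem DU.mem {t : (ℕ → NS h) → NS h} (ht : TU h t) (X : M.S) :
    DU h (fun v => M.mem (t v) X) := Dn.mem ht X
theorem DU.eq {s t : (ℕ → NS h) → NS h} (hs : TU h s) (ht : TU h t) :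
    DU h (fun v => s v = t v) := Dn.eq hs ht
theorem DU.le {s t : (ℕ → NS h) → NS h} (hs : TU h s) (ht : TU h t) :
    DU h (fun v => s v ≤ t v) := Dn.le hs ht
theorem DU.lt {s t : (ℕ → NS h) → NS h} (hs : TU h s) (ht : TU h t) :
    DU h (fun v => s v < t v) := Dn.lt hs ht
theorem DU.not {P : (ℕ → NS h) → Prop} (hP : DU h P) : DU h (fun v => ¬ P v) := Dn.not hP
theorem DU.and {P Q : (ℕ → NS h) → Prop} (hP : DU h P) (hQ : DU h Q) :
    DU h (fun v => P v ∧ Q v) := Dn.and hP hQ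
theorem DU.or {P Q : (ℕ → NS h) → Prop} (hP : DU h P) (hQ : DU h Q) :
    DU h (fun v => P v ∨ Q v) := Dn.or hP hQ
theorem DU.all {t : (ℕ → NS h) → NS h} {P : (ℕ → NS h) → Prop} (ht : TU h t) (hP : DU h P) :
    DU h (fun v => ∀ x, x ≤ t v → P (cns x v)) := Dn.all ht hP
theorem DU.ex {t : (ℕ → NS h) → NS h} {P : (ℕ → NS h) → Prop} (ht : TU h t) (hP : DU h P) :
    DU h (fun v => ∃ x, x ≤ t v ∧ P (cns x v)) := Dn.ex ht hP

variable (h)

/-- the length, in `NS h` -/
def lenU (X : M.S) : NS h := M.len X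

theorem zero_le' (x : NS h) : 0 ≤ x := h.b9 x

theorem mem_lt_len {z : NS h} {X : M.S} (hz : M.mem z X) : z < lenU h X := h.l1 X z hz

theorem len_mem {z : NS h} {X : M.S} (hz : z + 1 = lenU h X) : M.mem z X := h.l2 X z hz

theorem compU {P : (ℕ → NS h) → Prop} (hP : DU h P) (v : ℕ → NS h) (y : NS h) :
    ∃ X : M.S, lenU h X ≤ y ∧ ∀ z : NS h, z < y → (M.mem z X ↔ P (cns z v)) :=
  comp h hP v y

theorem exists_set {P : NS h → Prop} (hP : DU h (fun v => P (v 0))) (b : NS h)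
    (hb : ∀ z, P z → z < b) : ∃ X : M.S, ∀ z : NS h, M.mem z X ↔ P z := by
  obtain ⟨X, hX1, hX2⟩ := compU h hP (fun _ => b) b
  refine ⟨X, fun z => ?_⟩
  by_cases hz : z < b
  · exact hX2 z hz
  · constructor
    · intro h1
      exact absurd (lt_of_lt_of_le (mem_lt_len h h1) hX1) hz
    · intro h1
      exact absurd (hb z h1) hz

theorem set_ext {X Y : M.S} (hXY : ∀ z : NS h, M.mem z X ↔ M.mem z Y) : X = Y := by
  have key : ∀ X Y : M.S, (∀ z : NS h, M.mem z X ↔ M.mem z Y) →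
      lenU h X ≤ lenU h Y := by
    intro X Y hXY
    by_contra hlt
    push Not at hlt
    have h0 : lenU h X ≠ 0 := by
      intro h0
      rw [h0] at hlt
      exact absurd (zero_le' h _) (not_le.2 hlt)
    obtain ⟨z, hz⟩ := exists_pred h _ h0
    have hzX : M.mem z X := len_mem h hz
    have hzY := mem_lt_len h ((hXY z).1 hzX)
    rw [← succ_le_iff' h, hz] at hzY
    exact absurd hzY (not_le.2 hlt)
  have hlen : lenU h X = lenU h Y :=
    le_antisymm (key X Y hXY) (key Y X fun z => (hXY z).symm)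
  exact h.se X Y hlen fun i _ => hXY i

theorem exists_sing (u : NS h) : ∃ X : M.S, ∀ z : NS h, M.mem z X ↔ z = u :=
  exists_set h (P := fun z => z = u) (DU.eq (TU.var 0) (TU.const _)) (u + 1)
    (fun z hz => by rw [hz]; exact (lt_succ_iff' h u u).2 le_rfl)

theorem exists_shift (X : M.S) (w : NS h) :
    ∃ Y : M.S, ∀ z : NS h, M.mem z Y ↔ ∃ k : NS h, k + w = z ∧ M.mem k X := by
  refine exists_set h (P := fun z => ∃ k : NS h, k + w = z ∧ M.mem k X) ?_
    (lenU h X + w) ?_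
  · have h1 : DU h (fun v => ∃ k, k ≤ v 0 ∧ (k + w = v 0 ∧ M.mem k X)) :=
      DU.ex (t := fun v => v 0) (P := fun v => (v 0 + w = v 1 ∧ M.mem (v 0) X)) (TU.var 0)
        ((DU.eq ((TU.var 0).add (TU.const _)) (TU.var 1)).and (DU.mem (TU.var 0) X))
    refine Dn.congr h1 fun v => ?_
    constructor
    · rintro ⟨k, -, hk⟩; exact ⟨k, hk⟩
    · rintro ⟨k, hk1, hk2⟩
      exact ⟨k, by rw [← hk1]; exact le_self_add, hk1, hk2⟩
  · rintro z ⟨k, hk1, hk2⟩
    have h1 := mem_lt_len h hk2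
    rw [← hk1]
    exact add_lt_add_left h1 w

theorem exists_low (X : M.S) (b : NS h) :
    ∃ Y : M.S, ∀ z : NS h, M.mem z Y ↔ z < b ∧ M.mem z X :=
  exists_set h (P := fun z => z < b ∧ M.mem z X)
    ((DU.lt (TU.var 0) (TU.const _)).and (DU.mem (TU.var 0) X)) b (fun _ hz => hz.1)

theorem exists_compl (X : M.S) (b : NS h) :
    ∃ Y : M.S, ∀ z : NS h, M.mem z Y ↔ z < b ∧ ¬ M.mem z X :=
  exists_set h (P := fun z => z < b ∧ ¬ M.mem z X)
    ((DU.lt (TU.var 0) (TU.const _)).and (DU.mem (TU.var 0) X).not) b (fun _ hz => hz.1)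

theorem exists_full (b : NS h) : ∃ Y : M.S, ∀ z : NS h, M.mem z Y ↔ z < b :=
  exists_set h (P := fun z => z < b) (DU.lt (TU.var 0) (TU.const _)) b (fun _ hz => hz)

theorem exists_high (X : M.S) (b : NS h) :
    ∃ Y : M.S, ∀ z : NS h, M.mem z Y ↔ M.mem (z + b : NS h) X := by
  refine exists_set h (P := fun z => M.mem (z + b : NS h) X)
    (DU.mem ((TU.var 0).add (TU.const _)) X) (lenU h X) (fun z hz => ?_)
  exact lt_of_le_of_lt le_self_add (mem_lt_len h hz)

theorem exists_empty : ∃ Y : M.S, ∀ z : NS h, ¬ M.mem z Y := by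
  obtain ⟨Y, hY⟩ := exists_full h 0
  exact ⟨Y, fun z hz => absurd ((hY z).1 hz) (not_lt.2 (zero_le' h z))⟩

theorem addG_iff (X Y Z : M.S) : AddG X Y Z ↔ ∀ i : NS h, M.mem i Z ↔
    Xor (Xor (M.mem i X) (M.mem i Y))
      (∃ k : NS h, k < i ∧ M.mem k X ∧ M.mem k Y ∧ ∀ j : NS h, k < j → j < i →
        M.mem j X ∨ M.mem j Y) := Iff.rfl

theorem DU.xor {P Q : (ℕ → NS h) → Prop} (hP : DU h P) (hQ : DU h Q) :
    DU h (fun v => Xor (P v) (Q v)) := DU.or (DU.and hP hQ.not) (DU.and hQ hP.not)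

theorem DU.imp {P Q : (ℕ → NS h) → Prop} (hP : DU h P) (hQ : DU h Q) :
    DU h (fun v => P v → Q v) := Dn.imp hP hQ

include h in
theorem exists_sum (X Y : M.S) : ∃ Z : M.S, AddG X Y Z := by
  have key : ∃ Z : M.S, ∀ i : NS h, M.mem i Z ↔ Xor (Xor (M.mem i X) (M.mem i Y))
      (∃ k : NS h, k < i ∧ M.mem k X ∧ M.mem k Y ∧ ∀ j : NS h, k < j → j < i →
        M.mem j X ∨ M.mem j Y) := by
    refine exists_set h (P := fun i => Xor (Xor (M.mem i X) (M.mem i Y))
      (∃ k : NS h, k < i ∧ M.mem k X ∧ M.mem k Y ∧ ∀ j : NS h, k < j → j < i →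
        M.mem j X ∨ M.mem j Y)) ?_ (lenU h X + lenU h Y + 1) ?_
    · refine DU.xor h (DU.xor h (DU.mem (TU.var 0) X) (DU.mem (TU.var 0) Y)) ?_
      have h2 : DU h (fun v => ∀ j, j ≤ v 1 → (v 0 < j → j < v 1 → (M.mem j X ∨ M.mem j Y))) :=
        DU.all (t := fun v => v 1) (P := fun v => (v 1 < v 0 → v 0 < v 2 →
          (M.mem (v 0) X ∨ M.mem (v 0) Y))) (TU.var 1)
          (DU.imp h (DU.lt (TU.var 1) (TU.var 0)) (DU.imp h (DU.lt (TU.var 0) (TU.var 2))
            ((DU.mem (TU.var 0) X).or (DU.mem (TU.var 0) Y))))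
      have h1 : DU h (fun v => ∃ k, k ≤ v 0 ∧ (k < v 0 ∧ M.mem k X ∧ M.mem k Y ∧
          ∀ j, j ≤ v 0 → (k < j → j < v 0 → (M.mem j X ∨ M.mem j Y)))) :=
        DU.ex (t := fun v => v 0) (P := fun v => (v 0 < v 1 ∧ M.mem (v 0) X ∧ M.mem (v 0) Y ∧
          ∀ j, j ≤ v 1 → (v 0 < j → j < v 1 → (M.mem j X ∨ M.mem j Y)))) (TU.var 0)
          ((DU.lt (TU.var 0) (TU.var 1)).and ((DU.mem (TU.var 0) X).and
            ((DU.mem (TU.var 0) Y).and h2)))
      refine Dn.congr h1 fun v => ?_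
      constructor
      · rintro ⟨k, -, h3, h4, h5, h6⟩
        exact ⟨k, h3, h4, h5, fun j h7 h8 => h6 j (le_of_lt (α := NS h) h8) h7 h8⟩
      · rintro ⟨k, h3, h4, h5, h6⟩
        exact ⟨k, le_of_lt (α := NS h) h3, h3, h4, h5, fun j _ h7 h8 => h6 j h7 h8⟩
    · intro z hz
      by_contra hlt
      push Not at hlt
      have hX : ∀ z : NS h, lenU h X ≤ z → ¬ M.mem z X := fun z h1 h2 =>
        absurd (mem_lt_len h h2) (not_lt.2 h1)
      have hY : ∀ z : NS h, lenU h Y ≤ z → ¬ M.mem z Y := fun z h1 h2 =>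
        absurd (mem_lt_len h h2) (not_lt.2 h1)
      have h0 : lenU h X + lenU h Y < z := (succ_le_iff' h _ _).1 hlt
      have h1 : ¬ M.mem z X := hX z (le_self_add.trans h0.le)
      have h2 : ¬ M.mem z Y := hY z (le_add_self.trans h0.le)
      have h3 : ¬ (∃ k : NS h, k < z ∧ M.mem k X ∧ M.mem k Y ∧ ∀ j : NS h, k < j → j < z →
          M.mem j X ∨ M.mem j Y) := by
        rintro ⟨k, -, h4, -, h5⟩
        rcases h5 (lenU h X + lenU h Y) (lt_of_lt_of_le (mem_lt_len h h4) le_self_add) h0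
          with h6 | h6
        · exact hX _ le_self_add h6
        · exact hY _ le_add_self h6
      rcases hz with ⟨(⟨h4, -⟩ | ⟨h4, -⟩), -⟩ | ⟨h4, -⟩
      · exact h1 h4
      · exact h2 h4
      · exact h3 h4
  obtain ⟨Z, hZ⟩ := key
  exact ⟨Z, (addG_iff h X Y Z).2 hZ⟩

theorem addG_disj {X Y Z : M.S} (hd : ∀ z : NS h, ¬ (M.mem z X ∧ M.mem z Y))
    (hZ : ∀ z : NS h, M.mem z Z ↔ M.mem z X ∨ M.mem z Y) : AddG X Y Z := by
  rw [addG_iff h]
  intro i
  rw [hZ i]
  have h1 : ¬ (∃ k : NS h, k < i ∧ M.mem k X ∧ M.mem k Y ∧ ∀ j : NS h, k < j → j < i →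
        M.mem j X ∨ M.mem j Y) := by
    rintro ⟨k, -, h1, h2, -⟩
    exact hd k ⟨h1, h2⟩
  have h2 := hd i
  simp only [Xor]
  tauto

theorem lt_of_eq {a b c : NS h} (hb : b = a + c + 1) : a < b := by
  rw [hb, lt_succ_iff' h]; exact le_self_add

/-- the pairing function of `Defs`, on `NS h` -/
noncomputable def prU (i j : NS h) : NS h := (i + j) * (i + j + 1) + (j + j)

theorem prU_def (i j : NS h) : prU h i j = pr i j := rfl

theorem prU_lt {i j i' j' : NS h} (hs : i + j < i' + j') : prU h i j < prU h i' j' := by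
  obtain ⟨d, hd⟩ := exists_add_of_le ((succ_le_iff' h _ _).2 hs)
  unfold prU
  rw [hd]
  refine lt_of_eq h (c := i + i + 1 + d * (i + j + d + 1 + 1) + (i + j + 1) * d + (j' + j')) ?_
  ring

theorem prU_inj {i j i' j' : NS h} (hp : prU h i j = prU h i' j') : i = i' ∧ j = j' := by
  have hs : i + j = i' + j' := by
    rcases lt_trichotomy (i + j) (i' + j') with h1 | h1 | h1
    · exact absurd hp (prU_lt h h1).ne
    · exact h1
    · exact absurd hp (prU_lt h h1).ne'
  unfold prU at hp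
  rw [hs] at hp
  have h2 : j + j = j' + j' := add_left_cancel hp
  have h3 : j = j' := by
    rcases lt_trichotomy j j' with h1 | h1 | h1
    · exact absurd h2 (add_lt_add h1 h1).ne
    · exact h1
    · exact absurd h2 (add_lt_add h1 h1).ne'
  refine ⟨?_, h3⟩
  rw [h3] at hs
  exact add_right_cancel hs

theorem prU_le {i j j' : NS h} (hj : j ≤ j') : prU h i j ≤ prU h i j' := by
  unfold prU
  gcongr

theorem mulG_iff (X Y Z : M.S) : MulG X Y Z ↔ ∃ W : M.S, (∀ j : NS h, ¬ row W (0 : NS h) j) ∧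
    (∀ i : NS h, i < lenU h Y → ∀ j : NS h, row W (i + 1 : NS h) j ↔
      Xor (Xor (row W i j) (M.mem i Y ∧ ∃ k : NS h, k + i = j ∧ M.mem k X))
        (∃ k : NS h, k < j ∧ row W i k ∧ (M.mem i Y ∧ ∃ k' : NS h, k' + i = k ∧
          M.mem k' X) ∧ ∀ l : NS h, k < l → l < j → row W i l ∨ (M.mem i Y ∧ ∃ k' : NS h,
            k' + i = l ∧ M.mem k' X))) ∧
    ∀ j : NS h, M.mem j Z ↔ row W (lenU h Y) j := Iff.rfl

theorem mulG_shift {X Y Z : M.S} {w : NS h} (hY : ∀ z : NS h, M.mem z Y ↔ z = w)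
    (hZ : ∀ z : NS h, M.mem z Z ↔ ∃ k : NS h, k + w = z ∧ M.mem k X) : MulG X Y Z := by
  have hlen : lenU h Y = w + 1 := by
    refine le_antisymm ?_ ?_
    · by_contra hlt
      push Not at hlt
      have h0 : lenU h Y ≠ 0 := by
        intro h0
        rw [h0] at hlt
        exact absurd (zero_le' h _) (not_le.2 hlt)
      obtain ⟨z, hz⟩ := exists_pred h _ h0
      have hzX : M.mem z Y := len_mem h hz
      rw [(hY z).1 hzX] at hz
      rw [hz] at hlt
      exact absurd hlt (lt_irrefl _)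
    · rw [succ_le_iff' h]
      exact mem_lt_len h ((hY w).2 rfl)
  obtain ⟨W, hW⟩ : ∃ W : M.S, ∀ p : NS h, M.mem p W ↔ ∃ j : NS h, p = prU h (w + 1) j ∧
      M.mem j Z := by
    refine exists_set h (P := fun p => ∃ j : NS h, p = prU h (w + 1) j ∧ M.mem j Z) ?_
      (prU h (w + 1) (lenU h Z) + 1) ?_
    · have h1 : DU h (fun v => ∃ j, j ≤ v 0 ∧ (v 0 = (w + 1 + j) * (w + 1 + j + 1) + (j + j) ∧
          M.mem j Z)) := by
        refine DU.ex (t := fun v => v 0) (P := fun v => (v 1 = (w + 1 + v 0) * (w + 1 + v 0 + 1) +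
          (v 0 + v 0) ∧ M.mem (v 0) Z)) (TU.var 0) ?_
        refine (DU.eq (TU.var 1) ?_).and (DU.mem (TU.var 0) Z)
        exact (((TU.const _).add (TU.var 0)).mul (((TU.const _).add (TU.var 0)).add
          (TU.const _))).add ((TU.var 0).add (TU.var 0))
      refine Dn.congr h1 fun v => ?_
      constructor
      · rintro ⟨k, -, hk⟩; exact ⟨k, hk⟩
      · rintro ⟨k, hk1, hk2⟩
        refine ⟨k, ?_, hk1, hk2⟩
        rw [hk1]
        unfold prU
        have : (w + 1 + k) * (w + 1 + k + 1) + (k + k) =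
            k + ((w + 1 + k) * (w + 1 + k + 1) + k) := by ring
        rw [this]
        exact le_self_add
    · rintro p ⟨j, rfl, hj⟩
      rw [lt_succ_iff' h]
      exact prU_le h (mem_lt_len h hj).le
  have hrow : ∀ i j : NS h, row W i j ↔ i = w + 1 ∧ M.mem j Z := by
    intro i j
    unfold row
    rw [← prU_def h]
    rw [hW]
    constructor
    · rintro ⟨j', h1, h2⟩
      obtain ⟨h3, h4⟩ := prU_inj h h1
      exact ⟨h3, h4 ▸ h2⟩
    · rintro ⟨h1, h2⟩
      exact ⟨j, by rw [h1], h2⟩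
  rw [mulG_iff h]
  refine ⟨W, ?_, ?_, ?_⟩
  · intro j hj
    have := ((hrow 0 j).1 hj).1
    exact add_one_ne_zero' h w this.symm
  · intro i hi j
    have hi' : i < w + 1 := by rw [← hlen]; exact hi
    have hr : ∀ k, ¬ row W i k := fun k hk => hi'.ne ((hrow i k).1 hk).1
    have h1 : ¬ (∃ k : NS h, k < j ∧ row W i k ∧ (M.mem i Y ∧ ∃ k' : NS h, k' + i = k ∧
      M.mem k' X) ∧ ∀ l : NS h, k < l → l < j → row W i l ∨ (M.mem i Y ∧ ∃ k' : NS h, k' + i = l ∧
      M.mem k' X)) := by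
      rintro ⟨k, -, hk, -⟩
      exact hr k hk
    have h2 : row W (i + 1 : NS h) j ↔ (M.mem i Y ∧ ∃ k : NS h, k + i = j ∧ M.mem k X) := by
      rw [hrow, hY, hZ]
      constructor
      · rintro ⟨h3, h4⟩
        have h5 : i = w := add_right_cancel h3
        rw [h5]
        exact ⟨rfl, h4⟩
      · rintro ⟨h3, h4⟩
        rw [h3] at h4 ⊢
        exact ⟨rfl, h4⟩
    have h3 := hr j
    simp only [Xor]
    constructor
    · intro h4
      exact Or.inl ⟨Or.inr ⟨h2.1 h4, h3⟩, h1⟩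
    · rintro (⟨h4 | h4, -⟩ | ⟨h4, -⟩)
      · exact absurd h4.1 h3
      · exact h2.2 h4.1
      · exact absurd h4 h1
  · intro j
    rw [hrow]
    exact ⟨fun h2 => ⟨hlen, h2⟩, fun h2 => h2.2⟩

theorem addG_full {X Y Z : M.S} {b : NS h} (hb : 0 < b) (hX : ∀ z : NS h, M.mem z X ↔ z < b)
    (hY : ∀ z : NS h, M.mem z Y ↔ z = 0) (hZ : ∀ z : NS h, M.mem z Z ↔ z = b) : AddG X Y Z := by
  rw [addG_iff h]
  intro i
  rw [hZ, hX, hY]
  have hc : (∃ k : NS h, k < i ∧ M.mem k X ∧ M.mem k Y ∧ ∀ j : NS h, k < j → j < i →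
        M.mem j X ∨ M.mem j Y) ↔ 0 < i ∧ i ≤ b := by
    constructor
    · rintro ⟨k, h1, -, h2, h3⟩
      rw [hY] at h2
      subst h2
      refine ⟨h1, ?_⟩
      by_contra h4
      push Not at h4
      rcases h3 b hb h4 with h5 | h5
      · exact absurd ((hX b).1 h5) (lt_irrefl _)
      · rw [(hY b).1 h5] at hb
        exact absurd hb (lt_irrefl _)
    · rintro ⟨h1, h2⟩
      refine ⟨0, h1, (hX 0).2 hb, (hY 0).2 rfl, fun j h3 h4 => Or.inl ?_⟩
      rw [hX]
      exact lt_of_lt_of_le h4 h2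
  rw [hc]
  have h0 : i = 0 ∨ 0 < i := (zero_le' h i).eq_or_lt.imp Eq.symm id
  rcases lt_trichotomy i b with h1 | h1 | h1
  · rcases h0 with h2 | h2
    · subst h2
      simp [Xor, hb, hb.ne]
    · simp [Xor, h1, h1.ne, h2, h2.ne', h1.le]
  · subst h1
    simp [Xor, hb, hb.ne']
  · have h2 : 0 < i := lt_trans hb h1
    simp [Xor, h1.ne', h2.ne', not_lt.2 h1.le, not_le.2 h1]

theorem addG_double {X Z : M.S} (hX : ∀ z : NS h, M.mem z X ↔ z = 0)
    (hZ : ∀ z : NS h, M.mem z Z ↔ z = 1) : AddG X X Z := by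
  rw [addG_iff h]
  intro i
  rw [hZ, hX]
  have h01 : (0 : NS h) < 1 := zero_lt_one
  have hc : (∃ k : NS h, k < i ∧ M.mem k X ∧ M.mem k X ∧ ∀ j : NS h, k < j → j < i →
        M.mem j X ∨ M.mem j X) ↔ i = 1 := by
    constructor
    · rintro ⟨k, h1, -, h2, h3⟩
      rw [hX] at h2
      subst h2
      by_contra h4
      have h5 : 1 ≤ i := by
        have := (succ_le_iff' h 0 i).2 h1
        rwa [zero_add] at this
      have h6 : 1 < i := lt_of_le_of_ne h5 (Ne.symm h4)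
      rcases h3 1 h01 h6 with h7 | h7 <;> exact absurd ((hX 1).1 h7) h01.ne'
    · rintro rfl
      refine ⟨0, h01, (hX 0).2 rfl, (hX 0).2 rfl, fun j h3 h4 => ?_⟩
      exfalso
      have := (succ_le_iff' h 0 j).2 h3
      rw [zero_add] at this
      exact absurd h4 (not_lt.2 this)
  rw [hc]
  simp [Xor]

/-! ### The integer part -/

section ip

/-- the hypotheses on the integer part -/
structure IP (h : IsV0 M) (R : Type v) [Field R] [LinearOrder R] [IsStrictOrderedRing R] where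
  I : Subring R
  ι : M.S → R
  hI : IsIntegerPart I
  inj : Function.Injective ι
  range : Set.range ι = {x | x ∈ I ∧ 0 ≤ x}
  add : ∀ X Y Z : M.S, AddG X Y Z → ι Z = ι X + ι Y
  mul : ∀ X Y Z : M.S, MulG X Y Z → ι Z = ι X * ι Y

variable {R : Type v} [Field R] [LinearOrder R] [IsStrictOrderedRing R]
variable {h} (p : IP h R)

namespace IP

theorem mem (X : M.S) : p.ι X ∈ p.I := by
  have : p.ι X ∈ Set.range p.ι := ⟨X, rfl⟩
  rw [p.range] at this
  exact this.1

theorem nonneg (X : M.S) : 0 ≤ p.ι X := by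
  have : p.ι X ∈ Set.range p.ι := ⟨X, rfl⟩
  rw [p.range] at this
  exact this.2

theorem surj {z : R} (hz : z ∈ p.I) (h0 : 0 ≤ z) : ∃ X, p.ι X = z := by
  have : z ∈ Set.range p.ι := by rw [p.range]; exact ⟨hz, h0⟩
  exact this

theorem disj {X Y Z : M.S} (hd : ∀ z : NS h, ¬ (M.mem z X ∧ M.mem z Y))
    (hZ : ∀ z : NS h, M.mem z Z ↔ M.mem z X ∨ M.mem z Y) : p.ι Z = p.ι X + p.ι Y :=
  p.add _ _ _ (addG_disj h hd hZ)

theorem empty {X : M.S} (hX : ∀ z : NS h, ¬ M.mem z X) : p.ι X = 0 := by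
  have h1 : p.ι X = p.ι X + p.ι X :=
    p.disj (fun z hz => hX z hz.1) (fun z => by have := hX z; tauto)
  linarith

theorem eq_empty {X : M.S} (hX : p.ι X = 0) (z : NS h) : ¬ M.mem z X := by
  obtain ⟨Y, hY⟩ := exists_empty h
  have h1 := p.inj (hX.trans (p.empty hY).symm)
  rw [h1]; exact hY z

/-- powers of two -/
noncomputable def e (p : IP h R) (u : NS h) : R := p.ι (exists_sing h u).choose

theorem e_eq {u : NS h} {X : M.S} (hX : ∀ z : NS h, M.mem z X ↔ z = u) : p.ι X = p.e u := by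
  unfold e
  congr 1
  exact set_ext h fun z => (hX z).trans ((exists_sing h u).choose_spec z).symm

theorem shift {X Z : M.S} {w : NS h}
    (hZ : ∀ z : NS h, M.mem z Z ↔ ∃ k : NS h, k + w = z ∧ M.mem k X) :
    p.ι Z = p.ι X * p.e w := by
  obtain ⟨Y, hY⟩ := exists_sing h w
  rw [← p.e_eq hY]
  exact p.mul _ _ _ (mulG_shift h hY hZ)

theorem e_zero : p.e 0 = 1 := by
  obtain ⟨X, hX⟩ := p.surj (Subring.one_mem p.I) zero_le_one
  have h1 : p.ι X = p.ι X * p.e 0 := by
    refine p.shift fun z => ?_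
    constructor
    · intro h1; exact ⟨z, add_zero z, h1⟩
    · rintro ⟨k, h1, h2⟩
      rw [add_zero] at h1
      exact h1 ▸ h2
  rw [hX, one_mul] at h1
  exact h1.symm

theorem e_one : p.e 1 = 2 := by
  obtain ⟨X, hX⟩ := exists_sing h 0
  obtain ⟨Z, hZ⟩ := exists_sing h 1
  have h1 := p.add _ _ _ (addG_double h hX hZ)
  rw [p.e_eq hX, p.e_eq hZ, p.e_zero] at h1
  rw [h1]; norm_num

theorem e_add (u w : NS h) : p.e (u + w) = p.e u * p.e w := by
  obtain ⟨X, hX⟩ := exists_sing h u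
  obtain ⟨Z, hZ⟩ := exists_sing h (u + w)
  rw [← p.e_eq hX, ← p.e_eq hZ]
  refine p.shift fun z => ?_
  rw [hZ]
  constructor
  · rintro rfl; exact ⟨u, rfl, (hX u).2 rfl⟩
  · rintro ⟨k, h1, h2⟩
    rw [(hX k).1 h2] at h1
    exact h1.symm

theorem e_mem (u : NS h) : p.e u ∈ p.I := p.mem _

theorem e_pos (u : NS h) : 0 < p.e u := by
  obtain ⟨X, hX⟩ := exists_sing h u
  rw [← p.e_eq hX]
  refine lt_of_le_of_ne (p.nonneg X) fun h1 => ?_
  exact p.eq_empty h1.symm u ((hX u).2 rfl)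

theorem one_le_e (u : NS h) : 1 ≤ p.e u := p.hI.discrete _ (p.e_mem u) (p.e_pos u)

theorem e_succ (u : NS h) : p.e (u + 1) = 2 * p.e u := by
  rw [p.e_add, p.e_one, mul_comm]

theorem e_lt (u w : NS h) (huw : u < w) : p.e u < p.e w := by
  obtain ⟨d, hd⟩ := exists_add_of_le ((succ_le_iff' h _ _).2 huw)
  have h1 : w = u + (d + 1) := by rw [hd]; ring
  rw [h1, p.e_add, p.e_succ]
  have h2 := p.e_pos u
  have h3 := p.one_le_e d
  nlinarith

theorem e_le (u w : NS h) (huw : u ≤ w) : p.e u ≤ p.e w := by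
  rcases huw.eq_or_lt with h1 | h1
  · rw [h1]
  · exact (p.e_lt _ _ h1).le

theorem full {X : M.S} {b : NS h} (hX : ∀ z : NS h, M.mem z X ↔ z < b) :
    p.ι X + 1 = p.e b := by
  rcases (zero_le' h b).eq_or_lt with h0 | h0
  · subst h0
    rw [p.empty fun z hz => absurd ((hX z).1 hz) (not_lt.2 (zero_le' h z)), p.e_zero, zero_add]
  · obtain ⟨Y, hY⟩ := exists_sing h 0
    obtain ⟨Z, hZ⟩ := exists_sing h b
    have h1 := p.add _ _ _ (addG_full h h0 hX hY hZ)
    rw [p.e_eq hY, p.e_eq hZ, p.e_zero] at h1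
    exact h1.symm

theorem lt_e {X : M.S} {b : NS h} (hX : ∀ z : NS h, M.mem z X → z < b) : p.ι X < p.e b := by
  obtain ⟨Y, hY⟩ := exists_full h b
  obtain ⟨Z, hZ⟩ := exists_compl h X b
  have h1 : p.ι Y = p.ι X + p.ι Z := by
    refine p.disj (fun z hz => ((hZ z).1 hz.2).2 hz.1) fun z => ?_
    rw [hY, hZ]
    constructor
    · intro h1
      by_cases h2 : M.mem z X
      · exact Or.inl h2
      · exact Or.inr ⟨h1, h2⟩
    · rintro (h1 | h1)
      · exact hX z h1
      · exact h1.1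
  have h2 := p.full hY
  have h3 := p.nonneg Z
  linarith

theorem bit_iff (X : M.S) (u : NS h) : bitOf p.I p.e (p.ι X) u ↔ M.mem u X := by
  obtain ⟨L, hL⟩ := exists_low h X u
  obtain ⟨H', hH'⟩ := exists_high h X (u + 1)
  obtain ⟨H, hH⟩ := exists_shift h H' (u + 1)
  have hHm : ∀ z : NS h, M.mem z H ↔ u < z ∧ M.mem z X := by
    intro z
    rw [hH]
    constructor
    · rintro ⟨k, h1, h2⟩
      rw [hH', h1] at h2
      refine ⟨?_, h2⟩
      rw [← succ_le_iff' h, ← h1]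
      exact le_add_self
    · rintro ⟨h1, h2⟩
      obtain ⟨d, hd⟩ := exists_add_of_le ((succ_le_iff' h _ _).2 h1)
      refine ⟨d, by rw [hd]; ring, ?_⟩
      rw [hH']
      have : d + (u + 1) = z := by rw [hd]; ring
      rw [this]; exact h2
  have hι : p.ι H = p.ι H' * (2 * p.e u) := by
    rw [p.shift hH, p.e_succ]
  have hLlt : p.ι L < p.e u := p.lt_e fun z hz => ((hL z).1 hz).1
  have hL0 := p.nonneg L
  have hepos := p.e_pos u
  by_cases hu : M.mem u X
  · refine iff_of_true ?_ hu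
    obtain ⟨B, hB⟩ := exists_sing h u
    -- `C = L ∪ B`
    obtain ⟨C, hC⟩ := exists_low h X (u + 1)
    have h1 : p.ι C = p.ι L + p.ι B := by
      refine p.disj ?_ fun z => ?_
      · rintro z ⟨h1, h2⟩
        rw [hL] at h1
        rw [(hB z).1 h2] at h1
        exact absurd h1.1 (lt_irrefl _)
      · rw [hC, hL, hB, lt_succ_iff' h]
        constructor
        · rintro ⟨h1, h2⟩
          rcases h1.lt_or_eq with h3 | h3
          · exact Or.inl ⟨h3, h2⟩
          · exact Or.inr h3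
        · rintro (⟨h1, h2⟩ | h1)
          · exact ⟨h1.le, h2⟩
          · rw [h1]; exact ⟨le_rfl, hu⟩
    have h2 : p.ι X = p.ι C + p.ι H := by
      refine p.disj ?_ fun z => ?_
      · rintro z ⟨h1, h2⟩
        rw [hC, lt_succ_iff' h] at h1
        rw [hHm] at h2
        exact absurd h1.1 (not_le.2 h2.1)
      · rw [hC, hHm, lt_succ_iff' h]
        constructor
        · intro h1
          rcases le_or_gt z u with h3 | h3
          · exact Or.inl ⟨h3, h1⟩
          · exact Or.inr ⟨h3, h1⟩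
        · rintro (h1 | h1)
          · exact h1.2
          · exact h1.2
    rw [p.e_eq hB] at h1
    refine ⟨p.ι H', p.mem _, ?_, ?_⟩
    · rw [h2, h1, hι]; linarith
    · rw [h2, h1, hι]; linarith
  · refine iff_of_false ?_ hu
    rintro ⟨q, hq, h1, h2⟩
    have h3 : p.ι X = p.ι L + p.ι H := by
      refine p.disj ?_ fun z => ?_
      · rintro z ⟨h1, h2⟩
        rw [hL] at h1
        rw [hHm] at h2
        exact absurd h1.1 (not_lt.2 h2.1.le)
      · rw [hL, hHm]
        constructor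
        · intro h1
          rcases lt_trichotomy z u with h3 | h3 | h3
          · exact Or.inl ⟨h3, h1⟩
          · exact absurd h1 (h3 ▸ hu)
          · exact Or.inr ⟨h3, h1⟩
        · rintro (h1 | h1)
          · exact h1.2
          · exact h1.2
    rw [h3, hι] at h1 h2
    have h4 : q < p.ι H' := by
      by_contra h5
      push Not at h5
      nlinarith
    have h5 : 1 ≤ p.ι H' - q :=
      p.hI.discrete _ (Subring.sub_mem _ (p.mem _) hq) (by linarith)
    nlinarith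

theorem exists_len {z : R} (hz : z ∈ p.I) (h0 : 0 < z) : ∃ u, p.e u ≤ z ∧ z < p.e (u + 1) := by
  obtain ⟨X, rfl⟩ := p.surj hz h0.le
  have hne : lenU h X ≠ 0 := by
    intro h1
    have : p.ι X = 0 := p.empty fun z hz => by
      have := mem_lt_len h hz
      rw [h1] at this
      exact absurd this (not_lt.2 (zero_le' h z))
    exact h0.ne' this
  obtain ⟨u, hu⟩ := exists_pred h _ hne
  refine ⟨u, ?_, ?_⟩
  · have hmem : M.mem u X := len_mem h hu
    obtain ⟨q, hq, h1, h2⟩ := (p.bit_iff X u).2 hmem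
    -- `q ≥ 0`
    have h3 := p.e_pos u
    have h4 := p.nonneg X
    have h5 : 0 ≤ q := by
      by_contra h6
      push Not at h6
      have h7 : 1 ≤ -q := p.hI.discrete _ (Subring.neg_mem _ hq) (by linarith)
      nlinarith
    nlinarith
  · refine p.lt_e fun z hz => ?_
    rw [hu]; exact mem_lt_len h hz

theorem tmF {t : (ℕ → NS h) → NS h} (ht : TmF (NS h) t) : TU h t := by
  induction ht with
  | const c => exact TU.const c
  | var n => exact TU.var n
  | add _ _ ih1 ih2 => exact ih1.add ih2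
  | mul _ _ ih1 ih2 => exact ih1.mul ih2

theorem defF {P : (ℕ → NS h) → Prop} (hP : DefF p.I p.e P) : DU h P := by
  induction hP with
  | @bit z t hz h0 ht =>
    obtain ⟨X, rfl⟩ := p.surj hz h0
    exact Dn.congr (DU.mem (tmF ht) X) fun v => (p.bit_iff X (t v)).symm
  | eq hs ht => exact DU.eq (tmF hs) (tmF ht)
  | le hs ht => exact DU.le (tmF hs) (tmF ht)
  | not _ ih => exact ih.not
  | and _ _ ih1 ih2 => exact ih1.and ih2
  | all ht _ ih => exact DU.all (tmF ht) ih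

/-- the interface -/
noncomputable def bip (hns : ∃ u : NS h, ∀ n : ℕ, (n : NS h) < u) : BIP (NS h) R where
  le_of_lt_succ := le_of_lt_succ' h
  Z := p.I
  discrete := p.hI.discrete
  exists_floor := p.hI.exists_floor
  e := p.e
  e_mem := p.e_mem
  e_zero := p.e_zero
  e_one := p.e_one
  e_add := p.e_add
  e_lt := p.e_lt
  exists_len z hz h0 := p.exists_len hz h0
  ext x hx y hy hx0 hy0 hxy := by
    obtain ⟨X, rfl⟩ := p.surj hx hx0
    obtain ⟨Y, rfl⟩ := p.surj hy hy0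
    rw [set_ext h fun z => ((p.bit_iff X z).symm.trans (hxy z)).trans (p.bit_iff Y z)]
  bit_add x hx y hy hx0 hy0 i := by
    obtain ⟨X, rfl⟩ := p.surj hx hx0
    obtain ⟨Y, rfl⟩ := p.surj hy hy0
    obtain ⟨Z, hZ⟩ := exists_sum h X Y
    rw [← p.add X Y Z hZ, p.bit_iff, (addG_iff h X Y Z).1 hZ i]
    simp only [p.bit_iff]
  comp P hP v b := by
    obtain ⟨X, h1, h2⟩ := compU h (p.defF hP) v b
    refine ⟨p.ι X, p.mem X, p.nonneg X, ?_, ?_⟩
    · exact p.lt_e fun z hz => lt_of_lt_of_le (mem_lt_len h hz) h1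
    · intro u hu
      rw [p.bit_iff, h2 u hu]
  exists_nonstd := hns

end IP

end ip

end NumSort

theorem stmt_A : Stmt_A.{u, v} := by
  intro M R _ _ _ h hns hI
  obtain ⟨I, ι, h1, h2, h3, h4, h5⟩ := hI
  have h0 : IsV0 M := h.toIsV0
  let p : NumSort.IP h0 R := ⟨I, ι, h1, h2, h3, h4, h5⟩
  refine ⟨NumSort.NS h0, inferInstance, inferInstance, inferInstance, inferInstance,
    ⟨p.bip ?_⟩⟩
  obtain ⟨u, hu⟩ := hns
  have hnum : ∀ n : ℕ, (num M n : NumSort.NS h0) = ((n : ℕ) : NumSort.NS h0) := by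
    intro n
    induction n with
    | zero => rw [Nat.cast_zero]; rfl
    | succ n ih =>
      rw [Nat.cast_succ, ← ih]; rfl
  refine ⟨u, fun n => ?_⟩
  induction n with
  | zero =>
    have h6 := hu 0
    refine lt_of_le_of_ne (by rw [Nat.cast_zero]; exact NumSort.zero_le' h0 _) ?_
    rw [← hnum 0]
    exact fun h7 => h6 h7.symm
  | succ n ih =>
    have h6 := hu (n + 1)
    refine lt_of_le_of_ne ?_ ?_
    · rw [Nat.cast_succ]; exact (NumSort.succ_le_iff' h0 _ _).2 ih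
    · rw [← hnum (n + 1)]
      exact fun h7 => h6 h7.symm

end Pool.Agent.RSV
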