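import Pool.Agent.RSV.Bits
import Pool.Agent.RSV.Specs

/-!
# BERN: Bernoulli's method for the dominant root
-/

namespace Pool.Agent.RSV

universe u v

namespace BernM

section Alg

variable {R : Type*} [Field R] [LinearOrder R] [IsStrictOrderedRing R]

lemma geom_half (m : ℕ) : ∑ k ∈ Finset.range m, (1 / 2 : R) ^ k ≤ 2 := by
  have : ∑ k ∈ Finset.range m, (1 / 2 : R) ^ k = 2 - 2 * (1 / 2) ^ m := by
    induction m with
    | zero => simp
    | succ m ih => rw [Finset.sum_range_succ, ih]; ring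
  rw [this]
  have : (0 : R) ≤ (1 / 2) ^ m := by positivity
  linarith

lemma geom_sixteen (m : ℕ) : ∑ k ∈ Finset.range m, (1 / 16 : R) ^ k ≤ 16 / 15 := by
  have : ∑ k ∈ Finset.range m, (1 / 16 : R) ^ k = 16 / 15 - 16 / 15 * (1 / 16) ^ m := by
    induction m with
    | zero => simp
    | succ m ih => rw [Finset.sum_range_succ, ih]; ring
  rw [this]
  have : (0 : R) ≤ (1 / 16) ^ m := by positivity
  linarith

lemma telescope (w μ : R) (γ r : ℕ → R) (D : ℕ) :
    ∑ k ∈ Finset.range (D + 1), (γ (k + 1) - w * γ k) * μ ^ (k + 1) * r (k + 1) =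
      ∑ k ∈ Finset.range D, γ (k + 1) * (μ ^ (k + 1) * (r (k + 1) - w * μ * r (k + 2))) +
        γ (D + 1) * μ ^ (D + 1) * r (D + 1) - w * γ 0 * μ * r 1 := by
  induction D with
  | zero => simp; ring
  | succ D ih => rw [Finset.sum_range_succ, ih, Finset.sum_range_succ]; ring

lemma sum_Icc_one (d : ℕ) (f : ℕ → R) :
    ∑ k ∈ Finset.Icc 1 d, f k = ∑ k ∈ Finset.range d, f (k + 1) := by
  induction d with
  | zero => simp
  | succ d ih => rw [Finset.sum_Icc_succ_top (by omega), ih, Finset.sum_range_succ]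

lemma sum_bound (d : ℕ) (hd : 1 ≤ d) (w μ s : R) (γ b r : ℕ → R) (hγ0 : γ 0 = -1)
    (hγd : γ d = 0) (hγ : ∀ k ≤ d, |γ k| ≤ 2 ^ d) (hw : 2 ^ (d + 5) ≤ w) (hμ : 0 < μ)
    (hs : 0 ≤ s) (hb : ∀ k, 1 ≤ k → k ≤ d → |b k - (γ k - w * γ (k - 1)) * μ ^ k| ≤ 2)
    (h1 : ∀ k, 1 ≤ k → k < d → μ ^ k * |r k - w * μ * r (k + 1)| ≤
      (16 * (1 / 16) ^ k * s * μ + 17 * (2 / w) ^ k) * r 1)
    (h2 : ∀ k, 1 ≤ k → k ≤ d → 0 < r k ∧ r k ≤ (1 / 2) ^ (k - 1) * r 1) :
    |∑ k ∈ Finset.Icc 1 d, b k * r k - w * μ * r 1| ≤ (2 * 2 ^ d * s * μ + 8) * r 1 := by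
  obtain ⟨D, rfl⟩ : ∃ D, d = D + 1 := ⟨d - 1, by omega⟩
  have hw64 : (64 : R) ≤ w := by
    refine le_trans ?_ hw
    have : (1 : R) ≤ 2 ^ D := one_le_pow₀ (by norm_num)
    calc (64 : R) = 1 * 64 := by ring
      _ ≤ 2 ^ D * 64 := by nlinarith
      _ = 2 ^ (D + 1 + 5) := by ring
  have hw0 : 0 < w := by linarith
  have hr1 := (h2 1 le_rfl (by omega)).1
  set Γ : R := 2 ^ (D + 1) with hΓ
  have hΓ0 : 0 < Γ := by positivity
  have hwΓ : 32 * Γ ≤ w := by
    refine le_trans (le_of_eq ?_) hw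
    rw [hΓ]; ring
  rw [sum_Icc_one]
  have hid : ∑ k ∈ Finset.range (D + 1), b (k + 1) * r (k + 1) - w * μ * r 1 =
      ∑ k ∈ Finset.range (D + 1), (b (k + 1) - (γ (k + 1) - w * γ k) * μ ^ (k + 1)) * r (k + 1) +
      ∑ k ∈ Finset.range D, γ (k + 1) * (μ ^ (k + 1) * (r (k + 1) - w * μ * r (k + 2))) := by
    have h3 := telescope w μ γ r D
    rw [hγd, hγ0] at h3
    have h4 : ∑ k ∈ Finset.range (D + 1), b (k + 1) * r (k + 1) =
        ∑ k ∈ Finset.range (D + 1),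
          (b (k + 1) - (γ (k + 1) - w * γ k) * μ ^ (k + 1)) * r (k + 1) +
        ∑ k ∈ Finset.range (D + 1), (γ (k + 1) - w * γ k) * μ ^ (k + 1) * r (k + 1) := by
      rw [← Finset.sum_add_distrib]
      exact Finset.sum_congr rfl fun k _ => by ring
    rw [h4, h3]; ring
  rw [hid]
  have hA : |∑ k ∈ Finset.range (D + 1),
      (b (k + 1) - (γ (k + 1) - w * γ k) * μ ^ (k + 1)) * r (k + 1)| ≤ 4 * r 1 := by
    refine (Finset.abs_sum_le_sum_abs _ _).trans ?_
    have : ∀ k ∈ Finset.range (D + 1),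
        |(b (k + 1) - (γ (k + 1) - w * γ k) * μ ^ (k + 1)) * r (k + 1)| ≤
          2 * ((1 / 2) ^ k * r 1) := by
      intro k hk
      have hk' := Finset.mem_range.1 hk
      obtain ⟨h5, h6⟩ := h2 (k + 1) (by omega) (by omega)
      have h7 := hb (k + 1) (by omega) (by omega)
      rw [Nat.add_sub_cancel] at h6 h7
      rw [abs_mul, abs_of_pos h5]
      exact mul_le_mul h7 h6 h5.le (by norm_num)
    refine (Finset.sum_le_sum this).trans ?_
    rw [← Finset.mul_sum, ← Finset.sum_mul]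
    nlinarith [geom_half (R := R) (D + 1)]
  have hB : |∑ k ∈ Finset.range D, γ (k + 1) * (μ ^ (k + 1) * (r (k + 1) - w * μ * r (k + 2)))| ≤
      (16 / 15 * Γ * s * μ + 17 / 15) * r 1 := by
    refine (Finset.abs_sum_le_sum_abs _ _).trans ?_
    have : ∀ k ∈ Finset.range D,
        |γ (k + 1) * (μ ^ (k + 1) * (r (k + 1) - w * μ * r (k + 2)))| ≤
          (Γ * s * μ + 17 / 16) * r 1 * (1 / 16) ^ k := by
      intro k hk
      have hk' := Finset.mem_range.1 hk
      have h5 := h1 (k + 1) (by omega) (by omega)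
      have h6 := hγ (k + 1) (by omega)
      rw [abs_mul, abs_mul, abs_of_pos (pow_pos hμ _)]
      have h7 : (2 / w) ^ (k + 1) ≤ 1 / (16 * Γ) * (1 / 16) ^ k := by
        rw [pow_succ, mul_comm]
        have h8 : 2 / w ≤ 1 / (16 * Γ) := by
          rw [div_le_div_iff₀ hw0 (by positivity)]
          linarith
        have h9 : 2 / w ≤ 1 / 16 := by
          rw [div_le_div_iff₀ hw0 (by norm_num)]
          linarith
        exact mul_le_mul h8 (pow_le_pow_left₀ (by positivity) h9 k) (by positivity)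
          (by positivity)
      calc |γ (k + 1)| * (μ ^ (k + 1) * |r (k + 1) - w * μ * r (k + 2)|)
          ≤ Γ * ((16 * (1 / 16) ^ (k + 1) * s * μ + 17 * (2 / w) ^ (k + 1)) * r 1) :=
            mul_le_mul h6 h5 (by positivity) hΓ0.le
        _ ≤ Γ * ((16 * (1 / 16) ^ (k + 1) * s * μ +
              17 * (1 / (16 * Γ) * (1 / 16) ^ k)) * r 1) := by
            apply mul_le_mul_of_nonneg_left _ hΓ0.le
            apply mul_le_mul_of_nonneg_right _ hr1.le
            linarith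
        _ = (Γ * s * μ + 17 / 16) * r 1 * (1 / 16) ^ k := by
            rw [pow_succ]
            field_simp
    refine (Finset.sum_le_sum this).trans ?_
    rw [← Finset.mul_sum]
    have h5 : 0 ≤ (Γ * s * μ + 17 / 16) * r 1 := by positivity
    calc (Γ * s * μ + 17 / 16) * r 1 * ∑ i ∈ Finset.range D, (1 / 16 : R) ^ i
        ≤ (Γ * s * μ + 17 / 16) * r 1 * (16 / 15) :=
          mul_le_mul_of_nonneg_left (geom_sixteen D) h5
      _ = (16 / 15 * Γ * s * μ + 17 / 15) * r 1 := by ring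
  refine (abs_add_le _ _).trans ((add_le_add hA hB).trans ?_)
  have h5 : 0 ≤ Γ * s * μ := by positivity
  nlinarith [mul_nonneg h5 hr1.le]

lemma Q_alg (d : ℕ) (w μ lam : R) (γ b : ℕ → R) (hγ : ∀ k ≤ d, |γ k| ≤ 2 ^ d)
    (hw : 64 ≤ w) (hμ : 1 ≤ μ) (hμl : μ ≤ lam) (hlam : 4 * d * (w * 2 ^ d) * μ ≤ lam)
    (hd : 1 ≤ d)
    (hb : ∀ k, 1 ≤ k → k ≤ d → |b k - (γ k - w * γ (k - 1)) * μ ^ k| ≤ 2) :
    |∑ k ∈ Finset.Icc 1 d, b k * lam ^ (d - k)| ≤ lam ^ d / 2 := by
  have hlam0 : 0 < lam := by linarith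
  refine (Finset.abs_sum_le_sum_abs _ _).trans ?_
  have : ∀ k ∈ Finset.Icc 1 d, |b k * lam ^ (d - k)| ≤ 2 * (w * 2 ^ d) * μ * lam ^ (d - 1) := by
    intro k hk
    obtain ⟨h1, h2⟩ := Finset.mem_Icc.1 hk
    have h3 := hb k h1 h2
    have h4 := hγ k h2
    have h5 := hγ (k - 1) (by omega)
    have hμk : 1 ≤ μ ^ k := one_le_pow₀ hμ
    have hΓ : (2 : R) ≤ 2 ^ d := by
      calc (2 : R) = 2 ^ 1 := by norm_num
        _ ≤ 2 ^ d := pow_le_pow_right₀ (by norm_num) hd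
    have h6 : |b k| ≤ 2 * (w * 2 ^ d) * μ ^ k := by
      have h7 : |(γ k - w * γ (k - 1)) * μ ^ k| ≤ (2 ^ d + w * 2 ^ d) * μ ^ k := by
        rw [abs_mul, abs_of_pos (show 0 < μ ^ k by linarith)]
        apply mul_le_mul_of_nonneg_right _ (by linarith)
        refine (abs_sub _ _).trans ?_
        rw [abs_mul, abs_of_pos (show 0 < w by linarith)]
        have := mul_le_mul_of_nonneg_left h5 (show 0 ≤ w by linarith)
        linarith
      have h8 : |b k| ≤ 2 + (2 ^ d + w * 2 ^ d) * μ ^ k := by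
        have h9 : b k = (b k - (γ k - w * γ (k - 1)) * μ ^ k) + (γ k - w * γ (k - 1)) * μ ^ k := by
          ring
        rw [h9]
        exact (abs_add_le _ _).trans (add_le_add h3 h7)
      refine h8.trans ?_
      have h9 : (2 : R) ≤ 2 ^ d * μ ^ k := by nlinarith
      have h10 : 2 * (2 ^ d * μ ^ k) ≤ w * (2 ^ d * μ ^ k) := by
        apply mul_le_mul_of_nonneg_right _ (by positivity)
        linarith
      nlinarith
    rw [abs_mul, abs_of_pos (pow_pos hlam0 _)]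
    calc |b k| * lam ^ (d - k) ≤ 2 * (w * 2 ^ d) * μ ^ k * lam ^ (d - k) :=
          mul_le_mul_of_nonneg_right h6 (by positivity)
      _ = 2 * (w * 2 ^ d) * μ * (μ ^ (k - 1) * lam ^ (d - k)) := by
          obtain ⟨k', rfl⟩ : ∃ k', k = k' + 1 := ⟨k - 1, by omega⟩
          rw [Nat.add_sub_cancel]; ring
      _ ≤ 2 * (w * 2 ^ d) * μ * (lam ^ (k - 1) * lam ^ (d - k)) := by
          apply mul_le_mul_of_nonneg_left _ (by positivity)
          apply mul_le_mul_of_nonneg_right _ (by positivity)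
          exact pow_le_pow_left₀ (by linarith) hμl _
      _ = 2 * (w * 2 ^ d) * μ * lam ^ (d - 1) := by
          rw [← pow_add]
          congr 2
          omega
  refine (Finset.sum_le_sum this).trans ?_
  rw [Finset.sum_const, Nat.card_Icc, Nat.add_sub_cancel, nsmul_eq_mul]
  have h3 : lam ^ d = lam * lam ^ (d - 1) := by
    rw [← pow_succ']
    congr 1
    omega
  rw [h3]
  have h4 := mul_le_mul_of_nonneg_right hlam (show 0 ≤ lam ^ (d - 1) by positivity)
  linarith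

end Alg

section Step

variable {U : Type u} {R : Type v} [CommSemiring U] [LinearOrder U] [IsStrictOrderedRing U]
  [CanonicallyOrderedAdd U] [Field R] [LinearOrder R] [IsStrictOrderedRing R]

/-- the induction claim -/
def SS (B : BIP U R) (D : ℕ) (W μ lam Q : R) (c' : U) (ρ : U → R) (y : U) : Prop :=
  0 < ρ (y + ((D + 1 : ℕ) : U)) ∧
  B.e y * |ρ (y + ((D + 1 : ℕ) : U)) - W * ρ (y + (D : U))| ≤
    (8 * 2 ^ (D + 1) * μ + 16 * B.e y) * ρ (y + (D : U)) ∧
  ρ (y + ((D + 1 : ℕ) : U)) * lam ≤ 2 * Q * B.e (c' * (y + 1))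

/-- consequences of the claim -/
lemma SS.conseq {B : BIP U R} {D : ℕ} {W μ lam Q : R} {c' : U} {ρ : U → R} {y : U}
    (h : SS B D W μ lam Q c' ρ y) {w : R} (hw : 2 ^ (D + 1 + 5) ≤ w) (hμ : 68 ≤ μ)
    (hW : |W - w * μ| ≤ 1) :
    0 < ρ (y + (D : U)) ∧
    |ρ (y + ((D + 1 : ℕ) : U)) - w * μ * ρ (y + (D : U))| ≤
      (8 * 2 ^ (D + 1) * μ * (1 / B.e y) + 17) * ρ (y + (D : U)) ∧
    w / 2 * μ * ρ (y + (D : U)) ≤ ρ (y + ((D + 1 : ℕ) : U)) := by
  obtain ⟨h1, h2, h3⟩ := h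
  have he := B.e_pos y
  have he1 := B.one_le_e y
  have hc : 0 < 8 * 2 ^ (D + 1) * μ + 16 * B.e y := by positivity
  have h4 : 0 ≤ ρ (y + (D : U)) := by
    by_contra hneg
    push Not at hneg
    have h5 : 0 ≤ B.e y * |ρ (y + ((D + 1 : ℕ) : U)) - W * ρ (y + (D : U))| := by positivity
    nlinarith [mul_neg_of_pos_of_neg hc hneg]
  have h5 : 0 < ρ (y + (D : U)) := by
    rcases h4.lt_or_eq with h4 | h4
    · exact h4
    · exfalso
      rw [← h4, mul_zero, mul_zero, sub_zero, abs_of_pos h1] at h2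
      nlinarith [mul_pos he h1]
  have h6 : |ρ (y + ((D + 1 : ℕ) : U)) - W * ρ (y + (D : U))| ≤
      (8 * 2 ^ (D + 1) * μ * (1 / B.e y) + 16) * ρ (y + (D : U)) := by
    have : (8 * 2 ^ (D + 1) * μ * (1 / B.e y) + 16) * ρ (y + (D : U)) =
        ((8 * 2 ^ (D + 1) * μ + 16 * B.e y) * ρ (y + (D : U))) / B.e y := by
      field_simp
    rw [this, le_div_iff₀ he]
    linarith
  have h7 : |ρ (y + ((D + 1 : ℕ) : U)) - w * μ * ρ (y + (D : U))| ≤
      (8 * 2 ^ (D + 1) * μ * (1 / B.e y) + 17) * ρ (y + (D : U)) := by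
    have h8 : ρ (y + ((D + 1 : ℕ) : U)) - w * μ * ρ (y + (D : U)) =
        (ρ (y + ((D + 1 : ℕ) : U)) - W * ρ (y + (D : U))) + (W - w * μ) * ρ (y + (D : U)) := by
      ring
    rw [h8]
    refine (abs_add_le _ _).trans ?_
    rw [abs_mul, abs_of_pos h5]
    have := mul_le_mul_of_nonneg_right hW h5.le
    linarith
  refine ⟨h5, h7, ?_⟩
  have h8 := (abs_le.1 h7).1
  have h9 : 8 * 2 ^ (D + 1) * μ * (1 / B.e y) ≤ w / 4 * μ := by
    have h10 : 1 / B.e y ≤ 1 := by
      rw [div_le_one he]; exact he1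
    have h11 : 8 * 2 ^ (D + 1) ≤ w / 4 := by
      have : (2 : R) ^ (D + 1 + 5) = 4 * (8 * 2 ^ (D + 1)) := by ring
      linarith
    calc 8 * 2 ^ (D + 1) * μ * (1 / B.e y) ≤ 8 * 2 ^ (D + 1) * μ * 1 :=
          mul_le_mul_of_nonneg_left h10 (by positivity)
      _ ≤ w / 4 * μ := by
          rw [mul_one]
          exact mul_le_mul_of_nonneg_right h11 (by linarith)
  have hw1 : 1 ≤ w := le_trans (one_le_pow₀ (by norm_num)) hw
  have h10 : (17 : R) ≤ w / 4 * μ := by nlinarith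
  nlinarith [mul_le_mul_of_nonneg_right (add_le_add h9 h10) h5.le]

lemma exists_nat (B : BIP U R) (n : ℕ) : ∀ x : U, x ≤ n → ∃ m : ℕ, m ≤ n ∧ x = m := by
  induction n with
  | zero =>
    intro x hx
    rw [Nat.cast_zero] at hx
    exact ⟨0, le_rfl, by rw [Nat.cast_zero]; exact le_antisymm hx zero_le⟩
  | succ n ih =>
    intro x hx
    rcases hx.lt_or_eq with h | h
    · rw [Nat.cast_succ] at h
      obtain ⟨m, hm, hxm⟩ := ih x (B.le_of_lt_succ x n h)
      exact ⟨m, by omega, hxm⟩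
    · exact ⟨n + 1, le_rfl, h⟩

lemma exists_nat_or (B : BIP U R) (j : U) (k : ℕ) :
    (∃ y, j = y + (k : U)) ∨ ∃ j₀ : ℕ, j₀ < k ∧ j = (j₀ : U) := by
  rcases le_or_gt (k : U) j with h | h
  · left
    obtain ⟨y, hy⟩ := le_iff_exists_add.1 h
    exact ⟨y, by rw [hy, add_comm]⟩
  · right
    obtain ⟨m, hm, hjm⟩ := exists_nat B k j h.le
    refine ⟨m, ?_, hjm⟩
    rw [hjm] at h
    exact_mod_cast h

/-- the values with standard index difference -/
lemma step_facts (B : BIP U R) (D : ℕ) (w W μ lam Q : R) (c' : U) (ρ : U → R) (j : U)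
    (hw : 2 ^ (D + 1 + 5) ≤ w) (hμ : 68 ≤ μ) (hW : |W - w * μ| ≤ 1)
    (hl1 : w * μ ≤ lam)
    (hρ0 : ∀ i : ℕ, i ≤ D → ρ (i : U) = lam ^ i)
    (IH : ∀ y, y < j → SS B D W μ lam Q c' ρ y) (k : ℕ) (hk1 : 1 ≤ k) (hk : k < D + 1) :
    0 < ρ (j + ((D - k : ℕ) : U)) ∧
    w / 2 * μ * ρ (j + ((D - k : ℕ) : U)) ≤ ρ (j + ((D + 1 - k : ℕ) : U)) ∧
    (|ρ (j + ((D + 1 - k : ℕ) : U)) - w * μ * ρ (j + ((D - k : ℕ) : U))| ≤
        (8 * 2 ^ (D + 1) * μ * (2 ^ k * (1 / B.e j)) + 17) * ρ (j + ((D - k : ℕ) : U)) ∨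
      ∃ j₀ : ℕ, j₀ < k ∧ j = (j₀ : U) ∧ ρ (j + ((D + 1 - k : ℕ) : U)) = lam ^ (j₀ + (D + 1 - k)) ∧
        |ρ (j + ((D + 1 - k : ℕ) : U)) - w * μ * ρ (j + ((D - k : ℕ) : U))| ≤
          ρ (j + ((D + 1 - k : ℕ) : U))) := by
  have hw0 : 0 < w := lt_of_lt_of_le (by positivity) hw
  have hlam0 : 0 < lam := lt_of_lt_of_le (by positivity) hl1
  rcases exists_nat_or B j k with ⟨y, hy⟩ | ⟨j₀, hj₀, hj⟩
  · have hyj : y < j := by
      rw [hy]
      have : (0 : U) < (k : U) := by exact_mod_cast hk1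
      exact lt_add_of_pos_right _ this
    have e1 : j + ((D + 1 - k : ℕ) : U) = y + ((D + 1 : ℕ) : U) := by
      rw [hy, add_assoc, ← Nat.cast_add]
      congr 2
      omega
    have e2 : j + ((D - k : ℕ) : U) = y + (D : U) := by
      rw [hy, add_assoc, ← Nat.cast_add]
      congr 2
      omega
    obtain ⟨h1, h2, h3⟩ := (IH y hyj).conseq hw hμ hW
    rw [e1, e2]
    refine ⟨h1, h3, Or.inl ?_⟩
    have e3 : 2 ^ k * (1 / B.e j) = 1 / B.e y := by
      rw [hy, B.e_add, B.e_natCast]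
      have := B.e_pos y
      field_simp
    rw [e3]
    exact h2
  · have e1 : j + ((D + 1 - k : ℕ) : U) = ((j₀ + (D + 1 - k) : ℕ) : U) := by
      rw [hj]; push_cast; rfl
    have e2 : j + ((D - k : ℕ) : U) = ((j₀ + (D - k) : ℕ) : U) := by
      rw [hj]; push_cast; rfl
    have h1 : ρ (j + ((D + 1 - k : ℕ) : U)) = lam ^ (j₀ + (D + 1 - k)) := by
      rw [e1, hρ0 _ (by omega)]
    have h2 : ρ (j + ((D - k : ℕ) : U)) = lam ^ (j₀ + (D - k)) := by
      rw [e2, hρ0 _ (by omega)]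
    have h3 : ρ (j + ((D + 1 - k : ℕ) : U)) = lam * ρ (j + ((D - k : ℕ) : U)) := by
      rw [h1, h2, ← pow_succ']
      congr 1
      omega
    have h4 : 0 < ρ (j + ((D - k : ℕ) : U)) := by
      rw [h2]; positivity
    have h5 := mul_le_mul_of_nonneg_right hl1 h4.le
    have h6 : 0 < w * μ * ρ (j + ((D - k : ℕ) : U)) := by positivity
    refine ⟨h4, ?_, Or.inr ⟨j₀, hj₀, hj, h1, ?_⟩⟩
    · rw [h3]; nlinarith
    · rw [h3, abs_of_nonneg (by linarith)]
      linarith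

/-- the values are geometrically decreasing -/
lemma step_geom (B : BIP U R) (D : ℕ) (w W μ lam Q : R) (c' : U) (ρ : U → R) (j : U)
    (hw : 2 ^ (D + 1 + 5) ≤ w) (hμ : 68 ≤ μ) (hW : |W - w * μ| ≤ 1)
    (hl1 : w * μ ≤ lam)
    (hρ0 : ∀ i : ℕ, i ≤ D → ρ (i : U) = lam ^ i)
    (IH : ∀ y, y < j → SS B D W μ lam Q c' ρ y) (k : ℕ) (hk : k ≤ D) :
    0 < ρ (j + ((D - k : ℕ) : U)) ∧
    ρ (j + ((D - k : ℕ) : U)) ≤ (2 / (w * μ)) ^ k * ρ (j + (D : U)) := by
  have hw0 : 0 < w := lt_of_lt_of_le (by positivity) hw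
  have hlam0 : 0 < lam := lt_of_lt_of_le (by positivity) hl1
  induction k with
  | zero =>
    rw [Nat.sub_zero]
    refine ⟨?_, by simp⟩
    rcases exists_nat_or B j 1 with ⟨y, hy⟩ | ⟨j₀, hj₀, hj⟩
    · have hyj : y < j := by
        rw [hy]
        have : (0 : U) < ((1 : ℕ) : U) := by exact_mod_cast Nat.one_pos
        exact lt_add_of_pos_right _ this
      have e1 : j + (D : U) = y + ((D + 1 : ℕ) : U) := by
        rw [hy]; push_cast; ring
      rw [e1]
      exact (IH y hyj).1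
    · have e1 : j + (D : U) = ((D : ℕ) : U) := by
        rw [hj, show j₀ = 0 by omega]; push_cast; ring
      rw [e1, hρ0 D le_rfl]
      positivity
  | succ k ih =>
    obtain ⟨h1, h2⟩ := ih (by omega)
    obtain ⟨h3, h4, -⟩ := step_facts B D w W μ lam Q c' ρ j hw hμ hW hl1 hρ0 IH (k + 1) (by omega)
      (by omega)
    refine ⟨h3, ?_⟩
    rw [show D + 1 - (k + 1) = D - k by omega] at h4
    have h5 : ρ (j + ((D - (k + 1) : ℕ) : U)) ≤ 2 / (w * μ) * ρ (j + ((D - k : ℕ) : U)) := by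
      have hwm : 0 < w * μ := by positivity
      rw [div_mul_eq_mul_div, le_div_iff₀ hwm]
      linarith
    refine h5.trans ?_
    rw [pow_succ', mul_assoc]
    exact mul_le_mul_of_nonneg_left h2 (by positivity)

/-- the induction step -/
lemma step (B : BIP U R) (D : ℕ) (w W μ lam Q : R) (c' : U) (ρ : U → R) (j : U)
    (γ b : ℕ → R) (hγ0 : γ 0 = -1) (hγd : γ (D + 1) = 0)
    (hγ : ∀ k ≤ D + 1, |γ k| ≤ 2 ^ (D + 1))
    (hw : 2 ^ (D + 1 + 5) ≤ w) (hμ : 68 ≤ μ) (hW : |W - w * μ| ≤ 1)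
    (hl1 : w * μ ≤ lam)
    (hb : ∀ k, 1 ≤ k → k ≤ D + 1 → |b k - (γ k - w * γ (k - 1)) * μ ^ k| ≤ 2)
    (hρ0 : ∀ i : ℕ, i ≤ D → ρ (i : U) = lam ^ i)
    (hrec : 0 ≤ ∑ k ∈ Finset.Icc 1 (D + 1), b k * ρ (j + ((D + 1 - k : ℕ) : U)) →
      ∑ k ∈ Finset.Icc 1 (D + 1), b k * ρ (j + ((D + 1 - k : ℕ) : U)) < Q →
      ρ (j + ((D + 1 : ℕ) : U)) =
        ∑ k ∈ Finset.Icc 1 (D + 1), b k * ρ (j + ((D + 1 - k : ℕ) : U)))
    (hQ0 : 0 < Q) (hQ : lam ^ (D + 1) ≤ 2 * Q) (hc : 2 * w * μ ≤ B.e c')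
    (hj : 4 * B.e (c' * (j + 1)) ≤ lam)
    (IH : ∀ y, y < j → SS B D W μ lam Q c' ρ y) : SS B D W μ lam Q c' ρ j := by
  have hw0 : 0 < w := lt_of_lt_of_le (by positivity) hw
  have hlam0 : 0 < lam := lt_of_lt_of_le (by positivity) hl1
  have hw64 : (64 : R) ≤ w := by
    refine le_trans ?_ hw
    have : (1 : R) ≤ 2 ^ D := one_le_pow₀ (by norm_num)
    calc (64 : R) = 1 * 64 := by ring
      _ ≤ 2 ^ D * 64 := by nlinarith
      _ = 2 ^ (D + 1 + 5) := by ring
  have hwΓ : 32 * 2 ^ (D + 1) ≤ w := by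
    refine le_trans (le_of_eq ?_) hw
    ring
  have hG := step_geom B D w W μ lam Q c' ρ j hw hμ hW hl1 hρ0 IH
  have hF := step_facts B D w W μ lam Q c' ρ j hw hμ hW hl1 hρ0 IH
  have hr1 : 0 < ρ (j + (D : U)) := by simpa using (hG 0 (by omega)).1
  have he := B.e_pos j
  have he1 := B.one_le_e j
  have hS := sum_bound (D + 1) (by omega) w μ (1 / B.e j) γ b
    (fun k => ρ (j + ((D + 1 - k : ℕ) : U))) hγ0 hγd hγ hw (by linarith) (by positivity) hb
    (by
      intro k hk1 hk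
      rw [show D + 1 - (k + 1) = D - k by omega, show D + 1 - 1 = D by omega]
      obtain ⟨h1, h2, h3⟩ := hF k hk1 hk
      obtain ⟨h4, h5⟩ := hG k (by omega)
      have hwμ : 0 < w * μ := by positivity
      rcases h3 with h3 | ⟨j₀, hj₀, hjj, h6, h7⟩
      · calc μ ^ k * |ρ (j + ((D + 1 - k : ℕ) : U)) - w * μ * ρ (j + ((D - k : ℕ) : U))|
            ≤ μ ^ k * ((8 * 2 ^ (D + 1) * μ * (2 ^ k * (1 / B.e j)) + 17) *
                ρ (j + ((D - k : ℕ) : U))) := mul_le_mul_of_nonneg_left h3 (by positivity)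
          _ ≤ μ ^ k * ((8 * 2 ^ (D + 1) * μ * (2 ^ k * (1 / B.e j)) + 17) *
                ((2 / (w * μ)) ^ k * ρ (j + (D : U)))) := by
              apply mul_le_mul_of_nonneg_left _ (by positivity)
              exact mul_le_mul_of_nonneg_left h5 (by positivity)
          _ = (8 * 2 ^ (D + 1) * (4 / w) ^ k * (1 / B.e j) * μ + 17 * (2 / w) ^ k) *
                ρ (j + (D : U)) := by
              have e4 : (4 / w) ^ k = 2 ^ k * (2 / w) ^ k := by
                rw [← mul_pow]; congr 1; ring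
              rw [e4, show 2 / (w * μ) = (2 / w) * (1 / μ) by field_simp, mul_pow, one_div μ,
                inv_pow]
              have hμ0 : μ ^ k ≠ 0 := by positivity
              field_simp
          _ ≤ (16 * (1 / 16) ^ k * (1 / B.e j) * μ + 17 * (2 / w) ^ k) * ρ (j + (D : U)) := by
              apply mul_le_mul_of_nonneg_right _ hr1.le
              apply add_le_add _ le_rfl
              apply mul_le_mul_of_nonneg_right _ (by linarith)
              apply mul_le_mul_of_nonneg_right _ (by positivity)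
              obtain ⟨k', rfl⟩ : ∃ k', k = k' + 1 := ⟨k - 1, by omega⟩
              have h8 : (4 / w) ^ (k' + 1) ≤ (1 / (8 * 2 ^ (D + 1))) * (1 / 16) ^ k' := by
                rw [pow_succ, mul_comm]
                apply mul_le_mul _ _ (by positivity) (by positivity)
                · rw [div_le_div_iff₀ hw0 (by positivity)]; linarith
                · apply pow_le_pow_left₀ (by positivity)
                  rw [div_le_div_iff₀ hw0 (by norm_num)]; linarith
              calc 8 * 2 ^ (D + 1) * (4 / w) ^ (k' + 1)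
                  ≤ 8 * 2 ^ (D + 1) * ((1 / (8 * 2 ^ (D + 1))) * (1 / 16) ^ k') :=
                    mul_le_mul_of_nonneg_left h8 (by positivity)
                _ = 16 * (1 / 16) ^ (k' + 1) := by
                    rw [pow_succ (1 / 16 : R) k', ← mul_assoc, mul_one_div_cancel (by positivity)]
                    ring
      · -- the base region
        obtain ⟨q, hq⟩ : ∃ q, k = j₀ + 1 + q := ⟨k - (j₀ + 1), by omega⟩
        have hqD : j₀ + q < D := by omega
        obtain ⟨-, h8⟩ := hG j₀ (by omega)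
        have e5 : j + ((D - j₀ : ℕ) : U) = ((D : ℕ) : U) := by
          rw [hjj, ← Nat.cast_add]
          congr 1
          omega
        rw [e5, hρ0 D le_rfl] at h8
        have hs : 1 / B.e j = (1 / 2) ^ j₀ := by
          rw [hjj, B.e_natCast, one_div_pow]
        rw [hs]
        have e6 : ρ (j + ((D + 1 - k : ℕ) : U)) = lam ^ (D - q) := by
          rw [h6]
          congr 1
          omega
        have hμl : μ ≤ lam / 16 := by
          rw [le_div_iff₀ (by norm_num)]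
          nlinarith
        calc μ ^ k * |ρ (j + ((D + 1 - k : ℕ) : U)) - w * μ * ρ (j + ((D - k : ℕ) : U))|
            ≤ μ ^ k * lam ^ (D - q) := by
              rw [← e6]
              exact mul_le_mul_of_nonneg_left h7 (by positivity)
          _ = μ ^ (j₀ + 1) * μ ^ q * lam ^ (D - q) := by
              rw [hq, pow_add]
          _ ≤ μ ^ (j₀ + 1) * (lam / 16) ^ q * lam ^ (D - q) := by
              apply mul_le_mul_of_nonneg_right _ (by positivity)
              apply mul_le_mul_of_nonneg_left _ (by positivity)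
              exact pow_le_pow_left₀ (by linarith) hμl q
          _ = μ ^ (j₀ + 1) * (1 / 16) ^ q * lam ^ D := by
              rw [div_pow, show lam ^ D = lam ^ q * lam ^ (D - q) by
                rw [← pow_add]; congr 1; omega, one_div_pow]
              ring
          _ ≤ μ ^ (j₀ + 1) * (1 / 16) ^ q * ((2 / (w * μ)) ^ j₀ * ρ (j + (D : U))) := by
              apply mul_le_mul_of_nonneg_left h8 (by positivity)
          _ = μ * (1 / 16) ^ q * (2 / w) ^ j₀ * ρ (j + (D : U)) := by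
              rw [show 2 / (w * μ) = (2 / w) * (1 / μ) by field_simp, mul_pow, one_div μ, inv_pow,
                pow_succ]
              have hμ0 : μ ^ j₀ ≠ 0 := by positivity
              field_simp
          _ ≤ μ * (1 / 16) ^ q * ((1 / 16) ^ j₀ * (1 / 2) ^ j₀) * ρ (j + (D : U)) := by
              apply mul_le_mul_of_nonneg_right _ hr1.le
              apply mul_le_mul_of_nonneg_left _ (by positivity)
              rw [← mul_pow]
              apply pow_le_pow_left₀ (by positivity)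
              rw [div_le_iff₀ hw0]
              linarith
          _ = 16 * (1 / 16) ^ k * (1 / 2) ^ j₀ * μ * ρ (j + (D : U)) := by
              rw [hq, pow_add, pow_add]; ring
          _ ≤ (16 * (1 / 16) ^ k * (1 / 2) ^ j₀ * μ + 17 * (2 / w) ^ k) * ρ (j + (D : U)) := by
              apply mul_le_mul_of_nonneg_right _ hr1.le
              have : 0 ≤ 17 * (2 / w) ^ k := by positivity
              linarith)
    (by
      intro k hk1 hk
      rw [show D + 1 - 1 = D by omega]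
      obtain ⟨k', rfl⟩ : ∃ k', k = k' + 1 := ⟨k - 1, by omega⟩
      rw [show D + 1 - (k' + 1) = D - k' by omega, Nat.add_sub_cancel]
      obtain ⟨h4, h5⟩ := hG k' (by omega)
      refine ⟨h4, h5.trans ?_⟩
      apply mul_le_mul_of_nonneg_right _ hr1.le
      apply pow_le_pow_left₀ (by positivity)
      rw [div_le_div_iff₀ (by positivity) (by norm_num)]
      nlinarith)
  simp only [show D + 1 - 1 = D by omega] at hS
  set ψ := ∑ k ∈ Finset.Icc 1 (D + 1), b k * ρ (j + ((D + 1 - k : ℕ) : U)) with hψ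
  have hs1 : 1 / B.e j ≤ 1 := by rw [div_le_one he]; exact he1
  have h9 : 2 * 2 ^ (D + 1) * (1 / B.e j) * μ ≤ w / 4 * μ := by
    apply mul_le_mul_of_nonneg_right _ (by linarith)
    calc 2 * 2 ^ (D + 1) * (1 / B.e j) ≤ 2 * 2 ^ (D + 1) * 1 :=
          mul_le_mul_of_nonneg_left hs1 (by positivity)
      _ ≤ w / 4 := by linarith
  have h10 : (8 : R) ≤ w / 4 * μ := by nlinarith
  have h11 : |ψ - w * μ * ρ (j + (D : U))| ≤ w / 2 * μ * ρ (j + (D : U)) := by
    refine hS.trans ?_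
    apply mul_le_mul_of_nonneg_right _ hr1.le
    linarith
  have h12 := abs_le.1 h11
  have hwμr : 0 < w * μ * ρ (j + (D : U)) := by positivity
  have hψ0 : 0 < ψ := by nlinarith
  have hψ2 : ψ ≤ 2 * w * μ * ρ (j + (D : U)) := by nlinarith
  -- the bound of the previous value
  have h13 : ρ (j + (D : U)) * lam ≤ 2 * Q * B.e (c' * j) := by
    rcases exists_nat_or B j 1 with ⟨y, hy⟩ | ⟨j₀, hj₀, hjj⟩
    · have hyj : y < j := by
        rw [hy]
        have : (0 : U) < ((1 : ℕ) : U) := by exact_mod_cast Nat.one_pos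
        exact lt_add_of_pos_right _ this
      have e1 : j + (D : U) = y + ((D + 1 : ℕ) : U) := by
        rw [hy]; push_cast; ring
      rw [e1]
      have h14 := (IH y hyj).2.2
      rw [hy, Nat.cast_one]
      exact h14
    · have e1 : j = 0 := by
        rw [hjj, show j₀ = 0 by omega, Nat.cast_zero]
      rw [e1, zero_add, hρ0 D le_rfl, mul_zero, B.e_zero, mul_one, ← pow_succ]
      exact hQ
  have h14 : ψ * lam ≤ 2 * Q * B.e (c' * (j + 1)) := by
    calc ψ * lam ≤ (2 * w * μ * ρ (j + (D : U))) * lam :=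
          mul_le_mul_of_nonneg_right hψ2 hlam0.le
      _ = 2 * w * μ * (ρ (j + (D : U)) * lam) := by ring
      _ ≤ 2 * w * μ * (2 * Q * B.e (c' * j)) := mul_le_mul_of_nonneg_left h13 (by positivity)
      _ ≤ B.e c' * (2 * Q * B.e (c' * j)) := by
          apply mul_le_mul_of_nonneg_right hc
          have := B.e_pos (c' * j)
          positivity
      _ = 2 * Q * B.e (c' * (j + 1)) := by
          rw [mul_add, mul_one, B.e_add]; ring
  have hψQ : ψ < Q := by
    have h15 : ψ * lam ≤ Q / 2 * lam := by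
      refine h14.trans ?_
      nlinarith
    have := le_of_mul_le_mul_right h15 hlam0
    linarith
  have hρψ := hrec hψ0.le hψQ
  refine ⟨?_, ?_, ?_⟩
  · rw [hρψ]; exact hψ0
  · rw [hρψ]
    have h16 : |ψ - W * ρ (j + (D : U))| ≤
        (2 * 2 ^ (D + 1) * (1 / B.e j) * μ + 9) * ρ (j + (D : U)) := by
      have h17 : ψ - W * ρ (j + (D : U)) = (ψ - w * μ * ρ (j + (D : U))) +
          (w * μ - W) * ρ (j + (D : U)) := by ring
      rw [h17]
      refine (abs_add_le _ _).trans ?_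
      rw [abs_mul, abs_of_pos hr1, abs_sub_comm (w * μ) W]
      have := mul_le_mul_of_nonneg_right hW hr1.le
      linarith
    calc B.e j * |ψ - W * ρ (j + (D : U))|
        ≤ B.e j * ((2 * 2 ^ (D + 1) * (1 / B.e j) * μ + 9) * ρ (j + (D : U))) :=
          mul_le_mul_of_nonneg_left h16 he.le
      _ = (2 * 2 ^ (D + 1) * μ + 9 * B.e j) * ρ (j + (D : U)) := by field_simp
      _ ≤ (8 * 2 ^ (D + 1) * μ + 16 * B.e j) * ρ (j + (D : U)) := by
          apply mul_le_mul_of_nonneg_right _ hr1.le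
          have : 0 < 2 ^ (D + 1) * μ := by positivity
          nlinarith
  · rw [hρψ]; exact h14

lemma usub_add {a b : U} (h : b ≤ a) : b + usub a b = a := by
  have h1 : ∃ c, b + c = a := by
    obtain ⟨c, hc⟩ := le_iff_exists_add.1 h
    exact ⟨c, hc.symm⟩
  unfold usub
  rw [dif_pos h1]
  exact h1.choose_spec

lemma usub_le (a b : U) : usub a b ≤ a := by
  by_cases h : ∃ c, b + c = a
  · have h1 : b ≤ a := by
      obtain ⟨c, hc⟩ := h
      rw [← hc]; exact le_self_add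
    calc usub a b ≤ b + usub a b := le_add_self
      _ = a := usub_add h1
  · unfold usub
    rw [dif_neg h]
    exact zero_le

/-- the minimum, as a definable function -/
noncomputable def mn (L y : U) : U := usub L (usub L y)

lemma mn_eq {L y : U} (h : y ≤ L) : mn L y = y := by
  have h1 := usub_add h
  have h2 := usub_add (usub_le L y)
  unfold mn
  have h3 : usub L y + usub L (usub L y) = usub L y + y := by
    rw [h2, add_comm, h1]
  exact add_left_cancel h3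

lemma mn_le (L y : U) : mn L y ≤ L := usub_le _ _

lemma F1_mn (B : BIP U R) (L : U) : B.F1 (fun y => mn L y) :=
  BIP.F.sub (BIP.F.const L) (BIP.F.sub (BIP.F.const L) (BIP.F.var 0))

lemma strong (B : BIP U R) {P : U → Prop} (hP : B.D1 P)
    (h : ∀ x, (∀ y, y < x → P y) → P x) (x : U) : P x := by
  by_contra hx
  obtain ⟨y, hy, hy2⟩ := B.least (P := fun y => ¬ P y) (BIP.D.not hP) hx
  exact hy (h y fun z hz => not_not.1 (hy2 z hz))

/-- the remainders form an internal family -/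
lemma internal_rho (hMul : Stmt_Mul.{u, v}) (B : BIP U R) (K I : U) (Q : R) (hQZ : Q ∈ B.Z)
    (hQ1 : 1 ≤ Q) (ρ : U → R) (hρ : ∀ i, ρ i = B.e (K * i) - Q * B.fl (B.e (K * i) / Q)) :
    ∃ (K₁ : U) (ρ' : U → R), B.NF K₁ ρ' ∧ ∀ i, i ≤ I → ρ' i = ρ i := by
  have hQ0 : 0 < Q := by linarith
  set E := B.fl (B.e (K * I) / Q) with hE
  have heI := B.e_pos (K * I)
  have hE0 : 0 ≤ E := B.fl_nonneg (by positivity)
  have hE1 : E < B.e (K * I + 1) := by
    have h1 : E ≤ B.e (K * I) / Q := B.fl_le _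
    have h2 : B.e (K * I) / Q ≤ B.e (K * I) := div_le_self heI.le hQ1
    have h3 : B.e (K * I) < B.e (K * I + 1) := B.e_lt _ _ (lt_add_of_pos_right _ one_pos)
    linarith
  have hT : B.NF (K * I + 1) (fun i => B.hi E (K * usub I i)) :=
    BIP.NF.hi (BIP.NF.const (B.fl_mem _) hE0 hE1)
      (BIP.F.mul (BIP.F.const K) (BIP.F.sub (BIP.F.const I) (BIP.F.var 0)))
  have hTv : ∀ i, i ≤ I → B.hi E (K * usub I i) = B.fl (B.e (K * i) / Q) := by
    intro i hi
    have h1 := usub_add hi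
    have h2 : B.e (K * I) = B.e (K * i) * B.e (K * usub I i) := by
      rw [← B.e_add, ← mul_add, h1]
    unfold BIP.hi
    rw [hE, B.fl_fl_div (B.e_mem _) (B.e_pos _), h2]
    congr 1
    have h3 := (B.e_pos (K * usub I i)).ne'
    field_simp
  obtain ⟨K₂, hK₂⟩ := B.exists_lt_e Q
  obtain ⟨P, hP, hPv⟩ := hMul U R B K₂ (K * I + 1) (fun _ => Q)
    (fun i => B.hi E (K * usub I i)) (BIP.NF.const hQZ hQ0.le hK₂) hT (I + 1)
  have hA : B.NF (K * I + 1) (fun i => B.e (K * mn I i)) :=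
    BIP.NF.e (BIP.F.mul (BIP.F.const K) (F1_mn B I)) (fun i => mul_le_mul_right (mn_le I i) K)
  refine ⟨(K * I + 1) + (K₂ + (K * I + 1)), _,
    BIP.NF.tsub (hA.mono le_self_add) (hP.mono le_add_self), ?_⟩
  intro i hi
  rw [hPv i (lt_of_le_of_lt hi (lt_add_of_pos_right _ one_pos)), hTv i hi, mn_eq hi, ← hρ i]
  apply max_eq_left
  rw [hρ i]
  have h1 : B.fl (B.e (K * i) / Q) ≤ B.e (K * i) / Q := B.fl_le _
  rw [le_div_iff₀ hQ0] at h1
  linarith

/-- definability of the induction claim below `L` -/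
lemma SS_dfn (hMul : Stmt_Mul.{u, v}) (B : BIP U R) (D : ℕ) (W Q : R) (N' c' K L : U) (ρ : U → R)
    (hW : W ∈ B.Z) (hW0 : 0 ≤ W) (hQ : Q ∈ B.Z) (hQ0 : 0 ≤ Q)
    {K₁ I : U} {ρ' : U → R} (hρ' : B.NF K₁ ρ') (hρρ' : ∀ i, i ≤ I → ρ' i = ρ i)
    (hLI : L + ((D + 1 : ℕ) : U) ≤ I) :
    ∃ P : U → Prop, B.D1 P ∧ ∀ y, y ≤ L → (P y ↔ SS B D W (B.e N') (B.e K) Q c' ρ y) := by
  have hR1 : B.NF K₁ (fun y => ρ' (y + ((D + 1 : ℕ) : U))) :=
    hρ'.reindex (BIP.F.add (BIP.F.var 0) (BIP.F.const _))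
  have hR2 : B.NF K₁ (fun y => ρ' (y + (D : U))) :=
    hρ'.reindex (BIP.F.add (BIP.F.var 0) (BIP.F.const _))
  obtain ⟨K₂, hK₂⟩ := B.exists_lt_e W
  obtain ⟨WR, hWR, hWRv⟩ := hMul U R B K₂ K₁ (fun _ => W) _ (BIP.NF.const hW hW0 hK₂) hR2 (L + 1)
  have hAD := BIP.NF.absdiff (hR1.mono (le_add_self : K₁ ≤ K₂ + K₁)) hWR
  have hLHS := BIP.NF.shift hAD (F1_mn B L) (fun i => mn_le L i)
  have hS1 := BIP.NF.shift hR2 (a := fun _ => ((D + 4 : ℕ) : U) + N') (BIP.F.const _)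
    (L := ((D + 4 : ℕ) : U) + N') (fun i => le_rfl)
  have hS2 := BIP.NF.shift hR2 (a := fun y => ((4 : ℕ) : U) + mn L y)
    (BIP.F.add (BIP.F.const _) (F1_mn B L)) (L := ((4 : ℕ) : U) + L)
    (fun i => by gcongr; exact mn_le L i)
  have hRHS := BIP.NF.add
    (hS1.mono (le_self_add : K₁ + (((D + 4 : ℕ) : U) + N') ≤
      K₁ + (((D + 4 : ℕ) : U) + N') + (K₁ + (((4 : ℕ) : U) + L))))
    (hS2.mono le_add_self)
  have hA := BIP.NF.shift hR1 (a := fun _ => K) (BIP.F.const _) (L := K) (fun i => le_rfl)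
  obtain ⟨K₃, hK₃⟩ := B.exists_lt_e (2 * Q)
  have h2Q : 2 * Q ∈ B.Z := by
    have : 2 * Q = Q + Q := by ring
    rw [this]; exact B.Z.add_mem hQ hQ
  have hC := BIP.NF.shift (BIP.NF.const h2Q (by linarith) hK₃)
    (a := fun y => c' * (mn L y + 1)) (BIP.F.mul (BIP.F.const _)
      (BIP.F.add (F1_mn B L) (BIP.F.const _))) (L := c' * (L + 1))
    (fun i => by gcongr; exact mn_le L i)
  have hZ : B.NF 0 (fun _ : U => (0 : R)) :=
    BIP.NF.const B.Z.zero_mem le_rfl (B.e_pos 0)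
  refine ⟨fun y => ¬ρ' (y + ((D + 1 : ℕ) : U)) ≤ 0 ∧
      |ρ' (y + ((D + 1 : ℕ) : U)) - WR y| * B.e (mn L y) ≤
        ρ' (y + (D : U)) * B.e (((D + 4 : ℕ) : U) + N') +
          ρ' (y + (D : U)) * B.e (((4 : ℕ) : U) + mn L y) ∧
      ρ' (y + ((D + 1 : ℕ) : U)) * B.e K ≤ 2 * Q * B.e (c' * (mn L y + 1)),
    BIP.D.and (BIP.D.not (BIP.NF.le_dfn hR1 hZ (BIP.F.var 0) (BIP.F.var 0)))
    (BIP.D.and (BIP.NF.le_dfn hLHS hRHS (BIP.F.var 0) (BIP.F.var 0))
      (BIP.NF.le_dfn hA hC (BIP.F.var 0) (BIP.F.var 0))), ?_⟩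
  intro y hy
  have hyL : y < L + 1 := lt_of_le_of_lt hy (lt_add_of_pos_right _ one_pos)
  have e1 : ρ' (y + ((D + 1 : ℕ) : U)) = ρ (y + ((D + 1 : ℕ) : U)) :=
    hρρ' _ (le_trans (by gcongr) hLI)
  have e2 : ρ' (y + (D : U)) = ρ (y + (D : U)) := by
    refine hρρ' _ (le_trans ?_ hLI)
    gcongr
    omega
  unfold SS
  beta_reduce
  rw [hWRv y hyL, mn_eq hy, e1, e2, not_le]
  have e3 : B.e (((D + 4 : ℕ) : U) + N') = 8 * 2 ^ (D + 1) * B.e N' := by
    rw [B.e_add, B.e_natCast]; ring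
  have e4 : B.e (((4 : ℕ) : U) + y) = 16 * B.e y := by
    rw [B.e_add, B.e_natCast]; norm_num
  rw [e3, e4]
  have e5 : ρ (y + (D : U)) * (8 * 2 ^ (D + 1) * B.e N') + ρ (y + (D : U)) * (16 * B.e y) =
      (8 * 2 ^ (D + 1) * B.e N' + 16 * B.e y) * ρ (y + (D : U)) := by ring
  rw [e5, mul_comm _ (B.e y)]

/-- the recurrence of the remainders -/
lemma recurrence (B : BIP U R) (D : ℕ) (K : U) (Q : R) (b : ℕ → R) (hbZ : ∀ k, b k ∈ B.Z)
    (hQ0 : 0 < Q) (ρ : U → R) (hρ : ∀ i, ρ i = B.e (K * i) - Q * B.fl (B.e (K * i) / Q))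
    (hQ : B.e K ^ (D + 1) = Q + ∑ k ∈ Finset.Icc 1 (D + 1), b k * B.e K ^ (D + 1 - k)) (j : U)
    (h0 : 0 ≤ ∑ k ∈ Finset.Icc 1 (D + 1), b k * ρ (j + ((D + 1 - k : ℕ) : U)))
    (h1 : ∑ k ∈ Finset.Icc 1 (D + 1), b k * ρ (j + ((D + 1 - k : ℕ) : U)) < Q) :
    ρ (j + ((D + 1 : ℕ) : U)) =
      ∑ k ∈ Finset.Icc 1 (D + 1), b k * ρ (j + ((D + 1 - k : ℕ) : U)) := by
  set ψ := ∑ k ∈ Finset.Icc 1 (D + 1), b k * ρ (j + ((D + 1 - k : ℕ) : U)) with hψ
  have he : ∀ m : ℕ, B.e (K * (j + (m : U))) = B.e (K * j) * B.e K ^ m := by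
    intro m
    rw [mul_add, B.e_add, mul_comm K (m : U), B.e_natCast_mul]
  set z := B.e (K * j) + ∑ k ∈ Finset.Icc 1 (D + 1),
    b k * B.fl (B.e (K * (j + ((D + 1 - k : ℕ) : U))) / Q) with hz
  have hzZ : z ∈ B.Z := by
    refine B.Z.add_mem (B.e_mem _) (B.Z.sum_mem fun k _ => B.Z.mul_mem (hbZ k) (B.fl_mem _))
  have h2 : B.e (K * (j + ((D + 1 : ℕ) : U))) = Q * z + ψ := by
    rw [he, hQ, mul_add, Finset.mul_sum, hz, mul_add, Finset.mul_sum, hψ, mul_comm Q, add_assoc,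
      ← Finset.sum_add_distrib]
    congr 1
    refine Finset.sum_congr rfl fun k _ => ?_
    rw [hρ, he]
    ring
  have h3 : B.fl (B.e (K * (j + ((D + 1 : ℕ) : U))) / Q) = z := by
    rw [h2]
    apply B.fl_eq hzZ
    · rw [le_div_iff₀ hQ0]; linarith
    · rw [div_lt_iff₀ hQ0]; linarith
  rw [hρ, h3, h2]; ring

/-- the powers of the dominant root -/
lemma powers (B : BIP U R) (w μ δ : R) (n : ℕ) (hwn : w ≤ n) (hw0 : 0 ≤ w) (hμ : 0 < μ)
    (hδ0 : 0 ≤ δ) (hδ1 : δ ≤ 1) (r : ℕ → R) (hr : ∀ k, 0 < r k)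
    (h : ∀ k, |r (k + 1) - w * μ * r k| ≤ δ * μ * r k) (k : ℕ) :
    ∃ c : ℕ, |r k / (r 0 * μ ^ k) - w ^ k| ≤ c * δ := by
  induction k with
  | zero =>
    refine ⟨0, ?_⟩
    rw [pow_zero, mul_one, div_self (hr 0).ne', pow_zero, sub_self, abs_zero]
    simp
  | succ k ih =>
    obtain ⟨c, hc⟩ := ih
    refine ⟨n ^ k + c + n * c, ?_⟩
    have hk := hr k
    have h0 := hr 0
    have hden : 0 < r 0 * μ ^ k := by positivity
    have hden' : 0 < r 0 * μ ^ (k + 1) := by positivity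
    have e1 : r (k + 1) / (r 0 * μ ^ (k + 1)) - w ^ (k + 1) =
        (r (k + 1) - w * μ * r k) / (r 0 * μ ^ (k + 1)) +
          w * (r k / (r 0 * μ ^ k) - w ^ k) := by
      rw [pow_succ μ k, pow_succ w k]
      field_simp
      ring
    rw [e1]
    refine (abs_add_le _ _).trans ?_
    have h1 : |(r (k + 1) - w * μ * r k) / (r 0 * μ ^ (k + 1))| ≤ δ * (r k / (r 0 * μ ^ k)) := by
      rw [abs_div, abs_of_pos hden', div_le_iff₀ hden']
      refine (h k).trans (le_of_eq ?_)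
      rw [pow_succ μ k]
      field_simp
    have hwk : w ^ k ≤ (n : R) ^ k := pow_le_pow_left₀ hw0 hwn k
    have h2 : r k / (r 0 * μ ^ k) ≤ n ^ k + c := by
      have h3 := (abs_le.1 hc).2
      have h4 : c * δ ≤ c := by
        calc c * δ ≤ (c : R) * 1 := mul_le_mul_of_nonneg_left hδ1 (Nat.cast_nonneg c)
          _ = c := mul_one _
      linarith
    have h3 : |w * (r k / (r 0 * μ ^ k) - w ^ k)| ≤ n * (c * δ) := by
      rw [abs_mul, abs_of_nonneg hw0]
      exact mul_le_mul hwn hc (abs_nonneg _) (Nat.cast_nonneg n)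
    calc |(r (k + 1) - w * μ * r k) / (r 0 * μ ^ (k + 1))| +
          |w * (r k / (r 0 * μ ^ k) - w ^ k)|
        ≤ δ * (n ^ k + c) + n * (c * δ) :=
          add_le_add (h1.trans (mul_le_mul_of_nonneg_left h2 hδ0)) h3
      _ = ((n ^ k + c + n * c : ℕ) : R) * δ := by push_cast; ring

end Step

end BernM

open BernM in
theorem Bern_proof (hMul : Stmt_Mul.{u, v}) : Stmt_Bern.{u, v} := by
  intro U R _ _ _ _ _ _ _ B N
  obtain ⟨J, hJ⟩ := B.exists_nonstd
  have hnat := B.natCast_lt_e hJ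
  obtain ⟨N', hN'⟩ : ∃ N', N' = N + J := ⟨_, rfl⟩
  obtain ⟨M, hM⟩ : ∃ M, M = N + J + J := ⟨_, rfl⟩
  obtain ⟨c', hc'⟩ : ∃ c', c' = N' + J := ⟨_, rfl⟩
  obtain ⟨K, hK⟩ : ∃ K, K = c' * (M + J + 1) + J := ⟨_, rfl⟩
  refine ⟨N', M, K, ?_⟩
  intro d n w γ b Q ρ hd hγ0 hγd hγ hw hwn hbZ hb hQ hρ
  obtain ⟨D, rfl⟩ : ∃ D, d = D + 1 := ⟨d - 1, by omega⟩
  set μ := B.e N' with hμdef
  set lam := B.e K with hlam
  have heJ := B.e_pos J
  have heJ1 := B.one_le_e J
  have hμ0 : 0 < μ := B.e_pos N'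
  have hlam0 : 0 < lam := B.e_pos K
  have hμJ : B.e J ≤ μ := B.e_le (by rw [hN']; exact le_add_self)
  have hμ68 : 68 ≤ μ := by
    have := hnat 68
    push_cast at this
    linarith
  have hec' : B.e c' = μ * B.e J := by rw [hc', B.e_add]
  have hw64 : (64 : R) ≤ w := by
    refine le_trans ?_ hw
    have : (1 : R) ≤ 2 ^ D := one_le_pow₀ (by norm_num)
    calc (64 : R) = 1 * 64 := by ring
      _ ≤ 2 ^ D * 64 := by nlinarith
      _ = 2 ^ (D + 1 + 5) := by ring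
  have hw0 : 0 < w := by linarith
  have hjl : ∀ j, j ≤ M + J → 4 * B.e (c' * (j + 1)) ≤ lam := by
    intro j hj
    have h1 : B.e (c' * (j + 1)) ≤ B.e (c' * (M + J + 1)) :=
      B.e_le (mul_le_mul_right (by gcongr) _)
    have h2 : lam = B.e (c' * (M + J + 1)) * B.e J := by rw [hlam, hK, B.e_add]
    have h3 : (4 : R) ≤ B.e J := by
      have := hnat 4
      push_cast at this
      linarith
    rw [h2]
    have h4 := B.e_pos (c' * (M + J + 1))
    nlinarith
  have hclam : B.e c' * B.e J ≤ lam := by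
    rw [hlam, hK, B.e_add]
    apply mul_le_mul_of_nonneg_right _ heJ.le
    apply B.e_le
    calc c' = c' * 1 := (mul_one _).symm
      _ ≤ c' * (M + J + 1) := mul_le_mul_right le_add_self _
  have hclam' : B.e c' ≤ lam := by
    have := B.e_pos c'
    nlinarith
  have hc2 : 2 * w * μ ≤ B.e c' := by
    have h1 : 2 * w ≤ B.e J := by
      have := hnat (2 * n)
      push_cast at this
      linarith
    rw [hec']
    nlinarith
  have hl1 : w * μ ≤ lam := by
    have : 0 < w * μ := by positivity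
    nlinarith
  have hμl : μ ≤ lam := by nlinarith
  have hb' : ∀ k, 1 ≤ k → k ≤ D + 1 → |b k - (γ k - w * γ (k - 1)) * μ ^ k| ≤ 2 := by
    intro k h1 h2
    have := hb k h1 h2
    rwa [B.e_natCast_mul] at this
  have hQ' : Q = lam ^ (D + 1) - ∑ k ∈ Finset.Icc 1 (D + 1), b k * lam ^ (D + 1 - k) := by
    rw [hQ, B.e_natCast_mul]
    congr 1
    exact Finset.sum_congr rfl fun k _ => by rw [B.e_natCast_mul]
  have hQa := Q_alg (D + 1) w μ lam γ b hγ hw64 (by linarith) hμl (by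
    have h1 := hnat (4 * (D + 1) * (n * 2 ^ (D + 1)))
    push_cast at h1
    have h2 : 4 * ((D + 1 : ℕ) : R) * (w * 2 ^ (D + 1)) ≤ B.e J := by
      push_cast
      refine le_trans ?_ h1.le
      gcongr
    calc 4 * ((D + 1 : ℕ) : R) * (w * 2 ^ (D + 1)) * μ ≤ B.e J * μ :=
          mul_le_mul_of_nonneg_right h2 hμ0.le
      _ = B.e c' := by rw [hec', mul_comm]
      _ ≤ lam := hclam') (by omega) hb'
  have hQlow : lam ^ (D + 1) ≤ 2 * Q := by
    have := (abs_le.1 hQa).2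
    rw [hQ']; linarith
  have hQup : Q ≤ 2 * lam ^ (D + 1) := by
    have := (abs_le.1 hQa).1
    have h2 : 0 < lam ^ (D + 1) := by positivity
    rw [hQ']; linarith
  have hlam2 : 2 < lam := by
    have := hnat 2
    push_cast at this
    nlinarith
  have hlamD : lam ≤ lam ^ (D + 1) := by
    calc lam = lam ^ 1 := (pow_one _).symm
      _ ≤ lam ^ (D + 1) := pow_le_pow_right₀ (by linarith) (by omega)
  have hQ1 : 1 ≤ Q := by linarith
  have hQ0 : 0 < Q := by linarith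
  have hQZ : Q ∈ B.Z := by
    rw [hQ]
    exact B.Z.sub_mem (B.e_mem _) (B.Z.sum_mem fun k _ => B.Z.mul_mem (hbZ k) (B.e_mem _))
  -- small indices
  have hρ0 : ∀ i : ℕ, i ≤ D → ρ (i : U) = lam ^ i := by
    intro i hi
    rw [hρ, mul_comm K, B.e_natCast_mul]
    have h1 : lam ^ i < Q := by
      have h2 : lam ^ i ≤ lam ^ D := pow_le_pow_right₀ (by linarith) hi
      have h3 : lam ^ (D + 1) = lam ^ D * lam := pow_succ _ _
      have h4 : 0 < lam ^ D := by positivity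
      nlinarith
    have h2 : B.fl (lam ^ i / Q) = 0 := by
      apply B.fl_eq B.Z.zero_mem
      · positivity
      · rw [zero_add, div_lt_one hQ0]; exact h1
    rw [← hlam, h2]; ring
  set W := B.fl (w * μ) with hW
  have hWd : |W - w * μ| ≤ 1 := by
    have h1 : W ≤ w * μ := B.fl_le _
    have h2 : w * μ < W + 1 := B.lt_fl_add_one _
    rw [abs_le]; constructor <;> linarith
  have hrec := recurrence B D K Q b hbZ hQ0 ρ hρ (by rw [← hlam, hQ']; ring)
  -- the induction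
  obtain ⟨L, hL⟩ : ∃ L, L = M + J := ⟨_, rfl⟩
  rw [← hL] at hjl
  obtain ⟨K₁, ρ', hρ', hρρ'⟩ := internal_rho hMul B K (L + ((D + 1 : ℕ) : U)) Q hQZ hQ1 ρ hρ
  obtain ⟨P, hP, hPS⟩ := SS_dfn hMul B D W Q N' c' K L ρ (B.fl_mem _)
    (B.fl_nonneg (by positivity)) hQZ hQ0.le hρ' hρρ' le_rfl
  have hall : ∀ y, y ≤ L → SS B D W μ lam Q c' ρ y := by
    have h1 := strong B (P := fun y => y ≤ L → P y)
      (BIP.D.imp (BIP.D.le (BIP.F.var 0) (BIP.F.const L)) hP) (by
        intro x hx hxL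
        rw [hPS x hxL]
        exact step B D w W μ lam Q c' ρ x γ b hγ0 hγd hγ hw hμ68 hWd hl1 hb' hρ0 (hrec x) hQ0
          hQlow hc2 (hjl x hxL) (fun y hy => (hPS y (hy.le.trans hxL)).1 (hx y hy (hy.le.trans hxL))))
    intro y hy
    exact (hPS y hy).1 (h1 y hy)
  -- M = M₀ + (D + 1)
  have hDJ : ((D + 1 : ℕ) : U) ≤ J := (hJ (D + 1)).le
  obtain ⟨M₀, hM₀⟩ : ∃ M₀, M = M₀ + ((D + 1 : ℕ) : U) := by
    obtain ⟨M₀, h⟩ := le_iff_exists_add.1 (le_trans hDJ (le_add_self : J ≤ N + J + J))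
    exact ⟨M₀, by rw [hM, h, add_comm]⟩
  have hM₀L : ∀ k : ℕ, M₀ + (k : U) ≤ L := by
    intro k
    rw [hL]
    have h1 : M₀ ≤ M := by rw [hM₀]; exact le_self_add
    exact add_le_add h1 (hJ k).le
  have hidx : ∀ k : ℕ, M + (k : U) = M₀ + (k : U) + ((D + 1 : ℕ) : U) := by
    intro k
    rw [hM₀]; ring
  have hidx' : ∀ k : ℕ, M₀ + ((k + 1 : ℕ) : U) + (D : U) = M + (k : U) := by
    intro k
    rw [hM₀]; push_cast; ring
  have hpos : ∀ k : ℕ, 0 < ρ (M + (k : U)) := by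
    intro k
    rw [hidx]
    exact (hall _ (hM₀L k)).1
  have hρZ : ∀ i, ρ i ∈ B.Z := by
    intro i
    rw [hρ]
    exact B.Z.sub_mem (B.e_mem _) (B.Z.mul_mem hQZ (B.fl_mem _))
  refine ⟨hQ1, ?_, ?_, ?_, ?_⟩
  · rw [B.e_natCast_mul]; exact hQup
  · have h1 := hpos 0
    rw [Nat.cast_zero, add_zero] at h1
    exact B.discrete _ (hρZ M) h1
  · intro k
    refine ⟨(hpos k).le, ?_⟩
    have h1 := (hall _ (hM₀L k)).2.2
    rw [← hidx] at h1
    have h2 := hjl _ (hM₀L k)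
    have h3 : ρ (M + (k : U)) * lam ≤ Q / 2 * lam := by
      refine h1.trans ?_
      nlinarith
    exact le_of_mul_le_mul_right h3 hlam0
  · intro k
    set δ := 8 * 2 ^ (D + 1) * (1 / B.e M₀) + 17 / μ with hδ
    have heM₀ := B.e_pos M₀
    have heN := B.e_pos N
    have heM : B.e M₀ * 2 ^ (D + 1) = B.e N * B.e J * B.e J := by
      rw [← B.e_add, ← B.e_add, ← hM, hM₀, B.e_add, B.e_natCast]
    have hδ' : δ ≤ 18 / (B.e N * B.e J) := by
      have h1 : 17 / μ = 17 / (B.e N * B.e J) := by rw [hμdef, hN', B.e_add]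
      have h2 : 8 * 2 ^ (D + 1) * (1 / B.e M₀) ≤ 1 / (B.e N * B.e J) := by
        rw [mul_one_div, div_le_div_iff₀ heM₀ (by positivity)]
        have h3 := hnat (8 * 2 ^ (D + 1) * 2 ^ (D + 1))
        push_cast at h3
        have h4 : 8 * 2 ^ (D + 1) * (B.e N * B.e J) * 2 ^ (D + 1) ≤
            1 * B.e M₀ * 2 ^ (D + 1) := by
          rw [one_mul, heM]
          have h5 : 0 < B.e N * B.e J := by positivity
          nlinarith
        exact le_of_mul_le_mul_right h4 (by positivity)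
      rw [hδ, h1]
      calc 8 * 2 ^ (D + 1) * (1 / B.e M₀) + 17 / (B.e N * B.e J)
          ≤ 1 / (B.e N * B.e J) + 17 / (B.e N * B.e J) := by linarith
        _ = 18 / (B.e N * B.e J) := by ring
    have hδ0 : 0 ≤ δ := by positivity
    have heN1 := B.one_le_e N
    have hδ1 : δ ≤ 1 := by
      refine hδ'.trans ?_
      rw [div_le_one (by positivity)]
      have := hnat 18
      push_cast at this
      nlinarith
    obtain ⟨c, hc⟩ := powers B w μ δ n hwn hw0.le hμ0 hδ0 hδ1 (fun k : ℕ => ρ (M + (k : U))) hpos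
      (by
        intro k
        obtain ⟨-, h2, -⟩ := (hall _ (hM₀L (k + 1))).conseq hw hμ68 hWd
        rw [hidx', ← hidx] at h2
        refine h2.trans ?_
        apply mul_le_mul_of_nonneg_right _ (hpos k).le
        rw [hδ, add_mul, div_mul_cancel₀ _ hμ0.ne']
        apply add_le_add _ le_rfl
        have h3 : 1 / B.e (M₀ + ((k + 1 : ℕ) : U)) ≤ 1 / B.e M₀ :=
          one_div_le_one_div_of_le heM₀ (B.e_le le_self_add)
        calc 8 * 2 ^ (D + 1) * μ * (1 / B.e (M₀ + ((k + 1 : ℕ) : U)))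
            ≤ 8 * 2 ^ (D + 1) * μ * (1 / B.e M₀) := mul_le_mul_of_nonneg_left h3 (by positivity)
          _ = 8 * 2 ^ (D + 1) * (1 / B.e M₀) * μ := by ring) k
    simp only [Nat.cast_zero, add_zero] at hc
    rw [B.e_natCast_mul]
    refine hc.trans ?_
    calc (c : R) * δ ≤ c * (18 / (B.e N * B.e J)) :=
          mul_le_mul_of_nonneg_left hδ' (Nat.cast_nonneg c)
      _ ≤ 1 / B.e N := by
          rw [mul_div_assoc', div_le_div_iff₀ (by positivity) heN]
          have := hnat (c * 18)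
          push_cast at this
          nlinarith

end Pool.Agent.RSV
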