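import Pool.Agent.RSV.CdBasic
import Pool.Agent.RSV.Specs

/-!
# BERNFAM: families of dominant roots are internally approximable
-/

namespace Pool.Agent.RSV

universe u v

variable {U : Type u} {R : Type v} [CommSemiring U] [LinearOrder U] [IsStrictOrderedRing U]
  [CanonicallyOrderedAdd U] [Field R] [LinearOrder R] [IsStrictOrderedRing R]

namespace BIP

namespace BernFam

variable {B : BIP U R}

lemma usub_le (B : BIP U R) (a b : U) : usub a b ≤ a := by
  rcases le_total b a with h | h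
  · have := B.sub_add h
    calc usub a b ≤ usub a b + b := le_self_add
      _ = a := this
  · rw [B.sub_eq_zero h]
    exact zero_le

open Classical in
lemma F_min {f g : (ℕ → U) → U} (hf : B.F f) (hg : B.F g) : B.F (fun v => min (f v) (g v)) := by
  have h := F.ite (D.le hf hg) hf hg
  have e : (fun v => min (f v) (g v)) = fun v => if f v ≤ g v then f v else g v := by
    funext v
    exact min_def _ _
  rw [e]
  exact h

open Classical in
lemma NF_max {K : U} {S T : U → R} (hS : B.NF K S) (hT : B.NF K T) :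
    B.NF K (fun i => max (S i) (T i)) := by
  have h := NF.ite (P := fun i => S i ≤ T i) (NF.le_dfn hS hT (F.var 0) (F.var 0)) hT hS
  exact h.congr fun i => (max_def _ _).symm

/-- rounding of the coefficients -/
lemma coef_approx {N₁ u c : U} (hc : u + c = N₁) {β p q : R}
    (h : |β - (p - q) / B.e N₁| ≤ 1 / B.e N₁) :
    |(B.hi p u - B.hi q u) - β * B.e c| ≤ 2 := by
  have hu := B.e_pos u
  have hcp := B.e_pos c
  have h1 := hi_add_lo (B := B) p u
  have h2 := hi_add_lo (B := B) q u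
  have l1 := lo_nonneg (B := B) p u
  have l2 := lo_nonneg (B := B) q u
  have l3 := lo_lt (B := B) p u
  have l4 := lo_lt (B := B) q u
  have hN : B.e N₁ = B.e u * B.e c := by rw [← hc, B.e_add]
  have e1 : (B.hi p u - B.hi q u) - (p - q) / B.e u = (B.lo q u - B.lo p u) / B.e u := by
    field_simp
    linarith
  have e2 : (p - q) / B.e u - β * B.e c = - ((β - (p - q) / B.e N₁) * B.e c) := by
    rw [hN]
    field_simp
    ring
  have a1 : |(B.lo q u - B.lo p u) / B.e u| ≤ 1 := by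
    rw [abs_div, abs_of_pos hu, div_le_one hu, abs_le]
    constructor <;> linarith
  have a2 : |(p - q) / B.e u - β * B.e c| ≤ 1 := by
    rw [e2, abs_neg, abs_mul, abs_of_pos hcp]
    calc _ ≤ 1 / B.e N₁ * B.e c := mul_le_mul_of_nonneg_right h hcp.le
      _ = 1 / B.e u := by rw [hN]; field_simp
      _ ≤ 1 := by rw [div_le_one hu]; exact B.one_le_e u
  calc |(B.hi p u - B.hi q u) - β * B.e c|
      = |((B.hi p u - B.hi q u) - (p - q) / B.e u) + ((p - q) / B.e u - β * B.e c)| := by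
        congr 1; ring
    _ ≤ 1 + 1 := (abs_add_le _ _).trans (add_le_add (e1 ▸ a1) a2)
    _ = 2 := by norm_num

/-- the quotients -/
lemma quot {H : U} {Q W E : R} (hQ : 1 ≤ Q) (hW : |1 / Q - W / B.e H| ≤ 1 / B.e H)
    (hE0 : 0 ≤ E) (hE : E * 8 ≤ B.e H) (hρ : E - Q * B.fl (E / Q) ≤ Q / 2) :
    B.hi ((W + 1) * E) H = B.fl (E / Q) := by
  have hH := B.e_pos H
  have hQ0 : 0 < Q := by linarith
  rw [abs_le] at hW
  have q1 : 1 / Q ≤ (W + 1) / B.e H := by
    have : (W + 1) / B.e H = W / B.e H + 1 / B.e H := by rw [add_div]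
    linarith
  have q2 : (W + 1) / B.e H ≤ 1 / Q + 2 / B.e H := by
    have : (W + 1) / B.e H = W / B.e H + 1 / B.e H := by rw [add_div]
    have : (2 : R) / B.e H = 1 / B.e H + 1 / B.e H := by ring
    linarith
  have e1 : (W + 1) * E / B.e H = (W + 1) / B.e H * E := by ring
  have e3 : B.fl (E / Q) ≤ E / Q := B.fl_le _
  have e4 : E / Q ≤ B.fl (E / Q) + 1 / 2 := by
    rw [div_le_iff₀ hQ0]
    linarith
  have e5 : 2 / B.e H * E ≤ 1 / 4 := by
    rw [div_mul_eq_mul_div, div_le_iff₀ hH]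
    linarith
  unfold hi
  rw [e1]
  apply B.fl_eq (B.fl_mem _)
  · calc B.fl (E / Q) ≤ 1 / Q * E := by rw [one_div_mul_eq_div]; exact e3
      _ ≤ _ := mul_le_mul_of_nonneg_right q1 hE0
  · calc (W + 1) / B.e H * E ≤ (1 / Q + 2 / B.e H) * E := mul_le_mul_of_nonneg_right q2 hE0
      _ = E / Q + 2 / B.e H * E := by ring
      _ < B.fl (E / Q) + 1 := by linarith

/-- the final error -/
lemma final_err {N K₄ s c LN : U} (hs : s + c = LN) {y ρk ρ0 W : R} (h0 : 0 ≤ ρk)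
    (h1 : ρk < B.e K₄) (h2 : |ρk / (ρ0 * B.e c) - y| ≤ 1 / B.e (N + 1))
    (h3 : |1 / ρ0 - W / B.e (K₄ + (N + 1))| ≤ 1 / B.e (K₄ + (N + 1))) :
    |y - (ρk * W * B.e s) / B.e (K₄ + (N + 1) + LN)| ≤ 1 / B.e N := by
  have hc := B.e_pos c
  have hs' := B.e_pos s
  have hN := B.e_pos N
  have hK := B.e_pos K₄
  have hN1 := B.e_pos (N + 1)
  have hKN := B.e_pos (K₄ + (N + 1))
  have e1 : (ρk * W * B.e s) / B.e (K₄ + (N + 1) + LN) =
      ρk / B.e c * (W / B.e (K₄ + (N + 1))) := by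
    rw [B.e_add (K₄ + (N + 1)) LN, ← hs, B.e_add s c]
    field_simp
  have e2 : ρk / (ρ0 * B.e c) = ρk / B.e c * (1 / ρ0) := by
    rw [div_mul_div_comm, mul_one, mul_comm (B.e c)]
  have e3 : |ρk / B.e c * (1 / ρ0) - ρk / B.e c * (W / B.e (K₄ + (N + 1)))| ≤ 1 / B.e (N + 1) := by
    rw [← mul_sub, abs_mul, abs_of_nonneg (div_nonneg h0 hc.le)]
    calc ρk / B.e c * |1 / ρ0 - W / B.e (K₄ + (N + 1))|
        ≤ B.e K₄ * (1 / B.e (K₄ + (N + 1))) := by
          apply mul_le_mul _ h3 (abs_nonneg _) hK.le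
          rw [div_le_iff₀ hc]
          calc ρk ≤ B.e K₄ * 1 := by linarith
            _ ≤ B.e K₄ * B.e c := mul_le_mul_of_nonneg_left (B.one_le_e c) hK.le
      _ = 1 / B.e (N + 1) := by
          rw [B.e_add K₄ (N + 1)]
          field_simp
  rw [e1]
  rw [e2, abs_sub_comm] at h2
  calc |y - ρk / B.e c * (W / B.e (K₄ + (N + 1)))|
      = |(y - ρk / B.e c * (1 / ρ0)) +
          (ρk / B.e c * (1 / ρ0) - ρk / B.e c * (W / B.e (K₄ + (N + 1))))| := by
        congr 1; ring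
    _ ≤ 1 / B.e (N + 1) + 1 / B.e (N + 1) := (abs_add_le _ _).trans (add_le_add h2 e3)
    _ = 1 / B.e N := by rw [B.e_succ]; field_simp; norm_num

omit [IsStrictOrderedRing U] in
lemma pr2_zero_le (i k : U) : RSV.pr2 i 0 ≤ RSV.pr2 i k := by
  unfold RSV.pr2
  have h : i + 0 ≤ i + k := by
    rw [add_zero]; exact le_self_add
  calc (i + 0) * (i + 0) + 0 = (i + 0) * (i + 0) := by rw [add_zero]
    _ ≤ (i + k) * (i + k) := by gcongr
    _ ≤ _ := le_self_add

open Classical in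
/-- the family of powers -/
noncomputable def zfam (w : U → R) (j : U) : R :=
  if h : ∃ k : ℕ, p2 j = (k : U) then w (p1 j) ^ h.choose else 0

lemma zfam_pr2 (B : BIP U R) (w : U → R) (i : U) (k : ℕ) : zfam w (RSV.pr2 i k) = w i ^ k := by
  have h : ∃ k' : ℕ, p2 (RSV.pr2 i (k : U)) = (k' : U) := ⟨k, B.p2_pr2 i k⟩
  have h2 : (k : U) = (h.choose : U) := (B.p2_pr2 i k).symm.trans h.choose_spec
  unfold zfam
  rw [dif_pos h, B.p1_pr2 i k, ← Nat.cast_injective h2]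

lemma usub_natCast (B : BIP U R) {a b : ℕ} (h : b ≤ a) :
    usub (a : U) (b : U) = ((a - b : ℕ) : U) := by
  have h1 : (b : U) ≤ (a : U) := Nat.mono_cast h
  have h2 := B.sub_add h1
  have h3 : ((a - b : ℕ) : U) + (b : U) = (a : U) := by
    rw [← Nat.cast_add, Nat.sub_add_cancel h]
  exact add_right_cancel (h2.trans h3.symm)

omit [LinearOrder R] [IsStrictOrderedRing R] in
lemma sum_Icc (f : ℕ → R) (d : ℕ) :
    ∑ k ∈ Finset.Icc 1 d, f k = ∑ k ∈ Finset.range d, f (k + 1) := by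
  have : Finset.Icc 1 d = Finset.Ico 1 (d + 1) := by
    ext; simp only [Finset.mem_Icc, Finset.mem_Ico]; omega
  rw [this, Finset.sum_Ico_eq_sum_range, Nat.add_sub_cancel]
  exact Finset.sum_congr rfl fun k _ => by rw [add_comm]

end BernFam

open BernFam in
theorem bernFam (hBern : Stmt_Bern.{u, v}) (hFD : Stmt_FD.{u, v}) (hMul : Stmt_Mul.{u, v})
    (hFIP : Stmt_FIP.{u, v}) : Stmt_BernFam.{u, v} := by
  intro U R _ _ _ _ _ _ _ B A A' x m w d γ hx hm hA
  classical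
  refine ⟨zfam w, Cd.intro' ?_ ?_, fun i _ k => zfam_pr2 B w i k⟩
  · -- boundedness
    obtain ⟨J₀, hJ₀⟩ := B.exists_nonstd
    refine ⟨J₀, ?_⟩
    rintro j ⟨i, hi, k, rfl⟩
    obtain ⟨-, -, -, -, -, h1, ⟨n, hn⟩, -⟩ := hA i hi
    have h0 : 0 ≤ w i := le_trans (by positivity) h1
    rw [zfam_pr2 B, abs_of_nonneg (pow_nonneg h0 _)]
    calc w i ^ k ≤ (n : R) ^ k := pow_le_pow_left₀ h0 hn k
      _ = ((n ^ k : ℕ) : R) := by push_cast; rfl
      _ ≤ B.e J₀ := (B.natCast_lt_e hJ₀ _).le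
  intro N
  obtain ⟨N', M, K, hB⟩ := hBern U R B (N + 1)
  obtain ⟨L, hL⟩ := B.exists_nonstd
  obtain ⟨-, hx2⟩ := hx
  obtain ⟨J₁, hJ₁, K₁, P, Q, hP, hQ, hPQ⟩ := hx2 (L * N')
  obtain ⟨J', hJ', -, hJ''⟩ := B.exists_pr2_lt hJ₁
  -- the coefficients
  have fk : B.F1 (fun j => usub (L * N') (p2 j * N')) :=
    F.sub (F.const _) (F.mul (F.p2 (F.var 0)) (F.const _))
  have fs : B.F1 (fun j => RSV.pr2 (p1 j) (p2 j + 1)) :=
    F.pr2 (F.p1 (F.var 0)) (F.add (F.p2 (F.var 0)) (F.const _))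
  have bP := hP.hi fk
  have bQ := hQ.hi fk
  set bp : U → R := fun j => B.hi (P j) (usub (L * N') (p2 j * N')) with hbp
  set bq : U → R := fun j => B.hi (Q j) (usub (L * N') (p2 j * N')) with hbq
  have bP' := bP.reindex fs
  have bQ' := bQ.reindex fs
  -- the powers of two
  have fe : B.F1 (fun j => usub (min (m (p1 j)) L) (p2 j + 1) * K) :=
    F.mul (F.sub (F_min (F1.app hm (F.p1 (F.var 0))) (F.const _))
      (F.add (F.p2 (F.var 0)) (F.const _))) (F.const _)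
  have bE := NF.e (B := B) (L := L * K) fe (fun j => by
    gcongr
    exact (usub_le B _ _).trans (min_le_right _ _))
  obtain ⟨K₂, G₁, hG₁, hG₁'⟩ := hFIP U R B _ _ _ _ m bQ' bE hm J'
  obtain ⟨K₃, G₂, hG₂, hG₂'⟩ := hFIP U R B _ _ _ _ m bP' bE hm J'
  have fm : B.F1 (fun i => min (m i) L * K) :=
    F.mul (F_min hm (F.const _)) (F.const _)
  have bD := NF.e (B := B) (L := L * K) fm (fun j => by
    gcongr
    exact min_le_right _ _)
  -- the polynomial `Q`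
  obtain ⟨K₅, hK₅⟩ : ∃ K₅ : U, K₅ = K₂ + (L * K + 1) + 1 + K₃ := ⟨_, rfl⟩
  have nQ : B.NF K₅ (fun i => G₁ i + B.e (min (m i) L * K)) :=
    ((hG₁.mono (le_self_add)).add (bD.mono (le_add_self))).mono (by rw [hK₅]; exact le_self_add)
  have nT := nQ.tsub (hG₂.mono (by rw [hK₅]; exact le_add_self))
  have c1 : ∀ X : U, B.NF (X + 1) (fun _ => (1 : R)) := fun X =>
    NF.const (one_mem _) zero_le_one (by rw [B.e_succ]; linarith [B.one_le_e X])
  have nY := NF_max (nT.mono le_self_add) (c1 K₅)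
  set Y : U → R := fun i => max (max (G₁ i + B.e (min (m i) L * K) - G₂ i) 0) 1 with hY
  obtain ⟨J₃, hJ₃, K₆, W, hW, hW'⟩ := hFD U R B _ Y nY (fun i => le_max_right _ _)
    (K * (M + L) + 1 + 1 + 1)
  -- the quotients
  have fT : B.F1 (fun j => K * (M + min (p2 j) L)) :=
    F.mul (F.const _) (F.add (F.const _) (F_min (F.p2 (F.var 0)) (F.const _)))
  have bT : ∀ j : U, K * (M + min (p2 j) L) ≤ K * (M + L) := fun j => by
    gcongr
    exact min_le_right _ _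
  have nW := ((((hW.mono (le_self_add : K₆ ≤ K₆ + 1)).add (c1 K₆)).reindex
    (F.p1 (F.var 0))).shift fT bT).hi (F1.const (K * (M + L) + 1 + 1 + 1))
  obtain ⟨YT, nYT, hYT⟩ := hMul U R B _ _ _ _ (nY.reindex (F.p1 (F.var 0))) nW J'
  have nE := NF.e (B := B) (L := K * (M + L)) fT bT
  have nρ := (nE.mono le_self_add).tsub (nYT.mono le_add_self)
  set ρ : U → R := fun j => max (B.e (K * (M + min (p2 j) L)) - YT j) 0 with hρ
  obtain ⟨K₄, hK₄⟩ : ∃ K₄ : U, K₄ = K * (M + L) + 1 +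
      (K₅ + 1 + (K₆ + 1 + 1 + K * (M + L))) := ⟨_, rfl⟩
  rw [← hK₄] at nρ
  have f0 : B.F1 (fun i : U => RSV.pr2 i 0) := F.pr2 (F.var 0) (F.const 0)
  have nY2 := NF_max ((nρ.reindex f0).mono le_self_add) (c1 K₄)
  obtain ⟨J₄, hJ₄, K₇, W₂, hW₂, hW₂'⟩ := hFD U R B _ _ nY2 (fun i => le_max_right _ _)
    (K₄ + (N + 1))
  obtain ⟨RW, nRW, hRW⟩ := hMul U R B _ _ _ _ nρ (hW₂.reindex (F.p1 (F.var 0))) J'
  have nF := nRW.shift fk (fun j => usub_le B _ _)
  refine ⟨min J' (min J₃ J₄), fun n => lt_min (hJ' n) (lt_min (hJ₃ n) (hJ₄ n)),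
    K₄ + (N + 1) + L * N', K₄ + K₇ + L * N', _, fun _ => 0, nF,
    NF.const (zero_mem _) le_rfl (B.e_pos _), ?_⟩
  rintro j ⟨i, hi, k, rfl⟩ hj
  obtain ⟨hj1, hj2⟩ := lt_min_iff.1 hj
  obtain ⟨hj2, hj3⟩ := lt_min_iff.1 hj2
  have hij := B.le_pr2_left i (k : U)
  obtain ⟨md, d1, γ0, γd, hγ, hw, ⟨n, hn⟩, hc⟩ := hA i hi
  -- the coefficients
  have hdL : ∀ k' : ℕ, (k' : U) ≤ L := fun k' => (hL k').le
  have hmin : ∀ k' : ℕ, min (k' : U) L = k' := fun k' => min_eq_left (hdL k')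
  set b : ℕ → R := fun k' => bp (RSV.pr2 i k') - bq (RSV.pr2 i k') with hb
  have usubL : ∀ k' : ℕ, usub (L * N') ((k' : U) * N') + (k' : U) * N' = L * N' := fun k' =>
    B.sub_add (by gcongr; exact hdL k')
  have hb2 : ∀ k', 1 ≤ k' → k' ≤ d i →
      |b k' - (γ i k' - w i * γ i (k' - 1)) * B.e (k' * N')| ≤ 2 := by
    intro k' h1 h2
    obtain ⟨h3, h4⟩ := hc k' h1 h2
    have h5 := hPQ _ h3 (hJ'' _ _ (hij.trans_lt hj1) (hJ' k'))
    rw [h4] at h5
    have h6 := coef_approx (usubL k') h5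
    simp only [hb, hbp, hbq, B.p2_pr2]
    exact h6
  have hQ : G₁ i + B.e (min (m i) L * K) - G₂ i =
      B.e (d i * K) - ∑ k' ∈ Finset.Icc 1 (d i), b k' * B.e ((d i - k' : ℕ) * K) := by
    rw [hG₁' i (hij.trans_lt hj1) (d i) md, hG₂' i (hij.trans_lt hj1) (d i) md, md, hmin,
      sum_Icc]
    have h1 : ∀ k' ∈ Finset.range (d i),
        bq (RSV.pr2 (p1 (RSV.pr2 i (k' : U))) (p2 (RSV.pr2 i (k' : U)) + 1)) *
          B.e (usub (min (m (p1 (RSV.pr2 i (k' : U)))) L) (p2 (RSV.pr2 i (k' : U)) + 1) * K) =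
        bq (RSV.pr2 i ((k' + 1 : ℕ) : U)) * B.e ((d i - (k' + 1) : ℕ) * K) := by
      intro k' hk'
      have hk'' := Finset.mem_range.1 hk'
      rw [B.p1_pr2, B.p2_pr2, md, hmin, ← Nat.cast_add_one, usub_natCast B (by omega)]
    have h2 : ∀ k' ∈ Finset.range (d i),
        bp (RSV.pr2 (p1 (RSV.pr2 i (k' : U))) (p2 (RSV.pr2 i (k' : U)) + 1)) *
          B.e (usub (min (m (p1 (RSV.pr2 i (k' : U)))) L) (p2 (RSV.pr2 i (k' : U)) + 1) * K) =
        bp (RSV.pr2 i ((k' + 1 : ℕ) : U)) * B.e ((d i - (k' + 1) : ℕ) * K) := by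
      intro k' hk'
      have hk'' := Finset.mem_range.1 hk'
      rw [B.p1_pr2, B.p2_pr2, md, hmin, ← Nat.cast_add_one, usub_natCast B (by omega)]
    rw [Finset.sum_congr rfl h1, Finset.sum_congr rfl h2]
    simp only [hb, sub_mul, Finset.sum_sub_distrib]
    ring
  have hbZ : ∀ k', b k' ∈ B.Z := fun k' => sub_mem (bP.mem _) (bQ.mem _)
  obtain ⟨q1, q2, r1, r2, r3⟩ := hB (d i) n (w i) (γ i) b _ _ d1 γ0 γd hγ hw hn hbZ hb2 hQ
    (fun _ => rfl)
  set Q₀ := G₁ i + B.e (min (m i) L * K) - G₂ i with hQ₀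
  have hYi : Y i = Q₀ := by
    simp only [hY, ← hQ₀]
    have h0 : max Q₀ 0 = Q₀ := max_eq_left (by linarith)
    rw [h0, max_eq_left q1]
  have hWi := hW' i (hij.trans_lt hj2)
  rw [hYi] at hWi
  -- the remainders
  have hρk : ∀ k' : ℕ, RSV.pr2 i (k' : U) < J' → ρ (RSV.pr2 i k') =
      B.e (K * (M + k')) - Q₀ * B.fl (B.e (K * (M + k')) / Q₀) := by
    intro k' hk'
    have h1 := hYT _ hk'
    simp only [B.p1_pr2, B.p2_pr2, hmin] at h1
    have h2 : B.e (K * (M + k')) * 8 ≤ B.e (K * (M + L) + 1 + 1 + 1) := by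
      rw [B.e_succ, B.e_succ, B.e_succ]
      have h3 := B.e_le (u := K * (M + k')) (v := K * (M + L)) (by
        gcongr; exact hdL k')
      linarith
    obtain ⟨h4, h5⟩ := r2 k'
    rw [quot q1 hWi (B.e_pos _).le h2 h5, hYi] at h1
    simp only [hρ, B.p2_pr2, hmin]
    rw [h1]
    exact max_eq_left h4
  have hk1 := hρk k hj1
  have hk0 := hρk 0 (by
    rw [Nat.cast_zero]
    exact (pr2_zero_le i _).trans_lt hj1)
  rw [Nat.cast_zero, add_zero] at hk0
  have hW₂i := hW₂' i (hij.trans_lt hj3)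
  rw [hk0, max_eq_left r1] at hW₂i
  have hR := hRW _ hj1
  rw [B.p1_pr2, hk1] at hR
  rw [zfam_pr2 B, sub_zero, hR, B.p2_pr2]
  have hρlt := nρ.lt (RSV.pr2 i (k : U))
  rw [hk1] at hρlt
  exact final_err (usubL k) (r2 k).1 hρlt (r3 k) hW₂i

end BIP

end Pool.Agent.RSV
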