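import Pool.Agent.RSV.Bits1

/-!
# BITS: internal families of elements of the integer part (second half; first half: Bits1.lean)
-/

namespace Pool.Agent.RSV

universe u v

variable {U : Type u} {R : Type v} [CommSemiring U] [LinearOrder U] [IsStrictOrderedRing U]
  [CanonicallyOrderedAdd U] [Field R] [LinearOrder R] [IsStrictOrderedRing R]

namespace BIP

variable {B : BIP U R}

/-! ### internal families -/

theorem NF.mk' {φ : U → U → Prop} (h : B.D (fun v => φ (v 0) (v 1))) (K : U) :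
    ∃ S : U → R, B.NF K S ∧ ∀ i u, B.bit (S i) u ↔ u < K ∧ φ i u := by
  have h1 : ∀ i : U, B.D1 (fun u => φ i u) := fun i =>
    D.app2 (P := φ) h (F.const i) (F.var 0)
  choose S hS using fun i => B.exists_bits (h1 i) K
  refine ⟨S, ⟨fun i => (hS i).1, fun i => (hS i).2.1, fun i => (hS i).2.2.1, ?_⟩,
    fun i => (hS i).2.2.2⟩
  refine D.congr (D.and (D.lt (F.var 1) (F.const K)) h) fun v => ?_
  exact ((hS (v 0)).2.2.2 (v 1)).symm

theorem NF.mono {K L : U} {S : U → R} (h : B.NF K S) (hKL : K ≤ L) : B.NF L S :=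
  ⟨h.mem, h.nonneg, fun i => (h.lt i).trans_le (B.e_le hKL), h.dfn⟩

theorem NF.congr {K : U} {S T : U → R} (h : B.NF K S) (hST : ∀ i, S i = T i) : B.NF K T := by
  have : S = T := funext hST
  exact this ▸ h

theorem NF.const {K : U} {z : R} (hz : z ∈ B.Z) (h0 : 0 ≤ z) (h1 : z < B.e K) :
    B.NF K (fun _ => z) :=
  ⟨fun _ => hz, fun _ => h0, fun _ => h1, D.bit hz h0 (F.var 1)⟩

/-- bits of a family are definable -/
theorem NF.bit {K : U} {S : U → R} (h : B.NF K S) {f g : (ℕ → U) → U} (hf : B.F f)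
    (hg : B.F g) : B.D (fun v => B.bit (S (f v)) (g v)) :=
  D.app2 (P := fun a b => B.bit (S a) b) h.dfn hf hg

theorem NF.reindex {K : U} {S : U → R} (h : B.NF K S) {g : U → U} (hg : B.F1 g) :
    B.NF K (fun i => S (g i)) :=
  ⟨fun i => h.mem (g i), fun i => h.nonneg (g i), fun i => h.lt (g i),
    h.bit (hg.app (F.var 0)) (F.var 1)⟩

theorem NF.ite {K : U} {S T : U → R} {P : U → Prop} [DecidablePred P] (hP : B.D1 P)
    (hS : B.NF K S) (hT : B.NF K T) : B.NF K (fun i => if P i then S i else T i) := by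
  refine ⟨fun i => ?_, fun i => ?_, fun i => ?_, ?_⟩
  · by_cases h : P i
    · simpa only [if_pos h] using hS.mem i
    · simpa only [if_neg h] using hT.mem i
  · by_cases h : P i
    · simpa only [if_pos h] using hS.nonneg i
    · simpa only [if_neg h] using hT.nonneg i
  · by_cases h : P i
    · simpa only [if_pos h] using hS.lt i
    · simpa only [if_neg h] using hT.lt i
  · refine D.congr (D.or (D.and (D.app1 hP (F.var 0)) hS.dfn)
      (D.and (D.not (D.app1 hP (F.var 0))) hT.dfn)) fun v => ?_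
    by_cases h : P (v 0)
    · simp [h]
    · simp [h]

/-- bits above the length vanish -/
theorem NF.not_bit {K : U} {S : U → R} (h : B.NF K S) (i : U) {k : U} (hk : K ≤ k) :
    ¬ B.bit (S i) k := not_bit_of_lt (h.nonneg i) (h.lt i) hk

theorem NF.add {K : U} {S T : U → R} (hS : B.NF K S) (hT : B.NF K T) :
    B.NF (K + 1) (fun i => S i + T i) := by
  refine ⟨fun i => B.Z.add_mem (hS.mem i) (hT.mem i), fun i => add_nonneg (hS.nonneg i) (hT.nonneg i),
    fun i => ?_, ?_⟩
  · rw [B.e_succ]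
    have h1 := hS.lt i
    have h2 := hT.lt i
    linarith
  · refine D.congr (P := fun v => Xor (Xor (B.bit (S (v 0)) (v 1)) (B.bit (T (v 0)) (v 1)))
      (∃ k, k < v 1 ∧ (B.bit (S (v 0)) k ∧ B.bit (T (v 0)) k ∧ ∀ j, j < v 1 → k < j →
        B.bit (S (v 0)) j ∨ B.bit (T (v 0)) j))) ?_ fun v => ?_
    · refine D.xor (D.xor hS.dfn hT.dfn) ?_
      refine D.ex_lt (F.var 1) ?_
      refine D.and (hS.bit (F.var 1) (F.var 0)) (D.and (hT.bit (F.var 1) (F.var 0)) ?_)
      refine D.all_lt (F.var 2) ?_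
      refine D.imp (D.lt (F.var 1) (F.var 0)) ?_
      exact D.or (hS.bit (F.var 2) (F.var 0)) (hT.bit (F.var 2) (F.var 0))
    · rw [bit_add' (hS.mem _) (hT.mem _) (hS.nonneg _) (hT.nonneg _)]
      have : (∃ k, k < v 1 ∧ (B.bit (S (v 0)) k ∧ B.bit (T (v 0)) k ∧ ∀ j, j < v 1 → k < j →
          B.bit (S (v 0)) j ∨ B.bit (T (v 0)) j)) ↔
          (∃ k, k < v 1 ∧ B.bit (S (v 0)) k ∧ B.bit (T (v 0)) k ∧ ∀ j, k < j → j < v 1 →
          B.bit (S (v 0)) j ∨ B.bit (T (v 0)) j) := by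
        constructor
        · rintro ⟨k, h1, h2, h3, h4⟩
          exact ⟨k, h1, h2, h3, fun j a b => h4 j b a⟩
        · rintro ⟨k, h1, h2, h3, h4⟩
          exact ⟨k, h1, h2, h3, fun j a b => h4 j b a⟩
      rw [this]

/-- comparison of two families (strict) -/
theorem NF.lt_dfn {K L : U} {S T : U → R} (hS : B.NF K S) (hT : B.NF L T)
    {f g : (ℕ → U) → U} (hf : B.F f) (hg : B.F g) : B.D (fun v => S (f v) < T (g v)) := by
  refine D.congr (P := fun v => ∃ j, j < K + L ∧ (¬ B.bit (S (f v)) j ∧ B.bit (T (g v)) j ∧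
      ∀ k, k < K + L → j < k → (B.bit (S (f v)) k ↔ B.bit (T (g v)) k))) ?_ fun v => ?_
  · have e1 : ∀ {h : (ℕ → U) → U}, B.F h → B.F (fun v => h (fun n => v (n + 1))) := fun hh =>
      F.comp hh fun i => F.var (i + 1)
    refine D.ex_lt (F.const _) ?_
    refine D.and (D.not (hS.bit (e1 hf) (F.var 0))) (D.and (hT.bit (e1 hg) (F.var 0)) ?_)
    refine D.all_lt (F.const _) ?_
    refine D.imp (D.lt (F.var 1) (F.var 0)) ?_
    exact D.iff (hS.bit (e1 (e1 hf)) (F.var 0)) (hT.bit (e1 (e1 hg)) (F.var 0))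
  · rw [lt_iff_bits (hS.mem _) (hT.mem _) (hS.nonneg _) (hT.nonneg _)]
    constructor
    · rintro ⟨j, h1, h2, h3, h4⟩
      refine ⟨j, h2, h3, fun k hk => ?_⟩
      by_cases hkk : k < K + L
      · exact h4 k hkk hk
      · rw [not_lt] at hkk
        have a1 := hS.not_bit (f v) (le_self_add.trans hkk)
        have a2 := hT.not_bit (g v) (le_add_self.trans hkk)
        exact ⟨fun h => absurd h a1, fun h => absurd h a2⟩
    · rintro ⟨j, h2, h3, h4⟩
      refine ⟨j, ?_, h2, h3, fun k _ hk => h4 k hk⟩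
      by_contra hj
      rw [not_lt] at hj
      exact hT.not_bit (g v) (le_add_self.trans hj) h3

/-- comparison of two families -/
theorem NF.le_dfn {K L : U} {S T : U → R} (hS : B.NF K S) (hT : B.NF L T)
    {f g : (ℕ → U) → U} (hf : B.F f) (hg : B.F g) : B.D (fun v => S (f v) ≤ T (g v)) :=
  D.congr (D.not (hT.lt_dfn hS hg hf)) fun _ => not_lt

theorem NF.eq_dfn {K L : U} {S T : U → R} (hS : B.NF K S) (hT : B.NF L T)
    {f g : (ℕ → U) → U} (hf : B.F f) (hg : B.F g) : B.D (fun v => S (f v) = T (g v)) :=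
  D.congr (D.and (hS.le_dfn hT hf hg) (hT.le_dfn hS hg hf)) fun _ => le_antisymm_iff.symm

/-- truncated difference -/
theorem NF.tsub {K : U} {S T : U → R} (hS : B.NF K S) (hT : B.NF K T) :
    B.NF K (fun i => max (S i - T i) 0) := by
  refine ⟨fun i => ?_, fun i => le_max_right _ _, fun i => ?_, ?_⟩
  · rcases le_total (S i - T i) 0 with h | h
    · simpa only [max_eq_right h] using B.Z.zero_mem
    · simpa only [max_eq_left h] using B.Z.sub_mem (hS.mem i) (hT.mem i)
  · refine max_lt ?_ (B.e_pos K)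
    have h1 := hS.lt i
    have h2 := hT.nonneg i
    linarith
  · refine D.congr (P := fun v => T (v 0) ≤ S (v 0) ∧
      Xor (Xor (B.bit (S (v 0)) (v 1)) (B.bit (T (v 0)) (v 1)))
      (∃ k, k < v 1 ∧ (¬ B.bit (S (v 0)) k ∧ B.bit (T (v 0)) k ∧ ∀ j, j < v 1 → k < j →
        ¬ B.bit (S (v 0)) j ∨ B.bit (T (v 0)) j))) ?_ fun v => ?_
    · refine D.and (hT.le_dfn hS (F.var 0) (F.var 0)) (D.xor (D.xor hS.dfn hT.dfn) ?_)
      refine D.ex_lt (F.var 1) ?_
      refine D.and (D.not (hS.bit (F.var 1) (F.var 0))) (D.and (hT.bit (F.var 1) (F.var 0)) ?_)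
      refine D.all_lt (F.var 2) ?_
      refine D.imp (D.lt (F.var 1) (F.var 0)) ?_
      exact D.or (D.not (hS.bit (F.var 2) (F.var 0))) (hT.bit (F.var 2) (F.var 0))
    · have : (∃ k, k < v 1 ∧ (¬ B.bit (S (v 0)) k ∧ B.bit (T (v 0)) k ∧ ∀ j, j < v 1 → k < j →
          ¬ B.bit (S (v 0)) j ∨ B.bit (T (v 0)) j)) ↔
          (∃ k, k < v 1 ∧ ¬ B.bit (S (v 0)) k ∧ B.bit (T (v 0)) k ∧ ∀ j, k < j → j < v 1 →
          ¬ B.bit (S (v 0)) j ∨ B.bit (T (v 0)) j) := by
        constructor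
        · rintro ⟨k, h1, h2, h3, h4⟩
          exact ⟨k, h1, h2, h3, fun j a b => h4 j b a⟩
        · rintro ⟨k, h1, h2, h3, h4⟩
          exact ⟨k, h1, h2, h3, fun j a b => h4 j b a⟩
      rw [this]
      by_cases h : T (v 0) ≤ S (v 0)
      · rw [max_eq_left (sub_nonneg.2 h), bit_sub (hS.mem _) (hT.mem _) (hT.nonneg _) h]
        exact and_iff_right h
      · rw [max_eq_right (by rw [sub_nonpos]; exact (not_le.1 h).le)]
        constructor
        · exact fun hh => absurd hh.1 h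
        · exact fun hh => absurd hh (not_bit_zero _)

theorem NF.absdiff {K : U} {S T : U → R} (hS : B.NF K S) (hT : B.NF K T) :
    B.NF K (fun i => |S i - T i|) := by
  classical
  have h1 := hS.tsub hT
  have h2 := hT.tsub hS
  have hP : B.D1 (fun i => T i ≤ S i) := hT.le_dfn hS (F.var 0) (F.var 0)
  refine (NF.ite hP h1 h2).congr fun i => ?_
  by_cases h : T i ≤ S i
  · rw [if_pos h, max_eq_left (sub_nonneg.2 h), abs_of_nonneg (sub_nonneg.2 h)]
  · have h' : S i ≤ T i := (not_le.1 h).le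
    rw [if_neg h, max_eq_left (sub_nonneg.2 h'), abs_sub_comm, abs_of_nonneg (sub_nonneg.2 h')]

/-- windows of a family, at a definable position and of a definable (bounded) width -/
theorem NF.win {K L : U} {S : U → R} (hS : B.NF K S) {a w : U → U} (ha : B.F1 a) (hw : B.F1 w)
    (hL : ∀ i, w i ≤ L) : B.NF L (fun i => B.win (S i) (a i) (w i)) := by
  refine ⟨fun i => win_mem _ _ _, fun i => win_nonneg _ _ _,
    fun i => (win_lt _ _ _).trans_le (B.e_le (hL i)), ?_⟩
  refine D.congr (D.and (D.lt (F.var 1) (hw.app (F.var 0)))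
    (hS.bit (F.var 0) (F.add (ha.app (F.var 0)) (F.var 1)))) fun v => ?_
  exact (bit_win _ _ _).symm

theorem hi_le {z : R} (hz : 0 ≤ z) (u : U) : B.hi z u ≤ z := by
  have h1 := hi_add_lo (B := B) z u
  have h2 := lo_nonneg (B := B) z u
  have h3 := B.one_le_e u
  have h4 := hi_nonneg (B := B) hz u
  nlinarith

theorem lo_le {z : R} (hz : 0 ≤ z) (u : U) : B.lo z u ≤ z := by
  have h1 := hi_add_lo (B := B) z u
  have h3 := B.e_pos u
  have h4 := hi_nonneg (B := B) hz u
  nlinarith [mul_nonneg h3.le h4]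

theorem NF.hi {K : U} {S : U → R} (hS : B.NF K S) {a : U → U} (ha : B.F1 a) :
    B.NF K (fun i => B.hi (S i) (a i)) := by
  refine ⟨fun i => hi_mem _ _, fun i => hi_nonneg (hS.nonneg i) _,
    fun i => (hi_le (hS.nonneg i) _).trans_lt (hS.lt i), ?_⟩
  refine D.congr (hS.bit (F.var 0) (F.add (ha.app (F.var 0)) (F.var 1))) fun v => ?_
  exact (bit_hi _ _ _).symm

theorem NF.lo {K : U} {S : U → R} (hS : B.NF K S) {a : U → U} (ha : B.F1 a) :
    B.NF K (fun i => B.lo (S i) (a i)) := by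
  refine ⟨fun i => lo_mem (hS.mem i) _, fun i => lo_nonneg _ _,
    fun i => (lo_le (hS.nonneg i) _).trans_lt (hS.lt i), ?_⟩
  refine D.congr (D.and (D.lt (F.var 1) (ha.app (F.var 0))) hS.dfn) fun v => ?_
  exact (bit_lo _ _).symm

/-- shifts by bounded amounts -/
theorem NF.shift {K L : U} {S : U → R} (hS : B.NF K S) {a : U → U} (ha : B.F1 a)
    (hL : ∀ i, a i ≤ L) : B.NF (K + L) (fun i => S i * B.e (a i)) := by
  refine ⟨fun i => B.Z.mul_mem (hS.mem i) (B.e_mem _),
    fun i => mul_nonneg (hS.nonneg i) (B.e_pos _).le, fun i => ?_, ?_⟩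
  · rw [B.e_add]
    have h1 := hS.lt i
    have h2 := B.e_le (hL i)
    have h3 := B.e_pos (a i)
    calc S i * B.e (a i) < B.e K * B.e (a i) := mul_lt_mul_of_pos_right h1 h3
      _ ≤ B.e K * B.e L := mul_le_mul_of_nonneg_left h2 (B.e_pos K).le
  · refine D.congr (P := fun v => ∃ m, m ≤ v 1 ∧ (a (v 0) + m = v 1 ∧ B.bit (S (v 0)) m)) ?_
      fun v => ?_
    · refine D.ex_le (F.var 1) (D.and (D.eq (F.add (ha.app (F.var 1)) (F.var 0)) (F.var 2)) ?_)
      exact hS.bit (F.var 1) (F.var 0)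
    · constructor
      · rintro ⟨m, -, h1, h2⟩
        rw [← h1, bit_mul_e_add (hS.mem _)]
        exact h2
      · intro h
        by_cases hk : v 1 < a (v 0)
        · exact absurd h (not_bit_mul_e (hS.mem _) hk)
        · rw [not_lt] at hk
          obtain ⟨m, hm⟩ := exists_add_of_le hk
          refine ⟨m, ?_, hm.symm, ?_⟩
          · rw [hm]; exact le_add_self
          · rw [hm, bit_mul_e_add (hS.mem _)] at h
            exact h

/-- windows of one number -/
theorem NF.ofWin {z : R} (hz : z ∈ B.Z) (h0 : 0 ≤ z) {a w : U → U} (ha : B.F1 a) (hw : B.F1 w)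
    {L : U} (hL : ∀ i, w i ≤ L) : B.NF L (fun i => B.win z (a i) (w i)) := by
  refine ⟨fun i => win_mem _ _ _, fun i => win_nonneg _ _ _,
    fun i => (win_lt _ _ _).trans_le (B.e_le (hL i)), ?_⟩
  refine D.congr (D.and (D.lt (F.var 1) (hw.app (F.var 0)))
    (D.bit hz h0 (F.add (ha.app (F.var 0)) (F.var 1)))) fun v => ?_
  exact (bit_win _ _ _).symm

/-- powers of two -/
theorem NF.e {L : U} {a : U → U} (ha : B.F1 a) (hL : ∀ i, a i ≤ L) :
    B.NF (L + 1) (fun i => B.e (a i)) := by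
  refine ⟨fun i => B.e_mem _, fun i => (B.e_pos _).le, fun i => ?_, ?_⟩
  · exact B.e_lt _ _ ((hL i).trans_lt (lt_add_one L))
  · refine D.congr (D.eq (F.var 1) (ha.app (F.var 0))) fun v => ?_
    exact (bit_e _ _).symm

end BIP

end Pool.Agent.RSV
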