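import Pool.Agent.RSV.Specs
import Pool.Agent.RSV.Bits

/-!
# BOUND: uniform bounds for the elements algebraic over a finitely generated field
-/

namespace Pool.Agent.RSV

open Polynomial

universe u v

namespace BoundAux

section Fields

variable {R : Type v} [Field R]

lemma alg_mono {K L : Subfield R} (h : K ≤ L) {x : R} (hx : IsAlgebraic K x) :
    IsAlgebraic L x := by
  obtain ⟨p, hp, hpx⟩ := hx
  refine ⟨p.map (Subfield.inclusion h), ?_, ?_⟩
  · exact (Polynomial.map_ne_zero_iff (RingHom.injective _)).2 hp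
  · rw [aeval_def, eval₂_map]
    exact hpx

/-- relative algebraic closure -/
def ac (K : Subfield R) : Subfield R := (algebraicClosure K R).toSubfield

lemma mem_ac {K : Subfield R} {x : R} : x ∈ ac K ↔ IsAlgebraic K x := by
  show x ∈ algebraicClosure K R ↔ _
  exact mem_algebraicClosure_iff

lemma le_ac (K : Subfield R) : K ≤ ac K := by
  intro x hx
  rw [mem_ac]
  exact isAlgebraic_algebraMap (⟨x, hx⟩ : K)

lemma mem_ac_of_alg {K : Subfield R} {x : R} (hx : IsAlgebraic (ac K) x) : x ∈ ac K := by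
  rw [mem_ac]
  have h : IsAlgebraic (algebraicClosure K R) x := hx
  exact h.restrictScalars K

end Fields

section Cvx

variable {R : Type v} [Field R] [LinearOrder R] [IsStrictOrderedRing R]

/-- the convex subring generated by `g` -/
def cvx (g : R) (hg : 2 ≤ g) : ValuationSubring R where
  carrier := {x | ∃ n : ℕ, |x| ≤ g ^ n}
  mul_mem' := by
    rintro x y ⟨n, hn⟩ ⟨m, hm⟩
    refine ⟨n + m, ?_⟩
    rw [abs_mul, pow_add]
    exact mul_le_mul hn hm (abs_nonneg _) (by positivity)
  one_mem' := ⟨0, by simp⟩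
  add_mem' := by
    rintro x y ⟨n, hn⟩ ⟨m, hm⟩
    refine ⟨n + m + 1, ?_⟩
    have h1 : (1 : R) ≤ g := by linarith
    have h2 : g ^ n ≤ g ^ (n + m) := pow_le_pow_right₀ h1 (by omega)
    have h3 : g ^ m ≤ g ^ (n + m) := pow_le_pow_right₀ h1 (by omega)
    have h4 : 0 ≤ g ^ (n + m) := by positivity
    calc |x + y| ≤ |x| + |y| := abs_add_le x y
      _ ≤ 2 * g ^ (n + m) := by linarith
      _ ≤ g ^ (n + m + 1) := by rw [pow_succ, mul_comm]; exact mul_le_mul_of_nonneg_left hg h4
  zero_mem' := ⟨0, by simp⟩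
  neg_mem' := by
    rintro x ⟨n, hn⟩
    exact ⟨n, by rwa [abs_neg]⟩
  mem_or_inv_mem' := by
    intro x
    rcases le_total |x| 1 with h | h
    · left; exact ⟨0, by simpa using h⟩
    · right
      refine ⟨0, ?_⟩
      rw [abs_inv, pow_zero]
      exact inv_le_one_of_one_le₀ h

lemma mem_cvx {g : R} {hg : 2 ≤ g} {x : R} : x ∈ cvx g hg ↔ ∃ n : ℕ, |x| ≤ g ^ n := Iff.rfl

lemma cvx_convex {g : R} {hg : 2 ≤ g} {x y : R} (hy : y ∈ cvx g hg) (h : |x| ≤ |y|) :
    x ∈ cvx g hg := by
  obtain ⟨n, hn⟩ := mem_cvx.1 hy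
  exact mem_cvx.2 ⟨n, h.trans hn⟩

lemma natCast_mem_cvx {g : R} {hg : 2 ≤ g} (n : ℕ) : (n : R) ∈ cvx g hg := natCast_mem _ n

/-- the elements algebraic over a subfield of a convex ring are in the convex ring -/
lemma alg_mem_cvx {g : R} {hg : 2 ≤ g} {L : Subfield R} (hL : ∀ x ∈ L, x ∈ cvx g hg) {x : R}
    (hx : IsAlgebraic L x) : x ∈ cvx g hg := by
  have h1 : IsIntegral L x := hx.isIntegral
  obtain ⟨p, hp, hpx⟩ := h1
  let f : L →+* (cvx g hg) :=
    { toFun := fun x => ⟨x, hL x x.2⟩
      map_one' := rfl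
      map_mul' := fun _ _ => rfl
      map_zero' := rfl
      map_add' := fun _ _ => rfl }
  have h2 : IsIntegral (cvx g hg) x := by
    refine ⟨p.map f, hp.map f, ?_⟩
    rw [eval₂_map]
    exact hpx
  obtain ⟨y, hy⟩ := (IsIntegrallyClosed.isIntegral_iff (R := cvx g hg) (K := R)).1 h2
  rw [← hy]
  exact y.2

/-- Key lemma: let `F` be relatively algebraically closed, contained in the convex ring, and
let `a` be separated from `F`. Then the inverses of the values `P(a)` are in the convex ring. -/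
lemma inv_eval_mem (hIVT : Stmt_IVT.{v}) [IsRealClosed R] {g : R} {hg : 2 ≤ g} {F : Subfield R}
    (hF : ∀ x ∈ F, x ∈ cvx g hg) (hac : ∀ x, IsAlgebraic F x → x ∈ F) {a : R}
    (ha : a ∈ cvx g hg) (haF : a ∉ F) (hsep : ∀ z ∈ F, (a - z)⁻¹ ∈ cvx g hg) :
    ∀ (d : ℕ) (P : F[X]), P.natDegree ≤ d → P ≠ 0 → (aeval a P)⁻¹ ∈ cvx g hg := by
  have hne : ∀ P : F[X], P ≠ 0 → aeval a P ≠ 0 := fun P hP h => haF (hac a ⟨P, hP, h⟩)
  have hev : ∀ (P : F[X]) (y : R), y ∈ cvx g hg → aeval y P ∈ cvx g hg := by
    intro P y hy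
    rw [aeval_eq_sum_range]
    refine sum_mem fun i _ => ?_
    rw [Algebra.smul_def]
    exact mul_mem (hF _ (P.coeff i).2) (pow_mem hy i)
  -- Taylor expansion
  let f : F →+* (cvx g hg) :=
    { toFun := fun x => ⟨x, hF x x.2⟩
      map_one' := rfl
      map_mul' := fun _ _ => rfl
      map_zero' := rfl
      map_add' := fun _ _ => rfl }
  have hf : ∀ (P : F[X]) (y : cvx g hg), (((P.map f).eval y : cvx g hg) : R) = aeval (y : R) P := by
    intro P y
    have h1 := Polynomial.hom_eval₂ P f (cvx g hg).subtype y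
    rw [eval_map]
    exact h1
  have htay : ∀ (P : F[X]) (ε : R), ε ∈ cvx g hg → ∃ k ∈ cvx g hg,
      aeval (a + ε) P = aeval a P + aeval a (derivative P) * ε + k * ε ^ 2 := by
    intro P ε hε
    obtain ⟨k, hk⟩ := Polynomial.binomExpansion (P.map f) ⟨a, ha⟩ ⟨ε, hε⟩
    refine ⟨k, k.2, ?_⟩
    have h2 := congrArg (fun x : cvx g hg => (x : R)) hk
    simp only [derivative_map] at h2
    rw [hf P] at h2
    have h3 : (((P.map f).eval (⟨a, ha⟩ : cvx g hg) + ((derivative P).map f).eval (⟨a, ha⟩ : cvx g hg)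
      * (⟨ε, hε⟩ : cvx g hg) + k * (⟨ε, hε⟩ : cvx g hg) ^ 2 : cvx g hg) : R)
      = aeval a P + aeval a (derivative P) * ε + k * ε ^ 2 := by
      push_cast
      rw [hf P, hf (derivative P)]
    rw [h3] at h2
    exact h2
  intro d
  induction d with
  | zero =>
    intro P hd hP
    rw [Polynomial.eq_C_of_natDegree_le_zero hd, aeval_C]
    have : ((algebraMap F R (P.coeff 0)))⁻¹ = ((P.coeff 0)⁻¹ : F) := by simp; rfl
    rw [this]
    exact hF _ (P.coeff 0)⁻¹.2
  | succ d ih =>
    intro P hd hP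
    by_contra hcon
    rcases Nat.lt_or_ge P.natDegree 1 with h0 | h0
    · exact hcon (ih P (by omega) hP)
    -- the derivative
    have hP' : derivative P ≠ 0 := by
      intro h
      have := Polynomial.derivative_eq_zero.1 h
      omega
    have hd' : (derivative P).natDegree ≤ d := by
      have := natDegree_derivative_le P
      omega
    have hη := ih _ hd' hP'
    have hη0 := hne _ hP'
    have hp0 := hne _ hP
    set η := aeval a (derivative P) with hηdef
    set π := aeval a P with hπdef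
    have hππ : 0 < |π| := abs_pos.2 hp0
    have hηη : 0 < |η| := abs_pos.2 hη0
    -- `|π| * y < 1` for `y` in the convex ring
    have hsmall : ∀ y ∈ cvx g hg, |π| * |y| < 1 := by
      intro y hy
      by_contra h
      push Not at h
      apply hcon
      refine cvx_convex hy ?_
      rw [abs_inv]
      rw [inv_le_iff_one_le_mul₀ hππ]
      linarith [mul_comm |π| |y|]
    set ε := 2 * |π| / |η| with hε
    have hε0 : 0 < ε := by positivity
    have hεmem : ε ∈ cvx g hg := by
      have h1 : |π| * |2 * η⁻¹| < 1 := hsmall _ (mul_mem (natCast_mem_cvx 2) hη)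
      refine cvx_convex (one_mem _) ?_
      rw [abs_of_pos hε0, abs_one, hε]
      rw [abs_mul, abs_inv, abs_two] at h1
      rw [div_eq_mul_inv]
      linarith
    obtain ⟨k, hk, hk1⟩ := htay P ε hεmem
    obtain ⟨k', hk', hk1'⟩ := htay P (-ε) (neg_mem hεmem)
    have hkey : ∀ y ∈ cvx g hg, |y * ε ^ 2| < |π| := by
      intro y hy
      have h1 : |π| * |4 * y * (η⁻¹ * η⁻¹)| < 1 :=
        hsmall _ (mul_mem (mul_mem (natCast_mem_cvx 4) hy) (mul_mem hη hη))
      have h2 : |y * ε ^ 2| = |π| * (|π| * |4 * y * (η⁻¹ * η⁻¹)|) := by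
        rw [abs_mul, abs_pow, abs_of_pos hε0, hε, abs_mul, abs_mul, abs_mul, abs_inv,
          abs_of_pos (by norm_num : (0 : R) < 4)]
        field_simp
        ring
      rw [h2]
      calc |π| * (|π| * |4 * y * (η⁻¹ * η⁻¹)|) < |π| * 1 := by
            exact mul_lt_mul_of_pos_left h1 hππ
        _ = |π| := mul_one _
    have hηε : |η * ε| = 2 * |π| := by
      rw [abs_mul, abs_of_pos hε0, hε]
      field_simp
    -- a root close to `a`
    have hroot : ∃ z, a - ε < z ∧ z < a + ε ∧ aeval z P = 0 := by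
      have e1 := hkey k hk
      have e2 := hkey k' hk'
      rw [neg_sq] at hk1'
      have hmap : ∀ y : R, (P.map (algebraMap F R)).eval y = aeval y P := fun y => by
        rw [eval_map_algebraMap]
      rcases lt_or_gt_of_ne hη0 with hs | hs
      · have e3 : η * ε = -(2 * |π|) := by
          rw [← hηε, abs_of_neg (mul_neg_of_neg_of_pos hs hε0)]; ring
        have hA : aeval (a + -ε) P > 0 := by
          rw [hk1']
          have := neg_abs_le π
          have := neg_abs_le (k' * ε ^ 2)
          nlinarith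
        have hB : aeval (a + ε) P < 0 := by
          rw [hk1]
          have := le_abs_self π
          have := le_abs_self (k * ε ^ 2)
          nlinarith
        obtain ⟨c, h1, h2, h3⟩ := hIVT R (-(P.map (algebraMap F R))) (a + -ε) (a + ε)
          (by linarith) (by rw [eval_neg, hmap]; linarith) (by rw [eval_neg, hmap]; linarith)
        refine ⟨c, by linarith, h2, ?_⟩
        rw [eval_neg, hmap] at h3
        linarith
      · have e3 : η * ε = 2 * |π| := by
          rw [← hηε, abs_of_pos (mul_pos hs hε0)]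
        have hA : aeval (a + -ε) P < 0 := by
          rw [hk1']
          have := le_abs_self π
          have := le_abs_self (k' * ε ^ 2)
          nlinarith
        have hB : aeval (a + ε) P > 0 := by
          rw [hk1]
          have := neg_abs_le π
          have := neg_abs_le (k * ε ^ 2)
          nlinarith
        obtain ⟨c, h1, h2, h3⟩ := hIVT R (P.map (algebraMap F R)) (a + -ε) (a + ε)
          (by linarith) (by rw [hmap]; linarith) (by rw [hmap]; linarith)
        refine ⟨c, by linarith, h2, ?_⟩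
        rw [hmap] at h3
        exact h3
    obtain ⟨z, hz1, hz2, hz3⟩ := hroot
    have hzF : z ∈ F := hac z ⟨P, hP, hz3⟩
    have hz4 := hsep z hzF
    have hz5 : |a - z| ≤ ε := by rw [abs_le]; constructor <;> linarith
    have hz6 : a - z ≠ 0 := fun h => haF (by rw [sub_eq_zero.1 h]; exact hzF)
    apply hcon
    have h7 : |(π)⁻¹| ≤ |2 * η⁻¹ * (a - z)⁻¹| := by
      have hz7 : 0 < |a - z| := abs_pos.2 hz6
      rw [abs_inv, abs_mul, abs_mul, abs_inv, abs_inv, abs_two]
      rw [inv_le_iff_one_le_mul₀ hππ]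
      rw [hε, le_div_iff₀ hηη] at hz5
      rw [mul_assoc 2, ← mul_inv, mul_comm (2 : R), mul_assoc, inv_mul_eq_div, le_div_iff₀ (by positivity)]
      linarith [mul_comm |η| |a - z|]
    exact cvx_convex (mul_mem (mul_mem (natCast_mem_cvx 2) hη) hz4) h7

end Cvx

section Bound

variable {U : Type u} {R : Type v} [CommSemiring U] [LinearOrder U] [IsStrictOrderedRing U]
  [CanonicallyOrderedAdd U] [Field R] [LinearOrder R] [IsStrictOrderedRing R]

lemma two_le_e (B : BIP U R) {J : U} (hJ : 1 ≤ J) : 2 ≤ B.e J := by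
  have h1 := B.e_le hJ
  rw [B.e_one] at h1
  exact h1

lemma mem_cvx_e (B : BIP U R) {J : U} (hJ : 1 ≤ J) {c : U} (hc : c ≤ J) {x : R}
    (hx : |x| ≤ B.e c) : x ∈ cvx (B.e J) (two_le_e B hJ) :=
  mem_cvx.2 ⟨1, by rw [pow_one]; exact hx.trans (B.e_le hc)⟩

/-- from the convex ring to a uniform bound -/
lemma bound_of_cvx (B : BIP U R) {J : U} (hJ : 1 ≤ J) : ∃ b : U, ∀ x ∈ cvx (B.e J) (two_le_e B hJ),
    |x| ≤ B.e b := by
  obtain ⟨I, hI⟩ := B.exists_nonstd
  refine ⟨I * J, fun x hx => ?_⟩
  obtain ⟨n, hn⟩ := mem_cvx.1 hx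
  refine hn.trans ?_
  rw [← B.e_natCast_mul]
  exact B.e_le (mul_le_mul_left (hI n).le J)

lemma bounds_of_cvx (B : BIP U R) {J : U} (hJ : 1 ≤ J) : ∃ b : U, ∀ x : R, x ≠ 0 →
    x ∈ cvx (B.e J) (two_le_e B hJ) → x⁻¹ ∈ cvx (B.e J) (two_le_e B hJ) →
    1 / B.e b ≤ |x| ∧ |x| ≤ B.e b := by
  obtain ⟨b, hb⟩ := bound_of_cvx B hJ
  refine ⟨b, fun x hx0 hx hx' => ⟨?_, hb x hx⟩⟩
  have h1 := hb _ hx'
  have h2 : 0 < |x| := abs_pos.2 hx0
  have h3 := B.e_pos b
  rw [abs_inv] at h1
  rw [div_le_iff₀ h3]
  rw [inv_le_iff_one_le_mul₀ h2] at h1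
  linarith [mul_comm |x| (B.e b)]

end Bound

end BoundAux

open BoundAux in
/-- module BOUND -/
theorem Bound (hIVT : Stmt_IVT.{v}) : Stmt_Bound.{u, v} := by
  intro U R _ _ _ _ _ _ _ _ B s hs
  induction s, hs using Set.Finite.induction_on with
  | empty =>
    obtain ⟨b, hb⟩ := bounds_of_cvx B (le_refl (1 : U))
    refine ⟨b, fun x hx0 hx => ?_⟩
    have hL : ∀ x ∈ Subfield.closure (∅ : Set R), x ∈ cvx (B.e 1) (two_le_e B (le_refl (1 : U))) := by
      intro y hy
      rw [Subfield.closure_empty] at hy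
      obtain ⟨q, rfl⟩ : ∃ q : ℚ, (q : R) = y := by
        have h2 : (⊥ : Subfield R) ≤ (Rat.castHom R).fieldRange := bot_le
        obtain ⟨q, hq⟩ := h2 hy
        exact ⟨q, hq⟩
      refine cvx_convex (natCast_mem_cvx q.num.natAbs) ?_
      rw [Nat.abs_cast]
      have h3 : |(q : R)| = ((|q| : ℚ) : R) := by rw [Rat.cast_abs]
      rw [h3]
      have h4 : |q| ≤ q.num.natAbs := by
        rw [Rat.abs_def, Rat.divInt_eq_div]
        have h5 : (1 : ℚ) ≤ (q.den : ℤ) := by exact_mod_cast q.pos
        rw [div_le_iff₀ (by linarith)]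
        have h6 : (0 : ℚ) ≤ (q.num.natAbs : ℚ) := by positivity
        rw [Int.cast_natCast]
        exact le_mul_of_one_le_right h6 h5
      exact_mod_cast h4
    exact hb x hx0 (alg_mem_cvx hL hx) (alg_mem_cvx hL hx.inv)
  | @insert a s _ _ ih =>
    obtain ⟨b, hb⟩ := ih
    set F := ac (Subfield.closure s) with hFdef
    by_cases haF : a ∈ F
    · refine ⟨b, fun x hx0 hx => hb x hx0 ?_⟩
      rw [← mem_ac]
      apply mem_ac_of_alg
      refine alg_mono ?_ hx
      rw [Subfield.closure_le]
      rintro y (rfl | hy)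
      · exact haF
      · exact le_ac _ (Subfield.subset_closure hy)
    · -- separation of `a` from `F`
      have hsep : ∃ c : U, ∀ z ∈ F, |(a - z)⁻¹| ≤ B.e c := by
        have hne : ∀ z ∈ F, a - z ≠ 0 := fun z hz h => haF (by rw [sub_eq_zero.1 h]; exact hz)
        have hbound : ∀ z ∈ F, ∀ c : U, 1 / B.e c ≤ |a - z| → |(a - z)⁻¹| ≤ B.e c := by
          intro z hz c h
          have h2 : 0 < |a - z| := abs_pos.2 (hne z hz)
          rw [div_le_iff₀ (B.e_pos c)] at h
          rw [abs_inv, inv_le_iff_one_le_mul₀ h2]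
          linarith [mul_comm |a - z| (B.e c)]
        by_cases h : ∃ x₁ ∈ F, |a - x₁| < 1 / B.e (b + 1)
        · obtain ⟨x₁, hx₁, hx₁'⟩ := h
          obtain ⟨c₁, hc₁⟩ := B.exists_inv_e_le (hne x₁ hx₁)
          refine ⟨max c₁ (b + 1), fun z hz => hbound z hz _ ?_⟩
          by_cases hz' : z = x₁
          · subst hz'
            exact (one_div_le_one_div_of_le (B.e_pos _) (B.e_le (le_max_left _ _))).trans hc₁
          · have h1 := (hb (x₁ - z) (sub_ne_zero.2 (Ne.symm hz'))
              (mem_ac.1 (sub_mem hx₁ hz))).1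
            refine (one_div_le_one_div_of_le (B.e_pos _) (B.e_le (le_max_right _ _))).trans ?_
            have h2 : |x₁ - z| ≤ |a - x₁| + |a - z| := by
              have := abs_sub_le x₁ a z
              rw [abs_sub_comm x₁ a] at this
              exact this
            have h3 : 1 / B.e b = 2 * (1 / B.e (b + 1)) := by
              rw [B.e_succ]
              have := B.e_pos b
              field_simp
            linarith
        · push Not at h
          exact ⟨b + 1, fun z hz => hbound z hz _ (h z hz)⟩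
      obtain ⟨c, hc⟩ := hsep
      obtain ⟨c', hc'⟩ := B.exists_lt_e |a|
      set J : U := max (max b c) (max c' 1) with hJdef
      have hJ : 1 ≤ J := (le_max_right c' 1).trans (le_max_right _ _)
      have hFc : ∀ x ∈ F, x ∈ cvx (B.e J) (two_le_e B hJ) := by
        intro x hx
        by_cases hx0 : x = 0
        · rw [hx0]; exact zero_mem _
        · exact mem_cvx_e B hJ ((le_max_left b c).trans (le_max_left _ _))
            (hb x hx0 (mem_ac.1 hx)).2
      have hac : a ∈ cvx (B.e J) (two_le_e B hJ) :=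
        mem_cvx_e B hJ ((le_max_left c' 1).trans (le_max_right _ _)) hc'.le
      have hkey := inv_eval_mem hIVT hFc (fun x hx => mem_ac_of_alg hx) hac haF
        (fun z hz => mem_cvx_e B hJ ((le_max_right b c).trans (le_max_left _ _)) (hc z hz))
      obtain ⟨b', hb'⟩ := bounds_of_cvx B hJ
      refine ⟨b', fun x hx0 hx => ?_⟩
      let L : Subfield R := (IntermediateField.adjoin F {a}).toSubfield
      have hle : Subfield.closure (insert a s) ≤ L := by
        rw [Subfield.closure_le]
        rintro y (rfl | hy)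
        · exact IntermediateField.mem_adjoin_simple_self F y
        · exact (IntermediateField.adjoin F {a}).algebraMap_mem
            (⟨y, le_ac _ (Subfield.subset_closure hy)⟩ : F)
      have hL : ∀ y ∈ L, y ∈ cvx (B.e J) (two_le_e B hJ) := by
        intro y hy
        obtain ⟨r, q, rfl⟩ := (IntermediateField.mem_adjoin_simple_iff F y).1 hy
        rw [div_eq_mul_inv]
        refine mul_mem ?_ ?_
        · rw [aeval_eq_sum_range]
          refine sum_mem fun i _ => ?_
          rw [Algebra.smul_def]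
          exact mul_mem (hFc _ (r.coeff i).2) (pow_mem hac i)
        · by_cases hq : q = 0
          · rw [hq, map_zero, inv_zero]; exact zero_mem _
          · exact hkey _ q le_rfl hq
      exact hb' x hx0 (alg_mem_cvx hL (alg_mono hle hx)) (alg_mem_cvx hL (alg_mono hle hx.inv))



end Pool.Agent.RSV
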