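import Pool.Agent.RSV.CTCx

/-!
# CT: the Galois-theoretic steps (A) normalisation, (B) composition, (C) clusters
-/

namespace Pool.Agent.RSV

universe v

open Polynomial IntermediateField

/-- The context: `E / F` Galois inside `C = R(i)`, `F` real. -/
structure CTCtx (R C E F : Type v) [Field R] [LinearOrder R] [IsStrictOrderedRing R]
    [Field C] [Algebra R C] [Field E] [Field F] [Algebra F E] where
  K : CxKit R C
  ι : E →+* C
  φ : F →+* R
  hφ : ∀ a, ι (algebraMap F E a) = algebraMap R C (φ a)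
  κ : E ≃ₐ[F] E
  hκ : ∀ x, ι (κ x) = K.cj (ι x)

namespace CTCtx

variable {R C E F : Type v} [Field R] [LinearOrder R] [IsStrictOrderedRing R]
    [Field C] [Algebra R C] [Field E] [Field F] [Algebra F E] (c : CTCtx R C E F)

/-- the absolute value on `E` -/
noncomputable def v : AbsoluteValue E R := c.K.nm.comp c.ι.injective

theorem v_def (x : E) : c.v x = c.K.nm (c.ι x) := rfl

theorem v_real {x : E} {r : R} (h : c.ι x = algebraMap R C r) : c.v x = |r| := by
  rw [v_def, h, c.K.nm_real]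

theorem v_alg (a : F) : c.v (algebraMap F E a) = |c.φ a| := c.v_real (c.hφ a)

theorem v_nat (n : ℕ) : c.v (n : E) = n := by
  rw [c.v_real (r := (n : R)) (by simp)]
  simp

theorem v_int (n : ℤ) : c.v (n : E) = |(n : R)| := c.v_real (r := (n : R)) (by simp)

theorem v_κ (x : E) : c.v (c.κ x) = c.v x := by
  rw [v_def, c.hκ, c.K.nm_cj, v_def]

theorem real_of_κ {x : E} (h : c.κ x = x) : ∃ r : R, c.ι x = algebraMap R C r := by
  have h1 := c.hκ x
  rw [h] at h1
  obtain ⟨r, hr⟩ := c.K.real_of_cj _ h1.symm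
  exact ⟨r, hr.symm⟩

theorem κ_of_real {x : E} {r : R} (h : c.ι x = algebraMap R C r) : c.κ x = x := by
  apply c.ι.injective
  rw [c.hκ, h]
  exact c.K.cj.commutes r

end CTCtx

/-- integer parts of bounded elements -/
theorem exists_int_floor {R : Type v} [Field R] [LinearOrder R] [IsStrictOrderedRing R]
    (r : R) (n : ℕ) (hn : |r| ≤ n) : ∃ j : ℤ, (j : R) ≤ r ∧ r < j + 1 := by
  obtain ⟨j, hj, hj'⟩ := Int.exists_greatest_of_bdd (P := fun z : ℤ => (z : R) ≤ r)
    ⟨n, fun z hz => by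
      have : (z : R) ≤ (n : ℤ) := by
        push_cast
        exact hz.trans ((le_abs_self r).trans hn)
      exact_mod_cast this⟩
    ⟨-n, by
      push_cast
      have := neg_abs_le r
      linarith⟩
  refine ⟨j, hj, ?_⟩
  by_contra h
  push Not at h
  have := hj' (j + 1) (by push_cast; exact h)
  omega

section Steps

variable {R C E F : Type v} [Field R] [LinearOrder R] [IsStrictOrderedRing R]
    [Field C] [Algebra R C] [Field E] [Field F] [Algebra F E] [CharZero E]
    (c : CTCtx R C E F)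

/-- Step (A): normalisation -/
theorem ct_stepA (w : E) (r : R) (hr : c.ι w = algebraMap R C r) (n m : ℕ) (hn : |r| ≤ n)
    (hm : 0 < m) (hiso : ∀ σ : E ≃ₐ[F] E, σ w ≠ w → 1 ≤ m * c.v (σ w - w)) (A : ℕ)
    (hA : 1 ≤ A) :
    ∃ (y : E) (s : R) (n' : ℕ), c.ι y = algebraMap R C s ∧ (A : R) ≤ s ∧ s ≤ n' ∧
      (∀ σ : E ≃ₐ[F] E, σ y = y → σ w = w) ∧ (∀ σ : E ≃ₐ[F] E, σ w = w → σ y = y) ∧
      (∀ σ : E ≃ₐ[F] E, σ w ≠ w → c.v (σ y) ≤ 1) ∧ y ∈ F⟮w⟯ := by
  set t : ℕ := 4 * m * A with ht
  have htpos : 0 < t := by positivity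
  have htR : (0 : R) < t := by exact_mod_cast htpos
  have hmR : (0 : R) < m := by exact_mod_cast hm
  have hAR : (1 : R) ≤ A := by exact_mod_cast hA
  obtain ⟨j, hj1, hj2⟩ := exists_int_floor ((t : R) * r) (t * n) (by
    rw [abs_mul, abs_of_pos htR]; push_cast; exact mul_le_mul_of_nonneg_left hn htR.le)
  -- the rational point `q = (j-1)/t`
  have hq1 : 1 / (t : R) ≤ r - ((j - 1 : ℤ) : R) / t := by
    rw [le_sub_iff_add_le, ← add_div, div_le_iff₀ htR]
    push_cast
    linarith
  have hq2 : r - ((j - 1 : ℤ) : R) / t ≤ 2 / t := by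
    rw [sub_le_iff_le_add, ← add_div, le_div_iff₀ htR]
    push_cast
    linarith
  set q : E := ((j - 1 : ℤ) : E) / (t : E) with hq
  set qR : R := ((j - 1 : ℤ) : R) / t with hqR
  have hιq : c.ι q = algebraMap R C qR := by simp [hq, hqR]
  have hpos : 0 < r - qR := lt_of_lt_of_le (by positivity) hq1
  have hιy : c.ι ((2 * m : E) * (w - q))⁻¹ = algebraMap R C ((2 * m) * (r - qR))⁻¹ := by
    simp only [map_inv₀, map_mul, map_sub, map_ofNat, map_natCast, hr, hιq]
  have hmE : (m : E) ≠ 0 := by exact_mod_cast hm.ne'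
  have hσ : ∀ σ : E ≃ₐ[F] E, σ ((2 * m : E) * (w - q))⁻¹ = ((2 * m : E) * (σ w - q))⁻¹ := by
    intro σ
    simp only [hq, map_inv₀, map_mul, map_sub, map_div₀, map_ofNat, map_natCast, map_intCast]
  have h2m : (2 * m : E) ≠ 0 := mul_ne_zero two_ne_zero hmE
  refine ⟨((2 * m : E) * (w - q))⁻¹, ((2 * m) * (r - qR))⁻¹, t, hιy, ?_, ?_, ?_, ?_, ?_, ?_⟩
  · rw [le_inv_comm₀ (by linarith) (by positivity)]
    calc (2 * (m : R)) * (r - qR) ≤ (2 * m) * (2 / t) :=
          mul_le_mul_of_nonneg_left hq2 (by positivity)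
      _ = (A : R)⁻¹ := by rw [ht]; push_cast; field_simp; norm_num
      _ ≤ (A : R)⁻¹ := le_rfl
  · rw [inv_le_comm₀ (by positivity) htR]
    have h1m : (1 : R) ≤ m := by exact_mod_cast hm
    calc (t : R)⁻¹ = 1 / (t : R) := by rw [one_div]
      _ ≤ 1 * (r - qR) := by rw [one_mul]; exact hq1
      _ ≤ (2 * m) * (r - qR) := mul_le_mul_of_nonneg_right (by linarith) hpos.le
  · intro σ h
    rw [hσ] at h
    have h1 := inv_injective h
    have h2 := mul_left_cancel₀ h2m h1
    exact sub_left_injective h2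
  · intro σ h
    rw [hσ, h]
  · intro σ h
    rw [hσ, map_inv₀, map_mul]
    have h1 := hiso σ h
    have h2 : c.v (2 * m : E) = 2 * m := by
      rw [map_mul]
      have := c.v_nat 2
      have h3 := c.v_nat m
      push_cast at this
      rw [this, h3]
    rw [h2]
    have h3 : c.v (σ w - w) ≤ c.v (σ w - q) + c.v (w - q) := by
      have : σ w - w = (σ w - q) - (w - q) := by ring
      rw [this]
      have h4 := c.v.add_le (σ w - q) (-(w - q))
      rw [c.v.map_neg, ← sub_eq_add_neg] at h4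
      exact h4
    have h4 : c.v (w - q) = r - qR := by
      rw [c.v_real (r := r - qR) (by simp [hr, hιq]), abs_of_pos hpos]
    rw [h4] at h3
    have h5 : (m : R) * (r - qR) ≤ 1 / 2 := by
      calc (m : R) * (r - qR) ≤ m * (2 / t) := mul_le_mul_of_nonneg_left hq2 hmR.le
        _ = 1 / (2 * A) := by rw [ht]; push_cast; field_simp; norm_num
        _ ≤ 1 / 2 := by
          apply one_div_le_one_div_of_le (by norm_num)
          linarith
    apply inv_le_one_of_one_le₀
    have h6 : (m : R) * c.v (σ w - w) ≤ m * (c.v (σ w - q) + (r - qR)) :=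
      mul_le_mul_of_nonneg_left h3 hmR.le
    linarith
  · have hw := mem_adjoin_simple_self F w
    exact inv_mem (mul_mem (mul_mem (ofNat_mem _ 2) (_root_.natCast_mem _ m))
      (sub_mem hw (div_mem (_root_.intCast_mem _ _) (_root_.natCast_mem _ t))))

/-- the finite set of conjugates -/
noncomputable def cjs (F : Type v) {E : Type v} [Field E] [Field F] [Algebra F E] (x : E) :
    Finset E := by
  classical exact ((minpoly F x).aroots E).toFinset

omit [CharZero E] in
theorem mem_cjs [Algebra.IsAlgebraic F E] (x : E) (σ : E ≃ₐ[F] E) : σ x ∈ cjs F x := by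
  classical
  unfold cjs
  rw [Multiset.mem_toFinset, mem_aroots]
  refine ⟨minpoly.ne_zero (Algebra.IsIntegral.isIntegral x), ?_⟩
  have h := Polynomial.aeval_algHom_apply (σ : E →ₐ[F] E) x (minpoly F x)
  rw [minpoly.aeval, map_zero] at h
  exact h

omit [CharZero E] in
/-- Step (B): composition -/
theorem ct_stepB [Algebra.IsAlgebraic F E] (y z : E) (s r : R) (n m : ℕ)
    (hy : c.ι y = algebraMap R C s) (hz : c.ι z = algebraMap R C r)
    (hs4 : 4 ≤ s) (hsn : s ≤ n) (hr1 : 1 ≤ r) (hrn : r ≤ n)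
    (hy1 : ∀ σ : E ≃ₐ[F] E, σ y ≠ y → c.v (σ y) ≤ 1)
    (hz1 : ∀ σ : E ≃ₐ[F] E, σ y = y → σ z ≠ z → 1 ≤ m * c.v (σ z - z)) :
    ∃ (w : E) (r' : R) (n' m' : ℕ), c.ι w = algebraMap R C r' ∧ |r'| ≤ n' ∧ 0 < m' ∧
      (∀ σ : E ≃ₐ[F] E, σ w ≠ w → 1 ≤ m' * c.v (σ w - w)) ∧
      ∀ σ : E ≃ₐ[F] E, σ w = w → σ y = y ∧ σ z = z := by
  classical
  have hs0 : 0 < s := by linarith
  have hr0 : 0 < r := by linarith
  have hvy : c.v y = s := by rw [c.v_real hy, abs_of_pos hs0]
  have hvz : c.v z = r := by rw [c.v_real hz, abs_of_pos hr0]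
  have hy0 : y ≠ 0 := by
    intro h
    rw [h, map_zero] at hvy
    linarith
  have hvw : ∀ p : ℕ, c.v (y ^ p * z) = s ^ p * r := by
    intro p
    rw [map_mul, map_pow, hvy, hvz]
  -- a good exponent
  have hgood : ∃ p : ℕ, ∀ σ : E ≃ₐ[F] E, σ y ≠ y →
      s ^ p * r / 2 ≤ c.v (σ (y ^ p * z) - y ^ p * z) := by
    by_contra hcon
    push Not at hcon
    choose σ hσ1 hσ2 using hcon
    set T : Finset (E × E) := cjs F y ×ˢ cjs F z with hT
    obtain ⟨p, hp, p', hp', hne, heq⟩ := Finset.exists_ne_map_eq_of_card_lt_of_maps_to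
      (s := Finset.range (T.card + 1)) (t := T) (by simp)
      (f := fun p => (σ p y, σ p z)) (by
        intro p _
        simp only [hT, Finset.coe_product, Set.mem_prod, Finset.mem_coe]
        exact ⟨mem_cjs _ _, mem_cjs _ _⟩)
    have key : ∀ p p' : ℕ, p < p' → (σ p y, σ p z) = (σ p' y, σ p' z) → False := by
      intro p p' hlt heq
      rw [Prod.mk.injEq] at heq
      obtain ⟨e1, e2⟩ := heq
      have ha1 : c.v (σ p y) ≤ 1 := hy1 _ (hσ1 p)
      have h1 := hσ2 p
      have h2 := hσ2 p'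
      rw [map_mul, map_pow] at h1 h2
      rw [← e1, ← e2] at h2
      set a := σ p y
      set b := σ p z
      have h3 : c.v (a ^ p * b) < 3 / 2 * (s ^ p * r) := by
        have : a ^ p * b = (a ^ p * b - y ^ p * z) + y ^ p * z := by ring
        rw [this]
        have h4 := c.v.add_le (a ^ p * b - y ^ p * z) (y ^ p * z)
        rw [hvw] at h4
        linarith
      have h5 : c.v (a ^ p' * b) ≤ c.v (a ^ p * b) := by
        obtain ⟨k, rfl⟩ := Nat.exists_eq_add_of_lt hlt
        have : a ^ (p + k + 1) * b = a ^ (k + 1) * (a ^ p * b) := by ring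
        rw [this, map_mul c.v (a ^ (k + 1)), map_pow]
        have h6 : c.v a ^ (k + 1) ≤ 1 := pow_le_one₀ (c.v.nonneg _) ha1
        exact mul_le_of_le_one_left (c.v.nonneg _) h6
      have h6 : 4 * (s ^ p * r) ≤ s ^ p' * r := by
        obtain ⟨k, rfl⟩ := Nat.exists_eq_add_of_lt hlt
        have h7 : (4 : R) ≤ s ^ (k + 1) := by
          calc (4 : R) ≤ s := hs4
            _ = s ^ 1 := (pow_one s).symm
            _ ≤ s ^ (k + 1) := pow_le_pow_right₀ (by linarith) (by omega)
        have : s ^ (p + k + 1) * r = s ^ (k + 1) * (s ^ p * r) := by ring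
        rw [this]
        exact mul_le_mul_of_nonneg_right h7 (by positivity)
      have h7 : s ^ p' * r ≤ c.v (a ^ p' * b - y ^ p' * z) + c.v (a ^ p' * b) := by
        have this : y ^ p' * z = a ^ p' * b - (a ^ p' * b - y ^ p' * z) := by ring
        have h8 := c.v.add_le (a ^ p' * b) (-(a ^ p' * b - y ^ p' * z))
        rw [c.v.map_neg, ← sub_eq_add_neg, ← this, hvw] at h8
        linarith
      have h9 : 0 < s ^ p' * r := by positivity
      linarith
    rcases lt_or_gt_of_ne hne with h | h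
    · exact key p p' h heq
    · exact key p' p h heq.symm
  obtain ⟨p, hp⟩ := hgood
  have hbig : (1 : R) ≤ s ^ p * r := by
    have h1 : (1 : R) ≤ s ^ p := one_le_pow₀ (by linarith)
    nlinarith
  have hfix : ∀ σ : E ≃ₐ[F] E, σ (y ^ p * z) = y ^ p * z → σ y = y ∧ σ z = z := by
    intro σ h
    have h1 : σ y = y := by
      by_contra h2
      have h3 := hp σ h2
      rw [h, sub_self, map_zero] at h3
      linarith
    refine ⟨h1, ?_⟩
    rw [map_mul, map_pow, h1] at h
    exact mul_left_cancel₀ (pow_ne_zero p hy0) h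
  refine ⟨y ^ p * z, s ^ p * r, n ^ p * n, m + 2, by simp [hy, hz], ?_, by omega, ?_, hfix⟩
  · rw [abs_of_pos (by linarith)]
    push_cast
    exact mul_le_mul (pow_le_pow_left₀ hs0.le hsn p) hrn hr0.le (by positivity)
  · intro σ h
    by_cases h1 : σ y = y
    · have h2 : σ z ≠ z := by
        intro h2
        apply h
        rw [map_mul, map_pow, h1, h2]
      have h3 := hz1 σ h1 h2
      have h4 : σ (y ^ p * z) - y ^ p * z = y ^ p * (σ z - z) := by
        rw [map_mul, map_pow, h1]; ring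
      rw [h4, map_mul, map_pow, hvy]
      have h5 : (1 : R) ≤ s ^ p := one_le_pow₀ (by linarith)
      have h6 : 0 ≤ c.v (σ z - z) := c.v.nonneg _
      push_cast
      have h7 : c.v (σ z - z) ≤ s ^ p * c.v (σ z - z) := le_mul_of_one_le_left h6 h5
      have h8 : (0 : R) ≤ m := Nat.cast_nonneg m
      nlinarith
    · have h2 := hp σ h1
      have h8 : (0 : R) ≤ m := Nat.cast_nonneg m
      push_cast
      nlinarith

omit [CharZero E] in
theorem sum_perm_algEquiv (J : Finset E) (σ : E ≃ₐ[F] E) (hJ : ∀ x ∈ J, σ x ∈ J) (h : E → E) :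
    ∑ x ∈ J, h (σ x) = ∑ x ∈ J, h x := by
  classical
  have himg : J.image σ = J := by
    apply Finset.eq_of_subset_of_card_le
    · intro y hy
      rw [Finset.mem_image] at hy
      obtain ⟨x, hx, rfl⟩ := hy
      exact hJ x hx
    · rw [Finset.card_image_of_injective _ σ.injective]
  conv_rhs => rw [← himg]
  rw [Finset.sum_image (fun a _ b _ hab => σ.injective hab)]

/-- Step (C): clusters -/
theorem ct_stepC (w : E) (hw : c.κ w = w) (f : E) (rf : R) (hf : c.ι f = algebraMap R C rf)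
    (O : Finset E) (hO : ∀ x, x ∈ O ↔ ∃ σ : E ≃ₐ[F] E, σ w = w ∧ σ f = x)
    (hcard : 2 ≤ O.card)
    (hsc : ∀ x ∈ O, x - (∑ y ∈ O, y) / O.card ≠ 0 →
      ∃ (s : F) (n : ℕ), c.v (x - (∑ y ∈ O, y) / O.card) ≤ n * |c.φ s| ∧
        |c.φ s| ≤ n * c.v (x - (∑ y ∈ O, y) / O.card)) :
    ∃ (z : E) (r : R) (n : ℕ), c.ι z = algebraMap R C r ∧ |r| ≤ n ∧
      (∀ σ : E ≃ₐ[F] E, σ w = w → σ z ≠ z → 1 ≤ (2 : ℕ) * c.v (σ z - z)) ∧
      ∃ J : Finset E, J.card < O.card ∧ ∀ σ : E ≃ₐ[F] E, σ w = w → σ z = z → σ f ∈ J := by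
  classical
  set e : ℕ := O.card with he
  set c0 : E := (∑ y ∈ O, y) / e with hc0
  have heR : (2 : R) ≤ e := by exact_mod_cast hcard
  have heE : (e : E) ≠ 0 := by
    have : e ≠ 0 := by omega
    exact_mod_cast this
  have hsub : ∀ a b : E, c.v (a - b) ≤ c.v a + c.v b := by
    intro a b
    have h4 := c.v.add_le a (-b)
    rw [c.v.map_neg, ← sub_eq_add_neg] at h4
    exact h4
  have hsub' : ∀ a b : E, c.v a ≤ c.v (a - b) + c.v b := by
    intro a b
    have h4 := c.v.add_le (a - b) b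
    rwa [sub_add_cancel] at h4
  have hperm : ∀ σ : E ≃ₐ[F] E, σ w = w → ∀ x ∈ O, σ x ∈ O := by
    intro σ hσ x hx
    rw [hO] at hx ⊢
    obtain ⟨τ, h1, h2⟩ := hx
    exact ⟨τ.trans σ, by rw [AlgEquiv.trans_apply, h1, hσ], by rw [AlgEquiv.trans_apply, h2]⟩
  have hc0σ : ∀ σ : E ≃ₐ[F] E, σ w = w → σ c0 = c0 := by
    intro σ hσ
    rw [hc0, map_div₀, map_natCast, map_sum]
    congr 1
    exact sum_perm_algEquiv O σ (hperm σ hσ) (fun x => x)
  have hfO : f ∈ O := by
    rw [hO]
    exact ⟨AlgEquiv.refl, rfl, rfl⟩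
  obtain ⟨x0, hx0, hmax⟩ := O.exists_max_image (fun x => c.v (x - c0)) ⟨f, hfO⟩
  have hg0 : 0 < c.v (x0 - c0) := by
    by_contra hcon
    push Not at hcon
    have h1 : ∀ x ∈ O, x = c0 := by
      intro x hx
      have h2 := hmax x hx
      have h3 : c.v (x - c0) = 0 := le_antisymm (h2.trans hcon) (c.v.nonneg _)
      rw [c.v.eq_zero] at h3
      exact sub_eq_zero.1 h3
    have h2 : O.card ≤ 1 := Finset.card_le_one.2 (fun a ha b hb => by rw [h1 a ha, h1 b hb])
    omega
  obtain ⟨s, n, hn1, hn2⟩ := hsc x0 hx0 (by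
    intro h
    rw [h, map_zero] at hg0
    exact lt_irrefl _ hg0)
  have hs0 : 0 < |c.φ s| := by
    rcases (abs_nonneg (c.φ s)).lt_or_eq with h | h
    · exact h
    · rw [← h, mul_zero] at hn1
      linarith
  set sE : E := algebraMap F E s with hsE
  have hvs : c.v sE = |c.φ s| := c.v_alg s
  have hsE0 : sE ≠ 0 := by
    intro h
    rw [h, map_zero] at hvs
    linarith
  set yv : E → E := fun x => (x - c0) / sE with hyv
  have hvyv : ∀ x, c.v (yv x) * |c.φ s| = c.v (x - c0) := by
    intro x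
    rw [← hvs, ← map_mul]
    congr 1
    simp only [hyv]
    field_simp
  have hyn : ∀ x ∈ O, c.v (yv x) ≤ n := by
    intro x hx
    have h1 := hmax x hx
    have h2 := hvyv x
    have h3 : c.v (yv x) * |c.φ s| ≤ n * |c.φ s| := by
      rw [h2]; exact h1.trans hn1
    exact le_of_mul_le_mul_right h3 hs0
  have hy0 : 1 ≤ n * c.v (yv x0) := by
    have h2 := hvyv x0
    rw [← h2, ← mul_assoc] at hn2
    by_contra hcon
    push Not at hcon
    have := mul_lt_mul_of_pos_right hcon hs0
    linarith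
  have hsum0 : ∑ x ∈ O, yv x = 0 := by
    simp only [hyv]
    rw [← Finset.sum_div, Finset.sum_sub_distrib, Finset.sum_const, nsmul_eq_mul, ← he, hc0]
    field_simp
    simp
  have hyσ : ∀ σ : E ≃ₐ[F] E, σ w = w → ∀ x, σ (yv x) = yv (σ x) := by
    intro σ hσ x
    simp only [hyv, hsE]
    rw [map_div₀, map_sub, hc0σ σ hσ, AlgEquiv.commutes]
  have hκf : c.κ f = f := c.κ_of_real hf
  have hκy : c.κ (yv f) = yv f := by rw [hyσ c.κ hw, hκf]
  obtain ⟨ρ, hρ⟩ := c.real_of_κ hκy
  have hρn : |ρ| ≤ n := by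
    rw [← c.v_real hρ]; exact hyn f hfO
  let I : E → Prop := fun x => ∀ k : ℕ, (k : R) * c.v (yv x - yv f) < 1
  set J : Finset E := O.filter I with hJ
  have hJne : ∃ x ∈ O, ¬ I x := by
    by_contra hcon
    push Not at hcon
    have h1 : ∀ x ∈ O, ((3 * n : ℕ) : R) * c.v (yv x - yv f) < 1 := fun x hx => hcon x hx _
    have h2 : (e : E) * yv f = ∑ x ∈ O, (yv f - yv x) := by
      rw [Finset.sum_sub_distrib, hsum0, Finset.sum_const, nsmul_eq_mul, sub_zero]
    have h3 : (e : R) * c.v (yv f) ≤ ∑ x ∈ O, c.v (yv f - yv x) := by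
      rw [← c.v_nat, ← map_mul, h2]
      exact c.v.sum_le _ _
    have h4 : ((3 * n : ℕ) : R) * ∑ x ∈ O, c.v (yv f - yv x) ≤ e := by
      rw [Finset.mul_sum]
      calc ∑ x ∈ O, ((3 * n : ℕ) : R) * c.v (yv f - yv x) ≤ ∑ x ∈ O, (1 : R) := by
            apply Finset.sum_le_sum
            intro x hx
            rw [c.v.map_sub]
            exact (h1 x hx).le
        _ = e := by rw [Finset.sum_const, nsmul_eq_mul, mul_one]
    have h5 : ((3 * n : ℕ) : R) * c.v (yv f) ≤ 1 := by
      have h6 : (0 : R) ≤ ((3 * n : ℕ) : R) := Nat.cast_nonneg _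
      have h7 := mul_le_mul_of_nonneg_left h3 h6
      have h8 : (e : R) * (((3 * n : ℕ) : R) * c.v (yv f)) ≤ e * 1 := by
        calc (e : R) * (((3 * n : ℕ) : R) * c.v (yv f))
            = ((3 * n : ℕ) : R) * (e * c.v (yv f)) := by ring
          _ ≤ _ := h7.trans h4
          _ = e * 1 := by ring
      exact le_of_mul_le_mul_left h8 (by linarith)
    have h6 := h1 x0 hx0
    have h7 := hsub' (yv x0) (yv f)
    have h8 : (0 : R) ≤ ((3 * n : ℕ) : R) := Nat.cast_nonneg _
    have h9 := mul_le_mul_of_nonneg_left h7 h8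
    push_cast at *
    nlinarith
  have hJlt : J.card < e := by
    obtain ⟨x, hx, hx'⟩ := hJne
    apply Finset.card_lt_card
    rw [Finset.ssubset_iff_of_subset (Finset.filter_subset _ _)]
    exact ⟨x, hx, fun h => hx' (Finset.mem_filter.1 h).2⟩
  -- uniform separation
  obtain ⟨m, hm0, hm⟩ : ∃ m : ℕ, 0 < m ∧ ∀ x ∈ O, ¬ I x → 1 ≤ m * c.v (yv x - yv f) := by
    have h1 : ∀ x, ∃ k : ℕ, ¬ I x → 1 ≤ (k : R) * c.v (yv x - yv f) := by
      intro x
      by_cases h : I x
      · exact ⟨0, fun h' => absurd h h'⟩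
      · have h2 : ∃ k : ℕ, 1 ≤ (k : R) * c.v (yv x - yv f) := by
          by_contra h3
          push Not at h3
          exact h h3
        obtain ⟨k, hk⟩ := h2
        exact ⟨k, fun _ => hk⟩
    choose k hk using h1
    refine ⟨1 + ∑ x ∈ O, k x, by omega, ?_⟩
    intro x hx hxI
    have h2 := hk x hxI
    have h3 : k x ≤ ∑ x ∈ O, k x := Finset.single_le_sum (fun _ _ => Nat.zero_le _) hx
    have h4 : (k x : R) ≤ ((1 + ∑ x ∈ O, k x : ℕ) : R) := by exact_mod_cast (by omega)
    exact h2.trans (mul_le_mul_of_nonneg_right h4 (c.v.nonneg _))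
  -- the rational point and the bump function
  set M : ℕ := 2 * m * (8 * e + 1) with hM
  set N : ℕ := 8 * e * M with hN
  have he0 : 0 < e := by omega
  have hM0 : 0 < M := by positivity
  have hN0 : 0 < N := by positivity
  have hmR : (0 : R) < m := by exact_mod_cast hm0
  have hMR : (0 : R) < M := by exact_mod_cast hM0
  have hNR : (0 : R) < N := by exact_mod_cast hN0
  obtain ⟨j, hj1, hj2⟩ := exists_int_floor ((N : R) * ρ) (N * n) (by
    rw [abs_mul, abs_of_pos hNR]; push_cast; exact mul_le_mul_of_nonneg_left hρn hNR.le)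
  set q : E := (j : E) / (N : E) with hq
  have hvq : (N : R) * c.v (yv f - q) ≤ 1 := by
    have h1 : c.ι (yv f - q) = algebraMap R C (ρ - j / N) := by
      simp only [hq, map_sub, map_div₀, map_intCast, map_natCast, hρ]
    rw [c.v_real h1, ← abs_of_pos hNR, ← abs_mul, abs_of_pos hNR]
    have h2 : (N : R) * (ρ - j / N) = N * ρ - j := by field_simp
    rw [h2, abs_le]
    constructor <;> linarith
  have hqσ : ∀ σ : E ≃ₐ[F] E, σ q = q := by
    intro σ; simp only [hq, map_div₀, map_intCast, map_natCast]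
  set u : E → E := fun x => (M : E) ^ 2 * (yv x - q) ^ 2 with hu
  have hvu : ∀ x, c.v (u x) = (M : R) ^ 2 * c.v (yv x - q) ^ 2 := by
    intro x
    simp only [hu, map_mul, map_pow, c.v_nat]
  set h : E → E := fun x => (1 + u x)⁻¹ with hh
  have hhσ : ∀ σ : E ≃ₐ[F] E, σ w = w → ∀ x, σ (h x) = h (σ x) := by
    intro σ hσ x
    simp only [hh, hu, map_inv₀, map_add, map_one, map_mul, map_pow, map_natCast, map_sub,
      hyσ σ hσ, hqσ]
  have hNM : (N : R) = 8 * e * M := by rw [hN]; push_cast; ring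
  have hMm : (M : R) = 2 * m * (8 * e + 1) := by rw [hM]; push_cast; ring
  have hv1 : c.v (1 : E) = 1 := map_one _
  have hon : ∀ x, I x → c.v (h x - 1) ≤ 1 / (8 * e) := by
    intro x hx
    have h1 : (N : R) * c.v (yv x - q) ≤ 2 := by
      have h2 := hx N
      have h3 : c.v (yv x - q) ≤ c.v (yv x - yv f) + c.v (yv f - q) := by
        have : yv x - q = (yv x - yv f) + (yv f - q) := by ring
        rw [this]
        exact c.v.add_le _ _
      have h4 := mul_le_mul_of_nonneg_left h3 hNR.le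
      linarith
    have h2 : (8 * e : R) * (M * c.v (yv x - q)) ≤ 2 := by
      rw [hNM] at h1; linarith
    have h3 : (M : R) * c.v (yv x - q) ≤ 1 / (4 * e) := by
      rw [le_div_iff₀ (by positivity)]; linarith
    have h4 : c.v (u x) ≤ 1 / (16 * e) := by
      rw [hvu, ← mul_pow]
      have h5 : 0 ≤ (M : R) * c.v (yv x - q) := mul_nonneg hMR.le (c.v.nonneg _)
      calc ((M : R) * c.v (yv x - q)) ^ 2 ≤ (1 / (4 * e)) ^ 2 := pow_le_pow_left₀ h5 h3 2
        _ = 1 / (16 * e) * (1 / e) := by field_simp; norm_num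
        _ ≤ 1 / (16 * e) * 1 := by
            apply mul_le_mul_of_nonneg_left _ (by positivity)
            rw [div_le_one (by linarith)]; linarith
        _ = _ := mul_one _
    have h5 : 1 / (16 * (e : R)) ≤ 1 / 2 := by
      apply one_div_le_one_div_of_le (by norm_num); linarith
    have h6 : 1 / 2 ≤ c.v (1 + u x) := by
      have h7 := hsub' 1 (-(u x))
      rw [c.v.map_neg, hv1, sub_neg_eq_add] at h7
      linarith
    have h7 : 1 + u x ≠ 0 := by
      intro h8
      rw [h8, map_zero] at h6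
      linarith
    have h8 : (h x - 1) * (1 + u x) = - u x := by
      simp only [hh]
      rw [sub_mul, inv_mul_cancel₀ h7]; ring
    have h9 : c.v (h x - 1) * c.v (1 + u x) = c.v (u x) := by
      rw [← map_mul, h8, c.v.map_neg]
    have h10 : c.v (h x - 1) * (1 / 2) ≤ c.v (u x) := by
      rw [← h9]; exact mul_le_mul_of_nonneg_left h6 (c.v.nonneg _)
    have h11 : (1 : R) / (8 * e) = 2 * (1 / (16 * e)) := by field_simp; norm_num
    rw [h11]; linarith
  have hoff : ∀ x ∈ O, ¬ I x → c.v (h x) ≤ 1 / (8 * e) := by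
    intro x hxO hx
    have h1 := hm x hxO hx
    have h2 : c.v (yv x - yv f) ≤ c.v (yv x - q) + c.v (yv f - q) := by
      have : yv x - yv f = (yv x - q) - (yv f - q) := by ring
      rw [this]
      exact hsub _ _
    have h3 : (m : R) * c.v (yv f - q) ≤ 1 / 2 := by
      have h4 : 2 * (m : R) ≤ N := by
        rw [hNM, hMm]
        have : (1 : R) ≤ 8 * e * (8 * e + 1) := by nlinarith
        nlinarith
      have h5 := mul_le_mul_of_nonneg_right h4 (c.v.nonneg (yv f - q))
      linarith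
    have h4 : 1 / 2 ≤ (m : R) * c.v (yv x - q) := by
      have := mul_le_mul_of_nonneg_left h2 hmR.le
      linarith
    have h5 : (8 * e + 1 : R) ≤ (M : R) * c.v (yv x - q) := by
      rw [hMm]
      have : (2 * (m : R) * (8 * e + 1)) * c.v (yv x - q)
          = (8 * e + 1) * (2 * (m * c.v (yv x - q))) := by ring
      rw [this]
      have h6 : (1 : R) ≤ 2 * (m * c.v (yv x - q)) := by linarith
      exact le_mul_of_one_le_right (by linarith) h6
    have h6 : (8 * e + 1 : R) ≤ c.v (u x) := by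
      rw [hvu, ← mul_pow]
      nlinarith
    have h7 : (8 * e : R) ≤ c.v (1 + u x) := by
      have h8 := hsub (1 + u x) 1
      rw [hv1] at h8
      have h9 : 1 + u x - 1 = u x := by ring
      rw [h9] at h8
      linarith
    simp only [hh]
    rw [map_inv₀, one_div]
    exact inv_anti₀ (by positivity) h7
  have hκI : ∀ σ : E ≃ₐ[F] E, σ = c.κ → ∀ x ∈ J, σ x ∈ J := by
    rintro σ rfl x hx
    rw [hJ, Finset.mem_filter] at hx ⊢
    refine ⟨hperm _ hw x hx.1, ?_⟩
    intro k
    have h1 : yv (c.κ x) - yv f = c.κ (yv x - yv f) := by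
      rw [map_sub, hyσ _ hw, hκy]
    rw [h1, c.v_κ]
    exact hx.2 k
  set z : E := ∑ x ∈ J, h x with hz
  have hκz : c.κ z = z := by
    rw [hz, map_sum]
    rw [Finset.sum_congr rfl (fun x _ => hhσ c.κ hw x)]
    exact sum_perm_algEquiv J c.κ (hκI _ rfl) h
  obtain ⟨r, hr⟩ := c.real_of_κ hκz
  have hfJ : f ∈ J := by
    rw [hJ, Finset.mem_filter]
    refine ⟨hfO, fun k => ?_⟩
    rw [sub_self, map_zero, mul_zero]
    exact one_pos
  have hmain : ∀ σ : E ≃ₐ[F] E, σ w = w →
      (σ z = z ∧ σ f ∈ J) ∨ 3 / 4 ≤ c.v (σ z - z) := by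
    intro σ hσ
    by_cases hall : ∀ x ∈ J, σ x ∈ J
    · left
      refine ⟨?_, hall f hfJ⟩
      rw [hz, map_sum]
      rw [Finset.sum_congr rfl (fun x _ => hhσ σ hσ x)]
      exact sum_perm_algEquiv J σ hall h
    · right
      push Not at hall
      obtain ⟨x1, hx1, hx1'⟩ := hall
      set B : Finset E := J.filter (fun x => ¬ I (σ x)) with hB
      have hBpos : 1 ≤ B.card := by
        rw [Nat.one_le_iff_ne_zero, ← Nat.pos_iff_ne_zero, Finset.card_pos]
        refine ⟨x1, ?_⟩
        rw [hB, Finset.mem_filter]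
        refine ⟨hx1, fun hI => hx1' ?_⟩
        rw [hJ, Finset.mem_filter]
        exact ⟨hperm σ hσ x1 (Finset.mem_filter.1 hx1).1, hI⟩
      have h1 : σ z - z = ∑ x ∈ J, (((h (σ x) - if I (σ x) then 1 else 0) - (h x - 1)))
          - (B.card : E) := by
        have h2 : (B.card : E) = ∑ x ∈ J, (if ¬ I (σ x) then (1 : E) else 0) := by
          rw [Finset.sum_boole]
        rw [h2, ← Finset.sum_sub_distrib, hz, map_sum, ← Finset.sum_sub_distrib]
        apply Finset.sum_congr rfl
        intro x _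
        rw [hhσ σ hσ]
        by_cases hI : I (σ x)
        · rw [if_pos hI, if_neg (not_not.2 hI)]; ring
        · rw [if_neg hI, if_pos hI]; ring
      have h2 : c.v (∑ x ∈ J, (((h (σ x) - if I (σ x) then 1 else 0) - (h x - 1)))) ≤ 1 / 4 := by
        calc _ ≤ ∑ x ∈ J, c.v ((h (σ x) - if I (σ x) then 1 else 0) - (h x - 1)) :=
              c.v.sum_le _ _
          _ ≤ ∑ x ∈ J, (1 / (8 * e) + 1 / (8 * e) : R) := by
              apply Finset.sum_le_sum
              intro x hx
              rw [hJ, Finset.mem_filter] at hx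
              refine (hsub _ _).trans (add_le_add ?_ (hon x hx.2))
              by_cases hI : I (σ x)
              · rw [if_pos hI]; exact hon _ hI
              · rw [if_neg hI, sub_zero]; exact hoff _ (hperm σ hσ x hx.1) hI
          _ = J.card * (1 / (8 * e) + 1 / (8 * e)) := by rw [Finset.sum_const, nsmul_eq_mul]
          _ ≤ e * (1 / (8 * e) + 1 / (8 * e)) := by
              apply mul_le_mul_of_nonneg_right _ (by positivity)
              exact_mod_cast hJlt.le
          _ = 1 / 4 := by field_simp; norm_num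
      have h3 : (1 : R) ≤ c.v (B.card : E) := by
        rw [c.v_nat]; exact_mod_cast hBpos
      have h4 := hsub (∑ x ∈ J, (((h (σ x) - if I (σ x) then 1 else 0) - (h x - 1)))) (σ z - z)
      have h5 : ∑ x ∈ J, (((h (σ x) - if I (σ x) then 1 else 0) - (h x - 1))) - (σ z - z)
          = (B.card : E) := by rw [h1]; ring
      rw [h5] at h4
      linarith
  refine ⟨z, r, 2 * e, hr, ?_, ?_, J, hJlt, ?_⟩
  · rw [← c.v_real hr]
    calc c.v z ≤ ∑ x ∈ J, c.v (h x) := c.v.sum_le _ _
      _ ≤ ∑ x ∈ J, (2 : R) := by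
          apply Finset.sum_le_sum
          intro x hx
          rw [hJ, Finset.mem_filter] at hx
          have h1 := hsub' (h x) 1
          have h2 := hon x hx.2
          have h3 : 1 / (8 * (e : R)) ≤ 1 := by
            rw [div_le_one (by positivity)]; linarith
          linarith
      _ = J.card * 2 := by rw [Finset.sum_const, nsmul_eq_mul]
      _ ≤ ((2 * e : ℕ) : R) := by
          push_cast
          have : (J.card : R) ≤ e := by exact_mod_cast hJlt.le
          linarith
  · intro σ hσ hne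
    rcases hmain σ hσ with h1 | h1
    · exact absurd h1.1 hne
    · push_cast
      linarith
  · intro σ hσ heq
    rcases hmain σ hσ with h1 | h1
    · exact h1.2
    · rw [heq, sub_self, map_zero] at h1
      linarith

end Steps

end Pool.Agent.RSV
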