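import Pool.Agent.RSV.Specs
import Pool.Agent.RSV.CTSteps

/-!
# CT: the structure theorem for elements algebraic over a real field
-/

namespace Pool.Agent.RSV

universe v

open Polynomial IntermediateField

section Ind

variable {R C E F : Type v} [Field R] [LinearOrder R] [IsStrictOrderedRing R]
    [Field C] [Algebra R C] [Field E] [Field F] [Algebra F E] [CharZero E]
    (c : CTCtx R C E F)

/-- The induction: `f ∈ F(w)` for an isolated `w`. -/
theorem ct_induct [Algebra.IsAlgebraic F E] (f : E) (rf : R)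
    (hf : c.ι f = algebraMap R C rf)
    (hsc : ∀ O : Finset E, (∀ x ∈ O, ∃ σ : E ≃ₐ[F] E, σ f = x) → ∀ x ∈ O,
      x - (∑ y ∈ O, y) / O.card ≠ 0 →
      ∃ (s : F) (n : ℕ), c.v (x - (∑ y ∈ O, y) / O.card) ≤ n * |c.φ s| ∧
        |c.φ s| ≤ n * c.v (x - (∑ y ∈ O, y) / O.card)) (e : ℕ) :
    ∀ (w : E) (r : R) (n m : ℕ), c.ι w = algebraMap R C r → |r| ≤ n → 0 < m →
      (∀ σ : E ≃ₐ[F] E, σ w ≠ w → 1 ≤ m * c.v (σ w - w)) →
      (∃ O : Finset E, (∀ x, x ∈ O ↔ ∃ σ : E ≃ₐ[F] E, σ w = w ∧ σ f = x) ∧ O.card ≤ e) →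
      ∃ (w' : E) (r' : R) (n' m' : ℕ), c.ι w' = algebraMap R C r' ∧ |r'| ≤ n' ∧ 0 < m' ∧
        (∀ σ : E ≃ₐ[F] E, σ w' ≠ w' → 1 ≤ m' * c.v (σ w' - w')) ∧
        ∀ σ : E ≃ₐ[F] E, σ w' = w' → σ f = f := by
  classical
  induction e with
  | zero =>
    rintro w r n m - - - - ⟨O, hO, hcard⟩
    exfalso
    have h1 : f ∈ O := (hO f).2 ⟨AlgEquiv.refl, rfl, rfl⟩
    have := Finset.card_pos.2 ⟨f, h1⟩
    omega
  | succ e ih =>
    rintro w r n m hwr hr hm hiso ⟨O, hO, hcard⟩
    have hfO : f ∈ O := (hO f).2 ⟨AlgEquiv.refl, rfl, rfl⟩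
    by_cases h1 : O.card ≤ 1
    · refine ⟨w, r, n, m, hwr, hr, hm, hiso, ?_⟩
      intro σ hσ
      exact Finset.card_le_one.1 h1 _ ((hO _).2 ⟨σ, hσ, rfl⟩) _ hfO
    · have h2 : 2 ≤ O.card := by omega
      obtain ⟨z, rz, nz, hz, hrz, hziso, J, hJ, hJf⟩ := ct_stepC c w (c.κ_of_real hwr) f rf hf O hO
        h2 (hsc O (fun x hx => by
          obtain ⟨σ, _, h⟩ := (hO x).1 hx
          exact ⟨σ, h⟩))
      obtain ⟨y, s, n', hy, hs4, hsn, hyw, hwy, hy1, -⟩ := ct_stepA c w r hwr n m hr hm hiso 4
        (by norm_num)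
      have habs := abs_le.1 hrz
      obtain ⟨w', r', n'', m'', h3, h4, h5, h6, h7⟩ := ct_stepB c y (z + (nz + 1 : ℕ)) s
        (rz + (nz + 1 : ℕ)) (n' + (2 * nz + 1)) 2 hy (by simp [hz]) (by exact_mod_cast hs4)
        (by push_cast; have : (0 : R) ≤ nz := Nat.cast_nonneg _; linarith)
        (by push_cast; linarith [habs.1])
        (by push_cast; have : (0 : R) ≤ n' := Nat.cast_nonneg _; linarith [habs.2])
        (fun σ hσ => hy1 σ (fun h => hσ (hwy σ h)))
        (fun σ hσ hne => by
          have h8 : σ z ≠ z := by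
            intro h
            apply hne
            rw [map_add, map_natCast, h]
          have h9 := hziso σ (hyw σ hσ) h8
          rw [map_add, map_natCast, add_sub_add_right_eq_sub]
          exact h9)
      have hst : ∀ σ : E ≃ₐ[F] E, σ w' = w' → σ w = w ∧ σ z = z := by
        intro σ hσ
        obtain ⟨h8, h9⟩ := h7 σ hσ
        rw [map_add, map_natCast] at h9
        exact ⟨hyw σ h8, add_right_cancel h9⟩
      refine ih w' r' n'' m'' h3 h4 h5 h6
        ⟨O.filter (fun x => ∃ σ : E ≃ₐ[F] E, σ w' = w' ∧ σ f = x), ?_, ?_⟩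
      · intro x
        rw [Finset.mem_filter]
        constructor
        · exact fun h => h.2
        · rintro ⟨σ, h8, h9⟩
          exact ⟨(hO x).2 ⟨σ, (hst σ h8).1, h9⟩, σ, h8, h9⟩
      · have h8 : (O.filter (fun x => ∃ σ : E ≃ₐ[F] E, σ w' = w' ∧ σ f = x)) ⊆ J := by
          intro x hx
          rw [Finset.mem_filter] at hx
          obtain ⟨-, σ, h9, rfl⟩ := hx
          exact hJf σ (hst σ h9).1 (hst σ h9).2
        have := Finset.card_le_card h8
        omega

omit [CharZero E] in
theorem ct_eval (p : F[X]) (y : E) (s : R) (hy : c.ι y = algebraMap R C s) :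
    c.ι (aeval y p) = algebraMap R C ((p.map c.φ).eval s) := by
  have h1 : c.ι.comp (algebraMap F E) = (algebraMap R C).comp c.φ := by
    ext a; exact c.hφ a
  rw [aeval_def, hom_eval₂, h1, hy, eval_map, hom_eval₂]

end Ind

/-- coefficients of polynomials with small roots -/
theorem coeff_prod_bound {C R : Type*} [Field C] [Field R] [LinearOrder R]
    [IsStrictOrderedRing R] (nm : AbsoluteValue C R) (S : Multiset C) (hS : ∀ x ∈ S, nm x ≤ 1) :
    ∀ i, nm ((S.map (fun x => X - Polynomial.C x)).prod.coeff i) ≤ 2 ^ S.card := by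
  induction S using Multiset.induction_on with
  | empty =>
    intro i
    simp only [Multiset.map_zero, Multiset.prod_zero, Multiset.card_zero, pow_zero]
    rw [coeff_one]
    split_ifs
    · simp
    · simp
  | cons a S ih =>
    intro i
    have ih' := ih (fun x hx => hS x (Multiset.mem_cons_of_mem hx))
    have ha : nm a ≤ 1 := hS a (Multiset.mem_cons_self a S)
    rw [Multiset.map_cons, Multiset.prod_cons, Multiset.card_cons, sub_mul, coeff_sub,
      coeff_C_mul]
    set Q := (S.map (fun x => X - Polynomial.C x)).prod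
    have h1 : nm (a * Q.coeff i) ≤ 2 ^ S.card := by
      rw [map_mul]
      calc nm a * nm (Q.coeff i) ≤ 1 * nm (Q.coeff i) :=
            mul_le_mul_of_nonneg_right ha (nm.nonneg _)
        _ ≤ 2 ^ S.card := by rw [one_mul]; exact ih' i
    have h2 : nm ((X * Q).coeff i) ≤ 2 ^ S.card := by
      rcases i with _ | i
      · rw [coeff_X_mul_zero, map_zero]; positivity
      · rw [coeff_X_mul]; exact ih' i
    have h3 := nm.add_le ((X * Q).coeff i) (-(a * Q.coeff i))
    rw [nm.map_neg, ← sub_eq_add_neg] at h3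
    rw [pow_succ]
    linarith

section Final

variable {R C E F : Type v} [Field R] [LinearOrder R] [IsStrictOrderedRing R]
    [Field C] [Algebra R C] [Field E] [Field F] [Algebra F E] [CharZero E]
    (c : CTCtx R C E F)

theorem ct_final [IsGalois F E] (f : E) (rf : R) (hf : c.ι f = algebraMap R C rf)
    (hsc : ∀ O : Finset E, (∀ x ∈ O, ∃ σ : E ≃ₐ[F] E, σ f = x) → ∀ x ∈ O,
      x - (∑ y ∈ O, y) / O.card ≠ 0 →
      ∃ (s : F) (n : ℕ), c.v (x - (∑ y ∈ O, y) / O.card) ≤ n * |c.φ s| ∧
        |c.φ s| ≤ n * c.v (x - (∑ y ∈ O, y) / O.card)) :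
    ∃ (d n : ℕ) (w : R) (γ a : ℕ → R), 1 ≤ d ∧ γ 0 = -1 ∧ γ d = 0 ∧
      (∀ k ≤ d, |γ k| ≤ 2 ^ d) ∧ 2 ^ (d + 5) ≤ w ∧ w ≤ n ∧
      (∀ k, 1 ≤ k → k ≤ d → ∃ b : F, c.φ b = γ k - w * γ (k - 1)) ∧
      (∀ k, ∃ b : F, c.φ b = a k) ∧ rf = ∑ k ∈ Finset.range d, a k * w ^ k := by
  classical
  -- an isolated `w` with `f ∈ F(w)`
  obtain ⟨w, r, n, m, hw, hr, hm, hiso, hwf⟩ := ct_induct c f rf hf hsc (cjs F f).card 1 1 1 1
    (by simp) (by simp) one_pos (fun σ h => absurd (map_one σ) h)
    ⟨(cjs F f).filter (fun x => ∃ σ : E ≃ₐ[F] E, σ 1 = 1 ∧ σ f = x), by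
      intro x
      rw [Finset.mem_filter]
      constructor
      · exact fun h => h.2
      · rintro ⟨σ, h1, rfl⟩
        exact ⟨mem_cjs f σ, σ, h1, rfl⟩, Finset.card_filter_le _ _⟩
  set d0 := (minpoly F w).natDegree with hd0
  obtain ⟨y, s, n', hy, hs, hsn, hyw, hwy, hy1, hmem⟩ := ct_stepA c w r hw n m hr hm hiso
    (2 ^ (d0 + 5)) Nat.one_le_two_pow
  have hiw : IsIntegral F w := Algebra.IsIntegral.isIntegral w
  have hiy : IsIntegral F y := Algebra.IsIntegral.isIntegral y
  set d := (minpoly F y).natDegree with hd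
  have hd1 : 1 ≤ d := minpoly.natDegree_pos hiy
  have hdd : d ≤ d0 := by
    rw [hd, hd0, ← IntermediateField.adjoin.finrank hiw, ← IntermediateField.adjoin.finrank hiy]
    have : FiniteDimensional F F⟮w⟯ := adjoin.finiteDimensional hiw
    exact IntermediateField.finrank_le_of_le_right (adjoin_simple_le_iff.2 hmem)
  have hs' : (2 : R) ^ (d0 + 5) ≤ s := by exact_mod_cast hs
  have h25 : (2 : R) ^ (d + 5) ≤ s :=
    (pow_le_pow_right₀ (by norm_num) (by omega)).trans hs'
  have hs1 : (1 : R) < s := lt_of_lt_of_le (one_lt_pow₀ (by norm_num) (by omega)) h25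
  -- `f ∈ F(y)`
  have hfy : f ∈ F⟮y⟯ := by
    rw [← InfiniteGalois.fixedField_fixingSubgroup F⟮y⟯, mem_fixedField_iff]
    intro σ hσ
    rw [IntermediateField.mem_fixingSubgroup_iff] at hσ
    exact hwf σ (hyw σ (hσ y (mem_adjoin_simple_self F y)))
  obtain ⟨p, hp⟩ : ∃ p : F[X], aeval y p = f := by
    have h1 : f ∈ F⟮y⟯.toSubalgebra := hfy
    rw [adjoin_simple_toSubalgebra_of_isAlgebraic hiy.isAlgebraic,
      Algebra.adjoin_singleton_eq_range_aeval] at h1
    exact h1
  set p' := p %ₘ minpoly F y with hp'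
  have hp'd : p'.natDegree < d :=
    natDegree_modByMonic_lt p (minpoly.monic hiy) (minpoly.ne_one F y)
  have hp'f : aeval y p' = f := by
    rw [hp', aeval_modByMonic_eq_self_of_root (minpoly.aeval F y), hp]
  -- the minimal polynomial over `R`
  set P : R[X] := (minpoly F y).map c.φ with hP
  have hPmonic : P.Monic := (minpoly.monic hiy).map _
  have hPdeg : P.natDegree = d := (minpoly.monic hiy).natDegree_map _
  have hroot : P.IsRoot s := by
    have h1 := ct_eval c (minpoly F y) y s hy
    rw [minpoly.aeval, map_zero] at h1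
    exact (algebraMap R C).injective (by rw [← h1, map_zero])
  set G : R[X] := P /ₘ (X - Polynomial.C s) with hG
  have hPG : (X - Polynomial.C s) * G = P := mul_divByMonic_eq_iff_isRoot.2 hroot
  have hGmonic : G.Monic := by
    have : ((X - Polynomial.C s) * G).Monic := by rw [hPG]; exact hPmonic
    exact (monic_X_sub_C s).of_mul_monic_left this
  have hGdeg : G.natDegree = d - 1 := by
    have h1 := (monic_X_sub_C s).natDegree_mul hGmonic
    rw [hPG, hPdeg, natDegree_X_sub_C] at h1
    omega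
  -- the roots of `G` in `C`
  have hsplitE : ((minpoly F y).map (algebraMap F E)).Splits := Normal.splits inferInstance y
  set PC : C[X] := P.map (algebraMap R C) with hPC
  have hPCeq : PC = ((minpoly F y).map (algebraMap F E)).map c.ι := by
    rw [hPC, hP, Polynomial.map_map, Polynomial.map_map]
    congr 1
    ext a
    exact (c.hφ a).symm
  have hPCroots : PC.roots = ((minpoly F y).map (algebraMap F E)).roots.map c.ι := by
    rw [hPCeq, hsplitE.roots_map]
  have hPCsplit : PC.Splits := by rw [hPCeq]; exact hsplitE.map _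
  have hsep : PC.Separable := by
    rw [hPCeq]
    have h1 : (minpoly F y).Separable := Algebra.IsSeparable.isSeparable F y
    exact (h1.map).map
  set GC : C[X] := G.map (algebraMap R C) with hGC
  have hPGC : (X - Polynomial.C (algebraMap R C s)) * GC = PC := by
    rw [hPC, ← hPG, Polynomial.map_mul, Polynomial.map_sub, map_X, map_C]
  have hPC0 : PC ≠ 0 := (hPmonic.map _).ne_zero
  have hGC0 : GC ≠ 0 := (hGmonic.map _).ne_zero
  have hGCsplit : GC.Splits := hPCsplit.of_dvd hPC0 ⟨X - Polynomial.C (algebraMap R C s), by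
    rw [← hPGC]; ring⟩
  have hrootsGC : PC.roots = {algebraMap R C s} + GC.roots := by
    rw [← hPGC, roots_mul (by rw [hPGC]; exact hPC0), roots_X_sub_C]
  have hnodup : PC.roots.Nodup := nodup_roots hsep
  have hsmall : ∀ x ∈ GC.roots, c.K.nm x ≤ 1 := by
    intro x hx
    have h1 : x ∈ PC.roots := by
      rw [hrootsGC]; exact Multiset.mem_add.2 (Or.inr hx)
    have h2 : x ≠ algebraMap R C s := by
      rintro rfl
      rw [hrootsGC, Multiset.singleton_add, Multiset.nodup_cons] at hnodup
      exact hnodup.1 hx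
    rw [hPCroots, Multiset.mem_map] at h1
    obtain ⟨x', hx', rfl⟩ := h1
    rw [mem_roots', IsRoot.def, eval_map_algebraMap] at hx'
    obtain ⟨σ, hσ⟩ := minpoly.exists_algEquiv_of_root' hiy.isAlgebraic hx'.2
    rw [← hσ]
    apply hy1 σ
    intro h3
    apply h2
    rw [← hσ, hwy σ h3, hy]
  have hcoef : ∀ i, |G.coeff i| ≤ 2 ^ (d - 1) := by
    intro i
    have h1 := coeff_prod_bound c.K.nm GC.roots hsmall i
    have h2 : (GC.roots.map (fun x => X - Polynomial.C x)).prod = GC :=
      (hGCsplit.eq_prod_roots_of_monic (hGmonic.map _)).symm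
    rw [h2, hGC, coeff_map, c.K.nm_real] at h1
    refine h1.trans (pow_le_pow_right₀ (by norm_num) ?_)
    have h3 := card_roots' GC
    rw [hGC, hGmonic.natDegree_map, hGdeg] at h3
    exact h3
  have hPcoeff : ∀ k, P.coeff (k + 1) = G.coeff k - s * G.coeff (k + 1) := by
    intro k
    rw [← hPG, sub_mul, coeff_sub, coeff_X_mul, coeff_C_mul]
  have hPcoeff0 : P.coeff 0 = - (s * G.coeff 0) := by
    rw [← hPG, sub_mul, coeff_sub, coeff_X_mul_zero, coeff_C_mul, zero_sub]
  refine ⟨d, n', s, fun k => if k < d then - G.coeff (d - 1 - k) else 0,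
    fun k => c.φ (p'.coeff k), hd1, ?_, ?_, ?_, h25, hsn, ?_, fun k => ⟨_, rfl⟩, ?_⟩
  · have : G.coeff (d - 1) = 1 := by rw [← hGdeg]; exact hGmonic
    simp only [if_pos (show 0 < d by omega), Nat.sub_zero, this]
  · simp
  · intro k _
    have h2 : (2 : R) ^ (d - 1) ≤ 2 ^ d := pow_le_pow_right₀ (by norm_num) (by omega)
    by_cases hk : k < d
    · simp only [if_pos hk, abs_neg]
      exact (hcoef _).trans h2
    · simp only [if_neg hk, abs_zero]
      positivity
  · intro k hk1 hk
    refine ⟨- (minpoly F y).coeff (d - k), ?_⟩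
    have h1 : c.φ ((minpoly F y).coeff (d - k)) = P.coeff (d - k) := by rw [hP, coeff_map]
    rw [map_neg, h1]
    beta_reduce
    rw [if_pos (show k - 1 < d by omega)]
    have h2 : d - 1 - (k - 1) = d - k := by omega
    rw [h2]
    rcases hk.lt_or_eq with hlt | rfl
    · rw [if_pos hlt]
      obtain ⟨j, hj⟩ : ∃ j, d - k = j + 1 := ⟨d - k - 1, by omega⟩
      have h3 : d - 1 - k = j := by omega
      rw [h3, hj, hPcoeff]; ring
    · rw [if_neg (lt_irrefl _), Nat.sub_self, hPcoeff0]; ring
  · apply (algebraMap R C).injective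
    rw [← hf, ← hp'f, aeval_eq_sum_range' hp'd, map_sum, map_sum]
    apply Finset.sum_congr rfl
    intro i _
    rw [Algebra.smul_def, map_mul, map_mul, map_pow, map_pow, c.hφ, hy]

end Final

/-- `CT` from the complexification -/
theorem ct_of_cx (hCx : Stmt_Cx.{v}) : Stmt_CT.{v} := by
  intro R _ _ _ _ K L hKL hscale f hfalg
  classical
  obtain ⟨C, _, _, _, i, hi, hu⟩ := hCx R
  obtain ⟨kit⟩ := exists_cxKit i hi hu
  have hLC : CharZero C := charZero_of_injective_algebraMap (algebraMap R C).injective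
  let E := algebraicClosure L C
  have hEcl : IsAlgClosure L E := algebraicClosure.isAlgClosure L C
  have hnormal : Normal L E := IsAlgClosure.normal L E
  have hgal : IsGalois L E := { }
  have hE0 : CharZero E := charZero_of_injective_algebraMap (algebraMap L E).injective
  let κC : C ≃ₐ[L] C := kit.cj.restrictScalars L
  let c : CTCtx R C E L :=
    { K := kit
      ι := algebraMap E C
      φ := L.subtype
      hφ := fun a => rfl
      κ := κC.restrictNormal E
      hκ := fun x => AlgEquiv.restrictNormal_commutes κC E x }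
  -- `f` as an element of `E`
  have hfK : IsAlgebraic K (algebraMap R C f) := hfalg.algebraMap
  have hfL : IsAlgebraic L f := by
    obtain ⟨P, hP0, hP⟩ := hfalg
    refine ⟨P.map (Subfield.inclusion hKL), ?_, ?_⟩
    · exact (Polynomial.map_ne_zero_iff (Subfield.inclusion hKL).injective).2 hP0
    · rw [aeval_def, eval₂_map]
      exact hP
  have hfE : algebraMap R C f ∈ E := by
    rw [mem_algebraicClosure_iff]
    exact hfL.algebraMap
  let fE : E := ⟨algebraMap R C f, hfE⟩
  have hfι : c.ι fE = algebraMap R C f := rfl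
  have hkey := ct_final c fE f hfι ?_
  · obtain ⟨d, n, w, γ, a, h1, h2, h3, h4, h5, h6, h7, h8, h9⟩ := hkey
    refine ⟨d, n, w, γ, a, h1, h2, h3, h4, h5, h6, ?_, ?_, h9⟩
    · intro k hk1 hk
      obtain ⟨b, hb⟩ := h7 k hk1 hk
      rw [← hb]
      exact b.2
    · intro k
      obtain ⟨b, hb⟩ := h8 k
      rw [← hb]
      exact b.2
  · intro O hO x hx hne
    -- conjugates of `f` are algebraic over `K`
    have hconj : ∀ x ∈ O, IsAlgebraic K (x : C) := by
      intro x hx
      obtain ⟨σ, rfl⟩ := hO x hx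
      obtain ⟨P, hP0, hP⟩ := hfalg
      refine ⟨P, hP0, ?_⟩
      let k : K →+* E := (algebraMap L E).comp (Subfield.inclusion hKL)
      have e1 : eval₂ k fE P = 0 := by
        apply (algebraMap E C).injective
        rw [hom_eval₂, map_zero]
        have e2 : (algebraMap E C).comp k = (algebraMap R C).comp (algebraMap K R) := rfl
        have e3 : algebraMap E C fE = algebraMap R C f := rfl
        rw [e2, e3, ← hom_eval₂]
        rw [aeval_def] at hP
        rw [hP, map_zero]
      have e4 : eval₂ ((algebraMap E C).comp ((σ : E →+* E).comp k)) (algebraMap E C (σ fE)) P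
          = 0 := by
        have e5 := congrArg (algebraMap E C) (congrArg (σ : E →+* E) e1)
        rw [hom_eval₂, hom_eval₂, map_zero, map_zero] at e5
        exact e5
      have e6 : (algebraMap E C).comp ((σ : E →+* E).comp k) = algebraMap K C := by
        ext a
        have e7 : σ (algebraMap L E (Subfield.inclusion hKL a))
            = algebraMap L E (Subfield.inclusion hKL a) := σ.commutes _
        exact congrArg (algebraMap E C) e7
      rw [e6] at e4
      exact e4
    set A := algebraicClosure K C with hA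
    have hmem : ∀ z : C, z ∈ A ↔ IsAlgebraic K z := fun z => mem_algebraicClosure_iff
    set g : E := x - (∑ y ∈ O, y) / O.card with hg
    have hgC : (g : C) ∈ A := by
      have e1 : (g : C) = (x : C) - (∑ y ∈ O, (y : C)) / O.card := by
        rw [hg]; push_cast; rfl
      rw [e1]
      exact sub_mem ((hmem _).2 (hconj x hx)) (div_mem (sum_mem fun y hy => (hmem _).2 (hconj y hy))
        (_root_.natCast_mem _ _))
    have hcjA : ∀ z ∈ A, kit.cj z ∈ A := by
      intro z hz
      rw [hmem] at hz ⊢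
      have e1 : kit.cj z = (kit.cj.restrictScalars K) z := rfl
      rw [e1]
      exact hz.algHom ((kit.cj.restrictScalars K : C ≃ₐ[K] C) : C →ₐ[K] C)
    have hnm : IsAlgebraic K (kit.nm (g : C)) := by
      have e1 : algebraMap R C (kit.nm (g : C) ^ 2) ∈ A := by
        rw [← kit.mul_cj]
        exact mul_mem hgC (hcjA _ hgC)
      rw [hmem] at e1
      have e2 : IsAlgebraic K (kit.nm (g : C) ^ 2) :=
        (isAlgebraic_algebraMap_iff (algebraMap R C).injective).1 e1
      exact e2.of_pow (by norm_num)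
    have hnm0 : kit.nm (g : C) ≠ 0 := by
      intro h
      rw [kit.nm.eq_zero] at h
      apply hne
      exact Subtype.ext h
    obtain ⟨s, hs, n, h1, h2⟩ := hscale _ hnm0 hnm
    rw [abs_of_nonneg (kit.nm.nonneg _)] at h1 h2
    exact ⟨⟨s, hs⟩, n, h1, h2⟩

end Pool.Agent.RSV
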