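import Pool.Agent.RSV.Specs

/-!
# Modules CX, IVT, ROLLE: algebra of real closed fields
-/

namespace Pool.Agent.RSV

open Polynomial IntermediateField

universe u v

section RC

variable {R : Type v} [Field R] [LinearOrder R] [IsStrictOrderedRing R] [IsRealClosed R]

theorem rc_odd_finrank {K : Type v} [Field K] [Algebra R K] [FiniteDimensional R K]
    (h : Odd (Module.finrank R K)) : Module.finrank R K = 1 := by
  obtain ⟨α, hα⟩ := Field.exists_primitive_element R K
  have hint : IsIntegral R α := IsIntegral.of_finite R α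
  have h1 : Module.finrank R R⟮α⟯ = (minpoly R α).natDegree := adjoin.finrank hint
  have h2 : Module.finrank R R⟮α⟯ = Module.finrank R K := by
    rw [hα]
    exact finrank_top'
  rw [h2] at h1
  rw [h1] at h ⊢
  obtain ⟨r, hr⟩ := IsRealClosed.exists_isRoot_of_odd_natDegree h
  have h3 := degree_eq_one_of_irreducible_of_root (minpoly.irreducible hint) hr
  exact natDegree_eq_of_degree_eq_some h3

theorem rc_two_pow {K : Type v} [Field K] [Algebra R K] [FiniteDimensional R K] [IsGalois R K] :
    ∃ n : ℕ, Module.finrank R K = 2 ^ n := by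
  have hfin : Finite Gal(K/R) := inferInstance
  let P : Sylow 2 Gal(K/R) := default
  have h1 : Module.finrank (fixedField (P : Subgroup Gal(K/R))) K = Nat.card P :=
    IntermediateField.finrank_fixedField_eq_card _
  have h2 : Module.finrank R (fixedField (P : Subgroup Gal(K/R))) *
      Module.finrank (fixedField (P : Subgroup Gal(K/R))) K = Module.finrank R K :=
    Module.finrank_mul_finrank R _ K
  have h3 : Nat.card Gal(K/R) = Module.finrank R K := IsGalois.card_aut_eq_finrank R K
  have h4 : Nat.card P * (P : Subgroup Gal(K/R)).index = Nat.card Gal(K/R) :=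
    Subgroup.card_mul_index _
  have h5 : ¬ 2 ∣ (P : Subgroup Gal(K/R)).index := P.not_dvd_index
  have hP : 0 < Nat.card P := Nat.card_pos
  have h6 : Module.finrank R (fixedField (P : Subgroup Gal(K/R))) =
      (P : Subgroup Gal(K/R)).index := by
    rw [h1, ← h3, ← h4, mul_comm] at h2
    exact Nat.eq_of_mul_eq_mul_left hP h2
  have h7 : Module.finrank R (fixedField (P : Subgroup Gal(K/R))) = 1 := by
    apply rc_odd_finrank
    rw [h6, ← Nat.not_even_iff_odd, even_iff_two_dvd]
    exact h5
  obtain ⟨n, hn⟩ := IsPGroup.iff_card.mp P.2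
  refine ⟨n, ?_⟩
  rw [← h2, h7, one_mul, h1]
  exact hn

/-- The field of the elements `a + b i`. -/
def Fi {K : Type v} [Field K] [Algebra R K] (i : K) (hi : i ^ 2 = -1) :
    IntermediateField R K where
  carrier := {z | ∃ a b : R, z = algebraMap R K a + algebraMap R K b * i}
  mul_mem' := by
    rintro _ _ ⟨a, b, rfl⟩ ⟨c, d, rfl⟩
    refine ⟨a * c - b * d, a * d + b * c, ?_⟩
    rw [map_sub, map_add, map_mul, map_mul, map_mul, map_mul]
    linear_combination (algebraMap R K b * algebraMap R K d) * hi
  add_mem' := by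
    rintro _ _ ⟨a, b, rfl⟩ ⟨c, d, rfl⟩
    refine ⟨a + c, b + d, ?_⟩
    rw [map_add, map_add]
    ring
  algebraMap_mem' := by
    intro r
    refine ⟨r, 0, ?_⟩
    rw [map_zero]
    ring
  inv_mem' := by
    rintro _ ⟨a, b, rfl⟩
    by_cases h : a ^ 2 + b ^ 2 = 0
    · have ha : a = 0 := by nlinarith [sq_nonneg a, sq_nonneg b]
      have hb : b = 0 := by nlinarith [sq_nonneg a, sq_nonneg b]
      refine ⟨0, 0, ?_⟩
      rw [ha, hb, map_zero]
      simp
    · refine ⟨a / (a ^ 2 + b ^ 2), -b / (a ^ 2 + b ^ 2), ?_⟩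
      have h' : algebraMap R K a ^ 2 + algebraMap R K b ^ 2 ≠ 0 := by
        rw [← map_pow, ← map_pow, ← map_add]
        exact (_root_.map_ne_zero _).mpr h
      rw [map_div₀, map_div₀, map_neg, map_add, map_pow, map_pow]
      apply inv_eq_of_mul_eq_one_left
      field_simp
      linear_combination (- algebraMap R K b ^ 2) * hi

theorem mem_Fi {K : Type v} [Field K] [Algebra R K] {i : K} {hi : i ^ 2 = -1} {z : K} :
    z ∈ Fi (R := R) i hi ↔ ∃ a b : R, z = algebraMap R K a + algebraMap R K b * i := Iff.rfl

theorem Fi_sqrt {K : Type v} [Field K] [Algebra R K] {i : K} {hi : i ^ 2 = -1} {z : K}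
    (hz : z ∈ Fi (R := R) i hi) : ∃ w ∈ Fi (R := R) i hi, w ^ 2 = z := by
  obtain ⟨a, b, rfl⟩ := hz
  obtain ⟨r, hr⟩ := IsRealClosed.exists_eq_pow_of_nonneg (x := a ^ 2 + b ^ 2)
    (by positivity) (n := 2) (by norm_num)
  wlog hr0 : 0 ≤ r with H
  · exact H a b (-r) (by rw [hr]; ring) (by linarith [not_le.mp hr0])
  have hra : |a| ≤ r := by
    apply abs_le_of_sq_le_sq _ hr0
    nlinarith [sq_nonneg b]
  have h1 : 0 ≤ (r + a) / 2 := by linarith [neg_abs_le a]
  have h2 : 0 ≤ (r - a) / 2 := by linarith [le_abs_self a]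
  obtain ⟨s, hs⟩ := IsRealClosed.exists_eq_pow_of_nonneg h1 (n := 2) (by norm_num)
  obtain ⟨t, ht⟩ := IsRealClosed.exists_eq_pow_of_nonneg h2 (n := 2) (by norm_num)
  have h3 : (2 * s * t) ^ 2 = b ^ 2 := by
    have : (2 * s * t) ^ 2 = 4 * s ^ 2 * t ^ 2 := by ring
    rw [this, ← hs, ← ht]
    linear_combination (-1 : R) * hr
  have h4 : s ^ 2 - t ^ 2 = a := by
    rw [← hs, ← ht]
    ring
  have key : ∀ s' t' : R, s' ^ 2 - t' ^ 2 = a → 2 * s' * t' = b →
      ∃ w ∈ Fi (R := R) i hi, w ^ 2 = algebraMap R K a + algebraMap R K b * i := by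
    intro s' t' e1 e2
    refine ⟨algebraMap R K s' + algebraMap R K t' * i, ⟨s', t', rfl⟩, ?_⟩
    rw [← e1, ← e2, map_sub, map_pow, map_pow, map_mul, map_mul, map_ofNat]
    linear_combination (algebraMap R K t' ^ 2) * hi
  rcases sq_eq_sq_iff_eq_or_eq_neg.mp h3 with h5 | h5
  · exact key s t h4 h5
  · exact key s (-t) (by rw [neg_sq]; exact h4) (by linarith)

theorem rc_Fi_top {K : Type v} [Field K] [Algebra R K] [FiniteDimensional R K] [IsGalois R K]
    {i : K} (hi : i ^ 2 = -1) : Fi (R := R) i hi = ⊤ := by
  set F := Fi (R := R) i hi with hF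
  obtain ⟨n, hn⟩ := rc_two_pow (R := R) (K := K)
  have h1 : Module.finrank R F * Module.finrank F K = Module.finrank R K :=
    Module.finrank_mul_finrank R F K
  have h2 : Module.finrank F K ∣ 2 ^ n := by
    rw [← hn, ← h1]
    exact dvd_mul_left _ _
  obtain ⟨m, -, hm⟩ := (Nat.dvd_prime_pow Nat.prime_two).mp h2
  rcases m with _ | m
  · rw [pow_zero] at hm
    exact finrank_eq_one_iff_eq_top.mp hm
  · exfalso
    have hG : IsGalois F K := inferInstance
    have h3 : Nat.card Gal(K/F) = Module.finrank F K := IsGalois.card_aut_eq_finrank F K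
    have : Fact (Nat.Prime 2) := ⟨Nat.prime_two⟩
    obtain ⟨H, hH⟩ := Sylow.exists_subgroup_card_pow_prime (G := Gal(K/F)) 2 (n := m)
      (by
        rw [h3, hm]
        exact pow_dvd_pow 2 (Nat.le_succ m))
    have h4 : Module.finrank (fixedField H) K = Nat.card H :=
      IntermediateField.finrank_fixedField_eq_card _
    have h5 : Module.finrank F (fixedField H) * Module.finrank (fixedField H) K =
      Module.finrank F K := Module.finrank_mul_finrank F _ K
    have h6 : Module.finrank F (fixedField H) = 2 := by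
      rw [h4, hH, hm, pow_succ, mul_comm] at h5
      exact Nat.eq_of_mul_eq_mul_left (pow_pos (by norm_num) m) h5
    have h7 : fixedField H ≠ ⊥ := by
      intro h
      rw [h] at h6
      rw [IntermediateField.finrank_bot] at h6
      norm_num at h6
    obtain ⟨y, hyE, hyF⟩ := SetLike.exists_of_lt (bot_lt_iff_ne_bot.mpr h7)
    have hyF' : y ∉ F := by
      intro h
      apply hyF
      rw [IntermediateField.mem_bot]
      exact ⟨⟨y, h⟩, rfl⟩
    have hyint : IsIntegral F y := IsIntegral.of_finite F y
    set q := minpoly F y with hq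
    have hqm : q.Monic := minpoly.monic hyint
    have hqr : aeval y q = 0 := minpoly.aeval F y
    have hdeg : q.natDegree ≤ 2 := by
      have e1 : Module.finrank F F⟮y⟯ = q.natDegree := adjoin.finrank hyint
      have e2 : F⟮y⟯ ≤ fixedField H := by
        rw [adjoin_simple_le_iff]
        exact hyE
      rw [← e1, ← h6]
      exact IntermediateField.finrank_le_of_le_right e2
    have hdeg0 : 0 < q.natDegree := minpoly.natDegree_pos hyint
    have hsum := aeval_eq_sum_range' (show q.natDegree < 3 by omega) y
    rw [hqr] at hsum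
    rw [Finset.sum_range_succ, Finset.sum_range_succ, Finset.sum_range_succ,
      Finset.sum_range_zero] at hsum
    simp only [Algebra.smul_def, pow_zero, pow_one, mul_one, zero_add] at hsum
    have hc : ∀ k, (algebraMap F K) (q.coeff k) ∈ F := fun k => (q.coeff k).2
    rcases Nat.lt_or_ge q.natDegree 2 with hlt | hge
    · have hd1 : q.natDegree = 1 := by omega
      have c2 : q.coeff 2 = 0 := coeff_eq_zero_of_natDegree_lt (by omega)
      have c1 : q.coeff 1 = 1 := by
        rw [← hd1]
        exact hqm
      rw [c2, c1, map_zero, map_one, zero_mul, add_zero, one_mul] at hsum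
      apply hyF'
      have : y = - algebraMap F K (q.coeff 0) := by linear_combination -hsum
      rw [this]
      exact F.neg_mem (hc 0)
    · have hd2 : q.natDegree = 2 := by omega
      have c2 : q.coeff 2 = 1 := by
        rw [← hd2]
        exact hqm
      rw [c2, map_one, one_mul] at hsum
      set b := algebraMap F K (q.coeff 1) with hb
      set c := algebraMap F K (q.coeff 0) with hcc
      have hbF : b ∈ F := hc 1
      have hcF : c ∈ F := hc 0
      have h2F : (2 : K) ∈ F := by
        have := F.add_mem F.one_mem F.one_mem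
        rwa [one_add_one_eq_two] at this
      have h4F : (4 : K) ∈ F := by
        have := F.mul_mem h2F h2F
        have e : (2 : K) * 2 = 4 := by norm_num
        rwa [e] at this
      obtain ⟨d, hd, hd2'⟩ := Fi_sqrt (R := R) (hi := hi) (z := b * b - 4 * c)
        (F.sub_mem (F.mul_mem hbF hbF) (F.mul_mem h4F hcF))
      have hsq : (2 * y + b) ^ 2 = d ^ 2 := by
        rw [hd2']
        linear_combination (-4 : K) * hsum
      have h2ne : (2 : K) ≠ 0 := by
        have : CharZero K := charZero_of_injective_algebraMap (algebraMap R K).injective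
        norm_num
      have h2inv : (2 : K)⁻¹ ∈ F := F.inv_mem h2F
      rcases sq_eq_sq_iff_eq_or_eq_neg.mp hsq with h8 | h8
      · apply hyF'
        have : y = (d - b) * 2⁻¹ := by
          field_simp
          linear_combination h8
        rw [this]
        exact F.mul_mem (F.sub_mem hd hbF) h2inv
      · apply hyF'
        have : y = (-d - b) * 2⁻¹ := by
          field_simp
          linear_combination h8
        rw [this]
        exact F.mul_mem (F.sub_mem (F.neg_mem hd) hbF) h2inv

theorem rc_exists_repr (i : AlgebraicClosure R) (hi : i ^ 2 = -1) (z : AlgebraicClosure R) :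
    ∃ a b : R, z = algebraMap R _ a + algebraMap R _ b * i := by
  have hint : ∀ x : AlgebraicClosure R, IsIntegral R x := fun x =>
    (AlgebraicClosure.isAlgebraic R).isAlgebraic x |>.isIntegral
  let L : IntermediateField R (AlgebraicClosure R) := IntermediateField.adjoin R {z, i}
  have : FiniteDimensional R L :=
    IntermediateField.finiteDimensional_adjoin fun x _ => hint x
  let K : IntermediateField R (AlgebraicClosure R) := normalClosure R L (AlgebraicClosure R)
  have hLK : L ≤ K := le_normalClosure L
  have hzK : z ∈ K := hLK (IntermediateField.subset_adjoin R _ (by simp))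
  have hiK : i ∈ K := hLK (IntermediateField.subset_adjoin R _ (by simp))
  have : FiniteDimensional R K := inferInstance
  have : Normal R K := inferInstance
  have : IsGalois R K := ⟨⟩
  have hi' : (⟨i, hiK⟩ : K) ^ 2 = -1 := by
    apply Subtype.ext
    exact hi
  have htop := rc_Fi_top (R := R) (K := K) hi'
  have hz : (⟨z, hzK⟩ : K) ∈ Fi (R := R) (⟨i, hiK⟩ : K) hi' := by
    rw [htop]
    trivial
  obtain ⟨a, b, hab⟩ := hz
  exact ⟨a, b, congrArg Subtype.val hab⟩

end RC

/-- **CX** -/
theorem cx : Stmt_Cx.{v} := by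
  intro R _ _ _ _
  obtain ⟨i, hi⟩ := IsAlgClosed.exists_pow_nat_eq (-1 : AlgebraicClosure R) (n := 2) (by norm_num)
  refine ⟨AlgebraicClosure R, inferInstance, inferInstance, inferInstance, i, hi, ?_⟩
  intro z
  obtain ⟨a, b, hab⟩ := rc_exists_repr i hi z
  refine ⟨(a, b), hab, ?_⟩
  rintro ⟨c, d⟩ hcd
  simp only at hcd
  rw [hab] at hcd
  have hinj := (algebraMap R (AlgebraicClosure R)).injective
  have h1 : algebraMap R (AlgebraicClosure R) (a - c) =
      algebraMap R (AlgebraicClosure R) (d - b) * i := by
    rw [map_sub, map_sub]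
    linear_combination hcd
  have h2 : algebraMap R (AlgebraicClosure R) ((a - c) ^ 2) =
      algebraMap R (AlgebraicClosure R) (-(d - b) ^ 2) := by
    rw [map_pow, h1, map_neg, map_pow, mul_pow, hi]
    ring
  have h3 := hinj h2
  have h4 : a - c = 0 := by nlinarith [sq_nonneg (a - c), sq_nonneg (d - b)]
  have h5 : d - b = 0 := by nlinarith [sq_nonneg (a - c), sq_nonneg (d - b)]
  rw [Prod.mk.injEq]
  exact ⟨by linarith, by linarith⟩

section IVT

variable {R : Type v} [Field R] [LinearOrder R] [IsStrictOrderedRing R] [IsRealClosed R]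

theorem ivt_aux (n : ℕ) : ∀ P : R[X], P.natDegree ≤ n → ∀ a b : R, a < b →
    P.eval a * P.eval b < 0 → ∃ c, a < c ∧ c < b ∧ P.eval c = 0 := by
  induction n with
  | zero =>
    intro P hP a b _ h
    exfalso
    obtain ⟨c, rfl⟩ := natDegree_eq_zero.mp (Nat.le_zero.mp hP)
    rw [eval_C, eval_C] at h
    nlinarith [mul_self_nonneg c]
  | succ n ih =>
    intro P hP a b hab h
    rcases Nat.eq_zero_or_pos P.natDegree with h0 | hpos
    · exact ih P (by omega) a b hab h
    obtain ⟨C', _, _, _, i, hi, hrep⟩ := cx R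
    obtain ⟨z, hz⟩ := IsAlgClosed.exists_aeval_eq_zero C' P
      (by
        intro hd
        have := natDegree_eq_zero_iff_degree_le_zero.mpr hd.le
        omega)
    obtain ⟨⟨s, t⟩, hst, huniq⟩ := hrep z
    simp only at hst
    have hPa : P.eval a ≠ 0 := by
      intro h1
      rw [h1, zero_mul] at h
      exact lt_irrefl _ h
    have hPb : P.eval b ≠ 0 := by
      intro h1
      rw [h1, mul_zero] at h
      exact lt_irrefl _ h
    by_cases ht : t = 0
    · rw [ht, map_zero, zero_mul, add_zero] at hst
      rw [hst, aeval_algebraMap_apply] at hz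
      have hs : P.eval s = 0 := by
        have := (algebraMap R C').injective (hz.trans (map_zero _).symm)
        simpa [coe_aeval_eq_eval] using this
      by_cases hin : a < s ∧ s < b
      · exact ⟨s, hin.1, hin.2, hs⟩
      · obtain ⟨Q, hQ⟩ := dvd_iff_isRoot.mpr (show P.IsRoot s from hs)
        have hQ0 : Q ≠ 0 := by
          intro h1
          rw [h1, mul_zero] at hQ
          rw [hQ, natDegree_zero] at hpos
          omega
        have hdeg : P.natDegree = 1 + Q.natDegree := by
          rw [hQ, natDegree_mul (X_sub_C_ne_zero s) hQ0, natDegree_X_sub_C]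
        have ea : P.eval a = (a - s) * Q.eval a := by
          rw [hQ, eval_mul, eval_sub, eval_X, eval_C]
        have eb : P.eval b = (b - s) * Q.eval b := by
          rw [hQ, eval_mul, eval_sub, eval_X, eval_C]
        have hpp : 0 < (a - s) * (b - s) := by
          rcases not_and_or.mp hin with h1 | h1
          · have h2 : s < a := lt_of_le_of_ne (not_lt.mp h1) (by
              intro h2
              apply hPa
              rw [← h2]
              exact hs)
            apply mul_pos <;> linarith
          · have h2 : b < s := lt_of_le_of_ne (not_lt.mp h1) (by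
              intro h2
              apply hPb
              rw [h2]
              exact hs)
            apply mul_pos_of_neg_of_neg <;> linarith
        have hQQ : Q.eval a * Q.eval b < 0 := by
          rw [ea, eb] at h
          by_contra hcon
          have h3 : 0 ≤ Q.eval a * Q.eval b := not_lt.mp hcon
          have h4 := mul_nonneg hpp.le h3
          nlinarith
        obtain ⟨c, hc1, hc2, hc3⟩ := ih Q (by omega) a b hab hQQ
        exact ⟨c, hc1, hc2, by rw [hQ, eval_mul, hc3, mul_zero]⟩
    · set q : R[X] := (X - C s) ^ 2 + C (t ^ 2) with hq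
      have hqdeg : q.natDegree = 2 := by
        rw [hq, natDegree_add_C, natDegree_pow, natDegree_X_sub_C]
      have hqm : q.Monic := by
        rw [hq]
        apply Monic.add_of_left ((monic_X_sub_C s).pow 2)
        rw [degree_pow, degree_X_sub_C]
        refine lt_of_le_of_lt degree_C_le ?_
        norm_num
      have hqz : aeval z q = 0 := by
        rw [hq, map_add, map_pow, map_sub, aeval_X, aeval_C, aeval_C, hst, map_pow]
        linear_combination (algebraMap R C' t ^ 2) * hi
      have hdiv := modByMonic_add_div P q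
      have hrdeg : (P %ₘ q).natDegree ≤ 1 := by
        have := natDegree_modByMonic_lt P hqm (by
          intro h1
          rw [h1, natDegree_one] at hqdeg
          omega)
        omega
      obtain ⟨α, β, hαβ⟩ := exists_eq_X_add_C_of_natDegree_le_one hrdeg
      have hrz : aeval z (P %ₘ q) = 0 := by
        have h1 := congrArg (aeval z) hdiv
        rw [map_add, map_mul, hqz, zero_mul, add_zero, hz] at h1
        exact h1
      rw [hαβ, map_add, map_mul, aeval_C, aeval_C, aeval_X] at hrz
      obtain ⟨p0, -, hu0⟩ := hrep 0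
      have h00 := hu0 (0, 0) (by simp)
      have h01 := hu0 (α * s + β, α * t) (by
        simp only [map_add, map_mul]
        rw [hst] at hrz
        linear_combination -hrz)
      rw [← h00, Prod.mk.injEq] at h01
      have hα : α = 0 := by
        rcases mul_eq_zero.mp h01.2 with h1 | h1
        · exact h1
        · exact absurd h1 ht
      have hβ : β = 0 := by
        have := h01.1
        rw [hα, zero_mul, zero_add] at this
        exact this
      rw [hαβ, hα, hβ, map_zero, zero_mul, add_zero, zero_add] at hdiv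
      set Q := P /ₘ q with hQ
      have hQdeg : Q.natDegree = P.natDegree - 2 := by
        rw [hQ, natDegree_divByMonic P hqm, hqdeg]
      have hqpos : ∀ x, 0 < q.eval x := by
        intro x
        rw [hq, eval_add, eval_pow, eval_sub, eval_X, eval_C, eval_C]
        have := sq_nonneg (x - s)
        have h2 : 0 < t ^ 2 := by positivity
        linarith
      have ea : P.eval a = q.eval a * Q.eval a := by
        rw [← eval_mul, hdiv]
      have eb : P.eval b = q.eval b * Q.eval b := by
        rw [← eval_mul, hdiv]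
      have hQQ : Q.eval a * Q.eval b < 0 := by
        rw [ea, eb] at h
        by_contra hcon
        have h3 : 0 ≤ Q.eval a * Q.eval b := not_lt.mp hcon
        have h4 := mul_nonneg (mul_pos (hqpos a) (hqpos b)).le h3
        nlinarith
      obtain ⟨c, hc1, hc2, hc3⟩ := ih Q (by omega) a b hab hQQ
      exact ⟨c, hc1, hc2, by rw [← hdiv, eval_mul, hc3, mul_zero]⟩

end IVT

/-- **IVT** -/
theorem ivt : Stmt_IVT.{v} := by
  intro R _ _ _ _ P a b hab ha hb
  exact ivt_aux P.natDegree P le_rfl a b hab (mul_neg_of_neg_of_pos ha hb)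

/-- **ROLLE** -/
theorem rolle : Stmt_Rolle.{v} := by
  intro R _ _ _ _ P a b hab ha hb
  by_cases hP : P = 0
  · refine ⟨(a + b) / 2, by linarith, by linarith, ?_⟩
    rw [hP, derivative_zero, eval_zero]
  have hbmem : b ∈ P.roots.toFinset.filter (fun x => a < x ∧ x ≤ b) := by
    rw [Finset.mem_filter, Multiset.mem_toFinset, mem_roots hP]
    exact ⟨hb, hab, le_rfl⟩
  obtain ⟨b', hb'mem, hb'min⟩ := Finset.exists_min_image _ (fun x : R => x) ⟨b, hbmem⟩
  rw [Finset.mem_filter, Multiset.mem_toFinset, mem_roots hP] at hb'mem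
  obtain ⟨hb'root, hab', hb'b⟩ := hb'mem
  have hnoroot : ∀ x, a < x → x < b' → P.eval x ≠ 0 := by
    intro x h1 h2 h3
    have h4 : x ∈ P.roots.toFinset.filter (fun x => a < x ∧ x ≤ b) := by
      rw [Finset.mem_filter, Multiset.mem_toFinset, mem_roots hP]
      exact ⟨h3, h1, by linarith⟩
    have h5 : b' ≤ x := hb'min x h4
    linarith
  obtain ⟨Q₁, hQ₁, hQ₁a⟩ := exists_eq_pow_rootMultiplicity_mul_and_not_dvd P hP a
  have hm : 0 < P.rootMultiplicity a := (rootMultiplicity_pos hP).mpr ha
  obtain ⟨m, hm'⟩ : ∃ m, P.rootMultiplicity a = m + 1 := ⟨P.rootMultiplicity a - 1, by omega⟩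
  rw [hm'] at hQ₁
  have hQ₁0 : Q₁ ≠ 0 := by
    intro h
    rw [h, mul_zero] at hQ₁
    exact hP hQ₁
  have hQ₁b : Q₁.eval b' = 0 := by
    have h1 : P.eval b' = 0 := hb'root
    rw [hQ₁, eval_mul, eval_pow, eval_sub, eval_X, eval_C] at h1
    rcases mul_eq_zero.mp h1 with h2 | h2
    · exfalso
      have := pow_eq_zero_iff (n := m + 1) (by omega) |>.mp h2
      linarith
    · exact h2
  obtain ⟨Q, hQ, hQb⟩ := exists_eq_pow_rootMultiplicity_mul_and_not_dvd Q₁ hQ₁0 b'
  have hn : 0 < Q₁.rootMultiplicity b' := (rootMultiplicity_pos hQ₁0).mpr hQ₁b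
  obtain ⟨n, hn'⟩ : ∃ n, Q₁.rootMultiplicity b' = n + 1 := ⟨Q₁.rootMultiplicity b' - 1, by omega⟩
  rw [hn'] at hQ
  have hQb' : Q.eval b' ≠ 0 := fun h => hQb (dvd_iff_isRoot.mpr h)
  have hQa' : Q.eval a ≠ 0 := by
    intro h
    apply hQ₁a
    rw [dvd_iff_isRoot]
    show Q₁.eval a = 0
    rw [hQ, eval_mul, h, mul_zero]
  have hQQ : 0 < Q.eval a * Q.eval b' := by
    by_contra hcon
    have h1 : Q.eval a * Q.eval b' < 0 := lt_of_le_of_ne (not_lt.mp hcon) (mul_ne_zero hQa' hQb')
    obtain ⟨c, hc1, hc2, hc3⟩ := ivt_aux Q.natDegree Q le_rfl a b' hab' h1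
    apply hnoroot c hc1 hc2
    rw [hQ₁, hQ, eval_mul, eval_mul, hc3, mul_zero, mul_zero]
  set S : R[X] := (C ((m + 1 : ℕ) : R) * (X - C b') + C ((n + 1 : ℕ) : R) * (X - C a)) * Q +
    (X - C a) * (X - C b') * derivative Q with hS
  have hder : derivative P = (X - C a) ^ m * (X - C b') ^ n * S := by
    rw [hQ₁, hQ, hS]
    simp only [derivative_mul, derivative_pow, derivative_sub, derivative_X, derivative_C,
      sub_zero, mul_one, Nat.add_sub_cancel]
    ring
  have hSa : S.eval a = ((m + 1 : ℕ) : R) * (a - b') * Q.eval a := by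
    rw [hS]
    simp only [eval_add, eval_mul, eval_sub, eval_X, eval_C]
    ring
  have hSb : S.eval b' = ((n + 1 : ℕ) : R) * (b' - a) * Q.eval b' := by
    rw [hS]
    simp only [eval_add, eval_mul, eval_sub, eval_X, eval_C]
    ring
  have hSS : S.eval a * S.eval b' < 0 := by
    rw [hSa, hSb]
    have e1 : (0 : R) < ((m + 1 : ℕ) : R) := by positivity
    have e2 : (0 : R) < ((n + 1 : ℕ) : R) := by positivity
    have e3 : 0 < b' - a := by linarith
    have e4 : 0 < ((m + 1 : ℕ) : R) * ((n + 1 : ℕ) : R) * (b' - a) * (b' - a) *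
      (Q.eval a * Q.eval b') := by positivity
    nlinarith
  obtain ⟨c, hc1, hc2, hc3⟩ := ivt_aux S.natDegree S le_rfl a b' hab' hSS
  refine ⟨c, hc1, by linarith, ?_⟩
  rw [hder, eval_mul, hc3, mul_zero]

end Pool.Agent.RSV
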