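import Pool.Agent.RSV.PFam
import Pool.Agent.RSV.RCF

/-!
# CODE and REAL
-/

namespace Pool.Agent.RSV

universe u v

open Polynomial

section Alg

variable {R : Type v} [Field R]

lemma pval_mem (K : Subfield R) (r δ : ℕ) (v : ℕ → R) (hv : ∀ j < r, v j ∈ K) :
    pval r δ v ∈ K := by
  unfold pval
  refine K.sum_mem fun t _ => K.mul_mem (K.sub_mem ?_ ?_) (K.prod_mem fun j hj => ?_)
  · exact natCast_mem K _
  · exact natCast_mem K _
  · exact K.pow_mem (hv j (Finset.mem_range.1 hj)) _

/-- the relative algebraic closure of a subfield, as a subfield -/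
noncomputable def relAlg (K : Subfield R) : Subfield R := (algebraicClosure K R).toSubfield

lemma mem_relAlg (K : Subfield R) (x : R) : x ∈ relAlg K ↔ IsAlgebraic K x := by
  unfold relAlg
  rw [IntermediateField.mem_toSubfield, mem_algebraicClosure_iff']
  exact isAlgebraic_iff_isIntegral.symm

lemma le_relAlg (K : Subfield R) : K ≤ relAlg K := by
  intro x hx
  rw [mem_relAlg]
  exact isAlgebraic_algebraMap (⟨x, hx⟩ : K)

end Alg

section GPoly

/-- the coded polynomial as a polynomial in its first variable -/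
noncomputable def gpoly {S : Type*} [CommRing S] (r δ : ℕ) (v : ℕ → S) : S[X] :=
  ∑ t ∈ Finset.range (dec δ 0),
    C ((dec δ (Nat.pair t 0 + 1) : S) - (dec δ (Nat.pair t 1 + 1) : S)) *
      (X ^ dec δ (Nat.pair t 2 + 1) *
        ∏ j ∈ Finset.range r, C (v j) ^ dec δ (Nat.pair t (j + 3) + 1))

lemma gpoly_eval {R : Type*} [Field R] (r δ : ℕ) (v : ℕ → R) (b : R) :
    (gpoly r δ v).eval b = pval (r + 1) δ (cns b v) := by
  unfold gpoly pval
  rw [eval_finsetSum]
  refine Finset.sum_congr rfl fun t _ => ?_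
  rw [Finset.prod_range_succ']
  simp only [eval_mul, eval_C, eval_pow, eval_X, eval_prod, cns_zero, cns_succ]
  rw [mul_comm (b ^ _)]

lemma gpoly_map {S T : Type*} [CommRing S] [CommRing T] (f : S →+* T) (r δ : ℕ) (v : ℕ → S)
    (w : ℕ → T) (h : ∀ j < r, f (v j) = w j) : (gpoly r δ v).map f = gpoly r δ w := by
  unfold gpoly
  rw [Polynomial.map_sum]
  refine Finset.sum_congr rfl fun t _ => ?_
  simp only [Polynomial.map_mul, Polynomial.map_C, Polynomial.map_pow, Polynomial.map_X, map_sub,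
    map_natCast, Polynomial.map_prod]
  have hp : ∏ j ∈ Finset.range r, C (f (v j)) ^ dec δ (Nat.pair t (j + 3) + 1) =
      ∏ j ∈ Finset.range r, (C (w j) : T[X]) ^ dec δ (Nat.pair t (j + 3) + 1) :=
    Finset.prod_congr rfl fun j hj => by rw [h j (Finset.mem_range.1 hj)]
  rw [hp, Polynomial.map_sub, Polynomial.map_natCast, Polynomial.map_natCast]

end GPoly

section Sep

variable {R : Type v} [Field R] [LinearOrder R] [IsStrictOrderedRing R] [IsRealClosed R]

lemma sign_const (P : R[X]) (x y : R)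
    (h : ∀ z, min x y ≤ z → z ≤ max x y → P.eval z ≠ 0) (hx : 0 < P.eval x) :
    0 < P.eval y := by
  by_contra hy
  have hy0 : P.eval y ≠ 0 := h y (min_le_right _ _) (le_max_right _ _)
  have hy' : P.eval y < 0 := lt_of_le_of_ne (not_lt.1 hy) hy0
  rcases lt_trichotomy x y with hxy | hxy | hxy
  · obtain ⟨c, h1, h2, h3⟩ := ivt R (-P) x y hxy (by simpa using hx) (by simpa using hy')
    refine h c ?_ ?_ (by simpa using h3)
    · rw [min_eq_left hxy.le]; exact h1.le
    · rw [max_eq_right hxy.le]; exact h2.le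
  · subst hxy
    exact absurd hx hy
  · obtain ⟨c, h1, h2, h3⟩ := ivt R P y x hxy hy' hx
    refine h c ?_ ?_ h3
    · rw [min_eq_right hxy.le]; exact h1.le
    · rw [max_eq_left hxy.le]; exact h2.le

/-- a point of the subfield `F` between the same elements of `T` -/
lemma exists_between_mem (F : Subfield R) (T : Finset R) (hT : ∀ t ∈ T, t ∈ F) (b : R)
    (hb : b ∉ T) : ∃ c ∈ F, ∀ z, min b c ≤ z → z ≤ max b c → z ∉ T := by
  classical
  by_cases h1 : (T.filter (· < b)).Nonempty
  · set lo := (T.filter (· < b)).max' h1 with hlo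
    have hlo_mem := Finset.max'_mem _ h1
    rw [← hlo, Finset.mem_filter] at hlo_mem
    by_cases h2 : (T.filter (b < ·)).Nonempty
    · set hi := (T.filter (b < ·)).min' h2 with hhi
      have hhi_mem := Finset.min'_mem _ h2
      rw [← hhi, Finset.mem_filter] at hhi_mem
      refine ⟨(lo + hi) / 2, ?_, ?_⟩
      · refine F.div_mem (F.add_mem (hT _ hlo_mem.1) (hT _ hhi_mem.1)) ?_
        exact_mod_cast natCast_mem F 2
      · intro z hz1 hz2 hzT
        have hzb : z ≠ b := fun h => hb (h ▸ hzT)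
        have hlt : lo < z := by
          refine lt_of_lt_of_le ?_ hz1
          rw [lt_min_iff]
          exact ⟨hlo_mem.2, by linarith [hlo_mem.2, hhi_mem.2]⟩
        have hgt : z < hi := by
          refine lt_of_le_of_lt hz2 ?_
          rw [max_lt_iff]
          exact ⟨hhi_mem.2, by linarith [hlo_mem.2, hhi_mem.2]⟩
        rcases lt_or_gt_of_ne hzb with h | h
        · exact absurd (Finset.le_max' (T.filter (· < b)) z (Finset.mem_filter.2 ⟨hzT, h⟩))
            (not_le.2 hlt)
        · exact absurd (Finset.min'_le (T.filter (b < ·)) z (Finset.mem_filter.2 ⟨hzT, h⟩))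
            (not_le.2 hgt)
    · refine ⟨lo + 1, F.add_mem (hT _ hlo_mem.1) F.one_mem, ?_⟩
      intro z hz1 hz2 hzT
      have hzb : z ≠ b := fun h => hb (h ▸ hzT)
      have hlt : lo < z := by
        refine lt_of_lt_of_le ?_ hz1
        rw [lt_min_iff]
        exact ⟨hlo_mem.2, by linarith⟩
      rcases lt_or_gt_of_ne hzb with h | h
      · exact absurd (Finset.le_max' (T.filter (· < b)) z (Finset.mem_filter.2 ⟨hzT, h⟩))
          (not_le.2 hlt)
      · exact h2 ⟨z, Finset.mem_filter.2 ⟨hzT, h⟩⟩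
  · by_cases h2 : (T.filter (b < ·)).Nonempty
    · set hi := (T.filter (b < ·)).min' h2 with hhi
      have hhi_mem := Finset.min'_mem _ h2
      rw [← hhi, Finset.mem_filter] at hhi_mem
      refine ⟨hi - 1, F.sub_mem (hT _ hhi_mem.1) F.one_mem, ?_⟩
      intro z hz1 hz2 hzT
      have hzb : z ≠ b := fun h => hb (h ▸ hzT)
      have hgt : z < hi := by
        refine lt_of_le_of_lt hz2 ?_
        rw [max_lt_iff]
        exact ⟨hhi_mem.2, by linarith⟩
      rcases lt_or_gt_of_ne hzb with h | h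
      · exact h1 ⟨z, Finset.mem_filter.2 ⟨hzT, h⟩⟩
      · exact absurd (Finset.min'_le (T.filter (b < ·)) z (Finset.mem_filter.2 ⟨hzT, h⟩))
          (not_le.2 hgt)
    · refine ⟨0, F.zero_mem, ?_⟩
      intro z _ _ hzT
      have hzb : z ≠ b := fun h => hb (h ▸ hzT)
      rcases lt_or_gt_of_ne hzb with h | h
      · exact h1 ⟨z, Finset.mem_filter.2 ⟨hzT, h⟩⟩
      · exact h2 ⟨z, Finset.mem_filter.2 ⟨hzT, h⟩⟩

/-- finitely many strict polynomial inequalities satisfiable in `R` are satisfiable in `F` -/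
lemma exists_sat_mem (F : Subfield R) (S : Finset R[X]) (hS0 : ∀ P ∈ S, P ≠ 0)
    (hS : ∀ P ∈ S, ∀ z, P.eval z = 0 → z ∈ F) (b : R) :
    ∃ c ∈ F, ∀ P ∈ S, (0 < P.eval b → 0 < P.eval c) ∧ (P.eval b < 0 → P.eval c < 0) := by
  classical
  set T : Finset R := S.biUnion fun P => P.roots.toFinset with hTdef
  have hmem : ∀ P ∈ S, ∀ z, P.eval z = 0 → z ∈ T := by
    intro P hP z hz
    rw [hTdef, Finset.mem_biUnion]
    exact ⟨P, hP, by rw [Multiset.mem_toFinset, mem_roots (hS0 P hP)]; exact hz⟩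
  have hTF : ∀ t ∈ T, t ∈ F := by
    intro t ht
    rw [hTdef, Finset.mem_biUnion] at ht
    obtain ⟨P, hP, ht⟩ := ht
    rw [Multiset.mem_toFinset, mem_roots (hS0 P hP)] at ht
    exact hS P hP t ht
  by_cases hb : b ∈ T
  · exact ⟨b, hTF b hb, fun P _ => ⟨id, id⟩⟩
  · obtain ⟨c, hc, hsep⟩ := exists_between_mem F T hTF b hb
    refine ⟨c, hc, fun P hP => ⟨fun h => ?_, fun h => ?_⟩⟩
    · exact sign_const P b c (fun z h1 h2 h3 => hsep z h1 h2 (hmem P hP z h3)) h
    · have := sign_const (-P) b c (fun z h1 h2 h3 => hsep z h1 h2 (hmem P hP z (by simpa using h3)))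
        (by simpa using h)
      simpa using this

end Sep

section Lip

variable {R : Type v} [Field R] [LinearOrder R] [IsStrictOrderedRing R]

lemma abs_pow_sub_pow_le {y x x' : R} (hy : 1 ≤ y) (hx : |x| ≤ y) (hx' : |x'| ≤ y) (k : ℕ) :
    |x ^ k - x' ^ k| ≤ k * y ^ k * |x - x'| := by
  induction k with
  | zero => simp
  | succ k ih =>
    have h1 : x ^ (k + 1) - x' ^ (k + 1) = x ^ k * (x - x') + (x ^ k - x' ^ k) * x' := by ring
    have h2 : |x ^ k * (x - x')| ≤ y ^ k * |x - x'| := by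
      rw [abs_mul, abs_pow]
      exact mul_le_mul_of_nonneg_right (pow_le_pow_left₀ (abs_nonneg _) hx _) (abs_nonneg _)
    have h3 : |(x ^ k - x' ^ k) * x'| ≤ (k * y ^ k * |x - x'|) * y := by
      rw [abs_mul]
      exact mul_le_mul ih hx' (abs_nonneg _) (by positivity)
    have h4 : y ^ k * |x - x'| ≤ y ^ (k + 1) * |x - x'| := by
      refine mul_le_mul_of_nonneg_right ?_ (abs_nonneg _)
      rw [pow_succ]
      exact le_mul_of_one_le_right (by positivity) hy
    rw [h1]
    calc |x ^ k * (x - x') + (x ^ k - x' ^ k) * x'|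
        ≤ |x ^ k * (x - x')| + |(x ^ k - x' ^ k) * x'| := abs_add_le _ _
      _ ≤ y ^ (k + 1) * |x - x'| + (k * y ^ k * |x - x'|) * y := by linarith
      _ = ((k + 1 : ℕ) : R) * y ^ (k + 1) * |x - x'| := by push_cast; ring

/-- Lipschitz constant of a polynomial on `[-y, y]` -/
noncomputable def lipc (P : R[X]) (y : R) : R :=
  ∑ k ∈ P.support, |P.coeff k| * (k * y ^ k)

lemma lipschitz (P : R[X]) {y x x' : R} (hy : 1 ≤ y) (hx : |x| ≤ y) (hx' : |x'| ≤ y) :
    |P.eval x - P.eval x'| ≤ lipc P y * |x - x'| := by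
  rw [eval_eq_sum, eval_eq_sum, Polynomial.sum, Polynomial.sum, ← Finset.sum_sub_distrib, lipc,
    Finset.sum_mul]
  refine (Finset.abs_sum_le_sum_abs _ _).trans (Finset.sum_le_sum fun k _ => ?_)
  rw [← mul_sub, abs_mul, mul_assoc]
  exact mul_le_mul_of_nonneg_left (abs_pow_sub_pow_le hy hx hx' k) (abs_nonneg _)

lemma lipc_mem (K : Subfield R) (P : R[X]) (y : R) (hy : y ∈ K) (hP : ∀ k, P.coeff k ∈ K) :
    lipc P y ∈ K := by
  unfold lipc
  refine K.sum_mem fun k _ => K.mul_mem ?_ (K.mul_mem (natCast_mem K k) (K.pow_mem hy _))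
  rcases abs_choice (P.coeff k) with h | h
  · rw [h]; exact hP k
  · rw [h]; exact K.neg_mem (hP k)

end Lip

namespace BIP

variable {U : Type u} {R : Type v} [CommSemiring U] [LinearOrder U] [IsStrictOrderedRing U]
  [CanonicallyOrderedAdd U] [Field R] [LinearOrder R] [IsStrictOrderedRing R]
  (B : BIP U R)

/-- the set of parameters -/
def prm (r : ℕ) (v : ℕ → R) : Set R := v '' (Finset.range r : Set ℕ)

omit [Field R] [LinearOrder R] [IsStrictOrderedRing R] in
lemma prm_finite (r : ℕ) (v : ℕ → R) : (prm r v).Finite := (Finset.finite_toSet _).image _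

omit [LinearOrder R] [IsStrictOrderedRing R] in
lemma mem_closure_prm {r : ℕ} {v : ℕ → R} {j : ℕ} (hj : j < r) :
    v j ∈ Subfield.closure (prm r v) :=
  Subfield.subset_closure ⟨j, by simpa using hj, rfl⟩

theorem code (hIF : Stmt_IF.{u, v}) (hB : Stmt_Bound.{u, v}) : Stmt_Code.{u, v} := by
  intro U R _ _ _ _ _ _ _ _ B r v
  obtain ⟨b, hb⟩ := hB U R B (prm r v) (prm_finite r v)
  obtain ⟨V, hV, hV'⟩ := Cd.pval_family (B := B) hIF r Set.univ (fun j _ => v j)
    (fun j _ => Cd.const (v j))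
  have hg : B.F1 (fun δ => RSV.pr2 δ 0) := F1.pr2 F1.id (F1.const 0)
  have hx : B.Cd {i | ∃ n : ℕ, i = (n : U)} (fun δ => V (RSV.pr2 δ 0)) := by
    refine Cd.mono (Cd.reindex hV hg fun n => ⟨RSV.pr2 n 0, ?_⟩) ?_
    · have := pr2_natCast (U := U) n 0
      simp only [Nat.cast_zero] at this
      rw [this]
    · rintro i ⟨n, rfl⟩
      exact ⟨n, 0, Set.mem_univ _, rfl⟩
  have hval : ∀ n : ℕ, V (RSV.pr2 (n : U) 0) = pval r n v := fun n => hV' n 0 (Set.mem_univ _)
  obtain ⟨P, hP, J, hJ, hPJ⟩ := Cd.sign hx b (by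
    rintro i ⟨n, rfl⟩ hne
    have hne' : V (RSV.pr2 (n : U) 0) ≠ 0 := hne
    rw [hval] at hne' ⊢
    refine (hb _ hne' ?_).1
    have hmem := pval_mem (Subfield.closure (prm r v)) r n v (fun j hj => mem_closure_prm hj)
    exact isAlgebraic_algebraMap (⟨_, hmem⟩ : Subfield.closure (prm r v)))
  refine ⟨P, hP, fun n => ?_⟩
  rw [hPJ n ⟨n, rfl⟩ (hJ n)]
  rw [hval]
  rfl

lemma gpoly_coeff_mem {r : ℕ} {v : ℕ → R} (δ k : ℕ) :
    (gpoly r δ v).coeff k ∈ Subfield.closure (prm r v) := by
  classical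
  set K := Subfield.closure (prm r v) with hK
  set v' : ℕ → K := fun j => if h : j < r then ⟨v j, mem_closure_prm h⟩ else 0 with hv'
  have h1 : (gpoly r δ v').map (algebraMap K R) = gpoly r δ v := by
    refine gpoly_map _ _ _ _ _ fun j hj => ?_
    simp only [hv']
    rw [dif_pos hj]
    rfl
  rw [← h1, coeff_map]
  exact ((gpoly r δ v').coeff k).2

lemma gpoly_root {r : ℕ} {v : ℕ → R} {δ : ℕ} (h0 : gpoly r δ v ≠ 0) {z : R}
    (hz : (gpoly r δ v).eval z = 0) : IsAlgebraic (Subfield.closure (prm r v)) z := by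
  classical
  set K := Subfield.closure (prm r v) with hK
  set v' : ℕ → K := fun j => if h : j < r then ⟨v j, mem_closure_prm h⟩ else 0 with hv'
  have h1 : (gpoly r δ v').map (algebraMap K R) = gpoly r δ v := by
    refine gpoly_map _ _ _ _ _ fun j hj => ?_
    simp only [hv']
    rw [dif_pos hj]
    rfl
  refine ⟨gpoly r δ v', ?_, ?_⟩
  · intro h
    rw [h, Polynomial.map_zero] at h1
    exact h0 h1.symm
  · rw [aeval_def, eval₂_eq_eval_map, h1, hz]

omit [IsStrictOrderedRing U] [CanonicallyOrderedAdd U] [CommSemiring U] [LinearOrder U] in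
lemma num1 {E eb p p' W : R} (hE : 0 < E) (hEb : E = 8 * eb) (h1 : 1 / eb ≤ p)
    (h2 : |p - p'| ≤ 1 / E) (h3 : |p' - W / E| ≤ 1 / E) : 2 ≤ W := by
  have heb : 0 < eb := by linarith
  have h4 : 1 / eb = 8 * (1 / E) := by
    rw [hEb]
    field_simp
  rw [h4] at h1
  have h5 := (abs_le.1 h2).2
  have h6 := (abs_le.1 h3).2
  have h7 : 6 * (1 / E) ≤ W / E := by linarith
  have h8 : 6 ≤ W := by
    have h9 := mul_le_mul_of_nonneg_right h7 hE.le
    rw [div_mul_cancel₀ _ hE.ne', mul_assoc, one_div, inv_mul_cancel₀ hE.ne'] at h9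
    linarith
  linarith

lemma num2 {E p' W : R} (hE : 0 < E) (h3 : |p' - W / E| ≤ 1 / E) (hW : 2 ≤ W) : 0 < p' := by
  have h6 := (abs_le.1 h3).1
  have h7 : 2 / E ≤ W / E := div_le_div_of_nonneg_right hW hE.le
  have h8 : 0 < 1 / E := by positivity
  have h9 : 2 / E = 2 * (1 / E) := by ring
  linarith

theorem real (hIF : Stmt_IF.{u, v}) (hB : Stmt_Bound.{u, v}) (hC : Stmt_Cov.{u, v}) :
    Stmt_Real.{u, v} := by
  classical
  intro U R _ _ _ _ _ _ _ _ B r v Pos Neg hPos hNeg hsat
  by_cases hcase : ∃ δ₀, δ₀ ∉ Pos ∧ δ₀ ∉ Neg ∧ gpoly r δ₀ v ≠ 0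
  · obtain ⟨δ₀, hp, hn, h0⟩ := hcase
    by_contra hcon
    rw [not_exists] at hcon
    have hfail := fun b => not_forall.1 (hcon b)
    choose κ hκ using hfail
    set T : Finset R := (gpoly r δ₀ v).roots.toFinset with hT
    obtain ⟨b, hb⟩ := hsat (max (δ₀ + 1) (T.sup κ + 1))
    have h1 := (hb δ₀ (by omega)).2.2 hp hn
    have h2 : b ∈ T := by
      rw [hT, Multiset.mem_toFinset, mem_roots h0]
      change (gpoly r δ₀ v).eval b = 0
      rw [gpoly_eval]
      exact h1
    have h3 : κ b ≤ T.sup κ := Finset.le_sup h2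
    exact hκ b (hb (κ b) (by omega))
  · have hzero : ∀ δ, δ ∉ Pos → δ ∉ Neg → gpoly r δ v = 0 := by
      intro δ h1 h2
      by_contra h3
      exact hcase ⟨δ, h1, h2, h3⟩
    obtain ⟨b, hb⟩ := hB U R B (prm r v) (prm_finite r v)
    obtain ⟨A, x, hAx, hcov⟩ := hC U R B (prm r v) (prm_finite r v)
    obtain ⟨⟨b₀, hb₀⟩, happ⟩ := hAx
    obtain ⟨b', hb'⟩ := hB U R B (prm r v ∪ {B.e b₀})
      ((prm_finite r v).union (Set.finite_singleton _))
    have hy1 : (1 : R) ≤ B.e b₀ + 1 := by linarith [B.e_pos b₀]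
    have hlip : ∀ δ, lipc (gpoly r δ v) (B.e b₀ + 1) ≤ B.e b' := by
      intro δ
      by_cases hz : lipc (gpoly r δ v) (B.e b₀ + 1) = 0
      · rw [hz]
        exact (B.e_pos _).le
      · refine (le_abs_self _).trans (hb' _ hz ?_).2
        have hmem : lipc (gpoly r δ v) (B.e b₀ + 1) ∈
            Subfield.closure (prm r v ∪ {B.e b₀}) := by
          refine lipc_mem _ _ _ (add_mem (Subfield.subset_closure (Or.inr rfl)) (one_mem _))
            fun k => ?_
          exact Subfield.closure_mono Set.subset_union_left (gpoly_coeff_mem δ k)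
        exact isAlgebraic_algebraMap
          (⟨_, hmem⟩ : Subfield.closure (prm r v ∪ {B.e b₀}))
    obtain ⟨J, hJ, K, P, Q, hP, hQ, hPQ⟩ := happ (b' + (b + 3))
    set g : U → R := fun i => P i / B.e (b' + (b + 3)) - Q i / B.e (b' + (b + 3)) with hgdef
    have hg : B.Cd Set.univ g := Cd.sub (Cd.ofNF hP _) (Cd.ofNF hQ _)
    obtain ⟨V, hV, hV'⟩ := Cd.pval_family (B := B) hIF (r + 1) Set.univ
      (fun j i => cns (g i) v j) (by
        intro j _
        cases j with
        | zero => exact hg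
        | succ j => exact Cd.const (v j))
    have hVval : ∀ (d : ℕ) (i : U), V (RSV.pr2 (d : U) i) = (gpoly r d v).eval (g i) := by
      intro d i
      rw [hV' d i (Set.mem_univ _), gpoly_eval]
    obtain ⟨-, happV⟩ := hV
    obtain ⟨J', hJ', K', P', Q', hP', hQ', hPQ'⟩ := happV (b + 3)
    obtain ⟨J₁, hJ₁, hJ₁J', hpr⟩ := B.exists_pr2_lt hJ'
    obtain ⟨PP, hPP, hPP'⟩ := hPos
    obtain ⟨NN, hNN, hNN'⟩ := hNeg
    have hE : 0 < B.e (b + 3) := B.e_pos _
    have hEb : B.e (b + 3) = 8 * B.e b := by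
      have h3 : B.e (3 : U) = 8 := by
        have := B.e_natCast 3
        norm_num at this
        exact this
      rw [B.e_add, h3, mul_comm]
    have hdist : ∀ m : ℕ, (m : U) ∈ A → ∀ d : ℕ,
        |(gpoly r d v).eval (x m) - (gpoly r d v).eval (g m)| ≤ 1 / B.e (b + 3) := by
      intro m hm d
      have h1 : |x m - g m| ≤ 1 / B.e (b' + (b + 3)) := by
        have := hPQ m hm (hJ m)
        rw [sub_div] at this
        exact this
      have hEN : 0 < B.e (b' + (b + 3)) := B.e_pos _
      have h2 : 1 / B.e (b' + (b + 3)) ≤ 1 := by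
        rw [div_le_one hEN]
        exact B.one_le_e _
      have h3 : |x m| ≤ B.e b₀ := hb₀ m hm
      have h4 : |g m| ≤ B.e b₀ + 1 := by
        have h5 : |g m| ≤ |x m| + |x m - g m| := by
          have h6 : g m = x m - (x m - g m) := by ring
          calc |g m| = |x m - (x m - g m)| := by rw [← h6]
            _ ≤ |x m| + |x m - g m| := abs_sub _ _
        linarith
      refine (lipschitz _ hy1 (by linarith) h4).trans ?_
      calc lipc (gpoly r d v) (B.e b₀ + 1) * |x m - g m|
          ≤ B.e b' * (1 / B.e (b' + (b + 3))) :=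
            mul_le_mul (hlip d) h1 (abs_nonneg _) (B.e_pos _).le
        _ = 1 / B.e (b + 3) := by
            rw [B.e_add]
            have := B.e_pos b'
            field_simp
    -- definability
    have h2D : B.NF (K' + 2) (fun _ => (2 : R)) := by
      refine NF.const ?_ (by norm_num) ?_
      · exact_mod_cast B.natCast_mem 2
      · have h3 : B.e (2 : U) = 4 := by
          have := B.e_natCast 2
          norm_num at this
          exact this
        have h4 : B.e (2 : U) ≤ B.e (K' + 2) := B.e_le le_add_self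
        linarith
    have hQ2 := NF.add (NF.mono hQ' (L := K' + 2) le_self_add) h2D
    have hP2 := NF.add (NF.mono hP' (L := K' + 2) le_self_add) h2D
    have hΦ : B.D1 (fun k => ∃ i, i < J₁ ∧ ∀ δ, δ < k →
        (PP δ → Q' (RSV.pr2 δ i) + 2 ≤ P' (RSV.pr2 δ i)) ∧
        (NN δ → P' (RSV.pr2 δ i) + 2 ≤ Q' (RSV.pr2 δ i))) := by
      refine D.ex_lt (P := fun i w => ∀ δ, δ < w 0 →
        (PP δ → Q' (RSV.pr2 δ i) + 2 ≤ P' (RSV.pr2 δ i)) ∧
        (NN δ → P' (RSV.pr2 δ i) + 2 ≤ Q' (RSV.pr2 δ i))) (F.const J₁) ?_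
      refine D.all_lt (P := fun δ w =>
        (PP δ → Q' (RSV.pr2 δ (w 0)) + 2 ≤ P' (RSV.pr2 δ (w 0))) ∧
        (NN δ → P' (RSV.pr2 δ (w 0)) + 2 ≤ Q' (RSV.pr2 δ (w 0)))) (F.var 1) ?_
      have hpF : B.F (fun v => RSV.pr2 (v 0) (v 1)) := F.pr2 (F.var 0) (F.var 1)
      exact D.and (D.imp (D.app1 hPP (F.var 0)) (NF.le_dfn hQ2 hP' hpF hpF))
        (D.imp (D.app1 hNN (F.var 0)) (NF.le_dfn hP2 hQ' hpF hpF))
    -- truth at the standard numbers
    have htrue : ∀ n : ℕ, ∃ i, i < J₁ ∧ ∀ δ, δ < (n : U) →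
        (PP δ → Q' (RSV.pr2 δ i) + 2 ≤ P' (RSV.pr2 δ i)) ∧
        (NN δ → P' (RSV.pr2 δ i) + 2 ≤ Q' (RSV.pr2 δ i)) := by
      intro n
      obtain ⟨c₀, hc₀⟩ := hsat n
      obtain ⟨c, hcF, hc⟩ := exists_sat_mem (relAlg (Subfield.closure (prm r v)))
        (((Finset.range n).filter (fun δ => δ ∈ Pos ∨ δ ∈ Neg)).image (fun δ => gpoly r δ v))
        (by
          intro P hP h0
          obtain ⟨δ, hδ, rfl⟩ := Finset.mem_image.1 hP
          rw [Finset.mem_filter, Finset.mem_range] at hδ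
          have h1 := hc₀ δ hδ.1
          have h2 : pval (r + 1) δ (cns c₀ v) = 0 := by
            rw [← gpoly_eval, h0, eval_zero]
          rcases hδ.2 with h | h
          · have := h1.1 h
            rw [h2] at this
            exact lt_irrefl _ this
          · have := h1.2.1 h
            rw [h2] at this
            exact lt_irrefl _ this)
        (by
          intro P hP z hz
          obtain ⟨δ, hδ, rfl⟩ := Finset.mem_image.1 hP
          rw [Finset.mem_filter, Finset.mem_range] at hδ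
          have h1 := hc₀ δ hδ.1
          rw [mem_relAlg]
          refine gpoly_root ?_ hz
          intro h0
          have h2 : pval (r + 1) δ (cns c₀ v) = 0 := by
            rw [← gpoly_eval, h0, eval_zero]
          rcases hδ.2 with h | h
          · have := h1.1 h
            rw [h2] at this
            exact lt_irrefl _ this
          · have := h1.2.1 h
            rw [h2] at this
            exact lt_irrefl _ this) c₀
      obtain ⟨m, hmA, hmc⟩ := hcov c ((mem_relAlg _ _).1 hcF)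
      -- nonzero values at `c` are bounded below
      have hlow : ∀ d : ℕ, (gpoly r d v).eval c ≠ 0 → 1 / B.e b ≤ |(gpoly r d v).eval c| := by
        intro d hd
        refine (hb _ hd ?_).1
        rw [← mem_relAlg, gpoly_eval]
        refine pval_mem _ _ _ _ fun j hj => ?_
        cases j with
        | zero => exact hcF
        | succ j => exact le_relAlg _ (mem_closure_prm (by omega))
      refine ⟨m, hJ₁ m, fun δ hδ => ?_⟩
      obtain ⟨d, hd, rfl⟩ := B.exists_nat_of_le δ n hδ.le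
      have hdn : d < n := by exact_mod_cast hδ
      have hl : RSV.pr2 (d : U) (m : U) < J' := hpr _ _ (hJ₁ d) (hJ₁ m)
      have h3 := hPQ' _ ⟨d, (m : U), Set.mem_univ _, rfl⟩ hl
      rw [hVval] at h3
      have h2 := hdist m hmA d
      rw [hmc] at h2
      constructor
      · intro hp
        have hp' : d ∈ Pos := (hPP' d).1 hp
        have h4 : 0 < (gpoly r d v).eval c := by
          refine (hc _ (Finset.mem_image.2 ⟨d, ?_, rfl⟩)).1 ?_
          · rw [Finset.mem_filter, Finset.mem_range]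
            exact ⟨hdn, Or.inl hp'⟩
          · rw [gpoly_eval]
            exact (hc₀ d hdn).1 hp'
        have h1 := hlow d h4.ne'
        rw [abs_of_pos h4] at h1
        have := num1 hE hEb h1 h2 h3
        linarith
      · intro hp
        have hp' : d ∈ Neg := (hNN' d).1 hp
        have h4 : (gpoly r d v).eval c < 0 := by
          refine (hc _ (Finset.mem_image.2 ⟨d, ?_, rfl⟩)).2 ?_
          · rw [Finset.mem_filter, Finset.mem_range]
            exact ⟨hdn, Or.inr hp'⟩
          · rw [gpoly_eval]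
            exact (hc₀ d hdn).2.1 hp'
        have h1 := hlow d h4.ne
        rw [abs_of_neg h4] at h1
        have h2' : |-(gpoly r d v).eval c - -(gpoly r d v).eval (g m)| ≤ 1 / B.e (b + 3) := by
          rw [← abs_neg]
          convert h2 using 2
          ring
        have h3' : |-(gpoly r d v).eval (g m) -
            (Q' (RSV.pr2 (d : U) (m : U)) - P' (RSV.pr2 (d : U) (m : U))) / B.e (b + 3)| ≤
            1 / B.e (b + 3) := by
          rw [← abs_neg]
          convert h3 using 2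
          ring
        have := num1 hE hEb h1 h2' h3'
        linarith
    obtain ⟨J₂, hJ₂, hJ₂'⟩ := B.overspill hΦ htrue
    obtain ⟨i, hi, hi'⟩ := hJ₂' J₂ le_rfl
    refine ⟨g i, fun d => ?_⟩
    have hl : RSV.pr2 (d : U) i < J' := hpr _ _ (hJ₁ d) hi
    have h3 := hPQ' _ ⟨d, i, Set.mem_univ _, rfl⟩ hl
    rw [hVval] at h3
    have h4 := hi' d (hJ₂ d)
    refine ⟨fun hp => ?_, fun hp => ?_, fun hp hn => ?_⟩
    · have h5 := h4.1 ((hPP' d).2 hp)
      rw [← gpoly_eval]
      exact num2 hE h3 (by linarith)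
    · have h5 := h4.2 ((hNN' d).2 hp)
      rw [← gpoly_eval]
      have h3' : |-(gpoly r d v).eval (g i) -
          (Q' (RSV.pr2 (d : U) i) - P' (RSV.pr2 (d : U) i)) / B.e (b + 3)| ≤
          1 / B.e (b + 3) := by
        rw [← abs_neg]
        convert h3 using 2
        ring
      have := num2 hE h3' (by linarith)
      linarith
    · rw [← gpoly_eval, hzero d hp hn, eval_zero]

end BIP

end Pool.Agent.RSV
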