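import Pool.Agent.RSV.CdCalc
import Pool.Agent.RSV.Specs

/-!
# COV: coverage

All elements algebraic over a finitely generated field form (a part of) one internally
approximable family.
-/

namespace Pool.Agent.RSV

universe u v

namespace CovAux

open BIP

/-! ### codes -/

/-- every finite sequence has a code -/
theorem exists_dec (n : ℕ) (h : ℕ → ℕ) : ∃ δ : ℕ, ∀ i < n, dec δ i = h i := by
  refine ⟨Nat.unbeta ((List.range n).map h), fun i hi => ?_⟩
  have := Nat.beta_unbeta_coe ((List.range n).map h) ⟨i, by simpa using hi⟩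
  simpa [dec] using this

theorem primrec_dec : Primrec₂ dec := by
  have h1 : Primrec₂ (fun δ i : ℕ => δ.unpair.1) :=
    (Primrec.fst.comp (Primrec.unpair.comp Primrec.fst)).to₂
  have h2 : Primrec₂ (fun δ i : ℕ => δ.unpair.2) :=
    (Primrec.snd.comp (Primrec.unpair.comp Primrec.fst)).to₂
  have h3 : Primrec₂ (fun δ i : ℕ => (i + 1) * δ.unpair.2 + 1) :=
    (Primrec.succ.comp (Primrec.nat_mul.comp (Primrec.succ.comp Primrec.snd) h2)).to₂
  exact (Primrec.nat_mod.comp h1 h3).to₂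

/-- the `k`-th entry of the `t`-th row -/
def ent (k δ t : ℕ) : ℕ := dec δ (Nat.pair t k + 1)

theorem primrec_ent (k : ℕ) : Primrec₂ (ent k) := by
  have h1 : Primrec₂ (fun δ t : ℕ => Nat.pair t k + 1) :=
    (Primrec.succ.comp (Primrec₂.natPair.comp Primrec.snd (Primrec.const k))).to₂
  exact (primrec_dec.comp Primrec.fst h1).to₂

/-- every finite table (with a given number in front) has a code -/
theorem exists_ent (n m : ℕ) (c : ℕ) (h : ℕ → ℕ → ℕ) :
    ∃ δ : ℕ, dec δ 0 = c ∧ ∀ t < n, ∀ k < m, ent k δ t = h t k := by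
  set N := (Finset.range n ×ˢ Finset.range m).sup (fun p => Nat.pair p.1 p.2) + 2 with hN
  obtain ⟨δ, hδ⟩ := exists_dec N (fun i => if i = 0 then c else h (i - 1).unpair.1 (i - 1).unpair.2)
  refine ⟨δ, ?_, fun t ht k hk => ?_⟩
  · rw [hδ 0 (by omega)]; simp
  · have h1 : Nat.pair t k ≤ (Finset.range n ×ˢ Finset.range m).sup (fun p => Nat.pair p.1 p.2) :=
      Finset.le_sup (f := fun p : ℕ × ℕ => Nat.pair p.1 p.2) (b := (t, k)) (by simp [ht, hk])
    rw [ent, hδ _ (by omega)]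
    simp

section

variable {U : Type u} {R : Type v} [CommSemiring U] [LinearOrder U] [IsStrictOrderedRing U]
  [CanonicallyOrderedAdd U] [Field R] [LinearOrder R] [IsStrictOrderedRing R]

/-- the standard numbers -/
def Std (U : Type u) [CommSemiring U] : Set U := {i | ∃ n : ℕ, i = n}

/-- the pairs of standard numbers -/
def Std2 (U : Type u) [CommSemiring U] : Set U := {i | ∃ a b : ℕ, i = pr2 (a : U) (b : U)}

open Classical in
/-- the value of a standard number -/
noncomputable def toNat (i : U) : ℕ := if h : ∃ n : ℕ, i = n then h.choose else 0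

omit [CanonicallyOrderedAdd U] in
theorem cast_inj' {m n : ℕ} (h : (m : U) = (n : U)) : m = n := by
  have : CharZero U := inferInstance
  exact_mod_cast h

@[simp] theorem toNat_natCast (n : ℕ) : toNat (n : U) = n := by
  have h : ∃ m : ℕ, (n : U) = m := ⟨n, rfl⟩
  unfold toNat
  rw [dif_pos h]
  exact (cast_inj' h.choose_spec).symm

section

variable (B : BIP U R)

include B

theorem std_of_le {x : U} {n : ℕ} (h : x ≤ n) : ∃ m : ℕ, x = m := by
  obtain ⟨m, -, hm⟩ := B.exists_nat_of_le x n h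
  exact ⟨m, hm⟩

theorem p1_std (n : ℕ) : ∃ m : ℕ, p1 (n : U) = m := by
  unfold p1
  split_ifs with h
  · refine std_of_le B (n := n) ?_
    have h2 := h.choose_spec
    obtain ⟨k, hk⟩ := h2
    calc h.choose ≤ pr2 h.choose k := B.le_pr2_left _ _
      _ = n := hk
  · exact ⟨0, by simp⟩

theorem p2_std (n : ℕ) : ∃ m : ℕ, p2 (n : U) = m := by
  unfold p2
  split_ifs with h
  · refine std_of_le B (n := n) ?_
    have h2 := h.choose_spec.choose_spec
    calc h.choose_spec.choose ≤ pr2 h.choose h.choose_spec.choose := B.le_pr2_right _ _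
      _ = n := h2
  · exact ⟨0, by simp⟩

end

variable {B : BIP U R}

/-- internal extensions of computable functions of the components of a pair -/
theorem exists_F1_pair (hIF2 : Stmt_IF2.{u, v}) {f : ℕ → ℕ → ℕ} (hf : Computable₂ f) :
    ∃ g : U → U, B.F1 g ∧ (∀ a b : ℕ, g (pr2 (a : U) (b : U)) = (f a b : U)) ∧
      ∀ n : ℕ, ∃ m : ℕ, g n = m := by
  obtain ⟨g, hg, hgf⟩ := hIF2 U R B f hf
  refine ⟨fun i => g (p1 i) (p2 i), ?_, fun a b => ?_, fun n => ?_⟩
  · have := F.comp (B := B) hg (g := fun n v => if n = 0 then p1 (v 0) else p2 (v 0)) (by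
      intro i
      by_cases hi : i = 0
      · simp only [hi, if_true]; exact F.p1 (F.var 0)
      · simp only [hi, if_false]; exact F.p2 (F.var 0))
    simpa [F1] using this
  · show g (p1 _) (p2 _) = _
    rw [B.p1_pr2, B.p2_pr2, hgf]
  · obtain ⟨a, ha⟩ := p1_std B n
    obtain ⟨b, hb⟩ := p2_std B n
    exact ⟨f a b, by simp only [ha, hb, hgf]⟩

theorem cd_natCast2 (hIF2 : Stmt_IF2.{u, v}) {f : ℕ → ℕ → ℕ} (hf : Computable₂ f) :
    ∃ z : U → R, B.Cd (Std2 U) z ∧ ∀ a b : ℕ, z (pr2 (a : U) (b : U)) = f a b := by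
  obtain ⟨g, hg, hgf, hgs⟩ := exists_F1_pair (B := B) hIF2 hf
  obtain ⟨z, hz, hzn⟩ := Cd.natCast (B := B) (f := id) Computable.id
  refine ⟨fun i => z (g i), ?_, fun a b => ?_⟩
  · refine (hz.reindex hg (fun n => ?_)).mono ?_
    · obtain ⟨m, hm⟩ := hgs n; exact ⟨m, hm.le⟩
    · rintro i ⟨a, b, rfl⟩
      exact ⟨f a b, hgf a b⟩
  · show z (g (pr2 (a : U) (b : U))) = _
    rw [hgf, hzn]; rfl

theorem cd_prod {ι : Type*} (s : Finset ι) {A : Set U} (x : ι → U → R) (h : ∀ j ∈ s, B.Cd A (x j)) :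
    B.Cd A (fun i => ∏ j ∈ s, x j i) := by
  classical
  induction s using Finset.induction_on with
  | empty => simpa using (Cd.const (B := B) (1 : R)).mono (Set.subset_univ A)
  | insert a s ha ih =>
    have h1 := h a (Finset.mem_insert_self a s)
    have h2 := ih (fun j hj => h j (Finset.mem_insert_of_mem hj))
    simpa [Finset.prod_insert ha] using h1.mul h2

theorem f_sum {ι : Type*} (s : Finset ι) (f : ι → (ℕ → U) → U) (h : ∀ j ∈ s, B.F (f j)) :
    B.F (fun v => ∑ j ∈ s, f j v) := by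
  classical
  induction s using Finset.induction_on with
  | empty => simpa using F.const (B := B) (0 : U)
  | insert a s ha ih =>
    have h1 := h a (Finset.mem_insert_self a s)
    have h2 := ih (fun j hj => h j (Finset.mem_insert_of_mem hj))
    simpa [Finset.sum_insert ha] using F.add h1 h2

variable (B) in
include B in
theorem udiv_le (a b : U) : udiv a b ≤ a := by
  rcases (zero_le : (0 : U) ≤ b).eq_or_lt with h | h
  · subst h
    unfold udiv
    rw [dif_neg]
    · exact zero_le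
    · rintro ⟨q, r, -, hr⟩
      exact absurd hr (not_lt.mpr zero_le)
  · have h1 := B.div_add_md a b h
    have h2 : 1 ≤ b := by
      have := (B.succ_le_iff 0 b).mpr h
      simpa using this
    calc udiv a b = 1 * udiv a b := (one_mul _).symm
      _ ≤ b * udiv a b := mul_le_mul_of_nonneg_right h2 zero_le
      _ ≤ b * udiv a b + umod a b := le_self_add
      _ = a := h1

section Mon

variable (B) {r l : ℕ} (a : Fin r → R) (y : Fin l → U)

/-- the exponent of two in a row -/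
noncomputable def expo (r : ℕ) (y : Fin l → U) (δ t : ℕ) : U :=
  udiv (∑ j : Fin l, (ent (3 + r + j) δ t : U) * y j) (ent 2 δ t : U)

/-- the monomial coded by a row -/
noncomputable def mon (δ t : ℕ) : R :=
  ((ent 0 δ t : R) - (ent 1 δ t : R)) * (∏ j : Fin r, a j ^ ent (3 + j) δ t) *
    B.e (expo r y δ t)

/-- the sum of monomials with code `δ` -/
noncomputable def sm (δ : ℕ) : R := ∑ t ∈ Finset.range (dec δ 0), mon B a y δ t

/-- quotients -/
noncomputable def ell (n : ℕ) : R := sm B a y n.unpair.1 * (sm B a y n.unpair.2)⁻¹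

variable {B}

theorem computable_ent (k : ℕ) : Computable₂ (ent k) := (primrec_ent k).to_comp

theorem cd_mon (hIF2 : Stmt_IF2.{u, v}) :
    B.Cd (Std2 U) (fun i => mon B a y (toNat (p1 i)) (toNat (p2 i))) := by
  obtain ⟨z0, hz0, hz0'⟩ := cd_natCast2 (B := B) hIF2 (computable_ent 0)
  obtain ⟨z1, hz1, hz1'⟩ := cd_natCast2 (B := B) hIF2 (computable_ent 1)
  choose g hg hgv hgs using fun k => exists_F1_pair (B := B) hIF2 (computable_ent k)
  -- powers
  have hpow : ∀ j : Fin r, ∃ w : U → R, B.Cd (Std2 U) w ∧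
      ∀ δ t : ℕ, w (pr2 (δ : U) (t : U)) = a j ^ ent (3 + j) δ t := by
    intro j
    obtain ⟨z, hz, hz'⟩ := (Cd.const (B := B) (a j)).pow
    have hgF : B.F1 (fun i => pr2 0 (g (3 + j) i)) := F.pr2 (F.const 0) (hg (3 + j))
    refine ⟨fun i => z (pr2 0 (g (3 + j) i)), (hz.reindex hgF ?_).mono ?_, fun δ t => ?_⟩
    · intro n
      obtain ⟨m, hm⟩ := hgs (3 + j) n
      refine ⟨pr2 0 m, ?_⟩
      have := pr2_natCast (U := U) 0 m
      simp only [Nat.cast_zero] at this
      simp only [hm, this]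
      exact le_refl _
    · rintro i ⟨δ, t, rfl⟩
      exact ⟨0, Set.mem_univ _, ent (3 + j) δ t, by simp only [hgv]⟩
    · have := hz' 0 (Set.mem_univ _) (ent (3 + j) δ t)
      simp only [hgv]
      exact this
  choose w hw hw' using hpow
  -- powers of two
  obtain ⟨J, hJ⟩ := B.exists_nonstd
  have hGF : B.F1 (fun i => udiv (∑ j : Fin l, g (3 + r + j) i * y j) (g 2 i)) := by
    refine F.div (f_sum _ _ (fun j _ => F.mul (hg _) (F.const _))) (hg 2)
  have he := Cd.e (A := Std2 U) hGF (∑ j : Fin l, J * y j) (by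
    rintro i ⟨δ, t, rfl⟩
    refine (udiv_le B _ _).trans (Finset.sum_le_sum (fun j _ => ?_))
    rw [hgv]
    exact mul_le_mul_of_nonneg_right (hJ _).le zero_le)
  refine (((hz0.sub hz1).mul (cd_prod Finset.univ w (fun j _ => hw j))).mul he).congr ?_
  rintro i ⟨δ, t, rfl⟩
  simp only [hz0', hz1', hw', hgv, B.p1_pr2, B.p2_pr2, toNat_natCast, mon, expo]

theorem cd_sm (hIF : Stmt_IF.{u, v}) (hIF2 : Stmt_IF2.{u, v}) :
    B.Cd (Std U) (fun i => sm B a y (toNat i)) := by
  have hc : Computable (fun δ => dec δ 0) :=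
    (primrec_dec.comp Primrec.id (Primrec.const 0)).to_comp
  obtain ⟨g, hg, hgv⟩ := hIF U R B _ hc
  refine ((cd_mon (B := B) a y hIF2).sum hg (A' := Std U) (fun i => dec (toNat i) 0) ?_).congr ?_
  · rintro i ⟨δ, rfl⟩
    refine ⟨by simp only [hgv, toNat_natCast], fun k _ => ⟨δ, k, rfl⟩⟩
  · rintro i ⟨δ, rfl⟩
    simp only [toNat_natCast, B.p1_pr2, B.p2_pr2, sm]

theorem cd_ell (hIF : Stmt_IF.{u, v}) (hIF2 : Stmt_IF2.{u, v}) (b : U)
    (hb : ∀ δ, sm B a y δ ≠ 0 → 1 / B.e b ≤ |sm B a y δ|) :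
    B.Cd (Std U) (fun i => ell B a y (toNat i)) := by
  have h1 := cd_sm (B := B) a y hIF hIF2
  have h2 := h1.inv b (by rintro i ⟨δ, rfl⟩ h; exact hb _ h)
  have hc1 : Computable (fun n : ℕ => n.unpair.1) :=
    (Primrec.fst.comp Primrec.unpair).to_comp
  have hc2 : Computable (fun n : ℕ => n.unpair.2) :=
    (Primrec.snd.comp Primrec.unpair).to_comp
  obtain ⟨g1, hg1, hgv1⟩ := hIF U R B _ hc1
  obtain ⟨g2, hg2, hgv2⟩ := hIF U R B _ hc2
  have h3 := (h1.reindex hg1 (fun n => ⟨n.unpair.1, by rw [hgv1]⟩)).mono (A' := Std U) (by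
    rintro i ⟨n, rfl⟩; exact ⟨n.unpair.1, by rw [hgv1]⟩)
  have h4 := (h2.reindex hg2 (fun n => ⟨n.unpair.2, by rw [hgv2]⟩)).mono (A' := Std U) (by
    rintro i ⟨n, rfl⟩; exact ⟨n.unpair.2, by rw [hgv2]⟩)
  refine (h3.mul h4).congr ?_
  rintro i ⟨n, rfl⟩
  simp only [hgv1, hgv2, toNat_natCast, ell]

end Mon

/-! ### the field generated by the parameters and the magnitudes -/

section Floor

variable (B)

include B

theorem udiv_eq {A b t ρ : U} (h : A = b * t + ρ) (hr : ρ < b) : udiv A b = t := by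
  have hb : 0 < b := lt_of_le_of_lt zero_le hr
  have h1 := B.div_add_md A b hb
  have h2 := B.md_lt A b hb
  exact (B.div_unique (h1.trans h) h2 hr).1

theorem udiv_zero_right (A : U) : udiv A (0 : U) = 0 := by
  unfold udiv
  rw [dif_neg]
  rintro ⟨q, r, -, hr⟩
  exact absurd hr (not_lt.mpr zero_le)

theorem floor_add (A₁ A₂ : U) (q₁ q₂ : ℕ) (h₁ : 1 ≤ q₁) (h₂ : 1 ≤ q₂) :
    udiv ((q₂ : U) * A₁ + (q₁ : U) * A₂) ((q₁ * q₂ : ℕ) : U) =
        udiv A₁ (q₁ : U) + udiv A₂ (q₂ : U) ∨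
      udiv ((q₂ : U) * A₁ + (q₁ : U) * A₂) ((q₁ * q₂ : ℕ) : U) =
        udiv A₁ (q₁ : U) + udiv A₂ (q₂ : U) + 1 := by
  have p₁ : (0 : U) < (q₁ : U) := by exact_mod_cast h₁
  have p₂ : (0 : U) < (q₂ : U) := by exact_mod_cast h₂
  obtain ⟨e₁, l₁⟩ := And.intro (B.div_add_md A₁ _ p₁) (B.md_lt A₁ _ p₁)
  obtain ⟨e₂, l₂⟩ := And.intro (B.div_add_md A₂ _ p₂) (B.md_lt A₂ _ p₂)
  set t₁ := udiv A₁ (q₁ : U)
  set t₂ := udiv A₂ (q₂ : U)
  set ρ₁ := umod A₁ (q₁ : U)
  set ρ₂ := umod A₂ (q₂ : U)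
  have key : (q₂ : U) * A₁ + (q₁ : U) * A₂ =
      ((q₁ * q₂ : ℕ) : U) * (t₁ + t₂) + ((q₂ : U) * ρ₁ + (q₁ : U) * ρ₂) := by
    rw [← e₁, ← e₂]; push_cast; ring
  rcases lt_or_ge ((q₂ : U) * ρ₁ + (q₁ : U) * ρ₂) ((q₁ * q₂ : ℕ) : U) with h | h
  · left; exact udiv_eq B key h
  · right
    obtain ⟨c, hc⟩ := exists_add_of_le h
    refine udiv_eq B (ρ := c) ?_ ?_
    · rw [key, hc]; ring
    · have h3 : (q₂ : U) * ρ₁ + (q₁ : U) * ρ₂ < ((q₁ * q₂ : ℕ) : U) + ((q₁ * q₂ : ℕ) : U) := by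
        have a1 : (q₂ : U) * ρ₁ < (q₂ : U) * q₁ := mul_lt_mul_of_pos_left l₁ p₂
        have a2 : (q₁ : U) * ρ₂ < (q₁ : U) * q₂ := mul_lt_mul_of_pos_left l₂ p₁
        calc (q₂ : U) * ρ₁ + (q₁ : U) * ρ₂ < (q₂ : U) * q₁ + (q₁ : U) * q₂ := add_lt_add a1 a2
          _ = _ := by push_cast; ring
      rw [hc] at h3
      exact lt_of_add_lt_add_left h3

end Floor

section Field

variable (B) {r l : ℕ} (a : Fin r → R) (y : Fin l → U)

/-- the magnitudes -/
def mags (y : Fin l → U) : Set R :=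
  {x | ∃ (q : ℕ) (p : Fin l → ℕ), x = B.e (udiv (∑ j, (p j : U) * y j) (q : U))}

/-- the monomials -/
def mons (a : Fin r → R) (y : Fin l → U) : Set R :=
  {x | ∃ (α : Fin r → ℕ) (q : ℕ) (p : Fin l → ℕ), 1 ≤ q ∧
    x = (∏ j, a j ^ α j) * B.e (udiv (∑ j, (p j : U) * y j) (q : U))}

/-- the field -/
def Lf (a : Fin r → R) (y : Fin l → U) : Subfield R :=
  Subfield.closure (Set.range a ∪ mags B y)

theorem mon_mem (δ t : ℕ) : mon B a y δ t ∈ Lf B a y := by
  refine mul_mem (mul_mem (sub_mem (_root_.natCast_mem _ _) (_root_.natCast_mem _ _)) ?_) ?_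
  · refine prod_mem (fun j _ => pow_mem ?_ _)
    exact Subfield.subset_closure (Or.inl ⟨j, rfl⟩)
  · refine Subfield.subset_closure (Or.inr ⟨ent 2 δ t, fun j => ent (3 + r + j) δ t, rfl⟩)

theorem sm_mem (δ : ℕ) : sm B a y δ ∈ Lf B a y := sum_mem (fun t _ => mon_mem B a y δ t)

theorem ell_mem (n : ℕ) : ell B a y n ∈ Lf B a y :=
  mul_mem (sm_mem B a y _) (inv_mem (sm_mem B a y _))

/-- the value of a row -/
noncomputable def rowval (ρ : ℕ → ℕ) : R :=
  ((ρ 0 : R) - (ρ 1 : R)) * (∏ j : Fin r, a j ^ ρ (3 + j)) *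
    B.e (udiv (∑ j : Fin l, (ρ (3 + r + j) : U) * y j) (ρ 2 : U))

theorem rowval_congr {ρ ρ' : ℕ → ℕ} (h : ∀ k < 3 + r + l, ρ k = ρ' k) :
    rowval B a y ρ = rowval B a y ρ' := by
  have h1 : ∀ j : Fin r, ρ (3 + j) = ρ' (3 + j) := fun j => h _ (by have := j.2; omega)
  have h2 : ∀ j : Fin l, ρ (3 + r + j) = ρ' (3 + r + j) := fun j => h _ (by have := j.2; omega)
  simp only [rowval, h 0 (by omega), h 1 (by omega), h 2 (by omega), h1, h2]

theorem exists_sm_of_rows (n : ℕ) (h : ℕ → ℕ → ℕ) :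
    ∃ δ, sm B a y δ = ∑ t ∈ Finset.range n, rowval B a y (h t) := by
  obtain ⟨δ, h0, hδ⟩ := exists_ent n (3 + r + l) n h
  refine ⟨δ, ?_⟩
  rw [sm, h0]
  refine Finset.sum_congr rfl (fun t ht => ?_)
  have : mon B a y δ t = rowval B a y (fun k => ent k δ t) := rfl
  rw [this]
  exact rowval_congr B a y (fun k hk => hδ t (Finset.mem_range.mp ht) k hk)

theorem exists_rows {x : R} (hx : x ∈ AddSubgroup.closure (mons B a y)) :
    ∃ (n : ℕ) (h : ℕ → ℕ → ℕ), x = ∑ t ∈ Finset.range n, rowval B a y (h t) := by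
  induction hx using AddSubgroup.closure_induction with
  | mem x hx =>
    obtain ⟨α, q, p, hq, rfl⟩ := hx
    refine ⟨1, fun _ k => if k = 0 then 1 else if k = 1 then 0 else if k = 2 then q else
      if h : k - 3 < r then α ⟨k - 3, h⟩ else if h' : k - 3 - r < l then p ⟨k - 3 - r, h'⟩ else 0, ?_⟩
    simp only [Finset.range_one, Finset.sum_singleton, rowval]
    have h1 : ∀ j : Fin r, (if 3 + (j : ℕ) = 0 then 1 else if 3 + (j : ℕ) = 1 then 0 else
        if 3 + (j : ℕ) = 2 then q else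
        if h : 3 + (j : ℕ) - 3 < r then α ⟨3 + (j : ℕ) - 3, h⟩ else
        if h' : 3 + (j : ℕ) - 3 - r < l then p ⟨3 + (j : ℕ) - 3 - r, h'⟩ else 0) = α j := by
      intro j
      rw [if_neg (by omega), if_neg (by omega), if_neg (by omega), dif_pos (by have := j.2; omega)]
      congr 1
      ext
      simp
    have h2 : ∀ j : Fin l, (if 3 + r + (j : ℕ) = 0 then 1 else if 3 + r + (j : ℕ) = 1 then 0 else
        if 3 + r + (j : ℕ) = 2 then q else
        if h : 3 + r + (j : ℕ) - 3 < r then α ⟨3 + r + (j : ℕ) - 3, h⟩ else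
        if h' : 3 + r + (j : ℕ) - 3 - r < l then p ⟨3 + r + (j : ℕ) - 3 - r, h'⟩ else 0) = p j := by
      intro j
      rw [if_neg (by omega), if_neg (by omega), if_neg (by omega), dif_neg (by omega),
        dif_pos (by have := j.2; omega)]
      congr 1
      ext
      simp only
      omega
    simp only [h1, h2]
    simp
  | zero => exact ⟨0, fun _ _ => 0, by simp⟩
  | add x y' _ _ hx hy =>
    obtain ⟨n, h, rfl⟩ := hx
    obtain ⟨n', h', rfl⟩ := hy
    refine ⟨n + n', fun t => if t < n then h t else h' (t - n), ?_⟩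
    rw [Finset.sum_range_add]
    congr 1
    · refine Finset.sum_congr rfl (fun t ht => ?_)
      simp only [if_pos (Finset.mem_range.mp ht)]
    · refine Finset.sum_congr rfl (fun t _ => ?_)
      have : ¬ (n + t < n) := by omega
      simp only [if_neg this, Nat.add_sub_cancel_left]
  | neg x _ hx =>
    obtain ⟨n, h, rfl⟩ := hx
    refine ⟨n, fun t k => h t (if k = 0 then 1 else if k = 1 then 0 else k), ?_⟩
    rw [← Finset.sum_neg_distrib]
    refine Finset.sum_congr rfl (fun t _ => ?_)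
    have h1 : ∀ j : Fin r, (if 3 + (j : ℕ) = 0 then 1 else if 3 + (j : ℕ) = 1 then 0 else
      3 + (j : ℕ)) = 3 + (j : ℕ) := fun j => by rw [if_neg (by omega), if_neg (by omega)]
    have h2 : ∀ j : Fin l, (if 3 + r + (j : ℕ) = 0 then 1 else if 3 + r + (j : ℕ) = 1 then 0 else
      3 + r + (j : ℕ)) = 3 + r + (j : ℕ) := fun j => by rw [if_neg (by omega), if_neg (by omega)]
    simp only [rowval, h1, h2]
    simp
    ring

theorem exists_sm {x : R} (hx : x ∈ AddSubgroup.closure (mons B a y)) :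
    ∃ δ, sm B a y δ = x := by
  obtain ⟨n, h, rfl⟩ := exists_rows B a y hx
  exact exists_sm_of_rows B a y n h

theorem two_mul_mons {u w : R} (hu : u ∈ mons B a y) (hw : w ∈ mons B a y) :
    2 * (u * w) ∈ AddSubgroup.closure (mons B a y) := by
  obtain ⟨α, q, p, hq, rfl⟩ := hu
  obtain ⟨α', q', p', hq', rfl⟩ := hw
  have hA : (∑ j, ((q' * p j + q * p' j : ℕ) : U) * y j) =
      (q' : U) * (∑ j, (p j : U) * y j) + (q : U) * (∑ j, (p' j : U) * y j) := by
    rw [Finset.mul_sum, Finset.mul_sum, ← Finset.sum_add_distrib]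
    refine Finset.sum_congr rfl (fun j _ => ?_)
    push_cast; ring
  have hm : (∏ j, a j ^ (α j + α' j)) *
      B.e (udiv (∑ j, ((q' * p j + q * p' j : ℕ) : U) * y j) ((q * q' : ℕ) : U)) ∈ mons B a y :=
    ⟨_, _, _, Nat.mul_pos hq hq', rfl⟩
  have hP : (∏ j, a j ^ (α j + α' j)) = (∏ j, a j ^ α j) * ∏ j, a j ^ α' j := by
    rw [← Finset.prod_mul_distrib]
    exact Finset.prod_congr rfl (fun j _ => pow_add _ _ _)
  rcases floor_add B (∑ j, (p j : U) * y j) (∑ j, (p' j : U) * y j) q q' hq hq' with h | h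
  · rw [hA, h, B.e_add, hP] at hm
    have h2 := (AddSubgroup.closure (mons B a y)).nsmul_mem (AddSubgroup.subset_closure hm) 2
    convert h2 using 1
    rw [nsmul_eq_mul]; push_cast; ring
  · rw [hA, h, B.e_add, B.e_add, B.e_one, hP] at hm
    have h2 : _ ∈ AddSubgroup.closure (mons B a y) := AddSubgroup.subset_closure hm
    convert h2 using 1
    ring

theorem two_mul_mem {u w : R} (hu : u ∈ AddSubgroup.closure (mons B a y))
    (hw : w ∈ AddSubgroup.closure (mons B a y)) :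
    2 * (u * w) ∈ AddSubgroup.closure (mons B a y) := by
  induction hu, hw using AddSubgroup.closure_induction₂ with
  | mem x z hx hz => exact two_mul_mons B a y hx hz
  | zero_left x hx => simp
  | zero_right x hx => simp
  | add_left x z w _ _ _ h1 h2 =>
    convert add_mem h1 h2 using 1
    ring
  | add_right z w x _ _ _ h1 h2 =>
    convert add_mem h1 h2 using 1
    ring
  | neg_left x z _ _ h =>
    convert neg_mem h using 1
    ring
  | neg_right x z _ _ h =>
    convert neg_mem h using 1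
    ring

theorem pow_two_mul_mem {u : R} (hu : u ∈ AddSubgroup.closure (mons B a y)) (C : ℕ) :
    2 ^ C * u ∈ AddSubgroup.closure (mons B a y) := by
  have := (AddSubgroup.closure (mons B a y)).nsmul_mem hu (2 ^ C)
  rwa [nsmul_eq_mul, Nat.cast_pow, Nat.cast_ofNat] at this

theorem mem_subring {x : R} (hx : x ∈ Subring.closure (Set.range a ∪ mags B y)) :
    ∃ C : ℕ, 2 ^ C * x ∈ AddSubgroup.closure (mons B a y) := by
  have hz : udiv (∑ j, ((0 : ℕ) : U) * y j) ((1 : ℕ) : U) = 0 :=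
    udiv_eq B (ρ := 0) (by simp) (by simp)
  have h1 : (1 : R) ∈ mons B a y := by
    refine ⟨fun _ => 0, 1, fun _ => 0, le_refl _, ?_⟩
    rw [hz, B.e_zero]; simp
  induction hx using Subring.closure_induction with
  | mem x hx =>
    rcases hx with ⟨j, rfl⟩ | ⟨q, p, rfl⟩
    · refine ⟨0, ?_⟩
      rw [pow_zero, one_mul]
      refine AddSubgroup.subset_closure ⟨fun i => if i = j then 1 else 0, 1, fun _ => 0, le_refl _, ?_⟩
      rw [hz, B.e_zero]
      simp
    · refine ⟨0, ?_⟩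
      rw [pow_zero, one_mul]
      rcases Nat.eq_zero_or_pos q with rfl | hq
      · rw [Nat.cast_zero, udiv_zero_right B, B.e_zero]
        exact AddSubgroup.subset_closure h1
      · exact AddSubgroup.subset_closure ⟨fun _ => 0, q, p, hq, by simp⟩
  | zero => exact ⟨0, by simp⟩
  | one => exact ⟨0, by simpa using AddSubgroup.subset_closure h1⟩
  | add x z _ _ h1 h2 =>
    obtain ⟨C, hC⟩ := h1
    obtain ⟨D, hD⟩ := h2
    refine ⟨C + D, ?_⟩
    convert add_mem (pow_two_mul_mem B a y hC D) (pow_two_mul_mem B a y hD C) using 1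
    ring
  | neg x _ h =>
    obtain ⟨C, hC⟩ := h
    refine ⟨C, ?_⟩
    convert neg_mem hC using 1
    ring
  | mul x z _ _ h1 h2 =>
    obtain ⟨C, hC⟩ := h1
    obtain ⟨D, hD⟩ := h2
    refine ⟨1 + (C + D), ?_⟩
    convert two_mul_mem B a y hC hD using 1
    ring

theorem exists_ell {x : R} (hx : x ∈ Lf B a y) : ∃ n, ell B a y n = x := by
  obtain ⟨u, hu, w, hw, rfl⟩ := Subfield.mem_closure_iff.mp hx
  obtain ⟨C, hC⟩ := mem_subring B a y hu
  obtain ⟨D, hD⟩ := mem_subring B a y hw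
  obtain ⟨δ, hδ⟩ := exists_sm B a y (pow_two_mul_mem B a y hC D)
  obtain ⟨δ', hδ'⟩ := exists_sm B a y (pow_two_mul_mem B a y hD C)
  refine ⟨Nat.pair δ δ', ?_⟩
  have h2 : (2 : R) ^ (C + D) ≠ 0 := by positivity
  rw [ell, Nat.unpair_pair, hδ, hδ']
  have e1 : (2 : R) ^ D * (2 ^ C * u) = 2 ^ (C + D) * u := by ring
  have e2 : (2 : R) ^ C * (2 ^ D * w) = 2 ^ (C + D) * w := by ring
  rw [e1, e2, mul_inv, div_eq_mul_inv]
  field_simp

theorem e_sum {ι : Type*} (s : Finset ι) (f : ι → U) :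
    B.e (∑ j ∈ s, f j) = ∏ j ∈ s, B.e (f j) := by
  classical
  induction s using Finset.induction_on with
  | empty => simp [B.e_zero]
  | insert a s ha ih => rw [Finset.sum_insert ha, Finset.prod_insert ha, B.e_add, ih]

theorem isAlgebraic_of_mem {x : R} (hx : x ∈ Lf B a y) :
    IsAlgebraic (Subfield.closure (Set.range a ∪ Set.range (fun j => B.e (y j)))) x := by
  set K := Subfield.closure (Set.range a ∪ Set.range (fun j => B.e (y j))) with hK
  have hle : Lf B a y ≤ (algebraicClosure K R).toSubfield := by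
    refine Subfield.closure_le.mpr ?_
    rintro z (⟨j, rfl⟩ | ⟨q, p, rfl⟩)
    · show a j ∈ algebraicClosure K R
      rw [mem_algebraicClosure_iff]
      exact isAlgebraic_algebraMap (⟨a j, Subfield.subset_closure (Or.inl ⟨j, rfl⟩)⟩ : K)
    · show _ ∈ algebraicClosure K R
      rw [mem_algebraicClosure_iff]
      rcases Nat.eq_zero_or_pos q with rfl | hq
      · rw [Nat.cast_zero, udiv_zero_right B, B.e_zero]
        exact isAlgebraic_one
      · have hq' : (0 : U) < (q : U) := by exact_mod_cast hq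
        refine IsAlgebraic.of_pow hq ?_
        have h1 := B.div_add_md (∑ j, (p j : U) * y j) (q : U) hq'
        have h2 := B.md_lt (∑ j, (p j : U) * y j) (q : U) hq'
        obtain ⟨ρ, hρ⟩ := std_of_le B h2.le
        have h3 : B.e (udiv (∑ j, (p j : U) * y j) (q : U)) ^ q =
            (∏ j, B.e (y j) ^ p j) / 2 ^ ρ := by
          rw [eq_div_iff (by positivity), ← B.e_natCast_mul, ← B.e_natCast, ← hρ, ← B.e_add, h1,
            e_sum]
          exact Finset.prod_congr rfl (fun j _ => B.e_natCast_mul _ _)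
        have h4 : (∏ j, B.e (y j) ^ p j) / 2 ^ ρ ∈ K := by
          refine div_mem (prod_mem (fun j _ => pow_mem ?_ _)) (pow_mem ?_ _)
          · exact Subfield.subset_closure (Or.inr ⟨j, rfl⟩)
          · exact ofNat_mem K 2
        rw [h3]
        exact isAlgebraic_algebraMap (⟨_, h4⟩ : K)
  have := hle hx
  exact mem_algebraicClosure_iff.mp this

end Field

/-! ### uniqueness of the dominant root -/

/-- the data of the structure theorem -/
def Good (β : ℕ → R) (d : ℕ) (w : R) (γ : ℕ → R) : Prop :=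
  1 ≤ d ∧ γ 0 = -1 ∧ γ d = 0 ∧ (∀ k ≤ d, |γ k| ≤ 2 ^ d) ∧ 2 ^ (d + 5) ≤ w ∧ (∃ n : ℕ, w ≤ n) ∧
    ∀ k, 1 ≤ k → k ≤ d → β k = γ k - w * γ (k - 1)

theorem Good.unique {β : ℕ → R} {d : ℕ} {w w' : R} {γ γ' : ℕ → R} (h : Good β d w γ)
    (h' : Good β d w' γ') : w = w' := by
  obtain ⟨hd, h0, hdd, hb, hw, -, hβ⟩ := h
  obtain ⟨-, h0', hdd', hb', hw', -, hβ'⟩ := h'
  -- the sequence `T k = ∑ j < k, w ^ (k - 1 - j) * γ' j`
  let T : ℕ → R := fun k => Nat.rec 0 (fun k t => w * t + γ' k) k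
  have hT0 : T 0 = 0 := rfl
  have hTs : ∀ k, T (k + 1) = w * T k + γ' k := fun k => rfl
  have h1 : ∀ k ≤ d, γ k - γ' k = (w - w') * T k := by
    intro k
    induction k with
    | zero => intro _; rw [h0, h0', hT0]; ring
    | succ k ih =>
      intro hk
      have e1 := hβ (k + 1) (by omega) hk
      have e2 := hβ' (k + 1) (by omega) hk
      simp only [Nat.add_sub_cancel] at e1 e2
      have e3 := ih (by omega)
      have e4 : γ (k + 1) - γ' (k + 1) = w * γ k - w' * γ' k := by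
        have := e1.symm.trans e2
        linear_combination this
      rw [e4, hTs]
      linear_combination w * e3
  have hw2 : (2 : R) ^ d + 1 ≤ w := by
    have : (2 : R) ^ d + 1 ≤ 2 ^ (d + 5) := by
      have h3 : (1 : R) ≤ 2 ^ d := one_le_pow₀ (by norm_num)
      rw [pow_add]; linarith
    exact this.trans hw
  have hw0 : 0 ≤ w := by
    have h3 : (1 : R) ≤ 2 ^ d := one_le_pow₀ (by norm_num)
    linarith
  have h2 : ∀ k, 1 ≤ k → k ≤ d → T k ≤ -1 := by
    intro k hk
    induction k, hk using Nat.le_induction with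
    | base =>
      intro _
      have h10 : T 1 = w * T 0 + γ' 0 := rfl
      rw [h10, hT0, h0']; simp
    | succ k hk ih =>
      intro hkd
      have e1 := ih (by omega)
      have e2 := (abs_le.mp (hb' k (by omega))).2
      rw [hTs]
      nlinarith
  have h3 := h1 d (le_refl _)
  rw [hdd, hdd', sub_zero] at h3
  have h4 := h2 d hd (le_refl _)
  rcases mul_eq_zero.mp h3.symm with h5 | h5
  · linarith
  · rw [h5] at h4; linarith

end

end CovAux

open CovAux BIP in
/-- COV -/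
theorem cov (hIF : Stmt_IF.{u, v}) (hIF2 : Stmt_IF2.{u, v}) (hCT : Stmt_CT.{v})
    (hSc : Stmt_Scale.{u, v}) (hBd : Stmt_Bound.{u, v}) (hBF : Stmt_BernFam.{u, v}) :
    Stmt_Cov.{u, v} := by
  classical
  intro U R _ _ _ _ _ _ _ _ B s hs
  obtain ⟨r, a, ha⟩ : ∃ (r : ℕ) (a : Fin r → R), Set.range a = s := by
    have := hs.to_subtype
    obtain ⟨r, ⟨f⟩⟩ := Finite.exists_equiv_fin s
    exact ⟨r, fun j => (f.symm j : R), by
      ext x
      constructor
      · rintro ⟨j, rfl⟩; exact (f.symm j).2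
      · intro hx; exact ⟨f ⟨x, hx⟩, by simp⟩⟩
  obtain ⟨l, y, hy⟩ := hSc U R B s hs
  obtain ⟨b, hb⟩ := hBd U R B (Set.range a ∪ Set.range (fun j => B.e (y j)))
    ((Set.finite_range _).union (Set.finite_range _))
  have hell := cd_ell (B := B) a y hIF hIF2 b (fun δ hδ =>
    (hb _ hδ (isAlgebraic_of_mem B a y (sm_mem B a y δ))).1)
  -- the structure theorem
  have hKL : Subfield.closure s ≤ Lf B a y := by
    rw [← ha]; exact Subfield.closure_mono Set.subset_union_left
  have hval : ∀ x : R, x ≠ 0 → IsAlgebraic (Subfield.closure s) x →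
      ∃ c ∈ Lf B a y, ∃ n : ℕ, |x| ≤ n * |c| ∧ |c| ≤ n * |x| := by
    intro x hx hxa
    obtain ⟨p, p', q, C, t, t', hq, h1, h2, h3, h4, h5, h6⟩ := hy x hx hxa
    have key : ∀ (p : Fin l → ℕ) (t : U), (q : U) * t ≤ ∑ j, (p j : U) * y j →
        ∑ j, (p j : U) * y j < q * (t + 1) → B.e t ∈ Lf B a y := by
      intro p t h1 h2
      obtain ⟨ρ, hρ⟩ := exists_add_of_le h1
      have h3 : ρ < q := by
        rw [hρ, mul_add, mul_one] at h2
        exact lt_of_add_lt_add_left h2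
      refine Subfield.subset_closure (Or.inr ⟨q, p, ?_⟩)
      rw [udiv_eq B hρ h3]
    refine ⟨B.e t / B.e t', div_mem (key p t h1 h2) (key p' t' h3 h4), C, ?_⟩
    have et := B.e_pos t
    have et' := B.e_pos t'
    rw [abs_of_pos (div_pos et et')]
    constructor
    · rw [← mul_div_assoc, le_div_iff₀ et']; exact h5
    · rw [div_le_iff₀ et']; linarith
  have hct := hCT R (Subfield.closure s) (Lf B a y) hKL hval
  -- the good codes
  let β : ℕ → ℕ → R := fun δ k => ell B a y (dec δ (2 * k + 1))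
  have hW : ∀ i : U, ∃ (w : R) (γ : ℕ → R),
      (∃ w γ, Good (β (toNat i)) (dec (toNat i) 0) w γ) →
        Good (β (toNat i)) (dec (toNat i) 0) w γ := by
    intro i
    by_cases h : ∃ w γ, Good (β (toNat i)) (dec (toNat i) 0) w γ
    · obtain ⟨w, γ, h⟩ := h; exact ⟨w, γ, fun _ => h⟩
    · exact ⟨0, 0, fun h' => absurd h' h⟩
  choose W Γ hWΓ using hW
  let A : Set U := {i | ∃ δ : ℕ, i = δ ∧ ∃ w γ, Good (β δ) (dec δ 0) w γ}
  have hA : ∀ i ∈ A, Good (β (toNat i)) (dec (toNat i) 0) (W i) (Γ i) := by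
    rintro i ⟨δ, rfl, h⟩
    exact hWΓ _ (by simpa using h)
  -- the families of coefficients
  have hfam : ∀ c : ℕ, B.Cd (Std2 U)
      (fun i => ell B a y (dec (toNat (p1 i)) (2 * toNat (p2 i) + c))) := by
    intro c
    have hc : Computable₂ (fun δ k => dec δ (2 * k + c)) := by
      have h1 : Primrec₂ (fun δ k : ℕ => 2 * k + c) :=
        (Primrec.nat_add.comp (Primrec.nat_mul.comp (Primrec.const 2) Primrec.snd)
          (Primrec.const c)).to₂
      exact (primrec_dec.comp Primrec.fst h1).to₂.to_comp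
    obtain ⟨g, hg, hgv, hgs⟩ := exists_F1_pair (B := B) hIF2 hc
    have h1 := (hell.reindex hg (fun n => by
      obtain ⟨m, hm⟩ := hgs n; exact ⟨m, hm.le⟩)).mono (A' := Std2 U) (by
      rintro i ⟨δ, k, rfl⟩
      exact ⟨dec δ (2 * k + c), hgv δ k⟩)
    refine h1.congr ?_
    rintro i ⟨δ, k, rfl⟩
    simp only [hgv, toNat_natCast, B.p1_pr2, B.p2_pr2]
  have hcm : Computable (fun δ => dec δ 0) :=
    (primrec_dec.comp Primrec.id (Primrec.const 0)).to_comp
  obtain ⟨m, hm, hmv⟩ := hIF U R B _ hcm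
  obtain ⟨z, hz, hzv⟩ := hBF U R B A (Std2 U) _ m W (fun i => dec (toNat i) 0) Γ (hfam 1) hm (by
    intro i hi
    obtain ⟨h1, h2, h3, h4, h5, h6, h7⟩ := hA i hi
    obtain ⟨δ, rfl, -⟩ := hi
    refine ⟨by simp only [hmv, toNat_natCast], h1, h2, h3, h4, h5, h6, fun k hk hkd => ⟨⟨δ, k, rfl⟩, ?_⟩⟩
    have := h7 k hk hkd
    simp only [toNat_natCast, B.p1_pr2, B.p2_pr2]
    simpa [β] using this)
  have hprod := ((hfam 2).mono (A' := {j | ∃ i ∈ A, ∃ k : ℕ, j = pr2 i (k : U)}) (by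
    rintro j ⟨i, ⟨δ, rfl, -⟩, k, rfl⟩
    exact ⟨δ, k, rfl⟩)).mul hz
  have hsum := hprod.sum hm (A' := A) (fun i => dec (toNat i) 0) (by
    rintro i hi
    refine ⟨?_, fun k _ => ⟨i, hi, k, rfl⟩⟩
    obtain ⟨δ, rfl, -⟩ := hi
    simp only [hmv, toNat_natCast])
  refine ⟨A, _, hsum, fun c hc => ?_⟩
  obtain ⟨d, n, w, γ, α, hd, h0, hdd, hγ, hw, hwn, hβL, hαL, hcf⟩ := hct c hc
  -- coding
  have e1 : ∀ k, ∃ n, 1 ≤ k → k ≤ d → ell B a y n = γ k - w * γ (k - 1) := by
    intro k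
    by_cases h : 1 ≤ k ∧ k ≤ d
    · obtain ⟨n, hn⟩ := exists_ell B a y (hβL k h.1 h.2)
      exact ⟨n, fun _ _ => hn⟩
    · exact ⟨0, fun h1 h2 => absurd ⟨h1, h2⟩ h⟩
  choose N₁ hN₁ using e1
  choose N₂ hN₂ using fun k => exists_ell B a y (hαL k)
  obtain ⟨δ, hδ⟩ := exists_dec (2 * d + 3) (fun i => if i = 0 then d else
    if i % 2 = 1 then N₁ (i / 2) else N₂ (i / 2 - 1))
  have d0 : dec δ 0 = d := by rw [hδ 0 (by omega)]; simp
  have d1 : ∀ k ≤ d, dec δ (2 * k + 1) = N₁ k := by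
    intro k hk
    rw [hδ _ (by omega), if_neg (by omega), if_pos (by omega)]
    congr 1
    omega
  have d2 : ∀ k < d, dec δ (2 * k + 2) = N₂ k := by
    intro k hk
    rw [hδ _ (by omega), if_neg (by omega), if_neg (by omega)]
    congr 1
    omega
  have hgood : Good (β δ) (dec δ 0) w γ := by
    rw [d0]
    refine ⟨hd, h0, hdd, hγ, hw, ⟨n, hwn⟩, fun k hk hkd => ?_⟩
    simp only [β, d1 k hkd]
    exact hN₁ k hk hkd
  have hδA : (δ : U) ∈ A := ⟨δ, rfl, w, γ, hgood⟩
  refine ⟨δ, hδA, ?_⟩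
  have hWw : W (δ : U) = w := by
    have h1 := hA _ hδA
    rw [toNat_natCast] at h1
    exact h1.unique hgood
  rw [hcf]
  simp only [toNat_natCast, d0]
  refine Finset.sum_congr rfl (fun k hk => ?_)
  rw [hzv _ hδA k, hWw]
  simp only [B.p1_pr2, B.p2_pr2, toNat_natCast, d2 k (Finset.mem_range.mp hk), hN₂]

end Pool.Agent.RSV
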