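import Pool.Agent.RSV.Bits
import Pool.Agent.RSV.Specs

/-!
# FD: reciprocals of internal families
-/

namespace Pool.Agent.RSV.FD

universe u v

/-! ### Sums of powers of two -/

set_option linter.unusedSectionVars false

theorem exists_finset_twoPow : ∀ (c : ℕ) (M : Multiset ℕ), M.card = c →
    ∃ t : Finset ℕ, (M.map (fun x => 2 ^ x)).sum = ∑ x ∈ t, 2 ^ x ∧ t.card ≤ M.card ∧
      (¬ M.Nodup → t.card < M.card) := by
  intro c
  induction c with
  | zero =>
    intro M hM
    rw [Multiset.card_eq_zero] at hM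
    subst hM
    exact ⟨∅, by simp, by simp, fun h => absurd Multiset.nodup_zero h⟩
  | succ c ih =>
    intro M hM
    by_cases hn : M.Nodup
    · exact ⟨⟨M, hn⟩, rfl, le_rfl, fun h => absurd hn h⟩
    · rw [Multiset.nodup_iff_ne_cons_cons] at hn
      push Not at hn
      obtain ⟨a, M', rfl⟩ := hn
      simp only [Multiset.card_cons] at hM
      obtain ⟨t, h1, h2, -⟩ := ih ((a + 1) ::ₘ M') (by simp; omega)
      refine ⟨t, ?_, ?_, ?_⟩
      · rw [← h1]
        simp [pow_succ]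
        ring
      · simp only [Multiset.card_cons] at h2 ⊢
        omega
      · intro _
        simp only [Multiset.card_cons] at h2 ⊢
        omega

theorem twoPow_key {m : ℕ} (s : Finset ℕ) (f : Fin m → ℕ) (hs : s.card = m)
    (h : ∑ a, 2 ^ f a = ∑ l ∈ s, 2 ^ l) : Function.Injective f ∧ Finset.univ.image f = s := by
  have hinj : Function.Injective f := by
    by_contra hcon
    have hnd : ¬ (Finset.univ.val.map f).Nodup := by
      intro h1
      apply hcon
      intro a b hab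
      exact Multiset.inj_on_of_nodup_map h1 a (Finset.mem_univ_val a) b (Finset.mem_univ_val b) hab
    obtain ⟨t, h1, -, h3⟩ := exists_finset_twoPow _ (Finset.univ.val.map f) rfl
    have h4 := h3 hnd
    rw [Multiset.card_map, Finset.card_val, Finset.card_univ, Fintype.card_fin] at h4
    have h5 : ∑ x ∈ t, 2 ^ x = ∑ l ∈ s, 2 ^ l := by
      rw [← h, ← h1, Multiset.map_map]
      rfl
    have h6 : t = s := Finset.geomSum_injective (n := 2) le_rfl h5
    rw [h6, hs] at h4
    exact lt_irrefl _ h4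
  refine ⟨hinj, ?_⟩
  apply Finset.geomSum_injective (n := 2) le_rfl
  change ∑ x ∈ Finset.univ.image f, 2 ^ x = ∑ x ∈ s, 2 ^ x
  rw [Finset.sum_image (fun a _ b _ hab => hinj hab), h]

/-- The maps counted by the coefficient. -/
def good {m : ℕ} (i : Fin (m + 1)) (f : Fin m → Fin (m + 1)) : Prop :=
  Function.Injective f ∧ ∀ a, f a ≠ i

/-- The sum of the powers of two. -/
def sg {m j : ℕ} (f : Fin m → Fin j) : ℕ := ∑ a, 2 ^ (f a : ℕ)

theorem sum_range_twoPow (m : ℕ) : ∑ l ∈ Finset.range m, 2 ^ l = 2 ^ m - 1 := by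
  induction m with
  | zero => simp
  | succ m ih =>
    rw [Finset.sum_range_succ, ih, pow_succ]
    have := Nat.one_le_two_pow (n := m)
    omega

theorem sg_eq_iff {m : ℕ} (i : Fin (m + 1)) (f : Fin m → Fin (m + 1)) :
    sg f = 2 ^ (m + 1) - 1 - 2 ^ (i : ℕ) ↔ good i f := by
  have hs : ∑ l ∈ (Finset.range (m + 1)).erase (i : ℕ), 2 ^ l = 2 ^ (m + 1) - 1 - 2 ^ (i : ℕ) := by
    have h1 : (∑ l ∈ (Finset.range (m + 1)).erase (i : ℕ), 2 ^ l) + 2 ^ (i : ℕ) =
        ∑ l ∈ Finset.range (m + 1), 2 ^ l :=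
      Finset.sum_erase_add _ _ (Finset.mem_range.2 i.2)
    rw [sum_range_twoPow] at h1
    exact Nat.eq_sub_of_add_eq h1
  have hc : ((Finset.range (m + 1)).erase (i : ℕ)).card = m := by
    rw [Finset.card_erase_of_mem (Finset.mem_range.2 i.2), Finset.card_range]
    omega
  constructor
  · intro h
    obtain ⟨h1, h2⟩ := twoPow_key _ (fun a => (f a : ℕ)) hc (by rw [hs]; exact h)
    refine ⟨fun a b hab => h1 (by simp [hab]), fun a ha => ?_⟩
    have : (f a : ℕ) ∈ (Finset.range (m + 1)).erase (i : ℕ) := by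
      rw [← h2]
      exact Finset.mem_image_of_mem _ (Finset.mem_univ a)
    rw [ha] at this
    exact absurd rfl (Finset.mem_erase.1 this).1
  · rintro ⟨h1, h2⟩
    have h3 : Finset.univ.image (fun a => (f a : ℕ)) = (Finset.range (m + 1)).erase (i : ℕ) := by
      apply Finset.eq_of_subset_of_card_le
      · intro x hx
        obtain ⟨a, -, rfl⟩ := Finset.mem_image.1 hx
        exact Finset.mem_erase.2 ⟨fun h => h2 a (Fin.ext h), Finset.mem_range.2 (f a).2⟩
      · rw [hc, Finset.card_image_of_injective _ (fun a b hab => h1 (Fin.ext hab)),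
          Finset.card_univ, Fintype.card_fin]
    rw [← hs, ← h3, Finset.sum_image (fun a _ b _ hab => h1 (Fin.ext hab))]
    rfl

open Classical in
theorem card_good {m : ℕ} (i i' : Fin (m + 1)) :
    (Finset.univ.filter (good (m := m) i)).card = (Finset.univ.filter (good (m := m) i')).card := by
  apply Finset.card_nbij' (fun f => fun a => Equiv.swap i i' (f a))
    (fun f => fun a => Equiv.swap i i' (f a))
  · intro f hf
    simp only [Finset.coe_filter, Finset.mem_univ, true_and, Set.mem_ofPred_eq] at hf ⊢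
    refine ⟨fun a b hab => hf.1 ((Equiv.swap i i').injective hab), fun a ha => hf.2 a ?_⟩
    have := congrArg (Equiv.swap i i') ha
    rwa [Equiv.swap_apply_self, Equiv.swap_apply_right] at this
  · intro f hf
    simp only [Finset.coe_filter, Finset.mem_univ, true_and, Set.mem_ofPred_eq] at hf ⊢
    refine ⟨fun a b hab => hf.1 ((Equiv.swap i i').injective hab), fun a ha => hf.2 a ?_⟩
    have := congrArg (Equiv.swap i i') ha
    rwa [Equiv.swap_apply_self, Equiv.swap_apply_left] at this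
  · intro f _
    funext a
    simp
  · intro f _
    funext a
    simp

theorem good_succAbove {m : ℕ} (i : Fin (m + 1)) : good i i.succAbove :=
  ⟨Fin.succAbove_right_injective, fun a => Fin.succAbove_ne i a⟩

theorem prod_good {R : Type v} [CommSemiring R] {m : ℕ} (Y : Fin (m + 1) → R) {i : Fin (m + 1)}
    {f : Fin m → Fin (m + 1)} (h : good i f) : Y i * ∏ a, Y (f a) = ∏ l, Y l := by
  have h3 : Finset.univ.image f = Finset.univ.erase i := by
    apply Finset.eq_of_subset_of_card_le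
    · intro x hx
      obtain ⟨a, -, rfl⟩ := Finset.mem_image.1 hx
      exact Finset.mem_erase.2 ⟨h.2 a, Finset.mem_univ _⟩
    · rw [Finset.card_erase_of_mem (Finset.mem_univ _), Finset.card_image_of_injective _ h.1]
      simp
  rw [← Finset.mul_prod_erase Finset.univ Y (Finset.mem_univ i), ← h3,
    Finset.prod_image (fun a _ b _ hab => h.1 hab)]

open Classical in
/-- The coefficient. -/
noncomputable def cf {R : Type v} [CommSemiring R] {m j : ℕ} (Y : Fin j → R) (n : ℕ) : R :=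
  ∑ f ∈ Finset.univ.filter (fun f : Fin m → Fin j => sg f = n), ∏ a, Y (f a)

open Classical in
theorem cf_good {R : Type v} [CommSemiring R] {m : ℕ} (Y : Fin (m + 1) → R) (i : Fin (m + 1)) :
    Y i * cf (m := m) Y (2 ^ (m + 1) - 1 - 2 ^ (i : ℕ)) =
      ((Finset.univ.filter (good (m := m) 0)).card : R) * ∏ l, Y l := by
  unfold cf
  have : Finset.univ.filter (fun f : Fin m → Fin (m + 1) => sg f = 2 ^ (m + 1) - 1 - 2 ^ (i : ℕ)) =
      Finset.univ.filter (good (m := m) i) := by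
    ext f
    simp only [Finset.mem_filter, Finset.mem_univ, true_and]
    exact sg_eq_iff i f
  rw [this, Finset.mul_sum, Finset.sum_congr rfl (fun f hf => prod_good Y (Finset.mem_filter.1 hf).2),
    Finset.sum_const, nsmul_eq_mul, card_good i 0]

variable {R : Type v} [Field R] [LinearOrder R] [IsStrictOrderedRing R]

open Classical in
theorem one_le_cf {m : ℕ} (Y : Fin (m + 1) → R) (hY : ∀ l, 1 ≤ Y l) (i : Fin (m + 1)) :
    1 ≤ cf (m := m) Y (2 ^ (m + 1) - 1 - 2 ^ (i : ℕ)) := by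
  unfold cf
  have h1 : i.succAbove ∈ Finset.univ.filter
      (fun f : Fin m → Fin (m + 1) => sg f = 2 ^ (m + 1) - 1 - 2 ^ (i : ℕ)) := by
    rw [Finset.mem_filter]
    exact ⟨Finset.mem_univ _, (sg_eq_iff i _).2 (good_succAbove i)⟩
  have h2 : ∏ a, Y (i.succAbove a) ≤ ∑ f ∈ Finset.univ.filter
      (fun f : Fin m → Fin (m + 1) => sg f = 2 ^ (m + 1) - 1 - 2 ^ (i : ℕ)), ∏ a, Y (f a) := by
    apply Finset.single_le_sum (f := fun f : Fin m → Fin (m + 1) => ∏ a, Y (f a)) _ h1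
    intro f _
    exact Finset.prod_nonneg fun a _ => le_trans zero_le_one (hY _)
  refine le_trans ?_ h2
  calc (1 : R) = ∏ _a : Fin m, (1 : R) := by simp
    _ ≤ _ := Finset.prod_le_prod (fun _ _ => zero_le_one) (fun a _ => hY _)

/-! ### Expansion of the power -/

theorem pow_expand {m j : ℕ} (Y : Fin j → R) (X : R) :
    (∑ l, Y l * X ^ (2 ^ (l : ℕ))) ^ m = ∑ f : Fin m → Fin j, (∏ a, Y (f a)) * X ^ sg f := by
  rw [Fintype.sum_pow]
  apply Finset.sum_congr rfl
  intro f _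
  rw [Finset.prod_mul_distrib, Finset.prod_pow_eq_pow_sum]
  rfl

theorem cf_mem {Z : Subring R} {m j : ℕ} (Y : Fin j → R) (hY : ∀ l, Y l ∈ Z) (n : ℕ) :
    cf (m := m) Y n ∈ Z :=
  Subring.sum_mem _ fun _ _ => Subring.prod_mem _ fun _ _ => hY _

open Classical in
/-- The coefficients of the power of the sum. -/
theorem pow_window {Z : Subring R} {m j : ℕ} (Y : Fin j → R) (hY : ∀ l, Y l ∈ Z)
    (hY0 : ∀ l, 0 ≤ Y l) (β X : R) (hβ : ∀ f : Fin m → Fin j, ∏ a, Y (f a) ≤ β) (hX : X ∈ Z)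
    (h1 : (j : R) ^ m * β < X) (hX1 : 1 ≤ X) (n : ℕ) :
    0 ≤ cf (m := m) Y n ∧ cf (m := m) Y n < X ∧ ∃ q ∈ Z, ∃ r, 0 ≤ r ∧ r < X ^ n ∧
      (∑ l, Y l * X ^ (2 ^ (l : ℕ))) ^ m = X ^ (n + 1) * q + X ^ n * cf (m := m) Y n + r := by
  have hX0 : 0 < X := by linarith
  have hnn : ∀ f : Fin m → Fin j, 0 ≤ ∏ a, Y (f a) := fun f => Finset.prod_nonneg fun a _ => hY0 _
  have hcard : (Finset.univ : Finset (Fin m → Fin j)).card = j ^ m := by
    rw [Finset.card_univ, Fintype.card_fun, Fintype.card_fin, Fintype.card_fin]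
  have hsub : ∀ s : Finset (Fin m → Fin j), ∑ f ∈ s, ∏ a, Y (f a) ≤ (j : R) ^ m * β := by
    intro s
    calc ∑ f ∈ s, ∏ a, Y (f a) ≤ ∑ f, ∏ a, Y (f a) :=
          Finset.sum_le_univ_sum_of_nonneg hnn
      _ ≤ ∑ _f : Fin m → Fin j, β := Finset.sum_le_sum fun f _ => hβ f
      _ = (j : R) ^ m * β := by
          rw [Finset.sum_const, hcard, nsmul_eq_mul]
          push_cast
          rfl
  refine ⟨Finset.sum_nonneg fun f _ => hnn f, lt_of_le_of_lt (hsub _) h1,
    ∑ f ∈ Finset.univ.filter (fun f : Fin m → Fin j => n < sg f),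
      (∏ a, Y (f a)) * X ^ (sg f - (n + 1)),
    Subring.sum_mem _ fun f _ => Subring.mul_mem _ (Subring.prod_mem _ fun a _ => hY _)
      (Subring.pow_mem _ hX _),
    ∑ f ∈ Finset.univ.filter (fun f : Fin m → Fin j => sg f < n), (∏ a, Y (f a)) * X ^ sg f,
    Finset.sum_nonneg fun f _ => mul_nonneg (hnn f) (pow_nonneg hX0.le _), ?_, ?_⟩
  · rcases Nat.eq_zero_or_pos n with h0 | h0
    · subst h0
      simp
    · obtain ⟨k, rfl⟩ : ∃ k, n = k + 1 := ⟨n - 1, by omega⟩
      calc ∑ f ∈ Finset.univ.filter (fun f : Fin m → Fin j => sg f < k + 1), (∏ a, Y (f a)) * X ^ sg f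
          ≤ ∑ f ∈ Finset.univ.filter (fun f : Fin m → Fin j => sg f < k + 1),
            (∏ a, Y (f a)) * X ^ k := by
            apply Finset.sum_le_sum
            intro f hf
            apply mul_le_mul_of_nonneg_left _ (hnn f)
            apply pow_le_pow_right₀ hX1
            have := (Finset.mem_filter.1 hf).2
            omega
        _ = (∑ f ∈ Finset.univ.filter (fun f : Fin m → Fin j => sg f < k + 1),
            (∏ a, Y (f a))) * X ^ k := by rw [Finset.sum_mul]
        _ ≤ ((j : R) ^ m * β) * X ^ k := mul_le_mul_of_nonneg_right (hsub _) (pow_nonneg hX0.le _)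
        _ < X * X ^ k := mul_lt_mul_of_pos_right h1 (pow_pos hX0 _)
        _ = X ^ (k + 1) := by ring
  · rw [pow_expand]
    unfold cf
    rw [Finset.mul_sum, Finset.mul_sum]
    have e1 : ∀ f ∈ Finset.univ.filter (fun f : Fin m → Fin j => n < sg f),
        X ^ (n + 1) * ((∏ a, Y (f a)) * X ^ (sg f - (n + 1))) = (∏ a, Y (f a)) * X ^ sg f := by
      intro f hf
      have h2 := (Finset.mem_filter.1 hf).2
      have h3 : sg f = (n + 1) + (sg f - (n + 1)) := by omega
      conv_rhs => rw [h3, pow_add]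
      ring
    have e2 : ∀ f ∈ Finset.univ.filter (fun f : Fin m → Fin j => sg f = n),
        X ^ n * (∏ a, Y (f a)) = (∏ a, Y (f a)) * X ^ sg f := by
      intro f hf
      rw [(Finset.mem_filter.1 hf).2]
      ring
    rw [Finset.sum_congr rfl e1, Finset.sum_congr rfl e2]
    rw [← Finset.sum_filter_add_sum_filter_not Finset.univ (fun f : Fin m → Fin j => n < sg f)]
    rw [add_assoc]
    congr 1
    rw [← Finset.sum_filter_add_sum_filter_not (Finset.univ.filter
      (fun f : Fin m → Fin j => ¬ n < sg f)) (fun f : Fin m → Fin j => sg f = n)]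
    rw [Finset.filter_filter, Finset.filter_filter]
    congr 1
    · apply Finset.sum_congr _ (fun _ _ => rfl)
      ext f
      simp only [Finset.mem_filter, Finset.mem_univ, true_and]
      omega
    · apply Finset.sum_congr _ (fun _ _ => rfl)
      ext f
      simp only [Finset.mem_filter, Finset.mem_univ, true_and]
      omega

/-- Powers modulo a high power. -/
theorem pow_mod {Z : Subring R} {s t W : R} (hs : s ∈ Z) (ht : t ∈ Z) (hW : W ∈ Z) (m : ℕ) :
    ∃ t' ∈ Z, (s + W * t) ^ m = s ^ m + W * t' := by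
  induction m with
  | zero => exact ⟨0, Z.zero_mem, by simp⟩
  | succ m ih =>
    obtain ⟨t', h1, h2⟩ := ih
    refine ⟨t * s ^ m + t' * (s + W * t), ?_, ?_⟩
    · exact Z.add_mem (Z.mul_mem ht (Z.pow_mem hs m))
        (Z.mul_mem h1 (Z.add_mem hs (Z.mul_mem hW ht)))
    · rw [pow_succ, h2]
      ring

/-- The windows of the power. -/
theorem pow_window' {Z : Subring R} {m j : ℕ} (Y : Fin j → R) (hY : ∀ l, Y l ∈ Z)
    (hY0 : ∀ l, 0 ≤ Y l) (β X : R) (hβ : ∀ f : Fin m → Fin j, ∏ a, Y (f a) ≤ β) (hX : X ∈ Z)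
    (h1 : (j : R) ^ m * β < X) (hX1 : 1 ≤ X) (n : ℕ) (hn : n < 2 ^ j) (y t : R) (ht : t ∈ Z)
    (hy : y = (∑ l, Y l * X ^ (2 ^ (l : ℕ))) + X ^ (2 ^ j) * t) :
    0 ≤ cf (m := m) Y n ∧ cf (m := m) Y n < X ∧ ∃ q ∈ Z, ∃ r ∈ Z, 0 ≤ r ∧ r < X ^ n ∧
      y ^ m = X ^ (n + 1) * q + X ^ n * cf (m := m) Y n + r := by
  obtain ⟨a1, a2, q, hq, r, hr0, hr1, hr2⟩ := pow_window (m := m) Y hY hY0 β X hβ hX h1 hX1 n
  have hs : (∑ l, Y l * X ^ (2 ^ (l : ℕ))) ∈ Z :=
    Z.sum_mem fun l _ => Z.mul_mem (hY l) (Z.pow_mem hX _)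
  obtain ⟨t', ht', h2⟩ := pow_mod hs ht (Z.pow_mem hX (2 ^ j)) m
  refine ⟨a1, a2, q + X ^ (2 ^ j - (n + 1)) * t', ?_, r, ?_, hr0, hr1, ?_⟩
  · exact Z.add_mem hq (Z.mul_mem (Z.pow_mem hX _) ht')
  · have : r = (∑ l, Y l * X ^ (2 ^ (l : ℕ))) ^ m - X ^ (n + 1) * q - X ^ n * cf (m := m) Y n := by
      rw [hr2]; ring
    rw [this]
    exact Z.sub_mem (Z.sub_mem (Z.pow_mem hs m) (Z.mul_mem (Z.pow_mem hX _) hq))
      (Z.mul_mem (Z.pow_mem hX _) (cf_mem Y hY n))
  · rw [hy, h2, hr2]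
    have h3 : X ^ (2 ^ j) = X ^ (n + 1) * X ^ (2 ^ j - (n + 1)) := by
      rw [← pow_add]
      congr 1
      omega
    rw [h3]
    ring

/-! ### Powers of one number -/

section

variable {U : Type u} [CommSemiring U] [LinearOrder U] [IsStrictOrderedRing U]
  [CanonicallyOrderedAdd U] (B : BIP U R)

theorem cook {x y A : R} {m : ℕ} (hx : x ∈ B.Z) (hy : y ∈ B.Z) (hA : A ∈ B.Z) (hA0 : 0 < A)
    (hy0 : 0 ≤ y) (hyx : 2 * y ≤ x) (h : 2 * y ^ (m + 1) < x) :
    ∃ q ∈ B.Z, ∃ r ∈ B.Z, 0 ≤ r ∧ r < A ∧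
      B.fl (A * x ^ (m + 1) / (x - y)) = A * x * q + A * y ^ m + r := by
  have hx0 : 0 < x := by nlinarith [pow_nonneg hy0 (m + 1)]
  have hxy : 0 < x - y := by linarith
  have hG : (∑ l ∈ Finset.range (m + 1), x ^ l * y ^ (m - l)) * (x - y) = x ^ (m + 1) - y ^ (m + 1) := by
    have := (Commute.all x y).geom_sum₂_mul (m + 1)
    simpa using this
  set G := ∑ l ∈ Finset.range (m + 1), x ^ l * y ^ (m - l) with hGdef
  have hGm : G = x * (∑ l ∈ Finset.range m, x ^ l * y ^ (m - (l + 1))) + y ^ m := by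
    rw [hGdef, Finset.sum_range_succ', Finset.mul_sum]
    simp only [pow_zero, one_mul, Nat.sub_zero]
    congr 1
    apply Finset.sum_congr rfl
    intro l _
    ring
  have hGZ : G ∈ B.Z := Subring.sum_mem _ fun l _ => Subring.mul_mem _ (Subring.pow_mem _ hx _)
    (Subring.pow_mem _ hy _)
  have hdiv : A * x ^ (m + 1) / (x - y) = A * y ^ (m + 1) / (x - y) + A * G := by
    have h5 : A * x ^ (m + 1) = A * y ^ (m + 1) + A * G * (x - y) := by
      rw [mul_assoc, hG]
      ring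
    rw [h5, add_div, mul_div_assoc (A * G), div_self hxy.ne', mul_one]
  have ht0 : 0 ≤ A * y ^ (m + 1) / (x - y) := by positivity
  have ht1 : A * y ^ (m + 1) / (x - y) < A := by
    rw [div_lt_iff₀ hxy]
    apply mul_lt_mul_of_pos_left _ hA0
    linarith
  refine ⟨∑ l ∈ Finset.range m, x ^ l * y ^ (m - (l + 1)), ?_, B.fl (A * y ^ (m + 1) / (x - y)),
    BIP.fl_mem B _, BIP.fl_nonneg B ht0, lt_of_le_of_lt (BIP.fl_le B _) ht1, ?_⟩
  · exact Subring.sum_mem _ fun l _ => Subring.mul_mem _ (Subring.pow_mem _ hx _)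
      (Subring.pow_mem _ hy _)
  · rw [hdiv, BIP.fl_add_mem B (B.Z.mul_mem hA hGZ), hGm]
    ring

end

/-! ### The number with blocks `Y i` at the positions `2 ^ i` -/

section

variable {U : Type u} [CommSemiring U] [LinearOrder U] [IsStrictOrderedRing U]
  [CanonicallyOrderedAdd U] {B : BIP U R}

open BIP

theorem sle (B : BIP U R) {x y : U} (h : x < y) : x + 1 ≤ y := by
  by_contra hcon
  exact absurd (B.le_of_lt_succ _ _ (not_le.1 hcon)) (not_le.2 h)

theorem pos_one_le (B : BIP U R) {x : U} (h : 0 < x) : 1 ≤ x := by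
  simpa using sle B h

theorem zero_or_succ (B : BIP U R) (x : U) : x = 0 ∨ ∃ y, x = y + 1 := by
  rcases eq_or_ne x 0 with h | h
  · exact Or.inl h
  · obtain ⟨y, hy⟩ := exists_add_of_le (pos_one_le B (pos_iff_ne_zero.2 h))
    exact Or.inr ⟨y, by rw [hy, add_comm]⟩

theorem self_lt_succ (x : U) : x < x + 1 := lt_add_one x

theorem pr2_lt (B : BIP U R) {i k i' k' : U} (h : i + k < i' + k') :
    RSV.pr2 i k < RSV.pr2 i' k' := by
  have h1 := sle B h
  unfold RSV.pr2
  have h2 : (i + k + 1) * (i + k + 1) ≤ (i' + k') * (i' + k') := by gcongr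
  have h3 : k ≤ i + k := le_add_self
  calc (i + k) * (i + k) + k ≤ (i + k) * (i + k) + (i + k) := by gcongr
    _ ≤ (i + k) * (i + k) + (i + k) + (i + k) := le_self_add
    _ < (i + k) * (i + k) + (i + k) + (i + k) + 1 := self_lt_succ _
    _ = (i + k + 1) * (i + k + 1) := by ring
    _ ≤ (i' + k') * (i' + k') := h2
    _ ≤ _ := le_self_add

theorem pr2_inj' (B : BIP U R) {i k i' k' : U} (h : RSV.pr2 i k = RSV.pr2 i' k') :
    i = i' ∧ k = k' := by
  have hs : i + k = i' + k' := by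
    rcases lt_trichotomy (i + k) (i' + k') with h1 | h1 | h1
    · exact absurd h (pr2_lt B h1).ne
    · exact h1
    · exact absurd h (pr2_lt B h1).ne'
  have hk : k = k' := by
    unfold RSV.pr2 at h
    rw [hs] at h
    exact add_left_cancel h
  subst hk
  exact ⟨add_right_cancel hs, rfl⟩

theorem p1_pr2' (B : BIP U R) (i k : U) : p1 (RSV.pr2 i k) = i := by
  have h : ∃ i' k' : U, RSV.pr2 i' k' = RSV.pr2 i k := ⟨i, k, rfl⟩
  unfold p1
  rw [dif_pos h]
  exact (pr2_inj' B h.choose_spec.choose_spec).1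

theorem p2_pr2' (B : BIP U R) (i k : U) : p2 (RSV.pr2 i k) = k := by
  have h : ∃ i' k' : U, RSV.pr2 i' k' = RSV.pr2 i k := ⟨i, k, rfl⟩
  unfold p2
  rw [dif_pos h]
  exact (pr2_inj' B h.choose_spec.choose_spec).2

theorem usub_eq {a b c : U} (h : c + b = a) : usub a b = c := by
  have h1 : ∃ c, b + c = a := ⟨c, by rw [add_comm]; exact h⟩
  unfold usub
  rw [dif_pos h1]
  have h2 := h1.choose_spec
  rw [add_comm] at h2
  exact add_right_cancel (h2.trans h.symm)

/-- The data of the construction. -/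
structure Dat (B : BIP U R) (K : U) (Y : U → R) (p : U → U) (J : U) : Prop where
  hY : B.NF K Y
  hY1 : ∀ i, 1 ≤ Y i
  hp : B.F1 p
  hpn : ∀ n : ℕ, p n = ((2 ^ n : ℕ) : U)
  hJ : Inf J
  mono : ∀ i, i < J → ∀ i', i' < i → p i' < p i

variable {K : U} {Y : U → R} {p : U → U} {J : U}

/-- the block length -/
def bl (K J : U) : U := K * J + J

theorem K_le_bl (hJ : Inf J) : K ≤ bl K J := by
  have h1 : (1 : U) ≤ J := by simpa using (hJ 1).le
  calc K = K * 1 := (mul_one K).symm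
    _ ≤ K * J := by gcongr
    _ ≤ bl K J := le_self_add

theorem J_le_bl : J ≤ bl K J := le_add_self

theorem exists_y (h : Dat B K Y p J) : ∃ y ∈ B.Z, 0 ≤ y ∧ y < B.e (bl K J * J) ∧ ∀ u, B.bit y u ↔
    u < bl K J * J ∧ ∃ i, i < J ∧ ∃ t, t < K ∧ u = p i * bl K J + t ∧ B.bit (Y i) t := by
  apply exists_bits
  apply D.ex_lt (P := fun i v => ∃ t, t < K ∧ v 0 = p i * bl K J + t ∧ B.bit (Y i) t) (F.const J)
  apply D.ex_lt (P := fun t v => v 1 = p (v 0) * bl K J + t ∧ B.bit (Y (v 0)) t) (F.const K)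
  exact D.and (D.eq (F.var 2) (F.add (F.mul (F1.app h.hp (F.var 1)) (F.const _)) (F.var 0)))
    (NF.bit h.hY (F.var 1) (F.var 0))

theorem win_y (h : Dat B K Y p J) {y : R} (hy : ∀ u, B.bit y u ↔
    u < bl K J * J ∧ ∃ i, i < J ∧ ∃ t, t < K ∧ u = p i * bl K J + t ∧ B.bit (Y i) t) (j : ℕ) :
    B.win y (((2 ^ j : ℕ) : U) * bl K J) (((2 ^ j : ℕ) : U) * bl K J) = Y j := by
  have hKb := K_le_bl (K := K) h.hJ
  have h2j : (1 : U) ≤ ((2 ^ j : ℕ) : U) := by exact_mod_cast Nat.one_le_two_pow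
  have hb2 : bl K J ≤ ((2 ^ j : ℕ) : U) * bl K J := by
    calc bl K J = 1 * bl K J := (one_mul _).symm
      _ ≤ _ := by gcongr
  apply ext_lt (win_mem _ _ _) (h.hY.mem _) (win_nonneg _ _ _) (h.hY.nonneg _)
    (K := ((2 ^ j : ℕ) : U) * bl K J) (win_lt _ _ _)
  · exact lt_of_lt_of_le (h.hY.lt _) (e_le B (hKb.trans hb2))
  · intro k hk
    rw [bit_win, hy]
    constructor
    · rintro ⟨-, -, i, hi, t, ht, hik, hbit⟩
      rcases lt_trichotomy i (j : U) with hij | hij | hij
      · exfalso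
        have h1 := h.mono j (h.hJ j) i hij
        rw [h.hpn] at h1
        have h2 : p i + 1 ≤ ((2 ^ j : ℕ) : U) := sle B h1
        have h3 : p i * bl K J + t < p i * bl K J + bl K J := by
          gcongr
          exact lt_of_lt_of_le ht hKb
        have h4 : (p i + 1) * bl K J ≤ ((2 ^ j : ℕ) : U) * bl K J := by gcongr
        rw [add_mul, one_mul] at h4
        have h5 := lt_of_lt_of_le h3 h4
        rw [← hik] at h5
        exact absurd (lt_of_le_of_lt le_self_add h5) (lt_irrefl _)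
      · subst hij
        rw [h.hpn] at hik
        have := add_left_cancel hik
        rw [this]
        exact hbit
      · exfalso
        have h1 : (((j + 1 : ℕ)) : U) ≤ i := by
          push_cast
          exact sle B hij
        have h2 : p ((j + 1 : ℕ) : U) ≤ p i := by
          rcases h1.lt_or_eq with h3 | h3
          · exact (h.mono i hi _ h3).le
          · rw [h3]
        rw [h.hpn] at h2
        have h3 : ((2 ^ (j + 1) : ℕ) : U) * bl K J ≤ p i * bl K J := by gcongr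
        have h4 : ((2 ^ (j + 1) : ℕ) : U) * bl K J =
            ((2 ^ j : ℕ) : U) * bl K J + ((2 ^ j : ℕ) : U) * bl K J := by
          push_cast
          ring
        rw [h4] at h3
        have h5 : ((2 ^ j : ℕ) : U) * bl K J + k < ((2 ^ j : ℕ) : U) * bl K J +
          ((2 ^ j : ℕ) : U) * bl K J := by gcongr
        have h6 := lt_of_lt_of_le h5 h3
        rw [hik] at h6
        exact absurd (lt_of_le_of_lt le_self_add h6) (lt_irrefl _)
    · intro hbit
      have hkK : k < K := by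
        by_contra hcon
        exact not_bit_of_lt (h.hY.nonneg _) (h.hY.lt _) (not_lt.1 hcon) hbit
      refine ⟨hk, ?_, j, h.hJ j, k, hkK, by rw [h.hpn], hbit⟩
      calc ((2 ^ j : ℕ) : U) * bl K J + k < ((2 ^ j : ℕ) : U) * bl K J + bl K J := by
            gcongr
            exact lt_of_lt_of_le hkK hKb
        _ = ((2 ^ j + 1 : ℕ) : U) * bl K J := by push_cast; ring
        _ ≤ J * bl K J := by
            gcongr
            exact (h.hJ _).le
        _ = bl K J * J := mul_comm _ _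

theorem lo_y (h : Dat B K Y p J) {y : R} (hyZ : y ∈ B.Z) (hy : ∀ u, B.bit y u ↔
    u < bl K J * J ∧ ∃ i, i < J ∧ ∃ t, t < K ∧ u = p i * bl K J + t ∧ B.bit (Y i) t) (j : ℕ) :
    B.lo y (((2 ^ j : ℕ) : U) * bl K J) = ∑ l : Fin j, Y ((l : ℕ) : U) * B.e (bl K J) ^ 2 ^ (l : ℕ) := by
  induction j with
  | zero =>
    rw [Fin.sum_univ_zero]
    apply ext_lt (lo_mem hyZ _) B.Z.zero_mem (lo_nonneg _ _) le_rfl (lo_lt _ _) (e_pos B _)
    intro k hk
    rw [bit_lo, hy]
    constructor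
    · rintro ⟨-, -, i, hi, t, ht, hik, -⟩
      exfalso
      have h1 : (1 : U) ≤ p i := by
        rcases zero_or_succ B i with rfl | ⟨i', rfl⟩
        · have := h.hpn 0
          simp at this
          rw [this]
        · have h2 := h.mono (i' + 1) hi i' (self_lt_succ i')
          have h3 : (0 : U) < p (i' + 1) := lt_of_le_of_lt zero_le h2
          exact pos_one_le B h3
      have h2 : 1 * bl K J ≤ p i * bl K J := by gcongr
      have h3 : k < 1 * bl K J := by simpa using hk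
      rw [hik] at h3
      exact absurd (lt_of_le_of_lt (le_self_add.trans' h2) h3) (lt_irrefl _)
    · intro hb
      exact absurd hb (not_bit_zero _)
  | succ j ih =>
    have h4 : ((2 ^ (j + 1) : ℕ) : U) * bl K J =
            ((2 ^ j : ℕ) : U) * bl K J + ((2 ^ j : ℕ) : U) * bl K J := by
          push_cast
          ring
    have h5 := win_decomp (B := B) y (((2 ^ j : ℕ) : U) * bl K J) (((2 ^ j : ℕ) : U) * bl K J)
    rw [Fin.sum_univ_castSucc]
    simp only [Fin.val_castSucc, Fin.val_last]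
    rw [← ih, h4]
    have h6 := win_y h hy j
    have h7 := win_lt (B := B) y (((2 ^ j : ℕ) : U) * bl K J) (((2 ^ j : ℕ) : U) * bl K J)
    have h8 := e_natCast_mul B (2 ^ j) (bl K J)
    apply lo_eq (q := B.hi y (((2 ^ j : ℕ) : U) * bl K J + ((2 ^ j : ℕ) : U) * bl K J)) (hi_mem _ _)
    · conv_lhs => rw [h5]
      rw [h6, h8]
      ring
    · rw [← h8]
      exact add_nonneg (lo_nonneg _ _) (mul_nonneg (h.hY.nonneg _) (e_pos B _).le)
    · rw [← h8, ← h6, e_add]
      have h9 := lo_lt (B := B) y (((2 ^ j : ℕ) : U) * bl K J)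
      have h10 : B.win y (((2 ^ j : ℕ) : U) * bl K J) (((2 ^ j : ℕ) : U) * bl K J) + 1 ≤
        B.e (((2 ^ j : ℕ) : U) * bl K J) := (lt_of_mem B (win_mem _ _ _) (B.e_mem _)).1 h7
      have h11 := e_pos B (((2 ^ j : ℕ) : U) * bl K J)
      nlinarith

/-- the length of the blocks for the powers -/
def bl2 (K J : U) : U := bl K J * J * J + J

/-- the number containing the powers -/
noncomputable def pwn (B : BIP U R) (K J : U) (y : R) : R :=
  B.fl (B.e (bl2 K J * (J + 1)) / (B.e (bl2 K J) - y))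

/-- the position of the coefficient -/
noncomputable def pos (p : U → U) (K J : U) (x : U) : U :=
  bl2 K J * usub (J + 1) (p1 x) + bl K J * usub (p (p1 x)) (1 + p (p2 x))

theorem nat_mul_le (hJ : Inf J) (n : ℕ) (a : U) : (n : U) * a ≤ a * J := by
  rw [mul_comm a J]
  have := (hJ n).le
  gcongr

theorem y_bounds (hJ : Inf J) {y : R} (hy0 : 0 ≤ y) (hy1 : y < B.e (bl K J * J)) (m : ℕ) :
    2 * y ^ (m + 1) < B.e (bl2 K J) := by
  have h1 : y ^ (m + 1) ≤ B.e (bl K J * J) ^ (m + 1) := pow_le_pow_left₀ hy0 hy1.le _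
  rw [← e_natCast_mul] at h1
  have h2 : ((m + 1 : ℕ) : U) * (bl K J * J) ≤ bl K J * J * J := nat_mul_le hJ _ _
  have h3 : ((m + 1 : ℕ) : U) * (bl K J * J) + 1 < bl2 K J := by
    unfold bl2
    apply add_lt_add_of_le_of_lt h2
    simpa using hJ 1
  have h4 := B.e_lt _ _ h3
  rw [e_succ] at h4
  linarith

/-- The windows of the number containing the powers. -/
theorem win_pwn (h : Dat B K Y p J) {y : R} (hyZ : y ∈ B.Z) (hy0 : 0 ≤ y)
    (hy1 : y < B.e (bl K J * J)) (hy : ∀ u, B.bit y u ↔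
    u < bl K J * J ∧ ∃ i, i < J ∧ ∃ t, t < K ∧ u = p i * bl K J + t ∧ B.bit (Y i) t) (m : ℕ)
    (i : Fin (m + 1)) :
    B.win (pwn B K J y) (pos p K J (RSV.pr2 ((m + 1 : ℕ) : U) ((i : ℕ) : U))) (bl K J) =
      cf (m := m) (fun l : Fin (m + 1) => Y ((l : ℕ) : U)) (2 ^ (m + 1) - 1 - 2 ^ (i : ℕ)) := by
  set n := 2 ^ (m + 1) - 1 - 2 ^ (i : ℕ) with hn
  have hi2 : 1 + 2 ^ (i : ℕ) ≤ 2 ^ (m + 1) := by
    have h1 : 2 ^ (i : ℕ) ≤ 2 ^ m := Nat.pow_le_pow_right (by norm_num) (by omega)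
    have h2 : 1 ≤ 2 ^ m := Nat.one_le_two_pow
    rw [pow_succ]
    omega
  have hn1 : n + (1 + 2 ^ (i : ℕ)) = 2 ^ (m + 1) := by
    rw [hn, Nat.sub_sub]
    exact Nat.sub_add_cancel hi2
  -- the position
  obtain ⟨s, hs⟩ : ∃ s : U, J = s + ((m : ℕ) : U) := by
    obtain ⟨s, hs⟩ := exists_add_of_le (h.hJ m).le
    exact ⟨s, by rw [hs, add_comm]⟩
  have hpos : pos p K J (RSV.pr2 ((m + 1 : ℕ) : U) ((i : ℕ) : U)) =
      bl2 K J * s + (n : U) * bl K J := by
    unfold pos
    rw [p1_pr2' B, p2_pr2' B, h.hpn, h.hpn, usub_eq (c := s) (by rw [hs]; push_cast; ring),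
      usub_eq (c := (n : U)) (by rw [← hn1]; push_cast; ring), mul_comm (bl K J)]
  rw [hpos]
  -- the power
  have hX : B.e (bl K J) ∈ B.Z := B.e_mem _
  have hX1 : 1 ≤ B.e (bl K J) := one_le_e B _
  have hyd : y = (∑ l : Fin (m + 1), Y ((l : ℕ) : U) * B.e (bl K J) ^ 2 ^ (l : ℕ)) +
      B.e (bl K J) ^ (2 ^ (m + 1)) * B.hi y (((2 ^ (m + 1) : ℕ) : U) * bl K J) := by
    have h1 := hi_add_lo (B := B) y (((2 ^ (m + 1) : ℕ) : U) * bl K J)
    rw [lo_y h hyZ hy (m + 1), e_natCast_mul] at h1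
    exact h1.symm.trans (add_comm _ _)
  have hβ : ∀ f : Fin m → Fin (m + 1), ∏ a, Y ((f a : ℕ) : U) ≤ B.e K ^ m := by
    intro f
    calc ∏ a, Y ((f a : ℕ) : U) ≤ ∏ _a : Fin m, B.e K :=
          Finset.prod_le_prod (fun a _ => h.hY.nonneg _) (fun a _ => (h.hY.lt _).le)
      _ = B.e K ^ m := by simp
  have hbd : (((m + 1 : ℕ)) : R) ^ m * B.e K ^ m < B.e (bl K J) := by
    rw [← e_natCast_mul]
    unfold bl
    rw [e_add, mul_comm]
    have h1 : B.e ((m : U) * K) ≤ B.e (K * J) := e_le B (nat_mul_le h.hJ _ _)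
    have h2 : (((m + 1 : ℕ)) : R) ^ m < B.e J := by
      have := natCast_lt_e B h.hJ ((m + 1) ^ m)
      exact_mod_cast this
    have h3 := e_pos B ((m : U) * K)
    calc B.e ((m : U) * K) * (((m + 1 : ℕ)) : R) ^ m < B.e ((m : U) * K) * B.e J :=
          mul_lt_mul_of_pos_left h2 h3
      _ ≤ B.e (K * J) * B.e J := mul_le_mul_of_nonneg_right h1 (e_pos B _).le
  obtain ⟨c0, c1, q, hq, r, hr, hr0, hr1, hr2⟩ := pow_window' (Z := B.Z) (m := m) (j := m + 1)
    (fun l => Y ((l : ℕ) : U)) (fun l => h.hY.mem _) (fun l => h.hY.nonneg _) (B.e K ^ m)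
    (B.e (bl K J)) hβ hX (by exact_mod_cast hbd) hX1 n (by rw [← hn1]; exact Nat.lt_add_of_pos_right (by positivity)) y _ (hi_mem _ _) hyd
  -- the number
  have hb := y_bounds (B := B) (K := K) h.hJ hy0 hy1 m
  have hb0 := y_bounds (B := B) (K := K) h.hJ hy0 hy1 0
  simp only [zero_add, pow_one] at hb0
  obtain ⟨q', hq', r', hr', hr0', hr1', hD⟩ := cook B (A := B.e (bl2 K J * s)) (B.e_mem (bl2 K J))
    hyZ (B.e_mem _) (e_pos B _) hy0 hb0.le hb
  have hnum : B.e (bl2 K J * s) * B.e (bl2 K J) ^ (m + 1) = B.e (bl2 K J * (J + 1)) := by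
    rw [← e_natCast_mul, ← B.e_add]
    congr 1
    rw [hs]
    push_cast
    ring
  rw [hnum] at hD
  change pwn B K J y = _ at hD
  obtain ⟨w, hw⟩ : ∃ w : U, bl2 K J = ((n + 1 : ℕ) : U) * bl K J + w := by
    apply exists_add_of_le
    calc ((n + 1 : ℕ) : U) * bl K J ≤ bl K J * J := nat_mul_le h.hJ _ _
      _ ≤ bl K J * J * J := by
          have h1 : (1 : U) ≤ J := by simpa using (h.hJ 1).le
          calc bl K J * J = bl K J * J * 1 := (mul_one _).symm
            _ ≤ _ := by gcongr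
      _ ≤ bl2 K J := le_self_add
  have hxw : B.e (bl2 K J) = B.e (bl K J) ^ (n + 1) * B.e w := by
    rw [← e_natCast_mul, ← B.e_add]
    exact congrArg _ hw
  have hea : B.e (bl2 K J * s + (n : U) * bl K J) = B.e (bl2 K J * s) * B.e (bl K J) ^ n := by
    rw [B.e_add, e_natCast_mul]
  have heaw : B.e (bl2 K J * s + (n : U) * bl K J + bl K J) =
      B.e (bl2 K J * s) * B.e (bl K J) ^ (n + 1) := by
    rw [B.e_add, hea]
    ring
  apply win_eq (q := q + q' * B.e w) (r := B.e (bl2 K J * s) * r + r')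
  · exact B.Z.add_mem hq (B.Z.mul_mem hq' (B.e_mem _))
  · exact cf_mem _ (fun l => h.hY.mem _) _
  · rw [hD, hr2, heaw, hea, hxw]
    ring
  · exact add_nonneg (mul_nonneg (e_pos B _).le hr0) hr0'
  · rw [hea]
    have h1 : r + 1 ≤ B.e (bl K J) ^ n := (lt_of_mem B hr (B.Z.pow_mem hX n)).1 hr1
    have h2 := mul_le_mul_of_nonneg_left h1 (e_pos B (bl2 K J * s)).le
    linarith
  · exact c0
  · exact c1

/-- FD for a given internal extension of the powers of two. -/
theorem fd_aux (hMul : Stmt_Mul.{u, v}) (h : Dat B K Y p J) (N : U) :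
    ∃ J : U, Inf J ∧ ∃ (K' : U) (W : U → R), B.NF K' W ∧
      ∀ i, i < J → |1 / Y i - W i / B.e N| ≤ 1 / B.e N := by
  obtain ⟨y, hyZ, hy0, hy1, hy⟩ := exists_y h
  have hb0 := y_bounds (B := B) (K := K) h.hJ hy0 hy1 0
  simp only [zero_add, pow_one] at hb0
  have hD0 : 0 ≤ pwn B K J y := by
    apply fl_nonneg
    have := e_pos B (bl2 K J * (J + 1))
    apply div_nonneg this.le
    linarith
  have hposF : B.F1 (pos p K J) := by
    exact F.add (F.mul (F.const _) (F.sub (F.const _) (F.p1 (F.var 0))))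
      (F.mul (F.const _) (F.sub (F1.app h.hp (F.p1 (F.var 0)))
        (F.add (F.const 1) (F1.app h.hp (F.p2 (F.var 0))))))
  have hS : B.NF (bl K J) (fun x => B.win (pwn B K J y) (pos p K J x) (bl K J)) :=
    NF.ofWin (fl_mem B _) hD0 hposF (show B.F1 (fun _ => bl K J) from F.const _) (fun _ => le_rfl)
  set S : U → R := fun x => B.win (pwn B K J y) (pos p K J x) (bl K J) with hSdef
  have hYp : B.NF K (fun x => Y (p2 x)) := NF.reindex h.hY (F.p2 (F.var 0))
  obtain ⟨P, hP, hPS⟩ := hMul U R B _ _ _ _ hYp hS (RSV.pr2 J J + 1)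
  have hP' : ∀ x i, x ≤ J → i ≤ J → P (RSV.pr2 x i) = Y i * S (RSV.pr2 x i) := by
    intro x i hx hi
    rw [hPS, p2_pr2' B]
    have : RSV.pr2 x i ≤ RSV.pr2 J J := by
      unfold RSV.pr2
      gcongr
    exact lt_of_le_of_lt this (self_lt_succ _)
  -- the overspill
  have hc1 : B.NF 1 (fun _ => (1 : R)) := by
    apply NF.const B.Z.one_mem zero_le_one
    rw [B.e_one]
    norm_num
  have hΘ : B.D1 (fun x => (∀ i, i < x → P (RSV.pr2 x i) = P (RSV.pr2 x 0)) ∧
      (1 : R) ≤ S (RSV.pr2 x 0)) := by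
    apply D.and
    · apply D.all_lt (P := fun i v => P (RSV.pr2 (v 0) i) = P (RSV.pr2 (v 0) 0)) (F.var 0)
      exact NF.eq_dfn hP hP (F.pr2 (F.var 1) (F.var 0)) (F.pr2 (F.var 1) (F.const 0))
    · exact NF.le_dfn hc1 hS (F.const 0) (F.pr2 (F.var 0) (F.const 0))
  have hstd : ∀ n : ℕ, 1 ≤ n → (∀ i, i < (n : U) → P (RSV.pr2 (n : U) i) = P (RSV.pr2 (n : U) 0)) ∧
      (1 : R) ≤ S (RSV.pr2 (n : U) 0) := by
    intro n hn
    obtain ⟨m, rfl⟩ : ∃ m, n = m + 1 := ⟨n - 1, by omega⟩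
    have hw := win_pwn h hyZ hy0 hy1 hy m
    have hg := cf_good (m := m) (fun l : Fin (m + 1) => Y ((l : ℕ) : U))
    have h0 := hw 0
    have h0' : S (RSV.pr2 ((m + 1 : ℕ) : U) 0) =
      cf (m := m) (fun l : Fin (m + 1) => Y ((l : ℕ) : U)) (2 ^ (m + 1) - 1 - 2 ^ 0) := by
      have := h0
      simp only [Fin.val_zero, Nat.cast_zero] at this
      exact this
    constructor
    · intro i hi
      obtain ⟨k, hk, rfl⟩ : ∃ k : ℕ, k < m + 1 ∧ i = k := by
        by_contra hcon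
        push Not at hcon
        have : ∀ k : ℕ, k ≤ m + 1 → (k : U) ≤ i := by
          intro k
          induction k with
          | zero => intro _; simp
          | succ k ih =>
            intro hk
            have h1 := ih (by omega)
            have h2 := hcon k (by omega)
            push_cast
            exact sle B (lt_of_le_of_ne h1 h2.symm)
        exact absurd (this (m + 1) le_rfl) (not_le.2 hi)
      have hkJ : (k : U) ≤ J := (h.hJ k).le
      have h1J : ((m + 1 : ℕ) : U) ≤ J := (h.hJ _).le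
      rw [hP' _ _ h1J hkJ, hP' _ _ h1J zero_le, h0']
      have h1 := hw ⟨k, hk⟩
      have h2 := hg ⟨k, hk⟩
      have h3 := hg 0
      simp only at h1 h2 h3
      change Y k * B.win _ _ _ = _
      rw [h1, h2]
      simp only [Fin.val_zero, Nat.cast_zero] at h3
      rw [h3]
    · rw [h0']
      exact one_le_cf (m := m) (fun l : Fin (m + 1) => Y ((l : ℕ) : U)) (fun l => h.hY1 _) 0
  obtain ⟨I, hI, hIJ, hIΘ⟩ := overspill' B hΘ 1 hstd h.hJ
  have hI1 : ((1 : ℕ) : U) ≤ I := (hI 1).le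
  obtain ⟨hV, hS1⟩ := hIΘ I hI1 le_rfl
  -- the reciprocals
  set V : R := P (RSV.pr2 I 0) with hVdef
  have hVeq : V = Y 0 * S (RSV.pr2 I 0) := hP' _ _ hIJ zero_le
  have hV1 : 1 ≤ V := by
    rw [hVeq]
    have := h.hY1 0
    nlinarith
  have hV0 : 0 < V := by linarith
  have hVi : ∀ i, i < I → Y i * S (RSV.pr2 I i) = V := by
    intro i hi
    rw [← hP' I i hIJ (hi.le.trans hIJ)]
    exact hV i hi
  have hS2 : B.NF (bl K J) (fun i => S (RSV.pr2 I i)) :=
    NF.reindex hS (F.pr2 (F.const I) (F.var 0))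
  have he2 : B.e (bl K J + 2) = 4 * B.e (bl K J) := by
    rw [B.e_add]
    have : (2 : U) = 1 + 1 := by norm_num
    rw [this, B.e_add, B.e_one]
    ring
  have heb : 1 ≤ B.e (bl K J) := one_le_e B _
  have heN : 1 ≤ B.e N := one_le_e B _
  have heH : B.e (N + (bl K J + 2)) = B.e N * (4 * B.e (bl K J)) := by rw [B.e_add, he2]
  have hrlt : B.fl (B.e (N + (bl K J + 2)) / V) + 1 < B.e (N + (bl K J + 2) + 1) := by
    have h1 := fl_le B (B.e (N + (bl K J + 2)) / V)
    have h2 : B.e (N + (bl K J + 2)) / V ≤ B.e (N + (bl K J + 2)) :=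
      div_le_self (e_pos B _).le hV1
    rw [e_succ, heH] at *
    nlinarith
  have hr0 : 0 ≤ B.fl (B.e (N + (bl K J + 2)) / V) := fl_nonneg B (div_nonneg (e_pos B _).le hV0.le)
  have hr : B.NF (N + (bl K J + 2) + 1) (fun _ : U => B.fl (B.e (N + (bl K J + 2)) / V) + 1) :=
    NF.const (B.Z.add_mem (fl_mem B _) B.Z.one_mem) (by linarith) hrlt
  obtain ⟨P2, hP2, hPS2⟩ := hMul U R B _ _ _ _ hS2 hr I
  refine ⟨I, hI, _, fun i => B.hi (P2 i) (bl K J + 2), NF.hi hP2 (show B.F1 (fun _ => bl K J + 2) from F.const _), ?_⟩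
  intro i hi
  change |1 / Y i - B.hi (P2 i) (bl K J + 2) / B.e N| ≤ 1 / B.e N
  have hYi : 0 < Y i := by linarith [h.hY1 i]
  have h1 : 1 / Y i = S (RSV.pr2 I i) / V := by
    rw [← hVi i hi]
    have hSne : S (RSV.pr2 I i) ≠ 0 := by
      intro h0
      have := hVi i hi
      rw [h0, mul_zero] at this
      linarith
    field_simp
  have h2 := hPS2 i hi
  have h3 := fl_le B (B.e (N + (bl K J + 2)) / V)
  have h4 := lt_fl_add_one B (B.e (N + (bl K J + 2)) / V)
  set r := B.fl (B.e (N + (bl K J + 2)) / V) with hrdef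
  have hSn : 0 ≤ S (RSV.pr2 I i) := hS2.nonneg i
  have hSl : S (RSV.pr2 I i) < B.e (bl K J) := hS2.lt i
  have h5 : B.hi (P2 i) (bl K J + 2) = B.fl (P2 i / B.e (bl K J + 2)) := rfl
  rw [h5, h1, h2, he2]
  set s := S (RSV.pr2 I i) with hs
  set x := B.e (bl K J) with hx
  set t := B.e N with ht
  have hxpos : 0 < 4 * x := by linarith
  have htpos : 0 < t := by linarith
  have h6 := fl_le B (s * (r + 1) / (4 * x))
  have h7 := lt_fl_add_one B (s * (r + 1) / (4 * x))
  rw [heH] at h3 h4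
  have h8 : t * (s / V) ≤ s * (r + 1) / (4 * x) := by
    rw [le_div_iff₀ hxpos]
    calc t * (s / V) * (4 * x) = s * (t * (4 * x) / V) := by ring
      _ ≤ s * (r + 1) := mul_le_mul_of_nonneg_left h4.le hSn
  have h9 : s * (r + 1) / (4 * x) ≤ t * (s / V) + 1 / 4 := by
    rw [div_le_iff₀ hxpos]
    have : s * r ≤ s * (t * (4 * x) / V) := mul_le_mul_of_nonneg_left h3 hSn
    have h10 : s * (t * (4 * x) / V) = t * (s / V) * (4 * x) := by ring
    linarith
  have h11 : s / V - B.fl (s * (r + 1) / (4 * x)) / t =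
    (t * (s / V) - B.fl (s * (r + 1) / (4 * x))) / t := by
    field_simp
  rw [h11, abs_div, abs_of_pos htpos]
  apply div_le_div_of_nonneg_right _ htpos.le
  rw [abs_le]
  constructor <;> linarith

end

/-- FD -/
theorem fd_proof (hMul : Stmt_Mul.{u, v}) (hIF : Stmt_IF.{u, v}) : Stmt_FD.{u, v} := by
  intro U R _ _ _ _ _ _ _ B K Y hY hY1 N
  have hc : Computable (fun n : ℕ => 2 ^ n) := by
    have h1 : Primrec₂ (fun a b : ℕ => a ^ b) := Primrec₂.unpaired'.1 Nat.Primrec.pow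
    exact (h1.comp (Primrec.const 2) Primrec.id).to_comp
  obtain ⟨p, hp, hpn⟩ := hIF U R B _ hc
  have hΦ : B.D1 (fun x => ∀ i, i < x → ∀ i', i' < i → p i' < p i) := by
    apply BIP.D.all_lt (P := fun i _ => ∀ i', i' < i → p i' < p i) (BIP.F.var 0)
    apply BIP.D.all_lt (P := fun i' v => p i' < p (v 0)) (BIP.F.var 0)
    exact BIP.D.lt (BIP.F1.app hp (BIP.F.var 0)) (BIP.F1.app hp (BIP.F.var 1))
  have hnat : ∀ (x : U) (n : ℕ), x < n → ∃ k : ℕ, k < n ∧ x = k := by
    intro x n hx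
    by_contra hcon
    push Not at hcon
    have : ∀ k : ℕ, k ≤ n → (k : U) ≤ x := by
      intro k
      induction k with
      | zero => intro _; simp
      | succ k ih =>
        intro hk
        have h1 := ih (by omega)
        have h2 := hcon k (by omega)
        push_cast
        exact sle B (lt_of_le_of_ne h1 h2.symm)
    exact absurd (this n le_rfl) (not_le.2 hx)
  obtain ⟨J, hJ, hJΦ⟩ := BIP.overspill B hΦ (fun n i hi i' hi' => by
    obtain ⟨k, hk, rfl⟩ := hnat i n hi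
    obtain ⟨k', hk', rfl⟩ := hnat i' k hi'
    rw [hpn, hpn]
    exact_mod_cast Nat.pow_lt_pow_right (by norm_num) hk')
  exact fd_aux hMul ⟨hY, hY1, hp, hpn, hJ, hJΦ J le_rfl⟩ N

end Pool.Agent.RSV.FD
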