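import Pool.Agent.RSV.Mul

/-!
# FIP: inner products of standard length of internal families
-/

namespace Pool.Agent.RSV

universe u v

variable {U : Type u} {R : Type v} [CommSemiring U] [LinearOrder U] [IsStrictOrderedRing U]
  [CanonicallyOrderedAdd U] [Field R] [LinearOrder R] [IsStrictOrderedRing R]

namespace FIPAux

variable {B : BIP U R}

theorem bit_add_disj {x y : R} (hx : x ∈ B.Z) (hy : y ∈ B.Z) (hx0 : 0 ≤ x) (hy0 : 0 ≤ y)
    (h : ∀ u, B.bit x u → B.bit y u → False) (i : U) :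
    B.bit (x + y) i ↔ B.bit x i ∨ B.bit y i := by
  rw [BIP.bit_add' hx hy hx0 hy0]
  have h1 : ¬ (∃ k, k < i ∧ B.bit x k ∧ B.bit y k ∧
      ∀ j, k < j → j < i → B.bit x j ∨ B.bit y j) := by
    rintro ⟨k, -, h2, h3, -⟩
    exact h k h2 h3
  have h2 := h i
  simp only [Xor, h1]
  tauto

theorem bit_mul_e {z : R} (hz : z ∈ B.Z) (u w : U) :
    B.bit (z * B.e u) w ↔ ∃ k, w = u + k ∧ B.bit z k := by
  constructor
  · intro h
    rcases lt_or_ge w u with h1 | h1
    · exact absurd h (BIP.not_bit_mul_e hz h1)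
    · obtain ⟨k, rfl⟩ := exists_add_of_le h1
      exact ⟨k, rfl, (BIP.bit_mul_e_add hz u k).1 h⟩
  · rintro ⟨k, rfl, h⟩
    exact (BIP.bit_mul_e_add hz u k).2 h

theorem bit_sum (n : ℕ) (t : ℕ → R) (p : ℕ → U) (Λ : U) (ht : ∀ k < n, t k ∈ B.Z)
    (ht0 : ∀ k < n, 0 ≤ t k) (ht1 : ∀ k < n, t k < B.e Λ)
    (hp : ∀ k < n, ∀ l < n, p k = p l → k = l) :
    (∑ k ∈ Finset.range n, t k * B.e (p k * Λ)) ∈ B.Z ∧
      0 ≤ (∑ k ∈ Finset.range n, t k * B.e (p k * Λ)) ∧
      ∀ u, B.bit (∑ k ∈ Finset.range n, t k * B.e (p k * Λ)) u ↔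
        ∃ k < n, ∃ j, j < Λ ∧ u = p k * Λ + j ∧ B.bit (t k) j := by
  induction n with
  | zero =>
    refine ⟨by simp, by simp, fun u => ?_⟩
    simp only [Finset.range_zero, Finset.sum_empty]
    constructor
    · intro h; exact absurd h (BIP.not_bit_zero u)
    · rintro ⟨k, hk, -⟩; exact absurd hk (Nat.not_lt_zero k)
  | succ n ih =>
    obtain ⟨h1, h2, h3⟩ := ih (fun k hk => ht k (by omega)) (fun k hk => ht0 k (by omega))
      (fun k hk => ht1 k (by omega)) (fun k hk l hl => hp k (by omega) l (by omega))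
    have h4 : t n * B.e (p n * Λ) ∈ B.Z := B.Z.mul_mem (ht n (by omega)) (B.e_mem _)
    have h5 : 0 ≤ t n * B.e (p n * Λ) := mul_nonneg (ht0 n (by omega)) (B.e_pos _).le
    have hn : ∀ w, B.bit (t n * B.e (p n * Λ)) w ↔ ∃ j, j < Λ ∧ w = p n * Λ + j ∧
        B.bit (t n) j := by
      intro w
      rw [bit_mul_e (ht n (by omega))]
      constructor
      · rintro ⟨k, hk, hb⟩
        refine ⟨k, ?_, hk, hb⟩
        by_contra hc
        push Not at hc
        exact BIP.not_bit_of_lt (ht0 n (by omega)) (ht1 n (by omega)) hc hb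
      · rintro ⟨k, -, hk, hb⟩
        exact ⟨k, hk, hb⟩
    rw [Finset.sum_range_succ]
    refine ⟨B.Z.add_mem h1 h4, add_nonneg h2 h5, fun u => ?_⟩
    rw [bit_add_disj h1 h4 h2 h5, h3, hn]
    · constructor
      · rintro (⟨k, hk, h⟩ | h)
        · exact ⟨k, by omega, h⟩
        · exact ⟨n, by omega, h⟩
      · rintro ⟨k, hk, h⟩
        rcases Nat.lt_succ_iff_lt_or_eq.1 hk with h' | rfl
        · exact Or.inl ⟨k, h', h⟩
        · exact Or.inr h
    · intro w hw1 hw2
      rw [h3] at hw1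
      rw [hn] at hw2
      obtain ⟨k, hk, j, hj, hw, -⟩ := hw1
      obtain ⟨j', hj', hw', -⟩ := hw2
      have h6 : Λ * p k + j = Λ * p n + j' := by
        rw [mul_comm Λ (p k), mul_comm Λ (p n), ← hw, ← hw']
      have h7 := (B.div_unique h6 hj hj').1
      have := hp k (by omega) n (by omega) h7
      omega

end FIPAux

open FIPAux MulAux in
theorem fip_proof : Stmt_FIP.{u, v} := by
  intro U R _ _ _ _ _ _ _ B K L S T m hS hT hm I
  obtain ⟨J₀, hJ₀⟩ := B.exists_nonstd
  have hJ : Inf J₀ := hJ₀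
  set C : U := K + L with hC
  set Λ : U := C + J₀ with hΛ
  have hCΛ : C ≤ Λ := le_self_add
  have hJpos : 0 < J₀ := by simpa using hJ 0
  have hΛ0 : 0 < Λ := lt_of_lt_of_le hJpos le_add_self
  have hSC : B.NF C S := hS.mono le_self_add
  have hTC : B.NF C T := hT.mono le_add_self
  -- the row numbers
  have hdu : B.F (fun v : ℕ → U => udiv (v 1) Λ) := BIP.F.div (BIP.F.var 1) (BIP.F.const Λ)
  have hmu : B.F (fun v : ℕ → U => umod (v 1) Λ) := BIP.F.md (BIP.F.var 1) (BIP.F.const Λ)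
  have hφX : B.D (fun v : ℕ → U => udiv (v 1) Λ < m (v 0) ∧
      B.bit (S (pr2 (v 0) (udiv (v 1) Λ))) (umod (v 1) Λ)) :=
    BIP.D.and (BIP.D.lt hdu (BIP.F1.app hm (BIP.F.var 0)))
      (BIP.NF.bit hSC (BIP.F.pr2 (BIP.F.var 0) hdu) hmu)
  obtain ⟨X, hX, hXb⟩ := BIP.NF.mk' (φ := fun i u => udiv u Λ < m i ∧
      B.bit (S (pr2 i (udiv u Λ))) (umod u Λ)) hφX (J₀ * Λ)
  have hsub : B.F (fun v : ℕ → U => usub J₀ (udiv (v 1) Λ)) := BIP.F.sub (BIP.F.const J₀) hdu
  have hφY : B.D (fun v : ℕ → U => (udiv (v 1) Λ ≤ J₀ ∧ usub J₀ (udiv (v 1) Λ) < m (v 0)) ∧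
      B.bit (T (pr2 (v 0) (usub J₀ (udiv (v 1) Λ)))) (umod (v 1) Λ)) :=
    BIP.D.and (BIP.D.and (BIP.D.le hdu (BIP.F.const J₀))
      (BIP.D.lt hsub (BIP.F1.app hm (BIP.F.var 0))))
      (BIP.NF.bit hTC (BIP.F.pr2 (BIP.F.var 0) hsub) hmu)
  obtain ⟨Y, hY, hYb⟩ := BIP.NF.mk' (φ := fun i u => (udiv u Λ ≤ J₀ ∧ usub J₀ (udiv u Λ) < m i) ∧
      B.bit (T (pr2 i (usub J₀ (udiv u Λ)))) (umod u Λ)) hφY ((J₀ + 1) * Λ)
  obtain ⟨P, hP, hPeq⟩ := mul_proof U R B _ _ X Y hX hY I
  have hW : B.NF Λ (fun i => B.win (P i) (J₀ * Λ) Λ) :=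
    BIP.NF.win (a := fun _ => J₀ * Λ) (w := fun _ => Λ) hP (BIP.F.const _) (BIP.F.const _)
      (fun _ => le_rfl)
  refine ⟨Λ, _, hW, ?_⟩
  intro i hi n hn
  show B.win (P i) (J₀ * Λ) Λ = _
  rw [hPeq i hi]
  -- notation
  set s : ℕ → R := fun k => S (pr2 i (k : U)) with hs
  set t : ℕ → R := fun k => T (pr2 i (k : U)) with ht
  set b : ℕ → U := fun k => usub J₀ (k : U) with hb
  have hbk : ∀ k : ℕ, b k + k = J₀ := fun k => B.sub_add (hJ k).le
  have hbinj : ∀ k l : ℕ, b k = b l → k = l := by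
    intro k l h
    have h1 : b k + (k : U) = b k + (l : U) := by
      rw [hbk k, h, hbk l]
    have h2 : (k : U) = (l : U) := add_left_cancel h1
    exact_mod_cast h2
  have hXsum := bit_sum (B := B) n s (fun k => (k : U)) Λ (fun k _ => hSC.mem _)
    (fun k _ => hSC.nonneg _) (fun k _ => lt_of_lt_of_le (hSC.lt _) (B.e_le hCΛ))
    (fun k _ l _ h => by exact_mod_cast h)
  have hYsum := bit_sum (B := B) n t b Λ (fun k _ => hTC.mem _)
    (fun k _ => hTC.nonneg _) (fun k _ => lt_of_lt_of_le (hTC.lt _) (B.e_le hCΛ))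
    (fun k _ l _ h => hbinj k l h)
  have hXi : X i = ∑ k ∈ Finset.range n, s k * B.e ((k : U) * Λ) := by
    refine B.ext _ (hX.mem i) _ hXsum.1 (hX.nonneg i) hXsum.2.1 ?_
    intro u
    show B.bit _ u ↔ B.bit _ u
    rw [hXb, hXsum.2.2]
    constructor
    · rintro ⟨-, h2, h3⟩
      obtain ⟨q, r, hr, rfl⟩ := exists_split B u Λ hΛ0
      obtain ⟨h4, h5⟩ := div_mod B (i := q) hr
      rw [h4, hn] at h2
      rw [h4, h5] at h3
      obtain ⟨k, hk, rfl⟩ := B.exists_nat_of_le q n h2.le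
      exact ⟨k, by exact_mod_cast h2, r, hr, rfl, h3⟩
    · rintro ⟨k, hk, j, hj, rfl, h⟩
      obtain ⟨h4, h5⟩ := div_mod B (i := (k : U)) hj
      rw [h4, h5, hn]
      refine ⟨?_, by exact_mod_cast hk, h⟩
      calc (k : U) * Λ + j < (k : U) * Λ + Λ := by gcongr
        _ = ((k : U) + 1) * Λ := by ring
        _ ≤ J₀ * Λ := by
            gcongr
            exact (B.succ_le_iff _ _).2 (hJ k)
  have hYi : Y i = ∑ k ∈ Finset.range n, t k * B.e (b k * Λ) := by
    refine B.ext _ (hY.mem i) _ hYsum.1 (hY.nonneg i) hYsum.2.1 ?_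
    intro u
    show B.bit _ u ↔ B.bit _ u
    rw [hYb, hYsum.2.2]
    constructor
    · rintro ⟨-, ⟨h1, h2⟩, h3⟩
      obtain ⟨q, r, hr, rfl⟩ := exists_split B u Λ hΛ0
      obtain ⟨h4, h5⟩ := div_mod B (i := q) hr
      rw [h4] at h1
      rw [h4, hn] at h2
      rw [h4, h5] at h3
      obtain ⟨k, hk, hkq⟩ := B.exists_nat_of_le _ n h2.le
      have h6 : usub J₀ q + q = J₀ := B.sub_add h1
      have h7 : q = b k := by
        have h8 : q + usub J₀ q = b k + usub J₀ q := by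
          rw [add_comm q, h6, hkq, hbk k]
        exact add_right_cancel h8
      refine ⟨k, ?_, r, hr, by rw [h7], ?_⟩
      · rw [hkq] at h2; exact_mod_cast h2
      · rw [hkq] at h3; exact h3
    · rintro ⟨k, hk, j, hj, rfl, h⟩
      obtain ⟨h4, h5⟩ := div_mod B (i := b k) hj
      have h6 : b k ≤ J₀ := by
        conv_rhs => rw [← hbk k]
        exact le_self_add
      have h7 : usub J₀ (b k) = (k : U) := by
        have h8 : usub J₀ (b k) + b k = (k : U) + b k := by
          rw [B.sub_add h6, add_comm, hbk k]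
        exact add_right_cancel h8
      rw [h4, h5, hn, h7]
      refine ⟨?_, ⟨h6, by exact_mod_cast hk⟩, h⟩
      calc b k * Λ + j < b k * Λ + Λ := by gcongr
        _ = (b k + 1) * Λ := by ring
        _ ≤ (J₀ + 1) * Λ := by gcongr
  -- the decomposition of the product
  have hs0 : ∀ k, 0 ≤ s k := fun k => hSC.nonneg _
  have ht0 : ∀ k, 0 ≤ t k := fun k => hTC.nonneg _
  have hst : ∀ k l, s k * t l < B.e C := fun k l => by
    rw [hC, B.e_add]
    exact mul_lt_mul'' (hS.lt _) (hT.lt _) (hs0 k) (ht0 l)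
  have hsZ : ∀ k, s k ∈ B.Z := fun k => hSC.mem _
  have htZ : ∀ k, t k ∈ B.Z := fun k => hTC.mem _
  let q : ℕ → ℕ → R := fun k l => if l < k then s k * t l * B.e (((k - l - 1 : ℕ) : U) * Λ) else 0
  let d : ℕ → ℕ → R := fun k l => if k = l then s k * t l else 0
  let r : ℕ → ℕ → R := fun k l => if k < l then s k * t l * B.e (((k : U) + b l) * Λ) else 0
  have hdec : ∀ k l, s k * B.e ((k : U) * Λ) * (t l * B.e (b l * Λ)) =
      B.e (J₀ * Λ + Λ) * q k l + B.e (J₀ * Λ) * d k l + r k l := by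
    intro k l
    have hee : B.e ((k : U) * Λ) * B.e (b l * Λ) = B.e (((k : U) + b l) * Λ) := by
      rw [← B.e_add, add_mul]
    rcases lt_trichotomy k l with h | h | h
    · have h1 : ¬ l < k := by omega
      have h2 : k ≠ l := by omega
      simp only [q, d, r, h1, h2, h, if_true, if_false]
      rw [← hee]; ring
    · subst h
      simp only [q, d, r, lt_irrefl, if_true, if_false]
      have h1 : (k : U) + b k = J₀ := by rw [add_comm]; exact hbk k
      rw [h1] at hee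
      rw [← hee]; ring
    · have h1 : ¬ k < l := by omega
      have h2 : k ≠ l := by omega
      simp only [q, d, r, h1, h2, h, if_true, if_false]
      have h3 : (k : U) = ((k - l - 1 : ℕ) : U) + 1 + l := by
        have : k = (k - l - 1) + 1 + l := by omega
        exact_mod_cast this
      have h4 : ((k : U) + b l) * Λ = ((k - l - 1 : ℕ) : U) * Λ + (J₀ * Λ + Λ) := by
        calc ((k : U) + b l) * Λ = (((k - l - 1 : ℕ) : U) + 1 + l + b l) * Λ := by rw [← h3]
          _ = ((k - l - 1 : ℕ) : U) * Λ + ((b l + l) * Λ + Λ) := by ring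
          _ = _ := by rw [hbk l]
      rw [h4, B.e_add] at hee
      calc s k * B.e ((k : U) * Λ) * (t l * B.e (b l * Λ))
          = s k * t l * (B.e ((k : U) * Λ) * B.e (b l * Λ)) := by ring
        _ = _ := by rw [hee]; ring
  have hprod : X i * Y i = B.e (J₀ * Λ + Λ) * (∑ k ∈ Finset.range n, ∑ l ∈ Finset.range n, q k l) +
      B.e (J₀ * Λ) * (∑ k ∈ Finset.range n, s k * t k) +
      ∑ k ∈ Finset.range n, ∑ l ∈ Finset.range n, r k l := by
    have hdd : ∑ k ∈ Finset.range n, s k * t k =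
        ∑ k ∈ Finset.range n, ∑ l ∈ Finset.range n, d k l := by
      refine Finset.sum_congr rfl fun k hk => ?_
      simp only [d]
      rw [Finset.sum_ite_eq, if_pos hk]
    rw [hXi, hYi, hdd, Finset.sum_mul_sum]
    simp only [Finset.mul_sum, ← Finset.sum_add_distrib]
    refine Finset.sum_congr rfl fun k _ => Finset.sum_congr rfl fun l _ => ?_
    exact hdec k l
  have hr0 : ∀ k l, 0 ≤ r k l := by
    intro k l
    simp only [r]
    split_ifs
    · exact mul_nonneg (mul_nonneg (hs0 k) (ht0 l)) (B.e_pos _).le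
    · exact le_rfl
  have hrlt : ∀ k l, r k l * B.e J₀ ≤ B.e (J₀ * Λ) := by
    intro k l
    simp only [r]
    split_ifs with h
    · have h1 : ((k : U) + b l) * Λ + Λ ≤ J₀ * Λ := by
        have h2 : (k : U) + b l + 1 ≤ J₀ := by
          calc (k : U) + b l + 1 = b l + ((k + 1 : ℕ) : U) := by push_cast; ring
            _ ≤ b l + (l : U) := by
                gcongr
                exact_mod_cast h
            _ = J₀ := hbk l
        calc ((k : U) + b l) * Λ + Λ = ((k : U) + b l + 1) * Λ := by ring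
          _ ≤ J₀ * Λ := by gcongr
      calc s k * t l * B.e (((k : U) + b l) * Λ) * B.e J₀
          ≤ B.e C * B.e (((k : U) + b l) * Λ) * B.e J₀ := by
            have := (hst k l).le
            have h5 := (B.e_pos (((k : U) + b l) * Λ)).le
            have h6 := (B.e_pos J₀).le
            gcongr
        _ = B.e (((k : U) + b l) * Λ + Λ) := by
            rw [hΛ]
            simp only [B.e_add]
            ring
        _ ≤ B.e (J₀ * Λ) := B.e_le h1
    · rw [zero_mul]; exact (B.e_pos _).le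
  rw [hprod]
  refine BIP.win_eq (q := ∑ k ∈ Finset.range n, ∑ l ∈ Finset.range n, q k l)
    (r := ∑ k ∈ Finset.range n, ∑ l ∈ Finset.range n, r k l) ?_ ?_ rfl ?_ ?_ ?_ ?_
  · refine B.Z.sum_mem fun k _ => B.Z.sum_mem fun l _ => ?_
    simp only [q]
    split_ifs
    · exact B.Z.mul_mem (B.Z.mul_mem (hsZ k) (htZ l)) (B.e_mem _)
    · exact B.Z.zero_mem
  · exact B.Z.sum_mem fun k _ => B.Z.mul_mem (hsZ k) (htZ k)
  · exact Finset.sum_nonneg fun k _ => Finset.sum_nonneg fun l _ => hr0 k l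
  · have h1 : (∑ k ∈ Finset.range n, ∑ l ∈ Finset.range n, r k l) * B.e J₀ ≤
        ((n * n : ℕ) : R) * B.e (J₀ * Λ) := by
      rw [Finset.sum_mul]
      calc ∑ k ∈ Finset.range n, (∑ l ∈ Finset.range n, r k l) * B.e J₀
          ≤ ∑ k ∈ Finset.range n, (n : R) * B.e (J₀ * Λ) := by
            refine Finset.sum_le_sum fun k _ => ?_
            rw [Finset.sum_mul]
            calc ∑ l ∈ Finset.range n, r k l * B.e J₀
                ≤ ∑ l ∈ Finset.range n, B.e (J₀ * Λ) := Finset.sum_le_sum fun l _ => hrlt k l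
              _ = (n : R) * B.e (J₀ * Λ) := by simp
        _ = ((n * n : ℕ) : R) * B.e (J₀ * Λ) := by
            simp
            ring
    have h2 := B.natCast_lt_e hJ (n * n)
    have h3 := B.e_pos (J₀ * Λ)
    have h4 := B.e_pos J₀
    have h5 : ((n * n : ℕ) : R) * B.e (J₀ * Λ) < B.e J₀ * B.e (J₀ * Λ) := by gcongr
    have h6 := lt_of_le_of_lt h1 h5
    rw [mul_comm (B.e J₀)] at h6
    exact lt_of_mul_lt_mul_right h6 h4.le
  · exact Finset.sum_nonneg fun k _ => mul_nonneg (hs0 k) (ht0 k)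
  · calc ∑ k ∈ Finset.range n, s k * t k ≤ ∑ k ∈ Finset.range n, B.e C :=
          Finset.sum_le_sum fun k _ => (hst k k).le
      _ = (n : R) * B.e C := by simp
      _ < B.e J₀ * B.e C := by
          have h2 := B.natCast_lt_e hJ n
          have h3 := B.e_pos C
          gcongr
      _ = B.e Λ := by
          rw [show B.e Λ = B.e C * B.e J₀ from B.e_add C J₀, mul_comm]

end Pool.Agent.RSV
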