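import Pool.Agent.RSV.HenkDefs

/-!
# HENKIN-MODEL: a Henkin theory has a real closed model
-/

namespace Pool.Agent.RSV

open Polynomial

universe u v

namespace HM

/-! ### bare structures -/

section Bare

variable {N : Type u} [Zero N] [One N] [Add N] [Mul N]

/-- value of a term in a bare structure -/
def evB (v : ℕ → N) : Tm → N
  | .var n => v n
  | .zero => 0
  | .one => 1
  | .add s t => evB v s + evB v t
  | .mul s t => evB v s * evB v t

/-- truth in a bare structure -/
def holdsB [LT N] : Fm → (ℕ → N) → Prop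
  | .eq s t, v => evB v s = evB v t
  | .lt s t, v => evB v s < evB v t
  | .neg φ, v => ¬ holdsB φ v
  | .and φ ψ, v => holdsB φ v ∧ holdsB ψ v
  | .ex n φ, v => ∃ a : N, holdsB φ (Function.update v n a)

/-- the axioms of ordered fields with square roots, in a bare structure -/
structure OF (N : Type u) [Zero N] [One N] [Add N] [Mul N] [LT N] : Prop where
  add_assoc' : ∀ a b c : N, a + b + c = a + (b + c)
  add_comm' : ∀ a b : N, a + b = b + a
  zero_add' : ∀ a : N, 0 + a = a
  exists_neg : ∀ a : N, ∃ b, b + a = 0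
  mul_assoc' : ∀ a b c : N, a * b * c = a * (b * c)
  mul_comm' : ∀ a b : N, a * b = b * a
  one_mul' : ∀ a : N, 1 * a = a
  left_distrib' : ∀ a b c : N, a * (b + c) = a * b + a * c
  exists_inv : ∀ a : N, a ≠ 0 → ∃ b, a * b = 1
  zero_ne_one' : (0 : N) ≠ 1
  lt_irrefl' : ∀ a : N, ¬ a < a
  lt_trans' : ∀ a b c : N, a < b → b < c → a < c
  lt_tri : ∀ a b : N, ¬ a < b → ¬ b < a → a = b
  add_lt : ∀ a b c : N, a < b → c + a < c + b
  mul_pos' : ∀ a b : N, 0 < a → 0 < b → 0 < a * b
  sqrt : ∀ a : N, 0 < a → ∃ b, b * b = a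

open Classical in
/-- the inverse -/
noncomputable def invF [LT N] (h : OF N) (a : N) : N :=
  if ha : a = 0 then 0 else (h.exists_inv a ha).choose

/-- the field -/
@[reducible] noncomputable def field [LT N] (h : OF N) : Field N :=
  letI : Neg N := ⟨fun a => (h.exists_neg a).choose⟩
  letI cr : CommRing N := CommRing.ofMinimalAxioms h.add_assoc' h.zero_add'
    (fun a => (h.exists_neg a).choose_spec) h.mul_assoc' h.mul_comm' h.one_mul' h.left_distrib'
  { cr with
    inv := invF h
    exists_pair_ne := ⟨0, 1, h.zero_ne_one'⟩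
    mul_inv_cancel := fun a ha => by
      change a * invF h a = 1
      rw [invF, dif_neg ha]
      exact (h.exists_inv a ha).choose_spec
    inv_zero := by
      change invF h 0 = (0 : N)
      rw [invF, dif_pos rfl]
    nnqsmul := _
    nnqsmul_def := fun _ _ => rfl
    qsmul := _
    qsmul_def := fun _ _ => rfl }

open Classical in
/-- the order -/
@[reducible] noncomputable def order [LT N] (h : OF N) : LinearOrder N where
  le := fun a b => a = b ∨ a < b
  lt := fun a b => a < b
  le_refl := fun a => Or.inl rfl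
  le_trans := fun a b c hab hbc => by
    rcases hab with rfl | hab
    · exact hbc
    · rcases hbc with rfl | hbc
      · exact Or.inr hab
      · exact Or.inr (h.lt_trans' a b c hab hbc)
  lt_iff_le_not_ge := fun a b => by
    constructor
    · intro hab
      refine ⟨Or.inr hab, ?_⟩
      rintro (rfl | hba)
      · exact h.lt_irrefl' _ hab
      · exact h.lt_irrefl' _ (h.lt_trans' a b a hab hba)
    · rintro ⟨rfl | hab, hba⟩
      · exact absurd (Or.inl rfl) hba
      · exact hab
  le_antisymm := fun a b hab hba => by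
    rcases hab with rfl | hab
    · rfl
    · rcases hba with rfl | hba
      · rfl
      · exact absurd (h.lt_trans' a b a hab hba) (h.lt_irrefl' a)
  le_total := fun a b => by
    by_cases hab : a < b
    · exact Or.inl (Or.inr hab)
    · by_cases hba : b < a
      · exact Or.inr (Or.inr hba)
      · exact Or.inl (Or.inl (h.lt_tri a b hab hba))
  toDecidableLE := fun _ _ => Classical.propDecidable _

theorem sor [LT N] (h : OF N) :
    letI := field h
    letI := order h
    IsStrictOrderedRing N := by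
  letI := field h
  letI := order h
  have hadd : ∀ a b c : N, a < b → c + a < c + b := h.add_lt
  have hmul : ∀ a b : N, 0 < a → 0 < b → 0 < a * b := h.mul_pos'
  haveI : IsOrderedAddMonoid N :=
    { add_le_add_left := fun a b hab c => by
        rcases hab.eq_or_lt with rfl | hab
        · exact le_rfl
        · rw [add_comm a c, add_comm b c]
          exact (hadd a b c hab).le }
  haveI : Nontrivial N := inferInstance
  haveI : ZeroLEOneClass N := ⟨by
    by_contra hcon
    have h1 : (1 : N) < 0 := not_le.1 hcon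
    have h2 : (0 : N) < -1 := by
      have := hadd 1 0 (-1) h1
      simpa using this
    have h3 := hmul _ _ h2 h2
    rw [neg_mul_neg, one_mul] at h3
    exact hcon h3.le⟩
  exact IsStrictOrderedRing.of_mul_pos hmul

theorem holds_iff [LT N] (h : OF N) (φ : Fm) (v : ℕ → N) :
    letI := field h
    letI := order h
    (φ.holds v ↔ holdsB φ v) := by
  letI := field h
  letI := order h
  have hev : ∀ (v : ℕ → N) (t : Tm), t.eval v = evB v t := by
    intro v t
    induction t with
    | var n => rfl
    | zero => rfl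
    | one => rfl
    | add s t hs ht =>
      change s.eval v + t.eval v = evB v s + evB v t
      rw [hs, ht]
    | mul s t hs ht =>
      change s.eval v * t.eval v = evB v s * evB v t
      rw [hs, ht]
  change φ.holds v ↔ holdsB φ v
  induction φ generalizing v with
  | eq s t =>
    change s.eval v = t.eval v ↔ evB v s = evB v t
    rw [hev, hev]
  | lt s t =>
    change s.eval v < t.eval v ↔ evB v s < evB v t
    rw [hev, hev]
  | neg φ ih => exact not_congr (ih v)
  | and φ ψ ih1 ih2 => exact and_congr (ih1 v) (ih2 v)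
  | ex n φ ih => exact exists_congr fun a => ih _

theorem rcf [LT N] (h : OF N) (hroot : ∀ m (v : ℕ → N), holdsB (rootF m) v) :
    letI := field h
    letI := order h
    IsRealClosed N := by
  let _ := field h
  let _ := order h
  have _ := sor h
  refine IsRealClosed.of_linearOrderedField ?_ ?_
  · intro x hx
    rcases hx.eq_or_lt with rfl | hx
    · exact ⟨0, by simp⟩
    · obtain ⟨b, hb⟩ := h.sqrt x hx
      exact ⟨b, hb.symm⟩
  · intro f hf
    obtain ⟨m, hm⟩ := hf
    have hf0 : f ≠ 0 := by
      rintro rfl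
      simp at hm
    have hlc : f.leadingCoeff ≠ 0 := leadingCoeff_ne_zero.2 hf0
    have h1 := (holds_iff h (rootF m) (fun i => f.coeff (2 * m + 1 - i) / f.leadingCoeff)).2
      (hroot m _)
    obtain ⟨x, hx⟩ := h1
    have hx' : (hor (2 * m + 1)).eval
      (Function.update (fun i => f.coeff (2 * m + 1 - i) / f.leadingCoeff) 0 x) = 0 := hx
    rw [hor_eval] at hx'
    refine ⟨x, ?_⟩
    rw [IsRoot.def, eval_eq_sum_range, hm, Finset.sum_range_succ]
    simp only [Function.update_self, ne_eq, Nat.add_eq_zero_iff, one_ne_zero, and_false,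
      not_false_eq_true, Function.update_of_ne] at hx'
    have h2 : ∑ i ∈ Finset.range (2 * m + 1), f.coeff i * x ^ i =
        f.leadingCoeff * ∑ i ∈ Finset.range (2 * m + 1),
          f.coeff (2 * m + 1 - (i + 1)) / f.leadingCoeff * x ^ (2 * m + 1 - 1 - i) := by
      rw [Finset.mul_sum, ← Finset.sum_range_reflect]
      refine Finset.sum_congr rfl fun i hi => ?_
      rw [Finset.mem_range] at hi
      have e1 : 2 * m + 1 - (i + 1) = 2 * m + 1 - 1 - i := by omega
      rw [e1]
      field_simp
    rw [h2]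
    have h3 : f.coeff (2 * m + 1) = f.leadingCoeff := by
      rw [← hm]
      rfl
    rw [h3]
    calc f.leadingCoeff * _ + f.leadingCoeff * x ^ (2 * m + 1)
        = f.leadingCoeff * (x ^ (2 * m + 1) + ∑ i ∈ Finset.range (2 * m + 1),
          f.coeff (2 * m + 1 - (i + 1)) / f.leadingCoeff * x ^ (2 * m + 1 - 1 - i)) := by ring
      _ = 0 := by rw [hx', mul_zero]

end Bare

/-! ### the term model -/

section Model

variable {T E L : ℕ → ℕ → Prop}

open Hk

theorem esymm (H : Henk T E L) {x y : ℕ} (h : E x y) : E y x := H.eucl x y x h (H.refl x)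

theorem etrans (H : Henk T E L) {x y z : ℕ} (h : E x y) (h' : E y z) : E x z :=
  H.eucl y x z (esymm H h) h'

/-- equality of names -/
def stoid (H : Henk T E L) : Setoid ℕ := ⟨E, H.refl, fun h => esymm H h, fun h h' => etrans H h h'⟩

/-- the model -/
def Mod (H : Henk T E L) : Type := Quotient (stoid H)

variable (H : Henk T E L)

/-- the element with the name `x` -/
def cl (x : ℕ) : Mod H := Quotient.mk (stoid H) x

/-- the chosen name of an element -/
noncomputable def nm (a : Mod H) : ℕ := Quotient.out a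

theorem cl_nm (a : Mod H) : cl H (nm H a) = a := Quotient.out_eq a

theorem cl_eq {x y : ℕ} : cl H x = cl H y ↔ E x y := Quotient.eq (r := stoid H)

theorem nm_cl (x : ℕ) : E x (nm H (cl H x)) := by
  rw [← cl_eq H, cl_nm]

noncomputable instance : Zero (Mod H) := ⟨cl H (Nat.pair tZero 0)⟩
noncomputable instance : One (Mod H) := ⟨cl H (Nat.pair tOne 0)⟩
noncomputable instance : Add (Mod H) := ⟨fun a b => cl H (nAdd (nm H a) (nm H b))⟩
noncomputable instance : Mul (Mod H) := ⟨fun a b => cl H (nMul (nm H a) (nm H b))⟩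
noncomputable instance : LT (Mod H) := ⟨fun a b => L (nm H a) (nm H b)⟩

/-- the assignment given by an environment -/
def asgE (e n : ℕ) : Mod H := cl H (Nat.pair (tVar n) e)

theorem ev_asgE (e : ℕ) (t : Tm) : evB (asgE H e) t = cl H (Nat.pair t.code e) := by
  induction t with
  | var n => rfl
  | zero => exact ((cl_eq H).2 (H.zero e)).symm
  | one => exact ((cl_eq H).2 (H.one e)).symm
  | add s t hs ht =>
    change evB (asgE H e) s + evB (asgE H e) t = _
    rw [hs, ht]
    exact ((cl_eq H).2 (H.add s.code t.code e _ _ (nm_cl H _) (nm_cl H _))).symm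
  | mul s t hs ht =>
    change evB (asgE H e) s * evB (asgE H e) t = _
    rw [hs, ht]
    exact ((cl_eq H).2 (H.mul s.code t.code e _ _ (nm_cl H _) (nm_cl H _))).symm

theorem asgE_upd (g e n y : ℕ) :
    asgE H (upd g e n y) = Function.update (asgE H e) n (asgE H (upd g e n y) n) := by
  funext m
  by_cases hm : m = n
  · subst hm
    rw [Function.update_self]
  · rw [Function.update_of_ne hm]
    exact (cl_eq H).2 (H.upd_ne g e n y m hm)

theorem asgE_upd0 (e n : ℕ) (a : Mod H) :
    asgE H (upd 0 e n (nm H a)) = Function.update (asgE H e) n a := by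
  rw [asgE_upd]
  congr 1
  have := (cl_eq H).2 (H.upd_same e n (nm H a))
  rw [cl_nm] at this
  exact this

theorem truth (φ : Fm) (e : ℕ) : holdsB φ (asgE H e) ↔ T φ.code e := by
  induction φ generalizing e with
  | eq s t =>
    change evB (asgE H e) s = evB (asgE H e) t ↔ T (cEq s.code t.code) e
    rw [ev_asgE, ev_asgE, cl_eq]
    exact ⟨H.eq_mpr _ _ _, H.eq_mp _ _ _⟩
  | lt s t =>
    change L (nm H (evB (asgE H e) s)) (nm H (evB (asgE H e) t)) ↔ T (cLt s.code t.code) e
    rw [ev_asgE, ev_asgE]
    exact ⟨H.lt_mpr _ _ _ _ _ (nm_cl H _) (nm_cl H _), H.lt_mp _ _ _ _ _ (nm_cl H _) (nm_cl H _)⟩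
  | neg φ ih =>
    change ¬ holdsB φ (asgE H e) ↔ T (cNeg φ.code) e
    rw [ih]
    exact ⟨H.neg_mpr _ _, H.neg_mp _ _⟩
  | and φ ψ ih1 ih2 =>
    change holdsB φ (asgE H e) ∧ holdsB ψ (asgE H e) ↔ T (cAnd φ.code ψ.code) e
    rw [ih1, ih2]
    exact ⟨fun h => H.and_mpr _ _ _ h.1 h.2, fun h => ⟨H.and_left _ _ _ h, H.and_right _ _ _ h⟩⟩
  | ex n φ ih =>
    change (∃ a, holdsB φ (Function.update (asgE H e) n a)) ↔ T (cEx n φ.code) e
    constructor
    · rintro ⟨a, ha⟩
      rw [← asgE_upd0, ih] at ha
      exact H.ex_mpr _ _ _ _ ha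
    · intro h
      have h1 := H.ex_mp _ _ _ h
      rw [← ih, asgE_upd] at h1
      exact ⟨_, h1⟩

/-- every assignment of finitely many variables comes from an environment -/
theorem exists_env (v : ℕ → Mod H) (n : ℕ) : ∃ e, ∀ i < n, asgE H e i = v i := by
  induction n with
  | zero => exact ⟨0, fun i hi => absurd hi (Nat.not_lt_zero i)⟩
  | succ n ih =>
    obtain ⟨e, he⟩ := ih
    refine ⟨upd 0 e n (nm H (v n)), fun i hi => ?_⟩
    rw [asgE_upd0]
    rcases (Nat.lt_succ_iff.1 hi).eq_or_lt with rfl | hi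
    · rw [Function.update_self]
    · rw [Function.update_of_ne hi.ne, he i hi]

/-- the variables of terms, bounded -/
theorem evB_congr {N : Type u} [Zero N] [One N] [Add N] [Mul N] (t : Tm) (n : ℕ)
    (ht : ∀ i ∈ t.vars, i < n) {v w : ℕ → N} (h : ∀ i < n, v i = w i) : evB v t = evB w t := by
  induction t with
  | var m => exact h m (ht m rfl)
  | zero => rfl
  | one => rfl
  | add s t hs ht' =>
    change evB v s + evB v t = evB w s + evB w t
    rw [hs fun i hi => ht i (Or.inl hi), ht' fun i hi => ht i (Or.inr hi)]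
  | mul s t hs ht' =>
    change evB v s * evB v t = evB w s * evB w t
    rw [hs fun i hi => ht i (Or.inl hi), ht' fun i hi => ht i (Or.inr hi)]

theorem hor_vars (n : ℕ) : ∀ i ∈ (hor n).vars, i < n + 1 := by
  induction n with
  | zero => intro i hi; exact absurd hi (by simp [hor, Tm.vars])
  | succ n ih =>
    intro i hi
    rcases hi with (hi | hi) | hi
    · exact (ih i hi).trans (Nat.lt_succ_self _)
    · have : i = 0 := hi
      omega
    · have : i = n + 1 := hi
      omega

theorem holds_root (m : ℕ) (v : ℕ → Mod H) : holdsB (rootF m) v := by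
  obtain ⟨e, he⟩ := exists_env H v (2 * m + 2)
  have h1 := (truth H (rootF m) e).2 (H.root m e)
  obtain ⟨a, ha⟩ := h1
  refine ⟨a, ?_⟩
  change evB (Function.update v 0 a) (hor (2 * m + 1)) = evB (Function.update v 0 a) .zero
  have ha' : evB (Function.update (asgE H e) 0 a) (hor (2 * m + 1)) =
    evB (Function.update (asgE H e) 0 a) .zero := ha
  have h2 : evB (Function.update v 0 a) (hor (2 * m + 1)) =
      evB (Function.update (asgE H e) 0 a) (hor (2 * m + 1)) := by
    apply evB_congr _ (2 * m + 2) (hor_vars _)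
    intro i hi
    by_cases h0 : i = 0
    · subst h0
      simp
    · rw [Function.update_of_ne h0, Function.update_of_ne h0, he i hi]
  rw [h2, ha']
  rfl

/-- an axiom holds at each assignment of three variables -/
theorem ax_holds {φ : Fm} (hφ : φ ∈ axL) (a b c : Mod H) :
    ∃ w : ℕ → Mod H, w 0 = a ∧ w 1 = b ∧ w 2 = c ∧ holdsB φ w := by
  obtain ⟨e, he⟩ := exists_env H (fun i => if i = 0 then a else if i = 1 then b else c) 3
  refine ⟨asgE H e, ?_, ?_, ?_, (truth H φ e).2 (H.ax φ hφ e)⟩
  · rw [he 0 (by norm_num)]; simp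
  · rw [he 1 (by norm_num)]; simp
  · rw [he 2 (by norm_num)]; simp

theorem imp_holds {N : Type u} [Zero N] [One N] [Add N] [Mul N] [LT N] {φ ψ : Fm} {w : ℕ → N}
    (h : holdsB (φ.imp ψ) w) (h' : holdsB φ w) : holdsB ψ w := by
  by_contra hcon
  exact h ⟨h', hcon⟩

theorem mod_OF : OF (Mod H) where
  add_assoc' a b c := by
    obtain ⟨w, rfl, rfl, rfl, h⟩ := ax_holds H (φ := axL.get ⟨0, by decide⟩) (List.get_mem _ _) a b c
    exact h
  add_comm' a b := by
    obtain ⟨w, rfl, rfl, -, h⟩ := ax_holds H (φ := axL.get ⟨1, by decide⟩) (List.get_mem _ _) a b a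
    exact h
  zero_add' a := by
    obtain ⟨w, rfl, -, -, h⟩ := ax_holds H (φ := axL.get ⟨2, by decide⟩) (List.get_mem _ _) a a a
    exact h
  exists_neg a := by
    obtain ⟨w, rfl, -, -, x, h⟩ :=
      ax_holds H (φ := axL.get ⟨3, by decide⟩) (List.get_mem _ _) a a a
    exact ⟨x, h⟩
  mul_assoc' a b c := by
    obtain ⟨w, rfl, rfl, rfl, h⟩ := ax_holds H (φ := axL.get ⟨4, by decide⟩) (List.get_mem _ _) a b c
    exact h
  mul_comm' a b := by
    obtain ⟨w, rfl, rfl, -, h⟩ := ax_holds H (φ := axL.get ⟨5, by decide⟩) (List.get_mem _ _) a b a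
    exact h
  one_mul' a := by
    obtain ⟨w, rfl, -, -, h⟩ := ax_holds H (φ := axL.get ⟨6, by decide⟩) (List.get_mem _ _) a a a
    exact h
  left_distrib' a b c := by
    obtain ⟨w, rfl, rfl, rfl, h⟩ := ax_holds H (φ := axL.get ⟨7, by decide⟩) (List.get_mem _ _) a b c
    exact h
  exists_inv a ha := by
    obtain ⟨w, rfl, -, -, h⟩ := ax_holds H (φ := axL.get ⟨8, by decide⟩) (List.get_mem _ _) a a a
    obtain ⟨x, h⟩ := imp_holds h ha
    exact ⟨x, h⟩
  zero_ne_one' := by
    obtain ⟨w, -, -, -, h⟩ := ax_holds H (φ := axL.get ⟨9, by decide⟩) (List.get_mem _ _) 0 0 0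
    exact h
  lt_irrefl' a := by
    obtain ⟨w, rfl, -, -, h⟩ := ax_holds H (φ := axL.get ⟨10, by decide⟩) (List.get_mem _ _) a a a
    exact h
  lt_trans' a b c hab hbc := by
    obtain ⟨w, rfl, rfl, rfl, h⟩ :=
      ax_holds H (φ := axL.get ⟨11, by decide⟩) (List.get_mem _ _) a b c
    exact imp_holds (imp_holds h hab) hbc
  lt_tri a b hab hba := by
    obtain ⟨w, rfl, rfl, -, h⟩ :=
      ax_holds H (φ := axL.get ⟨12, by decide⟩) (List.get_mem _ _) a b a
    exact imp_holds (imp_holds h hab) hba
  add_lt a b c hab := by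
    obtain ⟨w, rfl, rfl, rfl, h⟩ :=
      ax_holds H (φ := axL.get ⟨13, by decide⟩) (List.get_mem _ _) a b c
    exact imp_holds h hab
  mul_pos' a b ha hb := by
    obtain ⟨w, rfl, rfl, -, h⟩ :=
      ax_holds H (φ := axL.get ⟨14, by decide⟩) (List.get_mem _ _) a b a
    exact imp_holds (imp_holds h ha) hb
  sqrt a ha := by
    obtain ⟨w, rfl, -, -, h⟩ := ax_holds H (φ := axL.get ⟨15, by decide⟩) (List.get_mem _ _) a a a
    obtain ⟨x, h⟩ := imp_holds h ha
    exact ⟨x, h⟩

end Model

end HM

theorem HModel_proof : Stmt_HModel := by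
  intro T E L H
  have hOF := HM.mod_OF H
  refine ⟨HM.Mod H, HM.field hOF, HM.order hOF, HM.sor hOF,
    HM.rcf hOF (HM.holds_root H), HM.asgE H 0, fun φ => ?_⟩
  exact (HM.holds_iff hOF φ _).trans (HM.truth H φ 0)

end Pool.Agent.RSV
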