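import Pool.Agent.RSV.HenkTree
import Pool.Agent.RSV.HenkModel

/-!
# `Stmt_Henkin` from the coded Henkin theories and their models
-/

set_option linter.unusedVariables false
set_option linter.unusedSimpArgs false
set_option linter.unusedSectionVars false

namespace Pool.Agent.RSV

universe u v

open Hk HT

namespace HP

/-- numerals -/
def num : ℕ → Tm
  | 0 => .zero
  | c + 1 => .add (num c) .one

/-- powers of a variable -/
def pow (x : ℕ) : ℕ → Tm
  | 0 => .one
  | a + 1 => .mul (pow x a) (.var x)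

/-- the monomial `t` of the polynomial `δ`, with the coefficient number `b` -/
def mon (f : ℕ → ℕ) (b : ℕ) : ℕ → ℕ → ℕ → Tm
  | 0, δ, t => num (dec δ (Nat.pair t b + 1))
  | r + 1, δ, t => .mul (mon f b r δ t) (pow (f r) (dec δ (Nat.pair t (r + 2) + 1)))

/-- sums of monomials -/
def sumT (f : ℕ → ℕ) (b r δ : ℕ) : ℕ → Tm
  | 0 => .zero
  | n + 1 => .add (sumT f b r δ n) (mon f b r δ n)

section
variable {R : Type*} [Field R] (v : ℕ → R)

lemma num_eval (c : ℕ) : (num c).eval v = (c : R) := by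
  induction c with
  | zero => simp [num, Tm.eval]
  | succ c ih => rw [num, Tm.eval, ih]; simp [Tm.eval]

lemma pow_eval (x a : ℕ) : (pow x a).eval v = v x ^ a := by
  induction a with
  | zero => simp [pow, Tm.eval]
  | succ a ih => rw [pow, Tm.eval, ih, pow_succ]; simp [Tm.eval]

lemma mon_eval (f : ℕ → ℕ) (b r δ t : ℕ) : (mon f b r δ t).eval v =
    (dec δ (Nat.pair t b + 1) : R) *
      ∏ j ∈ Finset.range r, v (f j) ^ dec δ (Nat.pair t (j + 2) + 1) := by
  induction r with
  | zero => simp [mon, num_eval]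
  | succ r ih => rw [mon, Tm.eval, ih, pow_eval, Finset.prod_range_succ, mul_assoc]

lemma sumT_eval (f : ℕ → ℕ) (b r δ n : ℕ) : (sumT f b r δ n).eval v =
    ∑ t ∈ Finset.range n, (dec δ (Nat.pair t b + 1) : R) *
      ∏ j ∈ Finset.range r, v (f j) ^ dec δ (Nat.pair t (j + 2) + 1) := by
  induction n with
  | zero => simp [sumT, Tm.eval]
  | succ n ih => rw [sumT, Tm.eval, ih, mon_eval, Finset.sum_range_succ]

lemma pval_eq (f : ℕ → ℕ) (r δ : ℕ) : pval r δ (fun i => v (f i)) =
    (sumT f 0 r δ (dec δ 0)).eval v - (sumT f 1 r δ (dec δ 0)).eval v := by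
  rw [sumT_eval, sumT_eval, ← Finset.sum_sub_distrib]
  unfold pval
  refine Finset.sum_congr rfl fun t _ => ?_
  rw [sub_mul]

end

/-- the formula `0 < pval r δ (x ∘ f)` -/
def posF (f : ℕ → ℕ) (r δ : ℕ) : Fm := .lt (sumT f 1 r δ (dec δ 0)) (sumT f 0 r δ (dec δ 0))
/-- the formula `pval r δ (x ∘ f) < 0` -/
def negF (f : ℕ → ℕ) (r δ : ℕ) : Fm := .lt (sumT f 0 r δ (dec δ 0)) (sumT f 1 r δ (dec δ 0))

section
variable {R : Type*} [Field R] [LinearOrder R] [IsStrictOrderedRing R] (v : ℕ → R)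
lemma posF_holds (f : ℕ → ℕ) (r δ : ℕ) :
    (posF f r δ).holds v ↔ 0 < pval r δ (fun i => v (f i)) := by
  rw [pval_eq, sub_pos]; rfl
lemma negF_holds (f : ℕ → ℕ) (r δ : ℕ) :
    (negF f r δ).holds v ↔ pval r δ (fun i => v (f i)) < 0 := by
  rw [pval_eq, sub_neg]; rfl
end

/-! ### Computability -/

lemma dec_primrec : Primrec₂ dec := by
  have h : Primrec₂ (fun n i : ℕ => n.unpair.1 % ((i + 1) * n.unpair.2 + 1)) := by
    refine Primrec.nat_mod.comp (Primrec.fst.comp (Primrec.unpair.comp Primrec.fst)) ?_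
    exact Primrec.succ.comp (Primrec.nat_mul.comp (Primrec.succ.comp Primrec.snd)
      (Primrec.snd.comp (Primrec.unpair.comp Primrec.fst)))
  exact h

lemma num_code : Primrec (fun c => (num c).code) := by
  have h : Primrec (Nat.rec (motive := fun _ => ℕ) (Nat.pair 1 0)
      (fun _ c => Nat.pair 3 (Nat.pair c (Nat.pair 2 0)))) := by
    refine Primrec.nat_rec₁ _ ?_
    exact Primrec₂.natPair.comp (Primrec.const 3) (Primrec₂.natPair.comp
      Primrec.snd (Primrec.const _))
  refine h.of_eq fun n => ?_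
  induction n with
  | zero => rfl
  | succ n ih => simp only [ih]; rfl

lemma pow_code (x : ℕ) : Primrec (fun a => (pow x a).code) := by
  have h : Primrec (Nat.rec (motive := fun _ => ℕ) (Nat.pair 2 0)
      (fun _ c => Nat.pair 4 (Nat.pair c (Nat.pair 0 x)))) := by
    refine Primrec.nat_rec₁ _ ?_
    exact Primrec₂.natPair.comp (Primrec.const 4) (Primrec₂.natPair.comp
      Primrec.snd (Primrec.const _))
  refine h.of_eq fun n => ?_
  induction n with
  | zero => rfl
  | succ n ih => simp only [ih]; rfl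

lemma mon_code (f : ℕ → ℕ) (b r : ℕ) : Primrec₂ (fun δ t => (mon f b r δ t).code) := by
  induction r with
  | zero =>
    exact num_code.comp (dec_primrec.comp Primrec.fst (Primrec.succ.comp
      (Primrec₂.natPair.comp Primrec.snd (Primrec.const b))))
  | succ r ih =>
    exact Primrec₂.natPair.comp (Primrec.const 4) (Primrec₂.natPair.comp ih
      ((pow_code (f r)).comp (dec_primrec.comp Primrec.fst (Primrec.succ.comp
      (Primrec₂.natPair.comp Primrec.snd (Primrec.const (r + 2)))))))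

lemma sumT_code (f : ℕ → ℕ) (b r : ℕ) : Primrec₂ (fun δ n => (sumT f b r δ n).code) := by
  have h : Primrec₂ (fun δ n : ℕ => Nat.rec (motive := fun _ => ℕ) (Nat.pair 1 0)
      (fun n c => Nat.pair 3 (Nat.pair c (mon f b r δ n).code)) n) := by
    refine Primrec.nat_rec (Primrec.const _)
      (g := fun (δ : ℕ) (p : ℕ × ℕ) => Nat.pair 3 (Nat.pair p.2 (mon f b r δ p.1).code)) ?_
    exact Primrec₂.natPair.comp (Primrec.const 3) (Primrec₂.natPair.comp
      (Primrec.snd.comp Primrec.snd) ((mon_code f b r).comp Primrec.fst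
        (Primrec.fst.comp Primrec.snd)))
  refine h.of_eq fun δ n => ?_
  induction n with
  | zero => rfl
  | succ n ih => simp only [ih]; rfl

lemma posF_code (f : ℕ → ℕ) (r : ℕ) : Primrec (fun δ => (posF f r δ).code) := by
  have hd : Primrec (fun δ => dec δ 0) := dec_primrec.comp Primrec.id (Primrec.const 0)
  exact Primrec₂.natPair.comp (Primrec.const 1) (Primrec₂.natPair.comp
    ((sumT_code f 1 r).comp Primrec.id hd) ((sumT_code f 0 r).comp Primrec.id hd))

lemma negF_code (f : ℕ → ℕ) (r : ℕ) : Primrec (fun δ => (negF f r δ).code) := by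
  have hd : Primrec (fun δ => dec δ 0) := dec_primrec.comp Primrec.id (Primrec.const 0)
  exact Primrec₂.natPair.comp (Primrec.const 1) (Primrec₂.natPair.comp
    ((sumT_code f 0 r).comp Primrec.id hd) ((sumT_code f 1 r).comp Primrec.id hd))

/-- the formulas `x_i = 0`, `m ≤ i` -/
def zeroF (m : ℕ) : Set Fm := {φ | ∃ i, m ≤ i ∧ φ = .eq (.var i) .zero}

lemma recursive_union (p : Set Fm) (hp : IsRecursive p) (m : ℕ) : IsRecursive (p ∪ zeroF m) := by
  obtain ⟨hdec, hpc⟩ := hp
  have key : ∀ n : ℕ, (∃ φ ∈ p ∪ zeroF m, φ.code = n) ↔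
      (∃ φ ∈ p, φ.code = n) ∨ (m ≤ n.unpair.2.unpair.1.unpair.2 ∧
        cEq (tVar n.unpair.2.unpair.1.unpair.2) tZero = n) := by
    intro n
    constructor
    · rintro ⟨φ, hφ | ⟨i, hi, rfl⟩, h⟩
      · exact Or.inl ⟨φ, hφ, h⟩
      · right
        have h1 : Nat.pair 0 (Nat.pair (Nat.pair 0 i) (Nat.pair 1 0)) = n := h
        subst h1
        simp only [Nat.unpair_pair]
        exact ⟨hi, rfl⟩
    · rintro (⟨φ, hφ, h⟩ | ⟨h1, h2⟩)
      · exact ⟨φ, Or.inl hφ, h⟩
      · exact ⟨_, Or.inr ⟨_, h1, rfl⟩, h2⟩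
  classical
  have hg : Primrec (fun n : ℕ => n.unpair.2.unpair.1.unpair.2) :=
    Primrec.snd.comp (Primrec.unpair.comp (Primrec.fst.comp (Primrec.unpair.comp
      (Primrec.snd.comp Primrec.unpair))))
  have h1 : Computable (fun n : ℕ => decide (m ≤ n.unpair.2.unpair.1.unpair.2)) :=
    (Primrec.nat_le.comp (Primrec.const m) hg).decide.to_comp
  have h2 : Computable (fun n : ℕ => decide
      (cEq (tVar n.unpair.2.unpair.1.unpair.2) tZero = n)) :=
    (Primrec.eq.comp (Primrec₂.natPair.comp (Primrec.const 0) (Primrec₂.natPair.comp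
      (Primrec₂.natPair.comp (Primrec.const 0) hg) (Primrec.const _))) Primrec.id).decide.to_comp
  refine ⟨fun n => Classical.dec _, ?_⟩
  refine (Computable.cond hpc (Computable.const true) (Computable.cond h1 h2
    (Computable.const false))).of_eq fun n => ?_
  rw [Bool.eq_iff_iff, decide_eq_true_iff]
  refine Iff.trans ?_ (key n).symm
  by_cases a1 : ∃ φ ∈ p, φ.code = n
  · simp [a1]
  · by_cases a2 : m ≤ n.unpair.2.unpair.1.unpair.2
    · simp [a1, a2]
    · simp [a1, a2]

theorem Henkin_of (hM : Stmt_HModel) (hT : Stmt_HTree.{v}) : Stmt_Henkin.{v} := by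
  intro R _ _ _ _ Cod hC k r a p ha hp hQ hfin
  obtain ⟨T, E, L, hH, hcod, hp1, hq1⟩ := hT R Cod hC (fun δ => posF (fun i => k + i) r δ)
    {δ | 0 < pval r δ a} (p ∪ zeroF (k + r)) (recursive_union p hp _)
    (posF_code _ r).to_comp hQ (by
      classical
      intro s hs
      obtain ⟨b, hb, hb2⟩ := hfin (s.filter (· ∈ p)) (by
        intro φ hφ
        simp only [Finset.coe_filter, Set.mem_ofPred_eq] at hφ
        exact hφ.2)
      refine ⟨b, fun δ => ?_, fun φ hφ => ?_⟩
      · rw [posF_holds]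
        have : (fun i => b (k + i)) = a := funext hb
        rw [this]; rfl
      · rcases hs hφ with h | ⟨i, hi, rfl⟩
        · exact hb2 φ (Finset.mem_filter.2 ⟨hφ, h⟩)
        · show b i = 0
          have h1 := hb (i - k)
          rw [Nat.add_sub_cancel' (by omega)] at h1
          rw [h1]
          exact ha _ (by omega))
  obtain ⟨N, i1, i2, i3, i4, w, hw⟩ := hM T E L hH
  refine ⟨N, i1, i2, i3, i4, w, fun φ hφ => (hw φ).2 (hp1 φ (Or.inl hφ)), fun i hi => ?_,
    fun δ => ?_, fun n ν => ⟨?_, ?_⟩⟩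
  · have h := (hw _).2 (hp1 _ (Or.inr ⟨i, hi, rfl⟩))
    exact h
  · rw [← posF_holds w (fun i => k + i) r δ, hw, hq1]; rfl
  · have h1 : {δ | 0 < pval n δ (fun i => w (dec ν i))} =
        (fun δ => (posF (fun i => dec ν i) n δ).code) ⁻¹' {c | T c 0} := by
      ext δ
      show 0 < pval n δ (fun i => w (dec ν i)) ↔ T (posF (fun i => dec ν i) n δ).code 0
      rw [← hw, posF_holds]
    rw [h1]
    exact hC.preimage _ _ hcod (posF_code _ n).to_comp
  · have h1 : {δ | pval n δ (fun i => w (dec ν i)) < 0} =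
        (fun δ => (negF (fun i => dec ν i) n δ).code) ⁻¹' {c | T c 0} := by
      ext δ
      show pval n δ (fun i => w (dec ν i)) < 0 ↔ T (negF (fun i => dec ν i) n δ).code 0
      rw [← hw, negF_holds]
    rw [h1]
    exact hC.preimage _ _ hcod (negF_code _ n).to_comp

end HP

theorem Henkin_proof : Stmt_Henkin.{v} := HP.Henkin_of HModel_proof HT.HTree_proof

end Pool.Agent.RSV
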