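import Pool.Agent.RSV.Core

/-!
# The polynomial with code `δ` as an element of `MvPolynomial ℕ ℤ`
-/

namespace Pool.Agent.RSV

open MvPolynomial

universe v

/-- the polynomial with code `δ` in the first `n` variables -/
noncomputable def pvalP (n δ : ℕ) : MvPolynomial ℕ ℤ :=
  ∑ t ∈ Finset.range (dec δ 0),
    (C (dec δ (Nat.pair t 0 + 1) : ℤ) - C (dec δ (Nat.pair t 1 + 1) : ℤ)) *
      ∏ j ∈ Finset.range n, X j ^ dec δ (Nat.pair t (j + 2) + 1)

theorem aeval_pvalP {R : Type v} [CommRing R] (n δ : ℕ) (v : ℕ → R) :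
    aeval v (pvalP n δ) = ∑ t ∈ Finset.range (dec δ 0),
    ((dec δ (Nat.pair t 0 + 1) : R) - (dec δ (Nat.pair t 1 + 1) : R)) *
      ∏ j ∈ Finset.range n, v j ^ dec δ (Nat.pair t (j + 2) + 1) := by
  simp only [pvalP, map_sum, map_mul, map_sub, map_prod, map_pow, aeval_X, aeval_C, map_natCast]

theorem aeval_pvalP' {R : Type v} [Field R] [LinearOrder R] [IsStrictOrderedRing R] (n δ : ℕ)
    (v : ℕ → R) : aeval v (pvalP n δ) = pval n δ v := aeval_pvalP n δ v

/-- POLY in a universe-free form -/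
def Stmt_PolyCode : Prop :=
  ∀ (n : ℕ) (q : MvPolynomial ℕ ℤ), ∃ δ : ℕ,
    aeval (fun i => if i < n then (X i : MvPolynomial ℕ ℤ) else 0) q = pvalP n δ

theorem aeval_of_polyCode {n δ : ℕ} {q : MvPolynomial ℕ ℤ}
    (h : aeval (fun i => if i < n then (X i : MvPolynomial ℕ ℤ) else 0) q = pvalP n δ)
    {R : Type v} [Field R] [LinearOrder R] [IsStrictOrderedRing R] (v : ℕ → R)
    (hv : ∀ i, n ≤ i → v i = 0) : aeval v q = pval n δ v := by
  rw [← aeval_pvalP', ← h]
  have : (aeval v).comp (aeval (fun i => if i < n then (X i : MvPolynomial ℕ ℤ) else 0)) =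
      aeval (R := ℤ) v := by
    apply algHom_ext
    intro i
    simp only [AlgHom.comp_apply, aeval_X]
    split_ifs with hi
    · simp
    · rw [map_zero, hv i (not_lt.1 hi)]
  conv_lhs => rw [← this]
  rfl

end Pool.Agent.RSV
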