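import Pool.Agent.RSV.Specs
import Pool.Agent.RSV.PvalP

/-!
# LOGIC: recursive saturation from coding and realisation of polynomial types
-/

namespace Pool.Agent.RSV

open MvPolynomial

universe u v

/-! ### terms and sign formulas -/

theorem Tm.map_eval {A : Type u} {B : Type v} [CommRing A] [CommRing B] (f : A →+* B) (v : ℕ → A)
    (t : Tm) : f (t.eval v) = t.eval (fun i => f (v i)) := by
  induction t with
  | var n => rfl
  | zero => exact map_zero f
  | one => exact map_one f
  | add s t hs ht => simp [Tm.eval, hs, ht]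
  | mul s t hs ht => simp [Tm.eval, hs, ht]

/-- numerals -/
def numTm : ℕ → Tm
  | 0 => .zero
  | n + 1 => .add (numTm n) .one

theorem numTm_eval {A : Type u} [CommRing A] (v : ℕ → A) (n : ℕ) : (numTm n).eval v = n := by
  induction n with
  | zero => simp [numTm, Tm.eval]
  | succ n ih => simp [numTm, Tm.eval, ih]

theorem exists_terms (q : MvPolynomial ℕ ℤ) :
    ∃ s t : Tm, s.eval (fun i => (X i : MvPolynomial ℕ ℤ)) = t.eval (fun i => X i) + q := by
  induction q using MvPolynomial.induction_on with
  | C a =>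
    refine ⟨numTm a.toNat, numTm (-a).toNat, ?_⟩
    rw [numTm_eval, numTm_eval]
    have h : (a.toNat : ℤ) = ((-a).toNat : ℤ) + a := by omega
    have h2 : (C ((a.toNat : ℕ) : ℤ) : MvPolynomial ℕ ℤ) = C (((-a).toNat : ℕ) : ℤ) + C a := by
      rw [← C_add, ← h]
    rwa [map_natCast, map_natCast] at h2
  | add p q hp hq =>
    obtain ⟨s, t, h⟩ := hp
    obtain ⟨s', t', h'⟩ := hq
    refine ⟨.add s s', .add t t', ?_⟩
    simp only [Tm.eval, h, h']
    ring
  | mul_X p i hp =>
    obtain ⟨s, t, h⟩ := hp
    refine ⟨.mul s (.var i), .mul t (.var i), ?_⟩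
    simp only [Tm.eval, h]
    ring

/-- the formula `sign q = σ` -/
noncomputable def sgnFm (q : MvPolynomial ℕ ℤ) (σ : SignType) : Fm :=
  let s := (exists_terms q).choose
  let t := (exists_terms q).choose_spec.choose
  match σ with
  | .zero => .eq s t
  | .pos => .lt t s
  | .neg => .lt s t

theorem sgnFm_holds {R : Type u} [Field R] [LinearOrder R] [IsStrictOrderedRing R]
    (q : MvPolynomial ℕ ℤ) (σ : SignType) (v : ℕ → R) :
    (sgnFm q σ).holds v ↔ SignType.sign (aeval v q) = σ := by
  have h := (exists_terms q).choose_spec.choose_spec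
  set s := (exists_terms q).choose with hs
  set t := (exists_terms q).choose_spec.choose with ht
  have h2 : s.eval v = t.eval v + aeval v q := by
    have h3 := congrArg (aeval (R := ℤ) v).toRingHom h
    rw [map_add, Tm.map_eval, Tm.map_eval] at h3
    simpa using h3
  cases σ with
  | zero =>
    change s.eval v = t.eval v ↔ SignType.sign (aeval v q) = 0
    rw [sign_eq_zero_iff, h2]
    simp
  | pos =>
    change t.eval v < s.eval v ↔ SignType.sign (aeval v q) = 1
    rw [sign_eq_one_iff, h2]
    simp
  | neg =>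
    change s.eval v < t.eval v ↔ SignType.sign (aeval v q) = -1
    rw [sign_eq_neg_one_iff, h2]
    simp

/-- conjunctions -/
def conjFm : List Fm → Fm
  | [] => .eq .zero .zero
  | φ :: l => .and φ (conjFm l)

theorem conjFm_holds {R : Type u} [Semiring R] [LT R] (l : List Fm) (v : ℕ → R) :
    (conjFm l).holds v ↔ ∀ φ ∈ l, φ.holds v := by
  induction l with
  | nil => simp [conjFm, Fm.holds]
  | cons φ l ih => simp [conjFm, Fm.holds, ih]

/-! ### signs and codes -/

theorem update_cns {α : Type u} (a b : α) (v : ℕ → α) : Function.update (cns a v) 0 b = cns b v := by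
  funext i
  cases i with
  | zero => simp [cns]
  | succ n => simp [cns]

theorem cns_tail {α : Type u} (w : ℕ → α) (m : ℕ) :
    cns (w m) (fun i => w (m + 1 + i)) = fun i => w (m + i) := by
  funext i
  cases i with
  | zero => rfl
  | succ n =>
    change w (m + 1 + n) = w (m + (n + 1))
    congr 1
    omega

/-- signs of polynomials in `cns 0 v` are signs of polynomials in `v` -/
theorem aeval_cns_zero {R : Type u} [CommRing R] (v : ℕ → R) (q : MvPolynomial ℕ ℤ) :
    aeval (cns 0 v) q = aeval v (aeval (cns 0 (fun i => (X i : MvPolynomial ℕ ℤ))) q) := by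
  have : (aeval (R := ℤ) v).comp (aeval (cns 0 (fun i => (X i : MvPolynomial ℕ ℤ)))) =
      aeval (R := ℤ) (cns 0 v) := by
    apply algHom_ext
    intro i
    cases i with
    | zero => simp [cns]
    | succ n => simp [cns]
  rw [← this]
  rfl

theorem pval_congr {R : Type u} [Field R] [LinearOrder R] [IsStrictOrderedRing R] (n δ : ℕ)
    {v w : ℕ → R} (h : ∀ i < n, v i = w i) : pval n δ v = pval n δ w := by
  unfold pval
  refine Finset.sum_congr rfl fun t _ => ?_
  congr 1
  refine Finset.prod_congr rfl fun j hj => ?_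
  rw [h j (Finset.mem_range.1 hj)]

theorem exists_dec (n m : ℕ) : ∃ ν, ∀ i < n, dec ν i = m + i := by
  refine ⟨Nat.unbeta (List.ofFn (fun i : Fin n => m + i)), fun i hi => ?_⟩
  have := Nat.beta_unbeta_coe (List.ofFn (fun i : Fin n => m + i.1)) ⟨i, by simpa using hi⟩
  unfold dec
  simpa using this

theorem logic (hH : Stmt_Henkin.{v}) (hQ : Stmt_QE.{v, 0}) (hP : Stmt_PolyCode) :
    Stmt_Logic.{v} := by
  intro R _ _ _ _ Cod hS hC hR k r a p hrec hfree hfin
  set a' : ℕ → R := fun i => if h : i < r then a ⟨i, h⟩ else 0 with ha'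
  have ha'0 : ∀ i, r ≤ i → a' i = 0 := fun i hi => by simp [ha', not_lt.2 hi]
  have hasg : ∀ (b : Fin k → R) (i : ℕ), asg b a (k + i) = a' i := by
    intro b i
    simp [asg, ha']
  obtain ⟨N, _, _, _, _, w, hw1, hw2, hw3, hw4⟩ := hH R Cod hS k r a' p ha'0 hrec (hC r a')
    (fun s hs => by
      obtain ⟨b, hb⟩ := hfin s hs
      exact ⟨asg b a, hasg b, hb⟩)
  -- extension of the parameters, one by one
  have main : ∀ j ≤ k, ∃ v : ℕ → R, (∀ i, v (j + i) = a' i) ∧
      ∀ q : MvPolynomial ℕ ℤ,
        SignType.sign (aeval v q) = SignType.sign (aeval (fun i => w (k - j + i)) q) := by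
    intro j
    induction j with
    | zero =>
      intro _
      refine ⟨a', fun i => by rw [zero_add], fun q => ?_⟩
      rw [Nat.sub_zero]
      have hN : ∀ i, r ≤ i → w (k + i) = 0 := fun i hi => hw2 _ (by omega)
      have hpos : ∀ q : MvPolynomial ℕ ℤ, 0 < aeval (fun i => w (k + i)) q ↔ 0 < aeval a' q := by
        intro q
        obtain ⟨δ, hδ⟩ := hP r q
        rw [aeval_of_polyCode hδ _ hN, aeval_of_polyCode hδ _ ha'0]
        exact hw3 δ
      have h1 := hpos q
      have h2 := hpos (-q)
      rw [map_neg, map_neg, neg_pos, neg_pos] at h2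
      rcases lt_trichotomy (aeval a' q) 0 with h | h | h
      · rw [sign_neg h, sign_neg (h2.2 h)]
      · have h3 : aeval (fun i => w (k + i)) q = 0 := by
          apply le_antisymm
          · exact not_lt.1 fun h' => absurd (h1.1 h') (by rw [h]; exact lt_irrefl _)
          · exact not_lt.1 fun h' => absurd (h2.1 h') (by rw [h]; exact lt_irrefl _)
        rw [h, h3]
        simp
      · rw [sign_pos h, sign_pos (h1.2 h)]
    | succ j ih =>
      intro hj
      obtain ⟨v, hv1, hv2⟩ := ih (by omega)
      obtain ⟨m, hm⟩ : ∃ m, k - j = m + 1 := ⟨k - j - 1, by omega⟩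
      have hm' : k - (j + 1) = m := by omega
      rw [hm']
      rw [hm] at hv2
      set n := r + j with hn
      have hvn : ∀ i, n ≤ i → v i = 0 := by
        intro i hi
        obtain ⟨c, rfl⟩ := Nat.exists_eq_add_of_le (show j ≤ i by omega)
        rw [hv1]
        exact ha'0 _ (by omega)
      have hwn : ∀ i, n + 1 ≤ i → w (m + i) = 0 := fun i hi => hw2 _ (by omega)
      obtain ⟨ν, hν⟩ := exists_dec (n + 1) m
      obtain ⟨hCp, hCn⟩ := hw4 (n + 1) ν
      have hpv : ∀ δ, pval (n + 1) δ (fun i => w (dec ν i)) =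
          pval (n + 1) δ (fun i => w (m + i)) := by
        intro δ
        apply pval_congr
        intro i hi
        rw [hν i hi]
      simp only [hpv] at hCp hCn
      obtain ⟨b, hb⟩ := hR n v _ _ hCp hCn (by
        intro K
        -- transfer the existence of `b` by quantifier elimination
        let ψ : Fm := conjFm ((List.range K).map fun δ =>
          sgnFm (pvalP (n + 1) δ) (SignType.sign (pval (n + 1) δ (fun i => w (m + i)))))
        obtain ⟨S, hS'⟩ := hQ (.ex 0 ψ)
        have hex : (Fm.ex 0 ψ).holds (cns 0 (fun i => w (m + 1 + i))) := by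
          refine ⟨w m, ?_⟩
          rw [update_cns, cns_tail, conjFm_holds]
          intro φ hφ
          obtain ⟨δ, -, rfl⟩ := List.mem_map.1 hφ
          rw [sgnFm_holds, aeval_pvalP']
        rw [← hS' R N (cns 0 v) (cns 0 (fun i => w (m + 1 + i)))] at hex
        · obtain ⟨b, hb⟩ := hex
          rw [update_cns, conjFm_holds] at hb
          refine ⟨b, fun δ hδ => ?_⟩
          have h1 := hb _ (List.mem_map.2 ⟨δ, List.mem_range.2 hδ, rfl⟩)
          rw [sgnFm_holds, aeval_pvalP'] at h1
          refine ⟨fun h => ?_, fun h => ?_, fun h h' => ?_⟩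
          · rw [sign_pos h, sign_eq_one_iff] at h1
            exact h1
          · rw [sign_neg h, sign_eq_neg_one_iff] at h1
            exact h1
          · have h3 : pval (n + 1) δ (fun i => w (m + i)) = 0 :=
              le_antisymm (not_lt.1 h) (not_lt.1 h')
            rw [h3, sign_zero, sign_eq_zero_iff] at h1
            exact h1
        · intro q _
          rw [aeval_cns_zero, aeval_cns_zero]
          exact hv2 _)
      have hbn : ∀ i, n + 1 ≤ i → cns b v i = 0 := by
        intro i hi
        obtain ⟨c, rfl⟩ := Nat.exists_eq_add_of_le (show 1 ≤ i by omega)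
        rw [add_comm 1 c]
        exact hvn c (by omega)
      refine ⟨cns b v, fun i => ?_, fun q => ?_⟩
      · have : j + 1 + i = (j + i) + 1 := by omega
        rw [this]
        exact hv1 i
      · obtain ⟨δ, hδ⟩ := hP (n + 1) q
        rw [aeval_of_polyCode hδ _ hbn, aeval_of_polyCode hδ _ hwn]
        obtain ⟨h1, h2, h3⟩ := hb δ
        rcases lt_trichotomy (pval (n + 1) δ (fun i => w (m + i))) 0 with h | h | h
        · rw [sign_neg h, sign_neg (h2 h)]
        · rw [h, h3 (by simp [h]) (by simp [h])]
          simp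
        · rw [sign_pos h, sign_pos (h1 h)]
  obtain ⟨v, hv1, hv2⟩ := main k le_rfl
  refine ⟨fun i => v i, fun φ hφ => ?_⟩
  have hveq : asg (fun i : Fin k => v i) a = v := by
    funext i
    rcases lt_or_ge i k with hi | hi
    · simp [asg, hi]
    · obtain ⟨c, rfl⟩ := Nat.exists_eq_add_of_le hi
      rw [hasg, hv1]
  rw [hveq]
  obtain ⟨S, hS'⟩ := hQ φ
  rw [hS' R N v w]
  · exact hw1 φ hφ
  · intro q _
    rw [hv2 q]
    simp

end Pool.Agent.RSV
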