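import Pool.Agent.RSV.Specs
import Pool.Agent.RSV.Bits

/-!
# MUL: products of internal families
-/

namespace Pool.Agent.RSV

universe u v

variable {U : Type u} {R : Type v} [CommSemiring U] [LinearOrder U] [IsStrictOrderedRing U]
  [CanonicallyOrderedAdd U] [Field R] [LinearOrder R] [IsStrictOrderedRing R]

namespace MulAux

variable {B : BIP U R}

theorem nf_lt {K : U} {S : U → R} (h : B.NF K S) (i : U) : S i < B.e K := h.lt i

/-- `udiv`/`umod` of `i * β + t` -/
theorem div_mod (B : BIP U R) {β i t : U} (ht : t < β) : udiv (i * β + t) β = i ∧ umod (i * β + t) β = t := by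
  have hβ : (0 : U) < β := lt_of_le_of_lt (zero_le) ht
  have h1 := B.div_add_md (i * β + t) β hβ
  have h2 := B.md_lt (i * β + t) β hβ
  have h3 : β * udiv (i * β + t) β + umod (i * β + t) β = β * i + t := by
    rw [h1]; ring
  exact B.div_unique h3 h2 ht

theorem exists_split (B : BIP U R) (u β : U) (hβ : 0 < β) : ∃ q r, r < β ∧ u = q * β + r := by
  refine ⟨udiv u β, umod u β, B.md_lt u β hβ, ?_⟩
  have := B.div_add_md u β hβ
  rw [mul_comm (udiv u β) β]
  exact this.symm

/-- the number whose `i`-th block of length `β` is `S i`, for `i < I` -/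
theorem exists_block {C β I : U} {S : U → R} (hS : B.NF C S) (hCβ : C ≤ β) (hβ : 0 < β) :
    ∃ W ∈ B.Z, 0 ≤ W ∧ (∀ i, i < I → B.win W (i * β) β = S i) ∧
      (∀ j, j < I → B.lo W ((j + 1) * β) < B.e (j * β + C)) ∧
      (∀ j, j + 1 = I → W < B.e (j * β + C)) := by
  have hP : B.D1 (fun u => B.bit (S (udiv u β)) (umod u β)) := by
    refine BIP.NF.bit hS ?_ ?_
    · exact BIP.F.div (BIP.F.var 0) (BIP.F.const β)
    · exact BIP.F.md (BIP.F.var 0) (BIP.F.const β)
  obtain ⟨W, hW, hW0, -, hb⟩ := B.exists_bits hP (I * β)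
  have hblock : ∀ q r, r < β → (B.bit W (q * β + r) ↔ q < I ∧ B.bit (S q) r) := by
    intro q r hr
    rw [hb]
    obtain ⟨h1, h2⟩ := div_mod B (i := q) hr
    rw [h1, h2]
    constructor
    · rintro ⟨h3, h4⟩
      refine ⟨?_, h4⟩
      by_contra hc
      push Not at hc
      have : I * β ≤ q * β + r := le_trans (mul_le_mul_left hc β) (le_self_add)
      exact absurd h3 (not_lt.mpr this)
    · rintro ⟨h3, h4⟩
      refine ⟨?_, h4⟩
      have h5 : q + 1 ≤ I := (B.succ_le_iff q I).2 h3
      calc q * β + r < q * β + β := by gcongr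
        _ = (q + 1) * β := by ring
        _ ≤ I * β := by gcongr
  have hSbit : ∀ q r, C ≤ r → ¬ B.bit (S q) r := fun q r hr =>
    BIP.not_bit_of_lt (hS.nonneg q) (hS.lt q) hr
  have htop : ∀ j k, j < I → j * β + C ≤ k → k < (j + 1) * β → ¬ B.bit W k := by
    intro j k hj h1 h2 h3
    obtain ⟨q, r, hr, rfl⟩ := exists_split B k β hβ
    have hq : q = j := by
      rcases lt_trichotomy q j with h | h | h
      · exfalso
        have h5 : q + 1 ≤ j := (B.succ_le_iff q j).2 h
        have : q * β + r < j * β + C := by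
          calc q * β + r < q * β + β := by gcongr
            _ = (q + 1) * β := by ring
            _ ≤ j * β := by gcongr
            _ ≤ j * β + C := le_self_add
        exact absurd h1 (not_le.mpr this)
      · exact h
      · exfalso
        have h5 : j + 1 ≤ q := (B.succ_le_iff j q).2 h
        have : (j + 1) * β ≤ q * β + r := le_trans (by gcongr) le_self_add
        exact absurd h2 (not_lt.mpr this)
    subst hq
    rw [hblock q r hr] at h3
    exact hSbit q r (by simpa using h1) h3.2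
  refine ⟨W, hW, hW0, ?_, ?_, ?_⟩
  · intro i hi
    refine B.ext _ (BIP.win_mem _ _ _) _ (hS.mem i) (BIP.win_nonneg _ _ _) (hS.nonneg i) ?_
    intro k
    show B.bit (B.win W (i * β) β) k ↔ B.bit (S i) k
    rw [BIP.bit_win]
    constructor
    · rintro ⟨h1, h2⟩
      exact ((hblock i k h1).1 h2).2
    · intro h
      have hk : k < β := by
        by_contra hc
        push Not at hc
        exact hSbit i k (le_trans hCβ hc) h
      exact ⟨hk, (hblock i k hk).2 ⟨hi, h⟩⟩
  · intro j hj
    rw [BIP.lt_e_iff_bits (BIP.lo_mem hW _) (BIP.lo_nonneg _ _)]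
    intro k hk hb'
    rw [BIP.bit_lo] at hb'
    exact htop j k hj hk hb'.1 hb'.2
  · intro j hj
    rw [BIP.lt_e_iff_bits hW hW0]
    intro k hk hb'
    have hjI : j < I := by
      rw [← hj]; exact (B.lt_succ_iff j j).2 le_rfl
    by_cases h : k < (j + 1) * β
    · exact htop j k hjI hk h hb'
    · rw [hb] at hb'
      rw [hj] at h
      exact h hb'.1

end MulAux

open MulAux in
theorem mul_proof : Stmt_Mul.{u, v} := by
  intro U R _ _ _ _ _ _ _ B K L S T hS hT I
  rcases B.eq_zero_or_succ I with rfl | ⟨I', rfl⟩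
  · exact ⟨fun _ => 0, BIP.NF.const B.Z.zero_mem le_rfl (B.e_pos _), fun i hi =>
      absurd hi (not_lt.mpr zero_le)⟩
  set C : U := K + L with hC
  set β : U := C + (C + 1) with hβ
  have hβ0 : 0 < β := by
    rw [hβ]
    exact lt_of_lt_of_le zero_lt_one (le_trans le_add_self le_add_self)
  have hCβ : C ≤ β := le_self_add
  have hSC : B.NF C S := hS.mono le_self_add
  have hTC : B.NF C T := hT.mono le_add_self
  set Λ : U := (I' + 1) * β with hΛ
  have hΛ0 : 0 < Λ := by
    rw [hΛ]
    exact lt_of_lt_of_le hβ0 (by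
      calc β = 1 * β := (one_mul β).symm
        _ ≤ (I' + 1) * β := by gcongr; exact le_add_self)
  have hβΛ : β ≤ Λ := by
    calc β = 1 * β := (one_mul β).symm
      _ ≤ (I' + 1) * β := by gcongr; exact le_add_self
  obtain ⟨X, hX, hX0, hX1, hX2, hX3⟩ := exists_block (I := I' + 1) hSC hCβ hβ0
  obtain ⟨Y, hY, hY0, hY1, hY2, hY3⟩ := exists_block (I := I' + 1) hTC (hCβ.trans hβΛ) hΛ0
  have hXlt : X < B.e (I' * β + C) := hX3 I' rfl
  -- the family
  have hQ : B.NF Λ (fun i => B.win (X * Y) (i * Λ) Λ) :=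
    BIP.NF.ofWin (a := fun i => i * Λ) (w := fun _ => Λ) (B.Z.mul_mem hX hY) (mul_nonneg hX0 hY0)
      (BIP.F.mul (BIP.F.var 0) (BIP.F.const Λ)) (BIP.F.const Λ) (fun _ => le_rfl)
  have hP : B.NF C (fun i => B.win (B.win (X * Y) (i * Λ) Λ) (i * β) C) :=
    BIP.NF.win (a := fun i => i * β) (w := fun _ => C) hQ (BIP.F.mul (BIP.F.var 0) (BIP.F.const β)) (BIP.F.const C) (fun _ => le_rfl)
  refine ⟨_, hP, ?_⟩
  intro i hi
  have hTi := hTC.lt i
  have hTi0 := hTC.nonneg i
  have hβ2 : C + C ≤ β := by rw [hβ]; gcongr; exact le_self_add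
  -- low parts times anything `< e C`
  have key : ∀ (j δ : U) (a b : R), 0 ≤ a → 0 ≤ b → C + C ≤ δ → a < B.e (j * δ + C) → b < B.e C →
      a * b < B.e ((j + 1) * δ) := by
    intro j δ a b ha hb hδ h1 h2
    calc a * b < B.e (j * δ + C) * B.e C := mul_lt_mul'' h1 h2 ha hb
      _ = B.e (j * δ + C + C) := (B.e_add _ _).symm
      _ ≤ B.e ((j + 1) * δ) := by
          apply B.e_le
          calc j * δ + C + C = j * δ + (C + C) := by ring
            _ ≤ j * δ + δ := by gcongr
            _ = (j + 1) * δ := by ring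
  have h1 : B.win (X * Y) (i * Λ) Λ = X * T i := by
    have hdec := BIP.win_decomp (B := B) Y (i * Λ) Λ
    rw [hY1 i hi] at hdec
    refine BIP.win_eq (q := X * B.hi Y (i * Λ + Λ)) (r := X * B.lo Y (i * Λ))
      (B.Z.mul_mem hX (BIP.hi_mem _ _)) (B.Z.mul_mem hX (hTC.mem i)) ?_ ?_ ?_ ?_ ?_
    · conv_lhs => rw [hdec]
      ring
    · exact mul_nonneg hX0 (BIP.lo_nonneg _ _)
    · rcases B.eq_zero_or_succ i with rfl | ⟨j, rfl⟩
      · have h5 : B.lo Y (0 * Λ) < 1 := by
          have := BIP.lo_lt (B := B) Y (0 * Λ)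
          rwa [show B.e (0 * Λ) = 1 by rw [zero_mul, B.e_zero]] at this
        have h6 := BIP.lo_nonneg (B := B) Y (0 * Λ)
        have h7 : B.lo Y (0 * Λ) = 0 := by
          rcases h6.lt_or_eq with h | h
          · exact absurd (B.discrete _ (BIP.lo_mem hY _) h) (not_le.mpr h5)
          · exact h.symm
        rw [h7, mul_zero]
        exact B.e_pos _
      · have hj : j < I' + 1 := lt_of_le_of_lt (le_self_add) hi
        have h5 := hY2 j hj
        calc X * B.lo Y ((j + 1) * Λ) < B.e (I' * β + C) * B.e (j * Λ + C) :=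
              mul_lt_mul'' hXlt h5 hX0 (BIP.lo_nonneg _ _)
          _ = B.e (I' * β + C + (j * Λ + C)) := (B.e_add _ _).symm
          _ ≤ B.e ((j + 1) * Λ) := by
              apply B.e_le
              calc I' * β + C + (j * Λ + C) = j * Λ + (I' * β + (C + C)) := by ring
                _ ≤ j * Λ + (I' * β + β) := by gcongr
                _ = (j + 1) * Λ := by rw [hΛ]; ring
    · exact mul_nonneg hX0 hTi0
    · rw [hΛ]
      exact key I' β X (T i) hX0 hTi0 hβ2 hXlt hTi
  show B.win (B.win (X * Y) (i * Λ) Λ) (i * β) C = S i * T i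
  rw [h1]
  have hdec := BIP.win_decomp (B := B) X (i * β) β
  rw [hX1 i hi] at hdec
  refine BIP.win_eq (q := B.e (C + 1) * (B.hi X (i * β + β) * T i)) (r := B.lo X (i * β) * T i)
    (B.Z.mul_mem (B.e_mem _) (B.Z.mul_mem (BIP.hi_mem _ _) (hTC.mem i)))
    (B.Z.mul_mem (hSC.mem i) (hTC.mem i)) ?_ ?_ ?_ ?_ ?_
  · conv_lhs => rw [hdec]
    have h8 : B.e (i * β + β) = B.e (i * β + C) * B.e (C + 1) := by
      rw [← B.e_add]; congr 1; rw [hβ]; ring
    rw [h8]
    ring
  · exact mul_nonneg (BIP.lo_nonneg _ _) hTi0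
  · rcases B.eq_zero_or_succ i with rfl | ⟨j, rfl⟩
    · have h5 : B.lo X (0 * β) < 1 := by
        have := BIP.lo_lt (B := B) X (0 * β)
        rwa [show B.e (0 * β) = 1 by rw [zero_mul, B.e_zero]] at this
      have h6 := BIP.lo_nonneg (B := B) X (0 * β)
      have h7 : B.lo X (0 * β) = 0 := by
        rcases h6.lt_or_eq with h | h
        · exact absurd (B.discrete _ (BIP.lo_mem hX _) h) (not_le.mpr h5)
        · exact h.symm
      rw [h7, zero_mul]
      exact B.e_pos _
    · have hj : j < I' + 1 := lt_of_le_of_lt (le_self_add) hi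
      exact key j β _ _ (BIP.lo_nonneg _ _) hTi0 hβ2 (hX2 j hj) hTi
  · exact mul_nonneg (hSC.nonneg i) hTi0
  · rw [hC, B.e_add]
    exact mul_lt_mul'' (hS.lt i) (hT.lt i) (hS.nonneg i) (hT.nonneg i)

end Pool.Agent.RSV
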