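import Pool.Agent.RSV.PvalP
import Pool.Agent.RSV.Specs

/-!
# POLY: every integer polynomial has a code
-/

namespace Pool.Agent.RSV

open MvPolynomial

universe v

/-- every finite sequence has a code -/
theorem exists_decP (f : ℕ → ℕ) (L : ℕ) : ∃ δ : ℕ, ∀ i < L, dec δ i = f i := by
  refine ⟨Nat.unbeta ((List.range L).map f), fun i hi => ?_⟩
  have h := Nat.beta_unbeta_coe ((List.range L).map f) ⟨i, by simpa using hi⟩
  simpa [dec] using h

/-- a finite sum over a `Finset` written as a sum over a range -/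
theorem sum_eq_range {α β : Type*} [AddCommMonoid β] [Inhabited α] [DecidableEq α] (s : Finset α)
    (F : α → β) : ∃ (T : ℕ) (m : ℕ → α), (∀ t < T, m t ∈ s) ∧
      ∑ x ∈ s, F x = ∑ t ∈ Finset.range T, F (m t) := by
  induction s using Finset.induction_on with
  | empty => exact ⟨0, fun _ => default, by simp, by simp⟩
  | insert a s ha ih =>
    obtain ⟨T, m, hm, h⟩ := ih
    refine ⟨T + 1, fun t => if t = T then a else m t, fun t ht => ?_, ?_⟩
    · by_cases h1 : t = T
      · simp [h1]
      · simp only [h1, if_false]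
        exact Finset.mem_insert_of_mem (hm t (by omega))
    · rw [Finset.sum_insert ha, Finset.sum_range_succ, h, add_comm]
      congr 1
      · refine Finset.sum_congr rfl fun t ht => ?_
        have : t ≠ T := (Finset.mem_range.1 ht).ne
        simp [this]
      · simp

/-- the polynomial with coefficients `c t` and exponents `m t j`, `t < T`, has a code -/
theorem exists_code (n T : ℕ) (c : ℕ → ℤ) (m : ℕ → ℕ → ℕ) : ∃ δ : ℕ,
    pvalP n δ = ∑ t ∈ Finset.range T, C (c t) * ∏ j ∈ Finset.range n, (X j : MvPolynomial ℕ ℤ) ^ m t j := by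
  obtain ⟨δ, hδ⟩ := exists_decP (fun i => match i with
    | 0 => T
    | s + 1 => match (Nat.unpair s).2 with
      | 0 => (c (Nat.unpair s).1).toNat
      | 1 => (- c (Nat.unpair s).1).toNat
      | j + 2 => m (Nat.unpair s).1 j) (Nat.pair T (n + 2) + 2)
  have h0 : dec δ 0 = T := hδ 0 (by omega)
  have hlt : ∀ t < T, ∀ a ≤ n + 2, Nat.pair t a + 1 < Nat.pair T (n + 2) + 2 := by
    intro t ht a ha
    have h1 : Nat.pair t a < Nat.pair T a := Nat.pair_lt_pair_left a ht
    have h2 : Nat.pair T a ≤ Nat.pair T (n + 2) := by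
      rcases ha.eq_or_lt with h | h
      · rw [h]
      · exact (Nat.pair_lt_pair_right T h).le
    omega
  refine ⟨δ, ?_⟩
  rw [pvalP, h0]
  refine Finset.sum_congr rfl fun t ht => ?_
  have ht' := Finset.mem_range.1 ht
  congr 1
  · rw [hδ _ (hlt t ht' 0 (by omega)), hδ _ (hlt t ht' 1 (by omega))]
    simp only [Nat.unpair_pair]
    rw [← C_sub]
    congr 1
    have := Int.toNat_sub_toNat_neg (c t)
    exact this
  · refine Finset.prod_congr rfl fun j hj => ?_
    have hj' := Finset.mem_range.1 hj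
    rw [hδ _ (hlt t ht' (j + 2) (by omega))]
    simp only [Nat.unpair_pair]

theorem poly_code : Stmt_PolyCode := by
  intro n q
  classical
  obtain ⟨T, μ, -, hT⟩ := sum_eq_range q.support
    (fun m => C (coeff m q) * ∏ i ∈ m.support,
      (if i < n then (X i : MvPolynomial ℕ ℤ) else 0) ^ m i)
  -- coefficient: zero if some variable `≥ n` occurs
  obtain ⟨δ, hδ⟩ := exists_code n T
    (fun t => if ∀ i ∈ (μ t).support, i < n then coeff (μ t) q else 0) (fun t j => μ t j)
  refine ⟨δ, ?_⟩
  rw [hδ, aeval_def, eval₂_eq]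
  simp only [algebraMap_eq]
  rw [hT]
  refine Finset.sum_congr rfl fun t _ => ?_
  by_cases h : ∀ i ∈ (μ t).support, i < n
  · rw [if_pos h]
    congr 1
    have h1 : ∏ i ∈ (μ t).support, (if i < n then (X i : MvPolynomial ℕ ℤ) else 0) ^ (μ t) i =
        ∏ i ∈ (μ t).support, (X i : MvPolynomial ℕ ℤ) ^ (μ t) i :=
      Finset.prod_congr rfl fun i hi => by rw [if_pos (h i hi)]
    rw [h1]
    refine Finset.prod_subset (fun i hi => Finset.mem_range.2 (h i hi)) fun i _ hi => ?_
    rw [Finsupp.notMem_support_iff.1 hi, pow_zero]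
  · rw [if_neg h, C_0, zero_mul]
    push Not at h
    obtain ⟨i, hi, hin⟩ := h
    rw [Finset.prod_eq_zero hi, mul_zero]
    rw [if_neg (not_lt.2 hin), zero_pow (Finsupp.mem_support_iff.1 hi)]

theorem poly_proof : Stmt_Poly.{v} := by
  intro n q
  obtain ⟨δ, hδ⟩ := poly_code n q
  exact ⟨δ, fun R _ _ _ v hv => aeval_of_polyCode hδ v hv⟩

end Pool.Agent.RSV
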