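import Pool.Agent.RSV.QETransfer

/-!
# Quantifier elimination for real closed fields (semantic form)
-/

namespace Pool.Agent.RSV.QE

open Polynomial

universe u v

/-! ### Finite closures -/

section Closure

variable {A : Type*} [CommRing A]

lemma exists_prem (Q : A[X]) (hQ : 0 < Q.natDegree) : ∀ (m : ℕ) (P : A[X]), P.natDegree ≤ m →
    ∃ S : A[X], S.natDegree < Q.natDegree ∧ ∃ (n : ℕ) (B : A[X]),
      C (Q.leadingCoeff ^ (2 * n)) * P = B * Q + S := by
  intro m
  induction m using Nat.strong_induction_on with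
  | _ m ih =>
    intro P hP
    rcases Nat.lt_or_ge P.natDegree Q.natDegree with h | h
    · exact ⟨P, h, 0, 0, by simp⟩
    · set P₁ : A[X] := C (Q.leadingCoeff ^ 2) * P -
        C (Q.leadingCoeff * P.leadingCoeff) * X ^ (P.natDegree - Q.natDegree) * Q with hP₁
      have h1 : P₁.natDegree ≤ P.natDegree - 1 := by
        rw [natDegree_le_iff_coeff_eq_zero]
        intro N hN
        rw [hP₁, coeff_sub, coeff_C_mul, mul_assoc, coeff_C_mul, coeff_X_pow_mul']
        rcases Nat.lt_or_ge P.natDegree N with h2 | h2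
        · rw [coeff_eq_zero_of_natDegree_lt h2, if_pos (by omega),
            coeff_eq_zero_of_natDegree_lt (by omega)]
          simp
        · have h3 : N = P.natDegree := by omega
          rw [h3, if_pos (by omega),
            show P.natDegree - (P.natDegree - Q.natDegree) = Q.natDegree by omega,
            coeff_natDegree, coeff_natDegree]
          ring
      obtain ⟨S, hS, n, B, hB⟩ := ih (P.natDegree - 1) (by omega) P₁ h1
      refine ⟨S, hS, n + 1, B + C (Q.leadingCoeff ^ (2 * n)) *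
        (C (Q.leadingCoeff * P.leadingCoeff) * X ^ (P.natDegree - Q.natDegree)), ?_⟩
      have h4 : C (Q.leadingCoeff ^ (2 * (n + 1))) * P = C (Q.leadingCoeff ^ (2 * n)) * P₁ +
          C (Q.leadingCoeff ^ (2 * n)) *
            (C (Q.leadingCoeff * P.leadingCoeff) * X ^ (P.natDegree - Q.natDegree)) * Q := by
        rw [hP₁]
        simp only [C_mul, C_pow]
        ring
      rw [h4, hB]
      ring

open Classical in
/-- a pseudo-remainder -/
noncomputable def prem (P Q : A[X]) : A[X] :=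
  if h : 0 < Q.natDegree then (exists_prem Q h P.natDegree P le_rfl).choose else 0

lemma prem_spec (P Q : A[X]) (h : 0 < Q.natDegree) : (prem P Q).natDegree < Q.natDegree ∧
    ∃ (n : ℕ) (B : A[X]), C (Q.leadingCoeff ^ (2 * n)) * P = B * Q + prem P Q := by
  rw [prem, dif_pos h]
  exact (exists_prem Q h P.natDegree P le_rfl).choose_spec

/-- the closure -/
inductive Cl (T₀ : Set A[X]) : A[X] → Prop
  | base {P : A[X]} (h : P ∈ T₀) : Cl T₀ P
  | der {P : A[X]} (h : Cl T₀ P) : Cl T₀ (derivative P)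
  | erase {P : A[X]} (h : Cl T₀ P) : Cl T₀ P.eraseLead
  | lead {P : A[X]} (h : Cl T₀ P) : Cl T₀ (C P.leadingCoeff)
  | prem {P Q : A[X]} (h : Cl T₀ P) (h' : Cl T₀ Q) (h0 : 0 < Q.natDegree)
      (h1 : Q.natDegree ≤ P.natDegree) : Cl T₀ (prem P Q)

lemma closed_cl (T₀ : Set A[X]) : Closed {P | Cl T₀ P} where
  der _ hP := Cl.der hP
  erase _ hP := Cl.erase hP
  lead _ hP := Cl.lead hP
  prem P hP Q hQ h0 h1 := ⟨prem P Q, Cl.prem hP hQ h0 h1, (prem_spec P Q h0).1,
    (prem_spec P Q h0).2⟩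

/-- the results of the operations -/
def ops (S : Set A[X]) : Set A[X] :=
  derivative '' S ∪ eraseLead '' S ∪ (fun P => C P.leadingCoeff) '' S ∪ Set.image2 prem S S

lemma finite_ops {S : Set A[X]} (hS : S.Finite) : (ops S).Finite :=
  (((hS.image _).union (hS.image _)).union (hS.image _)).union (hS.image2 _ hS)

lemma cl_step (T₀ : Set A[X]) (j : ℕ) {P : A[X]} (hP : Cl T₀ P) (hj : j ≤ P.natDegree) :
    P ∈ T₀ ∪ {0} ∪ ops {P | Cl T₀ P ∧ j + 1 ≤ P.natDegree} := by
  induction hP with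
  | base h => exact Or.inl (Or.inl h)
  | @der P h ih =>
    rcases Nat.lt_or_ge j P.natDegree with h1 | h1
    · exact Or.inr (Or.inl (Or.inl (Or.inl ⟨P, ⟨h, h1⟩, rfl⟩)))
    · have h2 := natDegree_derivative_le P
      have h3 : P.natDegree = 0 := by omega
      left; right
      rw [eq_C_of_natDegree_eq_zero h3]
      simp
  | @erase P h ih =>
    rcases Nat.lt_or_ge j P.natDegree with h1 | h1
    · exact Or.inr (Or.inl (Or.inl (Or.inr ⟨P, ⟨h, h1⟩, rfl⟩)))
    · have h2 := eraseLead_natDegree_le P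
      have h3 : P.natDegree = 0 := by omega
      left; right
      rw [eq_C_of_natDegree_eq_zero h3]
      simp
  | @lead P h ih =>
    rw [natDegree_C] at hj
    rcases Nat.lt_or_ge j P.natDegree with h1 | h1
    · exact Or.inr (Or.inl (Or.inr ⟨P, ⟨h, h1⟩, rfl⟩))
    · have h3 : P.natDegree = 0 := by omega
      have h4 : C P.leadingCoeff = P := by
        rw [eq_C_of_natDegree_eq_zero h3]
        simp
      rw [h4]
      exact ih (by omega)
  | @prem P Q h h' h0 h1 ih ih' =>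
    have h2 := (prem_spec P Q h0).1
    right; right
    exact ⟨P, ⟨h, by omega⟩, Q, ⟨h', by omega⟩, rfl⟩

lemma cl_natDegree_le {T₀ : Set A[X]} {d : ℕ} (hd : ∀ P ∈ T₀, P.natDegree ≤ d) {P : A[X]}
    (hP : Cl T₀ P) : P.natDegree ≤ d := by
  induction hP with
  | base h => exact hd _ h
  | @der P h ih =>
    have := natDegree_derivative_le P
    omega
  | @erase P h ih =>
    have := eraseLead_natDegree_le P
    omega
  | @lead P h ih => simp
  | @prem P Q h h' h0 h1 ih ih' =>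
    have := (prem_spec P Q h0).1
    omega

lemma finite_cl {T₀ : Set A[X]} (h0 : T₀.Finite) : {P | Cl T₀ P}.Finite := by
  obtain ⟨d, hd⟩ : ∃ d : ℕ, ∀ P ∈ T₀, P.natDegree ≤ d := by
    obtain ⟨d, hd⟩ := (h0.image natDegree).bddAbove
    exact ⟨d, fun P hP => hd ⟨P, hP, rfl⟩⟩
  have key : ∀ k : ℕ, {P | Cl T₀ P ∧ d + 1 - k ≤ P.natDegree}.Finite := by
    intro k
    induction k with
    | zero =>
      refine Set.Finite.subset Set.finite_empty ?_
      rintro P ⟨h1, h2⟩
      have := cl_natDegree_le hd h1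
      simp only [Set.mem_empty_iff_false]
      omega
    | succ k ih =>
      rcases Nat.lt_or_ge k (d + 1) with h | h
      · refine ((h0.union (Set.finite_singleton 0)).union (finite_ops ih)).subset ?_
        rintro P ⟨h1, h2⟩
        have h3 := cl_step T₀ (d + 1 - (k + 1)) h1 h2
        have h4 : d + 1 - (k + 1) + 1 = d + 1 - k := by omega
        rw [h4] at h3
        exact h3
      · have h4 : d + 1 - (k + 1) = d + 1 - k := by omega
        rw [h4]
        exact ih
  have := key (d + 1)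
  simpa using this

end Closure

/-! ### The elimination -/

/-- terms as polynomials -/
noncomputable def toMv : Tm → MvPolynomial ℕ ℤ
  | .var n => MvPolynomial.X n
  | .zero => 0
  | .one => 1
  | .add s t => toMv s + toMv t
  | .mul s t => toMv s * toMv t

lemma aeval_toMv {R : Type*} [CommRing R] (v : ℕ → R) (t : Tm) :
    MvPolynomial.aeval v (toMv t) = t.eval v := by
  induction t with
  | var n => simp [toMv, Tm.eval]
  | zero => simp [toMv, Tm.eval]
  | one => simp [toMv, Tm.eval]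
  | add s t hs ht => simp [toMv, Tm.eval, hs, ht]
  | mul s t hs ht => simp [toMv, Tm.eval, hs, ht]

/-- `q` as a polynomial in the variable `n` -/
noncomputable def toX (n : ℕ) : MvPolynomial ℕ ℤ →ₐ[ℤ] (MvPolynomial ℕ ℤ)[X] :=
  MvPolynomial.aeval fun j => if j = n then X else C (MvPolynomial.X j)

lemma eval_toX {R : Type*} [CommRing R] (v : ℕ → R) (n : ℕ) (a : R) (q : MvPolynomial ℕ ℤ) :
    ((toX n q).map (MvPolynomial.aeval v : MvPolynomial ℕ ℤ →ₐ[ℤ] R).toRingHom).eval a =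
      MvPolynomial.aeval (Function.update v n a) q := by
  induction q using MvPolynomial.induction_on with
  | C c => simp
  | add p q hp hq => simp only [map_add, Polynomial.map_add, eval_add, hp, hq]
  | mul_X p j hp =>
    simp only [map_mul, Polynomial.map_mul, eval_mul, hp]
    congr 1
    by_cases h : j = n
    · subst h
      simp [toX]
    · simp [toX, h]

/-- The signs of the polynomials in `S` determine the signs of those in `S'` for a suitable value of
the `n`-th variable. -/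
lemma elim (n : ℕ) (S : Finset (MvPolynomial ℕ ℤ)) : ∃ S' : Finset (MvPolynomial ℕ ℤ),
    ∀ (R₁ : Type u) (R₂ : Type v) [Field R₁] [LinearOrder R₁] [IsStrictOrderedRing R₁]
      [Field R₂] [LinearOrder R₂] [IsStrictOrderedRing R₂] (_ : IVT R₁) (_ : Rolle R₁)
      (_ : IVT R₂) (_ : Rolle R₂) (v₁ : ℕ → R₁) (v₂ : ℕ → R₂),
      (∀ q ∈ S', SignType.sign (MvPolynomial.aeval v₁ q) =
        SignType.sign (MvPolynomial.aeval v₂ q)) →
      ∀ a : R₁, ∃ b : R₂, ∀ q ∈ S,
        SignType.sign (MvPolynomial.aeval (Function.update v₁ n a) q) =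
        SignType.sign (MvPolynomial.aeval (Function.update v₂ n b) q) := by
  classical
  set T₀ : Set (MvPolynomial ℕ ℤ)[X] := toX n '' (S : Set (MvPolynomial ℕ ℤ)) with hT₀
  have hfin : {P | Cl T₀ P}.Finite := finite_cl (S.finite_toSet.image _)
  refine ⟨hfin.toFinset.image (fun P => P.coeff 0), ?_⟩
  intro R₁ R₂ _ _ _ _ _ _ hI₁ hR₁ hI₂ hR₂ v₁ v₂ h a
  have hagr : Agr {P | Cl T₀ P} (MvPolynomial.aeval v₁ : MvPolynomial ℕ ℤ →ₐ[ℤ] R₁).toRingHom
      (MvPolynomial.aeval v₂ : MvPolynomial ℕ ℤ →ₐ[ℤ] R₂).toRingHom := by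
    intro c hc
    refine h c ?_
    rw [Finset.mem_image]
    exact ⟨C c, by simpa using hc, by simp⟩
  obtain ⟨b, hb⟩ := transfer hI₁ hR₁ hI₂ hR₂ (closed_cl T₀) hfin hagr a
  refine ⟨b, fun q hq => ?_⟩
  have := hb (toX n q) (Cl.base ⟨q, hq, rfl⟩)
  rw [eval_toX, eval_toX] at this
  exact this

/-- Quantifier elimination -/
theorem qe_aux (φ : Fm) : ∃ S : Finset (MvPolynomial ℕ ℤ),
    ∀ (R₁ : Type u) (R₂ : Type v) [Field R₁] [LinearOrder R₁] [IsStrictOrderedRing R₁]
      [Field R₂] [LinearOrder R₂] [IsStrictOrderedRing R₂] (_ : IVT R₁) (_ : Rolle R₁)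
      (_ : IVT R₂) (_ : Rolle R₂) (v₁ : ℕ → R₁) (v₂ : ℕ → R₂),
      (∀ q ∈ S, SignType.sign (MvPolynomial.aeval v₁ q) =
        SignType.sign (MvPolynomial.aeval v₂ q)) → (φ.holds v₁ ↔ φ.holds v₂) := by
  classical
  induction φ with
  | eq s t =>
    refine ⟨{toMv s - toMv t}, ?_⟩
    intro R₁ R₂ _ _ _ _ _ _ _ _ _ _ v₁ v₂ h
    have := h _ (Finset.mem_singleton_self _)
    simp only [map_sub, aeval_toMv] at this
    simp only [Fm.holds]
    rw [← sub_eq_zero, ← sub_eq_zero (a := s.eval v₂), ← sign_eq_zero_iff, this,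
      sign_eq_zero_iff]
  | lt s t =>
    refine ⟨{toMv s - toMv t}, ?_⟩
    intro R₁ R₂ _ _ _ _ _ _ _ _ _ _ v₁ v₂ h
    have := h _ (Finset.mem_singleton_self _)
    simp only [map_sub, aeval_toMv] at this
    simp only [Fm.holds]
    rw [← sub_neg, ← sub_neg (a := s.eval v₂), ← sign_eq_neg_one_iff, this,
      sign_eq_neg_one_iff]
  | neg φ ih =>
    obtain ⟨S, hS⟩ := ih
    refine ⟨S, ?_⟩
    intro R₁ R₂ _ _ _ _ _ _ h1 h2 h3 h4 v₁ v₂ h
    simp only [Fm.holds, hS R₁ R₂ h1 h2 h3 h4 v₁ v₂ h]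
  | and φ ψ ih1 ih2 =>
    obtain ⟨S, hS⟩ := ih1
    obtain ⟨S', hS'⟩ := ih2
    refine ⟨S ∪ S', ?_⟩
    intro R₁ R₂ _ _ _ _ _ _ h1 h2 h3 h4 v₁ v₂ h
    simp only [Fm.holds,
      hS R₁ R₂ h1 h2 h3 h4 v₁ v₂ (fun q hq => h q (Finset.mem_union_left _ hq)),
      hS' R₁ R₂ h1 h2 h3 h4 v₁ v₂ (fun q hq => h q (Finset.mem_union_right _ hq))]
  | ex n φ ih =>
    obtain ⟨S, hS⟩ := ih
    obtain ⟨S', hS'⟩ := elim.{u, v} n S
    obtain ⟨S'', hS''⟩ := elim.{v, u} n S
    refine ⟨S' ∪ S'', ?_⟩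
    intro R₁ R₂ _ _ _ _ _ _ h1 h2 h3 h4 v₁ v₂ h
    simp only [Fm.holds]
    constructor
    · rintro ⟨a, ha⟩
      obtain ⟨b, hb⟩ := hS' R₁ R₂ h1 h2 h3 h4 v₁ v₂
        (fun q hq => h q (Finset.mem_union_left _ hq)) a
      exact ⟨b, (hS R₁ R₂ h1 h2 h3 h4 _ _ hb).1 ha⟩
    · rintro ⟨b, hb⟩
      obtain ⟨a, ha⟩ := hS'' R₂ R₁ h3 h4 h1 h2 v₂ v₁
        (fun q hq => (h q (Finset.mem_union_right _ hq)).symm) b
      exact ⟨a, (hS R₁ R₂ h1 h2 h3 h4 _ _ (fun q hq => (ha q hq).symm)).2 hb⟩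

end Pool.Agent.RSV.QE

namespace Pool.Agent.RSV

universe u v

/-- QE from the intermediate value theorem and Rolle's theorem -/
theorem QE_of (hI : Stmt_IVT.{u}) (hR : Stmt_Rolle.{u}) (hI' : Stmt_IVT.{v})
    (hR' : Stmt_Rolle.{v}) : Stmt_QE.{u, v} := by
  intro φ
  obtain ⟨S, hS⟩ := QE.qe_aux.{u, v} φ
  refine ⟨S, ?_⟩
  intro R₁ R₂ _ _ _ _ _ _ _ _ v₁ v₂ h
  exact hS R₁ R₂ (hI R₁) (hR R₁) (hI' R₂) (hR' R₂) v₁ v₂ h

end Pool.Agent.RSV
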