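import Pool.Agent.RSV.Bound

/-!
# SCALE: the magnitudes of the elements algebraic over a finitely generated field
-/

namespace Pool.Agent.RSV

open Polynomial

universe u v

namespace ScaleAux

open BoundAux

section Val

variable {R : Type v} [Field R] [LinearOrder R] [IsStrictOrderedRing R]

/-- the finite elements -/
noncomputable abbrev O2 (R : Type v) [Field R] [LinearOrder R] [IsStrictOrderedRing R] :
    ValuationSubring R := cvx (2 : R) le_rfl

/-- the archimedean valuation -/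
noncomputable abbrev val (x : R) : (O2 R).ValueGroup := (O2 R).valuation x

lemma val_le_one_iff {x : R} : val x ≤ 1 ↔ x ∈ O2 R := (O2 R).valuation_le_one_iff x

lemma val_ne_zero {x : R} (hx : x ≠ 0) : val x ≠ 0 := (_root_.map_ne_zero _).2 hx

lemma val_mul (x y : R) : val (x * y) = val x * val y := map_mul _ x y
lemma val_inv (x : R) : val x⁻¹ = (val x)⁻¹ := map_inv₀ _ x
lemma val_pow (x : R) (n : ℕ) : val (x ^ n) = val x ^ n := map_pow _ x n

lemma val_eq_iff {x y : R} (hx : x ≠ 0) (hy : y ≠ 0) :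
    val x = val y ↔ ∃ n : ℕ, |x| ≤ n * |y| ∧ |y| ≤ n * |x| := by
  have hx' : 0 < |x| := abs_pos.2 hx
  have hy' : 0 < |y| := abs_pos.2 hy
  constructor
  · intro h
    have h1 : x * y⁻¹ ∈ O2 R := by
      rw [← val_le_one_iff, val_mul, val_inv, h, mul_inv_cancel₀ (val_ne_zero hy)]
    have h2 : y * x⁻¹ ∈ O2 R := by
      rw [← val_le_one_iff, val_mul, val_inv, h, mul_inv_cancel₀ (val_ne_zero hy)]
    obtain ⟨n, hn⟩ := mem_cvx.1 h1
    obtain ⟨m, hm⟩ := mem_cvx.1 h2
    rw [abs_mul, abs_inv, ← div_eq_mul_inv, div_le_iff₀ hy'] at hn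
    rw [abs_mul, abs_inv, ← div_eq_mul_inv, div_le_iff₀ hx'] at hm
    refine ⟨2 ^ (n + m), ?_, ?_⟩
    · push_cast
      refine hn.trans (mul_le_mul_of_nonneg_right ?_ hy'.le)
      exact pow_le_pow_right₀ (by norm_num) (by omega)
    · push_cast
      refine hm.trans (mul_le_mul_of_nonneg_right ?_ hx'.le)
      exact pow_le_pow_right₀ (by norm_num) (by omega)
  · rintro ⟨n, h1, h2⟩
    apply le_antisymm
    · have h3 : x * y⁻¹ ∈ O2 R := by
        refine cvx_convex (natCast_mem_cvx n) ?_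
        rw [abs_mul, abs_inv, ← div_eq_mul_inv, div_le_iff₀ hy', Nat.abs_cast]
        exact h1
      rw [← val_le_one_iff, val_mul, val_inv, ← div_eq_mul_inv,
        div_le_one₀ (zero_lt_iff.2 (val_ne_zero hy))] at h3
      exact h3
    · have h3 : y * x⁻¹ ∈ O2 R := by
        refine cvx_convex (natCast_mem_cvx n) ?_
        rw [abs_mul, abs_inv, ← div_eq_mul_inv, div_le_iff₀ hx', Nat.abs_cast]
        exact h2
      rw [← val_le_one_iff, val_mul, val_inv, ← div_eq_mul_inv,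
        div_le_one₀ (zero_lt_iff.2 (val_ne_zero hx))] at h3
      exact h3

lemma dichotomy {ι : Type*} [DecidableEq ι] (s : Finset ι) (t : ι → R) (h : ∃ i ∈ s, t i ≠ 0) :
    (∃ i ∈ s, ∃ j ∈ s, i ≠ j ∧ t i ≠ 0 ∧ t j ≠ 0 ∧ val (t i) = val (t j)) ∨
      ∃ i ∈ s, t i ≠ 0 ∧ val (∑ i ∈ s, t i) = val (t i) := by
  by_cases h1 : ∃ i ∈ s, ∃ j ∈ s, i ≠ j ∧ t i ≠ 0 ∧ t j ≠ 0 ∧ val (t i) = val (t j)
  · exact Or.inl h1
  right
  obtain ⟨i₀, hi₀, hi₀'⟩ := h
  obtain ⟨i, hi, hmax⟩ := Finset.exists_max_image s (fun i => val (t i)) ⟨i₀, hi₀⟩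
  have hti : t i ≠ 0 := by
    intro h0
    have h2 := hmax i₀ hi₀
    simp only [h0] at h2
    have h3 : val (0 : R) = 0 := map_zero _
    rw [h3] at h2
    exact val_ne_zero hi₀' (le_zero_iff.1 h2)
  refine ⟨i, hi, hti, ?_⟩
  rw [← Finset.add_sum_erase s t hi, add_comm]
  refine Valuation.map_add_eq_of_lt_right (O2 R).valuation ?_
  refine Valuation.map_sum_lt (O2 R).valuation (val_ne_zero hti) fun j hj => ?_
  rw [Finset.mem_erase] at hj
  refine lt_of_le_of_ne (hmax j hj.2) fun heq => ?_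
  have htj : t j ≠ 0 := by
    intro h0
    have h3 : val (0 : R) = 0 := map_zero _
    rw [h0] at heq
    exact val_ne_zero hti (heq.symm.trans h3)
  exact h1 ⟨i, hi, j, hj.2, fun h => hj.1 h.symm, hti, htj, heq.symm⟩

/-- comparison of two monomials -/
lemma val_pow_eq {M : Subfield R} {z : R} (hz : z ≠ 0) {c c' : R} (hc : c ∈ M) (hc' : c' ∈ M)
    {i j : ℕ} (hij : i ≠ j) (hi : c * z ^ i ≠ 0) (hj : c' * z ^ j ≠ 0)
    (h : val (c * z ^ i) = val (c' * z ^ j)) :
    ∃ n : ℕ, 1 ≤ n ∧ ∃ m ∈ M, m ≠ 0 ∧ val z ^ n = val m := by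
  have hc0 : c ≠ 0 := left_ne_zero_of_mul hi
  have hc0' : c' ≠ 0 := left_ne_zero_of_mul hj
  rw [val_mul, val_mul, val_pow, val_pow] at h
  rcases Nat.lt_or_gt_of_ne hij with h1 | h1
  · refine ⟨j - i, by omega, c * c'⁻¹, mul_mem hc (inv_mem hc'), mul_ne_zero hc0 (inv_ne_zero hc0'), ?_⟩
    rw [val_mul, val_inv]
    have h2 : val z ^ j = val z ^ (j - i) * val z ^ i := by rw [← pow_add]; congr 1; omega
    rw [h2, ← mul_assoc] at h
    have h3 := mul_right_cancel₀ (pow_ne_zero i (val_ne_zero hz)) h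
    rw [h3, mul_comm (val c'), mul_assoc, mul_inv_cancel₀ (val_ne_zero hc0'), mul_one]
  · refine ⟨i - j, by omega, c' * c⁻¹, mul_mem hc' (inv_mem hc), mul_ne_zero hc0' (inv_ne_zero hc0), ?_⟩
    rw [val_mul, val_inv]
    have h2 : val z ^ i = val z ^ (i - j) * val z ^ j := by rw [← pow_add]; congr 1; omega
    rw [h2, ← mul_assoc] at h
    have h3 := mul_right_cancel₀ (pow_ne_zero j (val_ne_zero hz)) h
    rw [← h3, mul_comm (val c), mul_assoc, mul_inv_cancel₀ (val_ne_zero hc0), mul_one]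

lemma algval {M : Subfield R} {z : R} (hz : z ≠ 0) (h : IsAlgebraic M z) :
    ∃ n : ℕ, 1 ≤ n ∧ ∃ m ∈ M, m ≠ 0 ∧ val z ^ n = val m := by
  obtain ⟨p, hp, hpz⟩ := h
  rw [aeval_eq_sum_range] at hpz
  simp only [Algebra.smul_def] at hpz
  have hex : ∃ i ∈ Finset.range (p.natDegree + 1), algebraMap M R (p.coeff i) * z ^ i ≠ 0 := by
    refine ⟨p.natDegree, Finset.mem_range.2 (by omega), mul_ne_zero ?_ (pow_ne_zero _ hz)⟩
    rw [Ne, map_eq_zero]
    exact leadingCoeff_ne_zero.2 hp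
  rcases dichotomy _ _ hex with ⟨i, _, j, _, hij, hti, htj, hv⟩ | ⟨i, _, hti, hv⟩
  · exact val_pow_eq hz (p.coeff i).2 (p.coeff j).2 hij hti htj hv
  · rw [hpz] at hv
    exact absurd (hv.symm.trans (map_zero _)) (val_ne_zero hti)

lemma transval {F : Subfield R} {z : R} (hz : z ≠ 0)
    (h : ∀ n : ℕ, 1 ≤ n → ∀ c ∈ F, c ≠ 0 → val z ^ n ≠ val c) (P : F[X]) (hP : P ≠ 0) :
    ∃ c ∈ F, c ≠ 0 ∧ ∃ k : ℕ, val (aeval z P) = val c * val z ^ k := by
  rw [aeval_eq_sum_range]
  simp only [Algebra.smul_def]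
  have hex : ∃ i ∈ Finset.range (P.natDegree + 1), algebraMap F R (P.coeff i) * z ^ i ≠ 0 := by
    refine ⟨P.natDegree, Finset.mem_range.2 (by omega), mul_ne_zero ?_ (pow_ne_zero _ hz)⟩
    rw [Ne, map_eq_zero]
    exact leadingCoeff_ne_zero.2 hP
  rcases dichotomy _ _ hex with ⟨i, _, j, _, hij, hti, htj, hv⟩ | ⟨i, _, hti, hv⟩
  · obtain ⟨n, hn, m, hm, hm0, hv'⟩ := val_pow_eq hz (P.coeff i).2 (P.coeff j).2 hij hti htj hv
    exact absurd hv' (h n hn m hm hm0)
  · refine ⟨_, (P.coeff i).2, left_ne_zero_of_mul hti, i, ?_⟩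
    rw [hv, val_mul, val_pow]
    rfl

end Val

section Hull

variable {G : Type*} [CommGroupWithZero G]

/-- monomials -/
def mon {l : ℕ} (x : Fin l → G) (p : Fin l → ℕ) : G := ∏ j, x j ^ p j

lemma mon_add {l : ℕ} (x : Fin l → G) (p p' : Fin l → ℕ) :
    mon x (p + p') = mon x p * mon x p' := by
  simp [mon, pow_add, Finset.prod_mul_distrib]

lemma mon_smul {l : ℕ} (x : Fin l → G) (n : ℕ) (p : Fin l → ℕ) :
    mon x (n • p) = mon x p ^ n := by
  simp [mon, pow_mul', Finset.prod_pow]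

/-- the division hull of a tuple -/
def hull {l : ℕ} (x : Fin l → G) : Set G :=
  {γ | ∃ q : ℕ, 1 ≤ q ∧ ∃ p p' : Fin l → ℕ, γ ^ q * mon x p' = mon x p}

lemma hull_mul {l : ℕ} {x : Fin l → G} {γ δ : G} (hγ : γ ∈ hull x) (hδ : δ ∈ hull x) :
    γ * δ ∈ hull x := by
  obtain ⟨q, hq, p, p', h⟩ := hγ
  obtain ⟨r, hr, s, s', h'⟩ := hδ
  refine ⟨q * r, Nat.mul_pos hq hr, r • p + q • s, r • p' + q • s', ?_⟩
  rw [mon_add, mon_add, mon_smul, mon_smul, mon_smul, mon_smul, ← h, ← h']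
  rw [mul_pow, mul_pow, mul_pow, ← pow_mul, ← pow_mul, mul_comm r q]
  exact mul_mul_mul_comm _ _ _ _

lemma hull_inv {l : ℕ} {x : Fin l → G} {γ : G} (h0 : γ ≠ 0) (hγ : γ ∈ hull x) :
    γ⁻¹ ∈ hull x := by
  obtain ⟨q, hq, p, p', h⟩ := hγ
  refine ⟨q, hq, p', p, ?_⟩
  rw [← h, ← mul_assoc, ← mul_pow, inv_mul_cancel₀ h0, one_pow, one_mul]

lemma hull_of_pow {l : ℕ} {x : Fin l → G} {γ : G} {n : ℕ} (hn : 1 ≤ n) (hγ : γ ^ n ∈ hull x) :
    γ ∈ hull x := by
  obtain ⟨q, hq, p, p', h⟩ := hγ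
  exact ⟨n * q, Nat.mul_pos hn hq, p, p', by rw [pow_mul]; exact h⟩

lemma hull_pow {l : ℕ} {x : Fin l → G} {γ : G} (n : ℕ) (hγ : γ ∈ hull x) :
    γ ^ n ∈ hull x := by
  obtain ⟨q, hq, p, p', h⟩ := hγ
  refine ⟨q, hq, n • p, n • p', ?_⟩
  rw [mon_smul, mon_smul, ← h, mul_pow, ← pow_mul, ← pow_mul, mul_comm n q]

lemma hull_cons {l : ℕ} {x : Fin l → G} {γ δ : G} (hγ : γ ∈ hull x) :
    γ ∈ hull (Fin.cons δ x : Fin (l + 1) → G) := by
  obtain ⟨q, hq, p, p', h⟩ := hγ
  refine ⟨q, hq, Fin.cons 0 p, Fin.cons 0 p', ?_⟩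
  simp only [mon, Fin.prod_univ_succ, Fin.cons_zero, Fin.cons_succ, pow_zero, one_mul]
  exact h

lemma hull_head {l : ℕ} {x : Fin l → G} {δ : G} : δ ∈ hull (Fin.cons δ x : Fin (l + 1) → G) := by
  refine ⟨1, le_rfl, Fin.cons 1 0, 0, ?_⟩
  simp [mon, Fin.prod_univ_succ]

end Hull

section Main

open BIP

variable {U : Type u} {R : Type v} [CommSemiring U] [LinearOrder U] [IsStrictOrderedRing U]
  [CanonicallyOrderedAdd U] [Field R] [LinearOrder R] [IsStrictOrderedRing R]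

lemma e_ne (B : BIP U R) (y : U) : B.e y ≠ 0 := (B.e_pos y).ne'

lemma exists_nat_of_lt (B : BIP U R) (q : ℕ) (x : U) (h : x < q) : ∃ m : ℕ, x = m := by
  induction q with
  | zero => rw [Nat.cast_zero] at h; exact absurd h not_lt_zero
  | succ q ih =>
    rw [Nat.cast_succ] at h
    rcases (B.le_of_lt_succ _ _ h).lt_or_eq with h1 | h1
    · exact ih h1
    · exact ⟨q, h1⟩

/-- division by standard numbers -/
lemma exists_div_nat (B : BIP U R) (a : U) (q : ℕ) (hq : 0 < q) :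
    ∃ t r : U, a = q * t + r ∧ r < q := by
  have hqU : (0 : U) < q := by exact_mod_cast hq
  have hD : B.D1 (fun x : U => ∃ t, t ≤ x ∧ (q * t ≤ x ∧ x < q * t + q)) := by
    have h1 : B.D (fun v => (q : U) * v 0 ≤ v 1 ∧ v 1 < (q : U) * v 0 + q) :=
      D.and (D.le (F.mul (F.const _) (F.var 0)) (F.var 1))
        (D.lt (F.var 1) (F.add (F.mul (F.const _) (F.var 0)) (F.const _)))
    exact D.ex_le (P := fun t v => (q : U) * t ≤ v 0 ∧ v 0 < (q : U) * t + q) (F.var 0) h1
  have h := B.ind hD ⟨0, le_rfl, by simp, by simpa using hqU⟩ ?_ a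
  · obtain ⟨t, _, h1, h2⟩ := h
    obtain ⟨r, hr⟩ := exists_add_of_le h1
    refine ⟨t, r, hr, ?_⟩
    rw [hr] at h2
    exact lt_of_add_lt_add_left h2
  · rintro x ⟨t, ht, h1, h2⟩
    rcases lt_or_ge (x + 1) (q * t + q) with h3 | h3
    · exact ⟨t, ht.trans (le_self_add), h1.trans le_self_add, h3⟩
    · refine ⟨t + 1, add_le_add_left ht 1, ?_, ?_⟩
      · rw [mul_add, mul_one]; exact h3
      · rw [mul_add, mul_one]
        exact add_lt_add_of_lt_of_le h2 (by exact_mod_cast hq)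

/-- every value is the value of a power of two or of its inverse -/
lemma exists_e (B : BIP U R) {x : R} (hx : 1 ≤ |x|) : ∃ y : U, val x = val (B.e y) := by
  obtain ⟨z, hz, hz1, hz2⟩ := B.exists_floor |x|
  have hz0 : 0 < z := by
    by_contra h
    push Not at h
    have : z + 1 ≤ 1 := by linarith
    linarith
  obtain ⟨u, hu1, hu2⟩ := B.exists_len z hz hz0
  refine ⟨u, ?_⟩
  have hx0 : x ≠ 0 := by rintro rfl; rw [abs_zero] at hx; linarith
  rw [val_eq_iff hx0 (e_ne B u)]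
  have h1 := B.discrete z hz hz0
  rw [B.e_succ] at hu2
  have h3 := B.e_pos u
  refine ⟨4, ?_, ?_⟩
  · rw [abs_of_pos h3]; push_cast; linarith
  · rw [abs_of_pos h3]; push_cast; linarith

/-- the induction -/
lemma scale_aux (B : BIP U R) (s : Set R) (hs : s.Finite) :
    ∃ (l : ℕ) (y : Fin l → U), ∀ z : R, z ≠ 0 → IsAlgebraic (Subfield.closure s) z →
      val z ∈ hull (fun j => val (B.e (y j))) := by
  induction s, hs using Set.Finite.induction_on with
  | empty =>
    refine ⟨0, Fin.elim0, fun z hz0 hz => ?_⟩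
    have hL : ∀ x ∈ Subfield.closure (∅ : Set R), x ∈ cvx (2 : R) le_rfl := by
      intro y hy
      rw [Subfield.closure_empty] at hy
      obtain ⟨q, rfl⟩ : ∃ q : ℚ, (q : R) = y := by
        have h2 : (⊥ : Subfield R) ≤ (Rat.castHom R).fieldRange := bot_le
        obtain ⟨q, hq⟩ := h2 hy
        exact ⟨q, hq⟩
      refine cvx_convex (natCast_mem_cvx q.num.natAbs) ?_
      rw [Nat.abs_cast]
      have h3 : |(q : R)| = ((|q| : ℚ) : R) := by rw [Rat.cast_abs]
      rw [h3]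
      have h4 : |q| ≤ q.num.natAbs := by
        rw [Rat.abs_def, Rat.divInt_eq_div]
        have h5 : (1 : ℚ) ≤ (q.den : ℤ) := by exact_mod_cast q.pos
        rw [div_le_iff₀ (by linarith)]
        have h6 : (0 : ℚ) ≤ (q.num.natAbs : ℚ) := by positivity
        rw [Int.cast_natCast]
        exact le_mul_of_one_le_right h6 h5
      exact_mod_cast h4
    have h1 : val z ≤ 1 := val_le_one_iff.2 (alg_mem_cvx hL hz)
    have h2 : val z⁻¹ ≤ 1 := val_le_one_iff.2 (alg_mem_cvx hL hz.inv)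
    have h3 : val z = 1 := by
      apply le_antisymm h1
      rw [val_inv] at h2
      exact (inv_le_one₀ (zero_lt_iff.2 (val_ne_zero hz0))).1 h2
    refine ⟨1, le_rfl, 0, 0, ?_⟩
    rw [h3]
    simp [mon]
  | @insert a s _ _ ih =>
    obtain ⟨l, y, hy⟩ := ih
    set F := ac (Subfield.closure s) with hFdef
    have hyF : ∀ z ∈ F, z ≠ 0 → val z ∈ hull (fun j => val (B.e (y j))) :=
      fun z hz hz0 => hy z hz0 (mem_ac.1 hz)
    let L : Subfield R := (IntermediateField.adjoin F {a}).toSubfield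
    have hFL : ∀ z ∈ F, z ∈ L := fun z hz =>
      (IntermediateField.adjoin F {a}).algebraMap_mem (⟨z, hz⟩ : F)
    have hle : Subfield.closure (insert a s) ≤ L := by
      rw [Subfield.closure_le]
      rintro y (rfl | hy)
      · exact IntermediateField.mem_adjoin_simple_self F y
      · exact hFL y (le_ac _ (Subfield.subset_closure hy))
    by_cases hcase : ∀ z : R, z ≠ 0 → IsAlgebraic L z → val z ∈ hull (fun j => val (B.e (y j)))
    · exact ⟨l, y, fun z hz0 hz => hcase z hz0 (alg_mono hle hz)⟩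
    push Not at hcase
    obtain ⟨z₀, hz₀0, hz₀, hz₀h⟩ := hcase
    -- we may assume `1 ≤ |z₀|`
    obtain ⟨z₁, hz₁0, hz₁, hz₁h, hz₁1⟩ : ∃ z₁ : R, z₁ ≠ 0 ∧ IsAlgebraic L z₁ ∧
        val z₁ ∉ hull (fun j => val (B.e (y j))) ∧ 1 ≤ |z₁| := by
      rcases le_total 1 |z₀| with h | h
      · exact ⟨z₀, hz₀0, hz₀, hz₀h, h⟩
      · refine ⟨z₀⁻¹, inv_ne_zero hz₀0, hz₀.inv, fun h1 => hz₀h ?_, ?_⟩
        · have h2 := hull_inv (val_ne_zero (inv_ne_zero hz₀0)) h1
          rwa [val_inv, inv_inv] at h2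
        · rw [abs_inv]
          exact (one_le_inv₀ (abs_pos.2 hz₀0)).2 h
    obtain ⟨y₁, hy₁⟩ := exists_e B hz₁1
    refine ⟨l + 1, Fin.cons y₁ y, fun z hz0 hz => ?_⟩
    have hcons : (fun j : Fin (l + 1) => val (B.e ((Fin.cons y₁ y : Fin (l + 1) → U) j)))
        = Fin.cons (val z₁) (fun j => val (B.e (y j))) := by
      funext j
      refine Fin.cases ?_ (fun i => ?_) j
      · simp [hy₁]
      · simp
    rw [hcons]
    set H := hull (Fin.cons (val z₁) (fun j => val (B.e (y j))) : Fin (l + 1) → _) with hH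
    have htr : ∀ n : ℕ, 1 ≤ n → ∀ c ∈ F, c ≠ 0 → val z₁ ^ n ≠ val c := by
      intro n hn c hc hc0 h
      exact hz₁h (hull_of_pow hn (h ▸ hyF c hc hc0))
    -- `z₁` and `a` are transcendental over `F`
    have hz₁t : Transcendental F z₁ := by
      intro h
      exact hz₁h (hyF z₁ (mem_ac_of_alg h) hz₁0)
    have hat : Transcendental F a := by
      intro h
      have haF : a ∈ F := mem_ac_of_alg h
      have hLF : L ≤ F := by
        intro x hx
        have h1 : IntermediateField.adjoin F {a} = ⊥ := by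
          rw [IntermediateField.adjoin_simple_eq_bot_iff, IntermediateField.mem_bot]
          exact ⟨⟨a, haF⟩, rfl⟩
        have h2 : x ∈ IntermediateField.adjoin F {a} := hx
        rw [h1, IntermediateField.mem_bot] at h2
        obtain ⟨x', rfl⟩ := h2
        exact x'.2
      exact hz₁t (alg_mono hLF hz₁)
    -- exchange
    let M : Subfield R := (IntermediateField.adjoin F {z₁}).toSubfield
    have hFM : ∀ z ∈ F, z ∈ M := fun z hz =>
      (IntermediateField.adjoin F {z₁}).algebraMap_mem (⟨z, hz⟩ : F)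
    have haM : IsAlgebraic M a := by
      have h1 : IsAlgebraic (IntermediateField.adjoin F {a}) z₁ := hz₁
      have h2 : IsAlgebraic (IntermediateField.adjoin F {z₁}) a :=
        IntermediateField.isAlgebraic_adjoin_iff.mpr
          (IsAlgebraic.adjoin_singleton hat hz₁t (IntermediateField.isAlgebraic_adjoin_iff.mp h1))
      exact h2
    have hLM : L ≤ ac M := by
      intro x hx
      obtain ⟨r, q, rfl⟩ := (IntermediateField.mem_adjoin_simple_iff F x).1 hx
      have hev : ∀ P : F[X], aeval a P ∈ ac M := by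
        intro P
        rw [aeval_eq_sum_range]
        refine sum_mem fun i _ => ?_
        rw [Algebra.smul_def]
        exact mul_mem (le_ac M (hFM _ (P.coeff i).2)) (pow_mem (mem_ac.2 haM) i)
      rw [div_eq_mul_inv]
      exact mul_mem (hev r) (inv_mem (hev q))
    have hzM : IsAlgebraic M z :=
      mem_ac.1 (mem_ac_of_alg (alg_mono (hle.trans hLM) hz))
    obtain ⟨n, hn, m, hm, hm0, hnm⟩ := algval hz0 hzM
    refine hull_of_pow hn ?_
    rw [hnm]
    obtain ⟨r, q, rfl⟩ := (IntermediateField.mem_adjoin_simple_iff F m).1 hm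
    have hval : ∀ P : F[X], P ≠ 0 → val (aeval z₁ P) ∈ H := by
      intro P hP
      obtain ⟨c, hc, hc0, k, hk⟩ := transval hz₁0 htr P hP
      rw [hk]
      exact hull_mul (hull_cons (hyF c hc hc0)) (hull_pow k hull_head)
    have hr : r ≠ 0 := by rintro rfl; apply hm0; simp
    have hq : q ≠ 0 := by rintro rfl; apply hm0; simp
    rw [div_eq_mul_inv, val_mul, val_inv]
    refine hull_mul (hval r hr) (hull_inv ?_ (hval q hq))
    refine val_ne_zero fun h => hm0 ?_
    rw [h, div_zero]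

end Main

end ScaleAux

open ScaleAux in
/-- module SCALE -/
theorem Scale : Stmt_Scale.{u, v} := by
  intro U R _ _ _ _ _ _ _ _ B s hs
  obtain ⟨l, y, hy⟩ := scale_aux B s hs
  refine ⟨l, y, fun x hx0 hx => ?_⟩
  obtain ⟨q, hq, p, p', h⟩ := hy x hx0 hx
  obtain ⟨t, r, ht, hr⟩ := exists_div_nat B (∑ j, (p j : U) * y j) q hq
  obtain ⟨t', r', ht', hr'⟩ := exists_div_nat B (∑ j, (p' j : U) * y j) q hq
  -- values of powers of two
  have hE : ∀ w : Fin l → ℕ, mon (fun j => val (B.e (y j))) w = val (B.e (∑ j, (w j : U) * y j)) := by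
    intro w
    have h1 : B.e (∑ j, (w j : U) * y j) = ∏ j, B.e (y j) ^ w j := by
      have h2 : ∀ s : Finset (Fin l), B.e (∑ j ∈ s, (w j : U) * y j) = ∏ j ∈ s, B.e (y j) ^ w j := by
        intro s
        induction s using Finset.induction_on with
        | empty => simp [B.e_zero]
        | insert a s ha ih => rw [Finset.sum_insert ha, Finset.prod_insert ha, B.e_add, ih,
            B.e_natCast_mul]
      exact h2 Finset.univ
    rw [h1]
    simp only [mon]
    rw [show val (∏ j, B.e (y j) ^ w j) = ∏ j, val (B.e (y j) ^ w j) from map_prod _ _ _]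
    simp only [val_pow]
  have hfin : ∀ T t r : U, T = q * t + r → r < q → val (B.e T) = val (B.e t) ^ q := by
    intro T t r hT hr
    obtain ⟨m, rfl⟩ := exists_nat_of_lt B q r hr
    rw [hT, B.e_add, B.e_natCast_mul, val_mul, val_pow, B.e_natCast]
    have h1 : val ((2 : R) ^ m) = 1 := by
      have h2 : (1 : (O2 R).ValueGroup) = val (1 : R) := (map_one _).symm
      rw [h2, val_eq_iff (by positivity) one_ne_zero]
      refine ⟨2 ^ m, ?_, ?_⟩
      · rw [abs_of_pos (by positivity)]; push_cast; simp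
      · rw [abs_of_pos (by positivity : (0 : R) < 2 ^ m)]
        push_cast
        rw [abs_one]
        have h3 : (1 : R) ≤ 2 ^ m := one_le_pow₀ (by norm_num)
        nlinarith
    rw [h1, mul_one]
  rw [hE, hE, hfin _ t r ht hr, hfin _ t' r' ht' hr', ← mul_pow, ← val_mul] at h
  have h' : val (x * B.e t') = val (B.e t) := by
    exact (pow_left_inj₀ zero_le zero_le (by omega)).1 h
  rw [val_eq_iff (mul_ne_zero hx0 (e_ne B t')) (e_ne B t)] at h'
  obtain ⟨C, hC1, hC2⟩ := h'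
  rw [abs_mul, abs_of_pos (B.e_pos t), abs_of_pos (B.e_pos t')] at hC1 hC2
  refine ⟨p, p', q, C, t, t', hq, ?_, ?_, ?_, ?_, hC1, hC2⟩
  · rw [ht]; exact le_self_add
  · rw [ht, mul_add, mul_one]; exact add_lt_add_right hr _
  · rw [ht']; exact le_self_add
  · rw [ht', mul_add, mul_one]; exact add_lt_add_right hr' _

end Pool.Agent.RSV
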