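import Pool.Agent.RSV.Dlib
import Pool.Agent.RSV.Specs

/-!
# SCOTT: computable functions have internal extensions; the coded sets form a Scott set

Port of `Pool.Agent.LibPA.{Trace,Repr}` (helper80) to bounded definable relations.
-/

namespace Pool.Agent.RSV

universe u v

variable {U : Type u} {R : Type v} [CommSemiring U] [LinearOrder U] [IsStrictOrderedRing U]
  [CanonicallyOrderedAdd U] [Field R] [LinearOrder R] [IsStrictOrderedRing R]

namespace BIP

section Trace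

variable (B : BIP U R)

/-- `P` is the trace on the standard numbers of a definable relation. -/
def Tr (P : (ℕ → ℕ) → Prop) : Prop :=
  ∃ Q : (ℕ → U) → Prop, B.D Q ∧ ∀ v : ℕ → ℕ, P v ↔ Q (fun i => (v i : U))

/-- `f` is the trace of a definable function. -/
def TrF (f : (ℕ → ℕ) → ℕ) : Prop :=
  ∃ g : (ℕ → U) → U, B.F g ∧ ∀ v : ℕ → ℕ, ((f v : ℕ) : U) = g (fun i => (v i : U))

variable {B}

omit [IsStrictOrderedRing U] [CanonicallyOrderedAdd U] [LinearOrder U] in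
lemma cast_cns (x : ℕ) (v : ℕ → ℕ) :
    (fun i => ((cns x v i : ℕ) : U)) = cns (x : U) (fun i => (v i : U)) := by
  funext i
  cases i <;> rfl

lemma cns_eta {α : Type*} (v : ℕ → α) : cns (v 0) (fun n => v (n + 1)) = v := by
  funext i
  cases i <;> rfl

lemma Tr.congr {P Q : (ℕ → ℕ) → Prop} (h : B.Tr P) (hPQ : ∀ v, P v ↔ Q v) : B.Tr Q := by
  obtain ⟨R, hR, h⟩ := h
  exact ⟨R, hR, fun v => (hPQ v).symm.trans (h v)⟩

lemma Tr.not {P : (ℕ → ℕ) → Prop} (h : B.Tr P) : B.Tr (fun v => ¬ P v) := by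
  obtain ⟨R, hR, h⟩ := h
  exact ⟨_, hR.not, fun v => not_congr (h v)⟩

lemma Tr.and {P Q : (ℕ → ℕ) → Prop} (h : B.Tr P) (h' : B.Tr Q) : B.Tr (fun v => P v ∧ Q v) := by
  obtain ⟨R, hR, h⟩ := h
  obtain ⟨R', hR', h'⟩ := h'
  exact ⟨_, hR.and hR', fun v => and_congr (h v) (h' v)⟩

lemma Tr.or {P Q : (ℕ → ℕ) → Prop} (h : B.Tr P) (h' : B.Tr Q) : B.Tr (fun v => P v ∨ Q v) := by
  obtain ⟨R, hR, h⟩ := h
  obtain ⟨R', hR', h'⟩ := h'
  exact ⟨_, hR.or hR', fun v => or_congr (h v) (h' v)⟩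

lemma Tr.imp {P Q : (ℕ → ℕ) → Prop} (h : B.Tr P) (h' : B.Tr Q) : B.Tr (fun v => P v → Q v) := by
  obtain ⟨R, hR, h⟩ := h
  obtain ⟨R', hR', h'⟩ := h'
  exact ⟨_, hR.imp hR', fun v => imp_congr (h v) (h' v)⟩

lemma Tr.relabel {P : (ℕ → ℕ) → Prop} (h : B.Tr P) (g : ℕ → ℕ) : B.Tr (fun v => P (v ∘ g)) := by
  obtain ⟨R, hR, h⟩ := h
  exact ⟨_, D.comp hR (g := fun i v => v (g i)) (fun i => F.var (g i)), fun v => h _⟩

lemma TrF.relabel {f : (ℕ → ℕ) → ℕ} (h : B.TrF f) (g : ℕ → ℕ) : B.TrF (fun v => f (v ∘ g)) := by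
  obtain ⟨R, hR, h⟩ := h
  exact ⟨_, F.comp hR (g := fun i v => v (g i)) (fun i => F.var (g i)), fun v => h _⟩

lemma TrF.var (i : ℕ) : B.TrF (fun v => v i) := ⟨_, F.var i, fun _ => rfl⟩

lemma TrF.nat (n : ℕ) : B.TrF (fun _ => n) := ⟨_, F.const (n : U), fun _ => rfl⟩

lemma TrF.add {f g : (ℕ → ℕ) → ℕ} (hf : B.TrF f) (hg : B.TrF g) :
    B.TrF (fun v => f v + g v) := by
  obtain ⟨R, hR, h⟩ := hf
  obtain ⟨R', hR', h'⟩ := hg
  exact ⟨_, hR.add hR', fun v => by rw [Nat.cast_add, h, h']⟩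

lemma TrF.mul {f g : (ℕ → ℕ) → ℕ} (hf : B.TrF f) (hg : B.TrF g) :
    B.TrF (fun v => f v * g v) := by
  obtain ⟨R, hR, h⟩ := hf
  obtain ⟨R', hR', h'⟩ := hg
  exact ⟨_, hR.mul hR', fun v => by rw [Nat.cast_mul, h, h']⟩

lemma Tr.eq {f g : (ℕ → ℕ) → ℕ} (hf : B.TrF f) (hg : B.TrF g) : B.Tr (fun v => f v = g v) := by
  obtain ⟨R, hR, h⟩ := hf
  obtain ⟨R', hR', h'⟩ := hg
  exact ⟨_, D.eq hR hR', fun v => by rw [← h, ← h', Nat.cast_inj]⟩

lemma Tr.lt {f g : (ℕ → ℕ) → ℕ} (hf : B.TrF f) (hg : B.TrF g) : B.Tr (fun v => f v < g v) := by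
  obtain ⟨R, hR, h⟩ := hf
  obtain ⟨R', hR', h'⟩ := hg
  exact ⟨_, D.lt hR hR', fun v => by rw [← h, ← h', Nat.cast_lt]⟩

lemma Tr.le {f g : (ℕ → ℕ) → ℕ} (hf : B.TrF f) (hg : B.TrF g) : B.Tr (fun v => f v ≤ g v) := by
  obtain ⟨R, hR, h⟩ := hf
  obtain ⟨R', hR', h'⟩ := hg
  exact ⟨_, D.le hR hR', fun v => by rw [← h, ← h', Nat.cast_le]⟩

lemma Tr.bex {P : (ℕ → ℕ) → Prop} (h : B.Tr P) {f : (ℕ → ℕ) → ℕ} (hf : B.TrF f) :
    B.Tr (fun v => ∃ x ≤ f v, P (cns x v)) := by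
  obtain ⟨R, hR, h⟩ := h
  obtain ⟨g, hg, hf⟩ := hf
  refine ⟨fun v => ∃ x : U, x ≤ g v ∧ R (cns x v), ?_, fun v => ?_⟩
  · refine D.ex_le (P := fun x v => R (cns x v)) hg ?_
    exact hR.congr (fun v => by rw [cns_eta])
  · constructor
    · rintro ⟨x, hx, hP⟩
      refine ⟨(x : U), ?_, ?_⟩
      · rw [← hf]; exact_mod_cast hx
      · rw [← cast_cns]; exact (h _).1 hP
    · rintro ⟨x, hx, hP⟩
      rw [← hf] at hx
      obtain ⟨m, hm, rfl⟩ := B.exists_nat_of_le x _ hx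
      refine ⟨m, hm, (h _).2 ?_⟩
      rw [cast_cns]; exact hP

lemma Tr.ball {P : (ℕ → ℕ) → Prop} (h : B.Tr P) {f : (ℕ → ℕ) → ℕ} (hf : B.TrF f) :
    B.Tr (fun v => ∀ x ≤ f v, P (cns x v)) :=
  (h.not.bex hf).not.congr (fun v => by push Not; rfl)

lemma Tr.ballLt {P : (ℕ → ℕ) → Prop} (h : B.Tr P) {f : (ℕ → ℕ) → ℕ} (hf : B.TrF f) :
    B.Tr (fun v => ∀ x < f v, P (cns x v)) := by
  have h1 := (((Tr.lt (TrF.var 0) (hf.relabel Nat.succ)).imp h).ball hf)
  refine h1.congr (fun v => ?_)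
  constructor
  · intro H x hx
    exact H x hx.le (by simpa [Function.comp_def] using hx)
  · intro H x _ hx
    exact H x (by simpa [Function.comp_def] using hx)

lemma Tr.pair {f g k : (ℕ → ℕ) → ℕ} (hf : B.TrF f) (hg : B.TrF g) (hk : B.TrF k) :
    B.Tr (fun v => k v = Nat.pair (f v) (g v)) := by
  have h1 := ((Tr.lt hf hg).and (Tr.eq hk ((hg.mul hg).add hf))).or
    ((Tr.le hg hf).and (Tr.eq hk (((hf.mul hf).add hf).add hg)))
  refine h1.congr (fun v => ?_)
  unfold Nat.pair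
  split_ifs with h
  · constructor
    · rintro (⟨_, h2⟩ | ⟨h2, _⟩)
      · exact h2
      · omega
    · intro h2; exact Or.inl ⟨h, h2⟩
  · constructor
    · rintro (⟨h2, _⟩ | ⟨_, h2⟩)
      · exact absurd h2 h
      · exact h2
    · intro h2; exact Or.inr ⟨by omega, h2⟩

lemma Tr.beta {f g k : (ℕ → ℕ) → ℕ} (hf : B.TrF f) (hg : B.TrF g) (hk : B.TrF k) :
    B.Tr (fun v => k v = Nat.beta (f v) (g v)) := by
  -- environment: `q :: b :: a :: v`
  have s3 : ∀ {f : (ℕ → ℕ) → ℕ}, B.TrF f → B.TrF (fun v => f (v ∘ fun n => n + 3)) :=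
    fun h => h.relabel _
  have s2 : ∀ {f : (ℕ → ℕ) → ℕ}, B.TrF f → B.TrF (fun v => f (v ∘ fun n => n + 2)) :=
    fun h => h.relabel _
  have h1 : B.Tr (fun v => ∃ a ≤ f v, ∃ b ≤ f v, f v = Nat.pair a b ∧
      k v < (g v + 1) * b + 1 ∧ ∃ q ≤ a, a = q * ((g v + 1) * b + 1) + k v) := by
    have hq := (Tr.eq (TrF.var (B := B) 2)
      (((TrF.var 0).mul ((((s3 hg).add (TrF.nat 1)).mul (TrF.var 1)).add (TrF.nat 1))).add
        (s3 hk))).bex (TrF.var 1)
    have hb := ((Tr.pair (TrF.var 1) (TrF.var 0) (s2 hf)).and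
      ((Tr.lt (s2 hk) ((((s2 hg).add (TrF.nat 1)).mul (TrF.var 0)).add (TrF.nat 1))).and
        hq)).bex (hf.relabel Nat.succ)
    have ha := hb.bex hf
    refine ha.congr (fun v => ?_)
    simp [Function.comp_def]
  refine h1.congr (fun v => ?_)
  constructor
  · rintro ⟨a, _, b, _, hab, hlt, q, _, hq⟩
    unfold Nat.beta
    rw [hab, Nat.unpair_pair]
    simp only
    rw [hq, Nat.mul_comm q, Nat.mul_add_mod, Nat.mod_eq_of_lt hlt]
  · intro hk
    refine ⟨(f v).unpair.1, Nat.unpair_left_le _, (f v).unpair.2, Nat.unpair_right_le _,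
      (Nat.pair_unpair _).symm, ?_, (f v).unpair.1 / ((g v + 1) * (f v).unpair.2 + 1),
      Nat.div_le_self _ _, ?_⟩
    · rw [hk]; exact Nat.mod_lt _ (Nat.succ_pos _)
    · rw [hk]; unfold Nat.beta
      rw [Nat.mul_comm]; exact (Nat.div_add_mod _ _).symm

end Trace

section SRE

variable (B : BIP U R)

/-- Projections (over the standard numbers) of traces: the `S`-enumerable relations. -/
def SRE (P : (ℕ → ℕ) → Prop) : Prop :=
  ∃ R : (ℕ → ℕ) → Prop, B.Tr R ∧ ∀ v, P v ↔ ∃ s, R (cns s v)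

variable {B}

lemma SRE.congr {P Q : (ℕ → ℕ) → Prop} (h : B.SRE P) (hPQ : ∀ v, P v ↔ Q v) : B.SRE Q := by
  obtain ⟨R, hR, h⟩ := h
  exact ⟨R, hR, fun v => (hPQ v).symm.trans (h v)⟩

lemma Tr.sre {P : (ℕ → ℕ) → Prop} (h : B.Tr P) : B.SRE P :=
  ⟨_, h.relabel Nat.succ, fun v => by
    simp only [Function.comp_def, Nat.succ_eq_add_one, cns_succ]
    exact ⟨fun h => ⟨0, h⟩, fun ⟨_, h⟩ => h⟩⟩

/-- Index shift keeping variable `0`. -/
def sh1 : ℕ → ℕ
  | 0 => 0
  | n + 1 => n + 2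

/-- Index shift keeping variables `0` and `1`. -/
def sh2 : ℕ → ℕ
  | 0 => 0
  | 1 => 1
  | n + 2 => n + 3

lemma cns_sh1 {α : Type*} (x y : α) (v : ℕ → α) : (cns x (cns y v)) ∘ sh1 = cns x v := by
  funext n
  rcases n with _ | n <;> rfl

lemma cns_sh2 {α : Type*} (x y z : α) (v : ℕ → α) :
    (cns x (cns y (cns z v))) ∘ sh2 = cns x (cns y v) := by
  funext n
  rcases n with _ | _ | n <;> rfl

lemma SRE.and {P Q : (ℕ → ℕ) → Prop} (h : B.SRE P) (h' : B.SRE Q) :
    B.SRE (fun v => P v ∧ Q v) := by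
  obtain ⟨R, hR, h⟩ := h
  obtain ⟨R', hR', h'⟩ := h'
  refine ⟨fun w => (∃ s ≤ w 0, R ((cns s w) ∘ sh1)) ∧ (∃ s ≤ w 0, R' ((cns s w) ∘ sh1)),
    ((hR.relabel sh1).bex (TrF.var 0)).and ((hR'.relabel sh1).bex (TrF.var 0)), fun v => ?_⟩
  constructor
  · rintro ⟨hP, hQ⟩
    obtain ⟨s, hs⟩ := (h v).1 hP
    obtain ⟨t, ht⟩ := (h' v).1 hQ
    refine ⟨max s t, ⟨s, le_max_left _ _, ?_⟩, ⟨t, le_max_right _ _, ?_⟩⟩
    · rwa [cns_sh1]
    · rwa [cns_sh1]
  · rintro ⟨u, ⟨s, _, hs⟩, ⟨t, _, ht⟩⟩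
    rw [cns_sh1] at hs ht
    exact ⟨(h v).2 ⟨s, hs⟩, (h' v).2 ⟨t, ht⟩⟩

lemma SRE.relabel {P : (ℕ → ℕ) → Prop} (h : B.SRE P) (g : ℕ → ℕ) :
    B.SRE (fun v => P (v ∘ g)) := by
  obtain ⟨R, hR, h⟩ := h
  let g' : ℕ → ℕ := fun n => Nat.casesOn n 0 (fun m => g m + 1)
  refine ⟨fun w => R (w ∘ g'), hR.relabel g', fun v => ?_⟩
  have : ∀ s, (cns s v) ∘ g' = cns s (v ∘ g) := by
    intro s; funext n; rcases n with _ | n <;> rfl
  simp only [h, this]

lemma SRE.ex {P : (ℕ → ℕ) → Prop} (h : B.SRE P) : B.SRE (fun v => ∃ x, P (cns x v)) := by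
  obtain ⟨R, hR, h⟩ := h
  refine ⟨fun w => ∃ x ≤ w 0, ∃ s ≤ (cns x w) 1, R ((cns s (cns x w)) ∘ sh2),
    ((hR.relabel sh2).bex (TrF.var 1)).bex (TrF.var 0), fun v => ?_⟩
  constructor
  · rintro ⟨x, hx⟩
    obtain ⟨s, hs⟩ := (h _).1 hx
    refine ⟨max x s, x, le_max_left _ _, s, le_max_right _ _, ?_⟩
    rwa [cns_sh2]
  · rintro ⟨u, x, _, s, _, hs⟩
    rw [cns_sh2] at hs
    exact ⟨x, (h _).2 ⟨s, hs⟩⟩

lemma SRE.ballLt {P : (ℕ → ℕ) → Prop} (h : B.SRE P) {f : (ℕ → ℕ) → ℕ} (hf : B.TrF f) :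
    B.SRE (fun v => ∀ x < f v, P (cns x v)) := by
  obtain ⟨R, hR, h⟩ := h
  refine ⟨fun w => ∀ x < f (w ∘ Nat.succ), ∃ s ≤ (cns x w) 1, R ((cns s (cns x w)) ∘ sh2),
    ((hR.relabel sh2).bex (TrF.var 1)).ballLt (hf.relabel Nat.succ), fun v => ?_⟩
  have e : ∀ u, (cns u v) ∘ Nat.succ = v := fun u => rfl
  constructor
  · intro H
    have H' : ∀ x, ∃ s, x < f v → R (cns s (cns x v)) := by
      intro x
      by_cases hx : x < f v
      · obtain ⟨s, hs⟩ := (h _).1 (H x hx)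
        exact ⟨s, fun _ => hs⟩
      · exact ⟨0, fun h => absurd h hx⟩
    choose s hs using H'
    refine ⟨(Finset.range (f v)).sup s, ?_⟩
    intro x hx
    rw [e] at hx
    refine ⟨s x, ?_, ?_⟩
    · show s x ≤ (Finset.range (f v)).sup s
      exact Finset.le_sup (f := s) (Finset.mem_range.2 hx)
    · rw [cns_sh2]; exact hs x hx
  · rintro ⟨u, H⟩ x hx
    obtain ⟨s, _, hs⟩ := H x (by rw [e]; exact hx)
    rw [cns_sh2] at hs
    exact (h _).2 ⟨s, hs⟩

end SRE

section Repr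

variable {B : BIP U R}

/-- rename two variables -/
def ren2 (i j : ℕ) : ℕ → ℕ
  | 0 => i
  | _ + 1 => j

/-- rename the two arguments of a graph -/
lemma SRE.gr {f : ℕ →. ℕ} (h : B.SRE (fun v => v 1 ∈ f (v 0))) (i j : ℕ) :
    B.SRE (fun v => v j ∈ f (v i)) :=
  h.relabel (ren2 i j)

lemma beta_code (k : ℕ) (h : ℕ → ℕ) : ∃ c, ∀ i ≤ k, Nat.beta c i = h i := by
  refine ⟨Nat.unbeta ((List.range (k + 1)).map h), fun i hi => ?_⟩
  have := Nat.beta_unbeta_coe ((List.range (k + 1)).map h) ⟨i, by simpa using Nat.lt_succ_of_le hi⟩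
  simpa using this

lemma rec_mem (f g : ℕ →. ℕ) (a : ℕ) : ∀ k m : ℕ,
    (m ∈ (Nat.rec (f a) (fun y IH => do let i ← IH; g (Nat.pair a (Nat.pair y i))) k : Part ℕ)) ↔
    ∃ h : ℕ → ℕ, h 0 ∈ f a ∧ (∀ i < k, h (i + 1) ∈ g (Nat.pair a (Nat.pair i (h i)))) ∧ m = h k := by
  intro k
  induction k with
  | zero =>
      intro m
      constructor
      · intro hm
        exact ⟨fun _ => m, hm, fun i hi => absurd hi (Nat.not_lt_zero i), rfl⟩
      · rintro ⟨h, h0, _, rfl⟩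
        exact h0
  | succ k ih =>
      intro m
      simp only [Part.bind_eq_bind, Part.mem_bind_iff]
      constructor
      · rintro ⟨i, hi, hm⟩
        obtain ⟨h, h0, h1, rfl⟩ := (ih i).1 hi
        refine ⟨fun n => if n ≤ k then h n else m, by simpa using h0, ?_, by simp⟩
        intro i hi
        rcases Nat.lt_succ_iff_lt_or_eq.1 hi with hi | rfl
        · have h2 : i + 1 ≤ k := hi
          have h3 : i ≤ k := by omega
          simp only [h2, h3, if_true]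
          exact h1 i hi
        · simp only [le_refl, if_true]
          rw [if_neg (by omega)]
          exact hm
      · rintro ⟨h, h0, h1, rfl⟩
        exact ⟨h k, (ih _).2 ⟨h, h0, fun i hi => h1 i (by omega), rfl⟩, h1 k (by omega)⟩

theorem partrec_sre {f : ℕ →. ℕ} (hf : Nat.Partrec f) : B.SRE (fun v => v 1 ∈ f (v 0)) := by
  induction hf with
  | zero =>
      refine (Tr.eq (B := B) (TrF.var 1) (TrF.nat 0)).sre.congr (fun v => ?_)
      change v 1 = 0 ↔ v 1 ∈ Part.some 0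
      rw [Part.mem_some_iff]
  | succ =>
      refine (Tr.eq (B := B) (TrF.var 1) ((TrF.var 0).add (TrF.nat 1))).sre.congr (fun v => ?_)
      change v 1 = v 0 + 1 ↔ v 1 ∈ Part.some (Nat.succ (v 0))
      rw [Part.mem_some_iff]
  | left =>
      refine (((Tr.pair (B := B) (TrF.var 2) (TrF.var 0) (TrF.var 1)).bex (TrF.var 0)).sre).congr
        (fun v => ?_)
      change (∃ x ≤ v 0, (cns x v) 1 = Nat.pair ((cns x v) 2) ((cns x v) 0)) ↔
        v 1 ∈ Part.some (Nat.unpair (v 0)).1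
      rw [Part.mem_some_iff]
      simp only [cns_one, cns_two, cns_zero]
      constructor
      · rintro ⟨x, _, h⟩; rw [h, Nat.unpair_pair]
      · intro h; exact ⟨(Nat.unpair (v 0)).2, Nat.unpair_right_le _, by rw [h, Nat.pair_unpair]⟩
  | right =>
      refine (((Tr.pair (B := B) (TrF.var 0) (TrF.var 2) (TrF.var 1)).bex (TrF.var 0)).sre).congr
        (fun v => ?_)
      change (∃ x ≤ v 0, (cns x v) 1 = Nat.pair ((cns x v) 0) ((cns x v) 2)) ↔
        v 1 ∈ Part.some (Nat.unpair (v 0)).2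
      rw [Part.mem_some_iff]
      simp only [cns_one, cns_two, cns_zero]
      constructor
      · rintro ⟨x, _, h⟩; rw [h, Nat.unpair_pair]
      · intro h; exact ⟨(Nat.unpair (v 0)).1, Nat.unpair_left_le _, by rw [h, Nat.pair_unpair]⟩
  | @pair f g _ _ ihf ihg =>
      -- environment `b :: a :: v`
      have h := (((Tr.pair (B := B) (TrF.var 1) (TrF.var 0) (TrF.var 3)).sre).and
        ((ihf.gr 2 1).and (ihg.gr 2 0))).ex.ex
      refine h.congr (fun v => ?_)
      simp only [cns_zero, cns_one, cns_two, cns_three]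
      simp only [Seq.seq, Part.mem_bind_iff, Part.map_eq_map, Part.mem_map_iff]
      constructor
      · rintro ⟨a, b, h1, h2, h3⟩
        exact ⟨_, ⟨a, h2, rfl⟩, b, h3, h1.symm⟩
      · rintro ⟨_, ⟨a, h2, rfl⟩, b, h3, h1⟩
        exact ⟨a, b, h1.symm, h2, h3⟩
  | @comp f g _ _ ihf ihg =>
      have h := ((ihg.gr 1 0).and (ihf.gr 0 2)).ex
      refine h.congr (fun v => ?_)
      simp only [cns_zero, cns_one, cns_two]
      exact Part.mem_bind_iff.symm
  | @prec f g _ _ ihf ihg =>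
      -- environment `c :: k :: a :: v`
      have hp : B.SRE (fun v => v 3 = Nat.pair (v 2) (v 1)) :=
        (Tr.pair (TrF.var 2) (TrF.var 1) (TrF.var 3)).sre
      have h0 : B.SRE (fun v => ∃ y, y = Nat.beta (v 0) 0 ∧ y ∈ f (v 2)) :=
        (((Tr.beta (B := B) (TrF.var 1) (TrF.nat 0) (TrF.var 0)).sre).and (ihf.gr 3 0)).ex
      have hk : B.SRE (fun v => v 4 = Nat.beta (v 0) (v 1)) :=
        (Tr.beta (B := B) (TrF.var 0) (TrF.var 1) (TrF.var 4)).sre
      -- environment `z :: q :: p :: y :: i :: c :: k :: a :: v`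
      have h1 : B.SRE (fun v => ∀ i < v 1, ∃ y p q z, y = Nat.beta (v 0) i ∧ p = Nat.pair i y ∧
          q = Nat.pair (v 2) p ∧ z = Nat.beta (v 0) (i + 1) ∧ z ∈ g q) := by
        have := ((Tr.beta (B := B) (TrF.var 5) (TrF.var 4) (TrF.var 3)).sre.and
          ((Tr.pair (B := B) (TrF.var 4) (TrF.var 3) (TrF.var 2)).sre.and
          ((Tr.pair (B := B) (TrF.var 7) (TrF.var 2) (TrF.var 1)).sre.and
          ((Tr.beta (B := B) (TrF.var 5) ((TrF.var 4).add (TrF.nat 1)) (TrF.var 0)).sre.and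
            (ihg.gr 1 0))))).ex.ex.ex.ex.ballLt (TrF.var 1)
        exact this.congr (fun v => Iff.rfl)
      have h := (hp.and (h0.and (h1.and hk))).ex.ex.ex
      refine h.congr (fun v => ?_)
      simp only [cns_zero, cns_one, cns_two, cns_three, cns_four]
      simp only [Nat.unpaired]
      rw [rec_mem]
      constructor
      · rintro ⟨a, k, c, h1, ⟨y, hy, hy'⟩, h3, h4⟩
        refine ⟨fun i => Nat.beta c i, ?_, ?_, ?_⟩
        · rw [h1, Nat.unpair_pair]; simp only; rw [← hy]; exact hy'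
        · intro i hi
          rw [h1, Nat.unpair_pair] at hi
          obtain ⟨y, p, q, z, rfl, rfl, rfl, rfl, hz⟩ := h3 i hi
          rw [h1, Nat.unpair_pair]
          exact hz
        · rw [h1, Nat.unpair_pair]; exact h4
      · rintro ⟨h, h1, h2, h3⟩
        obtain ⟨c, hc⟩ := beta_code (Nat.unpair (v 0)).2 h
        refine ⟨(Nat.unpair (v 0)).1, (Nat.unpair (v 0)).2, c, (Nat.pair_unpair _).symm,
          ⟨_, rfl, ?_⟩, ?_, ?_⟩
        · rw [hc 0 (Nat.zero_le _)]; exact h1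
        · intro i hi
          refine ⟨_, _, _, _, rfl, rfl, rfl, rfl, ?_⟩
          rw [hc i hi.le, hc (i + 1) hi]
          exact h2 i hi
        · rw [hc _ le_rfl]; exact h3
  | @rfind f _ ih =>
      -- environment: `v 0 = a`, `v 1 = n`
      have h0 : B.SRE (fun v => ∃ q z, q = Nat.pair (v 0) (v 1) ∧ z = 0 ∧ z ∈ f q) := by
        have := ((Tr.pair (B := B) (TrF.var 2) (TrF.var 3) (TrF.var 1)).sre.and
          ((Tr.eq (B := B) (TrF.var 0) (TrF.nat 0)).sre.and (ih.gr 1 0))).ex.ex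
        exact this.congr (fun v => Iff.rfl)
      have h1 : B.SRE (fun v => ∀ i < v 1, ∃ q z, q = Nat.pair (v 0) i ∧ 0 < z ∧ z ∈ f q) := by
        -- environment `z :: q :: i :: v`
        have := ((Tr.pair (B := B) (TrF.var 3) (TrF.var 2) (TrF.var 1)).sre.and
          ((Tr.lt (B := B) (TrF.nat 0) (TrF.var 0)).sre.and (ih.gr 1 0))).ex.ex.ballLt (TrF.var 1)
        exact this.congr (fun v => Iff.rfl)
      refine (h0.and h1).congr (fun v => ?_)
      refine Iff.trans ?_ Nat.mem_rfind.symm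
      constructor
      · rintro ⟨⟨q, z, rfl, rfl, hz⟩, h2⟩
        refine ⟨?_, ?_⟩
        · simp only [Part.map_eq_map, Part.mem_map_iff]
          exact ⟨0, hz, by simp⟩
        · intro i hi
          obtain ⟨q, z, rfl, hz0, hz⟩ := h2 i hi
          simp only [Part.map_eq_map, Part.mem_map_iff]
          exact ⟨z, hz, by simp; omega⟩
      · rintro ⟨h1, h2⟩
        simp only [Part.map_eq_map, Part.mem_map_iff] at h1 h2
        refine ⟨?_, ?_⟩
        · obtain ⟨z, hz, hz0⟩ := h1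
          simp only [decide_eq_true_eq] at hz0
          exact ⟨_, z, rfl, hz0, hz⟩
        · intro i hi
          obtain ⟨z, hz, hz0⟩ := h2 hi
          simp only [decide_eq_false_iff_not] at hz0
          exact ⟨_, z, rfl, Nat.pos_of_ne_zero hz0, hz⟩

end Repr

section Internal

variable (B : BIP U R)

include B in
lemma p1_le' (x : U) : RSV.p1 x ≤ x := by
  unfold RSV.p1
  split_ifs with h
  · have h2 := h.choose_spec.choose_spec
    calc h.choose ≤ RSV.pr2 h.choose h.choose_spec.choose := B.le_pr2_left _ _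
      _ = x := h2
  · exact zero_le

include B in
lemma p2_le' (x : U) : RSV.p2 x ≤ x := by
  unfold RSV.p2
  split_ifs with h
  · have h2 := h.choose_spec.choose_spec
    calc h.choose_spec.choose ≤ RSV.pr2 h.choose h.choose_spec.choose := B.le_pr2_right _ _
      _ = x := h2
  · exact zero_le

variable {B}

/-- two-place definable functions applied to definable functions -/
lemma F.app2 {g : U → U → U} (hg : B.F (fun v => g (v 0) (v 1))) {f h : (ℕ → U) → U}
    (hf : B.F f) (hh : B.F h) : B.F (fun v => g (f v) (h v)) := by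
  have := F.comp hg (g := fun i => if i = 0 then f else h) (by
    intro i
    by_cases hi : i = 0
    · simpa [hi] using hf
    · simpa [hi] using hh)
  simpa using this

/-- the environment `s, x, y, y, …` -/
def env3 {α : Type*} (s x y : α) : ℕ → α := fun i => if i = 0 then s else if i = 1 then x else y

omit [LinearOrder U] [IsStrictOrderedRing U] [CanonicallyOrderedAdd U] in
lemma cast_env3 (s x y : ℕ) :
    (fun i => ((env3 s x y i : ℕ) : U)) = env3 (s : U) (x : U) (y : U) := by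
  funext i
  unfold env3
  split_ifs <;> rfl

lemma env3_eq (s x y : ℕ) : env3 s x y = cns s (fun i => if i = 0 then x else y) := by
  funext i
  rcases i with _ | _ | i
  · rfl
  · rfl
  · simp [env3, cns]

/-- A total function with `S`-enumerable graph has an internal extension. -/
theorem exists_internal (B : BIP U R) (f : ℕ → ℕ) (hf : Nat.Partrec (f : ℕ →. ℕ)) :
    ∃ g : U → U, B.F1 g ∧ ∀ n : ℕ, g n = (f n : U) := by
  classical
  obtain ⟨S, ⟨Q, hQ, hS⟩, hSRE⟩ := partrec_sre (B := B) hf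
  obtain ⟨J, hJ⟩ := B.exists_nonstd
  -- the witness relation
  set W : U → U → Prop := fun z x => Q (env3 (RSV.p1 z) x (RSV.p2 z)) with hWdef
  have hW : B.D (fun v => W (v 0) (v 1)) := by
    have := D.comp hQ (g := fun i v => env3 (RSV.p1 (v 0)) (v 1) (RSV.p2 (v 0)) i) (by
      intro i
      unfold env3
      by_cases h0 : i = 0
      · simpa [h0] using F.p1 (F.var 0)
      · by_cases h1 : i = 1
        · simpa [h1] using F.var 1
        · simpa [h0, h1] using F.p2 (F.var 0))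
    exact this
  have hWx : ∀ x, B.D1 (fun z => W z x) := fun x =>
    D.app2 (P := fun z x => W z x) hW (F.var 0) (F.const x)
  -- the least witness
  have hex : ∀ x : U, ∃ z : U, (z ≤ J ∧ W z x ∧ ∀ z', z' < z → ¬ W z' x) ∨
      (z = 0 ∧ ∀ z', z' ≤ J → ¬ W z' x) := by
    intro x
    by_cases h : ∃ z, z ≤ J ∧ W z x
    · obtain ⟨z, hz, hz'⟩ := h
      obtain ⟨y, hy, hy'⟩ := B.least (hWx x) hz'
      refine ⟨y, Or.inl ⟨?_, hy, hy'⟩⟩
      by_contra hcon
      exact hy' z (lt_of_le_of_lt hz (not_le.1 hcon)) hz'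
    · push Not at h
      exact ⟨0, Or.inr ⟨rfl, h⟩⟩
  choose h hh using hex
  have huniq : ∀ x z : U, ((z ≤ J ∧ W z x ∧ ∀ z', z' < z → ¬ W z' x) ∨
      (z = 0 ∧ ∀ z', z' ≤ J → ¬ W z' x)) → z = h x := by
    intro x z hz
    rcases hz with ⟨h1, h2, h3⟩ | ⟨h1, h2⟩
    · rcases hh x with ⟨h4, h5, h6⟩ | ⟨h4, h5⟩
      · rcases lt_trichotomy z (h x) with hlt | heq | hlt
        · exact absurd h2 (h6 _ hlt)
        · exact heq
        · exact absurd h5 (h3 _ hlt)
      · exact absurd h2 (h5 _ h1)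
    · rcases hh x with ⟨h4, h5, h6⟩ | ⟨h4, h5⟩
      · exact absurd h5 (h2 _ h4)
      · rw [h1, h4]
  have hgraph : B.D (fun v => v 0 = h (v 1)) := by
    have e1 : B.D (fun v => v 0 ≤ J) := D.le (F.var 0) (F.const J)
    have e2 : B.D (fun v => ∀ z', z' < v 0 → ¬ W z' (v 1)) :=
      D.all_lt (F.var 0) (P := fun z' v => ¬ W z' (v 1))
        (D.app2 (P := fun z x => W z x) hW (F.var 0) (F.var 2)).not
    have e3 : B.D (fun v => v 0 = 0) := D.eq (F.var 0) (F.const 0)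
    have e4 : B.D (fun v => ∀ z', z' ≤ J → ¬ W z' (v 1)) :=
      D.all_le (F.const J) (P := fun z' v => ¬ W z' (v 1))
        (D.app2 (P := fun z x => W z x) hW (F.var 0) (F.var 2)).not
    refine ((e1.and (hW.and e2)).or (e3.and e4)).congr (fun v => ?_)
    constructor
    · exact huniq (v 1) (v 0)
    · intro hv
      rw [hv]
      exact hh (v 1)
  have hF : B.F (fun v => h (v 0)) := by
    refine F.of_graph (F.const J) (fun v => ?_) hgraph
    rcases hh (v 0) with ⟨h1, _, _⟩ | ⟨h1, _⟩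
    · exact h1
    · rw [h1]; exact zero_le
  refine ⟨fun x => RSV.p2 (h x), F.p2 hF, fun n => ?_⟩
  -- standard arguments
  have hv : ((fun i => if i = 0 then n else f n) : ℕ → ℕ) 1 ∈
      (f : ℕ →. ℕ) (((fun i => if i = 0 then n else f n) : ℕ → ℕ) 0) := by
    simp
  obtain ⟨s, hs⟩ := (hSRE (fun i => if i = 0 then n else f n)).1 hv
  rw [← env3_eq, hS, cast_env3] at hs
  have hWn : W (RSV.pr2 (s : U) (f n : U)) (n : U) := by
    simp only [hWdef]
    rw [B.p1_pr2, B.p2_pr2]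
    exact hs
  have hlt : RSV.pr2 (s : U) (f n : U) ≤ J := by
    rw [pr2_natCast]
    exact (hJ _).le
  rcases hh n with ⟨h1, h2, h3⟩ | ⟨_, h2⟩
  · have hle : h n ≤ RSV.pr2 (s : U) (f n : U) := by
      by_contra hcon
      exact h3 _ (not_le.1 hcon) hWn
    rw [pr2_natCast] at hle
    obtain ⟨k, _, hk⟩ := B.exists_nat_of_le _ _ hle
    rw [hk] at h2
    simp only [hWdef] at h2
    obtain ⟨a, _, ha⟩ := B.exists_nat_of_le _ _ (B.p1_le' (k : U))
    obtain ⟨b, _, hb⟩ := B.exists_nat_of_le _ _ (B.p2_le' (k : U))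
    rw [ha, hb, ← cast_env3, ← hS, env3_eq] at h2
    have := (hSRE _).2 ⟨a, h2⟩
    simp only [if_true, PFun.coe_val, Part.mem_some_iff] at this
    show RSV.p2 (h n) = (f n : U)
    rw [hk, hb]
    have hbf : b = f n := by simpa using this
    rw [hbf]
  · exact absurd hWn (h2 _ hlt)

end Internal

end BIP

theorem IF_proof : Stmt_IF.{u, v} := by
  intro U R _ _ _ _ _ _ _ B f hf
  exact B.exists_internal f (Partrec.nat_iff.1 hf)

/-- the pairing function of Mathlib -/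
def npair {U : Type u} [CommSemiring U] [LinearOrder U] (x y : U) : U :=
  if x < y then y * y + x else x * x + x + y

omit [CanonicallyOrderedAdd U] in
lemma npair_natCast (n m : ℕ) : npair (n : U) (m : U) = (Nat.pair n m : U) := by
  unfold npair Nat.pair
  by_cases h : n < m
  · rw [if_pos (by exact_mod_cast h), if_pos h]; push_cast; ring
  · rw [if_neg (by exact_mod_cast h), if_neg h]; push_cast; ring

lemma BIP.F.npair {B : BIP U R} : B.F (fun v => npair (v 0) (v 1)) := by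
  unfold RSV.npair
  exact F.ite (P := fun v => v 0 < v 1) (D.lt (F.var 0) (F.var 1))
    (((F.var 1).mul (F.var 1)).add (F.var 0)) ((((F.var 0).mul (F.var 0)).add (F.var 0)).add
      (F.var 1))

theorem IF2_proof : Stmt_IF2.{u, v} := by
  intro U R _ _ _ _ _ _ _ B f hf
  have h1 : Computable (fun k : ℕ => f k.unpair.1 k.unpair.2) :=
    hf.comp (Computable.fst.comp Computable.unpair) (Computable.snd.comp Computable.unpair)
  obtain ⟨g, hg, hgn⟩ := IF_proof U R B _ h1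
  refine ⟨fun x y => g (RSV.npair x y), BIP.F1.app hg BIP.F.npair, fun n m => ?_⟩
  show g (RSV.npair (n : U) (m : U)) = _
  rw [npair_natCast, hgn, Nat.unpair_pair]

section Scott

variable {B : BIP U R}

theorem coded_of_computable {A : Set ℕ} (hA : ComputablePred (fun n => n ∈ A)) : B.Coded A := by
  obtain ⟨hdec, hc⟩ := hA
  have h1 : Computable (fun n : ℕ => cond (decide (n ∈ A)) 1 0) :=
    Computable.cond hc (Computable.const 1) (Computable.const 0)
  obtain ⟨g, hg, hgn⟩ := IF_proof U R B _ h1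
  refine ⟨fun u => g u = 1, BIP.D.eq (BIP.F1.app hg (BIP.F.var 0)) (BIP.F.const 1), fun n => ?_⟩
  show g n = 1 ↔ n ∈ A
  rw [hgn]
  by_cases h : n ∈ A <;> simp [h]

theorem coded_preimage {A : Set ℕ} {f : ℕ → ℕ} (hA : B.Coded A) (hf : Computable f) :
    B.Coded (f ⁻¹' A) := by
  obtain ⟨P, hP, hPA⟩ := hA
  obtain ⟨g, hg, hgn⟩ := IF_proof U R B _ hf
  refine ⟨fun u => P (g u), BIP.D.app1 hP hg, fun n => ?_⟩
  show P (g n) ↔ f n ∈ A
  rw [hgn, hPA]

/-- the `m`-th bit of the string with code `γ` -/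
def btf (m γ : ℕ) : ℕ :=
  cond (((Encodable.decode (α := List Bool) γ).getD []).getD m false) 1 0

lemma computable_btf : Computable₂ btf := by
  have h1 : Computable₂ (fun m γ : ℕ =>
      ((Encodable.decode (α := List Bool) γ).getD []).getD m false) := by
    have h2 : Computable (fun p : ℕ × ℕ => (Encodable.decode (α := List Bool) p.2).getD []) :=
      (Primrec.option_getD.to_comp).comp (Computable.decode.comp Computable.snd)
        (Computable.const [])
    exact ((Primrec.list_getD false).to_comp).comp h2 Computable.fst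
  exact Computable.cond h1 (Computable.const 1) (Computable.const 0)

lemma btf_encode (τ : ℕ → Bool) (N m : ℕ) (hm : m < N) :
    btf m (Encodable.encode ((List.range N).map τ)) = cond (τ m) 1 0 := by
  unfold btf
  rw [Encodable.encodek]
  simp [List.getD, hm]

theorem coded_wkl : WKLC B.Coded := by
  classical
  intro K₀ K₁ A hK₀ hK₁ hA hfin
  obtain ⟨PA, hPA, hPAn⟩ := hA
  obtain ⟨J, hJ⟩ := B.exists_nonstd
  obtain ⟨bt, hbt, hbtn⟩ := IF2_proof U R B _ computable_btf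
  -- the data of one system
  have data : ∀ K : ℕ → List (ℕ × Bool), Computable K → ∃ (len : U → U) (idx val : U → U → U),
      B.F1 len ∧ B.F (fun v => idx (v 0) (v 1)) ∧ B.F (fun v => val (v 0) (v 1)) ∧
      (∀ n : ℕ, len n = ((K n).length : U)) ∧
      (∀ n m : ℕ, idx n m = (((K n).getD m (0, false)).1 : U)) ∧
      (∀ n m : ℕ, val n m = ((cond ((K n).getD m (0, false)).2 1 0 : ℕ) : U)) := by
    intro K hK
    obtain ⟨len, hlen, hlenn⟩ := IF_proof U R B _ (Computable.list_length.comp hK)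
    have hget : Computable₂ (fun n m : ℕ => (K n).getD m (0, false)) :=
      ((Primrec.list_getD ((0, false) : ℕ × Bool)).to_comp).comp (hK.comp Computable.fst)
        Computable.snd
    obtain ⟨idx, hidx, hidxn⟩ := IF2_proof U R B (fun n m => ((K n).getD m (0, false)).1)
      (Computable.fst.comp hget)
    obtain ⟨val, hval, hvaln⟩ := IF2_proof U R B
      (fun n m => cond ((K n).getD m (0, false)).2 1 0)
      (Computable.cond (Computable.snd.comp hget) (Computable.const 1) (Computable.const 0))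
    exact ⟨len, idx, val, hlen, hidx, hval, hlenn, hidxn, hvaln⟩
  obtain ⟨len₀, idx₀, val₀, hlen₀, hidx₀, hval₀, elen₀, eidx₀, eval₀⟩ := data K₀ hK₀
  obtain ⟨len₁, idx₁, val₁, hlen₁, hidx₁, hval₁, elen₁, eidx₁, eval₁⟩ := data K₁ hK₁
  -- the clause
  set cl : (U → U) → (U → U → U) → (U → U → U) → U → U → Prop := fun len idx val i γ =>
    ∃ j, j < len i ∧ ¬ (bt (idx i j) γ = 1 ↔ val i j = 1) with hcl
  have dcl : ∀ (len : U → U) (idx val : U → U → U), B.F1 len → B.F (fun v => idx (v 0) (v 1)) →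
      B.F (fun v => val (v 0) (v 1)) → B.D (fun v => cl len idx val (v 0) (v 1)) := by
    intro len idx val h1 h2 h3
    refine BIP.D.ex_lt (P := fun j v => ¬ (bt (idx (v 0) j) (v 1) = 1 ↔ val (v 0) j = 1)) h1 ?_
    refine (BIP.D.iff (BIP.D.eq ?_ (BIP.F.const 1)) (BIP.D.eq ?_ (BIP.F.const 1))).not
    · exact BIP.F.app2 hbt (BIP.F.app2 h2 (BIP.F.var 1) (BIP.F.var 0)) (BIP.F.var 2)
    · exact BIP.F.app2 h3 (BIP.F.var 1) (BIP.F.var 0)
  have cl_of : ∀ (K : ℕ → List (ℕ × Bool)) (len : U → U) (idx val : U → U → U),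
      (∀ n : ℕ, len n = ((K n).length : U)) →
      (∀ n m : ℕ, idx n m = (((K n).getD m (0, false)).1 : U)) →
      (∀ n m : ℕ, val n m = ((cond ((K n).getD m (0, false)).2 1 0 : ℕ) : U)) →
      ∀ (i : ℕ) (τ : ℕ → Bool) (γ : U) (p : ℕ × Bool), p ∈ K i → τ p.1 ≠ p.2 →
      (bt p.1 γ = 1 ↔ τ p.1 = true) → cl len idx val i γ := by
    intro K len idx val h1 h2 h3 i τ γ p hp hτ hb
    obtain ⟨j, hj, hjp⟩ := List.getElem_of_mem hp
    have hgd : (K i).getD j (0, false) = p := by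
      rw [List.getD_eq_getElem _ _ hj, hjp]
    refine ⟨(j : U), by rw [h1]; exact_mod_cast hj, ?_⟩
    rw [h2, h3, hgd, hb]
    rcases hp2 : p.2 with _ | _
    · rw [hp2] at hτ
      have : τ p.1 = true := by simpa using hτ
      simp [this]
    · rw [hp2] at hτ
      have : τ p.1 = false := by simpa using hτ
      simp [this]
  have of_cl : ∀ (K : ℕ → List (ℕ × Bool)) (len : U → U) (idx val : U → U → U),
      (∀ n : ℕ, len n = ((K n).length : U)) →
      (∀ n m : ℕ, idx n m = (((K n).getD m (0, false)).1 : U)) →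
      (∀ n m : ℕ, val n m = ((cond ((K n).getD m (0, false)).2 1 0 : ℕ) : U)) →
      ∀ (i : ℕ) (τ : ℕ → Bool) (γ : U), cl len idx val i γ →
      (∀ n : ℕ, bt n γ = 1 ↔ τ n = true) → ∃ p ∈ K i, τ p.1 ≠ p.2 := by
    intro K len idx val h1 h2 h3 i τ γ h hb
    obtain ⟨j, hj, hne⟩ := h
    rw [h1] at hj
    obtain ⟨m, _, rfl⟩ := B.exists_nat_of_le _ _ hj.le
    have hm : m < (K i).length := by exact_mod_cast hj
    rw [h2, h3, hb] at hne
    refine ⟨(K i).getD m (0, false), ?_, ?_⟩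
    · rw [List.getD_eq_getElem _ _ hm]
      exact List.getElem_mem hm
    · intro heq
      apply hne
      rw [heq]
      rcases ((K i).getD m (0, false)).2 with _ | _ <;> simp
  -- the finite approximations
  set Φ : U → Prop := fun k => ∃ γ, γ ≤ J ∧ ∀ i, i < k →
    ((¬ PA i → cl len₀ idx₀ val₀ i γ) ∧ (PA i → cl len₁ idx₁ val₁ i γ)) with hΦ
  have dΦ : B.D1 Φ := by
    refine BIP.D.ex_le (P := fun γ v => ∀ i, i < v 0 →
      ((¬ PA i → cl len₀ idx₀ val₀ i γ) ∧ (PA i → cl len₁ idx₁ val₁ i γ))) (BIP.F.const J) ?_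
    refine BIP.D.all_lt (P := fun i v =>
      ((¬ PA i → cl len₀ idx₀ val₀ i (v 0)) ∧ (PA i → cl len₁ idx₁ val₁ i (v 0))))
      (BIP.F.var 1) ?_
    exact ((BIP.D.app1 hPA (BIP.F.var 0)).not.imp (dcl _ _ _ hlen₀ hidx₀ hval₀)).and
      ((BIP.D.app1 hPA (BIP.F.var 0)).imp (dcl _ _ _ hlen₁ hidx₁ hval₁))
  have tΦ : ∀ k : ℕ, Φ k := by
    intro k
    obtain ⟨τ, hτ⟩ := hfin k
    have h1 : ∀ i, ∃ m : ℕ, i < k → ((i ∉ A → ∃ p ∈ K₀ i, p.1 ≤ m ∧ τ p.1 ≠ p.2) ∧
        (i ∈ A → ∃ p ∈ K₁ i, p.1 ≤ m ∧ τ p.1 ≠ p.2)) := by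
      intro i
      by_cases hi : i < k
      · by_cases hiA : i ∈ A
        · obtain ⟨p, hp, hne⟩ := (hτ i hi).2 hiA
          exact ⟨p.1, fun _ => ⟨fun h => absurd hiA h, fun _ => ⟨p, hp, le_rfl, hne⟩⟩⟩
        · obtain ⟨p, hp, hne⟩ := (hτ i hi).1 hiA
          exact ⟨p.1, fun _ => ⟨fun _ => ⟨p, hp, le_rfl, hne⟩, fun h => absurd h hiA⟩⟩
      · exact ⟨0, fun h => absurd h hi⟩
    choose m hm using h1
    obtain ⟨N, hN⟩ : ∃ N, ∀ i < k, m i < N := ⟨(Finset.range k).sup m + 1, fun i hi =>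
      Nat.lt_succ_of_le (Finset.le_sup (f := m) (Finset.mem_range.2 hi))⟩
    refine ⟨((Encodable.encode ((List.range N).map τ) : ℕ) : U), (hJ _).le, ?_⟩
    intro x hx
    obtain ⟨i, _, rfl⟩ := B.exists_nat_of_le _ _ hx.le
    have hi : i < k := by exact_mod_cast hx
    have hb : ∀ q : ℕ, q < N →
        (bt q ((Encodable.encode ((List.range N).map τ) : ℕ) : U) = 1 ↔ τ q = true) := by
      intro q hq
      rw [hbtn, btf_encode τ N q hq]
      rcases τ q with _ | _ <;> simp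
    rw [hPAn]
    constructor
    · intro hiA
      obtain ⟨p, hp, hpm, hne⟩ := (hm i hi).1 hiA
      exact cl_of K₀ _ _ _ elen₀ eidx₀ eval₀ i τ _ p hp hne (hb _ (lt_of_le_of_lt hpm (hN i hi)))
    · intro hiA
      obtain ⟨p, hp, hpm, hne⟩ := (hm i hi).2 hiA
      exact cl_of K₁ _ _ _ elen₁ eidx₁ eval₁ i τ _ p hp hne (hb _ (lt_of_le_of_lt hpm (hN i hi)))
  obtain ⟨J', hJ', hall⟩ := B.overspill dΦ tΦ
  obtain ⟨γ, _, hγ⟩ := hall J' le_rfl
  refine ⟨fun n => decide (bt n γ = 1), ⟨fun u => bt u γ = 1,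
    BIP.D.eq (BIP.F.app2 hbt (BIP.F.var 0) (BIP.F.const γ)) (BIP.F.const 1), fun n => by simp⟩, ?_⟩
  intro i
  obtain ⟨h0, h1⟩ := hγ i (hJ' i)
  rw [hPAn] at h0 h1
  have ht : ∀ n : ℕ, bt n γ = 1 ↔ (fun n : ℕ => decide (bt n γ = 1)) n = true := fun n => by
    simp
  exact ⟨fun hi => of_cl K₀ _ _ _ elen₀ eidx₀ eval₀ i _ γ (h0 hi) ht,
    fun hi => of_cl K₁ _ _ _ elen₁ eidx₁ eval₁ i _ γ (h1 hi) ht⟩

end Scott

theorem Scott_proof : Stmt_Scott.{u, v} := by
  intro U R _ _ _ _ _ _ _ B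
  exact ⟨fun A hA => coded_of_computable hA, fun A f hA hf => coded_preimage hA hf, coded_wkl⟩

end Pool.Agent.RSV
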