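import Pool.Agent.RSV.A
import Pool.Agent.RSV.Bern
import Pool.Agent.RSV.BernFam
import Pool.Agent.RSV.Bound
import Pool.Agent.RSV.CT
import Pool.Agent.RSV.CodeReal
import Pool.Agent.RSV.Cov
import Pool.Agent.RSV.FD
import Pool.Agent.RSV.FIP
import Pool.Agent.RSV.Henkin
import Pool.Agent.RSV.Logic
import Pool.Agent.RSV.Mul
import Pool.Agent.RSV.Poly
import Pool.Agent.RSV.QE
import Pool.Agent.RSV.RCF
import Pool.Agent.RSV.Scale
import Pool.Agent.RSV.Scott

/-!
# The assembly of the modules
-/

namespace Pool.Agent.RSV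

universe u v

/-- The main theorem. -/
theorem main : Stmt_Main.{u, v} := by
  have hCT : Stmt_CT.{v} := ct_of_cx cx
  have hFD : Stmt_FD.{u, v} := FD.fd_proof mul_proof IF_proof
  have hBern : Stmt_Bern.{u, v} := Bern_proof mul_proof
  have hBF : Stmt_BernFam.{u, v} := BIP.bernFam hBern hFD mul_proof fip_proof
  have hBd : Stmt_Bound.{u, v} := Bound ivt
  have hCov : Stmt_Cov.{u, v} := cov IF_proof IF2_proof hCT Scale hBd hBF
  exact main_of stmt_A Scott_proof (BIP.code IF_proof hBd) (BIP.real IF_proof hBd hCov)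
    (logic Henkin_proof (QE_of ivt rolle ivt rolle) poly_code)

end Pool.Agent.RSV
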