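import Mathlib

/-!
# BERN, algebraic part: one step of the recurrence
-/

namespace Pool.Agent.RSV

open Finset

variable {R : Type*} [Field R] [LinearOrder R] [IsStrictOrderedRing R]

namespace BernAlg

/-- growth in a window -/
lemma growth {d : ℕ} {r : ℕ → R} {w μ : R} (hw : 0 ≤ w) (hμ : 0 ≤ μ)
    (hg : ∀ j, j + 1 < d → w * μ * r j ≤ 2 * r (j + 1)) :
    ∀ n j, j + n + 1 = d → (w / 2 * μ) ^ n * r j ≤ r (d - 1) := by
  intro n
  induction n with
  | zero => intro j hj; have : d - 1 = j := by omega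
            rw [this]; simp
  | succ n ih =>
    intro j hj
    have h1 := ih (j + 1) (by omega)
    have h2 := hg j (by omega)
    have h3 : 0 ≤ (w / 2 * μ) ^ n := by positivity
    calc (w / 2 * μ) ^ (n + 1) * r j = (w / 2 * μ) ^ n * ((w * μ * r j) / 2) := by ring
      _ ≤ (w / 2 * μ) ^ n * r (j + 1) := by
          apply mul_le_mul_of_nonneg_left _ h3
          linarith
      _ ≤ r (d - 1) := h1

/-- the terms of a window, in terms of the last one -/
lemma term_le {d : ℕ} {r : ℕ → R} {w μ : R} (hw : 0 < w) (hμ : 0 < μ)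
    (hg : ∀ j, j + 1 < d → w * μ * r j ≤ 2 * r (j + 1)) {n j : ℕ} (hj : j + n + 1 = d) :
    μ ^ n * r j ≤ (2 / w) ^ n * r (d - 1) := by
  have h := growth hw.le hμ.le hg n j hj
  have h2 : (2 / w) ^ n * ((w / 2 * μ) ^ n * r j) = μ ^ n * r j := by
    rw [← mul_assoc, ← mul_pow]
    congr 2
    field_simp
  rw [← h2]
  exact mul_le_mul_of_nonneg_left h (by positivity)

lemma geom_sum_le {x : R} (h0 : 0 ≤ x) (h1 : x ≤ 1 / 2) (n : ℕ) :
    ∑ k ∈ range n, x ^ k ≤ 2 := by
  have key : ∀ n : ℕ, ∑ k ∈ range n, x ^ k + 2 * x ^ n ≤ 2 := by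
    intro n
    induction n with
    | zero => simp
    | succ n ih =>
      rw [sum_range_succ]
      have h2 : 0 ≤ x ^ n := by positivity
      have h3 : 2 * x ^ (n + 1) ≤ x ^ n := by
        rw [pow_succ]
        nlinarith
      linarith
  have h := key n
  have h2 : 0 ≤ x ^ n := by positivity
  linarith

/-- Abel summation -/
lemma abel {d : ℕ} (hd : 1 ≤ d) (γ r : ℕ → R) (w μ : R) (h0 : γ 0 = -1) (hd0 : γ d = 0) :
    ∑ k ∈ range d, (γ (k + 1) - w * γ k) * μ ^ (k + 1) * r (d - 1 - k) =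
      w * μ * r (d - 1) + ∑ k ∈ range (d - 1), γ (k + 1) * μ ^ (k + 1) *
        (r (d - 1 - k) - w * μ * r (d - 2 - k)) := by
  obtain ⟨e, rfl⟩ : ∃ e, d = e + 1 := ⟨d - 1, by omega⟩
  simp only [Nat.add_sub_cancel]
  have h1 : ∑ k ∈ range (e + 1), (γ (k + 1) - w * γ k) * μ ^ (k + 1) * r (e - k) =
      (∑ k ∈ range (e + 1), γ (k + 1) * μ ^ (k + 1) * r (e - k)) -
        ∑ k ∈ range (e + 1), w * γ k * μ ^ (k + 1) * r (e - k) := by
    rw [← sum_sub_distrib]
    exact sum_congr rfl fun k _ => by ring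
  rw [h1, sum_range_succ, hd0, sum_range_succ' (fun k => w * γ k * μ ^ (k + 1) * r (e - k)), h0]
  have h2 : ∑ k ∈ range e, γ (k + 1) * μ ^ (k + 1) * (r (e - k) - w * μ * r (e + 1 - 2 - k)) =
      (∑ k ∈ range e, γ (k + 1) * μ ^ (k + 1) * r (e - k)) -
        ∑ k ∈ range e, w * γ (k + 1) * μ ^ (k + 1 + 1) * r (e - (k + 1)) := by
    rw [← sum_sub_distrib]
    refine sum_congr rfl fun k hk => ?_
    have : e + 1 - 2 - k = e - (k + 1) := by omega
    rw [this]
    ring
  rw [h2]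
  simp
  ring

variable {d : ℕ} {γ r b : ℕ → R} {w μ : R}

/-- the error of the approximate coefficients -/
lemma err_le (hw : 4 ≤ w) (hμ : 1 ≤ μ) (hr : ∀ j < d, 0 ≤ r j)
    (hg : ∀ j, j + 1 < d → w * μ * r j ≤ 2 * r (j + 1)) (hd : 1 ≤ d) (c : ℕ → R)
    (hb : ∀ k < d, |b k - c k| ≤ 2) :
    |∑ k ∈ range d, b k * r (d - 1 - k) - ∑ k ∈ range d, c k * r (d - 1 - k)| ≤
      4 * r (d - 1) := by
  rw [← sum_sub_distrib]
  calc |∑ k ∈ range d, (b k * r (d - 1 - k) - c k * r (d - 1 - k))|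
      ≤ ∑ k ∈ range d, |b k * r (d - 1 - k) - c k * r (d - 1 - k)| := abs_sum_le_sum_abs _ _
    _ ≤ ∑ k ∈ range d, 2 * ((1 / 2) ^ k * r (d - 1)) := by
        refine sum_le_sum fun k hk => ?_
        have hk' := mem_range.1 hk
        rw [← sub_mul, abs_mul, abs_of_nonneg (hr _ (by omega))]
        have h1 := term_le (by linarith) (by linarith) hg (n := k) (j := d - 1 - k) (by omega)
        have h2 : r (d - 1 - k) ≤ μ ^ k * r (d - 1 - k) := by
          have := one_le_pow₀ hμ (n := k)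
          nlinarith [hr (d - 1 - k) (by omega)]
        have h3 : (2 / w) ^ k ≤ (1 / 2 : R) ^ k := by
          apply pow_le_pow_left₀ (by positivity)
          rw [div_le_div_iff₀ (by linarith) (by norm_num)]
          linarith
        have h4 : (2 / w) ^ k * r (d - 1) ≤ (1 / 2 : R) ^ k * r (d - 1) :=
          mul_le_mul_of_nonneg_right h3 (hr _ (by omega))
        have h5 := hb k hk'
        have h6 : 0 ≤ r (d - 1 - k) := hr _ (by omega)
        calc |b k - c k| * r (d - 1 - k) ≤ 2 * r (d - 1 - k) :=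
              mul_le_mul_of_nonneg_right h5 h6
          _ ≤ 2 * ((1 / 2) ^ k * r (d - 1)) := by linarith
    _ = 2 * r (d - 1) * ∑ k ∈ range d, (1 / 2 : R) ^ k := by
        rw [mul_sum]
        exact sum_congr rfl fun k _ => by ring
    _ ≤ 2 * r (d - 1) * 2 := by
        apply mul_le_mul_of_nonneg_left (geom_sum_le (by norm_num) le_rfl _)
        have := hr (d - 1) (by omega)
        linarith
    _ = 4 * r (d - 1) := by ring

/-- Phase A: the new term is close to `w μ` times the last one. -/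
lemma stepA (hd : 1 ≤ d) (h0 : γ 0 = -1) (hd0 : γ d = 0) (hγ : ∀ k ≤ d, |γ k| ≤ 2 ^ d)
    (hw : 2 ^ (d + 5) ≤ w) (hμ : 4 ≤ μ) (hr : ∀ j < d, 0 ≤ r j)
    (hg : ∀ j, j + 1 < d → w * μ * r j ≤ 2 * r (j + 1))
    (hb : ∀ k < d, |b k - (γ (k + 1) - w * γ k) * μ ^ (k + 1)| ≤ 2) :
    |∑ k ∈ range d, b k * r (d - 1 - k) - w * μ * r (d - 1)| ≤ 3 * 2 ^ d * μ * r (d - 1) := by
  have h2d : (2 : R) ^ (d + 5) = 32 * 2 ^ d := by rw [pow_add]; norm_num; ring
  have h1d : (1 : R) ≤ 2 ^ d := one_le_pow₀ (by norm_num)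
  have hw4 : (4 : R) ≤ w := by rw [h2d] at hw; linarith
  have e1 := err_le hw4 (by linarith) hr hg hd
    (fun k => (γ (k + 1) - w * γ k) * μ ^ (k + 1)) hb
  rw [abel hd γ r w μ h0 hd0] at e1
  have e2 : |∑ k ∈ range (d - 1), γ (k + 1) * μ ^ (k + 1) *
        (r (d - 1 - k) - w * μ * r (d - 2 - k))| ≤ 2 * 2 ^ d * μ * r (d - 1) := by
    calc |∑ k ∈ range (d - 1), γ (k + 1) * μ ^ (k + 1) *
        (r (d - 1 - k) - w * μ * r (d - 2 - k))|
        ≤ ∑ k ∈ range (d - 1), |γ (k + 1) * μ ^ (k + 1) *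
        (r (d - 1 - k) - w * μ * r (d - 2 - k))| := abs_sum_le_sum_abs _ _
      _ ≤ ∑ k ∈ range (d - 1), 2 ^ d * μ * r (d - 1) * (1 / 2) ^ k := by
          refine sum_le_sum fun k hk => ?_
          have hk' := mem_range.1 hk
          have hk2 : d - 1 - k = (d - 2 - k) + 1 := by omega
          have g1 := hg (d - 2 - k) (by omega)
          rw [← hk2] at g1
          have r1 := hr (d - 2 - k) (by omega)
          have r2 := hr (d - 1 - k) (by omega)
          have g2 : |r (d - 1 - k) - w * μ * r (d - 2 - k)| ≤ r (d - 1 - k) := by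
            rw [abs_le]
            constructor
            · linarith
            · have : 0 ≤ w * μ * r (d - 2 - k) := by
                have : 0 ≤ w := by linarith
                have : 0 ≤ μ := by linarith
                positivity
              linarith
          have hμ0 : 0 ≤ μ := by linarith
          rw [abs_mul, abs_mul, abs_of_nonneg (pow_nonneg hμ0 _)]
          have h1 := term_le (by linarith : 0 < w) (by linarith : 0 < μ) hg (n := k)
            (j := d - 1 - k) (by omega)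
          have h3 : (2 / w) ^ k ≤ (1 / 2 : R) ^ k := by
            apply pow_le_pow_left₀ (by positivity)
            rw [div_le_div_iff₀ (by linarith) (by norm_num)]
            linarith
          have h4 : (2 / w) ^ k * r (d - 1) ≤ (1 / 2 : R) ^ k * r (d - 1) :=
            mul_le_mul_of_nonneg_right h3 (hr _ (by omega))
          have h5 := hγ (k + 1) (by omega)
          calc |γ (k + 1)| * μ ^ (k + 1) * |r (d - 1 - k) - w * μ * r (d - 2 - k)|
              ≤ 2 ^ d * μ ^ (k + 1) * r (d - 1 - k) := by gcongr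
            _ = 2 ^ d * μ * (μ ^ k * r (d - 1 - k)) := by ring
            _ ≤ 2 ^ d * μ * ((1 / 2 : R) ^ k * r (d - 1)) := by
                apply mul_le_mul_of_nonneg_left _ (by positivity)
                linarith
            _ = 2 ^ d * μ * r (d - 1) * (1 / 2) ^ k := by ring
      _ = 2 ^ d * μ * r (d - 1) * ∑ k ∈ range (d - 1), (1 / 2 : R) ^ k := by rw [mul_sum]
      _ ≤ 2 ^ d * μ * r (d - 1) * 2 := by
          apply mul_le_mul_of_nonneg_left (geom_sum_le (by norm_num) le_rfl _)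
          have := hr (d - 1) (by omega)
          have hμ0 : 0 ≤ μ := by linarith
          positivity
      _ = 2 * 2 ^ d * μ * r (d - 1) := by ring
  have r0 := hr (d - 1) (by omega)
  have e3 : 4 * r (d - 1) ≤ 2 ^ d * μ * r (d - 1) := by
    have : (4 : R) ≤ 2 ^ d * μ := by nlinarith
    nlinarith
  rw [abs_le] at e1 e2 ⊢
  constructor <;> linarith [e1.1, e1.2, e2.1, e2.2]

/-- Phase B: the relative error decays. -/
lemma stepB (hd : 1 ≤ d) (h0 : γ 0 = -1) (hd0 : γ d = 0) (hγ : ∀ k ≤ d, |γ k| ≤ 2 ^ d)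
    (hw : 2 ^ (d + 5) ≤ w) (hμ : 4 ≤ μ) (hr : ∀ j < d, 0 ≤ r j)
    (hg : ∀ j, j + 1 < d → w * μ * r j ≤ 2 * r (j + 1))
    (hb : ∀ k < d, |b k - (γ (k + 1) - w * γ k) * μ ^ (k + 1)| ≤ 2)
    {C ε : R} (hC : 0 ≤ C) (hε : 0 ≤ ε)
    (hB : ∀ j, j + 1 < d → |r (j + 1) - w * μ * r j| ≤ (C * 2 ^ (d - 1 - j) + ε) * (μ * r j)) :
    |∑ k ∈ range d, b k * r (d - 1 - k) - w * μ * r (d - 1)| ≤
      (C / 4 + ε / 8) * (μ * r (d - 1)) + 4 * r (d - 1) := by
  have h2d : (2 : R) ^ (d + 5) = 32 * 2 ^ d := by rw [pow_add]; norm_num; ring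
  have h1d : (1 : R) ≤ 2 ^ d := one_le_pow₀ (by norm_num)
  have hw4 : (32 : R) ≤ w := by rw [h2d] at hw; linarith
  have hw0 : 0 < w := by linarith
  have hμ0 : 0 < μ := by linarith
  have e1 := err_le (by linarith) (by linarith) hr hg hd
    (fun k => (γ (k + 1) - w * γ k) * μ ^ (k + 1)) hb
  rw [abel hd γ r w μ h0 hd0] at e1
  have r0 := hr (d - 1) (by omega)
  have e2 : |∑ k ∈ range (d - 1), γ (k + 1) * μ ^ (k + 1) *
        (r (d - 1 - k) - w * μ * r (d - 2 - k))| ≤ (C / 4 + ε / 8) * (μ * r (d - 1)) := by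
    calc |∑ k ∈ range (d - 1), γ (k + 1) * μ ^ (k + 1) *
        (r (d - 1 - k) - w * μ * r (d - 2 - k))|
        ≤ ∑ k ∈ range (d - 1), |γ (k + 1) * μ ^ (k + 1) *
        (r (d - 1 - k) - w * μ * r (d - 2 - k))| := abs_sum_le_sum_abs _ _
      _ ≤ ∑ k ∈ range (d - 1), 2 ^ d * (μ * r (d - 1)) *
            (C * (4 / w) * (4 / w) ^ k + ε * (2 / w) * (2 / w) ^ k) := by
          refine sum_le_sum fun k hk => ?_
          have hk' := mem_range.1 hk
          have hk2 : d - 1 - k = (d - 2 - k) + 1 := by omega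
          have g1 := hB (d - 2 - k) (by omega)
          rw [← hk2, show d - 1 - (d - 2 - k) = k + 1 by omega] at g1
          have r1 := hr (d - 2 - k) (by omega)
          rw [abs_mul, abs_mul, abs_of_nonneg (pow_nonneg hμ0.le _)]
          have h1 := term_le hw0 hμ0 hg (n := k + 1) (j := d - 2 - k) (by omega)
          have h5 := hγ (k + 1) (by omega)
          have e4 : (4 / w) ^ (k + 1) = 2 ^ (k + 1) * (2 / w) ^ (k + 1) := by
            rw [← mul_pow]; congr 1; ring
          calc |γ (k + 1)| * μ ^ (k + 1) * |r (d - 1 - k) - w * μ * r (d - 2 - k)|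
              ≤ 2 ^ d * μ ^ (k + 1) * ((C * 2 ^ (k + 1) + ε) * (μ * r (d - 2 - k))) := by gcongr
            _ = 2 ^ d * (C * 2 ^ (k + 1) + ε) * μ * (μ ^ (k + 1) * r (d - 2 - k)) := by ring
            _ ≤ 2 ^ d * (C * 2 ^ (k + 1) + ε) * μ * ((2 / w) ^ (k + 1) * r (d - 1)) := by
                apply mul_le_mul_of_nonneg_left h1
                positivity
            _ = 2 ^ d * (μ * r (d - 1)) *
                (C * (2 ^ (k + 1) * (2 / w) ^ (k + 1)) + ε * (2 / w) ^ (k + 1)) := by ring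
            _ = _ := by rw [← e4]; ring
      _ = 2 ^ d * (μ * r (d - 1)) * (C * (4 / w) * ∑ k ∈ range (d - 1), (4 / w) ^ k +
            ε * (2 / w) * ∑ k ∈ range (d - 1), (2 / w) ^ k) := by
          rw [mul_sum, mul_sum, ← sum_add_distrib, mul_sum]
      _ ≤ 2 ^ d * (μ * r (d - 1)) * (C * (4 / w) * 2 + ε * (2 / w) * 2) := by
          have q1 : 4 / w ≤ 1 / 2 := by
            rw [div_le_div_iff₀ hw0 (by norm_num)]; linarith
          have q2 : 2 / w ≤ 1 / 2 := by
            rw [div_le_div_iff₀ hw0 (by norm_num)]; linarith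
          have s1 := geom_sum_le (by positivity : 0 ≤ 4 / w) q1 (d - 1)
          have s2 := geom_sum_le (by positivity : 0 ≤ 2 / w) q2 (d - 1)
          gcongr
      _ = (μ * r (d - 1)) * (C * (8 * 2 ^ d / w) + ε * (4 * 2 ^ d / w)) := by
          field_simp
          ring
      _ ≤ (μ * r (d - 1)) * (C * (1 / 4) + ε * (1 / 8)) := by
          have q1 : 8 * 2 ^ d / w ≤ 1 / 4 := by
            rw [div_le_div_iff₀ hw0 (by norm_num)]; rw [h2d] at hw; linarith
          have q2 : 4 * 2 ^ d / w ≤ 1 / 8 := by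
            rw [div_le_div_iff₀ hw0 (by norm_num)]; rw [h2d] at hw; linarith
          gcongr
      _ = (C / 4 + ε / 8) * (μ * r (d - 1)) := by ring
  rw [abs_le] at e1 e2 ⊢
  constructor <;> linarith [e1.1, e1.2, e2.1, e2.2]

end BernAlg

end Pool.Agent.RSV
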