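import Pool.Agent.RSV.Dlib

/-!
# BITS1: floors, high and low parts, bits of elements of the integer part
-/

namespace Pool.Agent.RSV

universe u v

variable {U : Type u} {R : Type v} [CommSemiring U] [LinearOrder U] [IsStrictOrderedRing U]
  [CanonicallyOrderedAdd U] [Field R] [LinearOrder R] [IsStrictOrderedRing R]

namespace BIP

variable (B : BIP U R)

/-! ### order of the unary numbers -/

include B in
theorem lt_succ_iff' (x y : U) : x < y + 1 ↔ x ≤ y :=
  ⟨B.le_of_lt_succ x y, fun h => h.trans_lt (lt_add_one y)⟩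

include B in
theorem succ_le_iff' (x y : U) : x + 1 ≤ y ↔ x < y := by
  constructor
  · exact fun h => (lt_add_one x).trans_le h
  · intro h
    by_contra h'
    exact absurd (B.le_of_lt_succ y x (not_le.1 h')) (not_le.2 h)

include B in
theorem eq_zero_or_succ' (x : U) : x = 0 ∨ ∃ y, x = y + 1 := by
  rcases eq_zero_or_pos x with h | h
  · exact Or.inl h
  · have h1 := (B.succ_le_iff' 0 x).2 h
    rw [zero_add] at h1
    obtain ⟨c, hc⟩ := exists_add_of_le h1
    exact Or.inr ⟨c, by rw [hc, add_comm]⟩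

/-! ### powers of two -/

theorem e_le {u v : U} (h : u ≤ v) : B.e u ≤ B.e v := by
  rcases h.eq_or_lt with h | h
  · rw [h]
  · exact (B.e_lt u v h).le
theorem one_le_e (u : U) : 1 ≤ B.e u := by
  have := B.e_le (u := 0) (v := u) (by simp)
  rwa [B.e_zero] at this
theorem e_lt_iff {u v : U} : B.e u < B.e v ↔ u < v := by
  constructor
  · intro h
    by_contra h'
    exact absurd (B.e_le (not_lt.1 h')) (not_le.2 h)
  · exact B.e_lt u v
theorem e_le_iff {u v : U} : B.e u ≤ B.e v ↔ u ≤ v := by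
  rw [← not_lt, ← not_lt, B.e_lt_iff]
theorem e_succ (u : U) : B.e (u + 1) = 2 * B.e u := by
  rw [B.e_add, B.e_one, mul_comm]
theorem e_natCast (n : ℕ) : B.e (n : U) = 2 ^ n := by
  induction n with
  | zero => simp [B.e_zero]
  | succ n ih => rw [Nat.cast_succ, B.e_succ, ih, pow_succ, mul_comm]
theorem e_natCast_mul (n : ℕ) (u : U) : B.e ((n : U) * u) = B.e u ^ n := by
  induction n with
  | zero => simp [B.e_zero]
  | succ n ih => rw [Nat.cast_succ, add_mul, one_mul, B.e_add, ih, pow_succ]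
/-- `e J` exceeds every standard number for infinite `J` -/
theorem natCast_lt_e {J : U} (hJ : Inf J) (n : ℕ) : (n : R) < B.e J := by
  have h1 : (n : R) < 2 ^ n := by exact_mod_cast Nat.lt_two_pow_self
  rw [← B.e_natCast] at h1
  exact h1.trans (B.e_lt _ _ (hJ n))

/-! ### the floor function -/

theorem fl_mem (x : R) : B.fl x ∈ B.Z := (B.exists_floor x).choose_spec.1
theorem fl_le (x : R) : B.fl x ≤ x := (B.exists_floor x).choose_spec.2.1
theorem lt_fl_add_one (x : R) : x < B.fl x + 1 := (B.exists_floor x).choose_spec.2.2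
theorem lt_of_mem {x y : R} (hx : x ∈ B.Z) (hy : y ∈ B.Z) : x < y ↔ x + 1 ≤ y := by
  constructor
  · intro h
    have := B.discrete (y - x) (sub_mem hy hx) (sub_pos.2 h)
    linarith
  · intro h
    linarith
theorem le_of_mem_lt {x y : R} (hx : x ∈ B.Z) (hy : y ∈ B.Z) (h : x < y + 1) : x ≤ y := by
  by_contra h'
  have := (B.lt_of_mem hy hx).1 (not_le.1 h')
  linarith
theorem fl_eq {x z : R} (hz : z ∈ B.Z) (h1 : z ≤ x) (h2 : x < z + 1) : B.fl x = z := by
  apply le_antisymm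
  · exact B.le_of_mem_lt (B.fl_mem x) hz ((B.fl_le x).trans_lt h2)
  · exact B.le_of_mem_lt hz (B.fl_mem x) (h1.trans_lt (B.lt_fl_add_one x))
theorem fl_nonneg {x : R} (hx : 0 ≤ x) : 0 ≤ B.fl x :=
  B.le_of_mem_lt (zero_mem _) (B.fl_mem x) (hx.trans_lt (B.lt_fl_add_one x))
theorem fl_of_mem {z : R} (hz : z ∈ B.Z) : B.fl z = z := B.fl_eq hz le_rfl (by linarith)
theorem fl_mono {x y : R} (h : x ≤ y) : B.fl x ≤ B.fl y :=
  B.le_of_mem_lt (B.fl_mem x) (B.fl_mem y) (((B.fl_le x).trans h).trans_lt (B.lt_fl_add_one y))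
theorem fl_add_mem {x z : R} (hz : z ∈ B.Z) : B.fl (x + z) = B.fl x + z :=
  B.fl_eq (add_mem (B.fl_mem x) hz) (by linarith [B.fl_le x]) (by linarith [B.lt_fl_add_one x])
theorem fl_fl_div {x z : R} (hz : z ∈ B.Z) (h0 : 0 < z) : B.fl (B.fl x / z) = B.fl (x / z) := by
  have h1 := B.fl_le (x / z)
  have h2 := B.lt_fl_add_one (x / z)
  rw [le_div_iff₀ h0] at h1
  rw [div_lt_iff₀ h0] at h2
  apply B.fl_eq (B.fl_mem _)
  · rw [le_div_iff₀ h0]
    exact B.le_of_mem_lt (mul_mem (B.fl_mem _) hz) (B.fl_mem x)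
      (h1.trans_lt (B.lt_fl_add_one x))
  · rw [div_lt_iff₀ h0]
    exact (B.fl_le x).trans_lt h2
theorem natCast_mem (n : ℕ) : (n : R) ∈ B.Z := by simp

/-- every element of `R` is bounded by some power of two -/
theorem exists_lt_e (x : R) : ∃ u : U, x < B.e u := by
  rcases le_or_gt (B.fl x) 0 with h | h
  · exact ⟨1, by rw [B.e_one]; linarith [B.lt_fl_add_one x]⟩
  · obtain ⟨u, h1, h2⟩ := B.exists_len _ (B.fl_mem x) h
    have := (B.lt_of_mem (B.fl_mem x) (B.e_mem _)).1 h2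
    exact ⟨u + 1, (B.lt_fl_add_one x).trans_le this⟩
/-- every nonzero element of `R` is bounded below -/
theorem exists_inv_e_le {x : R} (hx : x ≠ 0) : ∃ u : U, 1 / B.e u ≤ |x| := by
  obtain ⟨u, hu⟩ := B.exists_lt_e (1 / |x|)
  have hx' : 0 < |x| := abs_pos.2 hx
  refine ⟨u, ?_⟩
  rw [div_le_iff₀ (B.e_pos u)]
  rw [div_lt_iff₀ hx'] at hu
  linarith [mul_comm (B.e u) |x|]

/-! ### high and low parts -/

/-- `⌊z / 2 ^ u⌋` -/
noncomputable def hi (z : R) (u : U) : R := B.fl (z / B.e u)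
/-- `z mod 2 ^ u` -/
noncomputable def lo (z : R) (u : U) : R := z - B.e u * B.hi z u
/-- the window of `z` at position `a` of width `w` -/
noncomputable def win (z : R) (a w : U) : R := B.lo (B.hi z a) w

variable {B}

theorem hi_mem (z : R) (u : U) : B.hi z u ∈ B.Z := B.fl_mem _
theorem lo_mem {z : R} (hz : z ∈ B.Z) (u : U) : B.lo z u ∈ B.Z :=
  sub_mem hz (mul_mem (B.e_mem u) (hi_mem z u))
theorem win_mem (z : R) (a w : U) : B.win z a w ∈ B.Z := lo_mem (hi_mem z a) w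
theorem hi_nonneg {z : R} (hz : 0 ≤ z) (u : U) : 0 ≤ B.hi z u :=
  B.fl_nonneg (div_nonneg hz (B.e_pos u).le)
theorem lo_nonneg (z : R) (u : U) : 0 ≤ B.lo z u := by
  have := B.fl_le (z / B.e u)
  rw [le_div_iff₀ (B.e_pos u)] at this
  unfold lo hi
  linarith
theorem lo_lt (z : R) (u : U) : B.lo z u < B.e u := by
  have := B.lt_fl_add_one (z / B.e u)
  rw [div_lt_iff₀ (B.e_pos u)] at this
  unfold lo hi
  linarith
theorem win_nonneg (z : R) (a w : U) : 0 ≤ B.win z a w := lo_nonneg _ _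
theorem win_lt (z : R) (a w : U) : B.win z a w < B.e w := lo_lt _ _
theorem hi_add_lo (z : R) (u : U) : B.e u * B.hi z u + B.lo z u = z := by
  unfold lo
  ring
theorem hi_eq {z q r : R} {u : U} (hq : q ∈ B.Z) (hz : z = B.e u * q + r) (h0 : 0 ≤ r)
    (h1 : r < B.e u) : B.hi z u = q := by
  have := B.e_pos u
  apply B.fl_eq hq
  · rw [le_div_iff₀ this]
    linarith
  · rw [div_lt_iff₀ this]
    linarith
theorem lo_eq {z q r : R} {u : U} (hq : q ∈ B.Z) (hz : z = B.e u * q + r) (h0 : 0 ≤ r)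
    (h1 : r < B.e u) : B.lo z u = r := by
  unfold lo
  rw [hi_eq hq hz h0 h1]
  linarith
theorem hi_zero (z : R) (hz : z ∈ B.Z) : B.hi z 0 = z := by
  unfold hi
  rw [B.e_zero, div_one, B.fl_of_mem hz]
theorem hi_hi (z : R) (u w : U) : B.hi (B.hi z u) w = B.hi z (u + w) := by
  unfold hi
  rw [B.fl_fl_div (B.e_mem w) (B.e_pos w), div_div, B.e_add]
theorem hi_of_lt {z : R} (h0 : 0 ≤ z) {u : U} (h : z < B.e u) : B.hi z u = 0 :=
  hi_eq (zero_mem _) (by ring) h0 h
theorem lo_of_lt {z : R} (h0 : 0 ≤ z) {u : U} (h : z < B.e u) : B.lo z u = z :=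
  lo_eq (q := 0) (zero_mem _) (by ring) h0 h
/-- the windows of a number: `z = e (a + w) * hi + e a * win + lo` -/
theorem win_eq {z q d r : R} {a w : U} (hq : q ∈ B.Z) (hd : d ∈ B.Z)
    (hz : z = B.e (a + w) * q + B.e a * d + r) (h0 : 0 ≤ r) (h1 : r < B.e a) (h2 : 0 ≤ d)
    (h3 : d < B.e w) : B.win z a w = d := by
  have h4 : B.hi z a = B.e w * q + d := by
    apply hi_eq (add_mem (mul_mem (B.e_mem w) hq) hd) _ h0 h1
    rw [hz, B.e_add]
    ring
  unfold win
  exact lo_eq hq h4 h2 h3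
/-- the windows of a nonnegative number exist -/
theorem win_decomp (z : R) (a w : U) :
    z = B.e (a + w) * B.hi z (a + w) + B.e a * B.win z a w + B.lo z a := by
  have h1 := hi_add_lo (B := B) z a
  have h2 := hi_add_lo (B := B) (B.hi z a) w
  rw [hi_hi] at h2
  rw [B.e_add]
  unfold win
  calc z = B.e a * B.hi z a + B.lo z a := h1.symm
    _ = B.e a * (B.e w * B.hi z (a + w) + B.lo (B.hi z a) w) + B.lo z a := by rw [h2]
    _ = _ := by ring

theorem hi_add_mul (z : R) {m : R} (hm : m ∈ B.Z) (u : U) :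
    B.hi (z + B.e u * m) u = B.hi z u + m := by
  have h1 := hi_add_lo (B := B) z u
  apply hi_eq (add_mem (hi_mem z u) hm) _ (lo_nonneg z u) (lo_lt z u)
  linarith

/-! ### bits -/

theorem even_or_odd {z : R} (hz : z ∈ B.Z) : (∃ q ∈ B.Z, z = 2 * q) ∨ ∃ q ∈ B.Z, z = 2 * q + 1 := by
  have h1 := B.fl_le (z / 2)
  have h2 := B.lt_fl_add_one (z / 2)
  have hq := B.fl_mem (z / 2)
  set q := B.fl (z / 2) with hqdef
  have h3 : 2 * q ≤ z := by linarith
  have h4 : z < 2 * q + 1 + 1 := by linarith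
  have h2q : 2 * q ∈ B.Z := by
    have := add_mem hq hq
    rwa [← two_mul] at this
  rcases eq_or_lt_of_le h3 with h | h
  · exact Or.inl ⟨q, hq, h.symm⟩
  · refine Or.inr ⟨q, hq, le_antisymm ?_ ?_⟩
    · exact B.le_of_mem_lt hz (add_mem h2q (one_mem _)) h4
    · exact (B.lt_of_mem h2q hz).1 h
theorem not_even_odd {p q : R} (hp : p ∈ B.Z) (hq : q ∈ B.Z) : 2 * p ≠ 2 * q + 1 := by
  intro h
  rcases lt_trichotomy p q with h' | h' | h'
  · linarith
  · rw [h'] at h
    linarith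
  · have := (B.lt_of_mem hq hp).1 h'
    linarith

theorem bit_iff (z : R) (u : U) : B.bit z u ↔ ∃ q ∈ B.Z, B.hi z u = 2 * q + 1 := by
  have he := B.e_pos u
  constructor
  · rintro ⟨q, hq, h1, h2⟩
    refine ⟨q, hq, ?_⟩
    have h2q : 2 * q + 1 ∈ B.Z := by
      have := add_mem (add_mem hq hq) (one_mem _)
      rwa [← two_mul] at this
    apply B.fl_eq h2q
    · rw [le_div_iff₀ he]
      linarith
    · rw [div_lt_iff₀ he]
      linarith
  · rintro ⟨q, hq, h⟩
    have h1 := B.fl_le (z / B.e u)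
    have h2 := B.lt_fl_add_one (z / B.e u)
    unfold hi at h
    rw [h] at h1 h2
    rw [le_div_iff₀ he] at h1
    rw [div_lt_iff₀ he] at h2
    exact ⟨q, hq, by linarith, by linarith⟩
theorem not_bit_iff (z : R) (u : U) : ¬ B.bit z u ↔ ∃ q ∈ B.Z, B.hi z u = 2 * q := by
  rw [bit_iff]
  constructor
  · intro h
    rcases even_or_odd (hi_mem (B := B) z u) with h' | h'
    · exact h'
    · exact absurd h' h
  · rintro ⟨q, hq, h⟩ ⟨p, hp, h'⟩
    exact not_even_odd hq hp (h.symm.trans h')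
theorem bit_congr {x y : R} {u w : U} {m : R} (hm : m ∈ B.Z) (h : B.hi x u = B.hi y w + 2 * m) :
    B.bit x u ↔ B.bit y w := by
  rw [bit_iff, bit_iff]
  constructor
  · rintro ⟨q, hq, h'⟩
    exact ⟨q - m, sub_mem hq hm, by linarith⟩
  · rintro ⟨q, hq, h'⟩
    exact ⟨q + m, add_mem hq hm, by linarith⟩
theorem bit_hi (z : R) (u k : U) : B.bit (B.hi z u) k ↔ B.bit z (u + k) := by
  rw [bit_iff, bit_iff, hi_hi]
theorem not_bit_of_lt {z : R} (h0 : 0 ≤ z) {u k : U} (h : z < B.e u) (hk : u ≤ k) :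
    ¬ B.bit z k := by
  rw [not_bit_iff]
  exact ⟨0, zero_mem _, by rw [hi_of_lt h0 (h.trans_le (B.e_le hk)), mul_zero]⟩
theorem bit_lo {z : R} (u k : U) : B.bit (B.lo z u) k ↔ k < u ∧ B.bit z k := by
  rcases lt_or_ge k u with h | h
  · obtain ⟨c, hc⟩ := exists_add_of_le ((B.succ_le_iff' k u).2 h)
    have h1 : B.hi z k = B.hi (B.lo z u) k + 2 * (B.e c * B.hi z u) := by
      have h2 : z = B.lo z u + B.e k * (2 * (B.e c * B.hi z u)) := by
        have h3 := hi_add_lo (B := B) z u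
        have h4 : B.e u = B.e k * (2 * B.e c) := by
          rw [hc, B.e_add, B.e_succ]
          ring
        rw [h4] at h3
        linarith
      have hm : 2 * (B.e c * B.hi z u) ∈ B.Z := by
        have := mul_mem (B.e_mem c) (hi_mem (B := B) z u)
        have h5 := add_mem this this
        rwa [← two_mul] at h5
      conv_lhs => rw [h2]
      exact hi_add_mul _ hm k
    rw [bit_congr (mul_mem (B.e_mem c) (hi_mem (B := B) z u)) h1]
    simp [h]
  · constructor
    · intro h'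
      exact absurd h' (not_bit_of_lt (lo_nonneg z u) (lo_lt z u) h)
    · rintro ⟨h', -⟩
      exact absurd h' (not_lt.2 h)
theorem bit_win {z : R} (a w k : U) : B.bit (B.win z a w) k ↔ k < w ∧ B.bit z (a + k) := by
  unfold win
  rw [bit_lo, bit_hi]
theorem bit_mul_e_add {z : R} (hz : z ∈ B.Z) (u k : U) : B.bit (z * B.e u) (u + k) ↔ B.bit z k := by
  rw [← bit_hi]
  have : B.hi (z * B.e u) u = z := hi_eq hz (by ring) le_rfl (B.e_pos u)
  rw [this]
theorem not_bit_mul_e {z : R} (hz : z ∈ B.Z) {u k : U} (h : k < u) : ¬ B.bit (z * B.e u) k := by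
  obtain ⟨c, hc⟩ := exists_add_of_le ((B.succ_le_iff' k u).2 h)
  rw [not_bit_iff]
  have hm := mul_mem (B.e_mem c) hz
  refine ⟨_, hm, ?_⟩
  refine hi_eq (r := 0) ?_ ?_ le_rfl (B.e_pos k)
  · have h5 := add_mem hm hm
    rwa [← two_mul] at h5
  · rw [hc, B.e_add, B.e_succ]
    ring
theorem not_bit_zero (k : U) : ¬ B.bit (0 : R) k := by
  rw [not_bit_iff]
  exact ⟨0, zero_mem _, by rw [hi_of_lt le_rfl (B.e_pos k), mul_zero]⟩
theorem bit_top {z : R} {u : U} (h1 : B.e u ≤ z) (h2 : z < B.e (u + 1)) : B.bit z u := by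
  rw [bit_iff]
  refine ⟨0, zero_mem _, ?_⟩
  rw [mul_zero, zero_add]
  rw [B.e_succ] at h2
  exact hi_eq (r := z - B.e u) (one_mem _) (by ring) (by linarith) (by linarith)
theorem bit_e (u k : U) : B.bit (B.e u) k ↔ k = u := by
  constructor
  · intro h
    rcases lt_trichotomy k u with h' | h' | h'
    · have := not_bit_mul_e (B := B) (one_mem _) h'
      rw [one_mul] at this
      exact absurd h this
    · exact h'
    · exact absurd h (not_bit_of_lt (B.e_pos u).le (B.e_lt _ _ h') le_rfl)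
  · rintro rfl
    exact bit_top le_rfl (B.e_lt _ _ (by simp))
theorem lt_e_iff_bits {z : R} (hz : z ∈ B.Z) (h0 : 0 ≤ z) (u : U) :
    z < B.e u ↔ ∀ k, u ≤ k → ¬ B.bit z k := by
  constructor
  · intro h k hk
    exact not_bit_of_lt h0 h hk
  · intro h
    by_contra h'
    have h1 := not_lt.1 h'
    obtain ⟨k, hk1, hk2⟩ := B.exists_len z hz ((B.e_pos u).trans_le h1)
    have h2 : u ≤ k := by
      have := (B.e_lt_iff).1 (h1.trans_lt hk2)
      exact (B.lt_succ_iff' u k).1 this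
    exact h k h2 (bit_top hk1 hk2)
theorem ext_lt {x y : R} (hx : x ∈ B.Z) (hy : y ∈ B.Z) (hx0 : 0 ≤ x) (hy0 : 0 ≤ y) {K : U}
    (hxK : x < B.e K) (hyK : y < B.e K) (h : ∀ u, u < K → (B.bit x u ↔ B.bit y u)) : x = y := by
  apply B.ext x hx y hy hx0 hy0
  intro u
  rcases lt_or_ge u K with hu | hu
  · exact h u hu
  · exact iff_of_false (not_bit_of_lt hx0 hxK hu) (not_bit_of_lt hy0 hyK hu)
theorem bit_natCast (n j : ℕ) : B.bit (n : R) (j : U) ↔ n.testBit j = true := by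
  have h1 : B.hi (n : R) (j : U) = ((n / 2 ^ j : ℕ) : R) := by
    refine hi_eq (r := ((n % 2 ^ j : ℕ) : R)) (B.natCast_mem _) ?_ (Nat.cast_nonneg _) ?_
    · rw [B.e_natCast]
      exact_mod_cast (Nat.div_add_mod n (2 ^ j)).symm
    · rw [B.e_natCast]
      exact_mod_cast Nat.mod_lt _ (by positivity)
  rw [Nat.testBit_eq_decide_div_mod_eq, decide_eq_true_iff]
  constructor
  · intro h
    by_contra h'
    have h2 : n / 2 ^ j % 2 = 0 := by omega
    apply absurd h
    rw [not_bit_iff]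
    refine ⟨((n / 2 ^ j / 2 : ℕ) : R), B.natCast_mem _, ?_⟩
    rw [h1]
    have : n / 2 ^ j = 2 * (n / 2 ^ j / 2) := by omega
    exact_mod_cast this
  · intro h
    rw [bit_iff]
    refine ⟨((n / 2 ^ j / 2 : ℕ) : R), B.natCast_mem _, ?_⟩
    rw [h1]
    have : n / 2 ^ j = 2 * (n / 2 ^ j / 2) + 1 := by omega
    exact_mod_cast this
theorem not_bit_natCast (n : ℕ) {u : U} (h : (n : U) ≤ u) : ¬ B.bit (n : R) u := by
  refine not_bit_of_lt (u := (n : U)) (Nat.cast_nonneg _) ?_ h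
  rw [B.e_natCast]
  exact_mod_cast Nat.lt_two_pow_self

theorem hi_succ (z : R) (j : U) :
    (B.bit z j → B.hi z j = 2 * B.hi z (j + 1) + 1) ∧
      (¬ B.bit z j → B.hi z j = 2 * B.hi z (j + 1)) := by
  have h1 := hi_hi (B := B) z j 1
  constructor
  · intro h
    obtain ⟨q, hq, h'⟩ := (bit_iff z j).1 h
    have h2 : B.hi (B.hi z j) 1 = q :=
      hi_eq (r := 1) hq (by rw [h', B.e_one]) zero_le_one (by rw [B.e_one]; exact one_lt_two)
    rw [← h1, h2, h']
  · intro h
    obtain ⟨q, hq, h'⟩ := (not_bit_iff z j).1 h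
    have h2 : B.hi (B.hi z j) 1 = q :=
      hi_eq (r := 0) hq (by rw [h', B.e_one, add_zero]) le_rfl (by rw [B.e_one]; exact two_pos)
    rw [← h1, h2, h']

theorem lt_of_hi_lt {x y : R} {j : U} (h : B.hi x j < B.hi y j) : x < y := by
  by_contra h'
  have h1 : y / B.e j ≤ x / B.e j := div_le_div_of_nonneg_right (not_lt.1 h') (B.e_pos j).le
  exact absurd (B.fl_mono h1) (not_le.2 h)

theorem lt_of_bits {x y : R} (hx0 : 0 ≤ x) (hy0 : 0 ≤ y) {j : U} (h1 : ¬ B.bit x j)
    (h2 : B.bit y j) (h3 : ∀ k, j < k → (B.bit x k ↔ B.bit y k)) : x < y := by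
  have h4 : B.hi x (j + 1) = B.hi y (j + 1) := by
    apply B.ext _ (hi_mem _ _) _ (hi_mem _ _) (hi_nonneg hx0 _) (hi_nonneg hy0 _)
    intro k
    have := h3 (j + 1 + k) (lt_of_lt_of_le (by simp) (le_self_add : j + 1 ≤ j + 1 + k))
    have e1 := bit_hi (B := B) x (j + 1) k
    have e2 := bit_hi (B := B) y (j + 1) k
    exact (e1.trans this).trans e2.symm
  apply lt_of_hi_lt (B := B) (j := j)
  rw [(hi_succ x j).2 h1, (hi_succ y j).1 h2, h4]
  linarith

/-- comparison by bits -/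
theorem lt_iff_bits {x y : R} (hx : x ∈ B.Z) (hy : y ∈ B.Z) (hx0 : 0 ≤ x) (hy0 : 0 ≤ y) :
    x < y ↔ ∃ j, ¬ B.bit x j ∧ B.bit y j ∧ ∀ k, j < k → (B.bit x k ↔ B.bit y k) := by
  constructor
  · intro hxy
    obtain ⟨K, hK⟩ := B.exists_lt_e y
    have hxK := hxy.trans hK
    -- the least position from which on the bits agree
    have hP : B.D1 (fun j => ∀ k, k < K → (j ≤ k → (B.bit x k ↔ B.bit y k))) := by
      refine D.all_lt (P := fun k v => v 0 ≤ k → (B.bit x k ↔ B.bit y k)) (F.const K) ?_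
      exact D.imp (D.le (F.var 1) (F.var 0))
        (D.iff (D.bit hx hx0 (F.var 0)) (D.bit hy hy0 (F.var 0)))
    obtain ⟨j, hj, hjmin⟩ := B.least hP (x := K) (fun k hk hk' => absurd hk (not_lt.2 hk'))
    have hagree : ∀ k, j ≤ k → (B.bit x k ↔ B.bit y k) := by
      intro k hk
      rcases lt_or_ge k K with h | h
      · exact hj k h hk
      · exact iff_of_false (not_bit_of_lt hx0 hxK h) (not_bit_of_lt hy0 hK h)
    rcases B.eq_zero_or_succ' j with h0 | ⟨i, hi⟩
    · exfalso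
      subst h0
      exact hxy.ne (B.ext x hx y hy hx0 hy0 fun u => hagree u (by simp))
    · have hij : i < j := by rw [hi]; simp
      have hagree' : ∀ k, i < k → (B.bit x k ↔ B.bit y k) := by
        intro k hk
        apply hagree k
        rw [hi]
        exact (B.succ_le_iff' i k).2 hk
      have hne : ¬ (B.bit x i ↔ B.bit y i) := by
        intro h
        apply hjmin i hij
        intro k hk hik
        rcases hik.eq_or_lt with h' | h'
        · rw [← h']
          exact h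
        · exact hagree' k h'
      by_cases hxi : B.bit x i
      · exfalso
        have hyi : ¬ B.bit y i := fun h => hne (iff_of_true hxi h)
        have := lt_of_bits hy0 hx0 hyi hxi (fun k hk => (hagree' k hk).symm)
        exact lt_asymm this hxy
      · have hyi : B.bit y i := by
          by_contra h
          exact hne (iff_of_false hxi h)
        exact ⟨i, hxi, hyi, hagree'⟩
  · rintro ⟨j, h1, h2, h3⟩
    exact lt_of_bits hx0 hy0 h1 h2 h3
/-- bits of a sum -/
theorem bit_add' {x y : R} (hx : x ∈ B.Z) (hy : y ∈ B.Z) (hx0 : 0 ≤ x) (hy0 : 0 ≤ y) (i : U) :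
    B.bit (x + y) i ↔ Xor (Xor (B.bit x i) (B.bit y i))
      (∃ k, k < i ∧ B.bit x k ∧ B.bit y k ∧ ∀ j, k < j → j < i → B.bit x j ∨ B.bit y j) :=
  B.bit_add x hx y hy hx0 hy0 i

/-- the carry -/
theorem carry_iff {x y : R} (hx : x ∈ B.Z) (hy : y ∈ B.Z) (i : U) :
    (∃ k, k < i ∧ B.bit x k ∧ B.bit y k ∧ ∀ j, k < j → j < i → B.bit x j ∨ B.bit y j) ↔
      B.e i ≤ B.lo x i + B.lo y i := by
  have h1 := bit_add' (B := B) (lo_mem hx i) (lo_mem hy i) (lo_nonneg x i) (lo_nonneg y i) i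
  have h2 : (∃ k, k < i ∧ B.bit (B.lo x i) k ∧ B.bit (B.lo y i) k ∧ ∀ j, k < j → j < i →
      B.bit (B.lo x i) j ∨ B.bit (B.lo y i) j) ↔
      (∃ k, k < i ∧ B.bit x k ∧ B.bit y k ∧ ∀ j, k < j → j < i → B.bit x j ∨ B.bit y j) := by
    constructor
    · rintro ⟨k, hk, ha, hb, hc⟩
      rw [bit_lo] at ha hb
      refine ⟨k, hk, ha.2, hb.2, fun j hj hji => ?_⟩
      have := hc j hj hji
      rw [bit_lo, bit_lo] at this
      exact this.imp (fun h => h.2) (fun h => h.2)
    · rintro ⟨k, hk, ha, hb, hc⟩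
      refine ⟨k, hk, (bit_lo i k).2 ⟨hk, ha⟩, (bit_lo i k).2 ⟨hk, hb⟩, fun j hj hji => ?_⟩
      exact (hc j hj hji).imp (fun h => (bit_lo i j).2 ⟨hji, h⟩) (fun h => (bit_lo i j).2 ⟨hji, h⟩)
  have h3 : ¬ B.bit (B.lo x i) i := not_bit_of_lt (lo_nonneg x i) (lo_lt x i) le_rfl
  have h4 : ¬ B.bit (B.lo y i) i := not_bit_of_lt (lo_nonneg y i) (lo_lt y i) le_rfl
  rw [h2] at h1
  have h5 : B.bit (B.lo x i + B.lo y i) i ↔ B.e i ≤ B.lo x i + B.lo y i := by
    constructor
    · intro h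
      by_contra h'
      exact not_bit_of_lt (add_nonneg (lo_nonneg x i) (lo_nonneg y i)) (not_le.1 h') le_rfl h
    · intro h
      apply bit_top h
      rw [B.e_succ]
      linarith [lo_lt (B := B) x i, lo_lt (B := B) y i]
  rw [← h5, h1]
  simp [Xor, h3, h4]

/-- the borrow -/
theorem borrow_iff {x y : R} (hx : x ∈ B.Z) (hy : y ∈ B.Z) (i : U) :
    (∃ k, k < i ∧ ¬ B.bit x k ∧ B.bit y k ∧ ∀ j, k < j → j < i → ¬ B.bit x j ∨ B.bit y j) ↔
      B.lo x i < B.lo y i := by
  have hlx := lo_mem (B := B) hx i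
  have hly := lo_mem (B := B) hy i
  constructor
  · rintro ⟨k, hk, ha, hb, hc⟩
    by_contra hcon
    rcases (not_lt.1 hcon).eq_or_lt with h | h
    · have h1 := (bit_lo (B := B) (z := y) i k).2 ⟨hk, hb⟩
      rw [h, bit_lo] at h1
      exact ha h1.2
    · obtain ⟨j, hj1, hj2, hj3⟩ := (lt_iff_bits hly hlx (lo_nonneg y i) (lo_nonneg x i)).1 h
      rw [bit_lo] at hj1 hj2
      rcases lt_trichotomy j k with h' | h' | h'
      · have := hj3 k h'
        rw [bit_lo, bit_lo] at this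
        exact ha (this.1 ⟨hk, hb⟩).2
      · subst h'
        exact ha hj2.2
      · rcases hc j h' hj2.1 with h'' | h''
        · exact h'' hj2.2
        · exact hj1 ⟨hj2.1, h''⟩
  · intro h
    obtain ⟨j, hj1, hj2, hj3⟩ := (lt_iff_bits hlx hly (lo_nonneg x i) (lo_nonneg y i)).1 h
    rw [bit_lo] at hj1 hj2
    refine ⟨j, hj2.1, fun h' => hj1 ⟨hj2.1, h'⟩, hj2.2, fun k hk hki => ?_⟩
    have := hj3 k hk
    rw [bit_lo, bit_lo] at this
    by_cases hb : B.bit y k
    · exact Or.inr hb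
    · exact Or.inl fun ha => hb (this.1 ⟨hki, ha⟩).2

/-- bits of a difference (borrow) -/
theorem bit_sub {x y : R} (hx : x ∈ B.Z) (hy : y ∈ B.Z) (hy0 : 0 ≤ y) (hxy : y ≤ x) (i : U) :
    B.bit (x - y) i ↔ Xor (Xor (B.bit x i) (B.bit y i))
      (∃ k, k < i ∧ ¬ B.bit x k ∧ B.bit y k ∧ ∀ j, k < j → j < i → ¬ B.bit x j ∨ B.bit y j) := by
  have hz : x - y ∈ B.Z := sub_mem hx hy
  have hz0 : 0 ≤ x - y := sub_nonneg.2 hxy
  have h1 := bit_add' (B := B) hz hy hz0 hy0 i
  rw [sub_add_cancel] at h1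
  rw [borrow_iff hx hy i]
  rw [carry_iff hz hy i] at h1
  have h2 : B.e i ≤ B.lo (x - y) i + B.lo y i ↔ B.lo x i < B.lo y i := by
    have e1 := hi_add_lo (B := B) (x - y) i
    have e2 := hi_add_lo (B := B) y i
    constructor
    · intro h
      have h3 : B.lo x i = B.lo (x - y) i + B.lo y i - B.e i := by
        refine lo_eq (q := B.hi (x - y) i + B.hi y i + 1)
          (add_mem (add_mem (hi_mem _ _) (hi_mem _ _)) (one_mem _)) ?_ (by linarith) ?_
        · linarith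
        · linarith [lo_lt (B := B) (x - y) i, lo_lt (B := B) y i]
      rw [h3]
      linarith [lo_lt (B := B) (x - y) i]
    · intro h
      by_contra h'
      have h3 : B.lo x i = B.lo (x - y) i + B.lo y i := by
        refine lo_eq (q := B.hi (x - y) i + B.hi y i) (add_mem (hi_mem _ _) (hi_mem _ _)) ?_
          (add_nonneg (lo_nonneg _ _) (lo_nonneg _ _)) (not_le.1 h')
        linarith
      rw [h3] at h
      linarith [lo_nonneg (B := B) (x - y) i]
  rw [h2] at h1
  by_cases c1 : B.lo x i < B.lo y i <;> by_cases c2 : B.bit x i <;> by_cases c3 : B.bit y i <;>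
    by_cases c4 : B.bit (x - y) i <;> simp [Xor, c1, c2, c3, c4] at h1 ⊢
/-- numbers with prescribed bits -/
theorem exists_bits {P : U → Prop} (hP : B.D1 P) (b : U) :
    ∃ z ∈ B.Z, 0 ≤ z ∧ z < B.e b ∧ ∀ u, B.bit z u ↔ u < b ∧ P u := by
  obtain ⟨z, hz, h0, h1, h2⟩ := B.comp' hP b
  refine ⟨z, hz, h0, h1, fun u => ?_⟩
  rcases lt_or_ge u b with h | h
  · rw [h2 u h]
    simp [h]
  · exact iff_of_false (not_bit_of_lt h0 h1 h) (fun h' => absurd h'.1 (not_lt.2 h))

end BIP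

end Pool.Agent.RSV
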