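import Mathlib

/-!
# The complexification of a real closed field: conjugation and absolute value
-/

namespace Pool.Agent.RSV

universe v

/-- Conjugation and absolute value on the complexification `C = R(i)`. -/
structure CxKit (R : Type v) [Field R] [LinearOrder R] [IsStrictOrderedRing R]
    (C : Type v) [Field C] [Algebra R C] where
  cj : C ≃ₐ[R] C
  nm : AbsoluteValue C R
  nm_real : ∀ r : R, nm (algebraMap R C r) = |r|
  nm_cj : ∀ z, nm (cj z) = nm z
  real_of_cj : ∀ z, cj z = z → ∃ r : R, algebraMap R C r = z
  mul_cj : ∀ z, z * cj z = algebraMap R C (nm z ^ 2)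

theorem exists_cxKit {R : Type v} [Field R] [LinearOrder R] [IsStrictOrderedRing R]
    [IsRealClosed R] {C : Type v} [Field C] [Algebra R C] (i : C) (hi : i ^ 2 = -1)
    (hu : ∀ z : C, ∃! p : R × R, z = algebraMap R C p.1 + algebraMap R C p.2 * i) :
    Nonempty (CxKit R C) := by
  classical
  choose f hf hf' using hu
  set re : C → R := fun z => (f z).1 with hre
  set im : C → R := fun z => (f z).2 with him
  have hz : ∀ z, z = algebraMap R C (re z) + algebraMap R C (im z) * i := hf
  have huniq : ∀ z a b, z = algebraMap R C a + algebraMap R C b * i → re z = a ∧ im z = b := by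
    intro z a b h
    have := hf' z (a, b) h
    constructor
    · simp only [hre]; rw [← this]
    · simp only [him]; rw [← this]
  have hinj : Function.Injective (algebraMap R C) := (algebraMap R C).injective
  have hii : i * i = -1 := by rw [← hi]; ring
  have hreal : ∀ r : R, re (algebraMap R C r) = r ∧ im (algebraMap R C r) = 0 := by
    intro r; apply huniq; simp
  have hadd : ∀ z w, re (z + w) = re z + re w ∧ im (z + w) = im z + im w := by
    intro z w
    apply huniq
    conv_lhs => rw [hz z, hz w]
    simp only [map_add]; ring
  have hmul : ∀ z w, re (z * w) = re z * re w - im z * im w ∧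
      im (z * w) = re z * im w + im z * re w := by
    intro z w
    apply huniq
    conv_lhs => rw [hz z, hz w]
    simp only [map_add, map_sub, map_mul]
    linear_combination (algebraMap R C (im z) * algebraMap R C (im w)) * hii
  set c : C → C := fun z => algebraMap R C (re z) - algebraMap R C (im z) * i with hc
  have hcc : ∀ z, re (c z) = re z ∧ im (c z) = - im z := by
    intro z; apply huniq; simp only [hc, map_neg]; ring
  have hc2 : ∀ z, c (c z) = z := by
    intro z
    have h1 := hcc z
    conv_rhs => rw [hz z]
    simp only [hc] at h1 ⊢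
    rw [h1.1, h1.2, map_neg]; ring
  have hcmul : ∀ z w, c (z * w) = c z * c w := by
    intro z w
    simp only [hc, (hmul z w).1, (hmul z w).2, map_add, map_sub, map_mul]
    linear_combination -(algebraMap R C (im z) * algebraMap R C (im w)) * hii
  have hcadd : ∀ z w, c (z + w) = c z + c w := by
    intro z w
    simp only [hc, (hadd z w).1, (hadd z w).2, map_add]
    ring
  have hcr : ∀ r : R, c (algebraMap R C r) = algebraMap R C r := by
    intro r
    simp [hc, (hreal r).1, (hreal r).2]
  let cj : C ≃ₐ[R] C :=
    { toFun := c
      invFun := c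
      left_inv := hc2
      right_inv := hc2
      map_mul' := hcmul
      map_add' := hcadd
      commutes' := hcr }
  have hsq : ∀ z : C, ∃ s : R, 0 ≤ s ∧ s ^ 2 = re z ^ 2 + im z ^ 2 := by
    intro z
    obtain ⟨r, hr⟩ := IsRealClosed.exists_eq_pow_of_nonneg (x := re z ^ 2 + im z ^ 2)
      (by positivity) (n := 2) (by norm_num)
    exact ⟨|r|, abs_nonneg r, by rw [sq_abs, hr]⟩
  choose n hn0 hn using hsq
  have heq : ∀ a b : R, 0 ≤ a → 0 ≤ b → a ^ 2 = b ^ 2 → a = b := fun a b ha hb h =>
    (sq_eq_sq₀ ha hb).1 h
  have hle : ∀ a b : R, 0 ≤ b → a ^ 2 ≤ b ^ 2 → a ≤ b := by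
    intro a b hb h
    by_contra hlt
    push Not at hlt
    nlinarith
  let nm : AbsoluteValue C R :=
    { toFun := n
      map_mul' := by
        intro z w
        apply heq _ _ (hn0 _) (mul_nonneg (hn0 _) (hn0 _))
        rw [mul_pow, hn, hn, hn, (hmul z w).1, (hmul z w).2]; ring
      nonneg' := hn0
      eq_zero' := by
        intro z
        constructor
        · intro h
          have h1 := hn z
          rw [h] at h1
          have h2 : re z = 0 ∧ im z = 0 := by
            constructor <;> nlinarith [sq_nonneg (re z), sq_nonneg (im z)]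
          rw [hz z, h2.1, h2.2]; simp
        · rintro rfl
          have h0 := hreal 0
          rw [map_zero] at h0
          apply heq _ _ (hn0 _) le_rfl
          rw [hn, h0.1, h0.2]; ring
      add_le' := by
        intro z w
        have h1 := hn z
        have h2 := hn w
        have h3 := hn (z + w)
        rw [(hadd z w).1, (hadd z w).2] at h3
        have h4 : (re z * re w + im z * im w) ≤ n z * n w := by
          apply hle _ _ (mul_nonneg (hn0 _) (hn0 _))
          rw [mul_pow, h1, h2]
          nlinarith [sq_nonneg (re z * im w - im z * re w)]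
        apply hle _ _ (add_nonneg (hn0 _) (hn0 _))
        rw [h3]; nlinarith }
  refine ⟨⟨cj, nm, ?_, ?_, ?_, ?_⟩⟩
  · intro r
    change n (algebraMap R C r) = |r|
    apply heq _ _ (hn0 _) (abs_nonneg _)
    rw [hn, (hreal r).1, (hreal r).2, sq_abs]; ring
  · intro z
    change n (c z) = n z
    apply heq _ _ (hn0 _) (hn0 _)
    rw [hn, hn, (hcc z).1, (hcc z).2]; ring
  · intro z h
    change c z = z at h
    have h1 := (hcc z).2
    rw [h] at h1
    have h2 : im z = 0 := by linarith
    refine ⟨re z, ?_⟩
    conv_rhs => rw [hz z]
    rw [h2]; simp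
  · intro z
    change z * c z = algebraMap R C (n z ^ 2)
    rw [hn]
    conv_lhs => rw [hz z]
    have h1 := hcc z
    simp only [map_add, map_pow]
    simp only [hc]
    have h5 : re (algebraMap R C (re z) + algebraMap R C (im z) * i) = re z := by rw [← hz z]
    have h6 : im (algebraMap R C (re z) + algebraMap R C (im z) * i) = im z := by rw [← hz z]
    rw [h5, h6]
    linear_combination -(algebraMap R C (im z)) ^ 2 * hii

end Pool.Agent.RSV
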