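import Pool.Agent.RSV.Bits

/-!
# CdBasic: introduction rule for internally approximable families
-/

namespace Pool.Agent.RSV

universe u v

variable {U : Type u} {R : Type v} [CommSemiring U] [LinearOrder U] [IsStrictOrderedRing U]
  [CanonicallyOrderedAdd U] [Field R] [LinearOrder R] [IsStrictOrderedRing R]

namespace BIP

variable {B : BIP U R} {A : Set U} {x y : U → R}

theorem Cd.mono {A' : Set U} (h : B.Cd A x) (hA : A' ⊆ A) : B.Cd A' x := by
  obtain ⟨⟨b, hb⟩, h2⟩ := h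
  refine ⟨⟨b, fun i hi => hb i (hA hi)⟩, fun N => ?_⟩
  obtain ⟨J, hJ, K, P, Q, hP, hQ, h3⟩ := h2 N
  exact ⟨J, hJ, K, P, Q, hP, hQ, fun i hi => h3 i (hA hi)⟩

theorem Cd.congr (h : B.Cd A x) (hxy : ∀ i ∈ A, x i = y i) : B.Cd A y := by
  obtain ⟨⟨b, hb⟩, h2⟩ := h
  refine ⟨⟨b, fun i hi => hxy i hi ▸ hb i hi⟩, fun N => ?_⟩
  obtain ⟨J, hJ, K, P, Q, hP, hQ, h3⟩ := h2 N
  exact ⟨J, hJ, K, P, Q, hP, hQ, fun i hi => hxy i hi ▸ h3 i hi⟩

theorem F1.const (c : U) : B.F1 (fun _ => c) := F.const c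

/-- rounding of a nonnegative integer -/
lemma round_hi {z : R} (c : U) (_h0 : 0 ≤ z) :
    |z / B.e (c + 1) - B.hi (z + B.e c) (c + 1)| ≤ 1 / 2 := by
  have h1 := hi_add_lo (B := B) (z + B.e c) (c + 1)
  have h2 := lo_nonneg (B := B) (z + B.e c) (c + 1)
  have h3 := lo_lt (B := B) (z + B.e c) (c + 1)
  have h4 := B.e_pos (c + 1)
  have h5 := B.e_succ c
  have h6 := B.e_pos c
  have h7 : z / B.e (c + 1) - B.hi (z + B.e c) (c + 1) =
      (B.lo (z + B.e c) (c + 1) - B.e c) / B.e (c + 1) := by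
    field_simp
    linarith
  rw [h7, abs_le]
  constructor
  · rw [le_div_iff₀ h4]; linarith
  · rw [div_le_iff₀ h4]; linarith

/-- Introduction rule: approximations with arbitrary denominators. -/
theorem Cd.intro' (hb : ∃ b : U, ∀ i ∈ A, |x i| ≤ B.e b)
    (h : ∀ N : U, ∃ J : U, Inf J ∧ ∃ (N₂ K : U) (P Q : U → R), B.NF K P ∧ B.NF K Q ∧
      ∀ i ∈ A, i < J → |x i - (P i - Q i) / B.e N₂| ≤ 1 / B.e N) : B.Cd A x := by
  refine ⟨hb, fun N => ?_⟩
  obtain ⟨J, hJ, N₂, K, P, Q, hP, hQ, h1⟩ := h (N + 1)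
  have s1 := hP.shift (a := fun _ => N + 1) (L := N + 1) (F1.const _) (fun _ => le_rfl)
  have s2 := hQ.shift (a := fun _ => N + 1) (L := N + 1) (F1.const _) (fun _ => le_rfl)
  have t1 := s1.tsub s2
  have t2 := s2.tsub s1
  set L := K + (N + 1) + (N₂ + 1) with hL
  have c1 : B.NF L (fun _ => B.e N₂) := NF.const (B.e_mem _) (B.e_pos _).le
    (lt_of_lt_of_le (B.e_lt _ _ (by
      have := IsStrictOrderedRing.toIsOrderedRing (R := U)
      exact lt_of_lt_of_le ((B.lt_succ_iff N₂ N₂).2 le_rfl) (le_add_self))) le_rfl)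
  have t1' := (t1.mono (le_self_add : K + (N + 1) ≤ L)).add c1
  have t2' := (t2.mono (le_self_add : K + (N + 1) ≤ L)).add c1
  refine ⟨J, hJ, L + 1, _, _, t1'.hi (a := fun _ => N₂ + 1) (F1.const _),
    t2'.hi (a := fun _ => N₂ + 1) (F1.const _), fun i hi hiJ => ?_⟩
  have h2 := h1 i hi hiJ

  set p := P i * B.e (N + 1) with hp
  set q := Q i * B.e (N + 1) with hq
  have eN := B.e_pos N
  have eN2 := B.e_pos N₂
  have r1 := round_hi (B := B) N₂ (le_max_right (p - q) 0)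
  have r2 := round_hi (B := B) N₂ (le_max_right (q - p) 0)
  -- the real number
  have key : (P i - Q i) / B.e N₂ =
      (max (p - q) 0 / B.e (N₂ + 1) - max (q - p) 0 / B.e (N₂ + 1)) / B.e N := by
    have : max (p - q) 0 - max (q - p) 0 = p - q := by
      rcases le_total p q with h | h
      · rw [max_eq_right (by linarith), max_eq_left (by linarith)]; ring
      · rw [max_eq_left (by linarith), max_eq_right (by linarith)]; ring
    rw [← sub_div, this, hp, hq, B.e_succ, B.e_succ]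
    field_simp
  have one_zero : ∀ a : R, a = 0 → B.hi (a + B.e N₂) (N₂ + 1) = 0 := by
    intro a ha
    rw [ha, zero_add]
    exact hi_of_lt (B.e_pos _).le (B.e_lt _ _ ((B.lt_succ_iff N₂ N₂).2 le_rfl))
  have err : |(max (p - q) 0 / B.e (N₂ + 1) - max (q - p) 0 / B.e (N₂ + 1)) -
      (B.hi (max (p - q) 0 + B.e N₂) (N₂ + 1) - B.hi (max (q - p) 0 + B.e N₂) (N₂ + 1))| ≤ 1 / 2 := by
    rcases le_total p q with h | h
    · have h0 : max (p - q) 0 = 0 := max_eq_right (by linarith)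
      rw [one_zero _ h0, h0, zero_div]
      rw [show (0 - max (q - p) 0 / B.e (N₂ + 1) - (0 - B.hi (max (q - p) 0 + B.e N₂) (N₂ + 1))) =
        -(max (q - p) 0 / B.e (N₂ + 1) - B.hi (max (q - p) 0 + B.e N₂) (N₂ + 1)) by ring, abs_neg]
      exact r2
    · have h0 : max (q - p) 0 = 0 := max_eq_right (by linarith)
      rw [one_zero _ h0, h0, zero_div, sub_zero, sub_zero]
      exact r1
  rw [key] at h2
  have e3 : |(max (p - q) 0 / B.e (N₂ + 1) - max (q - p) 0 / B.e (N₂ + 1)) / B.e N -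
      (B.hi (max (p - q) 0 + B.e N₂) (N₂ + 1) - B.hi (max (q - p) 0 + B.e N₂) (N₂ + 1)) / B.e N| ≤
      1 / 2 / B.e N := by
    rw [← sub_div, abs_div, abs_of_pos eN]
    gcongr
  have e4 : 1 / B.e (N + 1) = 1 / 2 / B.e N := by
    rw [B.e_succ]; field_simp
  rw [e4] at h2
  have e5 : 1 / B.e N = 1 / 2 / B.e N + 1 / 2 / B.e N := by field_simp; norm_num
  rw [e5]
  calc _ = |(x i - (max (p - q) 0 / B.e (N₂ + 1) - max (q - p) 0 / B.e (N₂ + 1)) / B.e N) +
      ((max (p - q) 0 / B.e (N₂ + 1) - max (q - p) 0 / B.e (N₂ + 1)) / B.e N -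
      (B.hi (max (p - q) 0 + B.e N₂) (N₂ + 1) - B.hi (max (q - p) 0 + B.e N₂) (N₂ + 1)) / B.e N)| := by
        congr 1; ring
    _ ≤ _ := (abs_add_le _ _).trans (add_le_add h2 e3)

end BIP

end Pool.Agent.RSV
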