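import Pool.Agent.RSV.Mul
import Pool.Agent.RSV.FIP
import Pool.Agent.RSV.FD
import Pool.Agent.RSV.Scott

namespace Pool.Agent.RSV
universe u v
theorem hMulX : Stmt_Mul.{u, v} := mul_proof
theorem hFIPX : Stmt_FIP.{u, v} := fip_proof
theorem hFDX : Stmt_FD.{u, v} := FD.fd_proof mul_proof IF_proof
theorem hIFX : Stmt_IF.{u, v} := IF_proof
theorem hIF2X : Stmt_IF2.{u, v} := IF2_proof
end Pool.Agent.RSV
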