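import Pool.Agent.RSV.CdBasic
import Pool.Agent.RSV.CdHyp

/-!
# CDCALC: closure properties of internally approximable real families
-/

namespace Pool.Agent.RSV

universe u v

variable {U : Type u} {R : Type v} [CommSemiring U] [LinearOrder U] [IsStrictOrderedRing U]
  [CanonicallyOrderedAdd U] [Field R] [LinearOrder R] [IsStrictOrderedRing R]

private theorem cdInfMin {J I : U} (hJ : Inf J) (hI : Inf I) : Inf (min J I) :=
  fun n => lt_min (hJ n) (hI n)

namespace BIP

variable {B : BIP U R} {A : Set U} {x y : U → R}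

theorem NF.zero (K : U) : B.NF K (fun _ => (0 : R)) :=
  NF.const B.Z.zero_mem le_rfl (e_pos B K)

theorem round_aux {t s : R} (h : t = (s + 1 / 2)) : |s - B.fl t| ≤ 1 / 2 := by
  have h1 := fl_le B t
  have h2 := lt_fl_add_one B t
  rw [abs_le]
  constructor <;> linarith

/-- Rounding to the nearest. -/
theorem NF.round {K : U} {P Q : U → R} (hP : B.NF K P) (hQ : B.NF K Q) (M : U) :
    ∃ (K' : U) (P' Q' : U → R), B.NF K' P' ∧ B.NF K' Q' ∧
      ∀ i, |(P i - Q i) / B.e (M + 1) - (P' i - Q' i)| ≤ 1 / 2 := by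
  have hlt : M < M + 1 := lt_add_one M
  have hM : B.NF (M + 1) (fun _ : U => B.e M) :=
    NF.const (B.e_mem M) (e_pos B M).le (B.e_lt _ _ hlt)
  have h1 : B.NF (max K (M + 1)) (fun i => max (P i - Q i) 0) :=
    (NF.tsub hP hQ).mono (le_max_left _ _)
  have h2 : B.NF (max K (M + 1)) (fun i => max (Q i - P i) 0) :=
    (NF.tsub hQ hP).mono (le_max_left _ _)
  have hM' := hM.mono (le_max_right K (M + 1))
  have h3 := NF.hi (NF.add h1 hM') (a := fun _ => M + 1) (F.const (M + 1))
  have h4 := NF.hi (NF.add h2 hM') (a := fun _ => M + 1) (F.const (M + 1))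
  refine ⟨_, _, _, h3, h4, ?_⟩
  intro i
  have hpos := e_pos B (M + 1)
  have he : B.e (M + 1) = 2 * B.e M := e_succ B M
  have hposM := e_pos B M
  have hhalf : B.hi (0 + B.e M) (M + 1) = 0 := by
    rw [zero_add]
    exact hi_of_lt hposM.le (B.e_lt _ _ hlt)
  have key : ∀ z : R, 0 ≤ z → |z / B.e (M + 1) - B.hi (z + B.e M) (M + 1)| ≤ 1 / 2 := by
    intro z hz
    apply round_aux (B := B)
    rw [he]
    field_simp
  rcases le_total (Q i) (P i) with h | h
  · have e1 : max (P i - Q i) 0 = P i - Q i := max_eq_left (by linarith)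
    have e2 : max (Q i - P i) 0 = 0 := max_eq_right (by linarith)
    rw [e1, e2, hhalf, sub_zero]
    exact key _ (by linarith)
  · have e1 : max (P i - Q i) 0 = 0 := max_eq_right (by linarith)
    have e2 : max (Q i - P i) 0 = Q i - P i := max_eq_left (by linarith)
    rw [e1, e2, hhalf, zero_sub]
    have h5 := key (Q i - P i) (by linarith)
    rw [← abs_neg]
    have e3 : -((P i - Q i) / B.e (M + 1) - -B.hi (Q i - P i + B.e M) (M + 1)) =
      (Q i - P i) / B.e (M + 1) - B.hi (Q i - P i + B.e M) (M + 1) := by ring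
    rw [e3]
    exact h5

theorem inv_e_succ (N : U) : 1 / B.e (N + 1) = 1 / B.e N / 2 := by
  have := e_pos B N
  rw [e_succ]
  field_simp

/-- Approximations with arbitrary denominators suffice. -/
theorem Cd.of_approx (hb : ∃ b : U, ∀ i ∈ A, |x i| ≤ B.e b)
    (h : ∀ N : U, ∃ J : U, Inf J ∧ ∃ (L K : U) (P Q : U → R), B.NF K P ∧ B.NF K Q ∧
      ∀ i ∈ A, i < J → |x i - (P i - Q i) / B.e L| ≤ 1 / B.e N) : B.Cd A x := by
  refine ⟨hb, ?_⟩
  intro N
  obtain ⟨J, hJ, L, K, P, Q, hP, hQ, h1⟩ := h (N + 1)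
  have hP' := NF.shift hP (a := fun _ => N + 1) (F.const (N + 1)) (L := N + 1) (fun _ => le_rfl)
  have hQ' := NF.shift hQ (a := fun _ => N + 1) (F.const (N + 1)) (L := N + 1) (fun _ => le_rfl)
  obtain ⟨K', P', Q', hP'', hQ'', h2⟩ := NF.round hP' hQ' L
  refine ⟨J, hJ, K', P', Q', hP'', hQ'', ?_⟩
  intro i hi hiJ
  have h3 := h1 i hi hiJ
  have h4 := h2 i
  have hN := e_pos B N
  have hL := e_pos B L
  have e1 : (P i * B.e (N + 1) - Q i * B.e (N + 1)) / B.e (L + 1) =
      (P i - Q i) / B.e L * B.e N := by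
    rw [e_succ, e_succ]
    field_simp
  rw [e1] at h4
  have e2 : x i - (P' i - Q' i) / B.e N = (x i - (P i - Q i) / B.e L) +
      ((P i - Q i) / B.e L * B.e N - (P' i - Q' i)) / B.e N := by
    field_simp
    ring
  rw [e2]
  refine (abs_add_le _ _).trans ?_
  rw [inv_e_succ] at h3
  have h5 : |((P i - Q i) / B.e L * B.e N - (P' i - Q' i)) / B.e N| ≤ 1 / 2 / B.e N := by
    rw [abs_div, abs_of_pos hN]
    exact div_le_div_of_nonneg_right h4 hN.le
  have e3 : (1 : R) / 2 / B.e N = 1 / B.e N / 2 := by ring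
  rw [e3] at h5
  linarith

theorem usub_add' (B : BIP U R) {a b : U} (h : b ≤ a) : usub a b + b = a := by
  first
    | exact sub_add B h
    | exact sub_add h

theorem usub_eq_zero' (B : BIP U R) {a b : U} (h : a ≤ b) : usub a b = 0 := by
  first
    | exact sub_eq_zero B h
    | exact sub_eq_zero h

theorem usub_le' (B : BIP U R) (a b : U) : usub a b ≤ a := by
  rcases le_total b a with h | h
  · have := usub_add' B h
    calc usub a b ≤ usub a b + b := le_self_add
      _ = a := this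
  · rw [usub_eq_zero' B h]
    exact zero_le

theorem exists_pr2_lt' (B : BIP U R) {J : U} (hJ : Inf J) : ∃ J' : U, Inf J' ∧ J' ≤ J ∧
    ∀ i k, i < J' → k < J' → RSV.pr2 i k < J := by
  first
    | exact exists_pr2_lt B hJ
    | exact exists_pr2_lt hJ

theorem p1_pr2' (B : BIP U R) (i k : U) : p1 (RSV.pr2 i k) = i := by
  first
    | exact p1_pr2 B i k
    | exact p1_pr2 i k

theorem p2_pr2' (B : BIP U R) (i k : U) : p2 (RSV.pr2 i k) = k := by
  first
    | exact p2_pr2 B i k
    | exact p2_pr2 i k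

theorem le_pr2_left' (B : BIP U R) (i k : U) : i ≤ RSV.pr2 i k := by
  first
    | exact le_pr2_left B i k
    | exact le_pr2_left i k

theorem le_pr2_right' (B : BIP U R) (i k : U) : k ≤ RSV.pr2 i k := by
  first
    | exact le_pr2_right B i k
    | exact le_pr2_right i k

private theorem exists_inf (B : BIP U R) : ∃ J : U, Inf J := B.exists_nonstd

/-- constants -/
theorem Cd.const (c : R) : B.Cd Set.univ (fun _ => c) := by
  obtain ⟨b, hb⟩ := exists_lt_e B |c|
  refine ⟨⟨b, fun _ _ => hb.le⟩, ?_⟩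
  intro N
  obtain ⟨J, hJ⟩ := exists_inf B
  have hN := e_pos B N
  obtain ⟨K, hK⟩ := exists_lt_e B (|c| * B.e N)
  have main : ∀ c : R, 0 ≤ c → |c| * B.e N < B.e K →
      B.NF K (fun _ : U => B.fl (c * B.e N)) ∧ |c - B.fl (c * B.e N) / B.e N| ≤ 1 / B.e N := by
    intro c hc hK
    have h1 := fl_le B (c * B.e N)
    have h2 := lt_fl_add_one B (c * B.e N)
    have h3 : 0 ≤ c * B.e N := by positivity
    rw [abs_of_nonneg hc] at hK
    refine ⟨NF.const (fl_mem B _) (fl_nonneg B h3) (lt_of_le_of_lt h1 hK), ?_⟩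
    have e1 : c - B.fl (c * B.e N) / B.e N = (c * B.e N - B.fl (c * B.e N)) / B.e N := by
      field_simp
    rw [e1, abs_div, abs_of_pos hN]
    apply div_le_div_of_nonneg_right _ hN.le
    rw [abs_le]
    constructor <;> linarith
  rcases le_total 0 c with h | h
  · obtain ⟨h1, h2⟩ := main c h hK
    refine ⟨J, hJ, K, _, _, h1, NF.zero K, ?_⟩
    intro i _ _
    rw [sub_zero]
    exact h2
  · obtain ⟨h1, h2⟩ := main (-c) (by linarith) (by rw [abs_neg]; exact hK)
    refine ⟨J, hJ, K, _, _, NF.zero K, h1, ?_⟩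
    intro i _ _
    rw [← abs_neg]
    have e1 : -(c - (0 - B.fl (-c * B.e N)) / B.e N) = -c - B.fl (-c * B.e N) / B.e N := by ring
    rw [e1]
    exact h2

/-- dyadic families -/
theorem Cd.ofNF {K : U} {S : U → R} (h : B.NF K S) (N : U) :
    B.Cd Set.univ (fun i => S i / B.e N) := by
  apply Cd.of_approx
  · refine ⟨K, fun i _ => ?_⟩
    have h1 := h.nonneg i
    have h2 := h.lt i
    have h3 := one_le_e B N
    have h4 := e_pos B N
    rw [abs_of_nonneg (by positivity)]
    have : S i / B.e N ≤ S i := div_le_self h1 h3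
    linarith
  · intro N'
    obtain ⟨J, hJ⟩ := exists_inf B
    refine ⟨J, hJ, N, K, _, _, h, NF.zero K, ?_⟩
    intro i _ _
    have h4 := e_pos B N'
    rw [sub_zero, sub_self, abs_zero]
    positivity

theorem Cd.add (hx : B.Cd A x) (hy : B.Cd A y) : B.Cd A (fun i => x i + y i) := by
  obtain ⟨⟨b, hb⟩, h2⟩ := hx
  obtain ⟨⟨c, hc⟩, h3⟩ := hy
  apply Cd.of_approx
  · refine ⟨max b c + 1, fun i hi => ?_⟩
    refine (abs_add_le _ _).trans ?_
    rw [e_succ]
    have e1 := e_le B (le_max_left b c)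
    have e2 := e_le B (le_max_right b c)
    have := hb i hi
    have := hc i hi
    linarith
  · intro N
    obtain ⟨J, hJ, K, P, Q, hP, hQ, h4⟩ := h2 (N + 1)
    obtain ⟨J', hJ', K', P', Q', hP', hQ', h5⟩ := h3 (N + 1)
    refine ⟨min J J', cdInfMin hJ hJ', N + 1, max K K' + 1, _, _,
      NF.add (hP.mono (le_max_left K K')) (hP'.mono (le_max_right K K')),
      NF.add (hQ.mono (le_max_left K K')) (hQ'.mono (le_max_right K K')), ?_⟩
    intro i hi hiJ
    have h6 := h4 i hi (lt_of_lt_of_le hiJ (min_le_left _ _))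
    have h7 := h5 i hi (lt_of_lt_of_le hiJ (min_le_right _ _))
    rw [inv_e_succ] at h6 h7
    have e1 : x i + y i - (P i + P' i - (Q i + Q' i)) / B.e (N + 1) =
      (x i - (P i - Q i) / B.e (N + 1)) + (y i - (P' i - Q' i) / B.e (N + 1)) := by ring
    rw [e1]
    refine (abs_add_le _ _).trans ?_
    linarith

theorem Cd.neg (hx : B.Cd A x) : B.Cd A (fun i => - x i) := by
  obtain ⟨⟨b, hb⟩, h2⟩ := hx
  refine ⟨⟨b, fun i hi => by rw [abs_neg]; exact hb i hi⟩, ?_⟩
  intro N
  obtain ⟨J, hJ, K, P, Q, hP, hQ, h3⟩ := h2 N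
  refine ⟨J, hJ, K, Q, P, hQ, hP, fun i hi hiJ => ?_⟩
  rw [← abs_neg]
  have e1 : -(-x i - (Q i - P i) / B.e N) = x i - (P i - Q i) / B.e N := by ring
  rw [e1]
  exact h3 i hi hiJ

theorem Cd.sub (hx : B.Cd A x) (hy : B.Cd A y) : B.Cd A (fun i => x i - y i) :=
  (hx.add hy.neg).congr fun i _ => by ring

/-- products (from MUL) -/
theorem Cd.mul (hx : B.Cd A x) (hy : B.Cd A y) : B.Cd A (fun i => x i * y i) := by
  obtain ⟨⟨b, hb⟩, h2⟩ := hx
  obtain ⟨⟨c, hc⟩, h3⟩ := hy
  apply Cd.of_approx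
  · refine ⟨b + c, fun i hi => ?_⟩
    rw [abs_mul, B.e_add]
    exact mul_le_mul (hb i hi) (hc i hi) (abs_nonneg _) (e_pos B b).le
  · intro N
    set M := N + b + (c + 1) + 1 with hM
    obtain ⟨J, hJ, K, P, Q, hP, hQ, h4⟩ := h2 M
    obtain ⟨J', hJ', K', P', Q', hP', hQ', h5⟩ := h3 M
    obtain ⟨PP, nPP, hPP⟩ := hMulX U R B K K' P P' hP hP' (min J J')
    obtain ⟨QQ, nQQ, hQQ⟩ := hMulX U R B K K' Q Q' hQ hQ' (min J J')
    obtain ⟨PQ, nPQ, hPQ⟩ := hMulX U R B K K' P Q' hP hQ' (min J J')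
    obtain ⟨QP, nQP, hQP⟩ := hMulX U R B K K' Q P' hQ hP' (min J J')
    refine ⟨min J J', cdInfMin hJ hJ', M + M, K + K' + 1, _, _, NF.add nPP nQQ, NF.add nPQ nQP, ?_⟩
    intro i hi hiJ
    have h6 := h4 i hi (lt_of_lt_of_le hiJ (min_le_left _ _))
    have h7 := h5 i hi (lt_of_lt_of_le hiJ (min_le_right _ _))
    rw [hPP i hiJ, hQQ i hiJ, hPQ i hiJ, hQP i hiJ, B.e_add M M]
    have hMpos := e_pos B M
    have hbpos := e_pos B b
    have hcpos := e_pos B c
    have hNpos := e_pos B N
    set p := (P i - Q i) / B.e M with hp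
    set q := (P' i - Q' i) / B.e M with hq
    have e1 : x i * y i - (P i * P' i + Q i * Q' i - (P i * Q' i + Q i * P' i)) /
        (B.e M * B.e M) = x i * (y i - q) + q * (x i - p) := by
      rw [hp, hq]
      field_simp
      ring
    rw [e1]
    refine (abs_add_le _ _).trans ?_
    rw [abs_mul, abs_mul]
    have hxb := hb i hi
    have hyc := hc i hi
    have hM1 : 1 / B.e M ≤ 1 := by
      rw [div_le_one hMpos]
      exact one_le_e B M
    have hqb : |q| ≤ 2 * B.e c := by
      have : |q| ≤ |y i| + |y i - q| := by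
        have := abs_sub_abs_le_abs_sub q (y i)
        rw [abs_sub_comm q (y i)] at this
        linarith
      have := one_le_e B c
      linarith
    have h8 : |x i| * |y i - q| ≤ B.e b * (1 / B.e M) :=
      mul_le_mul hxb h7 (abs_nonneg _) hbpos.le
    have h9 : |q| * |x i - p| ≤ 2 * B.e c * (1 / B.e M) :=
      mul_le_mul hqb h6 (abs_nonneg _) (by positivity)
    have hMe : B.e M = B.e N * B.e b * (2 * B.e c) * 2 := by
      rw [hM, B.e_add, B.e_add, B.e_add, e_succ, B.e_one]
    have h10 : B.e b * (1 / B.e M) ≤ 1 / B.e N / 2 := by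
      rw [hMe]
      have : B.e b * (1 / (B.e N * B.e b * (2 * B.e c) * 2)) = 1 / B.e N / 2 * (1 / (2 * B.e c)) := by
        field_simp
      rw [this]
      apply mul_le_of_le_one_right (by positivity)
      rw [div_le_one (by positivity)]
      linarith [one_le_e B c]
    have h11 : 2 * B.e c * (1 / B.e M) ≤ 1 / B.e N / 2 := by
      rw [hMe]
      have : 2 * B.e c * (1 / (B.e N * B.e b * (2 * B.e c) * 2)) = 1 / B.e N / 2 * (1 / B.e b) := by
        field_simp
      rw [this]
      apply mul_le_of_le_one_right (by positivity)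
      rw [div_le_one (by positivity)]
      exact one_le_e B b
    linarith

/-- reindexing by a definable function which maps standard numbers to standard numbers -/
theorem Cd.reindex (hx : B.Cd A x) {g : U → U} (hg : B.F1 g) (hs : ∀ n : ℕ, ∃ m : ℕ, g n ≤ m) :
    B.Cd {i | g i ∈ A} (fun i => x (g i)) := by
  obtain ⟨⟨b, hb⟩, h2⟩ := hx
  refine ⟨⟨b, fun i hi => hb (g i) hi⟩, ?_⟩
  intro N
  obtain ⟨J, hJ, K, P, Q, hP, hQ, h3⟩ := h2 N
  have hD : B.D1 (fun i => g i < J) := D.lt hg (F.const J)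
  obtain ⟨J', hJ', h4⟩ := overspill B hD (by
    intro n
    obtain ⟨m, hm⟩ := hs n
    exact lt_of_le_of_lt hm (hJ m))
  refine ⟨J', hJ', K, _, _, hP.reindex hg, hQ.reindex hg, ?_⟩
  intro i hi hiJ
  exact h3 (g i) hi (h4 i hiJ.le)

/-- sums of standard length (from FIP) -/
theorem Cd.sum (hx : B.Cd A x) {m : U → U} (hm : B.F1 m) {A' : Set U} (n : U → ℕ)
    (hA : ∀ i ∈ A', m i = n i ∧ ∀ k < n i, pr2 i (k : U) ∈ A) :
    B.Cd A' (fun i => ∑ k ∈ Finset.range (n i), x (pr2 i (k : U))) := by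
  obtain ⟨⟨b, hb⟩, h2⟩ := hx
  obtain ⟨J₀, hJ₀⟩ := exists_inf B
  apply Cd.of_approx
  · refine ⟨J₀ + b, fun i hi => ?_⟩
    refine (Finset.abs_sum_le_sum_abs _ _).trans ?_
    have h3 : ∑ k ∈ Finset.range (n i), |x (pr2 i (k : U))| ≤
        ∑ k ∈ Finset.range (n i), B.e b := by
      apply Finset.sum_le_sum
      intro k hk
      exact hb _ ((hA i hi).2 k (Finset.mem_range.mp hk))
    refine h3.trans ?_
    rw [Finset.sum_const, Finset.card_range, nsmul_eq_mul, B.e_add]
    exact mul_le_mul_of_nonneg_right (natCast_lt_e B hJ₀ _).le (e_pos B b).le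
  · intro N
    obtain ⟨J, hJ, K, P, Q, hP, hQ, h4⟩ := h2 (N + J₀)
    obtain ⟨J', hJ', hJ'J, h5⟩ := exists_pr2_lt' B hJ
    have hone : B.NF 1 (fun _ : U => (1 : R)) :=
      NF.const B.Z.one_mem zero_le_one (by rw [B.e_one]; norm_num)
    obtain ⟨K₁, P₁, nP₁, hP₁⟩ := hFIPX U R B K 1 P _ m hP hone hm J'
    obtain ⟨K₂, Q₁, nQ₁, hQ₁⟩ := hFIPX U R B K 1 Q _ m hQ hone hm J'
    refine ⟨J', hJ', N + J₀, max K₁ K₂, P₁, Q₁, nP₁.mono (le_max_left _ _),
      nQ₁.mono (le_max_right _ _), ?_⟩
    intro i hi hiJ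
    obtain ⟨hmi, hAi⟩ := hA i hi
    rw [hP₁ i hiJ (n i) hmi, hQ₁ i hiJ (n i) hmi]
    have hM := e_pos B (N + J₀)
    have e1 : ∑ k ∈ Finset.range (n i), x (pr2 i (k : U)) -
        (∑ k ∈ Finset.range (n i), P (pr2 i (k : U)) * 1 -
          ∑ k ∈ Finset.range (n i), Q (pr2 i (k : U)) * 1) / B.e (N + J₀) =
        ∑ k ∈ Finset.range (n i), (x (pr2 i (k : U)) -
          (P (pr2 i (k : U)) - Q (pr2 i (k : U))) / B.e (N + J₀)) := by
      rw [Finset.sum_sub_distrib, ← Finset.sum_div, Finset.sum_sub_distrib]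
      simp only [mul_one]
    rw [e1]
    refine (Finset.abs_sum_le_sum_abs _ _).trans ?_
    have h6 : ∑ k ∈ Finset.range (n i), |x (pr2 i (k : U)) -
          (P (pr2 i (k : U)) - Q (pr2 i (k : U))) / B.e (N + J₀)| ≤
        ∑ k ∈ Finset.range (n i), 1 / B.e (N + J₀) := by
      apply Finset.sum_le_sum
      intro k hk
      have hk' := Finset.mem_range.mp hk
      apply h4 _ (hAi k hk')
      exact h5 i k hiJ (hJ' k)
    refine h6.trans ?_
    rw [Finset.sum_const, Finset.card_range, nsmul_eq_mul, B.e_add]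
    have hN := e_pos B N
    have hJ₀p := e_pos B J₀
    have e2 : (n i : R) * (1 / (B.e N * B.e J₀)) = 1 / B.e N * ((n i : R) / B.e J₀) := by
      field_simp
    rw [e2]
    apply mul_le_of_le_one_right (by positivity)
    rw [div_le_one hJ₀p]
    exact (natCast_lt_e B hJ₀ _).le

/-- inverses (from FD), `0⁻¹ = 0` -/
theorem Cd.inv (hx : B.Cd A x) (b : U) (hb : ∀ i ∈ A, x i ≠ 0 → 1 / B.e b ≤ |x i|) :
    B.Cd A (fun i => (x i)⁻¹) := by
  classical
  obtain ⟨-, h2⟩ := hx
  have hbpos := e_pos B b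
  apply Cd.of_approx
  · refine ⟨b, fun i hi => ?_⟩
    by_cases h0 : x i = 0
    · rw [h0, inv_zero, abs_zero]
      exact hbpos.le
    · rw [abs_inv]
      have h1 := hb i hi h0
      rw [inv_le_comm₀ (abs_pos.mpr h0) hbpos, ← one_div]
      exact h1
  · intro N
    set M := N + b + b + 1 + 1 + 1 with hMdef
    obtain ⟨J, hJ, K, P, Q, hP, hQ, h4⟩ := h2 M
    have hD := NF.absdiff hP hQ
    have hone : B.NF (K + 1) (fun _ : U => (1 : R)) :=
      NF.const B.Z.one_mem zero_le_one (by
        have := one_le_e B K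
        rw [e_succ]
        linarith)
    have hDle : B.D1 (fun i => |P i - Q i| ≤ 1) :=
      NF.le_dfn hD hone (F.var 0) (F.var 0)
    have hPQ : B.D1 (fun i => P i ≤ Q i) := NF.le_dfn hP hQ (F.var 0) (F.var 0)
    -- the family of denominators
    have hY : B.NF (K + 1) (fun i => if |P i - Q i| ≤ 1 then 1 else |P i - Q i|) :=
      NF.ite hDle hone (hD.mono (le_of_lt (lt_add_one K)))
    obtain ⟨J₁, hJ₁, K₁, W, nW, hW⟩ := hFDX U R B (K + 1) _ hY (by
      intro i
      split_ifs with h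
      · exact le_rfl
      · exact (not_le.mp h).le) (N + M + 1 + 1)
    have hWM := NF.shift nW (a := fun _ => M) (F.const M) (L := M) (fun _ => le_rfl)
    have hz : B.NF (K₁ + M) (fun _ : U => (0 : R)) := NF.zero _
    have hP' : B.NF (K₁ + M) (fun i => if |P i - Q i| ≤ 1 ∨ P i ≤ Q i then 0 else
        W i * B.e M) := NF.ite (D.or hDle hPQ) hz hWM
    have hQ' : B.NF (K₁ + M) (fun i => if |P i - Q i| ≤ 1 ∨ ¬ P i ≤ Q i then 0 else
        W i * B.e M) := NF.ite (D.or hDle (D.not hPQ)) hz hWM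
    refine ⟨min J J₁, cdInfMin hJ hJ₁, N + M + 1 + 1, K₁ + M, _, _, hP', hQ', ?_⟩
    intro i hi hiJ
    have h6 := h4 i hi (lt_of_lt_of_le hiJ (min_le_left _ _))
    have h7 := hW i (lt_of_lt_of_le hiJ (min_le_right _ _))
    have hMpos := e_pos B M
    have hNpos := e_pos B N
    have hMe : B.e M = B.e N * B.e b * B.e b * 8 := by
      rw [hMdef, e_succ, e_succ, e_succ, B.e_add, B.e_add]
      ring
    have hN1 := one_le_e B N
    have hb1 := one_le_e B b
    set D := P i - Q i with hDdef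
    -- integrality of `D`
    by_cases h0 : x i = 0
    · rw [h0, zero_sub, abs_neg, abs_div, abs_of_pos hMpos,
        div_le_div_iff_of_pos_right hMpos] at h6
      have h8 : |D| ≤ 1 := h6
      rw [if_pos (Or.inl h8), if_pos (Or.inl h8), h0]
      simp only [inv_zero, sub_self, zero_div, abs_zero]
      positivity
    · have h8 := hb i hi h0
      have h9 : B.e M * |x i| - 1 ≤ |D| := by
        have e1 : x i - D / B.e M = (B.e M * x i - D) / B.e M := by
          field_simp
        rw [e1, abs_div, abs_of_pos hMpos, div_le_div_iff_of_pos_right hMpos] at h6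
        have := abs_sub_abs_le_abs_sub (B.e M * x i) D
        rw [abs_mul, abs_of_pos hMpos] at this
        linarith
      have h10 : B.e N * B.e b * 8 ≤ B.e M * |x i| := by
        have : B.e M * (1 / B.e b) ≤ B.e M * |x i| := mul_le_mul_of_nonneg_left h8 hMpos.le
        have e2 : B.e M * (1 / B.e b) = B.e N * B.e b * 8 := by
          rw [hMe]
          field_simp
        linarith
      have hNb : 1 ≤ B.e N * B.e b := one_le_mul_of_one_le_of_one_le hN1 hb1
      have h11 : 4 * (B.e N * B.e b) ≤ |D| := by linarith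
      have hDgt : ¬ |D| ≤ 1 := by
        push Not
        linarith
      rw [if_neg hDgt] at h7
      have hDpos : 0 < |D| := by linarith
      have hxpos : 0 < |x i| := abs_pos.mpr h0
      have hD0 : D ≠ 0 := abs_pos.mp hDpos
      -- first error
      have hxe : |x i| ⁻¹ ≤ B.e b := by
        rw [inv_le_comm₀ hxpos hbpos, ← one_div]
        exact h8
      have h12 : |(x i)⁻¹ - B.e M / D| ≤ 1 / B.e N / 2 := by
        have e1 : (x i)⁻¹ - B.e M / D = - (B.e M * (x i - D / B.e M)) * (x i)⁻¹ * D⁻¹ := by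
          field_simp
          ring
        rw [e1, abs_mul, abs_mul, abs_neg, abs_mul, abs_inv, abs_inv, abs_of_pos hMpos]
        have a1 : B.e M * |x i - D / B.e M| ≤ 1 := by
          have := mul_le_mul_of_nonneg_left h6 hMpos.le
          have e3 : B.e M * (1 / B.e M) = 1 := by field_simp
          linarith
        have a2 : |D|⁻¹ ≤ (4 * (B.e N * B.e b))⁻¹ := inv_anti₀ (by positivity) h11
        calc B.e M * |x i - D / B.e M| * |x i|⁻¹ * |D|⁻¹
            ≤ 1 * B.e b * (4 * (B.e N * B.e b))⁻¹ := by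
              apply mul_le_mul (mul_le_mul a1 hxe (by positivity) (by norm_num)) a2
                (by positivity) (by positivity)
          _ = 1 / B.e N / 4 := by
              field_simp
          _ ≤ 1 / B.e N / 2 := by
              have : 0 < 1 / B.e N := by positivity
              linarith
      -- second error
      have hL : B.e (N + M + 1 + 1) = B.e N * B.e M * 4 := by
        rw [e_succ, e_succ, B.e_add]
        ring
      have h13 : |B.e M / |D| - W i * B.e M / B.e (N + M + 1 + 1)| ≤ 1 / B.e N / 2 := by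
        have e1 : B.e M / |D| - W i * B.e M / B.e (N + M + 1 + 1) =
          B.e M * (1 / |D| - W i / B.e (N + M + 1 + 1)) := by ring
        rw [e1, abs_mul, abs_of_pos hMpos]
        calc B.e M * |1 / |D| - W i / B.e (N + M + 1 + 1)| ≤
            B.e M * (1 / B.e (N + M + 1 + 1)) := mul_le_mul_of_nonneg_left h7 hMpos.le
          _ = 1 / B.e N / 4 := by
              rw [hL]
              field_simp
          _ ≤ 1 / B.e N / 2 := by
              have : 0 < 1 / B.e N := by positivity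
              linarith
      have hfin : ∀ s : R, s = B.e M / D → |s - (x i)⁻¹| ≤ 1 / B.e N / 2 := by
        intro s hs
        rw [hs, abs_sub_comm]
        exact h12
      by_cases hle : P i ≤ Q i
      · rw [if_pos (Or.inr hle), if_neg (by
          rw [not_or]
          exact ⟨hDgt, fun h => h hle⟩)]
        have hDneg : D < 0 := lt_of_le_of_ne (by rw [hDdef]; linarith) hD0
        rw [abs_of_neg hDneg] at h13
        have e1 : (x i)⁻¹ - (0 - W i * B.e M) / B.e (N + M + 1 + 1) =
          ((x i)⁻¹ - B.e M / D) - (B.e M / -D - W i * B.e M / B.e (N + M + 1 + 1)) := by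
          rw [div_neg]
          ring
        rw [e1]
        refine (abs_sub _ _).trans ?_
        linarith
      · rw [if_neg (by
          rw [not_or]
          exact ⟨hDgt, hle⟩), if_pos (Or.inr hle)]
        have hDp : 0 < D := by
          rw [hDdef]
          linarith [not_le.mp hle]
        rw [abs_of_pos hDp] at h13
        have e1 : (x i)⁻¹ - (W i * B.e M - 0) / B.e (N + M + 1 + 1) =
          ((x i)⁻¹ - B.e M / D) + (B.e M / D - W i * B.e M / B.e (N + M + 1 + 1)) := by
          ring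
        rw [e1]
        refine (abs_add_le _ _).trans ?_
        linarith

/-- powers of two -/
theorem Cd.e {g : U → U} (hg : B.F1 g) (b : U) (hb : ∀ i ∈ A, g i ≤ b) :
    B.Cd A (fun i => B.e (g i)) := by
  classical
  have h1 : B.F1 (fun i => if g i ≤ b then g i else 0) :=
    F.ite (D.le hg (F.const b)) hg (F.const 0)
  have h2 := NF.e h1 (L := b) (by
    intro i
    split_ifs with h
    · exact h
    · exact zero_le)
  refine ((Cd.ofNF h2 0).mono (Set.subset_univ A)).congr ?_
  intro i hi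
  simp only [B.e_zero, div_one, if_pos (hb i hi)]

theorem Cd.e_inv {g : U → U} (hg : B.F1 g) (b : U) (hb : ∀ i ∈ A, g i ≤ b) :
    B.Cd A (fun i => (B.e (g i))⁻¹) := by
  have h1 : B.F1 (fun i => usub b (g i)) := F.sub (F.const b) hg
  have h3 : ∀ i, usub b (g i) ≤ b := fun i => usub_le' B b (g i)
  have h2 := NF.e h1 (L := b) h3
  refine ((Cd.ofNF h2 b).mono (Set.subset_univ A)).congr ?_
  intro i hi
  have h4 := usub_add' B (hb i hi)
  have h5 : B.e (usub b (g i)) * B.e (g i) = B.e b := by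
    rw [← B.e_add, h4]
  have h6 := e_pos B b
  have h7 := e_pos B (g i)
  rw [← h5]
  have h8 := e_pos B (usub b (g i))
  field_simp

/-- comparison with a threshold is definable -/
theorem Cd.sign (hx : B.Cd A x) (b : U) (hb : ∀ i ∈ A, x i ≠ 0 → 1 / B.e b ≤ |x i|) :
    ∃ P : U → Prop, B.D1 P ∧ ∃ J : U, Inf J ∧ ∀ i ∈ A, i < J → (P i ↔ 0 < x i) := by
  obtain ⟨-, h2⟩ := hx
  obtain ⟨J, hJ, K, P, Q, hP, hQ, h4⟩ := h2 (b + 1 + 1)
  have hone : B.NF (K + 1) (fun _ : U => (1 : R)) :=
      NF.const B.Z.one_mem zero_le_one (by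
        have := one_le_e B K
        rw [e_succ]
        linarith)
  have hQ1 := NF.add (hQ.mono (le_of_lt (lt_add_one K))) hone
  refine ⟨fun i => ¬ P i ≤ Q i + 1, D.not (NF.le_dfn hP hQ1 (F.var 0) (F.var 0)), J, hJ, ?_⟩
  intro i hi hiJ
  have h5 := h4 i hi hiJ
  have hbpos := e_pos B b
  have hMpos := e_pos B (b + 1 + 1)
  have hM : B.e (b + 1 + 1) = 4 * B.e b := by
    rw [e_succ, e_succ]
    ring
  have e1 : x i - (P i - Q i) / B.e (b + 1 + 1) =
    (B.e (b + 1 + 1) * x i - (P i - Q i)) / B.e (b + 1 + 1) := by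
    field_simp
  rw [e1, abs_div, abs_of_pos hMpos, div_le_div_iff_of_pos_right hMpos, abs_le] at h5
  have h6 : x i ≠ 0 → 4 ≤ B.e (b + 1 + 1) * |x i| := by
    intro h0
    have := mul_le_mul_of_nonneg_left (hb i hi h0) hMpos.le
    have e2 : B.e (b + 1 + 1) * (1 / B.e b) = 4 := by
      rw [hM]
      field_simp
    linarith
  constructor
  · intro h
    have h : Q i + 1 < P i := not_le.mp h
    rcases lt_trichotomy (x i) 0 with h0 | h0 | h0
    · exfalso
      have := h6 h0.ne
      rw [abs_of_neg h0] at this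
      linarith [h5.1]
    · exfalso
      rw [h0, mul_zero] at h5
      linarith [h5.1]
    · exact h0
  · intro h0
    have := h6 h0.ne'
    rw [abs_of_pos h0] at this
    show ¬ P i ≤ Q i + 1
    rw [not_le]
    linarith [h5.2]

theorem exists_nat_of_le' (B : BIP U R) (x : U) (n : ℕ) (h : x ≤ n) :
    ∃ m : ℕ, m ≤ n ∧ x = m := by
  first
    | exact exists_nat_of_le B x n h
    | exact exists_nat_of_le x n h

/-- computable sequences of natural numbers (from IF) -/
theorem Cd.natCast {f : ℕ → ℕ} (hf : Computable f) :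
    ∃ z : U → R, B.Cd {i | ∃ n : ℕ, i = n} z ∧ ∀ n : ℕ, z n = f n := by
  have hpow : Primrec₂ (fun (m j : ℕ) => m / 2 ^ j % 2) := by
    have h1 : Primrec₂ (fun (a b : ℕ) => a ^ b) := Primrec₂.unpaired'.1 Nat.Primrec.pow
    exact Primrec.nat_mod.comp (Primrec.nat_div.comp Primrec.fst
      (h1.comp (Primrec.const 2) Primrec.snd)) (Primrec.const 2)
  obtain ⟨g₁, hg₁, e₁⟩ := hIFX U R B f hf
  obtain ⟨g₂, hg₂, e₂⟩ := hIF2X U R B (fun n j => f n / 2 ^ j % 2)
    (hpow.to_comp.comp (hf.comp Computable.fst) Computable.snd)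
  obtain ⟨J₀, hJ₀⟩ := exists_inf B
  have hφ : B.D (fun v => v 1 < g₁ (v 0) ∧ g₂ (v 0) (v 1) = 1) :=
    D.and (D.lt (F.var 1) (F1.app hg₁ (F.var 0))) (D.eq hg₂ (F.const 1))
  obtain ⟨S, nS, hS⟩ := NF.mk' (φ := fun i u => u < g₁ i ∧ g₂ i u = 1) hφ J₀
  have hval : ∀ n : ℕ, S n = f n := by
    intro n
    apply B.ext _ (nS.mem _) _ (natCast_mem B _) (nS.nonneg _) (Nat.cast_nonneg _)
    intro u
    show B.bit (S n) u ↔ B.bit (f n : R) u
    rw [hS, e₁]
    by_cases hu : ∃ j : ℕ, u = j
    · obtain ⟨j, rfl⟩ := hu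
      rw [e₂, bit_natCast]
      have hJj := hJ₀ j
      have h1 : (f n).testBit j = true ↔ f n / 2 ^ j % 2 = 1 := by
        rw [Nat.testBit_eq_decide_div_mod_eq, decide_eq_true_iff]
      rw [h1]
      constructor
      · rintro ⟨-, -, h⟩
        exact_mod_cast h
      · intro h
        refine ⟨hJj, ?_, by exact_mod_cast h⟩
        have h2 : 2 ^ j ≤ f n := by
          by_contra hcon
          rw [Nat.div_eq_of_lt (not_le.mp hcon)] at h
          norm_num at h
        have h3 : j < 2 ^ j := Nat.lt_two_pow_self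
        exact_mod_cast lt_of_lt_of_le h3 h2
    · have hge : ((f n : ℕ) : U) ≤ u := by
        by_contra hcon
        obtain ⟨m, -, hm⟩ := exists_nat_of_le' B u (f n) (not_le.mp hcon).le
        exact hu ⟨m, hm⟩
      constructor
      · rintro ⟨-, h, -⟩
        exact absurd h (not_lt.mpr hge)
      · intro h
        exact absurd h (not_bit_natCast _ hge)
  refine ⟨S, ((Cd.ofNF nS 0).mono (Set.subset_univ _)).congr ?_, hval⟩
  intro i _
  rw [B.e_zero, div_one]

theorem umod_two_natCast (B : BIP U R) (m : ℕ) : umod (m : U) 2 = ((m % 2 : ℕ) : U) := by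
  have h2 : (0 : U) < 2 := two_pos
  have h1 : (2 : U) * udiv (m : U) 2 + umod (m : U) 2 = m := by
    first
      | exact div_add_md B (m : U) 2 h2
      | exact div_add_md (m : U) 2 h2
  have h3 : umod (m : U) 2 < 2 := by
    first
      | exact md_lt B (m : U) 2 h2
      | exact md_lt (m : U) 2 h2
  have h4 : (2 : U) * udiv (m : U) 2 + umod (m : U) 2 =
      2 * ((m / 2 : ℕ) : U) + ((m % 2 : ℕ) : U) := by
    rw [h1]
    have := Nat.div_add_mod m 2
    exact_mod_cast this.symm
  have h5 : ((m % 2 : ℕ) : U) < 2 := by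
    have := Nat.mod_lt m (show 0 < 2 by norm_num)
    exact_mod_cast this
  first
    | exact (div_unique B h4 h3 h5).2
    | exact (div_unique h4 h3 h5).2

/-- the truncated geometric sum -/
def geo (l X : R) : ℕ → R
  | 0 => 0
  | m + 1 => l * geo l X m + X ^ m

theorem geo_mul (l X : R) (m : ℕ) : (l - X) * geo l X m = l ^ m - X ^ m := by
  induction m with
  | zero => simp [geo]
  | succ m ih =>
    rw [geo, mul_add, pow_succ, pow_succ]
    linear_combination l * ih

theorem geo_mem {l X : R} (hl : l ∈ B.Z) (hX : X ∈ B.Z) (m : ℕ) : geo l X m ∈ B.Z := by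
  induction m with
  | zero => exact B.Z.zero_mem
  | succ m ih => exact B.Z.add_mem (B.Z.mul_mem hl ih) (B.Z.pow_mem hX m)

/-- Powers of natural number families by one division (COOK for families). -/
theorem NF.pow {K : U} {X : U → R} (hX : B.NF K X) :
    ∃ J : U, Inf J ∧ ∃ (K' : U) (S : U → R), B.NF K' S ∧
      ∀ i, i < J → ∀ m : ℕ, S (pr2 i (m : U)) = X i ^ m := by
  obtain ⟨J₀, hJ₀⟩ := exists_inf B
  set Kc := K * J₀ + 1 + 1 + 1 with hKc
  have hlam : B.e Kc = 8 * B.e (K * J₀) := by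
    rw [hKc, e_succ, e_succ, e_succ]
    ring
  have hKJ : B.e K ≤ B.e (K * J₀) := by
    apply e_le
    have : (1 : U) ≤ J₀ := by
      have := hJ₀ 1
      rw [Nat.cast_one] at this
      exact this.le
    calc K = K * 1 := (mul_one K).symm
      _ ≤ K * J₀ := mul_le_mul_of_nonneg_left this zero_le
  have hKpos := e_pos B K
  have hKJpos := e_pos B (K * J₀)
  have hK1 := one_le_e B K
  have hcon : B.NF (Kc + 1) (fun _ : U => B.e Kc) :=
    NF.const (B.e_mem Kc) (e_pos B Kc).le (B.e_lt _ _ (lt_add_one Kc))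
  have hKKc : K ≤ Kc + 1 := by
    rw [← e_le_iff B, e_succ, hlam]
    linarith
  have hY := NF.tsub hcon (hX.mono hKKc)
  have hYval : ∀ i, max (B.e Kc - X i) 0 = B.e Kc - X i := by
    intro i
    apply max_eq_left
    have := hX.lt i
    linarith
  obtain ⟨J₁, hJ₁, K₁, W, nW, hW⟩ := hFDX U R B (Kc + 1) _ hY (by
    intro i
    rw [hYval]
    have := hX.lt i
    linarith) (Kc * (J₀ + 1))
  have hone : B.NF (K₁ + 1) (fun _ : U => (1 : R)) :=
    NF.const B.Z.one_mem zero_le_one (by
      have := one_le_e B K₁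
      rw [e_succ]
      linarith)
  have nT := NF.add (nW.mono (le_of_lt (lt_add_one K₁))) hone
  have ha : B.F1 (fun j => Kc * usub J₀ (p2 j)) :=
    F.mul (F.const Kc) (F.sub (F.const J₀) (F.p2 (F.var 0)))
  have hp1 : B.F1 (fun j : U => p1 j) := F.p1 (F.var 0)
  have nS := NF.win (nT.reindex hp1) ha (w := fun _ => Kc) (F.const Kc) (L := Kc)
    (fun _ => le_rfl)
  refine ⟨J₁, hJ₁, Kc, _, nS, ?_⟩
  intro i hi m
  rw [p1_pr2' B, p2_pr2' B]
  have hW' := hW i hi
  rw [hYval] at hW'
  have hXi := hX.lt i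
  have hX0 := hX.nonneg i
  set l := B.e Kc with hl
  set a := Kc * usub J₀ (m : U) with hadef
  have hl8 : l = 8 * B.e (K * J₀) := hlam
  have hYpos : 0 < l - X i := by linarith
  have hapos := e_pos B a
  have hsub := usub_add' B (hJ₀ m).le
  have hNf : B.e (Kc * (J₀ + 1)) = B.e a * l ^ (m + 1) := by
    have e1 : Kc * (J₀ + 1) = a + ((m + 1 : ℕ) : U) * Kc := by
      rw [hadef]
      conv_lhs => rw [← hsub]
      push_cast
      ring
    rw [e1, B.e_add, e_natCast_mul]
  have hNfpos := e_pos B (Kc * (J₀ + 1))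
  -- `T` is between the quotient and the quotient plus two
  have hT : |B.e (Kc * (J₀ + 1)) / (l - X i) - W i| ≤ 1 := by
    have e1 : 1 / (l - X i) - W i / B.e (Kc * (J₀ + 1)) =
      (B.e (Kc * (J₀ + 1)) / (l - X i) - W i) / B.e (Kc * (J₀ + 1)) := by
      field_simp
    rw [e1, abs_div, abs_of_pos hNfpos, div_le_div_iff_of_pos_right hNfpos] at hW'
    exact hW'
  have hquot : B.e (Kc * (J₀ + 1)) / (l - X i) =
      B.e a * (geo l (X i) (m + 1) + X i ^ (m + 1) / (l - X i)) := by
    have h1 := geo_mul l (X i) (m + 1)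
    rw [hNf]
    field_simp
    linear_combination (-1 : R) * h1
  have hpowlt : ∀ n : ℕ, n ≤ m + 1 → X i ^ n ≤ B.e (K * J₀) := by
    intro n _
    calc X i ^ n ≤ B.e K ^ n := pow_le_pow_left₀ hX0 hXi.le n
      _ = B.e ((n : U) * K) := (e_natCast_mul B n K).symm
      _ ≤ B.e (K * J₀) := by
        apply e_le
        rw [mul_comm]
        exact mul_le_mul_of_nonneg_left (hJ₀ n).le zero_le
  have hrat : X i ^ (m + 1) / (l - X i) ≤ 1 / 4 := by
    rw [div_le_iff₀ hYpos]
    have := hpowlt (m + 1) le_rfl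
    linarith
  have hrat0 : 0 ≤ X i ^ (m + 1) / (l - X i) := by positivity
  have ha8 : 8 ≤ B.e a := by
    have h1 : ((1 : ℕ) : U) ≤ usub J₀ (m : U) := by
      by_contra hcon
      have h2 : usub J₀ (m : U) ≤ ((1 : ℕ) : U) := (not_le.mp hcon).le
      have h3 : J₀ ≤ ((1 + m : ℕ) : U) := by
        rw [← hsub]
        push_cast
        push_cast at h2
        exact add_le_add h2 le_rfl
      exact absurd h3 (not_le.mpr (hJ₀ (1 + m)))
    have h4 : Kc ≤ a := by
      rw [hadef]
      calc Kc = Kc * 1 := (mul_one Kc).symm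
        _ ≤ Kc * usub J₀ (m : U) := by
          apply mul_le_mul_of_nonneg_left _ zero_le
          rw [Nat.cast_one] at h1
          exact h1
    have h5 := e_le B h4
    rw [← hl, hl8] at h5
    linarith
  rw [abs_le] at hT
  rw [hquot] at hT
  have hrem : B.e a * (X i ^ (m + 1) / (l - X i)) ≤ B.e a * (1 / 4) :=
    mul_le_mul_of_nonneg_left hrat hapos.le
  have hrem0 : 0 ≤ B.e a * (X i ^ (m + 1) / (l - X i)) := by positivity
  apply win_eq (q := geo l (X i) m)
    (r := W i + 1 - B.e a * geo l (X i) (m + 1)) (geo_mem (B.e_mem Kc) (hX.mem i) m)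
    (B.Z.pow_mem (hX.mem i) m)
  · rw [B.e_add, geo]
    ring
  · linarith [hT.1, hT.2]
  · linarith [hT.1, hT.2]
  · positivity
  · have := hpowlt m (Nat.le_succ m)
    rw [← hl]
    linarith

/-- standard powers (from FD), for arbitrary indices -/
theorem Cd.pow (hx : B.Cd A x) :
    ∃ z : U → R, B.Cd {j | ∃ i ∈ A, ∃ k : ℕ, j = pr2 i (k : U)} z ∧
      ∀ i ∈ A, ∀ k : ℕ, z (pr2 i (k : U)) = x i ^ k := by
  classical
  have hz : ∀ i, ∀ k : ℕ, (if h : ∃ k' : ℕ, p2 (pr2 i (k : U)) = (k' : U) then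
      x (p1 (pr2 i (k : U))) ^ h.choose else 0) = x i ^ k := by
    intro i k
    have h : ∃ k' : ℕ, p2 (pr2 i (k : U)) = (k' : U) := ⟨k, p2_pr2' B i k⟩
    rw [dif_pos h, p1_pr2' B]
    congr 1
    have h1 := (p2_pr2' B i (k : U)).symm.trans h.choose_spec
    exact (Nat.cast_injective h1).symm
  refine ⟨fun j => if h : ∃ k' : ℕ, p2 j = (k' : U) then x (p1 j) ^ h.choose else 0, ?_,
    fun i _ k => hz i k⟩
  obtain ⟨⟨b, hb⟩, h2⟩ := hx
  obtain ⟨J₀, hJ₀⟩ := exists_inf B
  have powb : ∀ (c : U) (k : ℕ), B.e c ^ k ≤ B.e (c * J₀) := by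
    intro c k
    rw [← e_natCast_mul]
    apply e_le
    rw [mul_comm]
    exact mul_le_mul_of_nonneg_left (hJ₀ k).le zero_le
  apply Cd.of_approx
  · refine ⟨b * J₀, ?_⟩
    rintro _ ⟨i, hi, k, rfl⟩
    rw [hz i k, abs_pow]
    exact (pow_le_pow_left₀ (abs_nonneg _) (hb i hi) k).trans (powb b k)
  · intro N
    set M := N + (b + 1) * J₀ + J₀ with hM
    obtain ⟨J, hJ, K, P, Q, hP, hQ, h4⟩ := h2 M
    have hX := NF.absdiff hP hQ
    obtain ⟨J₁, hJ₁, K₁, S, nS, hS⟩ := NF.pow hX
    have ha : B.F1 (fun j => M * usub J₀ (p2 j)) :=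
      F.mul (F.const M) (F.sub (F.const J₀) (F.p2 (F.var 0)))
    have nS2 := NF.shift nS ha (L := M * J₀) (fun j =>
      mul_le_mul_of_nonneg_left (usub_le' B J₀ (p2 j)) zero_le)
    have hneg : B.D1 (fun j => ¬ (Q (p1 j) ≤ P (p1 j)) ∧ umod (p2 j) 2 = 1) :=
      D.and (D.not (NF.le_dfn hQ hP (F.p1 (F.var 0)) (F.p1 (F.var 0))))
        (D.eq (F.md (F.p2 (F.var 0)) (F.const 2)) (F.const 1))
    have hz0 : B.NF (K₁ + M * J₀) (fun _ : U => (0 : R)) := NF.zero _
    have nP' := NF.ite hneg hz0 nS2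
    have nQ' := NF.ite hneg nS2 hz0
    refine ⟨min J J₁, cdInfMin hJ hJ₁, M * J₀, _, _, _, nP', nQ', ?_⟩
    rintro _ ⟨i, hi, m, rfl⟩ hiJ
    have hile : i < min J J₁ := lt_of_le_of_lt (le_pr2_left' B i m) hiJ
    have h6 := h4 i hi (lt_of_lt_of_le hile (min_le_left _ _))
    have h7 := hS i (lt_of_lt_of_le hile (min_le_right _ _)) m
    rw [hz i m, h7]
    simp only [p1_pr2' B, p2_pr2' B, umod_two_natCast B]
    set D := P i - Q i with hD
    have hMpos := e_pos B M
    have hNpos := e_pos B N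
    have hsub := usub_add' B (hJ₀ m).le
    have hscale : B.e (M * J₀) = B.e (M * usub J₀ (m : U)) * B.e M ^ m := by
      conv_lhs => rw [← hsub]
      rw [← e_natCast_mul, ← B.e_add]
      congr 1
      ring
    have hspos := e_pos B (M * usub J₀ (m : U))
    have hval : ((if ¬ Q i ≤ P i ∧ ((m % 2 : ℕ) : U) = 1 then 0 else
        |D| ^ m * B.e (M * usub J₀ (m : U))) -
        (if ¬ Q i ≤ P i ∧ ((m % 2 : ℕ) : U) = 1 then |D| ^ m * B.e (M * usub J₀ (m : U)) else
          0)) / B.e (M * J₀) = (D / B.e M) ^ m := by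
      rw [hscale, div_pow]
      by_cases hle : Q i ≤ P i
      · have hD0 : 0 ≤ D := by
          rw [hD]
          linarith
        rw [if_neg (fun h => h.1 hle), if_neg (fun h => h.1 hle), abs_of_nonneg hD0]
        field_simp
        ring
      · have hD0 : D < 0 := by
          rw [hD]
          linarith [not_le.mp hle]
        rw [abs_of_neg hD0]
        rcases Nat.even_or_odd m with hev | hodd
        · have hm0 : m % 2 = 0 := Nat.even_iff.mp hev
          rw [hm0, if_neg (by
            rintro ⟨-, h⟩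
            rw [Nat.cast_zero] at h
            exact zero_ne_one h), if_neg (by
            rintro ⟨-, h⟩
            rw [Nat.cast_zero] at h
            exact zero_ne_one h), hev.neg_pow]
          field_simp
          ring
        · have hm1 : m % 2 = 1 := Nat.odd_iff.mp hodd
          rw [hm1, if_pos ⟨hle, Nat.cast_one⟩, if_pos ⟨hle, Nat.cast_one⟩, hodd.neg_pow]
          field_simp
          ring
    rw [hval]
    have hM1 : 1 / B.e M ≤ 1 := by
      rw [div_le_one hMpos]
      exact one_le_e B M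
    have hxb := hb i hi
    have hDb : |D / B.e M| ≤ B.e (b + 1) := by
      have h8 := abs_sub_abs_le_abs_sub (D / B.e M) (x i)
      rw [abs_sub_comm (D / B.e M) (x i)] at h8
      have := one_le_e B b
      rw [e_succ]
      linarith
    have hxb' : |x i| ≤ B.e (b + 1) := by
      have := e_pos B b
      rw [e_succ]
      linarith
    have hdiff := abs_pow_sub_pow_le (x i) (D / B.e M) m
    refine hdiff.trans ?_
    have hmax : max |x i| |D / B.e M| ^ (m - 1) ≤ B.e ((b + 1) * J₀) :=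
      (pow_le_pow_left₀ (le_max_of_le_left (abs_nonneg _)) (max_le hxb' hDb) _).trans (powb _ _)
    have hm : (m : R) ≤ B.e J₀ := (natCast_lt_e B hJ₀ m).le
    have hMe : B.e M = B.e N * B.e ((b + 1) * J₀) * B.e J₀ := by
      rw [hM, B.e_add, B.e_add]
    have hbJ := e_pos B ((b + 1) * J₀)
    have hJp := e_pos B J₀
    calc |x i - D / B.e M| * m * max |x i| |D / B.e M| ^ (m - 1)
        ≤ 1 / B.e M * B.e J₀ * B.e ((b + 1) * J₀) := by
          apply mul_le_mul (mul_le_mul h6 hm (Nat.cast_nonneg _) (by positivity)) hmax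
            (by positivity) (by positivity)
      _ = 1 / B.e N := by
          rw [hMe]
          field_simp

end BIP

end Pool.Agent.RSV
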