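import Pool.Agent.RSV.Defs

/-!
# The abstract interface: integer parts with bits

`BIP U R`: `U` is the (ordered semiring of) unary numbers, `Z` the integer part (the binary numbers
and their negatives), `e u = 2 ^ u`, and comprehension holds for all relations on `U` which are
definable by bounded formulas from the bits of finitely many elements of `Z`.
-/

namespace Pool.Agent.RSV

universe u v

section Core

variable {U : Type u} {R : Type v}

/-- Functions `(ℕ → U) → U` given by terms (with parameters). -/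
inductive TmF (U : Type u) [Add U] [Mul U] : ((ℕ → U) → U) → Prop
  | const (c : U) : TmF U (fun _ => c)
  | var (n : ℕ) : TmF U (fun v => v n)
  | add {s t : (ℕ → U) → U} : TmF U s → TmF U t → TmF U (fun v => s v + t v)
  | mul {s t : (ℕ → U) → U} : TmF U s → TmF U t → TmF U (fun v => s v * t v)

/-- The bit of `z` at position `u`: `⌊z / 2 ^ u⌋` is odd. -/
def bitOf [Ring R] [LT R] [LE R] (Z : Subring R) (e : U → R) (z : R) (u : U) : Prop :=
  ∃ q ∈ Z, q * (2 * e u) + e u ≤ z ∧ z < q * (2 * e u) + 2 * e u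

/-- Relations on `U` (in the form of predicates of a sequence of variables) definable by bounded
formulas from the bits of nonnegative elements of `Z`. -/
inductive DefF [CommSemiring U] [LE U] [Ring R] [LT R] [LE R] (Z : Subring R) (e : U → R) :
    ((ℕ → U) → Prop) → Prop
  | bit {z : R} {t : (ℕ → U) → U} (hz : z ∈ Z) (h0 : 0 ≤ z) (ht : TmF U t) :
      DefF Z e (fun v => bitOf Z e z (t v))
  | eq {s t : (ℕ → U) → U} (hs : TmF U s) (ht : TmF U t) : DefF Z e (fun v => s v = t v)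
  | le {s t : (ℕ → U) → U} (hs : TmF U s) (ht : TmF U t) : DefF Z e (fun v => s v ≤ t v)
  | not {P : (ℕ → U) → Prop} (hP : DefF Z e P) : DefF Z e (fun v => ¬ P v)
  | and {P Q : (ℕ → U) → Prop} (hP : DefF Z e P) (hQ : DefF Z e Q) :
      DefF Z e (fun v => P v ∧ Q v)
  | all {t : (ℕ → U) → U} {P : (ℕ → U) → Prop} (ht : TmF U t) (hP : DefF Z e P) :
      DefF Z e (fun v => ∀ x, x ≤ t v → P (cns x v))

/-- An integer part of `R` whose elements have bits indexed by `U`, with comprehension. -/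
structure BIP (U : Type u) (R : Type v) [CommSemiring U] [LinearOrder U] [IsStrictOrderedRing U]
    [CanonicallyOrderedAdd U] [Field R] [LinearOrder R] [IsStrictOrderedRing R] where
  le_of_lt_succ : ∀ x y : U, x < y + 1 → x ≤ y
  Z : Subring R
  discrete : ∀ z ∈ Z, 0 < z → 1 ≤ z
  exists_floor : ∀ r : R, ∃ z ∈ Z, z ≤ r ∧ r < z + 1
  e : U → R
  e_mem : ∀ u, e u ∈ Z
  e_zero : e 0 = 1
  e_one : e 1 = 2
  e_add : ∀ u v, e (u + v) = e u * e v
  e_lt : ∀ u v, u < v → e u < e v
  exists_len : ∀ z ∈ Z, 0 < z → ∃ u, e u ≤ z ∧ z < e (u + 1)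
  ext : ∀ x ∈ Z, ∀ y ∈ Z, 0 ≤ x → 0 ≤ y → (∀ u, bitOf Z e x u ↔ bitOf Z e y u) → x = y
  bit_add : ∀ x ∈ Z, ∀ y ∈ Z, 0 ≤ x → 0 ≤ y → ∀ i, bitOf Z e (x + y) i ↔
    Xor (Xor (bitOf Z e x i) (bitOf Z e y i))
      (∃ k, k < i ∧ bitOf Z e x k ∧ bitOf Z e y k ∧ ∀ j, k < j → j < i →
        bitOf Z e x j ∨ bitOf Z e y j)
  comp : ∀ P : (ℕ → U) → Prop, DefF Z e P → ∀ (v : ℕ → U) (b : U),
    ∃ z ∈ Z, 0 ≤ z ∧ z < e b ∧ ∀ u, u < b → (bitOf Z e z u ↔ P (cns u v))
  exists_nonstd : ∃ u : U, ∀ n : ℕ, (n : U) < u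

variable [CommSemiring U] [LinearOrder U] [IsStrictOrderedRing U] [CanonicallyOrderedAdd U]
  [Field R] [LinearOrder R] [IsStrictOrderedRing R] (B : BIP U R)

/-- `u` is nonstandard -/
def Inf (u : U) : Prop := ∀ n : ℕ, (n : U) < u

namespace BIP

/-- bits -/
def bit (z : R) (u : U) : Prop := bitOf B.Z B.e z u

/-- definable relations -/
def D (P : (ℕ → U) → Prop) : Prop := DefF B.Z B.e P

/-- definable functions, bounded by a term -/
def F (g : (ℕ → U) → U) : Prop :=
  (∃ t, TmF U t ∧ ∀ v, g v ≤ t v) ∧ B.D (fun v => v 0 = g (fun n => v (n + 1)))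

/-- definable unary functions, bounded by a term -/
def F1 (g : U → U) : Prop := B.F (fun v => g (v 0))

/-- definable unary predicates -/
def D1 (P : U → Prop) : Prop := B.D (fun v => P (v 0))

/-- the floor function -/
noncomputable def fl (x : R) : R := (B.exists_floor x).choose

/-- Internal families of elements of `[0, 2 ^ K) ∩ Z`, indexed by all of `U`. -/
structure NF (K : U) (S : U → R) : Prop where
  mem : ∀ i, S i ∈ B.Z
  nonneg : ∀ i, 0 ≤ S i
  lt : ∀ i, S i < B.e K
  dfn : B.D (fun v => B.bit (S (v 0)) (v 1))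

/-- `A ⊆ ℕ` is coded -/
def Coded (A : Set ℕ) : Prop := ∃ P : U → Prop, B.D1 P ∧ ∀ n : ℕ, P (n : U) ↔ n ∈ A

/-- The family of real numbers `x i`, `i ∈ A`, is internally approximable: it is bounded, and for
every precision `N` and some infinite `J`, the `x i` (`i ∈ A`, `i < J`) are approximated to within
`2 ^ (-N)` by an internal family of dyadic numbers. -/
def Cd (A : Set U) (x : U → R) : Prop :=
  (∃ b : U, ∀ i ∈ A, |x i| ≤ B.e b) ∧
  ∀ N : U, ∃ J : U, Inf J ∧ ∃ (K : U) (P Q : U → R), B.NF K P ∧ B.NF K Q ∧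
    ∀ i ∈ A, i < J → |x i - (P i - Q i) / B.e N| ≤ 1 / B.e N

end BIP

/-- the pairing function on `U` -/
def pr2 (i k : U) : U := (i + k) * (i + k) + k

/-- Decoding function: every finite sequence of natural numbers is `dec δ 0, dec δ 1, …` for some
`δ` -/
def dec (δ i : ℕ) : ℕ := Nat.beta δ i

/-- The polynomial with code `δ` in the variables `v 0, …, v (r - 1)`: the sum over
`t < dec δ 0` of the monomials `(c - c') * ∏ j < r, v j ^ α j`, with
`c = dec δ (pair t 0 + 1)`, `c' = dec δ (pair t 1 + 1)`, `α j = dec δ (pair t (j + 2) + 1)`. -/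
def pval (r δ : ℕ) (v : ℕ → R) : R :=
  ∑ t ∈ Finset.range (dec δ 0),
    ((dec δ (Nat.pair t 0 + 1) : R) - (dec δ (Nat.pair t 1 + 1) : R)) *
      ∏ j ∈ Finset.range r, v j ^ dec δ (Nat.pair t (j + 2) + 1)

end Core

end Pool.Agent.RSV
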