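import Mathlib

/-!
# Real-closed fields with integer parts that are models of `VTC⁰`: definitions

* `Tm`, `Fm`: terms and first-order formulas of the language `(+, ·, <, 0, 1)` of ordered rings;
* `RecursivelySaturated R`;
* `TwoSorted`, `IsV0`, `IsVTC0`: two-sorted structures for bounded arithmetic and the theory `VTC⁰`;
* `IsIntegerPart`, `IsIntegerPartOf`: the binary numbers of `M` form an integer part of `R`.
-/

namespace Pool.Agent.RSV

universe u v

/-! ### Recursively saturated ordered rings -/

/-- Terms of the language of ordered rings. -/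
inductive Tm : Type
  | var (n : ℕ)
  | zero
  | one
  | add (s t : Tm)
  | mul (s t : Tm)

/-- First-order formulas of the language of ordered rings (`ex n φ` is `∃ xₙ, φ`). -/
inductive Fm : Type
  | eq (s t : Tm)
  | lt (s t : Tm)
  | neg (φ : Fm)
  | and (φ ψ : Fm)
  | ex (n : ℕ) (φ : Fm)

/-- The value of a term under the assignment `v`. -/
def Tm.eval {R : Type*} [Semiring R] (v : ℕ → R) : Tm → R
  | .var n => v n
  | .zero => 0
  | .one => 1
  | .add s t => s.eval v + t.eval v
  | .mul s t => s.eval v * t.eval v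

/-- Truth of a formula under the assignment `v`. -/
def Fm.holds {R : Type*} [Semiring R] [LT R] : Fm → (ℕ → R) → Prop
  | .eq s t, v => s.eval v = t.eval v
  | .lt s t, v => s.eval v < t.eval v
  | .neg φ, v => ¬ φ.holds v
  | .and φ ψ, v => φ.holds v ∧ ψ.holds v
  | .ex n φ, v => ∃ a : R, φ.holds (Function.update v n a)

/-- The variables of a term. -/
def Tm.vars : Tm → Set ℕ
  | .var n => {n}
  | .zero => ∅
  | .one => ∅
  | .add s t => s.vars ∪ t.vars
  | .mul s t => s.vars ∪ t.vars

/-- The free variables of a formula. -/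
def Fm.free : Fm → Set ℕ
  | .eq s t => s.vars ∪ t.vars
  | .lt s t => s.vars ∪ t.vars
  | .neg φ => φ.free
  | .and φ ψ => φ.free ∪ ψ.free
  | .ex n φ => φ.free \ {n}

/-- Gödel numbers of terms. -/
def Tm.code : Tm → ℕ
  | .var n => Nat.pair 0 n
  | .zero => Nat.pair 1 0
  | .one => Nat.pair 2 0
  | .add s t => Nat.pair 3 (Nat.pair s.code t.code)
  | .mul s t => Nat.pair 4 (Nat.pair s.code t.code)

/-- Gödel numbers of formulas. -/
def Fm.code : Fm → ℕ
  | .eq s t => Nat.pair 0 (Nat.pair s.code t.code)
  | .lt s t => Nat.pair 1 (Nat.pair s.code t.code)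
  | .neg φ => Nat.pair 2 φ.code
  | .and φ ψ => Nat.pair 3 (Nat.pair φ.code ψ.code)
  | .ex n φ => Nat.pair 4 (Nat.pair n φ.code)

/-- A set of formulas is recursive if its set of Gödel numbers is decidable by an algorithm. -/
def IsRecursive (p : Set Fm) : Prop := ComputablePred fun n : ℕ => ∃ φ ∈ p, φ.code = n

/-- The assignment `x₀ … x_{k-1} ↦ b`, `x_k … x_{k+r-1} ↦ a` (and all other variables to `0`). -/
def asg {R : Type*} [Zero R] {k r : ℕ} (b : Fin k → R) (a : Fin r → R) (i : ℕ) : R :=
  if h : i < k then b ⟨i, h⟩ else if h' : i - k < r then a ⟨i - k, h'⟩ else 0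

/-- `R` is recursively saturated: every recursive set `p` of formulas in the variables
`x₀, …, x_{k-1}` over finitely many parameters `a`, all of whose finite subsets are satisfied by
some `k`-tuple of elements of `R`, is realised by a `k`-tuple of elements of `R`. -/
def RecursivelySaturated (R : Type*) [Semiring R] [LT R] : Prop :=
  ∀ (k r : ℕ) (a : Fin r → R) (p : Set Fm), IsRecursive p →
    (∀ φ ∈ p, ∀ i ∈ φ.free, i < k + r) →
    (∀ s : Finset Fm, (↑s : Set Fm) ⊆ p → ∃ b : Fin k → R, ∀ φ ∈ s, φ.holds (asg b a)) →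
    ∃ b : Fin k → R, ∀ φ ∈ p, φ.holds (asg b a)

/-! ### Two-sorted bounded arithmetic -/

/-- Structures for the two-sorted language of bounded arithmetic: the number sort `N` with
`0, 1, +, ·, ≤`, the set sort `S` (finite sets, i.e. binary strings), the length function `|X|` and
membership `y ∈ X`. -/
structure TwoSorted where
  N : Type u
  S : Type u
  zero : N
  one : N
  add : N → N → N
  mul : N → N → N
  le : N → N → Prop
  len : S → N
  mem : N → S → Prop

/-- Put `x` in front of the sequence `v`. -/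
def cns {α : Type*} (x : α) (v : ℕ → α) : ℕ → α
  | 0 => x
  | n + 1 => v n

section VTC0

variable (M : TwoSorted.{u})

/-- Strict order on the number sort. -/
def TwoSorted.lt (x y : M.N) : Prop := M.le x y ∧ x ≠ y

/-- Number terms, with parameters from `M`. -/
inductive NTm : Type u
  | const (c : M.N)
  | var (n : ℕ)
  | add (s t : NTm)
  | mul (s t : NTm)

/-- `Σ₀ᴮ` formulas (bounded number quantifiers, no set quantifiers), with number and set parameters
from `M`. -/
inductive SigB0 : Type u
  | mem (t : NTm M) (X : M.S)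
  | eq (s t : NTm M)
  | le (s t : NTm M)
  | neg (φ : SigB0)
  | and (φ ψ : SigB0)
  | all (t : NTm M) (φ : SigB0)

variable {M}

/-- The value of a number term. -/
def NTm.eval (v : ℕ → M.N) : NTm M → M.N
  | .const c => c
  | .var n => v n
  | .add s t => M.add (s.eval v) (t.eval v)
  | .mul s t => M.mul (s.eval v) (t.eval v)

/-- Truth of a `Σ₀ᴮ` formula; `all t φ` is `∀ x ≤ t, φ`, where `x` becomes the variable `0` of `φ`
and the other variables are shifted by one. -/
def SigB0.holds : SigB0 M → (ℕ → M.N) → Prop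
  | .mem t X, v => M.mem (t.eval v) X
  | .eq s t, v => s.eval v = t.eval v
  | .le s t, v => M.le (s.eval v) (t.eval v)
  | .neg φ, v => ¬ φ.holds v
  | .and φ ψ, v => φ.holds v ∧ ψ.holds v
  | .all t φ, v => ∀ x, M.le x (t.eval v) → φ.holds (cns x v)

variable (M)

/-- The theory `V⁰`: the axioms 2-BASIC of Cook and Nguyen and comprehension for `Σ₀ᴮ` formulas. -/
structure IsV0 : Prop where
  b1 : ∀ x, M.add x M.one ≠ M.zero
  b2 : ∀ x y, M.add x M.one = M.add y M.one → x = y
  b3 : ∀ x, M.add x M.zero = x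
  b4 : ∀ x y, M.add x (M.add y M.one) = M.add (M.add x y) M.one
  b5 : ∀ x, M.mul x M.zero = M.zero
  b6 : ∀ x y, M.mul x (M.add y M.one) = M.add (M.mul x y) x
  b7 : ∀ x y, M.le x y → M.le y x → x = y
  b8 : ∀ x y, M.le x (M.add x y)
  b9 : ∀ x, M.le M.zero x
  b10 : ∀ x y, M.le x y ∨ M.le y x
  b11 : ∀ x y, M.le x y ↔ M.lt x (M.add y M.one)
  b12 : ∀ x, x ≠ M.zero → ∃ y, M.le y x ∧ M.add y M.one = x
  l1 : ∀ X y, M.mem y X → M.lt y (M.len X)
  l2 : ∀ X y, M.add y M.one = M.len X → M.mem y X
  se : ∀ X Y, M.len X = M.len Y → (∀ i, M.lt i (M.len X) → (M.mem i X ↔ M.mem i Y)) → X = Y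
  comp : ∀ (φ : SigB0 M) (v : ℕ → M.N) (y : M.N),
    ∃ X : M.S, M.le (M.len X) y ∧ ∀ z, M.lt z y → (M.mem z X ↔ φ.holds (cns z v))

variable {M}

/-- The carry into position `i` in the addition of the binary numbers with bits `A` and `B`. -/
def carry (A B : M.N → Prop) (i : M.N) : Prop :=
  ∃ k, M.lt k i ∧ A k ∧ B k ∧ ∀ j, M.lt k j → M.lt j i → A j ∨ B j

/-- The `i`-th bit of the sum of the binary numbers with bits `A` and `B`. -/
def sumBit (A B : M.N → Prop) (i : M.N) : Prop := Xor (Xor (A i) (B i)) (carry A B i)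

/-- The graph of addition of binary numbers: `X + Y = Z`. -/
def AddG (X Y Z : M.S) : Prop :=
  ∀ i, M.mem i Z ↔ sumBit (fun j => M.mem j X) (fun j => M.mem j Y) i

/-- The pairing function of Cook and Nguyen on the number sort. -/
def pr (i j : M.N) : M.N :=
  M.add (M.mul (M.add i j) (M.add (M.add i j) M.one)) (M.add j j)

/-- Bit `j` of the `i`-th row of `W`. -/
def row (W : M.S) (i j : M.N) : Prop := M.mem (pr i j) W

/-- The graph of multiplication of binary numbers: `X · Y = Z`, with the sequence `W` of the partial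
sums `W_i = ∑_{l < i, l ∈ Y} 2 ^ l · X` as a witness. -/
def MulG (X Y Z : M.S) : Prop :=
  ∃ W : M.S, (∀ j, ¬ row W M.zero j) ∧
    (∀ i, M.lt i (M.len Y) → ∀ j, row W (M.add i M.one) j ↔
      sumBit (row W i) (fun l => M.mem i Y ∧ ∃ k, M.add k i = l ∧ M.mem k X) j) ∧
    ∀ j, M.mem j Z ↔ row W (M.len Y) j

variable (M)

/-- The theory `VTC⁰`: `V⁰` together with the totality of the multiplication of integers. -/
structure IsVTC0 : Prop extends IsV0 M where
  mul_total : ∀ X Y : M.S, ∃ Z : M.S, MulG X Y Z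

/-- The numeral `n = 1 + ⋯ + 1`. -/
def num : ℕ → M.N
  | 0 => M.zero
  | n + 1 => M.add (num n) M.one

/-- `M` is nonstandard. -/
def IsNonstandard : Prop := ∃ u : M.N, ∀ n : ℕ, u ≠ num M n

end VTC0

/-! ### Integer parts -/

/-- `I` is an integer part of the ordered field `R`. -/
structure IsIntegerPart {R : Type v} [Field R] [LinearOrder R] [IsStrictOrderedRing R]
    (I : Subring R) : Prop where
  discrete : ∀ x ∈ I, 0 < x → 1 ≤ x
  exists_floor : ∀ r : R, ∃ m ∈ I, m ≤ r ∧ r < m + 1

/-- The discretely ordered ring generated by the binary numbers of `M` (the nonnegative part of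
which is the set sort of `M` with the binary addition and multiplication) is (isomorphic to) an
integer part of `R`. -/
def IsIntegerPartOf (M : TwoSorted.{u}) (R : Type v) [Field R] [LinearOrder R]
    [IsStrictOrderedRing R] : Prop :=
  ∃ (I : Subring R) (ι : M.S → R), IsIntegerPart I ∧ Function.Injective ι ∧
    Set.range ι = {x | x ∈ I ∧ 0 ≤ x} ∧
    (∀ X Y Z : M.S, AddG X Y Z → ι Z = ι X + ι Y) ∧
    (∀ X Y Z : M.S, MulG X Y Z → ι Z = ι X * ι Y)

/-- The statement of the main theorem. -/
def Stmt_Main : Prop :=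
  ∀ (M : TwoSorted.{u}) (R : Type v) [Field R] [LinearOrder R] [IsStrictOrderedRing R]
    [IsRealClosed R], IsVTC0 M → IsNonstandard M → IsIntegerPartOf M R → RecursivelySaturated R

end Pool.Agent.RSV
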