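import Pool.Agent.RSV.DlibA

/-!
# DLIB: induction, overspill, arithmetic of the unary numbers

The first half (definable relations and functions, closure properties) is in `DlibA.lean`.
-/

namespace Pool.Agent.RSV

universe u v

variable {U : Type u} {R : Type v} [CommSemiring U] [LinearOrder U] [IsStrictOrderedRing U]
  [CanonicallyOrderedAdd U] [Field R] [LinearOrder R] [IsStrictOrderedRing R]

namespace BIP

variable (B : BIP U R)

section Ind

include B

/-! ### induction, least elements, overspill -/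

theorem e_pos (u : U) : 0 < B.e u := by
  rcases eq_or_ne u 0 with rfl | h
  · rw [B.e_zero]; exact zero_lt_one
  · have h1 := B.e_lt 0 u (pos_iff_ne_zero.2 h)
    rw [B.e_zero] at h1
    exact lt_trans zero_lt_one h1

theorem comp' {P : U → Prop} (hP : B.D1 P) (b : U) :
    ∃ z ∈ B.Z, 0 ≤ z ∧ z < B.e b ∧ ∀ u, u < b → (B.bit z u ↔ P u) := by
  obtain ⟨z, hz, h0, hb, h⟩ := B.comp (fun v => P (v 0)) hP (fun _ => 0) b
  exact ⟨z, hz, h0, hb, fun u hu => h u hu⟩

theorem ind {P : U → Prop} (hP : B.D1 P) (h0 : P 0) (hs : ∀ x, P x → P (x + 1)) (x : U) : P x := by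
  have hQ : B.D1 (fun u => ∀ y, y ≤ u → P y) := by
    refine D.all_le (P := fun y _ => P y) (F.var 0) ?_
    exact D.app1 hP (F.var 0)
  obtain ⟨z, hz, hz0, hzb, hbit⟩ := B.comp' hQ (x + 1)
  have hbit0 : B.bit z 0 := by
    rw [hbit 0 (by exact add_pos_of_nonneg_of_pos zero_le zero_lt_one)]
    intro y hy
    rw [show y = 0 from le_antisymm hy zero_le]
    exact h0
  have hzpos : 0 < z := by
    rcases hz0.lt_or_eq with h | h
    · exact h
    · exfalso
      subst h
      obtain ⟨q, hq, h1, h2⟩ := hbit0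
      have e0 := B.e_pos 0
      have hq0 : q < 0 := by
        by_contra hc
        push Not at hc
        have : 0 ≤ q * (2 * B.e 0) := by positivity
        linarith
      have hq1 : q ≤ -1 := by
        have := B.discrete (-q) (B.Z.neg_mem hq) (by linarith)
        linarith
      nlinarith
  obtain ⟨u0, hu1, hu2⟩ := B.exists_len z hz hzpos
  have he1 : B.e (u0 + 1) = 2 * B.e u0 := by rw [B.e_add, B.e_one, mul_comm]
  have hu0b : u0 < x + 1 := by
    by_contra hc
    push Not at hc
    rcases hc.lt_or_eq with h | h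
    · have := B.e_lt _ _ h
      linarith
    · rw [← h] at hu1
      linarith
  have hbu0 : B.bit z u0 := ⟨0, B.Z.zero_mem, by linarith, by linarith⟩
  have hQu0 := (hbit u0 hu0b).1 hbu0
  have hQs : ∀ y, y ≤ u0 + 1 → P y := by
    intro y hy
    rcases hy.lt_or_eq with h | h
    · exact hQu0 y ((B.lt_succ_iff _ _).1 h)
    · rw [h]
      exact hs _ (hQu0 u0 le_rfl)
  rcases lt_or_ge (u0 + 1) (x + 1) with h | h
  · exfalso
    obtain ⟨q, hq, h1, h2⟩ := (hbit _ h).2 hQs
    have epos := B.e_pos (u0 + 1)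
    have hq0 : q < 0 := by
      by_contra hc
      push Not at hc
      have : 0 ≤ q * (2 * B.e (u0 + 1)) := by positivity
      linarith
    have hq1 : q ≤ -1 := by
      have := B.discrete (-q) (B.Z.neg_mem hq) (by linarith)
      linarith
    nlinarith
  · exact hQs x (le_trans (le_self_add) h)

theorem least {P : U → Prop} (hP : B.D1 P) {x : U} (hx : P x) : ∃ y, P y ∧ ∀ z, z < y → ¬ P z := by
  by_contra hc
  push Not at hc
  have hQ : B.D1 (fun u => ∀ y, y ≤ u → ¬ P y) := by
    refine D.all_le (P := fun y _ => ¬ P y) (F.var 0) ?_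
    exact (D.app1 hP (F.var 0)).not
  have h := B.ind hQ (by
      intro y hy hPy
      obtain ⟨z, hz, _⟩ := hc y hPy
      exact absurd (lt_of_lt_of_le hz hy) (not_lt.2 zero_le)) (by
      intro u hu y hy hPy
      rcases hy.lt_or_eq with h | h
      · exact hu y ((B.lt_succ_iff _ _).1 h) hPy
      · obtain ⟨z, hz, hPz⟩ := hc y hPy
        rw [h] at hz
        exact hu z ((B.lt_succ_iff _ _).1 hz) hPz) x
  exact h x le_rfl hx

theorem overspill {P : U → Prop} (hP : B.D1 P) (h : ∀ n : ℕ, P n) :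
    ∃ J : U, Inf J ∧ ∀ x, x ≤ J → P x := by
  have hQ : B.D1 (fun u => ∀ y, y ≤ u → P y) := by
    refine D.all_le (P := fun y _ => P y) (F.var 0) ?_
    exact D.app1 hP (F.var 0)
  obtain ⟨I, hI⟩ := B.exists_nonstd
  by_cases hQI : ∀ y, y ≤ I → P y
  · exact ⟨I, hI, hQI⟩
  · obtain ⟨y, hy, hmin⟩ := B.least (P := fun u => ¬ ∀ y, y ≤ u → P y) (D.not hQ) hQI
    have hyn : ∀ n : ℕ, y ≠ n := by
      rintro n rfl
      apply hy
      intro w hw
      obtain ⟨m, _, rfl⟩ := B.exists_nat_of_le w n hw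
      exact h m
    have hyinf : Inf y := by
      by_contra hc
      obtain ⟨n, hn⟩ := (B.not_inf_iff y).1 hc
      exact hyn n hn
    rcases B.eq_zero_or_succ y with h0 | ⟨w, rfl⟩
    · exact absurd h0 (by simpa using hyn 0)
    · refine ⟨w, ?_, ?_⟩
      · intro n
        have := hyinf (n + 1)
        rw [Nat.cast_add, Nat.cast_one] at this
        exact lt_of_add_lt_add_right this
      · have := hmin w ((B.lt_succ_iff _ _).2 le_rfl)
        push Not at this
        exact this

/-- overspill below a given infinite number -/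
theorem overspill' {P : U → Prop} (hP : B.D1 P) (n₀ : ℕ) (h : ∀ n : ℕ, n₀ ≤ n → P n) {I : U}
    (hI : Inf I) : ∃ J : U, Inf J ∧ J ≤ I ∧ ∀ x, (n₀ : U) ≤ x → x ≤ J → P x := by
  have hQ : B.D1 (fun u => (n₀ : U) ≤ u → P u) :=
    (D.le (F.const _) (F.var 0)).imp hP
  obtain ⟨J, hJ, hJP⟩ := B.overspill hQ (fun n hn => h n (by exact_mod_cast hn))
  refine ⟨min J I, ?_, min_le_right _ _, ?_⟩
  · intro n
    exact lt_min (hJ n) (hI n)
  · intro x hx hxJ
    exact hJP x (le_trans hxJ (min_le_left _ _)) hx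

/-! ### arithmetic of the unary numbers -/

theorem sub_add {a b : U} (h : b ≤ a) : usub a b + b = a := by
  obtain ⟨c, hc⟩ := exists_add_of_le h
  have hex : ∃ c, b + c = a := ⟨c, hc.symm⟩
  rw [usub, dif_pos hex, add_comm]
  exact hex.choose_spec

theorem sub_eq_zero {a b : U} (h : a ≤ b) : usub a b = 0 := by
  unfold usub
  split_ifs with hex
  · have h1 := hex.choose_spec
    have h2 : b + hex.choose ≤ b + 0 := by rw [h1, add_zero]; exact h
    exact le_antisymm ((add_le_add_iff_left b).1 h2) zero_le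
  · rfl

theorem exists_div (a b : U) (hb : 0 < b) : ∃ q r, a = b * q + r ∧ r < b := by
  have hP : B.D1 (fun a => ∃ q, q ≤ a ∧ ∃ r, r ≤ a ∧ (a = b * q + r ∧ r < b)) := by
    refine D.ex_le (P := fun q v => ∃ r, r ≤ v 0 ∧ (v 0 = b * q + r ∧ r < b)) (F.var 0) ?_
    refine D.ex_le (P := fun r v => (v 1 = b * v 0 + r ∧ r < b)) (F.var 1) ?_
    exact (D.eq (F.var 2) (((F.const b).mul (F.var 1)).add (F.var 0))).and
      (D.lt (F.var 0) (F.const b))
  obtain ⟨q, _, r, _, h⟩ := B.ind hP ⟨0, le_rfl, 0, le_rfl, by simp, hb⟩ (by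
    rintro x ⟨q, hq, r, hr, h1, h2⟩
    rcases (B.succ_le_iff r b).2 h2 |>.lt_or_eq with h3 | h3
    · exact ⟨q, le_trans hq le_self_add, r + 1, add_le_add_left hr 1, by rw [h1, add_assoc], h3⟩
    · refine ⟨q + 1, add_le_add_left hq 1, 0, zero_le, ?_, hb⟩
      rw [h1, mul_add, mul_one, add_zero, add_assoc, h3]) a
  exact ⟨q, r, h⟩

theorem div_unique {b q r q' r' : U} (h : b * q + r = b * q' + r') (hr : r < b) (hr' : r' < b) :
    q = q' ∧ r = r' := by
  have key : ∀ {q r q' r' : U}, b * q + r = b * q' + r' → r < b → ¬ q < q' := by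
    intro q r q' r' h hr hlt
    have h1 : q + 1 ≤ q' := (B.succ_le_iff _ _).2 hlt
    have h2 : b * (q + 1) ≤ b * q' := mul_le_mul' le_rfl h1
    have h3 : b * q + r < b * (q + 1) := by
      rw [mul_add, mul_one]
      exact add_lt_add_right hr _
    have h4 : b * q' ≤ b * q' + r' := le_self_add
    exact absurd h (ne_of_lt (lt_of_lt_of_le h3 (h2.trans h4)))
  have hq : q = q' := le_antisymm (not_lt.1 (key h.symm hr')) (not_lt.1 (key h hr))
  subst hq
  exact ⟨rfl, add_left_cancel h⟩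

theorem div_add_md (a b : U) (hb : 0 < b) : b * udiv a b + umod a b = a := by
  have hex := B.exists_div a b hb
  rw [udiv, umod, dif_pos hex, dif_pos hex]
  exact hex.choose_spec.choose_spec.1.symm

theorem md_lt (a b : U) (hb : 0 < b) : umod a b < b := by
  have hex := B.exists_div a b hb
  rw [umod, dif_pos hex]
  exact hex.choose_spec.choose_spec.2

omit B in
theorem div_zero' (a : U) : udiv a 0 = 0 := by
  unfold udiv
  rw [dif_neg]
  rintro ⟨q, r, _, h⟩
  exact absurd h (not_lt.2 zero_le)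

omit B in
theorem mod_zero' (a : U) : umod a 0 = 0 := by
  unfold umod
  rw [dif_neg]
  rintro ⟨q, r, _, h⟩
  exact absurd h (not_lt.2 zero_le)

theorem div_le (a b : U) : udiv a b ≤ a := by
  rcases eq_or_ne b 0 with rfl | hb
  · rw [div_zero']; exact zero_le
  · have hb' : 0 < b := pos_iff_ne_zero.2 hb
    have h1 := B.div_add_md a b hb'
    have h2 : 1 * udiv a b ≤ b * udiv a b := by
      refine mul_le_mul' ?_ le_rfl
      have := (B.succ_le_iff 0 b).2 hb'
      rwa [zero_add] at this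
    rw [one_mul] at h2
    calc udiv a b ≤ b * udiv a b := h2
      _ ≤ b * udiv a b + umod a b := le_self_add
      _ = a := h1

theorem mod_le (a b : U) : umod a b ≤ a := by
  rcases eq_or_ne b 0 with rfl | hb
  · rw [mod_zero']; exact zero_le
  · have hb' : 0 < b := pos_iff_ne_zero.2 hb
    have h1 := B.div_add_md a b hb'
    calc umod a b ≤ b * udiv a b + umod a b := le_add_self
      _ = a := h1

omit B in
theorem le_pr2_right_aux (i k : U) : k ≤ RSV.pr2 i k := le_add_self

theorem pr2_lt_sq (i k : U) : RSV.pr2 i k < (i + k + 1) * (i + k + 1) := by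
  unfold RSV.pr2
  have h : (i + k + 1) * (i + k + 1) = (i + k) * (i + k) + k + (i + k + i + 1) := by ring
  rw [h]
  refine lt_add_of_pos_right _ ?_
  exact add_pos_of_nonneg_of_pos zero_le zero_lt_one

theorem pr2_inj {i k i' k' : U} (h : RSV.pr2 i k = RSV.pr2 i' k') : i = i' ∧ k = k' := by
  have key : ∀ {i k i' k' : U}, RSV.pr2 i k = RSV.pr2 i' k' → ¬ i + k < i' + k' := by
    intro i k i' k' h hlt
    have h1 : i + k + 1 ≤ i' + k' := (B.succ_le_iff _ _).2 hlt
    have h2 : (i + k + 1) * (i + k + 1) ≤ (i' + k') * (i' + k') := mul_le_mul' h1 h1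
    have h3 := B.pr2_lt_sq i k
    have h4 : (i' + k') * (i' + k') ≤ RSV.pr2 i' k' := le_self_add
    exact absurd h (ne_of_lt (lt_of_lt_of_le h3 (h2.trans h4)))
  have hs : i + k = i' + k' := le_antisymm (not_lt.1 (key h.symm)) (not_lt.1 (key h))
  have hk : k = k' := by
    unfold RSV.pr2 at h
    rw [hs] at h
    exact add_left_cancel h
  subst hk
  exact ⟨add_right_cancel hs, rfl⟩

theorem le_pr2_left (i k : U) : i ≤ RSV.pr2 i k := by
  rcases eq_or_ne i 0 with rfl | hi
  · exact zero_le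
  · have h1 : 1 ≤ i := by
      have := (B.succ_le_iff 0 i).2 (pos_iff_ne_zero.2 hi)
      rwa [zero_add] at this
    calc i = i * 1 := (mul_one i).symm
      _ ≤ (i + k) * (i + k) := mul_le_mul' le_self_add (h1.trans le_self_add)
      _ ≤ RSV.pr2 i k := le_self_add

theorem le_pr2_right (i k : U) : k ≤ RSV.pr2 i k := le_pr2_right_aux i k

theorem p1_pr2 (i k : U) : p1 (RSV.pr2 i k) = i := by
  have hex : ∃ i' k' : U, RSV.pr2 i' k' = RSV.pr2 i k := ⟨i, k, rfl⟩
  rw [RSV.p1, dif_pos hex]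
  exact (B.pr2_inj hex.choose_spec.choose_spec).1

theorem p2_pr2 (i k : U) : p2 (RSV.pr2 i k) = k := by
  have hex : ∃ i' k' : U, RSV.pr2 i' k' = RSV.pr2 i k := ⟨i, k, rfl⟩
  rw [RSV.p2, dif_pos hex]
  exact (B.pr2_inj hex.choose_spec.choose_spec).2

theorem p1_le (x : U) : p1 x ≤ x := by
  by_cases hex : ∃ i' k' : U, RSV.pr2 i' k' = x
  · obtain ⟨i, k, rfl⟩ := hex
    rw [B.p1_pr2]
    exact B.le_pr2_left i k
  · rw [RSV.p1, dif_neg hex]
    exact zero_le

theorem p2_le (x : U) : p2 x ≤ x := by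
  by_cases hex : ∃ i' k' : U, RSV.pr2 i' k' = x
  · obtain ⟨i, k, rfl⟩ := hex
    rw [B.p2_pr2]
    exact B.le_pr2_right i k
  · rw [RSV.p2, dif_neg hex]
    exact zero_le

/-- below some infinite number pairs stay below a given infinite number -/
theorem exists_pr2_lt {J : U} (hJ : Inf J) : ∃ J' : U, Inf J' ∧ J' ≤ J ∧
    ∀ i k, i < J' → k < J' → RSV.pr2 i k < J := by
  have hP : B.D1 (fun x => (x + x + 1) * (x + x + 1) < J) :=
    D.lt ((((F.var 0).add (F.var 0)).add (F.const 1)).mul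
      (((F.var 0).add (F.var 0)).add (F.const 1))) (F.const J)
  obtain ⟨J', hJ', hle, h⟩ := B.overspill' hP 0 (fun n _ => by
    have := hJ ((n + n + 1) * (n + n + 1))
    push_cast at this
    exact this) hJ
  refine ⟨J', hJ', hle, fun i k hi hk => ?_⟩
  refine lt_of_lt_of_le (B.pr2_lt_sq i k) (le_trans ?_ (h J' (by simp) le_rfl).le)
  have h1 : i + k + 1 ≤ J' + J' + 1 := add_le_add_left (add_le_add hi.le hk.le) 1
  exact mul_le_mul' h1 h1

end Ind

variable {B}

theorem F.sub {f g : (ℕ → U) → U} (hf : B.F f) (hg : B.F g) :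
    B.F (fun v => usub (f v) (g v)) := by
  refine F.of_graph hf (fun v => ?_) ?_
  · rcases le_total (g v) (f v) with h | h
    · calc usub (f v) (g v) ≤ usub (f v) (g v) + g v := le_self_add
        _ = f v := B.sub_add h
    · rw [B.sub_eq_zero h]; exact zero_le
  · have h1 : B.D (fun v => (v 0 + g (fun n => v (n + 1)) = f (fun n => v (n + 1))) ∨
        (f (fun n => v (n + 1)) ≤ g (fun n => v (n + 1)) ∧ v 0 = 0)) :=
      (D.eq ((F.var 0).add hg.shift) hf.shift).or
        ((D.le hf.shift hg.shift).and (D.eq (F.var 0) (F.const 0)))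
    refine D.congr h1 (fun v => ?_)
    generalize f (fun n => v (n + 1)) = a
    generalize g (fun n => v (n + 1)) = b
    constructor
    · rintro (h | ⟨h, h0⟩)
      · have hb : b ≤ a := by rw [← h]; exact le_add_self
        have := B.sub_add hb
        exact add_right_cancel (h.trans this.symm)
      · rw [B.sub_eq_zero h, h0]
    · intro h
      rcases le_total b a with hb | hb
      · left
        rw [h, B.sub_add hb]
      · right
        exact ⟨hb, by rw [h, B.sub_eq_zero hb]⟩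

theorem F.div {f g : (ℕ → U) → U} (hf : B.F f) (hg : B.F g) :
    B.F (fun v => udiv (f v) (g v)) := by
  refine F.of_graph hf (fun v => B.div_le _ _) ?_
  have h1 : B.D (fun v => (∃ r, r < g (fun n => v (n + 1)) ∧
      f (fun n => v (n + 1)) = g (fun n => v (n + 1)) * v 0 + r) ∨
      (g (fun n => v (n + 1)) = 0 ∧ v 0 = 0)) := by
    refine D.or ?_ ((D.eq hg.shift (F.const 0)).and (D.eq (F.var 0) (F.const 0)))
    refine D.ex_lt (P := fun r v => f (fun n => v (n + 1)) = g (fun n => v (n + 1)) * v 0 + r)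
      hg.shift ?_
    exact D.eq hf.shift.shift ((hg.shift.shift.mul (F.var 1)).add (F.var 0))
  refine D.congr h1 (fun v => ?_)
  generalize f (fun n => v (n + 1)) = a
  generalize g (fun n => v (n + 1)) = b
  constructor
  · rintro (⟨r, hr, h⟩ | ⟨h, h0⟩)
    · have hb : 0 < b := lt_of_le_of_lt zero_le hr
      have h2 := B.div_add_md a b hb
      exact (B.div_unique (h.symm.trans h2.symm) hr (B.md_lt a b hb)).1
    · rw [h, div_zero', h0]
  · intro h
    rcases eq_or_ne b 0 with hb | hb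
    · right
      rw [hb, div_zero'] at h
      exact ⟨hb, h⟩
    · left
      have hb' : 0 < b := pos_iff_ne_zero.2 hb
      exact ⟨umod a b, B.md_lt a b hb', by rw [h]; exact (B.div_add_md a b hb').symm⟩

theorem F.md {f g : (ℕ → U) → U} (hf : B.F f) (hg : B.F g) :
    B.F (fun v => umod (f v) (g v)) := by
  refine F.of_graph hf (fun v => B.mod_le _ _) ?_
  have h1 : B.D (fun v => (∃ q, q ≤ f (fun n => v (n + 1)) ∧
      (f (fun n => v (n + 1)) = g (fun n => v (n + 1)) * q + v 0 ∧
        v 0 < g (fun n => v (n + 1)))) ∨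
      (g (fun n => v (n + 1)) = 0 ∧ v 0 = 0)) := by
    refine D.or ?_ ((D.eq hg.shift (F.const 0)).and (D.eq (F.var 0) (F.const 0)))
    refine D.ex_le (P := fun q v => (f (fun n => v (n + 1)) = g (fun n => v (n + 1)) * q + v 0 ∧
        v 0 < g (fun n => v (n + 1)))) hf.shift ?_
    exact (D.eq hf.shift.shift ((hg.shift.shift.mul (F.var 0)).add (F.var 1))).and
      (D.lt (F.var 1) hg.shift.shift)
  refine D.congr h1 (fun v => ?_)
  generalize f (fun n => v (n + 1)) = a
  generalize g (fun n => v (n + 1)) = b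
  constructor
  · rintro (⟨q, _, h, hr⟩ | ⟨h, h0⟩)
    · have hb : 0 < b := lt_of_le_of_lt zero_le hr
      have h2 := B.div_add_md a b hb
      exact (B.div_unique (h.symm.trans h2.symm) hr (B.md_lt a b hb)).2
    · rw [h, mod_zero', h0]
  · intro h
    rcases eq_or_ne b 0 with hb | hb
    · right
      rw [hb, mod_zero'] at h
      exact ⟨hb, h⟩
    · left
      have hb' : 0 < b := pos_iff_ne_zero.2 hb
      exact ⟨udiv a b, B.div_le a b, by rw [h]; exact (B.div_add_md a b hb').symm,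
        by rw [h]; exact B.md_lt a b hb'⟩

theorem F.pr2 {f g : (ℕ → U) → U} (hf : B.F f) (hg : B.F g) :
    B.F (fun v => RSV.pr2 (f v) (g v)) :=
  ((hf.add hg).mul (hf.add hg)).add hg

theorem F.p1 {f : (ℕ → U) → U} (hf : B.F f) : B.F (fun v => RSV.p1 (f v)) := by
  refine F.of_graph hf (fun v => B.p1_le _) ?_
  have h1 : B.D (fun v => (∃ k, k ≤ f (fun n => v (n + 1)) ∧
      RSV.pr2 (v 0) k = f (fun n => v (n + 1))) ∨
      ((∀ i, i ≤ f (fun n => v (n + 1)) → ∀ k, k ≤ f (fun n => v (n + 1)) →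
        ¬ RSV.pr2 i k = f (fun n => v (n + 1))) ∧ v 0 = 0)) := by
    refine D.or ?_ (D.and ?_ (D.eq (F.var 0) (F.const 0)))
    · refine D.ex_le (P := fun k v => RSV.pr2 (v 0) k = f (fun n => v (n + 1))) hf.shift ?_
      exact D.eq (F.pr2 (F.var 1) (F.var 0)) hf.shift.shift
    · refine D.all_le (P := fun i v => ∀ k, k ≤ f (fun n => v (n + 1)) →
        ¬ RSV.pr2 i k = f (fun n => v (n + 1))) hf.shift ?_
      refine D.all_le (P := fun k v => ¬ RSV.pr2 (v 0) k = f (fun n => v (n + 1 + 1)))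
        hf.shift.shift ?_
      exact (D.eq (F.pr2 (F.var 1) (F.var 0)) hf.shift.shift.shift).not
  refine D.congr h1 (fun v => ?_)
  generalize f (fun n => v (n + 1)) = x
  constructor
  · rintro (⟨k, _, h⟩ | ⟨h, h0⟩)
    · rw [← h, B.p1_pr2]
    · rw [h0, RSV.p1, dif_neg]
      rintro ⟨i, k, rfl⟩
      exact h i (B.le_pr2_left i k) k (B.le_pr2_right i k) rfl
  · intro h
    by_cases hex : ∃ i k : U, RSV.pr2 i k = x
    · left
      obtain ⟨i, k, rfl⟩ := hex
      rw [h, B.p1_pr2]
      exact ⟨k, B.le_pr2_right i k, rfl⟩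
    · right
      refine ⟨fun i _ k _ hik => hex ⟨i, k, hik⟩, ?_⟩
      rw [h, RSV.p1, dif_neg hex]

theorem F.p2 {f : (ℕ → U) → U} (hf : B.F f) : B.F (fun v => RSV.p2 (f v)) := by
  refine F.of_graph hf (fun v => B.p2_le _) ?_
  have h1 : B.D (fun v => (∃ k, k ≤ f (fun n => v (n + 1)) ∧
      RSV.pr2 k (v 0) = f (fun n => v (n + 1))) ∨
      ((∀ i, i ≤ f (fun n => v (n + 1)) → ∀ k, k ≤ f (fun n => v (n + 1)) →
        ¬ RSV.pr2 i k = f (fun n => v (n + 1))) ∧ v 0 = 0)) := by
    refine D.or ?_ (D.and ?_ (D.eq (F.var 0) (F.const 0)))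
    · refine D.ex_le (P := fun k v => RSV.pr2 k (v 0) = f (fun n => v (n + 1))) hf.shift ?_
      exact D.eq (F.pr2 (F.var 0) (F.var 1)) hf.shift.shift
    · refine D.all_le (P := fun i v => ∀ k, k ≤ f (fun n => v (n + 1)) →
        ¬ RSV.pr2 i k = f (fun n => v (n + 1))) hf.shift ?_
      refine D.all_le (P := fun k v => ¬ RSV.pr2 (v 0) k = f (fun n => v (n + 1 + 1)))
        hf.shift.shift ?_
      exact (D.eq (F.pr2 (F.var 1) (F.var 0)) hf.shift.shift.shift).not
  refine D.congr h1 (fun v => ?_)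
  generalize f (fun n => v (n + 1)) = x
  constructor
  · rintro (⟨k, _, h⟩ | ⟨h, h0⟩)
    · rw [← h, B.p2_pr2]
    · rw [h0, RSV.p2, dif_neg]
      rintro ⟨i, k, rfl⟩
      exact h i (B.le_pr2_left i k) k (B.le_pr2_right i k) rfl
  · intro h
    by_cases hex : ∃ i k : U, RSV.pr2 i k = x
    · left
      obtain ⟨i, k, rfl⟩ := hex
      rw [h, B.p2_pr2]
      exact ⟨i, B.le_pr2_left i k, rfl⟩
    · right
      refine ⟨fun i _ k _ hik => hex ⟨i, k, hik⟩, ?_⟩
      rw [h, RSV.p2, dif_neg hex]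

end BIP

end Pool.Agent.RSV
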