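import Pool.Agent.RSV.Core

/-!
# DLIB: definable relations and functions on the unary numbers
-/

namespace Pool.Agent.RSV

universe u v

section Cns

variable {α : Type*}

@[simp] lemma cns_zero (x : α) (v : ℕ → α) : cns x v 0 = x := rfl
@[simp] lemma cns_succ (x : α) (v : ℕ → α) (n : ℕ) : cns x v (n + 1) = v n := rfl
@[simp] lemma cns_one (x : α) (v : ℕ → α) : cns x v 1 = v 0 := rfl
@[simp] lemma cns_two (x : α) (v : ℕ → α) : cns x v 2 = v 1 := rfl
@[simp] lemma cns_three (x : α) (v : ℕ → α) : cns x v 3 = v 2 := rfl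
@[simp] lemma cns_four (x : α) (v : ℕ → α) : cns x v 4 = v 3 := rfl
@[simp] lemma cns_five (x : α) (v : ℕ → α) : cns x v 5 = v 4 := rfl

end Cns

variable {U : Type u} {R : Type v} [CommSemiring U] [LinearOrder U] [IsStrictOrderedRing U]
  [CanonicallyOrderedAdd U] [Field R] [LinearOrder R] [IsStrictOrderedRing R]

/-! ### functions on the unary numbers -/

open Classical in
/-- truncated subtraction -/
noncomputable def usub (a b : U) : U := if h : ∃ c, b + c = a then h.choose else 0

open Classical in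
/-- quotient (and `0` if the divisor is `0`) -/
noncomputable def udiv (a b : U) : U := if h : ∃ q r, a = b * q + r ∧ r < b then h.choose else 0

open Classical in
/-- remainder (and `0` if the divisor is `0`) -/
noncomputable def umod (a b : U) : U :=
  if h : ∃ q r, a = b * q + r ∧ r < b then h.choose_spec.choose else 0

open Classical in
/-- first component of a pair -/
noncomputable def p1 (x : U) : U := if h : ∃ i k : U, pr2 i k = x then h.choose else 0

open Classical in
/-- second component of a pair -/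
noncomputable def p2 (x : U) : U :=
  if h : ∃ i k : U, pr2 i k = x then h.choose_spec.choose else 0

theorem pr2_natCast (i k : ℕ) : pr2 (i : U) (k : U) = ((pr2 i k : ℕ) : U) := by
  simp [pr2]

/-! ### terms -/

/-- substitution of terms in terms -/
theorem TmF.comp {t : (ℕ → U) → U} (ht : TmF U t) {g : ℕ → (ℕ → U) → U}
    (hg : ∀ i, TmF U (g i)) : TmF U (fun v => t (fun i => g i v)) := by
  induction ht with
  | const c => exact TmF.const c
  | var n => exact hg n
  | add _ _ h1 h2 => exact TmF.add h1 h2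
  | mul _ _ h1 h2 => exact TmF.mul h1 h2

theorem TmF.mono {t : (ℕ → U) → U} (ht : TmF U t) {v w : ℕ → U} (h : ∀ i, v i ≤ w i) :
    t v ≤ t w := by
  induction ht with
  | const c => exact le_rfl
  | var n => exact h n
  | add _ _ h1 h2 => exact add_le_add h1 h2
  | mul _ _ h1 h2 => exact mul_le_mul' h1 h2

theorem TmF.support {t : (ℕ → U) → U} (ht : TmF U t) :
    ∃ n : ℕ, ∀ v w : ℕ → U, (∀ i < n, v i = w i) → t v = t w := by
  induction ht with
  | const c => exact ⟨0, fun _ _ _ => rfl⟩
  | var n => exact ⟨n + 1, fun _ _ h => h n (Nat.lt_succ_self n)⟩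
  | add _ _ h1 h2 =>
    obtain ⟨n, hn⟩ := h1
    obtain ⟨m, hm⟩ := h2
    refine ⟨max n m, fun v w h => ?_⟩
    simp only
    rw [hn v w (fun i hi => h i (lt_of_lt_of_le hi (le_max_left _ _))),
      hm v w (fun i hi => h i (lt_of_lt_of_le hi (le_max_right _ _)))]
  | mul _ _ h1 h2 =>
    obtain ⟨n, hn⟩ := h1
    obtain ⟨m, hm⟩ := h2
    refine ⟨max n m, fun v w h => ?_⟩
    simp only
    rw [hn v w (fun i hi => h i (lt_of_lt_of_le hi (le_max_left _ _))),
      hm v w (fun i hi => h i (lt_of_lt_of_le hi (le_max_right _ _)))]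

/-- substitution of terms in definable relations -/
theorem DefF.compT {Z : Subring R} {e : U → R} {P : (ℕ → U) → Prop} (hP : DefF Z e P) :
    ∀ {g : ℕ → (ℕ → U) → U} (_ : ∀ i, TmF U (g i)), DefF Z e (fun v => P (fun i => g i v)) := by
  induction hP with
  | bit hz h0 ht => intro g hg; exact DefF.bit hz h0 (ht.comp hg)
  | eq hs ht => intro g hg; exact DefF.eq (hs.comp hg) (ht.comp hg)
  | le hs ht => intro g hg; exact DefF.le (hs.comp hg) (ht.comp hg)
  | not _ h => intro g hg; exact DefF.not (h hg)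
  | and _ _ h1 h2 => intro g hg; exact DefF.and (h1 hg) (h2 hg)
  | @all t P ht hP h =>
    intro g hg
    have hg' : ∀ i, TmF U ((fun i => match i with
        | 0 => fun v => v 0
        | i + 1 => fun v => g i (fun n => v (n + 1))) i : (ℕ → U) → U) := by
      intro i
      rcases i with _ | i
      · exact TmF.var 0
      · exact (hg i).comp (fun n => TmF.var (n + 1))
    have key := DefF.all (ht.comp hg) (h hg')
    have : (fun v : ℕ → U => ∀ x, x ≤ t (fun i => g i v) → P (cns x (fun i => g i v))) =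
        fun v => ∀ x, x ≤ t (fun i => g i v) → P (fun i => (fun i => match i with
        | 0 => fun v => v 0
        | i + 1 => fun v => g i (fun n => v (n + 1)) : ℕ → (ℕ → U) → U) i (cns x v)) := by
      funext v
      have e1 : ∀ x, cns x (fun i => g i v) = (fun i => (fun i => match i with
        | 0 => fun v => v 0
        | i + 1 => fun v => g i (fun n => v (n + 1)) : ℕ → (ℕ → U) → U) i (cns x v)) := by
        intro x
        funext i
        rcases i with _ | i <;> rfl
      simp only [e1]
    rw [this]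
    exact key

namespace BIP

variable (B : BIP U R)

/-! ### unary numbers -/

section Unary

include B

theorem lt_succ_iff (x y : U) : x < y + 1 ↔ x ≤ y :=
  ⟨B.le_of_lt_succ x y, fun h => lt_of_le_of_lt h (lt_add_of_pos_right _ zero_lt_one)⟩

theorem succ_le_iff (x y : U) : x + 1 ≤ y ↔ x < y := by
  constructor
  · intro h
    exact lt_of_lt_of_le (lt_add_of_pos_right _ zero_lt_one) h
  · intro h
    by_contra hc
    push Not at hc
    exact absurd ((B.lt_succ_iff y x).1 hc) (not_le.2 h)

theorem eq_zero_or_succ (x : U) : x = 0 ∨ ∃ y, x = y + 1 := by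
  rcases eq_or_ne x 0 with h | h
  · exact Or.inl h
  · right
    have hx : 0 < x := pos_iff_ne_zero.2 h
    have := (B.succ_le_iff 0 x).2 hx
    rw [zero_add] at this
    obtain ⟨c, hc⟩ := exists_add_of_le this
    exact ⟨c, by rw [hc, add_comm]⟩

/-- numbers below a standard number are standard -/
theorem exists_nat_of_le (x : U) (n : ℕ) (h : x ≤ n) : ∃ m : ℕ, m ≤ n ∧ x = m := by
  induction n generalizing x with
  | zero =>
    refine ⟨0, le_rfl, ?_⟩
    simpa using h
  | succ n ih =>
    rcases eq_or_lt_of_le h with h1 | h1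
    · exact ⟨n + 1, le_rfl, h1⟩
    · have h2 : x < (n : U) + 1 := by exact_mod_cast h1
      obtain ⟨m, hm, rfl⟩ := ih x ((B.lt_succ_iff _ _).1 h2)
      exact ⟨m, by omega, rfl⟩

theorem not_inf_iff (x : U) : ¬ Inf x ↔ ∃ n : ℕ, x = n := by
  constructor
  · intro h
    unfold Inf at h
    push Not at h
    obtain ⟨n, hn⟩ := h
    obtain ⟨m, _, rfl⟩ := B.exists_nat_of_le x n hn
    exact ⟨m, rfl⟩
  · rintro ⟨n, rfl⟩ h
    exact lt_irrefl _ (h n)

end Unary

/-! ### closure properties of definable relations -/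

variable {B}

theorem D.congr {P Q : (ℕ → U) → Prop} (h : B.D P) (hPQ : ∀ v, P v ↔ Q v) : B.D Q := by
  have : P = Q := funext fun v => propext (hPQ v)
  rw [← this]; exact h

theorem D.not {P : (ℕ → U) → Prop} (hP : B.D P) : B.D (fun v => ¬ P v) := DefF.not hP

theorem D.const (p : Prop) : B.D (fun _ => p) := by
  have h : B.D (fun _ : ℕ → U => (0 : U) = 0) := DefF.eq (TmF.const 0) (TmF.const 0)
  by_cases hp : p
  · exact D.congr h (fun v => by simp [hp])
  · exact D.congr h.not (fun v => by simp [hp])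

theorem D.and {P Q : (ℕ → U) → Prop} (hP : B.D P) (hQ : B.D Q) : B.D (fun v => P v ∧ Q v) :=
  DefF.and hP hQ

theorem D.or {P Q : (ℕ → U) → Prop} (hP : B.D P) (hQ : B.D Q) : B.D (fun v => P v ∨ Q v) :=
  D.congr (hP.not.and hQ.not).not (fun v => by tauto)

theorem D.imp {P Q : (ℕ → U) → Prop} (hP : B.D P) (hQ : B.D Q) : B.D (fun v => P v → Q v) :=
  D.congr (hP.and hQ.not).not (fun v => by tauto)

theorem D.iff {P Q : (ℕ → U) → Prop} (hP : B.D P) (hQ : B.D Q) : B.D (fun v => (P v ↔ Q v)) :=
  D.congr ((hP.imp hQ).and (hQ.imp hP)) (fun v => by tauto)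

theorem D.xor {P Q : (ℕ → U) → Prop} (hP : B.D P) (hQ : B.D Q) :
    B.D (fun v => Xor (P v) (Q v)) :=
  D.congr (hP.iff hQ).not (fun v => by unfold Xor; tauto)

/-- every definable relation depends on finitely many variables only -/
theorem D.support {P : (ℕ → U) → Prop} (hP : B.D P) :
    ∃ n : ℕ, ∀ v w : ℕ → U, (∀ i < n, v i = w i) → (P v ↔ P w) := by
  unfold D at hP
  induction hP with
  | bit hz h0 ht =>
    obtain ⟨n, hn⟩ := ht.support
    exact ⟨n, fun v w h => by simp only [hn v w h]⟩
  | eq hs ht =>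
    obtain ⟨n, hn⟩ := hs.support
    obtain ⟨m, hm⟩ := ht.support
    refine ⟨max n m, fun v w h => ?_⟩
    simp only
    rw [hn v w (fun i hi => h i (lt_of_lt_of_le hi (le_max_left _ _))),
      hm v w (fun i hi => h i (lt_of_lt_of_le hi (le_max_right _ _)))]
  | le hs ht =>
    obtain ⟨n, hn⟩ := hs.support
    obtain ⟨m, hm⟩ := ht.support
    refine ⟨max n m, fun v w h => ?_⟩
    simp only
    rw [hn v w (fun i hi => h i (lt_of_lt_of_le hi (le_max_left _ _))),
      hm v w (fun i hi => h i (lt_of_lt_of_le hi (le_max_right _ _)))]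
  | not _ h =>
    obtain ⟨n, hn⟩ := h
    exact ⟨n, fun v w h => by simp only [hn v w h]⟩
  | and _ _ h1 h2 =>
    obtain ⟨n, hn⟩ := h1
    obtain ⟨m, hm⟩ := h2
    refine ⟨max n m, fun v w h => ?_⟩
    simp only
    rw [hn v w (fun i hi => h i (lt_of_lt_of_le hi (le_max_left _ _))),
      hm v w (fun i hi => h i (lt_of_lt_of_le hi (le_max_right _ _)))]
  | all ht _ h =>
    obtain ⟨n, hn⟩ := ht.support
    obtain ⟨m, hm⟩ := h
    refine ⟨max n m, fun v w h => ?_⟩
    simp only
    rw [hn v w (fun i hi => h i (lt_of_lt_of_le hi (le_max_left _ _)))]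
    refine forall_congr' fun x => imp_congr Iff.rfl (hm _ _ ?_)
    intro i hi
    rcases i with _ | i
    · rfl
    · exact h i (lt_of_lt_of_le (Nat.lt_of_succ_lt hi) (le_max_right _ _))

/-- substitution of terms -/
theorem D.compT {P : (ℕ → U) → Prop} (hP : B.D P) {g : ℕ → (ℕ → U) → U}
    (hg : ∀ i, TmF U (g i)) : B.D (fun v => P (fun i => g i v)) := DefF.compT hP hg

/-- bounded quantifiers with a term as bound -/
theorem D.all_leT {t : (ℕ → U) → U} {P : U → (ℕ → U) → Prop} (ht : TmF U t)
    (hP : B.D (fun v => P (v 0) (fun n => v (n + 1)))) :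
    B.D (fun v => ∀ x, x ≤ t v → P x v) := DefF.all ht hP

theorem D.ex_leT {t : (ℕ → U) → U} {P : U → (ℕ → U) → Prop} (ht : TmF U t)
    (hP : B.D (fun v => P (v 0) (fun n => v (n + 1)))) :
    B.D (fun v => ∃ x, x ≤ t v ∧ P x v) := by
  have h1 : B.D (fun v => ¬ ∀ x, x ≤ t v → ¬ P x v) :=
    D.not (D.all_leT (P := fun x v => ¬ P x v) ht hP.not)
  refine D.congr h1 (fun v => ?_)
  push Not
  rfl

/-- terms are definable functions -/
theorem F.of_term {t : (ℕ → U) → U} (ht : TmF U t) : B.F t :=
  ⟨⟨t, ht, fun _ => le_rfl⟩, DefF.eq (TmF.var 0) (ht.comp (fun n => TmF.var (n + 1)))⟩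

theorem F.const (c : U) : B.F (fun _ => c) := F.of_term (TmF.const c)

theorem F.var (n : ℕ) : B.F (fun v => v n) := F.of_term (TmF.var n)

/-- substitution of terms in definable functions -/
theorem F.compT {f : (ℕ → U) → U} (hf : B.F f) {g : ℕ → (ℕ → U) → U}
    (hg : ∀ i, TmF U (g i)) : B.F (fun v => f (fun i => g i v)) := by
  obtain ⟨⟨t, ht, hft⟩, hgr⟩ := hf
  refine ⟨⟨_, ht.comp hg, fun v => hft _⟩, ?_⟩
  have h1 := hgr.compT (g := fun i => match i with
    | 0 => fun v => v 0
    | i + 1 => fun v => g i (fun n => v (n + 1))) (by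
      intro i
      rcases i with _ | i
      · exact TmF.var 0
      · exact (hg i).comp (fun n => TmF.var (n + 1)))
  exact h1

theorem F.shift {f : (ℕ → U) → U} (hf : B.F f) : B.F (fun v => f (fun n => v (n + 1))) :=
  F.compT hf (fun n => TmF.var (n + 1))

/-- prepend the values of `m` functions -/
def pre (m : ℕ) (g : ℕ → (ℕ → U) → U) (v : ℕ → U) : ℕ → U :=
  fun i => if i < m then g i v else v (i - m)

theorem D.comp_pre {P : (ℕ → U) → Prop} (hP : B.D P) (m : ℕ) :
    ∀ (g : ℕ → (ℕ → U) → U), (∀ i, B.F (g i)) → B.D (fun v => P (pre m g v)) := by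
  induction m with
  | zero =>
    intro g _
    refine D.congr hP (fun v => ?_)
    have : pre 0 g v = v := by
      funext i
      simp [pre]
    rw [this]
  | succ m ih =>
    intro g hg
    obtain ⟨⟨t, ht, hft⟩, hgr⟩ := hg m
    have h1 := ih (fun i v => g i (fun n => v (n + 1))) (fun i => (hg i).shift)
    have h2 : B.D (fun v => ∃ x, x ≤ t v ∧ (x = g m v ∧
        P (pre m (fun i v => g i (fun n => v (n + 1))) (cns x v)))) := by
      refine D.ex_leT (P := fun x v => (x = g m v ∧
        P (pre m (fun i v => g i (fun n => v (n + 1))) (cns x v)))) ht ?_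
      refine D.and hgr ?_
      refine D.congr h1 (fun v => ?_)
      have : cns (v 0) (fun n => v (n + 1)) = v := by
        funext i; rcases i with _ | i <;> rfl
      rw [this]
    refine D.congr h2 (fun v => ?_)
    have e1 : pre m (fun i v => g i (fun n => v (n + 1))) (cns (g m v) v) = pre (m + 1) g v := by
      funext i
      unfold pre
      rcases lt_trichotomy i m with h | h | h
      · rw [if_pos h, if_pos (Nat.lt_succ_of_lt h)]
        rfl
      · subst h
        simp
      · rw [if_neg (by omega), if_neg (by omega)]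
        obtain ⟨k, rfl⟩ : ∃ k, i = m + 1 + k := ⟨i - (m + 1), by omega⟩
        have a1 : m + 1 + k - m = k + 1 := by omega
        have a2 : m + 1 + k - (m + 1) = k := by omega
        rw [a1, a2]
        rfl
    constructor
    · rintro ⟨x, _, rfl, h⟩
      rwa [e1] at h
    · intro h
      exact ⟨g m v, hft v, rfl, by rwa [e1]⟩

/-- substitution of definable functions -/
theorem D.comp {P : (ℕ → U) → Prop} (hP : B.D P) {g : ℕ → (ℕ → U) → U} (hg : ∀ i, B.F (g i)) :
    B.D (fun v => P (fun i => g i v)) := by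
  obtain ⟨n, hn⟩ := hP.support
  refine D.congr (D.comp_pre hP n g hg) (fun v => hn _ _ ?_)
  intro i hi
  simp [pre, hi]

/-- substitution -/
theorem F.comp {f : (ℕ → U) → U} (hf : B.F f) {g : ℕ → (ℕ → U) → U} (hg : ∀ i, B.F (g i)) :
    B.F (fun v => f (fun i => g i v)) := by
  obtain ⟨⟨t, ht, hft⟩, hgr⟩ := hf
  choose s hs using fun i => (hg i).1
  refine ⟨⟨fun v => t (fun i => s i v), ht.comp (fun i => (hs i).1), fun v => ?_⟩, ?_⟩
  · exact le_trans (hft _) (ht.mono fun i => (hs i).2 v)
  · have h1 := hgr.comp (g := fun i => match i with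
      | 0 => fun v => v 0
      | i + 1 => fun v => g i (fun n => v (n + 1))) (by
        intro i
        rcases i with _ | i
        · exact F.var 0
        · exact (hg i).shift)
    exact h1

theorem D.app1 {P : U → Prop} (hP : B.D1 P) {f : (ℕ → U) → U} (hf : B.F f) :
    B.D (fun v => P (f v)) := D.comp (P := fun v => P (v 0)) hP (g := fun _ => f) (fun _ => hf)

theorem D.app2 {P : U → U → Prop} (hP : B.D (fun v => P (v 0) (v 1))) {f g : (ℕ → U) → U}
    (hf : B.F f) (hg : B.F g) : B.D (fun v => P (f v) (g v)) :=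
  D.comp (P := fun v => P (v 0) (v 1)) hP (g := fun i => match i with
    | 0 => f
    | _ + 1 => g) (fun i => by rcases i with _ | i <;> assumption)

theorem D.app3 {P : U → U → U → Prop} (hP : B.D (fun v => P (v 0) (v 1) (v 2)))
    {f g h : (ℕ → U) → U} (hf : B.F f) (hg : B.F g) (hh : B.F h) :
    B.D (fun v => P (f v) (g v) (h v)) :=
  D.comp (P := fun v => P (v 0) (v 1) (v 2)) hP (g := fun i => match i with
    | 0 => f
    | 1 => g
    | _ + 2 => h) (fun i => by rcases i with _ | _ | i <;> assumption)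

theorem F1.app {g : U → U} (hg : B.F1 g) {f : (ℕ → U) → U} (hf : B.F f) :
    B.F (fun v => g (f v)) := F.comp (f := fun v => g (v 0)) hg (g := fun _ => f) (fun _ => hf)

theorem D.bit {z : R} (hz : z ∈ B.Z) (h0 : 0 ≤ z) {f : (ℕ → U) → U} (hf : B.F f) :
    B.D (fun v => B.bit z (f v)) :=
  D.app1 (P := fun u => B.bit z u) (DefF.bit hz h0 (TmF.var 0)) hf

theorem D.eq {f g : (ℕ → U) → U} (hf : B.F f) (hg : B.F g) : B.D (fun v => f v = g v) :=
  D.app2 (P := fun x y => x = y) (DefF.eq (TmF.var 0) (TmF.var 1)) hf hg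

theorem D.le {f g : (ℕ → U) → U} (hf : B.F f) (hg : B.F g) : B.D (fun v => f v ≤ g v) :=
  D.app2 (P := fun x y => x ≤ y) (DefF.le (TmF.var 0) (TmF.var 1)) hf hg

theorem D.lt {f g : (ℕ → U) → U} (hf : B.F f) (hg : B.F g) : B.D (fun v => f v < g v) :=
  D.congr (D.le hg hf).not (fun _ => not_le)

theorem D.all_le {f : (ℕ → U) → U} {P : U → (ℕ → U) → Prop} (hf : B.F f)
    (hP : B.D (fun v => P (v 0) (fun n => v (n + 1)))) : B.D (fun v => ∀ x, x ≤ f v → P x v) := by
  have h1 : B.D (fun v => ∀ x, x ≤ v 0 → P x (fun n => v (n + 1))) := by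
    refine D.all_leT (P := fun x v => P x (fun n => v (n + 1))) (TmF.var 0) ?_
    exact hP.compT (g := fun i => match i with
      | 0 => fun v => v 0
      | i + 1 => fun v => v (i + 2)) (fun i => by rcases i with _ | i <;> exact TmF.var _)
  exact h1.comp (g := fun i => match i with
    | 0 => f
    | i + 1 => fun v => v i) (fun i => by
      rcases i with _ | i
      · exact hf
      · exact F.var i)

theorem D.ex_le {f : (ℕ → U) → U} {P : U → (ℕ → U) → Prop} (hf : B.F f)
    (hP : B.D (fun v => P (v 0) (fun n => v (n + 1)))) : B.D (fun v => ∃ x, x ≤ f v ∧ P x v) := by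
  have h1 : B.D (fun v => ¬ ∀ x, x ≤ f v → ¬ P x v) :=
    D.not (D.all_le (P := fun x v => ¬ P x v) hf hP.not)
  refine D.congr h1 (fun v => ?_)
  push Not
  rfl

theorem D.all_lt {f : (ℕ → U) → U} {P : U → (ℕ → U) → Prop} (hf : B.F f)
    (hP : B.D (fun v => P (v 0) (fun n => v (n + 1)))) : B.D (fun v => ∀ x, x < f v → P x v) := by
  have h1 : B.D (fun v => ∀ x, x ≤ f v → (x < f v → P x v)) :=
    D.all_le (P := fun x v => x < f v → P x v) hf
      ((D.lt (F.var 0) hf.shift).imp hP)
  exact D.congr h1 (fun v => ⟨fun h x hx => h x hx.le hx, fun h x _ hx => h x hx⟩)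

theorem D.ex_lt {f : (ℕ → U) → U} {P : U → (ℕ → U) → Prop} (hf : B.F f)
    (hP : B.D (fun v => P (v 0) (fun n => v (n + 1)))) : B.D (fun v => ∃ x, x < f v ∧ P x v) := by
  have h1 : B.D (fun v => ¬ ∀ x, x < f v → ¬ P x v) :=
    D.not (D.all_lt (P := fun x v => ¬ P x v) hf hP.not)
  refine D.congr h1 (fun v => ?_)
  push Not
  rfl

theorem F.add {f g : (ℕ → U) → U} (hf : B.F f) (hg : B.F g) : B.F (fun v => f v + g v) :=
  F.comp (f := fun v => v 0 + v 1) (F.of_term (TmF.add (TmF.var 0) (TmF.var 1)))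
    (g := fun i => match i with
    | 0 => f
    | _ + 1 => g) (fun i => by rcases i with _ | i <;> assumption)

theorem F.mul {f g : (ℕ → U) → U} (hf : B.F f) (hg : B.F g) : B.F (fun v => f v * g v) :=
  F.comp (f := fun v => v 0 * v 1) (F.of_term (TmF.mul (TmF.var 0) (TmF.var 1)))
    (g := fun i => match i with
    | 0 => f
    | _ + 1 => g) (fun i => by rcases i with _ | i <;> assumption)

/-- a function bounded by a definable function and with a definable graph is definable -/
theorem F.of_graph {f g : (ℕ → U) → U} (hg : B.F g) (h : ∀ v, f v ≤ g v)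
    (hf : B.D (fun v => v 0 = f (fun n => v (n + 1)))) : B.F f := by
  obtain ⟨⟨t, ht, hgt⟩, _⟩ := hg
  exact ⟨⟨t, ht, fun v => (h v).trans (hgt v)⟩, hf⟩

theorem F.ite {P : (ℕ → U) → Prop} [DecidablePred P] {f g : (ℕ → U) → U} (hP : B.D P)
    (hf : B.F f) (hg : B.F g) : B.F (fun v => if P v then f v else g v) := by
  refine F.of_graph (hf.add hg) (fun v => ?_) ?_
  · split_ifs
    · exact le_self_add
    · exact le_add_self
  · have hP' : B.D (fun v => P (fun n => v (n + 1))) :=
      hP.compT (fun n => TmF.var (n + 1))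
    have h1 : B.D (fun v => (P (fun n => v (n + 1)) ∧ v 0 = f (fun n => v (n + 1))) ∨
        (¬ P (fun n => v (n + 1)) ∧ v 0 = g (fun n => v (n + 1)))) :=
      (hP'.and (D.eq (F.var 0) hf.shift)).or (hP'.not.and (D.eq (F.var 0) hg.shift))
    refine D.congr h1 (fun v => ?_)
    by_cases h : P (fun n => v (n + 1)) <;> simp [h]

end BIP

end Pool.Agent.RSV
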