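import Pool.Agent.RSV.Specs

/-!
# Henkin theories: codes, names, environments

Names of elements are the codes `Nat.pair s e` ('the value of the term with code `s` in the
environment `e`'). Environments: `0` is the base environment, `upd 0 e n x` is `e` with the variable
`n` changed to the element with name `x`, `upd (g + 1) e n c` is `e` with the variable `n` changed to
a witness of the formula with code `c`.
-/

namespace Pool.Agent.RSV

universe u v

namespace Hk

def tVar (n : ℕ) : ℕ := Nat.pair 0 n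
def tZero : ℕ := Nat.pair 1 0
def tOne : ℕ := Nat.pair 2 0
def tAdd (s t : ℕ) : ℕ := Nat.pair 3 (Nat.pair s t)
def tMul (s t : ℕ) : ℕ := Nat.pair 4 (Nat.pair s t)
def cEq (s t : ℕ) : ℕ := Nat.pair 0 (Nat.pair s t)
def cLt (s t : ℕ) : ℕ := Nat.pair 1 (Nat.pair s t)
def cNeg (c : ℕ) : ℕ := Nat.pair 2 c
def cAnd (c d : ℕ) : ℕ := Nat.pair 3 (Nat.pair c d)
def cEx (n c : ℕ) : ℕ := Nat.pair 4 (Nat.pair n c)

/-- environments -/
def upd (g e n y : ℕ) : ℕ := Nat.pair g (Nat.pair e (Nat.pair n y)) + 1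

/-- the name of the sum of the elements with names `x`, `y` -/
def nAdd (x y : ℕ) : ℕ := Nat.pair (tAdd (tVar 0) (tVar 1)) (upd 0 (upd 0 0 0 x) 1 y)

/-- the name of the product of the elements with names `x`, `y` -/
def nMul (x y : ℕ) : ℕ := Nat.pair (tMul (tVar 0) (tVar 1)) (upd 0 (upd 0 0 0 x) 1 y)

end Hk

open Hk

/-- The Horner term `x₀ ^ n + x₁ x₀ ^ (n-1) + ⋯ + x_n`. -/
def hor : ℕ → Tm
  | 0 => .one
  | n + 1 => .add (.mul (hor n) (.var 0)) (.var (n + 1))

lemma hor_eval {R : Type*} [CommSemiring R] (v : ℕ → R) (n : ℕ) :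
    (hor n).eval v = v 0 ^ n + ∑ i ∈ Finset.range n, v (i + 1) * v 0 ^ (n - 1 - i) := by
  induction n with
  | zero => simp [hor, Tm.eval]
  | succ n ih =>
    have h1 : (hor (n + 1)).eval v = (hor n).eval v * v 0 + v (n + 1) := rfl
    rw [h1, ih, Finset.sum_range_succ, add_mul, Finset.sum_mul, ← pow_succ, add_assoc]
    congr 1
    congr 1
    · refine Finset.sum_congr rfl fun i hi => ?_
      rw [Finset.mem_range] at hi
      rw [mul_assoc, ← pow_succ]
      congr 2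
      omega
    · simp

/-- `∃ x₀, x₀ ^ (2 m + 1) + x₁ x₀ ^ (2 m) + ⋯ + x_{2 m + 1} = 0` -/
def rootF (m : ℕ) : Fm := .ex 0 (.eq (hor (2 * m + 1)) .zero)

/-- implication -/
def Fm.imp (φ ψ : Fm) : Fm := .neg (.and φ (.neg ψ))

/-- The axioms of ordered fields in which nonnegative elements have square roots. -/
def axL : List Fm :=
  let x : Tm := .var 0
  let y : Tm := .var 1
  let z : Tm := .var 2
  [ .eq (.add (.add x y) z) (.add x (.add y z)),
    .eq (.add x y) (.add y x),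
    .eq (.add .zero x) x,
    .ex 1 (.eq (.add y x) .zero),
    .eq (.mul (.mul x y) z) (.mul x (.mul y z)),
    .eq (.mul x y) (.mul y x),
    .eq (.mul .one x) x,
    .eq (.mul x (.add y z)) (.add (.mul x y) (.mul x z)),
    (Fm.neg (.eq x .zero)).imp (.ex 1 (.eq (.mul x y) .one)),
    .neg (.eq .zero .one),
    .neg (.lt x x),
    (Fm.lt x y).imp ((Fm.lt y z).imp (.lt x z)),
    (Fm.neg (.lt x y)).imp ((Fm.neg (.lt y x)).imp (.eq x y)),
    (Fm.lt x y).imp (.lt (.add z x) (.add z y)),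
    (Fm.lt .zero x).imp ((Fm.lt .zero y).imp (.lt .zero (.mul x y))),
    (Fm.lt .zero x).imp (.ex 1 (.eq (.mul y y) x)) ]

/-- A Henkin theory: `T c e` is the truth of the formula with code `c` in the environment `e`,
`E`, `L` are the equality and the order of names. -/
structure Henk (T E L : ℕ → ℕ → Prop) : Prop where
  refl : ∀ x, E x x
  eucl : ∀ x y z, E x y → E x z → E y z
  zero : ∀ e, E (Nat.pair tZero e) (Nat.pair tZero 0)
  one : ∀ e, E (Nat.pair tOne e) (Nat.pair tOne 0)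
  add : ∀ s t e x y, E (Nat.pair s e) x → E (Nat.pair t e) y →
    E (Nat.pair (tAdd s t) e) (nAdd x y)
  mul : ∀ s t e x y, E (Nat.pair s e) x → E (Nat.pair t e) y →
    E (Nat.pair (tMul s t) e) (nMul x y)
  upd_same : ∀ e n x, E (Nat.pair (tVar n) (upd 0 e n x)) x
  upd_ne : ∀ g e n y m, m ≠ n → E (Nat.pair (tVar m) (upd g e n y)) (Nat.pair (tVar m) e)
  eq_mp : ∀ s t e, T (cEq s t) e → E (Nat.pair s e) (Nat.pair t e)
  eq_mpr : ∀ s t e, E (Nat.pair s e) (Nat.pair t e) → T (cEq s t) e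
  lt_mp : ∀ s t e x y, E (Nat.pair s e) x → E (Nat.pair t e) y → T (cLt s t) e → L x y
  lt_mpr : ∀ s t e x y, E (Nat.pair s e) x → E (Nat.pair t e) y → L x y → T (cLt s t) e
  neg_mp : ∀ c e, T (cNeg c) e → ¬ T c e
  neg_mpr : ∀ c e, ¬ T c e → T (cNeg c) e
  and_left : ∀ c d e, T (cAnd c d) e → T c e
  and_right : ∀ c d e, T (cAnd c d) e → T d e
  and_mpr : ∀ c d e, T c e → T d e → T (cAnd c d) e
  ex_mp : ∀ c n e, T (cEx n c) e → T c (upd 1 e n c)
  ex_mpr : ∀ c n e x, T c (upd 0 e n x) → T (cEx n c) e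
  ax : ∀ φ ∈ axL, ∀ e, T φ.code e
  root : ∀ m e, T (rootF m).code e

/-- MODEL: a Henkin theory has a real closed model. -/
def Stmt_HModel : Prop :=
  ∀ T E L : ℕ → ℕ → Prop, Henk T E L →
    ∃ (N : Type) (_ : Field N) (_ : LinearOrder N) (_ : IsStrictOrderedRing N)
      (_ : IsRealClosed N) (w : ℕ → N), ∀ φ : Fm, φ.holds w ↔ T φ.code 0

/-- TREE: coded Henkin theories. `K` is a computable system of formulas -/
def Stmt_HTree : Prop :=
  ∀ (R : Type v) [Field R] [LinearOrder R] [IsStrictOrderedRing R] [IsRealClosed R]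
    (Cod : Set ℕ → Prop), ScottLike Cod →
    ∀ (q : ℕ → Fm) (Q : Set ℕ) (p : Set Fm), IsRecursive p → Computable (fun n => (q n).code) →
    Cod Q →
    (∀ s : Finset Fm, (↑s : Set Fm) ⊆ p →
      ∃ b : ℕ → R, (∀ n, (q n).holds b ↔ n ∈ Q) ∧ ∀ φ ∈ s, φ.holds b) →
    ∃ T E L : ℕ → ℕ → Prop, Henk T E L ∧ Cod {c | T c 0} ∧ (∀ φ ∈ p, T φ.code 0) ∧
      ∀ n, T (q n).code 0 ↔ n ∈ Q

end Pool.Agent.RSV
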