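import Pool.Agent.RSV.HenkDefs

/-!
# Coded Henkin theories
-/

namespace Pool.Agent.RSV

set_option linter.unusedVariables false
set_option linter.unusedSimpArgs false
set_option linter.unusedSectionVars false

universe u v

open Hk

namespace HT

/-! ### Decoding -/

lemma unpair_snd_lt {c : ℕ} (h : c.unpair.1 ≠ 0) : c.unpair.2 < c := by
  have h1 : Nat.pair c.unpair.1 c.unpair.2 = c := Nat.pair_unpair c
  generalize c.unpair.1 = a at *
  generalize c.unpair.2 = b at *
  subst h1
  unfold Nat.pair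
  split_ifs with h2
  · have : b ≤ b * b := Nat.le_mul_self b
    omega
  · have : 1 ≤ a := Nat.one_le_iff_ne_zero.mpr h
    nlinarith

def decT (c : ℕ) : Tm :=
  if h0 : c.unpair.1 = 0 then .var c.unpair.2
  else if c.unpair.1 = 1 then .zero
  else if c.unpair.1 = 2 then .one
  else if c.unpair.1 = 3 then .add (decT c.unpair.2.unpair.1) (decT c.unpair.2.unpair.2)
  else .mul (decT c.unpair.2.unpair.1) (decT c.unpair.2.unpair.2)
termination_by c
decreasing_by
  all_goals
    have h1 := unpair_snd_lt h0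
    first
    | exact lt_of_le_of_lt (Nat.unpair_left_le _) h1
    | exact lt_of_le_of_lt (Nat.unpair_right_le _) h1

@[simp] lemma decT_var (n : ℕ) : decT (tVar n) = .var n := by
  rw [decT]; simp [tVar]
@[simp] lemma decT_zero : decT tZero = .zero := by
  rw [decT]; simp [tZero]
@[simp] lemma decT_one : decT tOne = .one := by
  rw [decT]; simp [tOne]
@[simp] lemma decT_add (s t : ℕ) : decT (tAdd s t) = .add (decT s) (decT t) := by
  rw [decT]; simp [tAdd]
@[simp] lemma decT_mul (s t : ℕ) : decT (tMul s t) = .mul (decT s) (decT t) := by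
  rw [decT]; simp [tMul]

lemma decT_code (t : Tm) : decT t.code = t := by
  induction t with
  | var n => exact decT_var n
  | zero => exact decT_zero
  | one => exact decT_one
  | add s t hs ht => rw [Tm.code]; erw [decT_add]; rw [hs, ht]
  | mul s t hs ht => rw [Tm.code]; erw [decT_mul]; rw [hs, ht]

def decF (c : ℕ) : Fm :=
  if c.unpair.1 = 0 then .eq (decT c.unpair.2.unpair.1) (decT c.unpair.2.unpair.2)
  else if h1 : c.unpair.1 = 1 then .lt (decT c.unpair.2.unpair.1) (decT c.unpair.2.unpair.2)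
  else if h2 : c.unpair.1 = 2 then .neg (decF c.unpair.2)
  else if h3 : c.unpair.1 = 3 then .and (decF c.unpair.2.unpair.1) (decF c.unpair.2.unpair.2)
  else if h4 : c.unpair.1 = 0 then .eq .zero .zero
  else .ex c.unpair.2.unpair.1 (decF c.unpair.2.unpair.2)
termination_by c
decreasing_by
  all_goals
    have h := unpair_snd_lt (c := c) (by omega)
    first
    | exact h
    | exact lt_of_le_of_lt (Nat.unpair_left_le _) h
    | exact lt_of_le_of_lt (Nat.unpair_right_le _) h

@[simp] lemma decF_eq (s t : ℕ) : decF (cEq s t) = .eq (decT s) (decT t) := by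
  rw [decF]; simp [cEq]
@[simp] lemma decF_lt (s t : ℕ) : decF (cLt s t) = .lt (decT s) (decT t) := by
  rw [decF]; simp [cLt]
@[simp] lemma decF_neg (c : ℕ) : decF (cNeg c) = .neg (decF c) := by
  rw [decF]; simp [cNeg]
@[simp] lemma decF_and (c d : ℕ) : decF (cAnd c d) = .and (decF c) (decF d) := by
  rw [decF]; simp [cAnd]
@[simp] lemma decF_ex (n c : ℕ) : decF (cEx n c) = .ex n (decF c) := by
  rw [decF]; simp [cEx]

lemma decF_code (φ : Fm) : decF φ.code = φ := by
  induction φ with
  | eq s t => rw [Fm.code]; erw [decF_eq]; rw [decT_code, decT_code]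
  | lt s t => rw [Fm.code]; erw [decF_lt]; rw [decT_code, decT_code]
  | neg φ h => rw [Fm.code]; erw [decF_neg]; rw [h]
  | and φ ψ h h' => rw [Fm.code]; erw [decF_and]; rw [h, h']
  | ex n φ h => rw [Fm.code]; erw [decF_ex]; rw [h]

lemma code_inj {φ ψ : Fm} (h : φ.code = ψ.code) : φ = ψ := by
  rw [← decF_code φ, h, decF_code]

/-! ### Interpretation in `R` -/

section Sem

variable {R : Type v} [Field R] [LinearOrder R] [IsStrictOrderedRing R]

open Classical in
/-- a witness for `∃ xₙ, φ` -/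
noncomputable def wit (v : ℕ → R) (n : ℕ) (φ : Fm) : R :=
  if h : ∃ a, φ.holds (Function.update v n a) then h.choose else 0

lemma wit_spec {v : ℕ → R} {n : ℕ} {φ : Fm} (h : ∃ a, φ.holds (Function.update v n a)) :
    φ.holds (Function.update v n (wit v n φ)) := by
  unfold wit; rw [dif_pos h]; exact h.choose_spec

/-- the assignment of an environment -/
noncomputable def env (b : ℕ → R) (m : ℕ) : ℕ → R :=
  if h : m = 0 then b
  else
    Function.update (env b (m - 1).unpair.2.unpair.1) (m - 1).unpair.2.unpair.2.unpair.1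
      (if (m - 1).unpair.1 = 0 then
        (decT (m - 1).unpair.2.unpair.2.unpair.2.unpair.1).eval
          (env b (m - 1).unpair.2.unpair.2.unpair.2.unpair.2)
      else wit (env b (m - 1).unpair.2.unpair.1) (m - 1).unpair.2.unpair.2.unpair.1
        (decF (m - 1).unpair.2.unpair.2.unpair.2))
termination_by m
decreasing_by
  all_goals
    have h1 : (m - 1).unpair.2 ≤ m - 1 := Nat.unpair_right_le _
    have h2 : (m - 1).unpair.2.unpair.1 ≤ (m - 1).unpair.2 := Nat.unpair_left_le _
    have h3 : (m - 1).unpair.2.unpair.2 ≤ (m - 1).unpair.2 := Nat.unpair_right_le _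
    have h4 : (m - 1).unpair.2.unpair.2.unpair.2 ≤ (m - 1).unpair.2.unpair.2 :=
      Nat.unpair_right_le _
    have h5 : (m - 1).unpair.2.unpair.2.unpair.2.unpair.2 ≤
      (m - 1).unpair.2.unpair.2.unpair.2 := Nat.unpair_right_le _
    omega

/-- the value of a name -/
noncomputable def val (b : ℕ → R) (x : ℕ) : R := (decT x.unpair.1).eval (env b x.unpair.2)

@[simp] lemma env_zero (b : ℕ → R) : env b 0 = b := by
  rw [env]; simp

lemma env_upd_zero (b : ℕ → R) (e n x : ℕ) :
    env b (upd 0 e n x) = Function.update (env b e) n (val b x) := by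
  rw [env]; simp [upd, val]

lemma env_upd_one (b : ℕ → R) (e n c : ℕ) :
    env b (upd 1 e n c) = Function.update (env b e) n (wit (env b e) n (decF c)) := by
  rw [env]; simp [upd]

lemma env_upd_ne (b : ℕ → R) (g e n y m : ℕ) (h : m ≠ n) :
    env b (upd g e n y) m = env b e m := by
  rw [env]; simp [upd, h]

@[simp] lemma val_pair (b : ℕ → R) (s e : ℕ) : val b (Nat.pair s e) = (decT s).eval (env b e) := by
  simp [val]

lemma val_nAdd (b : ℕ → R) (x y : ℕ) : val b (nAdd x y) = val b x + val b y := by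
  simp [nAdd, Tm.eval, env_upd_zero]

lemma val_nMul (b : ℕ → R) (x y : ℕ) : val b (nMul x y) = val b x * val b y := by
  simp [nMul, Tm.eval, env_upd_zero]

lemma root_holds [IsRealClosed R] (m : ℕ) (v : ℕ → R) : (rootF m).holds v := by
  set g : Polynomial R := ∑ i ∈ Finset.range (2 * m + 1),
    Polynomial.C (v (i + 1)) * Polynomial.X ^ (2 * m + 1 - 1 - i) with hg
  have hdeg : g.degree < ((2 * m + 1 : ℕ) : WithBot ℕ) := by
    refine lt_of_le_of_lt (Polynomial.degree_sum_le _ _) ?_
    rw [Finset.sup_lt_iff (by exact WithBot.bot_lt_coe _)]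
    intro i hi
    refine lt_of_le_of_lt (Polynomial.degree_C_mul_X_pow_le _ _) ?_
    exact_mod_cast (by omega : 2 * m + 1 - 1 - i < 2 * m + 1)
  have hnat : (Polynomial.X ^ (2 * m + 1) + g).natDegree = 2 * m + 1 := by
    have h1 : (Polynomial.X ^ (2 * m + 1) + g).degree = ((2 * m + 1 : ℕ) : WithBot ℕ) := by
      rw [Polynomial.degree_add_eq_left_of_degree_lt]
      · exact Polynomial.degree_X_pow _
      · rw [Polynomial.degree_X_pow]; exact hdeg
    exact Polynomial.natDegree_eq_of_degree_eq_some h1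
  obtain ⟨a, ha⟩ := IsRealClosed.exists_isRoot_of_odd_natDegree
    (f := Polynomial.X ^ (2 * m + 1) + g) (by rw [hnat]; exact ⟨m, rfl⟩)
  refine ⟨a, ?_⟩
  show (hor (2 * m + 1)).eval _ = (0 : R)
  rw [hor_eval]
  rw [Polynomial.IsRoot.def, hg] at ha
  simp only [Polynomial.eval_add, Polynomial.eval_pow, Polynomial.eval_X,
    Polynomial.eval_finsetSum, Polynomial.eval_mul, Polynomial.eval_C] at ha
  simpa using ha

lemma ax_holds [IsRealClosed R] (φ : Fm) (hφ : φ ∈ axL) (v : ℕ → R) : φ.holds v := by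
  simp only [axL, List.mem_cons, List.not_mem_nil, or_false] at hφ
  rcases hφ with rfl | rfl | rfl | rfl | rfl | rfl | rfl | rfl | rfl | rfl | rfl | rfl | rfl |
    rfl | rfl | rfl
  · simp only [Fm.holds, Tm.eval]; ring
  · simp only [Fm.holds, Tm.eval]; ring
  · simp only [Fm.holds, Tm.eval]; ring
  · refine ⟨- v 0, ?_⟩
    simp [Fm.holds, Tm.eval]
  · simp only [Fm.holds, Tm.eval]; ring
  · simp only [Fm.holds, Tm.eval]; ring
  · simp only [Fm.holds, Tm.eval]; ring
  · simp only [Fm.holds, Tm.eval]; ring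
  · simp only [Fm.imp, Fm.holds, Tm.eval]
    rintro ⟨h1, h2⟩
    refine h2 ⟨(v 0)⁻¹, ?_⟩
    simpa using mul_inv_cancel₀ h1
  · simp [Fm.holds, Tm.eval]
  · simp [Fm.holds, Tm.eval]
  · simp only [Fm.imp, Fm.holds, Tm.eval]
    rintro ⟨h1, h2⟩
    exact h2 fun h3 => h3.2 (h1.trans h3.1)
  · simp only [Fm.imp, Fm.holds, Tm.eval]
    rintro ⟨h1, h2⟩
    exact h2 fun h3 => h3.2 (le_antisymm (not_lt.mp h3.1) (not_lt.mp h1))
  · simp only [Fm.imp, Fm.holds, Tm.eval]
    rintro ⟨h1, h2⟩
    exact h2 (by linarith)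
  · simp only [Fm.imp, Fm.holds, Tm.eval]
    rintro ⟨h1, h2⟩
    exact h2 fun h3 => h3.2 (mul_pos h1 h3.1)
  · simp only [Fm.imp, Fm.holds, Tm.eval]
    rintro ⟨h1, h2⟩
    obtain ⟨r, hr⟩ := IsSquare.of_nonneg h1.le
    refine h2 ⟨r, ?_⟩
    simpa using hr.symm

lemma henk_sem [IsRealClosed R] (b : ℕ → R) :
    Henk (fun c e => (decF c).holds (env b e)) (fun x y => val b x = val b y)
      (fun x y => val b x < val b y) where
  refl x := rfl
  eucl x y z h1 h2 := h1.symm.trans h2
  zero e := by simp [Tm.eval]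
  one e := by simp [Tm.eval]
  add s t e x y hx hy := by rw [val_nAdd, ← hx, ← hy]; simp [Tm.eval]
  mul s t e x y hx hy := by rw [val_nMul, ← hx, ← hy]; simp [Tm.eval]
  upd_same e n x := by simp [env_upd_zero, Tm.eval]
  upd_ne g e n y m h := by simp [env_upd_ne _ _ _ _ _ _ h, Tm.eval]
  eq_mp s t e h := by simpa [Fm.holds] using h
  eq_mpr s t e h := by simpa [Fm.holds] using h
  lt_mp s t e x y hx hy h := by rw [← hx, ← hy]; simpa [Fm.holds] using h
  lt_mpr s t e x y hx hy h := by rw [← hx, ← hy] at h; simpa [Fm.holds] using h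
  neg_mp c e h := by simpa [Fm.holds] using h
  neg_mpr c e h := by simpa [Fm.holds] using h
  and_left c d e h := by simp only [decF_and, Fm.holds] at h; exact h.1
  and_right c d e h := by simp only [decF_and, Fm.holds] at h; exact h.2
  and_mpr c d e h h' := by simp only [decF_and, Fm.holds]; exact ⟨h, h'⟩
  ex_mp c n e h := by
    simp only [decF_ex, Fm.holds] at h
    rw [env_upd_one]
    exact wit_spec h
  ex_mpr c n e x h := by
    simp only [decF_ex, Fm.holds]
    rw [env_upd_zero] at h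
    exact ⟨_, h⟩
  ax φ hφ e := by rw [decF_code]; exact ax_holds φ hφ _
  root m e := by rw [decF_code]; exact root_holds m _

end Sem

/-! ### Clauses -/

/-- index expressions -/
inductive Ex : Type
  | v (i : ℕ)
  | c (n : ℕ)
  | p (a b : Ex)
  | s (a : Ex)

def comp : ℕ → ℕ → ℕ
  | 0, d => d.unpair.1
  | i + 1, d => comp i d.unpair.2

@[simp] lemma comp_zero (a b : ℕ) : comp 0 (Nat.pair a b) = a := by simp [comp]
@[simp] lemma comp_succ (i a b : ℕ) : comp (i + 1) (Nat.pair a b) = comp i b := by simp [comp]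
@[simp] lemma comp_one (a b : ℕ) : comp 1 (Nat.pair a b) = comp 0 b := comp_succ _ _ _
@[simp] lemma comp_two (a b : ℕ) : comp 2 (Nat.pair a b) = comp 1 b := comp_succ _ _ _
@[simp] lemma comp_three (a b : ℕ) : comp 3 (Nat.pair a b) = comp 2 b := comp_succ _ _ _
@[simp] lemma comp_four (a b : ℕ) : comp 4 (Nat.pair a b) = comp 3 b := comp_succ _ _ _

def Ex.ev (d : ℕ) : Ex → ℕ
  | .v i => comp i d
  | .c n => n
  | .p a b => Nat.pair (a.ev d) (b.ev d)
  | .s a => a.ev d + 1

lemma comp_primrec (i : ℕ) : Primrec (comp i) := by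
  induction i with
  | zero => exact Primrec.fst.comp Primrec.unpair
  | succ i ih => exact ih.comp (Primrec.snd.comp Primrec.unpair)

lemma Ex.primrec (E : Ex) : Primrec (fun d => E.ev d) := by
  induction E with
  | v i => exact comp_primrec i
  | c n => exact Primrec.const n
  | p a b ha hb => exact Primrec₂.natPair.comp ha hb
  | s a ha => exact Primrec.succ.comp ha

/-- satisfaction of a clause -/
def Sat (τ : ℕ → Bool) (C : List (ℕ × Bool)) : Prop := ∃ p ∈ C, τ p.1 ≠ p.2

def Sch (l : List (Ex × Bool)) (d : ℕ) : List (ℕ × Bool) := l.map fun p => (p.1.ev d, p.2)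

lemma Sch.primrec (l : List (Ex × Bool)) : Primrec (Sch l) := by
  induction l with
  | nil => exact Primrec.const []
  | cons p l ih =>
    exact Primrec.list_cons.comp (Primrec.pair p.1.primrec (Primrec.const p.2)) ih

def TT (τ : ℕ → Bool) (c e : ℕ) : Prop := τ (Nat.pair 0 (Nat.pair c e)) = true
def EE (τ : ℕ → Bool) (x y : ℕ) : Prop := τ (Nat.pair 1 (Nat.pair x y)) = true
def LL (τ : ℕ → Bool) (x y : ℕ) : Prop := τ (Nat.pair 2 (Nat.pair x y)) = true

def lT (c e : Ex) (b : Bool) : Ex × Bool := (.p (.c 0) (.p c e), b)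
def lE (c e : Ex) (b : Bool) : Ex × Bool := (.p (.c 1) (.p c e), b)
def lL (c e : Ex) (b : Bool) : Ex × Bool := (.p (.c 2) (.p c e), b)

section
variable (τ : ℕ → Bool) (c e : Ex) (l : List (Ex × Bool)) (d : ℕ)

@[simp] lemma sat_nil : Sat τ (Sch [] d) ↔ False := by simp [Sat, Sch]
@[simp] lemma sat_Tt : Sat τ (Sch (lT c e true :: l) d) ↔
    ¬ TT τ (c.ev d) (e.ev d) ∨ Sat τ (Sch l d) := by
  simp [Sat, Sch, lT, TT, Ex.ev]
@[simp] lemma sat_Tf : Sat τ (Sch (lT c e false :: l) d) ↔
    TT τ (c.ev d) (e.ev d) ∨ Sat τ (Sch l d) := by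
  simp [Sat, Sch, lT, TT, Ex.ev]
@[simp] lemma sat_Et : Sat τ (Sch (lE c e true :: l) d) ↔
    ¬ EE τ (c.ev d) (e.ev d) ∨ Sat τ (Sch l d) := by
  simp [Sat, Sch, lE, EE, Ex.ev]
@[simp] lemma sat_Ef : Sat τ (Sch (lE c e false :: l) d) ↔
    EE τ (c.ev d) (e.ev d) ∨ Sat τ (Sch l d) := by
  simp [Sat, Sch, lE, EE, Ex.ev]
@[simp] lemma sat_Lt : Sat τ (Sch (lL c e true :: l) d) ↔
    ¬ LL τ (c.ev d) (e.ev d) ∨ Sat τ (Sch l d) := by
  simp [Sat, Sch, lL, LL, Ex.ev]
@[simp] lemma sat_Lf : Sat τ (Sch (lL c e false :: l) d) ↔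
    LL τ (c.ev d) (e.ev d) ∨ Sat τ (Sch l d) := by
  simp [Sat, Sch, lL, LL, Ex.ev]
end

def xVar (n : Ex) : Ex := .p (.c 0) n
def xZero : Ex := .c tZero
def xOne : Ex := .c tOne
def xAdd (s t : Ex) : Ex := .p (.c 3) (.p s t)
def xMul (s t : Ex) : Ex := .p (.c 4) (.p s t)
def yEq (s t : Ex) : Ex := .p (.c 0) (.p s t)
def yLt (s t : Ex) : Ex := .p (.c 1) (.p s t)
def yNeg (c : Ex) : Ex := .p (.c 2) c
def yAnd (c d : Ex) : Ex := .p (.c 3) (.p c d)
def yEx (n c : Ex) : Ex := .p (.c 4) (.p n c)
def xUpd (g e n y : Ex) : Ex := .s (.p g (.p e (.p n y)))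
def xnAdd (x y : Ex) : Ex :=
  .p (xAdd (xVar (.c 0)) (xVar (.c 1))) (xUpd (.c 0) (xUpd (.c 0) (.c 0) (.c 0) x) (.c 1) y)
def xnMul (x y : Ex) : Ex :=
  .p (xMul (xVar (.c 0)) (xVar (.c 1))) (xUpd (.c 0) (xUpd (.c 0) (.c 0) (.c 0) x) (.c 1) y)

section
variable (d : ℕ) (s t n c e g y : Ex)
@[simp] lemma ev_v (i : ℕ) : (Ex.v i).ev d = comp i d := rfl
@[simp] lemma ev_c (i : ℕ) : (Ex.c i).ev d = i := rfl
@[simp] lemma ev_p : (Ex.p s t).ev d = Nat.pair (s.ev d) (t.ev d) := rfl
@[simp] lemma ev_xVar : (xVar n).ev d = tVar (n.ev d) := rfl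
@[simp] lemma ev_xZero : xZero.ev d = tZero := rfl
@[simp] lemma ev_xOne : xOne.ev d = tOne := rfl
@[simp] lemma ev_xAdd : (xAdd s t).ev d = tAdd (s.ev d) (t.ev d) := rfl
@[simp] lemma ev_xMul : (xMul s t).ev d = tMul (s.ev d) (t.ev d) := rfl
@[simp] lemma ev_yEq : (yEq s t).ev d = cEq (s.ev d) (t.ev d) := rfl
@[simp] lemma ev_yLt : (yLt s t).ev d = cLt (s.ev d) (t.ev d) := rfl
@[simp] lemma ev_yNeg : (yNeg s).ev d = cNeg (s.ev d) := rfl
@[simp] lemma ev_yAnd : (yAnd s t).ev d = cAnd (s.ev d) (t.ev d) := rfl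
@[simp] lemma ev_yEx : (yEx s t).ev d = cEx (s.ev d) (t.ev d) := rfl
@[simp] lemma ev_xUpd : (xUpd g e n y).ev d = upd (g.ev d) (e.ev d) (n.ev d) (y.ev d) := rfl
@[simp] lemma ev_xnAdd : (xnAdd s t).ev d = nAdd (s.ev d) (t.ev d) := rfl
@[simp] lemma ev_xnMul : (xnMul s t).ev d = nMul (s.ev d) (t.ev d) := rfl
end

/-- the clause schemas -/
def schs : List (List (Ex × Bool)) :=
  let v := Ex.v
  [ [lE (v 0) (v 0) false],
    [lE (v 0) (v 1) true, lE (v 0) (v 2) true, lE (v 1) (v 2) false],
    [lE (.p xZero (v 0)) (.p xZero (.c 0)) false],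
    [lE (.p xOne (v 0)) (.p xOne (.c 0)) false],
    [lE (.p (v 0) (v 2)) (v 3) true, lE (.p (v 1) (v 2)) (v 4) true,
      lE (.p (xAdd (v 0) (v 1)) (v 2)) (xnAdd (v 3) (v 4)) false],
    [lE (.p (v 0) (v 2)) (v 3) true, lE (.p (v 1) (v 2)) (v 4) true,
      lE (.p (xMul (v 0) (v 1)) (v 2)) (xnMul (v 3) (v 4)) false],
    [lE (.p (xVar (v 1)) (xUpd (.c 0) (v 0) (v 1) (v 2))) (v 2) false],
    [lT (yEq (v 0) (v 1)) (v 2) true, lE (.p (v 0) (v 2)) (.p (v 1) (v 2)) false],
    [lE (.p (v 0) (v 2)) (.p (v 1) (v 2)) true, lT (yEq (v 0) (v 1)) (v 2) false],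
    [lE (.p (v 0) (v 2)) (v 3) true, lE (.p (v 1) (v 2)) (v 4) true,
      lT (yLt (v 0) (v 1)) (v 2) true, lL (v 3) (v 4) false],
    [lE (.p (v 0) (v 2)) (v 3) true, lE (.p (v 1) (v 2)) (v 4) true,
      lL (v 3) (v 4) true, lT (yLt (v 0) (v 1)) (v 2) false],
    [lT (yNeg (v 0)) (v 1) true, lT (v 0) (v 1) true],
    [lT (v 0) (v 1) false, lT (yNeg (v 0)) (v 1) false],
    [lT (yAnd (v 0) (v 1)) (v 2) true, lT (v 0) (v 2) false],
    [lT (yAnd (v 0) (v 1)) (v 2) true, lT (v 1) (v 2) false],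
    [lT (v 0) (v 2) true, lT (v 1) (v 2) true, lT (yAnd (v 0) (v 1)) (v 2) false],
    [lT (yEx (v 1) (v 0)) (v 2) true, lT (v 0) (xUpd (.c 1) (v 2) (v 1) (v 0)) false],
    [lT (v 0) (xUpd (.c 0) (v 2) (v 1) (v 3)) true, lT (yEx (v 1) (v 0)) (v 2) false] ]

def triv : List (ℕ × Bool) := [(0, true), (0, false)]

lemma sat_triv (τ : ℕ → Bool) : Sat τ triv := by
  unfold Sat triv
  cases h : τ 0 <;> simp [h]

/-- the schema for the unchanged variables: data `g, e, n, y, m` -/
def clNe (d : ℕ) : List (ℕ × Bool) :=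
  bif (comp 4 d == comp 2 d) then triv else
    Sch [lE (.p (xVar (.v 4)) (xUpd (.v 0) (.v 1) (.v 2) (.v 3))) (.p (xVar (.v 4)) (.v 1)) false] d

/-- the schema for the roots -/
def clRoot (d : ℕ) : List (ℕ × Bool) :=
  [(Nat.pair 0 (Nat.pair (rootF d.unpair.1).code d.unpair.2), false)]

/-- the schema of an axiom -/
def clAx (φ : Fm) : ℕ → List (ℕ × Bool) := Sch [lT (.c φ.code) (.v 0) false]

def clsH : List (ℕ → List (ℕ × Bool)) := schs.map Sch ++ [clNe, clRoot] ++ axL.map clAx

lemma i1 {A B : Prop} : (¬ A ∨ B) ↔ (A → B) := by tauto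
lemma i2 {A B C : Prop} : (¬ A ∨ ¬ B ∨ C) ↔ (A → B → C) := by tauto
lemma i3 {A B C D : Prop} : (¬ A ∨ ¬ B ∨ ¬ C ∨ D) ↔ (A → B → C → D) := by tauto
lemma i4 {A B : Prop} : (A ∨ B) ↔ (¬ A → B) := by tauto

lemma henk_iff (τ : ℕ → Bool) :
    (∀ f ∈ clsH, ∀ d, Sat τ (f d)) ↔ Henk (TT τ) (EE τ) (LL τ) := by
  have key : (∀ f ∈ clsH, ∀ d, Sat τ (f d)) ↔ (∀ l ∈ schs, ∀ d, Sat τ (Sch l d)) ∧
      (∀ d, Sat τ (clNe d)) ∧ (∀ d, Sat τ (clRoot d)) ∧ ∀ φ ∈ axL, ∀ d, Sat τ (clAx φ d) := by
    simp only [clsH, List.forall_mem_append, List.forall_mem_map, List.forall_mem_cons]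
    simp [and_assoc]
  rw [key]
  have hne : ∀ d, Sat τ (clNe d) ↔ (comp 4 d ≠ comp 2 d →
      EE τ (Nat.pair (tVar (comp 4 d)) (upd (comp 0 d) (comp 1 d) (comp 2 d) (comp 3 d)))
        (Nat.pair (tVar (comp 4 d)) (comp 1 d))) := by
    intro d
    unfold clNe
    by_cases h : comp 4 d = comp 2 d
    · simp [h, sat_triv]
    · have : (comp 4 d == comp 2 d) = false := by simpa using h
      rw [this]
      simp [h]
  have hroot : ∀ d, Sat τ (clRoot d) ↔ TT τ (rootF d.unpair.1).code d.unpair.2 := by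
    intro d; simp [clRoot, Sat, TT]
  have hax : ∀ φ d, Sat τ (clAx φ d) ↔ TT τ φ.code (comp 0 d) := by
    intro φ d; simp [clAx]
  simp only [hne, hroot, hax]
  simp only [schs, List.forall_mem_cons, sat_nil, sat_Tt, sat_Tf, sat_Et, sat_Ef, sat_Lt, sat_Lf,
    ev_v, ev_c, ev_p, ev_xVar, ev_xZero, ev_xOne, ev_xAdd, ev_xMul, ev_yEq, ev_yLt, ev_yNeg,
    ev_yAnd, ev_yEx, ev_xUpd, ev_xnAdd, ev_xnMul, or_false]
  constructor
  · rintro ⟨⟨h1, h2, h3, h4, h5, h6, h7, h8, h9, h10, h11, h12, h13, h14, h15, h16, h17, h18, -⟩,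
      hn, hr, ha⟩
    constructor
    · intro x; simpa using h1 (Nat.pair x 0)
    · intro x y z; have := h2 (Nat.pair x (Nat.pair y (Nat.pair z 0)))
      simp only [comp_zero, comp_one, comp_two, comp_three, comp_four] at this
      exact i2.1 this
    · intro x; simpa using h3 (Nat.pair x 0)
    · intro x; simpa using h4 (Nat.pair x 0)
    · intro s t e x y
      have := h5 (Nat.pair s (Nat.pair t (Nat.pair e (Nat.pair x (Nat.pair y 0)))))
      simp only [comp_zero, comp_one, comp_two, comp_three, comp_four] at this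
      exact i2.1 this
    · intro s t e x y
      have := h6 (Nat.pair s (Nat.pair t (Nat.pair e (Nat.pair x (Nat.pair y 0)))))
      simp only [comp_zero, comp_one, comp_two, comp_three, comp_four] at this
      exact i2.1 this
    · intro e n x; simpa using h7 (Nat.pair e (Nat.pair n (Nat.pair x 0)))
    · intro g e n y m
      have := hn (Nat.pair g (Nat.pair e (Nat.pair n (Nat.pair y (Nat.pair m 0)))))
      simp only [comp_zero, comp_one, comp_two, comp_three, comp_four] at this
      exact this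
    · intro s t e; have := h8 (Nat.pair s (Nat.pair t (Nat.pair e 0)))
      simp only [comp_zero, comp_one, comp_two, comp_three, comp_four] at this
      exact i1.1 this
    · intro s t e; have := h9 (Nat.pair s (Nat.pair t (Nat.pair e 0)))
      simp only [comp_zero, comp_one, comp_two, comp_three, comp_four] at this
      exact i1.1 this
    · intro s t e x y
      have := h10 (Nat.pair s (Nat.pair t (Nat.pair e (Nat.pair x (Nat.pair y 0)))))
      simp only [comp_zero, comp_one, comp_two, comp_three, comp_four] at this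
      exact i3.1 this
    · intro s t e x y
      have := h11 (Nat.pair s (Nat.pair t (Nat.pair e (Nat.pair x (Nat.pair y 0)))))
      simp only [comp_zero, comp_one, comp_two, comp_three, comp_four] at this
      exact i3.1 this
    · intro c e; have := h12 (Nat.pair c (Nat.pair e 0))
      simp only [comp_zero, comp_one, comp_two, comp_three, comp_four] at this
      exact i1.1 this
    · intro c e; have := h13 (Nat.pair c (Nat.pair e 0))
      simp only [comp_zero, comp_one, comp_two, comp_three, comp_four] at this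
      exact i4.1 this
    · intro s t e; have := h14 (Nat.pair s (Nat.pair t (Nat.pair e 0)))
      simp only [comp_zero, comp_one, comp_two, comp_three, comp_four] at this
      exact i1.1 this
    · intro s t e; have := h15 (Nat.pair s (Nat.pair t (Nat.pair e 0)))
      simp only [comp_zero, comp_one, comp_two, comp_three, comp_four] at this
      exact i1.1 this
    · intro s t e; have := h16 (Nat.pair s (Nat.pair t (Nat.pair e 0)))
      simp only [comp_zero, comp_one, comp_two, comp_three, comp_four] at this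
      exact i2.1 this
    · intro c n e; have := h17 (Nat.pair c (Nat.pair n (Nat.pair e 0)))
      simp only [comp_zero, comp_one, comp_two, comp_three, comp_four] at this
      exact i1.1 this
    · intro c n e x; have := h18 (Nat.pair c (Nat.pair n (Nat.pair e (Nat.pair x 0))))
      simp only [comp_zero, comp_one, comp_two, comp_three, comp_four] at this
      exact i1.1 this
    · intro φ hφ e; simpa using ha φ hφ (Nat.pair e 0)
    · intro m e; simpa using hr (Nat.pair m e)
  · intro H
    refine ⟨⟨fun d => H.refl _, fun d => ?_, fun d => H.zero _, fun d => H.one _, fun d => ?_,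
      fun d => ?_, fun d => H.upd_same _ _ _, fun d => ?_, fun d => ?_, fun d => ?_, fun d => ?_,
      fun d => ?_, fun d => ?_, fun d => ?_, fun d => ?_, fun d => ?_, fun d => ?_, fun d => ?_,
      by simp⟩,
      fun d h => H.upd_ne _ _ _ _ _ h, fun d => H.root _ _, fun φ hφ d => H.ax φ hφ _⟩
    · exact i2.2 (H.eucl (comp 0 d) (comp 1 d) (comp 2 d))
    · exact i2.2 (H.add (comp 0 d) (comp 1 d) (comp 2 d) (comp 3 d) (comp 4 d))
    · exact i2.2 (H.mul (comp 0 d) (comp 1 d) (comp 2 d) (comp 3 d) (comp 4 d))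
    · exact i1.2 (H.eq_mp (comp 0 d) (comp 1 d) (comp 2 d))
    · exact i1.2 (H.eq_mpr (comp 0 d) (comp 1 d) (comp 2 d))
    · exact i3.2 (H.lt_mp (comp 0 d) (comp 1 d) (comp 2 d) (comp 3 d) (comp 4 d))
    · exact i3.2 (H.lt_mpr (comp 0 d) (comp 1 d) (comp 2 d) (comp 3 d) (comp 4 d))
    · exact i1.2 (H.neg_mp (comp 0 d) (comp 1 d))
    · exact i4.2 (H.neg_mpr (comp 0 d) (comp 1 d))
    · exact i1.2 (H.and_left (comp 0 d) (comp 1 d) (comp 2 d))
    · exact i1.2 (H.and_right (comp 0 d) (comp 1 d) (comp 2 d))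
    · exact i2.2 (H.and_mpr (comp 0 d) (comp 1 d) (comp 2 d))
    · exact i1.2 (H.ex_mp (comp 0 d) (comp 1 d) (comp 2 d))
    · exact i1.2 (H.ex_mpr (comp 0 d) (comp 1 d) (comp 2 d) (comp 3 d))

/-! ### Combination of the schemas -/

def combine : List (ℕ → List (ℕ × Bool)) → ℕ → ℕ → List (ℕ × Bool)
  | [], _, _ => triv
  | f :: _, 0, d => f d
  | _ :: l, n + 1, d => combine l n d

lemma combine_sat (τ : ℕ → Bool) (l : List (ℕ → List (ℕ × Bool))) :
    (∀ n d, Sat τ (combine l n d)) ↔ ∀ f ∈ l, ∀ d, Sat τ (f d) := by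
  induction l with
  | nil => simp [combine, sat_triv]
  | cons f l ih =>
    rw [List.forall_mem_cons, ← ih]
    constructor
    · intro h
      exact ⟨fun d => h 0 d, fun n d => h (n + 1) d⟩
    · rintro ⟨h1, h2⟩ n d
      cases n with
      | zero => exact h1 d
      | succ n => exact h2 n d

lemma combine_computable (l : List (ℕ → List (ℕ × Bool))) (h : ∀ f ∈ l, Computable f) :
    Computable₂ (combine l) := by
  induction l with
  | nil => exact (Computable.const triv)
  | cons f l ih =>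
    rw [List.forall_mem_cons] at h
    have h1 := ih h.2
    have h2 : Computable₂ (fun (a : ℕ × ℕ) (n : ℕ) => combine l n a.2) :=
      h1.comp Computable.snd (Computable.snd.comp Computable.fst)
    have h3 : Computable (fun a : ℕ × ℕ => f a.2) := h.1.comp Computable.snd
    refine (Computable.nat_casesOn Computable.fst h3 h2).of_eq fun a => ?_
    rcases a with ⟨n, d⟩
    cases n <;> rfl

/-! ### Computability of the schemas -/

lemma hor_code_primrec : Primrec (fun n => (hor n).code) := by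
  have h : Primrec (Nat.rec (motive := fun _ => ℕ) (Nat.pair 2 0)
      (fun n c => Nat.pair 3 (Nat.pair (Nat.pair 4 (Nat.pair c (Nat.pair 0 0)))
        (Nat.pair 0 (n + 1))))) := by
    refine Primrec.nat_rec₁ _ ?_
    refine Primrec₂.natPair.comp (Primrec.const 3) (Primrec₂.natPair.comp
      (Primrec₂.natPair.comp (Primrec.const 4) (Primrec₂.natPair.comp Primrec.snd
        (Primrec.const _))) (Primrec₂.natPair.comp (Primrec.const 0)
          (Primrec.succ.comp Primrec.fst)))
  refine h.of_eq fun n => ?_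
  induction n with
  | zero => rfl
  | succ n ih =>
    simp only [ih]
    rfl

lemma root_code_primrec : Primrec (fun m => (rootF m).code) := by
  have h : Primrec (fun m : ℕ => Nat.pair 4 (Nat.pair 0 (Nat.pair 0 (Nat.pair
      (hor (2 * m + 1)).code (Nat.pair 1 0))))) := by
    refine Primrec₂.natPair.comp (Primrec.const 4) (Primrec₂.natPair.comp (Primrec.const 0)
      (Primrec₂.natPair.comp (Primrec.const 0) (Primrec₂.natPair.comp
        (hor_code_primrec.comp (Primrec.succ.comp (Primrec.nat_mul.comp (Primrec.const 2)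
          Primrec.id))) (Primrec.const _))))
  exact h

lemma clRoot_primrec : Primrec clRoot := by
  refine Primrec.list_cons.comp (Primrec.pair (Primrec₂.natPair.comp (Primrec.const 0)
    (Primrec₂.natPair.comp (root_code_primrec.comp (Primrec.fst.comp Primrec.unpair))
      (Primrec.snd.comp Primrec.unpair))) (Primrec.const false)) (Primrec.const [])

lemma clNe_primrec : Primrec clNe := by
  refine Primrec.cond ?_ (Primrec.const triv) (Sch.primrec _)
  exact Primrec.beq.comp (comp_primrec 4) (comp_primrec 2)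

lemma clsH_computable : ∀ f ∈ clsH, Computable f := by
  intro f hf
  simp only [clsH, List.mem_append, List.mem_map, List.mem_cons, List.not_mem_nil, or_false] at hf
  rcases hf with (⟨l, -, rfl⟩ | rfl | rfl) | ⟨φ, -, rfl⟩
  · exact (Sch.primrec l).to_comp
  · exact clNe_primrec.to_comp
  · exact clRoot_primrec.to_comp
  · exact (Sch.primrec _).to_comp

open Classical in
/-- truth assignments from the semantics -/
noncomputable def tauOf (T E L : ℕ → ℕ → Prop) (n : ℕ) : Bool :=
  if n.unpair.1 = 0 then decide (T n.unpair.2.unpair.1 n.unpair.2.unpair.2)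
  else if n.unpair.1 = 1 then decide (E n.unpair.2.unpair.1 n.unpair.2.unpair.2)
  else decide (L n.unpair.2.unpair.1 n.unpair.2.unpair.2)

lemma TT_tauOf (T E L : ℕ → ℕ → Prop) : TT (tauOf T E L) = T := by
  funext c e; simp [TT, tauOf]
lemma EE_tauOf (T E L : ℕ → ℕ → Prop) : EE (tauOf T E L) = E := by
  funext c e; simp [EE, tauOf]
lemma LL_tauOf (T E L : ℕ → ℕ → Prop) : LL (tauOf T E L) = L := by
  funext c e; simp [LL, tauOf]

/-- the schema for `q` -/
def clQ (q : ℕ → Fm) (b : Bool) (d : ℕ) : List (ℕ × Bool) :=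
  [(Nat.pair 0 (Nat.pair (q d).code 0), b)]

/-- the schema for `p` -/
def clP (p : Set Fm) [DecidablePred fun n : ℕ => ∃ φ ∈ p, φ.code = n] (d : ℕ) :
    List (ℕ × Bool) :=
  bif decide (∃ φ ∈ p, φ.code = d) then [(Nat.pair 0 (Nat.pair d 0), false)] else triv

theorem HTree_proof : Stmt_HTree.{v} := by
  intro R _ _ _ _ Cod hC q Q p hp hq hQ hfin
  obtain ⟨hdec, hpc⟩ := hp
  have cP : Computable (clP p) := by
    refine Computable.cond hpc ?_ (Computable.const triv)
    exact (Primrec.list_cons.comp (Primrec.pair (Primrec₂.natPair.comp (Primrec.const 0)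
      (Primrec₂.natPair.comp Primrec.id (Primrec.const 0))) (Primrec.const false))
        (Primrec.const [])).to_comp
  have cQ : ∀ b, Computable (clQ q b) := by
    intro b
    have h1 : Primrec (fun c : ℕ => [(Nat.pair 0 (Nat.pair c 0), b)]) :=
      Primrec.list_cons.comp (Primrec.pair (Primrec₂.natPair.comp (Primrec.const 0)
        (Primrec₂.natPair.comp Primrec.id (Primrec.const 0))) (Primrec.const b))
          (Primrec.const [])
    exact h1.to_comp.comp hq
  set K : Bool → ℕ → List (ℕ × Bool) :=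
    fun b i => combine (clQ q b :: clP p :: clsH) i.unpair.1 i.unpair.2 with hK
  have cK : ∀ b, Computable (K b) := by
    intro b
    refine (combine_computable _ ?_).comp (Computable.fst.comp Primrec.unpair.to_comp)
      (Computable.snd.comp Primrec.unpair.to_comp)
    rw [List.forall_mem_cons, List.forall_mem_cons]
    exact ⟨cQ b, cP, clsH_computable⟩
  set A : Set ℕ := (fun i : ℕ => i.unpair.2) ⁻¹' Q with hA
  have cA : Cod A := hC.preimage Q _ hQ (Computable.snd.comp Primrec.unpair.to_comp)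
  obtain ⟨τ, hτ, hsat⟩ := hC.wkl (K true) (K false) A (cK true) (cK false) cA (by
    intro k
    classical
    obtain ⟨b, hb, hs⟩ := hfin (((Finset.range k).image decF).filter (· ∈ p)) (by
      intro φ hφ
      simp only [Finset.coe_filter, Set.mem_ofPred_eq] at hφ
      exact hφ.2)
    set τ := tauOf (fun c e => (decF c).holds (env b e)) (fun x y => val b x = val b y)
      (fun x y => val b x < val b y) with hτ
    have hH : Henk (TT τ) (EE τ) (LL τ) := by
      rw [hτ, TT_tauOf, EE_tauOf, LL_tauOf]; exact henk_sem b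
    have hcl := (combine_sat τ clsH).2 ((henk_iff τ).2 hH)
    have hQ0 : ∀ d, TT τ (q d).code 0 ↔ d ∈ Q := by
      intro d
      rw [hτ, TT_tauOf, decF_code, env_zero]
      exact hb d
    have hP0 : ∀ d, d < k → Sat τ (clP p d) := by
      intro d hd
      unfold clP
      by_cases h : ∃ φ ∈ p, φ.code = d
      · have h' : decide (∃ φ ∈ p, φ.code = d) = true := decide_eq_true h
        rw [h', cond_true]
        obtain ⟨φ, hφ, rfl⟩ := h
        refine ⟨_, List.mem_cons_self .., ?_⟩
        have h1 : TT τ φ.code 0 := by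
          rw [hτ, TT_tauOf, decF_code, env_zero]
          refine hs φ ?_
          rw [Finset.mem_filter, Finset.mem_image]
          exact ⟨⟨φ.code, Finset.mem_range.mpr hd, decF_code φ⟩, hφ⟩
        unfold TT at h1
        rw [h1]; simp
      · have h' : decide (∃ φ ∈ p, φ.code = d) = false := decide_eq_false h
        rw [h', cond_false]
        exact sat_triv τ
    have hrest : ∀ (b' : Bool) (i : ℕ), i < k → i.unpair.1 ≠ 0 → Sat τ (K b' i) := by
      intro b' i hi h0
      simp only [hK]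
      rcases h : i.unpair.1 with _ | _ | n
      · exact absurd h h0
      · exact hP0 _ (lt_of_le_of_lt (Nat.unpair_right_le i) hi)
      · exact hcl n _
    refine ⟨τ, fun i hi => ⟨fun hiA => ?_, fun hiA => ?_⟩⟩
    · by_cases h0 : i.unpair.1 = 0
      · simp only [hK, h0, combine, clQ]
        refine ⟨_, List.mem_cons_self .., ?_⟩
        have h1 : ¬ TT τ (q i.unpair.2).code 0 := fun h => hiA ((hQ0 _).1 h)
        exact h1
      · exact hrest true i hi h0
    · by_cases h0 : i.unpair.1 = 0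
      · simp only [hK, h0, combine, clQ]
        refine ⟨_, List.mem_cons_self .., ?_⟩
        have h1 : TT τ (q i.unpair.2).code 0 := (hQ0 _).2 hiA
        unfold TT at h1
        rw [h1]; simp
      · exact hrest false i hi h0)
  have hsat' : ∀ (n d : ℕ), (d ∉ Q → Sat τ (combine (clQ q true :: clP p :: clsH) n d)) ∧
      (d ∈ Q → Sat τ (combine (clQ q false :: clP p :: clsH) n d)) := by
    intro n d
    have h := hsat (Nat.pair n d)
    simp only [hK, hA, Set.mem_preimage, Nat.unpair_pair] at h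
    exact h
  have hcomb : ∀ n d, Sat τ (combine clsH n d) := by
    intro n d
    by_cases h : d ∈ Q
    · exact (hsat' (n + 2) d).2 h
    · exact (hsat' (n + 2) d).1 h
  have hclP : ∀ d, Sat τ (clP p d) := by
    intro d
    by_cases h : d ∈ Q
    · exact (hsat' 1 d).2 h
    · exact (hsat' 1 d).1 h
  refine ⟨TT τ, EE τ, LL τ, (henk_iff τ).1 ((combine_sat τ clsH).1 hcomb), ?_, ?_, ?_⟩
  · have h1 : {c | TT τ c 0} = (fun c : ℕ => Nat.pair 0 (Nat.pair c 0)) ⁻¹' {n | τ n = true} := rfl
    rw [h1]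
    exact hC.preimage _ _ hτ ((Primrec₂.natPair.comp (Primrec.const 0)
      (Primrec₂.natPair.comp Primrec.id (Primrec.const 0))).to_comp)
  · intro φ hφ
    have h := hclP φ.code
    unfold clP at h
    have h' : decide (∃ ψ ∈ p, ψ.code = φ.code) = true := decide_eq_true ⟨φ, hφ, rfl⟩
    rw [h', cond_true] at h
    simpa [Sat, TT] using h
  · intro n
    constructor
    · intro h
      by_contra hn
      have h1 := (hsat' 0 n).1 hn
      simp only [combine, clQ, Sat] at h1
      simp at h1
      unfold TT at h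
      rw [h] at h1
      exact absurd h1 (by decide)
    · intro hn
      have h1 := (hsat' 0 n).2 hn
      simp only [combine, clQ, Sat] at h1
      simpa [TT] using h1

end HT

end Pool.Agent.RSV
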