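import Pool.Agent.RSV.Core

/-!
# Module A1: the number sort of a model of `V⁰` is an ordered semiring
-/

namespace Pool.Agent.RSV

universe u v

namespace NumSort

variable {M : TwoSorted.{u}}

/-- functions given by number terms -/
def TmN (M : TwoSorted.{u}) (t : (ℕ → M.N) → M.N) : Prop := ∃ τ : NTm M, ∀ v, τ.eval v = t v

/-- predicates given by `Σ₀ᴮ` formulas -/
def Dn (M : TwoSorted.{u}) (P : (ℕ → M.N) → Prop) : Prop := ∃ φ : SigB0 M, ∀ v, φ.holds v ↔ P v

theorem TmN.const (c : M.N) : TmN M (fun _ => c) := ⟨.const c, fun _ => rfl⟩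
theorem TmN.var (n : ℕ) : TmN M (fun v => v n) := ⟨.var n, fun _ => rfl⟩
theorem TmN.add {s t : (ℕ → M.N) → M.N} (hs : TmN M s) (ht : TmN M t) :
    TmN M (fun v => M.add (s v) (t v)) := by
  obtain ⟨σ, hσ⟩ := hs; obtain ⟨τ, hτ⟩ := ht
  exact ⟨.add σ τ, fun v => by simp [NTm.eval, hσ, hτ]⟩
theorem TmN.mul {s t : (ℕ → M.N) → M.N} (hs : TmN M s) (ht : TmN M t) :
    TmN M (fun v => M.mul (s v) (t v)) := by
  obtain ⟨σ, hσ⟩ := hs; obtain ⟨τ, hτ⟩ := ht
  exact ⟨.mul σ τ, fun v => by simp [NTm.eval, hσ, hτ]⟩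

theorem Dn.mem {t : (ℕ → M.N) → M.N} (ht : TmN M t) (X : M.S) :
    Dn M (fun v => M.mem (t v) X) := by
  obtain ⟨τ, hτ⟩ := ht
  exact ⟨.mem τ X, fun v => by simp [SigB0.holds, hτ]⟩
theorem Dn.eq {s t : (ℕ → M.N) → M.N} (hs : TmN M s) (ht : TmN M t) :
    Dn M (fun v => s v = t v) := by
  obtain ⟨σ, hσ⟩ := hs; obtain ⟨τ, hτ⟩ := ht
  exact ⟨.eq σ τ, fun v => by simp [SigB0.holds, hσ, hτ]⟩
theorem Dn.le {s t : (ℕ → M.N) → M.N} (hs : TmN M s) (ht : TmN M t) :
    Dn M (fun v => M.le (s v) (t v)) := by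
  obtain ⟨σ, hσ⟩ := hs; obtain ⟨τ, hτ⟩ := ht
  exact ⟨.le σ τ, fun v => by simp [SigB0.holds, hσ, hτ]⟩
theorem Dn.not {P : (ℕ → M.N) → Prop} (hP : Dn M P) : Dn M (fun v => ¬ P v) := by
  obtain ⟨φ, hφ⟩ := hP
  exact ⟨.neg φ, fun v => by simp [SigB0.holds, hφ]⟩
theorem Dn.and {P Q : (ℕ → M.N) → Prop} (hP : Dn M P) (hQ : Dn M Q) :
    Dn M (fun v => P v ∧ Q v) := by
  obtain ⟨φ, hφ⟩ := hP; obtain ⟨ψ, hψ⟩ := hQ
  exact ⟨.and φ ψ, fun v => by simp [SigB0.holds, hφ, hψ]⟩
theorem Dn.all {t : (ℕ → M.N) → M.N} {P : (ℕ → M.N) → Prop} (ht : TmN M t) (hP : Dn M P) :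
    Dn M (fun v => ∀ x, M.le x (t v) → P (cns x v)) := by
  obtain ⟨τ, hτ⟩ := ht; obtain ⟨φ, hφ⟩ := hP
  exact ⟨.all τ φ, fun v => by simp [SigB0.holds, hφ, hτ]⟩
theorem Dn.congr {P Q : (ℕ → M.N) → Prop} (hP : Dn M P) (h : ∀ v, P v ↔ Q v) : Dn M Q := by
  obtain ⟨φ, hφ⟩ := hP
  exact ⟨φ, fun v => (hφ v).trans (h v)⟩
theorem Dn.or {P Q : (ℕ → M.N) → Prop} (hP : Dn M P) (hQ : Dn M Q) :
    Dn M (fun v => P v ∨ Q v) :=
  ((hP.not.and hQ.not).not).congr (fun v => by tauto)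
theorem Dn.imp {P Q : (ℕ → M.N) → Prop} (hP : Dn M P) (hQ : Dn M Q) :
    Dn M (fun v => P v → Q v) :=
  ((hP.and hQ.not).not).congr (fun v => by tauto)
theorem Dn.iff {P Q : (ℕ → M.N) → Prop} (hP : Dn M P) (hQ : Dn M Q) :
    Dn M (fun v => P v ↔ Q v) :=
  ((hP.imp hQ).and (hQ.imp hP)).congr (fun v => by tauto)
theorem Dn.ex {t : (ℕ → M.N) → M.N} {P : (ℕ → M.N) → Prop} (ht : TmN M t) (hP : Dn M P) :
    Dn M (fun v => ∃ x, M.le x (t v) ∧ P (cns x v)) :=
  ((Dn.all ht hP.not).not).congr (fun _ => by push Not; rfl)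
theorem Dn.lt {s t : (ℕ → M.N) → M.N} (hs : TmN M s) (ht : TmN M t) :
    Dn M (fun v => M.lt (s v) (t v)) :=
  ((Dn.le hs ht).and (Dn.eq hs ht).not).congr (fun v => Iff.rfl)

section basic

variable (h : IsV0 M)
include h

theorem le_refl (x : M.N) : M.le x x := (h.b10 x x).elim id id

theorem lt_succ (x : M.N) : M.lt x (M.add x M.one) := (h.b11 x x).1 (le_refl h x)

theorem comp {P : (ℕ → M.N) → Prop} (hP : Dn M P) (v : ℕ → M.N) (y : M.N) :
    ∃ X : M.S, M.le (M.len X) y ∧ ∀ z, M.lt z y → (M.mem z X ↔ P (cns z v)) := by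
  obtain ⟨φ, hφ⟩ := hP
  obtain ⟨X, h1, h2⟩ := h.comp φ v y
  exact ⟨X, h1, fun z hz => (h2 z hz).trans (hφ _)⟩

/-- a nonempty set has a least element -/
theorem set_min (X : M.S) (a : M.N) (ha : M.mem a X) :
    ∃ x, M.mem x X ∧ ∀ y, M.lt y x → ¬ M.mem y X := by
  obtain ⟨Y, hY1, hY2⟩ := comp h (P := fun v => ∀ y, M.le y (v 0) → ¬ M.mem y X)
    (Dn.all (TmN.var 0) (Dn.mem (TmN.var 0) X).not) (fun _ => M.zero) (M.len X)
  simp only [cns] at hY2
  -- `len X ≠ 0`
  have hX0 : M.len X ≠ M.zero := by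
    intro h0
    have h1 := h.l1 X a ha
    rw [h0] at h1
    exact h1.2 (h.b7 _ _ h1.1 (h.b9 a))
  obtain ⟨x, hx1, hx2⟩ := h.b12 _ hX0
  have hxX : M.mem x X := h.l2 X x hx2
  have hlt : M.lt (M.len Y) (M.len X) := by
    refine ⟨hY1, fun he => ?_⟩
    have h1 : M.mem x Y := h.l2 Y x (hx2.trans he.symm)
    have h2 : M.lt x (M.len X) := h.l1 X x hxX
    exact (hY2 x h2).1 h1 x (le_refl h x) hxX
  have hbelow : ∀ y, M.lt y (M.len Y) → ¬ M.mem y X := by
    intro y hy
    have h0 : M.len Y ≠ M.zero := by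
      intro h0
      rw [h0] at hy
      exact hy.2 (h.b7 _ _ hy.1 (h.b9 y))
    obtain ⟨z, hz1, hz2⟩ := h.b12 _ h0
    have hzY : M.mem z Y := h.l2 Y z hz2
    -- z < len X
    have hzX : M.lt z (M.len X) := by
      -- z + 1 = len Y < len X
      by_contra hcon
      -- then `¬ (z < len X)`; since `len Y < len X`
      have h3 : M.le (M.len X) z ∨ M.le z (M.len X) := h.b10 _ _
      have h4 : M.le (M.len X) z := by
        rcases h3 with h3 | h3
        · exact h3
        · by_cases he : z = M.len X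
          · rw [he]; exact le_refl h _
          · exact absurd ⟨h3, he⟩ hcon
      have h5 : M.lt (M.len X) (M.len Y) := by
        rw [← hz2]; exact (h.b11 _ _).1 h4
      exact hlt.2 (h.b7 _ _ hlt.1 h5.1)
    have h6 := (hY2 z hzX).1 hzY
    refine h6 y ?_
    rw [← hz2] at hy
    exact (h.b11 _ _).2 hy
  refine ⟨M.len Y, ?_, hbelow⟩
  by_contra hcon
  have h1 : M.mem (M.len Y) Y := by
    refine (hY2 _ hlt).2 fun y hy => ?_
    by_cases he : y = M.len Y
    · rw [he]; exact hcon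
    · exact hbelow y ⟨hy, he⟩
  exact (h.l1 Y _ h1).2 rfl

/-- induction for `Σ₀ᴮ` formulas -/
theorem ind {P : (ℕ → M.N) → Prop} (hP : Dn M P) (v : ℕ → M.N) (h0 : P (cns M.zero v))
    (hs : ∀ x, P (cns x v) → P (cns (M.add x M.one) v)) (z : M.N) : P (cns z v) := by
  by_contra hz
  obtain ⟨Y, hY1, hY2⟩ := comp h hP.not v (M.add z M.one)
  have hzY : M.mem z Y := (hY2 z (lt_succ h z)).2 hz
  obtain ⟨y, hy1, hy2⟩ := set_min h Y z hzY
  have hyz : M.le y z := by
    rcases h.b10 y z with h1 | h1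
    · exact h1
    · by_cases he : z = y
      · rw [he]; exact le_refl h _
      · exact absurd hzY (hy2 z ⟨h1, he⟩)
  have hPy : ¬ P (cns y v) := (hY2 y ((h.b11 _ _).1 hyz)).1 hy1
  have hy0 : y ≠ M.zero := fun he => hPy (he ▸ h0)
  obtain ⟨x, hx1, hx2⟩ := h.b12 y hy0
  have hxy : M.lt x y := by
    rw [← hx2]; exact lt_succ h x
  have hxz : M.le x z := by
    rcases h.b10 x z with h1 | h1
    · exact h1
    · have h2 : M.lt z y := by rw [← hx2]; exact (h.b11 _ _).1 h1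
      exact absurd hzY (hy2 z h2)
  have hPx : P (cns x v) := by
    by_contra hcon
    exact hy2 x hxy ((hY2 x ((h.b11 _ _).1 hxz)).2 hcon)
  exact hPy (hx2 ▸ hs x hPx)

/-- induction for unary predicates in one variable -/
theorem ind1 {P : M.N → Prop} (hP : Dn M (fun v => P (v 0))) (h0 : P M.zero)
    (hs : ∀ x, P x → P (M.add x M.one)) (z : M.N) : P z :=
  ind h (P := fun v => P (v 0)) hP (fun _ => z) h0 hs z

theorem add_assoc' (x y z : M.N) : M.add (M.add x y) z = M.add x (M.add y z) := by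
  refine ind1 h (P := fun z => M.add (M.add x y) z = M.add x (M.add y z)) ?_ ?_ ?_ z
  · exact Dn.eq (((TmN.const x).add (TmN.const y)).add (TmN.var 0))
      ((TmN.const x).add ((TmN.const y).add (TmN.var 0)))
  · rw [h.b3, h.b3]
  · intro z hz
    rw [h.b4, hz, h.b4, h.b4]

theorem zero_add' (x : M.N) : M.add M.zero x = x := by
  refine ind1 h (P := fun x => M.add M.zero x = x) ?_ ?_ ?_ x
  · exact Dn.eq ((TmN.const _).add (TmN.var 0)) (TmN.var 0)
  · rw [h.b3]
  · intro z hz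
    rw [h.b4, hz]

theorem one_add' (x : M.N) : M.add M.one x = M.add x M.one := by
  refine ind1 h (P := fun x => M.add M.one x = M.add x M.one) ?_ ?_ ?_ x
  · exact Dn.eq ((TmN.const _).add (TmN.var 0)) ((TmN.var 0).add (TmN.const _))
  · rw [h.b3, zero_add' h]
  · intro z hz
    rw [h.b4, hz]

theorem add_comm' (x y : M.N) : M.add x y = M.add y x := by
  refine ind1 h (P := fun y => M.add x y = M.add y x) ?_ ?_ ?_ y
  · exact Dn.eq ((TmN.const _).add (TmN.var 0)) ((TmN.var 0).add (TmN.const _))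
  · rw [h.b3, zero_add' h]
  · intro z hz
    rw [h.b4, hz, add_assoc' h, add_assoc' h, one_add' h]

theorem mul_add' (x y z : M.N) : M.mul x (M.add y z) = M.add (M.mul x y) (M.mul x z) := by
  refine ind1 h (P := fun z => M.mul x (M.add y z) = M.add (M.mul x y) (M.mul x z)) ?_ ?_ ?_ z
  · exact Dn.eq ((TmN.const _).mul ((TmN.const _).add (TmN.var 0)))
      (((TmN.const _).mul (TmN.const _)).add ((TmN.const _).mul (TmN.var 0)))
  · rw [h.b3, h.b5, h.b3]
  · intro z hz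
    rw [h.b4, h.b6, hz, h.b6, add_assoc' h]

theorem mul_assoc' (x y z : M.N) : M.mul (M.mul x y) z = M.mul x (M.mul y z) := by
  refine ind1 h (P := fun z => M.mul (M.mul x y) z = M.mul x (M.mul y z)) ?_ ?_ ?_ z
  · exact Dn.eq (((TmN.const _).mul (TmN.const _)).mul (TmN.var 0))
      ((TmN.const _).mul ((TmN.const _).mul (TmN.var 0)))
  · rw [h.b5, h.b5, h.b5]
  · intro z hz
    rw [h.b6, hz, h.b6, mul_add' h]

theorem zero_mul' (x : M.N) : M.mul M.zero x = M.zero := by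
  refine ind1 h (P := fun x => M.mul M.zero x = M.zero) ?_ ?_ ?_ x
  · exact Dn.eq ((TmN.const _).mul (TmN.var 0)) (TmN.const _)
  · rw [h.b5]
  · intro z hz
    rw [h.b6, hz, h.b3]

theorem succ_mul' (x y : M.N) : M.mul (M.add x M.one) y = M.add (M.mul x y) y := by
  refine ind1 h (P := fun y => M.mul (M.add x M.one) y = M.add (M.mul x y) y) ?_ ?_ ?_ y
  · exact Dn.eq ((TmN.const _).mul (TmN.var 0)) (((TmN.const _).mul (TmN.var 0)).add (TmN.var 0))
  · rw [h.b5, h.b5, h.b3]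
  · intro z hz
    rw [h.b6, hz, h.b6, add_assoc' h, add_assoc' h, h.b4 z x, h.b4 x z, add_comm' h z x]

theorem mul_comm' (x y : M.N) : M.mul x y = M.mul y x := by
  refine ind1 h (P := fun y => M.mul x y = M.mul y x) ?_ ?_ ?_ y
  · exact Dn.eq ((TmN.const _).mul (TmN.var 0)) ((TmN.var 0).mul (TmN.const _))
  · rw [h.b5, zero_mul' h]
  · intro z hz
    rw [h.b6, succ_mul' h, hz]

theorem mul_one' (x : M.N) : M.mul x M.one = x := by
  have h1 := h.b6 x M.zero
  rw [zero_add' h, h.b5, zero_add' h] at h1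
  exact h1

theorem one_mul' (x : M.N) : M.mul M.one x = x := by
  rw [mul_comm' h, mul_one' h]

theorem add_mul' (x y z : M.N) : M.mul (M.add x y) z = M.add (M.mul x z) (M.mul y z) := by
  rw [mul_comm' h, mul_add' h, mul_comm' h z x, mul_comm' h z y]

theorem add_right_cancel' (x y z : M.N) (hxy : M.add x z = M.add y z) : x = y := by
  revert hxy
  refine ind1 h (P := fun z => M.add x z = M.add y z → x = y) ?_ ?_ ?_ z
  · exact Dn.imp (Dn.eq ((TmN.const _).add (TmN.var 0)) ((TmN.const _).add (TmN.var 0)))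
      (Dn.eq (TmN.const _) (TmN.const _))
  · rw [h.b3, h.b3]; exact id
  · intro z hz hh
    rw [h.b4, h.b4] at hh
    exact hz (h.b2 _ _ hh)

theorem exists_add (x y : M.N) (hxy : M.le x y) : ∃ z, M.add x z = y := by
  have key : ∀ y, (M.le x y → ∃ z, M.le z y ∧ M.add x z = y) := by
    intro y
    refine ind1 h (P := fun y => (M.le x y → ∃ z, M.le z y ∧ M.add x z = y)) ?_ ?_ ?_ y
    · refine Dn.imp (Dn.le (TmN.const _) (TmN.var 0)) ?_
      exact Dn.ex (t := fun v => v 0) (P := fun v => M.add x (v 0) = v 1) (TmN.var 0)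
        (Dn.eq ((TmN.const _).add (TmN.var 0)) (TmN.var 1))
    · intro h1
      have h2 : x = M.zero := h.b7 _ _ h1 (h.b9 x)
      exact ⟨M.zero, le_refl h _, by rw [h2, h.b3]⟩
    · intro y ih h1
      by_cases he : x = M.add y M.one
      · exact ⟨M.zero, h.b9 _, by rw [h.b3, he]⟩
      · obtain ⟨z, -, hz⟩ := ih ((h.b11 _ _).2 ⟨h1, he⟩)
        have h3 : M.add x (M.add z M.one) = M.add y M.one := by rw [h.b4, hz]
        refine ⟨M.add z M.one, ?_, h3⟩
        rw [← h3, add_comm' h x]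
        exact h.b8 _ _
  obtain ⟨z, -, hz⟩ := key y hxy
  exact ⟨z, hz⟩

theorem le_iff (x y : M.N) : M.le x y ↔ ∃ z, M.add x z = y :=
  ⟨exists_add h x y, by rintro ⟨z, rfl⟩; exact h.b8 _ _⟩

theorem le_trans' (x y z : M.N) (h1 : M.le x y) (h2 : M.le y z) : M.le x z := by
  obtain ⟨a, ha⟩ := exists_add h x y h1
  obtain ⟨b, hb⟩ := exists_add h y z h2
  rw [le_iff h]
  exact ⟨M.add a b, by rw [← add_assoc' h, ha, hb]⟩

theorem lt_iff_le_not_ge' (x y : M.N) : M.lt x y ↔ M.le x y ∧ ¬ M.le y x := by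
  constructor
  · intro h1
    exact ⟨h1.1, fun h2 => h1.2 (h.b7 _ _ h1.1 h2)⟩
  · rintro ⟨h1, h2⟩
    refine ⟨h1, fun he => h2 ?_⟩
    rw [he]; exact le_refl h _

end basic

/-- the number sort, as an ordered semiring -/
@[nolint unusedArguments]
def NS {M : TwoSorted.{u}} (_h : IsV0 M) : Type u := M.N

variable (h : IsV0 M)

noncomputable instance : Add (NS h) := ⟨M.add⟩
noncomputable instance : Mul (NS h) := ⟨M.mul⟩
noncomputable instance : Zero (NS h) := ⟨M.zero⟩
noncomputable instance : One (NS h) := ⟨M.one⟩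

noncomputable instance : CommSemiring (NS h) where
  add_assoc := add_assoc' h
  zero_add := zero_add' h
  add_zero := h.b3
  add_comm := add_comm' h
  nsmul := nsmulRec
  left_distrib := mul_add' h
  right_distrib := add_mul' h
  zero_mul := zero_mul' h
  mul_zero := h.b5
  mul_assoc := mul_assoc' h
  one_mul := one_mul' h
  mul_one := mul_one' h
  mul_comm := mul_comm' h

noncomputable instance : LinearOrder (NS h) where
  le := M.le
  lt := M.lt
  le_refl := le_refl h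
  le_trans := le_trans' h
  le_antisymm := h.b7
  lt_iff_le_not_ge := lt_iff_le_not_ge' h
  le_total := h.b10
  toDecidableLE := Classical.decRel _
  toDecidableEq := Classical.decRel _
  toDecidableLT := Classical.decRel _

theorem le_def (x y : NS h) : x ≤ y ↔ M.le x y := Iff.rfl
theorem lt_def (x y : NS h) : x < y ↔ M.lt x y := Iff.rfl
theorem add_def (x y : NS h) : x + y = M.add x y := rfl
theorem mul_def (x y : NS h) : x * y = M.mul x y := rfl
theorem zero_def : (0 : NS h) = M.zero := rfl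
theorem one_def : (1 : NS h) = M.one := rfl

instance : CanonicallyOrderedAdd (NS h) where
  exists_add_of_le {x y} hxy := by
    obtain ⟨z, hz⟩ := exists_add h x y hxy
    exact ⟨z, hz.symm⟩
  le_self_add x y := h.b8 x y
  le_add_self x y := by
    rw [add_comm]; exact h.b8 x y

theorem add_one_ne_zero' (x : NS h) : x + 1 ≠ 0 := h.b1 x

theorem exists_pred (x : NS h) (hx : x ≠ 0) : ∃ y : NS h, y + 1 = x := by
  obtain ⟨y, -, hy⟩ := h.b12 x hx
  exact ⟨y, hy⟩

theorem mul_ne_zero' (x y : NS h) (hx : x ≠ 0) (hy : y ≠ 0) : x * y ≠ 0 := by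
  obtain ⟨a, rfl⟩ := exists_pred h x hx
  obtain ⟨b, rfl⟩ := exists_pred h y hy
  have : (a + 1) * (b + 1) = (a * b + a + b) + 1 := by ring
  rw [this]
  exact add_one_ne_zero' h _

instance : IsOrderedCancelAddMonoid (NS h) where
  add_le_add_left x y hxy z := by
    obtain ⟨w, rfl⟩ := exists_add_of_le hxy
    have : x + w + z = (x + z) + w := by ring
    rw [this]
    exact h.b8 _ _
  le_of_add_le_add_left x y z hxy := by
    obtain ⟨w, hw⟩ := exists_add_of_le hxy
    have h1 : z = y + w := by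
      apply add_right_cancel' h _ _ x
      have h2 : z + x = y + w + x := by
        rw [add_comm z x, hw]; ring
      exact h2
    rw [h1]
    exact h.b8 _ _

theorem mul_lt_mul_left' (x y z : NS h) (hx : 0 < x) (hyz : y < z) : x * y < x * z := by
  obtain ⟨w, rfl⟩ := exists_add_of_le hyz.le
  have hw : w ≠ 0 := by
    rintro rfl
    simp at hyz
  rw [mul_add]
  have h1 : x * w ≠ 0 := mul_ne_zero' h _ _ hx.ne' hw
  have h2 : 0 < x * w := lt_of_le_of_ne (h.b9 _) (Ne.symm h1)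
  exact lt_add_of_pos_right _ h2

instance : IsStrictOrderedRing (NS h) where
  zero_le_one := h.b9 _
  exists_pair_ne := ⟨0, 1, fun h1 => add_one_ne_zero' h 0 (by rw [zero_add]; exact h1.symm)⟩
  mul_lt_mul_of_pos_left x hx y z hyz := mul_lt_mul_left' h x y z hx hyz
  mul_lt_mul_of_pos_right x hx y z hyz := by
    rw [mul_comm y x, mul_comm z x]; exact mul_lt_mul_left' h x y z hx hyz

theorem le_of_lt_succ' (x y : NS h) (hxy : x < y + 1) : x ≤ y := (h.b11 x y).2 hxy

theorem lt_succ_iff' (x y : NS h) : x < y + 1 ↔ x ≤ y := (h.b11 x y).symm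

theorem succ_le_iff' (x y : NS h) : x + 1 ≤ y ↔ x < y := by
  constructor
  · intro h1
    exact lt_of_lt_of_le ((lt_succ_iff' h x x).2 le_rfl) h1
  · intro h1
    by_contra h2
    push Not at h2
    exact absurd (le_of_lt_succ' h _ _ h2) (not_le.2 h1)

end NumSort

end Pool.Agent.RSV
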