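import Pool.Agent.RSV.CdCalc
import Pool.Agent.RSV.Specs

/-!
# PFAM: the values of coded polynomials at approximable families are approximable
-/

namespace Pool.Agent.RSV

universe u v

/-! ### computability of the decoding functions -/

/-- the second component of a pair -/
def d2 (n : ℕ) : ℕ := n - Nat.sqrt n * Nat.sqrt n
/-- the first component of a pair -/
def d1 (n : ℕ) : ℕ := Nat.sqrt n - d2 n

lemma sqrt_pr2 (i k : ℕ) : Nat.sqrt (pr2 i k) = i + k := by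
  unfold pr2
  exact Nat.sqrt_add_eq _ (by omega)

lemma d2_pr2 (i k : ℕ) : d2 (pr2 i k) = k := by
  unfold d2
  rw [sqrt_pr2]
  unfold pr2
  omega

lemma d1_pr2 (i k : ℕ) : d1 (pr2 i k) = i := by
  unfold d1
  rw [sqrt_pr2, d2_pr2]
  omega

lemma primrec_d2 : Primrec d2 :=
  Primrec.nat_sub.comp Primrec.id (Primrec.nat_mul.comp Primrec.nat_sqrt Primrec.nat_sqrt)

lemma primrec_d1 : Primrec d1 :=
  Primrec.nat_sub.comp Primrec.nat_sqrt primrec_d2

lemma primrec_dec : Primrec₂ dec := by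
  have h1 : Primrec fun p : ℕ × ℕ => (Nat.unpair p.1).1 :=
    Primrec.fst.comp (Primrec.unpair.comp Primrec.fst)
  have h2 : Primrec fun p : ℕ × ℕ => (Nat.unpair p.1).2 :=
    Primrec.snd.comp (Primrec.unpair.comp Primrec.fst)
  have h3 : Primrec fun p : ℕ × ℕ => p.2 + 1 := Primrec.succ.comp Primrec.snd
  have h4 : Primrec fun p : ℕ × ℕ => (p.2 + 1) * (Nat.unpair p.1).2 + 1 :=
    Primrec.succ.comp (Primrec.nat_mul.comp h3 h2)
  exact Primrec.nat_mod.comp h1 h4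

/-- the sequence of the coefficients and exponents -/
def cf (q n : ℕ) : ℕ := dec (d1 n) (Nat.pair (d2 n) q + 1)

lemma cf_pr2 (q δ t : ℕ) : cf q (pr2 δ t) = dec δ (Nat.pair t q + 1) := by
  unfold cf
  rw [d1_pr2, d2_pr2]

lemma computable_cf (q : ℕ) : Computable (cf q) := by
  apply Primrec.to_comp
  exact primrec_dec.comp primrec_d1
    (Primrec.succ.comp (Primrec₂.natPair.comp primrec_d2 (Primrec.const q)))

lemma computable_dec0 : Computable (fun n => dec n 0) := by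
  apply Primrec.to_comp
  exact primrec_dec.comp Primrec.id (Primrec.const 0)

variable {U : Type u} {R : Type v} [CommSemiring U] [LinearOrder U] [IsStrictOrderedRing U]
  [CanonicallyOrderedAdd U] [Field R] [LinearOrder R] [IsStrictOrderedRing R]

namespace BIP

variable {B : BIP U R}

lemma exists_nat_of_le_nat (B : BIP U R) {x : U} {n : ℕ} (h : x ≤ n) : ∃ m : ℕ, x = m := by
  obtain ⟨m, -, hm⟩ := B.exists_nat_of_le x n h
  exact ⟨m, hm⟩

lemma p1_natCast_le (B : BIP U R) (n : ℕ) : ∃ m : ℕ, p1 (n : U) = m := by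
  by_cases h : ∃ i k : U, pr2 i k = (n : U)
  · obtain ⟨i, k, hik⟩ := h
    rw [← hik, B.p1_pr2]
    exact B.exists_nat_of_le_nat (n := n) (hik ▸ B.le_pr2_left i k)
  · refine ⟨0, ?_⟩
    unfold p1
    rw [dif_neg h]
    simp

lemma p2_natCast_le (B : BIP U R) (n : ℕ) : ∃ m : ℕ, p2 (n : U) = m := by
  by_cases h : ∃ i k : U, pr2 i k = (n : U)
  · obtain ⟨i, k, hik⟩ := h
    rw [← hik, B.p2_pr2]
    exact B.exists_nat_of_le_nat (n := n) (hik ▸ B.le_pr2_right i k)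
  · refine ⟨0, ?_⟩
    unfold p2
    rw [dif_neg h]
    simp

lemma F1.comp {f g : U → U} (hf : B.F1 f) (hg : B.F1 g) : B.F1 (fun i => f (g i)) :=
  F1.app hf hg

lemma F1.id : B.F1 (fun i => i) := F.var 0

lemma F1.pr2 {f g : U → U} (hf : B.F1 f) (hg : B.F1 g) : B.F1 (fun i => RSV.pr2 (f i) (g i)) :=
  F.pr2 hf hg

lemma F1.p1 {f : U → U} (hf : B.F1 f) : B.F1 (fun i => RSV.p1 (f i)) := F.p1 hf

lemma F1.p2 {f : U → U} (hf : B.F1 f) : B.F1 (fun i => RSV.p2 (f i)) := F.p2 hf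

/-- the values of coded polynomials at approximable families -/
theorem Cd.pval_family (hIF : Stmt_IF.{u, v}) (r : ℕ) (A : Set U) (x : ℕ → U → R)
    (hx : ∀ j < r, B.Cd A (x j)) :
    ∃ V : U → R, B.Cd {l | ∃ δ : ℕ, ∃ i ∈ A, l = RSV.pr2 (δ : U) i} V ∧
      ∀ (δ : ℕ) (i : U), i ∈ A → V (RSV.pr2 (δ : U) i) = pval r δ (fun j => x j i) := by
  classical
  -- index functions
  set idx : U → U := fun l => RSV.pr2 (RSV.p1 (RSV.p1 l)) (RSV.p2 l) with hidx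
  have hidxF : B.F1 idx := F1.pr2 (F1.p1 (F1.p1 F1.id)) (F1.p2 F1.id)
  set A2 : Set U := {l | ∃ δ t : ℕ, ∃ i ∈ A, l = RSV.pr2 (RSV.pr2 (δ : U) i) (t : U)} with hA2
  have hidx_eval : ∀ (δ t : ℕ) (i : U), idx (RSV.pr2 (RSV.pr2 (δ : U) i) (t : U)) =
      ((RSV.pr2 δ t : ℕ) : U) := by
    intro δ t i
    simp only [hidx]
    rw [B.p1_pr2, B.p1_pr2, B.p2_pr2, pr2_natCast]
  have hidx_nat : ∀ n : ℕ, ∃ m : ℕ, idx (n : U) = m := by
    intro n
    obtain ⟨a, ha⟩ := B.p1_natCast_le n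
    obtain ⟨b, hb⟩ := B.p1_natCast_le a
    obtain ⟨c, hc⟩ := B.p2_natCast_le n
    refine ⟨RSV.pr2 b c, ?_⟩
    simp only [hidx]
    rw [ha, hb, hc, pr2_natCast]
  -- the coefficients
  have hcoef : ∀ q : ℕ, ∃ c : U → R, B.Cd A2 c ∧ ∀ (δ t : ℕ) (i : U),
      c (RSV.pr2 (RSV.pr2 (δ : U) i) (t : U)) = (dec δ (Nat.pair t q + 1) : R) := by
    intro q
    obtain ⟨z, hz, hzn⟩ := Cd.natCast (B := B) (computable_cf q)
    refine ⟨fun l => z (idx l), ?_, ?_⟩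
    · refine Cd.mono (Cd.reindex hz hidxF (fun n => ?_)) ?_
      · obtain ⟨m, hm⟩ := hidx_nat n
        exact ⟨m, hm.le⟩
      · rintro l ⟨δ, t, i, hi, rfl⟩
        exact ⟨_, hidx_eval δ t i⟩
    · intro δ t i
      change z (idx _) = _
      rw [hidx_eval, hzn, cf_pr2]
  -- the powers
  have hpow : ∀ j < r, ∃ w : U → R, B.Cd A2 w ∧ ∀ (δ t : ℕ) (i : U), i ∈ A →
      w (RSV.pr2 (RSV.pr2 (δ : U) i) (t : U)) = x j i ^ dec δ (Nat.pair t (j + 2) + 1) := by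
    intro j hj
    obtain ⟨z, hz, hzn⟩ := Cd.pow (hx j hj)
    obtain ⟨g, hg, hgn⟩ := hIF U R B (cf (j + 2)) (computable_cf (j + 2))
    have hF : B.F1 (fun l => RSV.pr2 (RSV.p2 (RSV.p1 l)) (g (idx l))) :=
      F1.pr2 (F1.p2 (F1.p1 F1.id)) (F1.comp hg hidxF)
    have hev : ∀ (δ t : ℕ) (i : U), RSV.pr2 (RSV.p2 (RSV.p1 (RSV.pr2 (RSV.pr2 (δ : U) i) (t : U))))
        (g (idx (RSV.pr2 (RSV.pr2 (δ : U) i) (t : U)))) =
        RSV.pr2 i ((dec δ (Nat.pair t (j + 2) + 1) : ℕ) : U) := by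
      intro δ t i
      rw [hidx_eval, hgn, cf_pr2, B.p1_pr2, B.p2_pr2]
    refine ⟨fun l => z (RSV.pr2 (RSV.p2 (RSV.p1 l)) (g (idx l))), ?_, ?_⟩
    · refine Cd.mono (Cd.reindex hz hF (fun n => ?_)) ?_
      · obtain ⟨a, ha⟩ := B.p1_natCast_le n
        obtain ⟨b, hb⟩ := B.p2_natCast_le a
        obtain ⟨c, hc⟩ := hidx_nat n
        refine ⟨RSV.pr2 b (cf (j + 2) c), ?_⟩
        rw [ha, hb, hc, hgn, pr2_natCast]
      · rintro l ⟨δ, t, i, hi, rfl⟩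
        exact ⟨i, hi, _, hev δ t i⟩
    · intro δ t i hi
      change z (RSV.pr2 _ _) = _
      rw [hev, hzn i hi]
  -- products of powers
  have hprod : ∀ s ≤ r, ∃ w : U → R, B.Cd A2 w ∧ ∀ (δ t : ℕ) (i : U), i ∈ A →
      w (RSV.pr2 (RSV.pr2 (δ : U) i) (t : U)) =
        ∏ j ∈ Finset.range s, x j i ^ dec δ (Nat.pair t (j + 2) + 1) := by
    intro s
    induction s with
    | zero =>
      intro _
      exact ⟨fun _ => 1, Cd.mono (Cd.const 1) (Set.subset_univ _), fun δ t i hi => by simp⟩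
    | succ s ih =>
      intro hs
      obtain ⟨w, hw, hw'⟩ := ih (by omega)
      obtain ⟨w₁, hw₁, hw₁'⟩ := hpow s (by omega)
      refine ⟨fun l => w l * w₁ l, Cd.mul hw hw₁, fun δ t i hi => ?_⟩
      change w _ * w₁ _ = _
      rw [Finset.prod_range_succ, hw' δ t i hi, hw₁' δ t i hi]
  obtain ⟨c, hc, hc'⟩ := hcoef 0
  obtain ⟨c₁, hc₁, hc₁'⟩ := hcoef 1
  obtain ⟨w, hw, hw'⟩ := hprod r le_rfl
  have hX : B.Cd A2 (fun l => (c l - c₁ l) * w l) := Cd.mul (Cd.sub hc hc₁) hw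
  -- the length
  obtain ⟨g, hg, hgn⟩ := hIF U R B (fun n => dec n 0) computable_dec0
  have hm : B.F1 (fun l => g (RSV.p1 l)) := F1.comp hg (F1.p1 F1.id)
  set n : U → ℕ := fun l => if h : ∃ k : ℕ, g (RSV.p1 l) = k then h.choose else 0 with hn
  have hn' : ∀ (δ : ℕ) (i : U), n (RSV.pr2 (δ : U) i) = dec δ 0 := by
    intro δ i
    have h : ∃ k : ℕ, g (RSV.p1 (RSV.pr2 (δ : U) i)) = k := by
      refine ⟨dec δ 0, ?_⟩
      rw [B.p1_pr2, hgn]
    have h2 := h.choose_spec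
    simp only [hn]
    rw [dif_pos h]
    have h3 : ((h.choose : ℕ) : U) = ((dec δ 0 : ℕ) : U) := by
      rw [← h2, B.p1_pr2, hgn]
    exact Nat.cast_injective h3
  refine ⟨fun l => ∑ k ∈ Finset.range (n l), (c (RSV.pr2 l (k : U)) - c₁ (RSV.pr2 l (k : U))) *
    w (RSV.pr2 l (k : U)), Cd.sum hX hm n ?_, ?_⟩
  · rintro l ⟨δ, i, hi, rfl⟩
    rw [hn' δ i]
    refine ⟨by rw [B.p1_pr2, hgn], fun k hk => ⟨δ, k, i, hi, rfl⟩⟩
  · intro δ i hi
    change ∑ k ∈ Finset.range (n (RSV.pr2 (δ : U) i)), _ = _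
    rw [hn' δ i]
    unfold pval
    refine Finset.sum_congr rfl fun t ht => ?_
    rw [hc' δ t i, hc₁' δ t i, hw' δ t i hi]

end BIP

end Pool.Agent.RSV
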