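import Pool.Agent.RSV.Specs

/-!
# Transfer of sign vectors between two real closed fields

Let `T` be a finite set of polynomials over `A`, closed under derivatives, `eraseLead`, leading
coefficients and pseudo-remainders, and let `φ₁ : A → R₁`, `φ₂ : A → R₂` be homomorphisms to real
closed fields such that the signs of the constants in `T` agree. Then for every `x` in `R₁` there is
`y` in `R₂` such that the signs of all the `P(x)` and `P(y)`, `P ∈ T`, agree.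
-/

namespace Pool.Agent.RSV.QE

open Polynomial

universe u v

/-- closed sets of polynomials -/
structure Closed {A : Type*} [CommRing A] (T : Set A[X]) : Prop where
  der : ∀ P ∈ T, derivative P ∈ T
  erase : ∀ P ∈ T, P.eraseLead ∈ T
  lead : ∀ P ∈ T, C P.leadingCoeff ∈ T
  prem : ∀ P ∈ T, ∀ Q ∈ T, 0 < Q.natDegree → Q.natDegree ≤ P.natDegree →
    ∃ S ∈ T, S.natDegree < Q.natDegree ∧ ∃ (n : ℕ) (B : A[X]),
      C (Q.leadingCoeff ^ (2 * n)) * P = B * Q + S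

/-- the intermediate value theorem for polynomials -/
def IVT (R : Type*) [Field R] [LinearOrder R] : Prop :=
  ∀ (P : R[X]) (a b : R), a < b → P.eval a < 0 → 0 < P.eval b →
    ∃ c, a < c ∧ c < b ∧ P.eval c = 0

/-- Rolle's theorem for polynomials -/
def Rolle (R : Type*) [Field R] [LinearOrder R] : Prop :=
  ∀ (P : R[X]) (a b : R), a < b → P.eval a = 0 → P.eval b = 0 →
    ∃ c, a < c ∧ c < b ∧ P.derivative.eval c = 0

section One

variable {R : Type*} [Field R] [LinearOrder R] [IsStrictOrderedRing R]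

lemma ivt_neg (h : IVT R) (P : R[X]) (a b : R) (hab : a < b) (ha : 0 < P.eval a)
    (hb : P.eval b < 0) : ∃ c, a < c ∧ c < b ∧ P.eval c = 0 := by
  obtain ⟨c, h1, h2, h3⟩ := h (-P) a b hab (by simpa using ha) (by simpa using hb)
  exact ⟨c, h1, h2, by simpa using h3⟩

lemma ivt_mul (h : IVT R) (P : R[X]) (a b : R) (hab : a < b) (hm : P.eval a * P.eval b < 0) :
    ∃ c, a < c ∧ c < b ∧ P.eval c = 0 := by
  rcases mul_neg_iff.1 hm with ⟨h1, h2⟩ | ⟨h1, h2⟩
  · exact ivt_neg h P a b hab h1 h2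
  · exact h P a b hab h1 h2

lemma sign_eq_of_mul_pos {a b : R} (h : 0 < a * b) : SignType.sign a = SignType.sign b := by
  rcases mul_pos_iff.1 h with ⟨h1, h2⟩ | ⟨h1, h2⟩
  · rw [sign_pos h1, sign_pos h2]
  · rw [sign_neg h1, sign_neg h2]

/-- no sign change without a root -/
lemma sign_const (h : IVT R) (P : R[X]) {a b : R} (hab : a < b) (ha : P.eval a ≠ 0)
    (hb : P.eval b ≠ 0) (hno : ∀ y, a < y → y < b → P.eval y ≠ 0) :
    SignType.sign (P.eval a) = SignType.sign (P.eval b) := by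
  rcases lt_trichotomy (P.eval a * P.eval b) 0 with h1 | h1 | h1
  · obtain ⟨c, h2, h3, h4⟩ := ivt_mul h P a b hab h1
    exact absurd h4 (hno c h2 h3)
  · exact absurd h1 (mul_ne_zero ha hb)
  · exact sign_eq_of_mul_pos h1

/-- If `P(x) = 0`, `a < x < b` and the derivative has no roots in `(a, b)`, then `P(a)` and `P(b)`
have different signs. -/
lemma opp_pos (h : IVT R) (hr : Rolle R) (P : R[X]) {a x b : R} (hax : a < x) (hxb : x < b)
    (hx : P.eval x = 0) (hno : ∀ y, a < y → y < b → P.derivative.eval y ≠ 0)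
    (ha : 0 < P.eval a) (hb : 0 < P.eval b) : False := by
  have key : ∀ (Q : R[X]), Q.derivative = P.derivative → ∀ s t : R, a ≤ s → s < t → t ≤ b →
      Q.eval s = 0 → Q.eval t = 0 → False := by
    intro Q hQ s t h1 h2 h3 h4 h5
    obtain ⟨c, h6, h7, h8⟩ := hr Q s t h2 h4 h5
    rw [hQ] at h8
    exact hno c (lt_of_le_of_lt h1 h6) (lt_of_lt_of_le h7 h3) h8
  have hC : ∀ c : R, (P - C c).derivative = P.derivative := by
    intro c
    simp
  rcases lt_trichotomy (P.eval a) (P.eval b) with h1 | h1 | h1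
  · -- `P - P(a)` has a root in `(x, b)`
    obtain ⟨c, h2, h3, h4⟩ := h (P - C (P.eval a)) x b hxb (by simp [hx, ha])
      (by simp [h1])
    exact key _ (hC _) a c le_rfl (hax.trans h2) h3.le (by simp) h4
  · exact key _ (hC (P.eval a)) a b le_rfl (hax.trans hxb) le_rfl (by simp) (by simp [h1])
  · obtain ⟨c, h2, h3, h4⟩ := ivt_neg h (P - C (P.eval b)) a x hax (by simp [h1])
      (by simp [hx, hb])
    exact key _ (hC _) c b h2.le (h3.trans hxb) le_rfl h4 (by simp)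

lemma opp (h : IVT R) (hr : Rolle R) (P : R[X]) {a x b : R} (hax : a < x) (hxb : x < b)
    (hx : P.eval x = 0) (hno : ∀ y, a < y → y < b → P.derivative.eval y ≠ 0) :
    P.eval a * P.eval b < 0 := by
  have ha : P.eval a ≠ 0 := by
    intro h0
    obtain ⟨c, h1, h2, h3⟩ := hr P a x hax h0 hx
    exact hno c h1 (h2.trans hxb) h3
  have hb : P.eval b ≠ 0 := by
    intro h0
    obtain ⟨c, h1, h2, h3⟩ := hr P x b hxb hx h0
    exact hno c (hax.trans h1) h2 h3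
  rcases lt_or_gt_of_ne ha with h1 | h1 <;> rcases lt_or_gt_of_ne hb with h2 | h2
  · exfalso
    refine opp_pos h hr (-P) hax hxb (by simpa using hx) ?_ (by simpa using h1)
      (by simpa using h2)
    intro y h3 h4 h5
    exact hno y h3 h4 (by simpa using h5)
  · exact mul_neg_of_neg_of_pos h1 h2
  · exact mul_neg_of_pos_of_neg h1 h2
  · exact (opp_pos h hr P hax hxb hx hno h1 h2).elim

/-- polynomials with positive leading coefficient are eventually positive -/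
lemma eventually_pos : ∀ (n : ℕ) (P : R[X]), P.natDegree = n → 0 < P.leadingCoeff →
    ∃ c > 0, ∃ m : R, ∀ x, m ≤ x → c ≤ P.eval x := by
  intro n
  induction n with
  | zero =>
    intro P hP hl
    refine ⟨P.leadingCoeff, hl, 0, fun x _ => ?_⟩
    rw [eq_C_of_natDegree_eq_zero hP]
    simp
  | succ n ih =>
    intro P hP hl
    have h1 : P.divX.natDegree = n := by
      rw [natDegree_divX_eq_natDegree_tsub_one, hP]; rfl
    have h2 : P.divX.leadingCoeff = P.leadingCoeff := by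
      rw [leadingCoeff, leadingCoeff, h1, coeff_divX, hP]
    obtain ⟨c, hc, m, hm⟩ := ih P.divX h1 (by rw [h2]; exact hl)
    refine ⟨1, one_pos, max m (max 0 ((1 - P.coeff 0) / c)), fun x hx => ?_⟩
    have h3 : m ≤ x := le_trans (le_max_left _ _) hx
    have h4 : 0 ≤ x := le_trans (le_trans (le_max_left _ _) (le_max_right _ _)) hx
    have h5 : (1 - P.coeff 0) / c ≤ x :=
      le_trans (le_trans (le_max_right _ _) (le_max_right _ _)) hx
    have h6 : P.eval x = P.divX.eval x * x + P.coeff 0 := by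
      conv_lhs => rw [← divX_mul_X_add P]
      simp
    rw [h6]
    rw [div_le_iff₀ hc] at h5
    nlinarith [mul_le_mul_of_nonneg_right (hm x h3) h4]

lemma sign_top (P : R[X]) (hP : P ≠ 0) :
    ∃ m : R, ∀ x, m ≤ x → SignType.sign (P.eval x) = SignType.sign P.leadingCoeff := by
  have h0 : P.leadingCoeff ≠ 0 := leadingCoeff_ne_zero.2 hP
  rcases lt_or_gt_of_ne h0 with h | h
  · obtain ⟨c, hc, m, hm⟩ := eventually_pos _ (-P) rfl (by simpa using h)
    refine ⟨m, fun x hx => ?_⟩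
    have := hm x hx
    rw [eval_neg] at this
    rw [sign_neg h, sign_neg (by linarith)]
  · obtain ⟨c, hc, m, hm⟩ := eventually_pos _ P rfl h
    refine ⟨m, fun x hx => ?_⟩
    have := hm x hx
    rw [sign_pos h, sign_pos (by linarith)]

lemma sign_bot (P : R[X]) (hP : P ≠ 0) :
    ∃ m : R, ∀ x, x ≤ m →
      SignType.sign (P.eval x) = SignType.sign ((-1) ^ P.natDegree * P.leadingCoeff) := by
  have h1 : P.comp (-X) ≠ 0 := by
    intro h
    apply hP
    have : (P.comp (-X)).comp (-X) = P := by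
      rw [comp_assoc]
      simp
    rw [h] at this
    rw [← this]
    simp
  obtain ⟨m, hm⟩ := sign_top _ h1
  have h2 : (P.comp (-X)).leadingCoeff = (-1) ^ P.natDegree * P.leadingCoeff := by
    rw [leadingCoeff_comp (by simp)]
    simp [mul_comm]
  refine ⟨-m, fun x hx => ?_⟩
  have := hm (-x) (by linarith)
  rw [h2] at this
  simpa using this

end One

section Two

variable {A : Type*} [CommRing A] (T : Set A[X])

/-- the signs of the constants agree -/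
def Agr {R₁ : Type u} {R₂ : Type v} [Field R₁] [LinearOrder R₁] [Field R₂] [LinearOrder R₂]
    (φ₁ : A →+* R₁) (φ₂ : A →+* R₂) : Prop :=
  ∀ c, C c ∈ T → SignType.sign (φ₁ c) = SignType.sign (φ₂ c)

/-- same signs of the polynomials of degree at most `d` -/
def Sim {R₁ : Type u} {R₂ : Type v} [Field R₁] [LinearOrder R₁] [Field R₂] [LinearOrder R₂]
    (φ₁ : A →+* R₁) (φ₂ : A →+* R₂) (d : ℕ) (x : R₁) (y : R₂) : Prop :=
  ∀ P ∈ T, P.natDegree ≤ d →
    SignType.sign ((P.map φ₁).eval x) = SignType.sign ((P.map φ₂).eval y)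

/-- roots of polynomials of degree at most `d` -/
def IsRt {R : Type u} [Field R] (φ : A →+* R) (d : ℕ) (x : R) : Prop :=
  ∃ P ∈ T, P.natDegree ≤ d ∧ P.map φ ≠ 0 ∧ (P.map φ).eval x = 0

/-- all points have a partner between partners of the endpoints -/
def Fwd {R₁ : Type u} {R₂ : Type v} [Field R₁] [LinearOrder R₁] [Field R₂] [LinearOrder R₂]
    (φ₁ : A →+* R₁) (φ₂ : A →+* R₂) (d : ℕ) : Prop :=
  ∀ (a b : R₁) (a' b' : R₂), a < b → a' < b' → Sim T φ₁ φ₂ d a a' → Sim T φ₁ φ₂ d b b' →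
    ∀ x, a < x → x < b → ∃ x', a' < x' ∧ x' < b' ∧ Sim T φ₁ φ₂ d x x'

/-- all roots have a partner between partners of the endpoints -/
def RFwd {R₁ : Type u} {R₂ : Type v} [Field R₁] [LinearOrder R₁] [Field R₂] [LinearOrder R₂]
    (φ₁ : A →+* R₁) (φ₂ : A →+* R₂) (d e : ℕ) : Prop :=
  ∀ (a b : R₁) (a' b' : R₂), a < b → a' < b' → Sim T φ₁ φ₂ e a a' → Sim T φ₁ φ₂ e b b' →
    ∀ x, a < x → x < b → IsRt T φ₁ d x → ∃ x', a' < x' ∧ x' < b' ∧ Sim T φ₁ φ₂ e x x'

variable {T}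
variable {R₁ : Type u} {R₂ : Type v} [Field R₁] [LinearOrder R₁] [IsStrictOrderedRing R₁]
  [Field R₂] [LinearOrder R₂] [IsStrictOrderedRing R₂] {φ₁ : A →+* R₁} {φ₂ : A →+* R₂}

omit [IsStrictOrderedRing R₁] [IsStrictOrderedRing R₂] in
lemma Sim.symm {d : ℕ} {x : R₁} {y : R₂} (h : Sim T φ₁ φ₂ d x y) : Sim T φ₂ φ₁ d y x :=
  fun P hP hd => (h P hP hd).symm

omit [IsStrictOrderedRing R₁] [IsStrictOrderedRing R₂] in
lemma Sim.mono {d e : ℕ} (hde : d ≤ e) {x : R₁} {y : R₂} (h : Sim T φ₁ φ₂ e x y) :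
    Sim T φ₁ φ₂ d x y := fun P hP hd => h P hP (hd.trans hde)

omit [IsStrictOrderedRing R₁] [IsStrictOrderedRing R₂] in
lemma Agr.symm (h : Agr T φ₁ φ₂) : Agr T φ₂ φ₁ := fun c hc => (h c hc).symm

omit [IsStrictOrderedRing R₁] [IsStrictOrderedRing R₂] in
lemma Agr.zero_iff (h : Agr T φ₁ φ₂) {c : A} (hc : C c ∈ T) : φ₁ c = 0 ↔ φ₂ c = 0 := by
  rw [← sign_eq_zero_iff (a := φ₁ c), h c hc, sign_eq_zero_iff]

lemma map_eraseLead_of {R : Type*} [Field R] (φ : A →+* R) {P : A[X]}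
    (h : φ P.leadingCoeff = 0) : P.eraseLead.map φ = P.map φ := by
  have h1 := congrArg (Polynomial.map φ) (eraseLead_add_C_mul_X_pow P)
  rw [Polynomial.map_add, Polynomial.map_mul, map_C, h, C_0, zero_mul, add_zero] at h1
  exact h1

omit [IsStrictOrderedRing R₁] [IsStrictOrderedRing R₂] in
/-- Erasing vanishing leading terms. -/
lemma reduce (hT : Closed T) (h : Agr T φ₁ φ₂) : ∀ (n : ℕ) (P : A[X]), P ∈ T → P.natDegree ≤ n →
    (P.map φ₁ = 0 ∧ P.map φ₂ = 0) ∨ ∃ Q ∈ T, Q.natDegree ≤ P.natDegree ∧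
      Q.map φ₁ = P.map φ₁ ∧ Q.map φ₂ = P.map φ₂ ∧ φ₁ Q.leadingCoeff ≠ 0 ∧
      φ₂ Q.leadingCoeff ≠ 0 := by
  intro n
  induction n with
  | zero =>
    intro P hP hn
    by_cases h0 : φ₁ P.leadingCoeff = 0
    · left
      have h1 : φ₂ P.leadingCoeff = 0 := (h.zero_iff (hT.lead P hP)).1 h0
      have h2 : P = C P.leadingCoeff := by
        have := eq_C_of_natDegree_le_zero hn
        rw [this]; simp
      rw [h2]
      simp [h0, h1]
    · right
      exact ⟨P, hP, le_rfl, rfl, rfl, h0, fun h1 => h0 ((h.zero_iff (hT.lead P hP)).2 h1)⟩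
  | succ n ih =>
    intro P hP hn
    by_cases h0 : φ₁ P.leadingCoeff = 0
    · have h1 : φ₂ P.leadingCoeff = 0 := (h.zero_iff (hT.lead P hP)).1 h0
      have h5 : P.eraseLead.natDegree ≤ P.natDegree - 1 := eraseLead_natDegree_le P
      rcases ih P.eraseLead (hT.erase P hP) (by omega) with h6 | ⟨Q, q1, q2, q3, q4, q5, q6⟩
      · left
        rw [← map_eraseLead_of φ₁ h0, ← map_eraseLead_of φ₂ h1]
        exact h6
      · right
        exact ⟨Q, q1, by omega, by rw [q3, map_eraseLead_of φ₁ h0],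
          by rw [q4, map_eraseLead_of φ₂ h1], q5, q6⟩
    · right
      exact ⟨P, hP, le_rfl, rfl, rfl, h0, fun h1 => h0 ((h.zero_iff (hT.lead P hP)).2 h1)⟩

omit [IsStrictOrderedRing R₁] [IsStrictOrderedRing R₂] in
lemma map_zero_iff' (hT : Closed T) (h : Agr T φ₁ φ₂) {P : A[X]} (hP : P ∈ T) :
    P.map φ₁ = 0 ↔ P.map φ₂ = 0 := by
  rcases reduce hT h _ P hP le_rfl with h1 | ⟨Q, q1, q2, q3, q4, q5, q6⟩
  · exact ⟨fun _ => h1.2, fun _ => h1.1⟩
  · rw [← q3, ← q4]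
    constructor
    · intro h1
      exfalso
      apply q5
      have := congrArg (fun p => coeff p Q.natDegree) h1
      simpa [coeff_map] using this
    · intro h1
      exfalso
      apply q6
      have := congrArg (fun p => coeff p Q.natDegree) h1
      simpa [coeff_map] using this

omit [IsStrictOrderedRing R₁] [IsStrictOrderedRing R₂] in
/-- partners of roots are roots -/
lemma IsRt.transfer (hT : Closed T) (h : Agr T φ₁ φ₂) {d e : ℕ} (hde : d ≤ e) {x : R₁} {y : R₂}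
    (hs : Sim T φ₁ φ₂ e x y) (hx : IsRt T φ₁ d x) : IsRt T φ₂ d y := by
  obtain ⟨P, p1, p2, p3, p4⟩ := hx
  refine ⟨P, p1, p2, fun h0 => p3 ((map_zero_iff' hT h p1).2 h0), ?_⟩
  have := hs P p1 (p2.trans hde)
  rw [p4, sign_zero] at this
  exact sign_eq_zero_iff.1 this.symm

omit [LinearOrder R₁] [IsStrictOrderedRing R₁] in
lemma finite_isRt (hf : T.Finite) (d : ℕ) : {x : R₁ | IsRt T φ₁ d x}.Finite := by
  classical
  refine ((hf.biUnion (t := fun P => {x | P.map φ₁ ≠ 0 ∧ (P.map φ₁).eval x = 0}) ?_)).subset ?_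
  · intro P _
    by_cases h : P.map φ₁ = 0
    · simp [h]
    · refine ((P.map φ₁).roots.toFinset.finite_toSet).subset ?_
      intro x hx
      simp only [Finset.mem_coe, Multiset.mem_toFinset]
      exact (mem_roots h).2 hx.2
  · rintro x ⟨P, p1, p2, p3, p4⟩
    simp only [Set.mem_iUnion]
    exact ⟨P, p1, p3, p4⟩

/-- The values at a root of a polynomial of positive degree are determined by remainders. -/
lemma sim_of_root (hT : Closed T) (h : Agr T φ₁ φ₂) {d : ℕ} {x : R₁} {y : R₂}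
    (hs : Sim T φ₁ φ₂ d x y) {Q : A[X]} (hQ : Q ∈ T) (hd : Q.natDegree ≤ d + 1)
    (h0 : Q.map φ₁ ≠ 0) (hx : (Q.map φ₁).eval x = 0) (hy : (Q.map φ₂).eval y = 0) :
    Sim T φ₁ φ₂ (d + 1) x y := by
  rcases reduce hT h _ Q hQ le_rfl with h1 | ⟨Q', q1, q2, q3, q4, q5, q6⟩
  · exact absurd h1.1 h0
  rw [← q3] at hx h0
  rw [← q4] at hy
  have hpos : 0 < Q'.natDegree := by
    rcases Nat.eq_zero_or_pos Q'.natDegree with h2 | h2
    · exfalso
      have h3 := eq_C_of_natDegree_eq_zero h2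
      rw [h3] at hx h0
      simp only [map_C, eval_C] at hx
      apply h0
      simp [hx]
    · exact h2
  intro P hP hPd
  rcases Nat.lt_or_ge P.natDegree Q'.natDegree with h2 | h2
  · exact hs P hP (by omega)
  obtain ⟨S, s1, s2, n, B, hB⟩ := hT.prem P hP Q' q1 hpos h2
  have e1 : (φ₁ Q'.leadingCoeff) ^ (2 * n) * (P.map φ₁).eval x = (S.map φ₁).eval x := by
    have := congrArg (fun p => eval x (p.map φ₁)) hB
    simpa [hx] using this
  have e2 : (φ₂ Q'.leadingCoeff) ^ (2 * n) * (P.map φ₂).eval y = (S.map φ₂).eval y := by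
    have := congrArg (fun p => eval y (p.map φ₂)) hB
    simpa [hy] using this
  have f1 : SignType.sign ((φ₁ Q'.leadingCoeff) ^ (2 * n) * (P.map φ₁).eval x)
      = SignType.sign ((P.map φ₁).eval x) := by
    rw [sign_mul, sign_pos (by rw [pow_mul]; positivity), one_mul]
  have f2 : SignType.sign ((φ₂ Q'.leadingCoeff) ^ (2 * n) * (P.map φ₂).eval y)
      = SignType.sign ((P.map φ₂).eval y) := by
    rw [sign_mul, sign_pos (by rw [pow_mul]; positivity), one_mul]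
  rw [← f1, ← f2, e1, e2]
  exact hs S s1 (by omega)

omit [IsStrictOrderedRing R₁] [IsStrictOrderedRing R₂] in
/-- An interval around a point which is not a root, without roots. -/
lemma shrink (hT : Closed T) (hf : T.Finite) (h : Agr T φ₁ φ₂) {d e : ℕ} (hde : d ≤ e)
    (h12 : RFwd T φ₁ φ₂ d e) (h21 : RFwd T φ₂ φ₁ d e) {a b : R₁} {a' b' : R₂} (hab : a < b)
    (hab' : a' < b') (ha : Sim T φ₁ φ₂ e a a') (hb : Sim T φ₁ φ₂ e b b') {x : R₁} (hax : a < x)
    (hxb : x < b) (hx : ¬ IsRt T φ₁ d x) :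
    ∃ (a₁ b₁ : R₁) (a₂ b₂ : R₂), a ≤ a₁ ∧ a₁ < x ∧ x < b₁ ∧ b₁ ≤ b ∧ a' ≤ a₂ ∧ a₂ < b₂ ∧ b₂ ≤ b' ∧
      Sim T φ₁ φ₂ e a₁ a₂ ∧ Sim T φ₁ φ₂ e b₁ b₂ ∧ (∀ y, a₁ < y → y < b₁ → ¬ IsRt T φ₁ d y) ∧
      ∀ y, a₂ < y → y < b₂ → ¬ IsRt T φ₂ d y := by
  -- the left endpoint
  obtain ⟨a₁, a₂, l1, l2, l3, l4, l5, l6⟩ : ∃ (a₁ : R₁) (a₂ : R₂), a ≤ a₁ ∧ a₁ < x ∧ a' ≤ a₂ ∧
      a₂ < b' ∧ Sim T φ₁ φ₂ e a₁ a₂ ∧ ∀ y, a₁ < y → y < x → ¬ IsRt T φ₁ d y := by
    have hfin : ({y : R₁ | a ≤ y ∧ y < x ∧ (IsRt T φ₁ d y ∨ y = a)}).Finite := by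
      refine ((finite_isRt (φ₁ := φ₁) hf d).union (Set.finite_singleton a)).subset ?_
      rintro y ⟨_, _, hy⟩
      exact hy
    obtain ⟨m, hm, hmax⟩ := Set.exists_max_image _ id hfin ⟨a, le_rfl, hax, Or.inr rfl⟩
    obtain ⟨m1, m2, m3⟩ := hm
    have hno : ∀ y, m < y → y < x → ¬ IsRt T φ₁ d y := by
      intro y h1 h2 h3
      exact absurd (hmax y ⟨m1.trans h1.le, h2, Or.inl h3⟩) (not_le.2 h1)
    rcases eq_or_lt_of_le m1 with h1 | h1
    · subst h1
      exact ⟨a, a', le_rfl, hax, le_rfl, hab', ha, hno⟩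
    · rcases m3 with m3 | m3
      · obtain ⟨m', n1, n2, n3⟩ := h12 a b a' b' hab hab' ha hb m h1 (m2.trans hxb) m3
        exact ⟨m, m', m1, m2, n1.le, n2, n3, hno⟩
      · exact absurd m3 (ne_of_gt h1)
  -- the right endpoint
  obtain ⟨b₁, b₂, r1, r2, r3, r4, r5, r6⟩ : ∃ (b₁ : R₁) (b₂ : R₂), x < b₁ ∧ b₁ ≤ b ∧ a₂ < b₂ ∧
      b₂ ≤ b' ∧ Sim T φ₁ φ₂ e b₁ b₂ ∧ ∀ y, x < y → y < b₁ → ¬ IsRt T φ₁ d y := by
    have hfin : ({y : R₁ | x < y ∧ y ≤ b ∧ (IsRt T φ₁ d y ∨ y = b)}).Finite := by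
      refine ((finite_isRt (φ₁ := φ₁) hf d).union (Set.finite_singleton b)).subset ?_
      rintro y ⟨_, _, hy⟩
      exact hy
    obtain ⟨m, hm, hmin⟩ := Set.exists_min_image _ id hfin ⟨b, hxb, le_rfl, Or.inr rfl⟩
    obtain ⟨m1, m2, m3⟩ := hm
    have hno : ∀ y, x < y → y < m → ¬ IsRt T φ₁ d y := by
      intro y h1 h2 h3
      exact absurd (hmin y ⟨h1, h2.le.trans m2, Or.inl h3⟩) (not_le.2 h2)
    rcases eq_or_lt_of_le m2 with h1 | h1
    · subst h1
      exact ⟨m, b', hxb, le_rfl, l4, le_rfl, hb, hno⟩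
    · rcases m3 with m3 | m3
      · obtain ⟨m', n1, n2, n3⟩ := h12 a₁ b a₂ b' (l2.trans hxb) l4 l5 hb m (l2.trans m1) h1 m3
        exact ⟨m, m', m1, m2, n1, n2.le, n3, hno⟩
      · exact absurd m3 (ne_of_lt h1)
  have hno₁ : ∀ y, a₁ < y → y < b₁ → ¬ IsRt T φ₁ d y := by
    intro y h1 h2 h3
    rcases lt_trichotomy y x with h4 | h4 | h4
    · exact l6 y h1 h4 h3
    · subst h4
      exact hx h3
    · exact r6 y h4 h2 h3
  refine ⟨a₁, b₁, a₂, b₂, l1, l2, r1, r2, l3, r3, r4, l5, r5, hno₁, ?_⟩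
  intro y h1 h2 h3
  obtain ⟨z, z1, z2, z3⟩ := h21 a₂ b₂ a₁ b₁ r3 (l2.trans r1) l5.symm r5.symm y h1 h2 h3
  exact hno₁ z z1 z2 (h3.transfer hT h.symm hde z3)

/-- Lemma 0 -/
lemma rfwd_of_fwd (hT : Closed T) (h : Agr T φ₁ φ₂) {d : ℕ} (hF : Fwd T φ₁ φ₂ d) :
    RFwd T φ₁ φ₂ d (d + 1) := by
  intro a b a' b' hab hab' ha hb x hax hxb hx
  obtain ⟨x', h1, h2, h3⟩ := hF a b a' b' hab hab' (ha.mono (Nat.le_succ d))
    (hb.mono (Nat.le_succ d)) x hax hxb
  obtain ⟨P, p1, p2, p3, p4⟩ := hx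
  refine ⟨x', h1, h2, sim_of_root hT h h3 p1 (by omega) p3 p4 ?_⟩
  have := h3 P p1 p2
  rw [p4, sign_zero] at this
  exact sign_eq_zero_iff.1 this.symm

lemma natDegree_pos_of_root {R : Type*} [Field R] {p : R[X]} (hp : p ≠ 0) {x : R}
    (hx : p.eval x = 0) : 0 < p.natDegree := by
  rcases Nat.eq_zero_or_pos p.natDegree with h | h
  · exfalso
    rw [eq_C_of_natDegree_eq_zero h, eval_C] at hx
    apply hp
    rw [eq_C_of_natDegree_eq_zero h, hx, C_0]
  · exact h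

omit [LinearOrder R₁] [IsStrictOrderedRing R₁] in
lemma not_isRt_eval {d : ℕ} {P : A[X]} (hP : P ∈ T) (hd : P.natDegree ≤ d) (h0 : P.map φ₁ ≠ 0)
    {x : R₁} (hx : ¬ IsRt T φ₁ d x) : (P.map φ₁).eval x ≠ 0 :=
  fun h => hx ⟨P, hP, hd, h0, h⟩

omit [IsStrictOrderedRing R₁] in
/-- signs are constant on intervals without roots -/
lemma sim_of_noroot (hI₂ : IVT R₂) {d : ℕ} {x : R₁} {y z a b : R₂}
    (hay : a < y) (hyb : y < b) (haz : a < z) (hzb : z < b)
    (hno : ∀ y, a < y → y < b → ¬ IsRt T φ₂ d y) (hs : Sim T φ₁ φ₂ d x y) :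
    Sim T φ₁ φ₂ d x z := by
  intro P hP hd
  rw [hs P hP hd]
  by_cases h0 : P.map φ₂ = 0
  · simp [h0]
  rcases lt_trichotomy y z with h1 | h1 | h1
  · exact sign_const hI₂ _ h1 (not_isRt_eval hP hd h0 (hno y hay hyb))
      (not_isRt_eval hP hd h0 (hno z haz hzb))
      (fun w h2 h3 => not_isRt_eval hP hd h0 (hno w (hay.trans h2) (h3.trans hzb)))
  · rw [h1]
  · exact (sign_const hI₂ _ h1 (not_isRt_eval hP hd h0 (hno z haz hzb))
      (not_isRt_eval hP hd h0 (hno y hay hyb))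
      (fun w h2 h3 => not_isRt_eval hP hd h0 (hno w (haz.trans h2) (h3.trans hyb)))).symm

/-- Lemma 1 -/
lemma rfwd_succ (hI₁ : IVT R₁) (hR₁ : Rolle R₁) (hI₂ : IVT R₂) (hT : Closed T) (hf : T.Finite)
    (h : Agr T φ₁ φ₂) {d : ℕ} (hF : Fwd T φ₁ φ₂ d) (hF' : Fwd T φ₂ φ₁ d) :
    RFwd T φ₁ φ₂ (d + 1) (d + 1) := by
  intro a b a' b' hab hab' ha hb x hax hxb hx
  by_cases hxr : IsRt T φ₁ d x
  · exact rfwd_of_fwd hT h hF a b a' b' hab hab' ha hb x hax hxb hxr
  obtain ⟨a₁, b₁, a₂, b₂, g1, g2, g3, g4, g5, g6, g7, g8, g9, g10, g11⟩ :=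
    shrink hT hf h (Nat.le_succ d) (rfwd_of_fwd hT h hF) (rfwd_of_fwd hT h.symm hF') hab hab' ha
      hb hax hxb hxr
  obtain ⟨P, p1, p2, p3, p4⟩ := hx
  have hder : (derivative P).map φ₁ ≠ 0 := by
    rw [← derivative_map]
    intro h0
    have h1 := natDegree_pos_of_root p3 p4
    have h2 := derivative_eq_zero.1 h0
    omega
  have hdeg : (derivative P).natDegree ≤ d := by
    have := natDegree_derivative_le P
    omega
  have hopp : (P.map φ₁).eval a₁ * (P.map φ₁).eval b₁ < 0 := by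
    refine opp hI₁ hR₁ _ g2 g3 p4 ?_
    intro y h1 h2
    rw [derivative_map]
    exact not_isRt_eval (hT.der P p1) hdeg hder (g10 y h1 h2)
  have hopp' : (P.map φ₂).eval a₂ * (P.map φ₂).eval b₂ < 0 := by
    have e1 : SignType.sign ((P.map φ₁).eval a₁ * (P.map φ₁).eval b₁) =
        SignType.sign ((P.map φ₂).eval a₂ * (P.map φ₂).eval b₂) := by
      rw [sign_mul, sign_mul, g8 P p1 p2, g9 P p1 p2]
    rw [sign_neg hopp] at e1
    exact sign_eq_neg_one_iff.1 e1.symm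
  obtain ⟨x', k1, k2, k3⟩ := ivt_mul hI₂ _ a₂ b₂ g6 hopp'
  obtain ⟨y', y1, y2, y3⟩ := hF a₁ b₁ a₂ b₂ (g2.trans g3) g6 (g8.mono (Nat.le_succ d))
    (g9.mono (Nat.le_succ d)) x g2 g3
  refine ⟨x', lt_of_le_of_lt g5 k1, lt_of_lt_of_le k2 g7, ?_⟩
  exact sim_of_root hT h (sim_of_noroot hI₂ y1 y2 k1 k2 g11 y3) p1 p2 p3 p4 k3

/-- the sign of a polynomial inside an interval without roots of it and its derivative -/
lemma sign_mid (hI₁ : IVT R₁) (hR₁ : Rolle R₁) (p : R₁[X]) {a x b : R₁} (hax : a < x)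
    (hxb : x < b) (hno : ∀ y, a < y → y < b → p.eval y ≠ 0)
    (hno' : ∀ y, a < y → y < b → p.derivative.eval y ≠ 0) :
    SignType.sign (p.eval x) = if SignType.sign (p.eval a) = 0 then SignType.sign (p.eval b) else
      SignType.sign (p.eval a) := by
  by_cases h0 : p.eval a = 0
  · rw [h0, sign_zero, if_pos rfl]
    have hb : p.eval b ≠ 0 := by
      intro hb
      obtain ⟨c, h1, h2, h3⟩ := hR₁ p a b (hax.trans hxb) h0 hb
      exact hno' c h1 h2 h3
    exact sign_const hI₁ p hxb (hno x hax hxb) hb (fun y h1 h2 => hno y (hax.trans h1) h2)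
  · rw [if_neg (fun h => h0 (sign_eq_zero_iff.1 h))]
    exact (sign_const hI₁ p hax h0 (hno x hax hxb) (fun y h1 h2 => hno y h1 (h2.trans hxb))).symm

/-- Lemma 2 -/
lemma fwd_of_rfwd (hI₁ : IVT R₁) (hR₁ : Rolle R₁) (hI₂ : IVT R₂) (hR₂ : Rolle R₂)
    (hT : Closed T) (hf : T.Finite) (h : Agr T φ₁ φ₂) {d : ℕ} (hF : RFwd T φ₁ φ₂ d d)
    (hF' : RFwd T φ₂ φ₁ d d) : Fwd T φ₁ φ₂ d := by
  intro a b a' b' hab hab' ha hb x hax hxb
  by_cases hxr : IsRt T φ₁ d x
  · exact hF a b a' b' hab hab' ha hb x hax hxb hxr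
  obtain ⟨a₁, b₁, a₂, b₂, g1, g2, g3, g4, g5, g6, g7, g8, g9, g10, g11⟩ :=
    shrink hT hf h le_rfl hF hF' hab hab' ha hb hax hxb hxr
  obtain ⟨x', k1, k2⟩ := exists_between g6
  refine ⟨x', lt_of_le_of_lt g5 k1, lt_of_lt_of_le k2 g7, ?_⟩
  intro P hP hd
  rcases reduce hT h _ P hP le_rfl with h1 | ⟨Q, q1, q2, q3, q4, q5, q6⟩
  · rw [h1.1, h1.2]
    simp
  rw [← q3, ← q4]
  have hQd : Q.natDegree ≤ d := q2.trans hd
  rcases Nat.eq_zero_or_pos Q.natDegree with h2 | h2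
  · have h3 := eq_C_of_natDegree_eq_zero h2
    rw [h3] at q1 ⊢
    simp only [map_C, eval_C]
    exact h _ q1
  have n1 : Q.map φ₁ ≠ 0 := by
    intro h0
    apply q5
    have := congrArg (fun p => coeff p Q.natDegree) h0
    simpa [coeff_map] using this
  have n2 : Q.map φ₂ ≠ 0 := fun h0 => n1 ((map_zero_iff' hT h q1).2 h0)
  have d1 : (derivative Q).map φ₁ ≠ 0 := by
    rw [← derivative_map]
    intro h0
    have h3 := derivative_eq_zero.1 h0
    rw [natDegree_map_of_leadingCoeff_ne_zero _ q5] at h3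
    omega
  have d2 : (derivative Q).map φ₂ ≠ 0 := fun h0 => d1 ((map_zero_iff' hT h (hT.der Q q1)).2 h0)
  have hdeg : (derivative Q).natDegree ≤ d := by
    have := natDegree_derivative_le Q
    omega
  rw [sign_mid hI₁ hR₁ _ g2 g3 (fun y h3 h4 => not_isRt_eval q1 hQd n1 (g10 y h3 h4))
      (fun y h3 h4 => by
        rw [derivative_map]
        exact not_isRt_eval (hT.der Q q1) hdeg d1 (g10 y h3 h4)),
    sign_mid hI₂ hR₂ _ k1 k2 (fun y h3 h4 => not_isRt_eval q1 hQd n2 (g11 y h3 h4))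
      (fun y h3 h4 => by
        rw [derivative_map]
        exact not_isRt_eval (hT.der Q q1) hdeg d2 (g11 y h3 h4)), g8 Q q1 hQd, g9 Q q1 hQd]

omit [IsStrictOrderedRing R₁] [IsStrictOrderedRing R₂] in
lemma sim_zero (h : Agr T φ₁ φ₂) (x : R₁) (y : R₂) : Sim T φ₁ φ₂ 0 x y := by
  intro P hP hd
  have h3 := eq_C_of_natDegree_le_zero hd
  rw [h3] at hP ⊢
  simp only [map_C, eval_C]
  exact h _ hP

theorem fwd (hI₁ : IVT R₁) (hR₁ : Rolle R₁) (hI₂ : IVT R₂) (hR₂ : Rolle R₂)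
    (hT : Closed T) (hf : T.Finite) (h : Agr T φ₁ φ₂) (d : ℕ) :
    Fwd T φ₁ φ₂ d ∧ Fwd T φ₂ φ₁ d := by
  induction d with
  | zero =>
    constructor
    · intro a b a' b' _ hab' _ _ x _ _
      obtain ⟨x', h1, h2⟩ := exists_between hab'
      exact ⟨x', h1, h2, sim_zero h x x'⟩
    · intro a b a' b' _ hab' _ _ x _ _
      obtain ⟨x', h1, h2⟩ := exists_between hab'
      exact ⟨x', h1, h2, sim_zero h.symm x x'⟩
  | succ d ih =>
    have h1 := rfwd_succ hI₁ hR₁ hI₂ hT hf h ih.1 ih.2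
    have h2 := rfwd_succ hI₂ hR₂ hI₁ hT hf h.symm ih.2 ih.1
    exact ⟨fwd_of_rfwd hI₁ hR₁ hI₂ hR₂ hT hf h h1 h2,
      fwd_of_rfwd hI₂ hR₂ hI₁ hR₁ hT hf h.symm h2 h1⟩

lemma signs_at_infinity {R : Type*} [Field R] [LinearOrder R] [IsStrictOrderedRing R]
    {φ : A →+* R} {T : Set A[X]} (hf : T.Finite) (x : R) : ∃ a b : R, a < x ∧ x < b ∧
    ∀ P ∈ T, P.map φ ≠ 0 → (∀ y, b ≤ y → SignType.sign ((P.map φ).eval y) =
      SignType.sign (P.map φ).leadingCoeff) ∧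
      ∀ y, y ≤ a → SignType.sign ((P.map φ).eval y) =
      SignType.sign ((-1) ^ (P.map φ).natDegree * (P.map φ).leadingCoeff) := by
  classical
  induction T, hf using Set.Finite.induction_on with
  | empty => exact ⟨x - 1, x + 1, by simp, by simp, by simp⟩
  | @insert P T _ _ ih =>
    obtain ⟨a, b, h1, h2, h3⟩ := ih
    by_cases h0 : P.map φ = 0
    · refine ⟨a, b, h1, h2, ?_⟩
      intro Q hQ hQ0
      rcases hQ with rfl | hQ
      · exact absurd h0 hQ0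
      · exact h3 Q hQ hQ0
    · obtain ⟨m, hm⟩ := sign_top _ h0
      obtain ⟨m', hm'⟩ := sign_bot _ h0
      refine ⟨min a m', max b m, lt_of_le_of_lt (min_le_left _ _) h1,
        lt_of_lt_of_le h2 (le_max_left _ _), ?_⟩
      intro Q hQ hQ0
      rcases hQ with rfl | hQ
      · exact ⟨fun y hy => hm y (le_trans (le_max_right _ _) hy),
          fun y hy => hm' y (le_trans hy (min_le_right _ _))⟩
      · exact ⟨fun y hy => (h3 Q hQ hQ0).1 y (le_trans (le_max_left _ _) hy),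
          fun y hy => (h3 Q hQ hQ0).2 y (le_trans hy (min_le_left _ _))⟩

omit [IsStrictOrderedRing R₁] [IsStrictOrderedRing R₂] in
lemma sim_inf (hT : Closed T) (h : Agr T φ₁ φ₂) (ε : ℕ → ℤ) (d : ℕ) {x : R₁} {y : R₂}
    (hx : ∀ P ∈ T, P.map φ₁ ≠ 0 → SignType.sign ((P.map φ₁).eval x) =
      SignType.sign ((ε (P.map φ₁).natDegree : R₁)) * SignType.sign (P.map φ₁).leadingCoeff)
    (hy : ∀ P ∈ T, P.map φ₂ ≠ 0 → SignType.sign ((P.map φ₂).eval y) =
      SignType.sign ((ε (P.map φ₂).natDegree : R₂)) * SignType.sign (P.map φ₂).leadingCoeff)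
    (hε : ∀ n, SignType.sign ((ε n : R₁)) = SignType.sign ((ε n : R₂))) :
    Sim T φ₁ φ₂ d x y := by
  intro P hP _
  rcases reduce hT h _ P hP le_rfl with h1 | ⟨Q, q1, q2, q3, q4, q5, q6⟩
  · rw [h1.1, h1.2]
    simp
  rw [← q3, ← q4]
  have n1 : Q.map φ₁ ≠ 0 := by
    intro h0
    apply q5
    have := congrArg (fun p => coeff p Q.natDegree) h0
    simpa [coeff_map] using this
  have n2 : Q.map φ₂ ≠ 0 := fun h0 => n1 ((map_zero_iff' hT h q1).2 h0)
  rw [hx Q q1 n1, hy Q q1 n2, natDegree_map_of_leadingCoeff_ne_zero _ q5,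
    natDegree_map_of_leadingCoeff_ne_zero _ q6, leadingCoeff_map_of_leadingCoeff_ne_zero _ q5,
    leadingCoeff_map_of_leadingCoeff_ne_zero _ q6, hε, h _ (hT.lead Q q1)]

/-- Transfer of sign vectors -/
theorem transfer (hI₁ : IVT R₁) (hR₁ : Rolle R₁) (hI₂ : IVT R₂) (hR₂ : Rolle R₂)
    (hT : Closed T) (hf : T.Finite) (h : Agr T φ₁ φ₂) (x : R₁) :
    ∃ y : R₂, ∀ P ∈ T, SignType.sign ((P.map φ₁).eval x) = SignType.sign ((P.map φ₂).eval y) := by
  obtain ⟨d, hd⟩ : ∃ d : ℕ, ∀ P ∈ T, P.natDegree ≤ d := by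
    obtain ⟨d, hd⟩ := (hf.image natDegree).bddAbove
    exact ⟨d, fun P hP => hd ⟨P, hP, rfl⟩⟩
  obtain ⟨a, b, ha, hb, hab⟩ := signs_at_infinity (φ := φ₁) hf x
  obtain ⟨a', b', ha', hb', hab'⟩ := signs_at_infinity (φ := φ₂) hf (0 : R₂)
  have h1 : Sim T φ₁ φ₂ d a a' := by
    refine sim_inf hT h (fun n => (-1) ^ n) d ?_ ?_ ?_
    · intro P hP h0
      rw [(hab P hP h0).2 a le_rfl, sign_mul]
      simp
    · intro P hP h0
      rw [(hab' P hP h0).2 a' le_rfl, sign_mul]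
      simp
    · intro n
      rcases Nat.even_or_odd n with hn | hn
      · simp [hn.neg_one_pow]
      · simp [hn.neg_one_pow]
  have h2 : Sim T φ₁ φ₂ d b b' := by
    refine sim_inf hT h (fun _ => 1) d ?_ ?_ ?_
    · intro P hP h0
      rw [(hab P hP h0).1 b le_rfl]
      simp
    · intro P hP h0
      rw [(hab' P hP h0).1 b' le_rfl]
      simp
    · intro n
      simp
  obtain ⟨y, _, _, hy⟩ := (fwd hI₁ hR₁ hI₂ hR₂ hT hf h d).1 a b a' b' (ha.trans hb)
    (ha'.trans hb') h1 h2 x ha hb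
  exact ⟨y, fun P hP => hy P hP (hd P hP)⟩

end Two

end Pool.Agent.RSV.QE
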